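import Pool.Agent.LibHL77.Defs
import Pool.Agent.LibCHd.B5

/-!
[HL77 A3] the function field of the generic hyperplane section: properties. Proofs. `he_nc`: if all ratios were
algebraic over `k` then, some `φ b` being not zero (hypothesis), the relation `rel` divided by `φ b` is a linear relation between
`1, T_1, T_2` with coefficients in a finite extension of `k`, not all zero, so `T_1, T_2` would be algebraically
dependent over `k`; but they are the variables of `Lf k`. `he_free`: take `j` from `tr`; the other coefficient is not zero: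
otherwise `rel` is `φ 0 + T_j φ_{j+1} = 0`, so `φ_{j+1} = 0` and `φ 0 = 0` because `T_j` is transcendental over `M`, so
`φ = 0`. (`j.succ : Fin 3` is the index of the coefficient of `T_j`, `1 - j` the other variable, or write two cases.)
`he_funF`: `M' = i(M)(T_j)` by `he_free`, so `trdeg k M' = d + 2`, `M'` is finitely generated over `k`, hence over
`Lf k`, and `trdeg (Lf k) M' = d` (additivity of the transcendence degree, `trdeg k (Lf k) = 2`); `FunF` from a transcendence basis
contained in a finite set of generators.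
-/

open scoped Classical
open Polynomial

namespace Pool.Agent.LibHL77

open Pool.Agent.LibBH2
open Pool.Agent.LibCHd (VR RF Red FunF)
open Pool.Agent.LibHyp34 (Hyp Pt Pic jP Sp KC DCf gn)
open Pool.Agent.LibHD77

variable {k : Type} [Field k] {M M' : Type} [Field M] [Algebra k M] [Field M']
  [Algebra (Lf k) M'] {i : EHom k (Lf k) M M'} {φ : Fin 3 → M}

theorem a3_rel (h : HE i φ) {j j' : Fin 2} (hj : j ≠ j') :
    i.f (φ 0) + algebraMap (Lf k) M' (tt k j) * i.f (φ j.succ) +
      algebraMap (Lf k) M' (tt k j') * i.f (φ j'.succ) = 0 := by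
  have h1 := h.rel
  have hj01 : (j = 0 ∧ j' = 1) ∨ (j = 1 ∧ j' = 0) := by omega
  have h7 : (Fin.succ (0 : Fin 2)) = (1 : Fin 3) := rfl
  have h8 : (Fin.succ (1 : Fin 2)) = (2 : Fin 3) := rfl
  rcases hj01 with ⟨h5, h6⟩ | ⟨h5, h6⟩
  · rw [h5, h6, h7, h8]
    exact h1
  · rw [h5, h6, h7, h8, ← h1]
    ring

/-- the variables are independent -/
theorem a3_tt (k : Type) [Field k] (M' : Type) [Field M'] [Algebra (Lf k) M'] [Algebra k M']
    [IsScalarTower k (Lf k) M'] :
    AlgebraicIndependent k (fun j => algebraMap (Lf k) M' (tt k j)) := by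
  have h1 : AlgebraicIndependent k (MvPolynomial.X : Fin 2 → MvPolynomial (Fin 2) k) :=
    MvPolynomial.algebraicIndependent_X (Fin 2) k
  have h2 : AlgebraicIndependent k (tt k) := by
    have h3 := h1.map' (f := IsScalarTower.toAlgHom k (MvPolynomial (Fin 2) k) (Lf k))
      (IsFractionRing.injective (MvPolynomial (Fin 2) k) (Lf k))
    exact h3
  exact h2.map' (f := IsScalarTower.toAlgHom k (Lf k) M') (algebraMap (Lf k) M').injective

theorem he_nc (h : HE i φ) (hφ : ∃ b, φ b ≠ 0) : NC k φ := by
  obtain ⟨b, hb⟩ := hφ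
  by_contra hcon
  have hal : ∀ a, IsAlgebraic k (φ a / φ b) := by
    intro a
    by_contra h1
    exact hcon ⟨a, b, hb, h1⟩
  letI algk : Algebra k M' := ((algebraMap (Lf k) M').comp (algebraMap k (Lf k))).toAlgebra
  haveI : IsScalarTower k (Lf k) M' := IsScalarTower.of_algebraMap_eq fun _ => rfl
  let f' : M →ₐ[k] M' := { i.f with commutes' := fun c => i.comm c }
  have hf' : ∀ m, f' m = i.f m := fun _ => rfl
  have hind := (a3_tt k M').algebraicClosure
  have hmem : ∀ a, i.f (φ a / φ b) ∈ algebraicClosure k M' := by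
    intro a
    rw [mem_algebraicClosure_iff, ← hf']
    exact (hal a).algHom f'
  let c : Fin 3 → algebraicClosure k M' := fun a => ⟨i.f (φ a / φ b), hmem a⟩
  have hc : ∀ a, algebraMap (algebraicClosure k M') M' (c a) = i.f (φ a) / i.f (φ b) := by
    intro a
    change i.f (φ a / φ b) = _
    exact map_div₀ i.f _ _
  have hrel : MvPolynomial.aeval (fun j => algebraMap (Lf k) M' (tt k j))
      (MvPolynomial.C (c 0) + MvPolynomial.X 0 * MvPolynomial.C (c 1) + MvPolynomial.X 1 * MvPolynomial.C (c 2)) = 0 := by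
    simp only [map_add, map_mul, MvPolynomial.aeval_X, MvPolynomial.aeval_C, hc]
    have h1 := h.rel
    have hb' : i.f (φ b) ≠ 0 := by
      rw [Ne, map_eq_zero]
      exact hb
    field_simp
    linear_combination h1
  have h0 := (algebraicIndependent_iff.1 hind) _ hrel
  have hcoef : ∀ a, c a = 0 := by
    have e0 := congrArg (MvPolynomial.eval (fun _ : Fin 2 => (0 : algebraicClosure k M'))) h0
    have e1 := congrArg (MvPolynomial.eval (fun i : Fin 2 => if i = 0 then (1 : algebraicClosure k M') else 0)) h0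
    have e2 := congrArg (MvPolynomial.eval (fun i : Fin 2 => if i = 1 then (1 : algebraicClosure k M') else 0)) h0
    simp at e0 e1 e2
    rw [e0, zero_add] at e1 e2
    intro a
    fin_cases a
    · exact e0
    · exact e1
    · exact e2
  have h1 := hcoef b
  have h2 : (i.f (φ b / φ b) : M') = 0 := congrArg Subtype.val h1
  rw [div_self hb, map_one] at h2
  exact one_ne_zero h2

/-- one of the variables is free, the other is determined -/
theorem he_free (h : HE i φ) (hφ : ∃ b, φ b ≠ 0) :
    ∃ j j' : Fin 2, j ≠ j' ∧ φ j'.succ ≠ 0 ∧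
      (∀ G : M[X], G ≠ 0 → G.eval₂ i.f (algebraMap (Lf k) M' (tt k j)) ≠ 0) ∧
      algebraMap (Lf k) M' (tt k j') = - (i.f (φ 0) + algebraMap (Lf k) M' (tt k j) *
        i.f (φ j.succ)) / i.f (φ j'.succ) ∧
      ∀ z : M', ∃ P Q : M[X], Q ≠ 0 ∧
        z = P.eval₂ i.f (algebraMap (Lf k) M' (tt k j)) / Q.eval₂ i.f (algebraMap (Lf k) M' (tt k j)) := by
  obtain ⟨j, hj⟩ := h.tr
  obtain ⟨j', hjj⟩ : ∃ j' : Fin 2, j ≠ j' := ⟨j + 1, by omega⟩
  have hrel := a3_rel h hjj
  have hcase : ∀ c : Fin 3, c = 0 ∨ c = j.succ ∨ c = j'.succ := by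
    intro c
    have h1 := j.2
    have h2 := j'.2
    have h3 : (j : ℕ) ≠ (j' : ℕ) := fun h => hjj (Fin.ext h)
    have h4 := c.2
    simp only [Fin.ext_iff, Fin.val_succ, Fin.val_zero]
    omega
  have hj' : φ j'.succ ≠ 0 := by
    intro h0
    rw [h0, map_zero, mul_zero, add_zero] at hrel
    have h1 : C (φ 0) + X * C (φ j.succ) = 0 := by
      by_contra hne
      apply hj _ hne
      rw [eval₂_add, eval₂_mul, eval₂_C, eval₂_C, eval₂_X]
      exact hrel
    have h2 : φ 0 = 0 := by
      have := congrArg (eval 0) h1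
      simpa using this
    have h3 : φ j.succ = 0 := by
      have := congrArg (eval 1) h1
      simpa [h2] using this
    obtain ⟨b, hb⟩ := hφ
    rcases hcase b with h | h | h
    · exact hb (by rw [h, h2])
    · exact hb (by rw [h, h3])
    · exact hb (by rw [h, h0])
  have hj'f : i.f (φ j'.succ) ≠ 0 := by
    rw [Ne, map_eq_zero]
    exact hj'
  have htj' : algebraMap (Lf k) M' (tt k j') = - (i.f (φ 0) + algebraMap (Lf k) M' (tt k j) *
        i.f (φ j.succ)) / i.f (φ j'.succ) := by
    rw [eq_div_iff hj'f]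
    linear_combination hrel
  refine ⟨j, j', hjj, hj', hj, htj', ?_⟩
  -- the subfield of the quotients
  let ev : M[X] →+* M' := eval₂RingHom i.f (algebraMap (Lf k) M' (tt k j))
  have hev : ∀ P, ev P = P.eval₂ i.f (algebraMap (Lf k) M' (tt k j)) := fun _ => rfl
  have hinj : ∀ P, ev P = 0 → P = 0 := by
    intro P hP
    by_contra hne
    exact hj P hne hP
  let F : Subfield M' :=
    { carrier := {z | ∃ P Q : M[X], Q ≠ 0 ∧ z = ev P / ev Q}
      mul_mem' := by
        rintro a b ⟨P, Q, hQ, rfl⟩ ⟨P', Q', hQ', rfl⟩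
        exact ⟨P * P', Q * Q', mul_ne_zero hQ hQ', by rw [map_mul, map_mul]; ring⟩
      one_mem' := ⟨1, 1, one_ne_zero, by simp⟩
      add_mem' := by
        rintro a b ⟨P, Q, hQ, rfl⟩ ⟨P', Q', hQ', rfl⟩
        refine ⟨P * Q' + P' * Q, Q * Q', mul_ne_zero hQ hQ', ?_⟩
        have h1 : ev Q ≠ 0 := fun h => hQ (hinj _ h)
        have h2 : ev Q' ≠ 0 := fun h => hQ' (hinj _ h)
        rw [map_mul, map_add, map_mul, map_mul]
        field_simp
        try ring
      zero_mem' := ⟨0, 1, one_ne_zero, by simp⟩
      neg_mem' := by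
        rintro a ⟨P, Q, hQ, rfl⟩
        exact ⟨-P, Q, hQ, by rw [map_neg]; ring⟩
      inv_mem' := by
        rintro a ⟨P, Q, hQ, rfl⟩
        by_cases hP : P = 0
        · exact ⟨0, 1, one_ne_zero, by rw [hP]; simp⟩
        · exact ⟨Q, P, hP, by rw [inv_div]⟩ }
  have hF : ∀ z, z ∈ F ↔ ∃ P Q : M[X], Q ≠ 0 ∧ z = ev P / ev Q := fun _ => Iff.rfl
  have hFM : ∀ m : M, i.f m ∈ F := by
    intro m
    rw [hF]
    exact ⟨C m, 1, one_ne_zero, by rw [hev, eval₂_C, map_one, div_one]⟩
  have hFt : algebraMap (Lf k) M' (tt k j) ∈ F := by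
    rw [hF]
    exact ⟨X, 1, one_ne_zero, by rw [hev, eval₂_X, map_one, div_one]⟩
  have hFt' : algebraMap (Lf k) M' (tt k j') ∈ F := by
    rw [htj']
    exact div_mem (neg_mem (add_mem (hFM _) (mul_mem hFt (hFM _)))) (hFM _)
  have hFtt : ∀ l : Fin 2, algebraMap (Lf k) M' (tt k l) ∈ F := by
    intro l
    have : l = j ∨ l = j' := by omega
    rcases this with h | h
    · rw [h]; exact hFt
    · rw [h]; exact hFt'
  have hFL : ∀ x : Lf k, algebraMap (Lf k) M' x ∈ F := by
    have hpol : ∀ P : MvPolynomial (Fin 2) k, algebraMap (Lf k) M' (algebraMap (MvPolynomial (Fin 2) k) (Lf k) P) ∈ F := by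
      intro P
      induction P using MvPolynomial.induction_on with
      | C a =>
        have h1 : algebraMap (MvPolynomial (Fin 2) k) (Lf k) (MvPolynomial.C a) = algebraMap k (Lf k) a := by
          rw [IsScalarTower.algebraMap_apply k (MvPolynomial (Fin 2) k) (Lf k)]
          rfl
        rw [h1, ← i.comm]
        exact hFM _
      | add p q hp hq =>
        rw [map_add, map_add]
        exact add_mem hp hq
      | mul_X p l hp =>
        rw [map_mul, map_mul]
        exact mul_mem hp (hFtt l)
    intro x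
    obtain ⟨P, Q, _, rfl⟩ := IsFractionRing.div_surjective (A := MvPolynomial (Fin 2) k) x
    rw [map_div₀]
    exact div_mem (hpol P) (hpol Q)
  intro z
  have h1 : z ∈ IntermediateField.adjoin (Lf k) (Set.range i.f) := by
    rw [h.gen]
    exact IntermediateField.mem_top
  have h2 : IntermediateField.adjoin (Lf k) (Set.range i.f) ≤ F.toIntermediateField hFL := by
    rw [IntermediateField.adjoin_le_iff]
    rintro _ ⟨m, rfl⟩
    exact hFM m
  exact h2 h1

theorem a3_fin {F E : Type} [Field F] [Field E] [Algebra F E] (hal : Algebra.IsAlgebraic F E) (S : Finset E)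
    (h : ∀ L : IntermediateField F E, (∀ x ∈ S, x ∈ L) → L = ⊤) : FiniteDimensional F E := by
  have h1 : FiniteDimensional F (IntermediateField.adjoin F (S : Set E)) :=
    IntermediateField.finiteDimensional_adjoin fun x _ => (hal.isAlgebraic x).isIntegral
  have h2 : IntermediateField.adjoin F (S : Set E) = ⊤ :=
    h _ fun x hx => IntermediateField.subset_adjoin _ _ hx
  rw [h2] at h1
  exact Module.Finite.equiv (IntermediateField.topEquiv (F := F) (E := E)).toLinearEquiv

/-- a finitely generated field extension of transcendence degree `d` -/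
theorem a3_funF {K E : Type} [Field K] [Field E] [Algebra K E] {d : ℕ} (S : Finset E)
    (hS : ∀ L : IntermediateField K E, (∀ x ∈ S, x ∈ L) → L = ⊤) (hd : Algebra.trdeg K E = d) : FunF K d E := by
  have halg : Algebra.IsAlgebraic (Algebra.adjoin K (S : Set E)) E := by
    have h0 : IntermediateField.adjoin K (S : Set E) = ⊤ :=
      hS _ fun x hx => IntermediateField.subset_adjoin _ _ hx
    have h1 : Algebra.IsAlgebraic (IntermediateField.adjoin K (S : Set E)) E := by
      refine ⟨fun x => ?_⟩
      have hx : x ∈ IntermediateField.adjoin K (S : Set E) := by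
        rw [h0]
        exact IntermediateField.mem_top
      exact isAlgebraic_algebraMap (⟨x, hx⟩ : IntermediateField.adjoin K (S : Set E))
    exact IntermediateField.isAlgebraic_adjoin_iff_top.1 h1
  obtain ⟨u, huS, hu⟩ := exists_isTranscendenceBasis_subset (R := K) (S : Set E)
  have hfin : Finite u := (S.finite_toSet.subset huS).to_subtype
  letI := Fintype.ofFinite u
  have hcard : Fintype.card u = d := by
    have h1 := hu.cardinalMk_eq_trdeg
    rw [hd, Cardinal.mk_fintype] at h1
    exact_mod_cast h1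
  let e : Fin d ≃ u := (Fintype.equivFinOfCardEq hcard).symm
  refine ⟨fun l => (e l : E), ?_, ?_⟩
  · exact hu.1.comp e e.injective
  · have hr : Set.range (fun l => (e l : E)) = u := by
      ext x
      constructor
      · rintro ⟨l, rfl⟩
        exact (e l).2
      · intro hx
        exact ⟨e.symm ⟨x, hx⟩, by simp⟩
    rw [hr]
    have h2 : Algebra.IsAlgebraic (IntermediateField.adjoin K u) E := by
      have h3 := hu.isAlgebraic_field
      rwa [Subtype.range_coe] at h3
    refine a3_fin h2 S fun L hL => ?_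
    have h4 := hS (L.restrictScalars K) hL
    rw [eq_top_iff]
    intro x _
    have h5 : x ∈ L.restrictScalars K := by
      rw [h4]
      exact IntermediateField.mem_top
    exact h5

/-- a function field is finitely generated -/
theorem a3_fg {K E : Type} [Field K] [Field E] [Algebra K E] {d : ℕ} (h : FunF K d E) :
    ∃ S : Finset E, ∀ L : IntermediateField K E, (∀ x ∈ S, x ∈ L) → L = ⊤ := by
  obtain ⟨t, ht, hf⟩ := h
  obtain ⟨s, hs⟩ := hf.fg_top
  refine ⟨s ∪ Finset.univ.image t, fun L hL => ?_⟩
  have h1 : IntermediateField.adjoin K (Set.range t) ≤ L := by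
    rw [IntermediateField.adjoin_le_iff]
    rintro _ ⟨l, rfl⟩
    exact hL _ (by simp)
  rw [eq_top_iff]
  intro x hxt
  clear hxt
  have hx : x ∈ Submodule.span (IntermediateField.adjoin K (Set.range t)) (s : Set E) := by
    rw [hs]
    exact Submodule.mem_top
  induction hx using Submodule.span_induction with
  | mem y hy => exact hL y (by simp [Finset.mem_coe.1 hy])
  | zero => exact zero_mem L
  | add y z _ _ hy hz => exact add_mem hy hz
  | smul a y _ hy =>
    rw [Algebra.smul_def]
    exact mul_mem (h1 a.2) hy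

/-- the variables generate `k(T_1, T_2)` -/
theorem a3_Lf (L : IntermediateField k (Lf k)) (hL : ∀ j, tt k j ∈ L) : L = ⊤ := by
  have hpol : ∀ P : MvPolynomial (Fin 2) k, algebraMap (MvPolynomial (Fin 2) k) (Lf k) P ∈ L := by
    intro P
    induction P using MvPolynomial.induction_on with
    | C a =>
      have h1 : algebraMap (MvPolynomial (Fin 2) k) (Lf k) (MvPolynomial.C a) = algebraMap k (Lf k) a := by
        rw [IsScalarTower.algebraMap_apply k (MvPolynomial (Fin 2) k) (Lf k)]
        rfl
      rw [h1]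
      exact L.algebraMap_mem a
    | add p q hp hq =>
      rw [map_add]
      exact add_mem hp hq
    | mul_X p l hp =>
      rw [map_mul]
      exact mul_mem hp (hL l)
  rw [eq_top_iff]
  intro x _
  obtain ⟨P, Q, _, rfl⟩ := IsFractionRing.div_surjective (A := MvPolynomial (Fin 2) k) x
  exact div_mem (hpol P) (hpol Q)

theorem a3_funF_Lf (k : Type) [Field k] : FunF k 2 (Lf k) := by
  refine ⟨tt k, ?_, ?_⟩
  · have h1 : AlgebraicIndependent k (MvPolynomial.X : Fin 2 → MvPolynomial (Fin 2) k) :=
      MvPolynomial.algebraicIndependent_X (Fin 2) k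
    exact h1.map' (f := IsScalarTower.toAlgHom k (MvPolynomial (Fin 2) k) (Lf k))
      (IsFractionRing.injective (MvPolynomial (Fin 2) k) (Lf k))
  · have h1 : IntermediateField.adjoin k (Set.range (tt k)) = ⊤ :=
      a3_Lf _ fun j => IntermediateField.subset_adjoin _ _ ⟨j, rfl⟩
    refine a3_fin ⟨fun x => ?_⟩ ∅ fun L _ => ?_
    · have hx : x ∈ IntermediateField.adjoin k (Set.range (tt k)) := by
        rw [h1]
        exact IntermediateField.mem_top
      exact isAlgebraic_algebraMap (⟨x, hx⟩ : IntermediateField.adjoin k (Set.range (tt k)))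
    · rw [eq_top_iff]
      intro x _
      have hx : x ∈ IntermediateField.adjoin k (Set.range (tt k)) := by
        rw [h1]
        exact IntermediateField.mem_top
      exact L.algebraMap_mem ⟨x, hx⟩

/-- generators of `M` are generators of `M'` -/
theorem a3_gen (hgen : IntermediateField.adjoin (Lf k) (Set.range i.f) = ⊤) {S : Finset M}
    (hS : ∀ L : IntermediateField k M, (∀ x ∈ S, x ∈ L) → L = ⊤) :
    ∀ L : IntermediateField (Lf k) M', (∀ x ∈ S.image i.f, x ∈ L) → L = ⊤ := by
  intro L hL
  letI algk : Algebra k M' := ((algebraMap (Lf k) M').comp (algebraMap k (Lf k))).toAlgebra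
  haveI : IsScalarTower k (Lf k) M' := IsScalarTower.of_algebraMap_eq fun _ => rfl
  let f' : M →ₐ[k] M' := { i.f with commutes' := fun c => i.comm c }
  have h1 : (L.restrictScalars k).comap f' = ⊤ := by
    apply hS
    intro x hx
    exact hL _ (Finset.mem_image_of_mem _ hx)
  rw [eq_top_iff, ← hgen, IntermediateField.adjoin_le_iff]
  rintro _ ⟨m, rfl⟩
  have h2 : m ∈ (L.restrictScalars k).comap f' := by
    rw [h1]
    exact IntermediateField.mem_top
  exact h2

theorem he_funF (h : HE i φ) (hφ : ∃ b, φ b ≠ 0) {d : ℕ} (hd : FunF k (d + 1) M) :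
    FunF (Lf k) d M' := by
  obtain ⟨S, hS⟩ := a3_fg hd
  refine a3_funF (S.image i.f) (a3_gen h.gen hS) ?_
  obtain ⟨j, j', hjj, hj', hfree, _, hz⟩ := he_free h hφ
  letI algk : Algebra k M' := ((algebraMap (Lf k) M').comp (algebraMap k (Lf k))).toAlgebra
  haveI : IsScalarTower k (Lf k) M' := IsScalarTower.of_algebraMap_eq fun _ => rfl
  letI algM : Algebra M M' := i.f.toAlgebra
  haveI : IsScalarTower k M M' := IsScalarTower.of_algebraMap_eq fun c => (i.comm c).symm
  have h1 : Algebra.trdeg k M = ((d + 1 : ℕ) : Cardinal) := LibCHd.FunF.trdeg hd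
  have h2 : Algebra.trdeg M M' = ((1 : ℕ) : Cardinal) := by
    have hal : ∀ G : M[X], aeval (algebraMap (Lf k) M' (tt k j)) G = G.eval₂ i.f (algebraMap (Lf k) M' (tt k j)) :=
      fun _ => rfl
    have htop : ∀ z : M', z ∈ IntermediateField.adjoin M (Set.range fun _ : Fin 1 => algebraMap (Lf k) M' (tt k j)) := by
      intro z
      obtain ⟨P, Q, hQ, rfl⟩ := hz z
      rw [Set.range_const, IntermediateField.mem_adjoin_simple_iff]
      exact ⟨P, Q, by rw [hal, hal]⟩
    apply LibCHd.FunF.trdeg
    refine ⟨fun _ => algebraMap (Lf k) M' (tt k j), ?_, ?_⟩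
    · rw [algebraicIndependent_unique_type_iff]
      rintro ⟨G, hG, h0⟩
      exact hfree G hG h0
    · refine a3_fin ⟨fun x => ?_⟩ ∅ fun L _ => ?_
      · exact isAlgebraic_algebraMap (⟨x, htop x⟩ :
          IntermediateField.adjoin M (Set.range fun _ : Fin 1 => algebraMap (Lf k) M' (tt k j)))
      · rw [eq_top_iff]
        intro x _
        exact L.algebraMap_mem ⟨x, htop x⟩
  have h3 : Algebra.trdeg k (Lf k) = ((2 : ℕ) : Cardinal) := LibCHd.FunF.trdeg (a3_funF_Lf k)
  have h4 := _root_.trdeg_add_eq k M (A := M')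
  have h5 := _root_.trdeg_add_eq k (Lf k) (A := M')
  rw [h1, h2] at h4
  rw [h3, ← h4] at h5
  have h6 : ((2 : ℕ) : Cardinal) + Algebra.trdeg (Lf k) M' = ((2 : ℕ) : Cardinal) + (d : Cardinal) := by
    rw [h5]
    push_cast
    ring
  exact Cardinal.eq_of_add_eq_add_left h6 (Cardinal.natCast_lt_aleph0)

end Pool.Agent.LibHL77
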