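import Pool.Agent.LibHD77.T0

/-!
Generic hyperplane sections: definitions. The base field is `k`, the sections are cycles over the
field `Lf k = k(T_1, T_2)`.
-/

open scoped Classical
open Polynomial

namespace Pool.Agent.LibHL77

open Pool.Agent.LibBH2
open Pool.Agent.LibCHd (VR RF Red FunF)
open Pool.Agent.LibHyp34 (Hyp Pt Pic jP Sp KC DCf gn)
open Pool.Agent.LibHD77

/-- the field `k(T_1, T_2)` -/
abbrev Lf (k : Type) [Field k] : Type := FractionRing (MvPolynomial (Fin 2) k)

/-- the variables -/
noncomputable def tt (k : Type) [Field k] (j : Fin 2) : Lf k :=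
  algebraMap (MvPolynomial (Fin 2) k) (Lf k) (MvPolynomial.X j)

instance (k : Type) [Field k] [CharZero k] : CharZero (Lf k) :=
  charZero_of_injective_algebraMap (algebraMap k (Lf k)).injective

/-- a homomorphism of fields over the homomorphism `k → L` -/
structure EHom (k L M M' : Type) [Field k] [Field L] [Algebra k L] [Field M] [Algebra k M]
    [Field M'] [Algebra L M'] where
  f : M →+* M'
  comm : ∀ c : k, f (algebraMap k M c) = algebraMap L M' (algebraMap k L c)

section

variable {k L : Type} [Field k] [Field L] [Algebra k L] {M M' : Type} [Field M] [Algebra k M]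
  [Field M'] [Algebra L M']

/-- base change of points -/
noncomputable def lft (i : EHom k L M M') {f : k[X]} : MPt f M → MPt (f.map (algebraMap k L)) M'
  | .inf => .inf
  | .aff x y h => .aff (i.f x) (i.f y) (by
      have h1 : (i.f.comp (algebraMap k M)) = (algebraMap L M').comp (algebraMap k L) :=
        RingHom.ext i.comm
      rw [← map_pow, h, Polynomial.eval_map, Polynomial.hom_eval₂, h1, Polynomial.eval_map,
        Polynomial.eval₂_map])

variable {n : ℕ}

/-- the curves over `L` -/
noncomputable abbrev ext (L : Type) [Field L] [Algebra k L] (F : Fin n → k[X]) : Fin n → L[X] :=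
  fun a => (F a).map (algebraMap k L)

/-- base change of points of the product -/
noncomputable def lftP (i : EHom k L M M') {F : Fin n → k[X]} (u : Pnt F M) : Pnt (ext L F) M' :=
  fun a => lft i (u a)

end

section

variable {k : Type} [Field k] {M : Type} [Field M] [Algebra k M]

/-- the point with the homogeneous coordinates `φ` is not constant -/
def NC (k : Type) [Field k] {M : Type} [Field M] [Algebra k M] (φ : Fin 3 → M) : Prop :=
  ∃ a b, φ b ≠ 0 ∧ Transcendental k (φ a / φ b)

/-- `M'` is the function field (over `k(T_1, T_2)`) of the section of the variety with the function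
field `M` by the hyperplane `φ_0 + T_1 φ_1 + T_2 φ_2 = 0` -/
structure HE {M' : Type} [Field M'] [Algebra (Lf k) M'] (i : EHom k (Lf k) M M')
    (φ : Fin 3 → M) : Prop where
  rel : i.f (φ 0) + algebraMap (Lf k) M' (tt k 0) * i.f (φ 1) +
    algebraMap (Lf k) M' (tt k 1) * i.f (φ 2) = 0
  gen : IntermediateField.adjoin (Lf k) (Set.range i.f) = ⊤
  tr : ∃ j, ∀ G : M[X], G ≠ 0 → G.eval₂ i.f (algebraMap (Lf k) M' (tt k j)) ≠ 0

/-- `M'` is the function field over `k(T_1, T_2)` of the variety with the function field `M` -/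
structure BE {M' : Type} [Field M'] [Algebra (Lf k) M'] (i : EHom k (Lf k) M M') : Prop where
  gen : IntermediateField.adjoin (Lf k) (Set.range i.f) = ⊤
  ind : ∀ G : MvPolynomial (Fin 2) M, G ≠ 0 →
    G.eval₂ i.f (fun j => algebraMap (Lf k) M' (tt k j)) ≠ 0

/-- the multiplicity of the place `v` in the divisor of zeros of the section `φ_z` -/
noncomputable def mult {K : Type} [Field K] [Algebra k K] (φ : Fin 3 → K) (z : Fin 3)
    (v : Place k K) : ℤ :=
  v.ord (φ z) - sInf {m | ∃ j, φ j ≠ 0 ∧ m = v.ord (φ j)}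

end

/-- a morphism of the product to the projective plane, given by homogeneous coordinates -/
structure Mor {k : Type} [Field k] {n : ℕ} (F : Fin n → k[X]) where
  φ : ∀ (M : Type) [Field M] [Algebra k M], Pnt F M → Fin 3 → M
  ne : ∀ (M : Type) [Field M] [Algebra k M] (u : Pnt F M), ∃ i, φ M u i ≠ 0
  nat : ∀ (M M' : Type) [Field M] [Algebra k M] [Field M'] [Algebra k M'] (σ : M →ₐ[k] M')
    (u : Pnt F M) (i : Fin 3), φ M' (fun a => mpt σ (u a)) i = σ (φ M u i)
  sp : ∀ (K : Type) [Field K] [Algebra k K] (v : Place k K) (u : Pnt F K) (q : Pnt F (RF v)),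
    (∀ a, SpR v (u a) (q a)) → ∃ l : K, ∀ i, Red v (l * φ K u i) (φ (RF v) q i)

section

variable {k : Type} [Field k] {n : ℕ}

/-- `c` is the cycle of zeros of the section `φ_z` on the variety with the generic point `u` -/
def IsZ {F : Fin n → k[X]} {M : Type} [Field M] [Algebra k M] (φ : Fin 3 → M) (z : Fin 3)
    (u : Pnt F M) (d : ℕ) (c : Cyc k n) : Prop :=
  ∃ (S : Finset (Place k M)) (C : Place k M → Cyc k n),
    (∀ v ∈ S, FunF k d (RF v) ∧ ∃ q : Pnt F (RF v), (∀ a, SpR v (u a) (q a)) ∧ C v = cyc q) ∧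
    (∀ v, v ∉ S → mult φ z v ≠ 0 → FunF k d (RF v) → ∀ q : Pnt F (RF v),
      (∀ a, SpR v (u a) (q a)) → cyc q = 0) ∧
    c = ∑ v ∈ S, mult φ z v • C v

/-- transport of points between equal curves -/
noncomputable def tr (f g : k[X]) (s : Pt f) : Pt g := if h : f = g then h ▸ s else .inf

/-- the diagonal with the blocks `τ e` (all signs `1`) and the constants `s` -/
noncomputable def pp {D : ℕ} {F : Fin n → k[X]} (τ : Fin D → Finset (Fin n))
    (s : ∀ a, Pt (F a)) : Dia F D := fun a =>
  if h : ∃ e, a ∈ τ e then .inr (h.choose, 1) else .inl (s a)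

/-- disjoint non-empty blocks, each on one curve -/
def Val {D : ℕ} {Lb : Type} (l : Fin n → Lb) (τ : Fin D → Finset (Fin n)) : Prop :=
  (∀ e e', e ≠ e' → Disjoint (τ e) (τ e')) ∧ ∀ e, (τ e).Nonempty ∧ ∀ a ∈ τ e, ∀ b ∈ τ e, l a = l b

/-- a diagonal over the larger field -/
noncomputable def extD (L : Type) [Field L] [Algebra k L] {D : ℕ} {F : Fin n → k[X]}
    (δ : Dia F D) : Dia (ext L F) D := fun a => Sum.map (fun s => (cst L s : MPt (F a) L)) id (δ a)

/-- families of homomorphisms of the Picard groups to the rational numbers -/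
abbrev Fnl (k : Type) [Field k] : Type := ∀ (f : k[X]) [Hyp f], Pic f →+ ℚ

/-- the combinations of the classes of diagonals with blocks with one or two elements are
determined by their numbers -/
def Low (k : Type) [Field k] {n : ℕ} (F : Fin n → k[X]) [∀ a, Hyp (F a)] (D : ℕ) : Prop :=
  ∀ (lam : Fnl k) (J : Type) (_ : Fintype J) (m : J → ℤ) (τ : J → Fin D → Finset (Fin n))
    (s : J → ∀ a, Pt (F a)), (∀ j, Val F (τ j) ∧ ∀ e, (τ j e).card ≤ 2) →
    IsOfFinAddOrder (∑ j, m j • cl (pp (τ j) (s j) : Dia F D)) →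
    ∀ T : Finset (Finset (Fin n)),
      ∑ j, (if Finset.univ.image (τ j) = T then m j else 0) = 0 ∧
      ∀ a, (∀ t ∈ T, a ∉ t) →
        ∑ j, (if Finset.univ.image (τ j) = T then (m j : ℚ) * lam (F a) (jP (s j a)) else 0) = 0

end

end Pool.Agent.LibHL77
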