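import Pool.Agent.LibHD77.L1b
import Pool.Agent.LibHD77.U4a
import Pool.Agent.LibHL77.Defs

/-!
[HL77 P0] several generic points over a base field which is not algebraically closed. Proofs. `exists_cps_KC'`: as `exists_cps_KC` in
LibHD77/U3.lean, with the place at infinity of `KC f` in place of `vp .inf`: `exists_pl_inf` (LibHD77/L1b.lean) with `M = k`,
`j = Algebra.ofId k (KC f)`, `X = xs f`, `Y = ys f` (`Gen1`: see `gen1_of_cps`, `funF_KC`): `Triv j w` says that `w` is rational (`Rat`).
`exists_gen'`: as `exists_gen` in LibHD77/U4a.lean.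
-/

open scoped Classical
open Polynomial

namespace Pool.Agent.LibHL77

open Pool.Agent.LibBH2
open Pool.Agent.LibCHd (VR RF Red FunF IsCps)
open Pool.Agent.LibHyp34 (Hyp Pt Pic jP Sp KC DCf gn)
open Pool.Agent.LibHD77

variable {k : Type} [Field k] [CharZero k]

theorem P0_gen1 (f : k[X]) [Hyp f] : Gen1 (Algebra.ofId k (KC f)) f (xs f) (ys f) := by
  refine ⟨ys_sq f, fun G hG hz => ?_, ?_⟩
  · exact u3_trans f ⟨G, hG, hz⟩
  · exact u3_mem f _ (IntermediateField.subset_adjoin _ _ (by simp))
      (IntermediateField.subset_adjoin _ _ (by simp))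

theorem exists_cps_KC' (f : k[X]) [Hyp f] (M : Type) [Field M] [Algebra k M] :
    ∃ (K : Type) (_ : Field K) (_ : Algebra k K) (i : KC f →ₐ[k] K) (j : M →ₐ[k] K),
      IsCps i j := by
  obtain ⟨w, hw, -, -⟩ := exists_pl_inf f (P0_gen1 f)
  obtain ⟨e, hk, -, he⟩ := Pool.Agent.LibCHd.exists_laurent M w hw.res
  exact Pool.Agent.LibCHd.exists_cps e hk he

theorem exists_gen' {D : ℕ} (V : Fin D → k[X]) (hV : ∀ e, Hyp (V e)) :
    ∃ (M : Type) (_ : Field M) (_ : Algebra k M) (x y : Fin D → M), Gen V x y := by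
  induction D with
  | zero =>
    refine ⟨k, inferInstance, inferInstance, fun e => e.elim0, fun e => e.elim0, ?_, ?_, ?_⟩
    · refine ⟨fun e => e.elim0, ?_, ?_⟩
      · rw [algebraicIndependent_empty_type_iff]
        exact (algebraMap k k).injective
      · exact Module.Finite.of_restrictScalars_finite k _ k
    · intro e
      exact e.elim0
    · rw [eq_top_iff]
      intro z _
      exact IntermediateField.algebraMap_mem _ z
  | succ D ih =>
    obtain ⟨M, _, _, x, y, h⟩ := ih (Fin.init V) (fun e => hV e.castSucc)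
    haveI : Hyp (V (Fin.last D)) := hV _
    obtain ⟨K, _, _, i, j, hc⟩ := exists_cps_KC' (V (Fin.last D)) M
    have h1 := gen_snoc h (gen1_of_cps (V (Fin.last D)) hc)
    rw [Fin.snoc_init_self] at h1
    exact ⟨K, inferInstance, inferInstance, _, _, h1⟩

end Pool.Agent.LibHL77
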