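import Pool.Agent.LibHL77.QDefs
import Pool.Agent.LibHL77.P0
import Pool.Agent.LibHD77.T1

/-!
[HL77 Q0c] small lemmas on the classes of the diagonals `pp τ s` over any field. Proofs. `cl_perm'`: as `cl_perm` in
LibHD77/T2a.lean, with `exists_gen'` (P0). `cl_pp_perm`: the pattern `pp (fun i => τ (π i)) s` is `sub` of `pp τ s` by `π⁻¹` (signs one). `cl_pp_empty`:
`cl_zero` (a free point which does not occur). `cmp_pp`: `V e = F a` for some `a ∈ τ e`. `extD_pp`: cases. `cl_pp_congr`: the patterns are equal.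
-/

open scoped Classical
open Polynomial

namespace Pool.Agent.LibHL77

open Pool.Agent.LibBH2
open Pool.Agent.LibCHd (VR RF Red FunF IsCps)
open Pool.Agent.LibHyp34 (Hyp Pt Pic jP Sp KC DCf gn)
open Pool.Agent.LibHD77
open Pool.Agent.LibHD77.Comb (Pat sub Cmp)

variable {k : Type} [Field k] {n D : ℕ} {F : Fin n → k[X]}

private theorem q0c_sub_inl (π : Equiv.Perm (Fin D)) (η : Fin D → ℤˣ) (δ : Dia F D) {a : Fin n}
    {s : Pt (F a)} (h : δ a = .inl s) :
    (sub (og F) (fun b => some (π b, η b)) δ : Dia F D) a = .inl s := by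
  unfold sub
  rw [h]

private theorem q0c_sub_inr (π : Equiv.Perm (Fin D)) (η : Fin D → ℤˣ) (δ : Dia F D) {a : Fin n}
    {q : Fin D × ℤˣ} (h : δ a = .inr q) :
    (sub (og F) (fun b => some (π b, η b)) δ : Dia F D) a = .inr (π q.1, η q.1 * q.2) := by
  unfold sub
  rw [h]

private theorem q0c_cmp (π : Equiv.Perm (Fin D)) (η : Fin D → ℤˣ) (δ : Dia F D)
    (V : Fin D → k[X]) (h : Cmp F δ V) :
    Cmp F (sub (og F) (fun b => some (π b, η b)) δ : Dia F D) (fun e => V (π.symm e)) := by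
  refine ⟨fun b => ?_, fun a b ε hab => ?_⟩
  · obtain ⟨a, ε, ha⟩ := h.1 (π.symm b)
    refine ⟨a, η (π.symm b) * ε, ?_⟩
    rw [q0c_sub_inr π η δ ha]
    simp
  · rcases hδ : δ a with s | q
    · rw [q0c_sub_inl π η δ hδ] at hab
      cases hab
    · rw [q0c_sub_inr π η δ hδ] at hab
      have h1 := Sum.inr.inj hab
      have h2 : π q.1 = b := congrArg Prod.fst h1
      have h3 := h.2 a q.1 q.2 hδ
      show V (π.symm b) = F a
      rw [← h2, Equiv.symm_apply_apply]
      exact h3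

private theorem q0c_cmp' (π : Equiv.Perm (Fin D)) (η : Fin D → ℤˣ) (δ : Dia F D)
    (V : Fin D → k[X]) (h : Cmp F (sub (og F) (fun b => some (π b, η b)) δ : Dia F D) V) :
    Cmp F δ (fun e => V (π e)) := by
  refine ⟨fun b => ?_, fun a b ε hab => ?_⟩
  · obtain ⟨a, ε, ha⟩ := h.1 (π b)
    rcases hδ : δ a with s | q
    · rw [q0c_sub_inl π η δ hδ] at ha
      cases ha
    · rw [q0c_sub_inr π η δ hδ] at ha
      have h1 := Sum.inr.inj ha
      have h2 : π q.1 = π b := congrArg Prod.fst h1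
      have h3 : q.1 = b := π.injective h2
      exact ⟨a, q.2, by rw [hδ, ← h3]⟩
  · exact h.2 a (π b) (η b * ε) (by rw [q0c_sub_inr π η δ hab])

theorem cl_perm' [CharZero k] (hF : ∀ a, Hyp (F a)) (π : Equiv.Perm (Fin D)) (η : Fin D → ℤˣ)
    (δ : Dia F D) : cl (sub (og F) (fun b => some (π b, η b)) δ : Dia F D) = cl δ := by
  by_cases hex : ∃ V : Fin D → k[X], Cmp F δ V
  · obtain ⟨V, hV⟩ := hex
    have hHyp : ∀ e, Hyp (V e) := by
      intro e
      obtain ⟨a, ε, ha⟩ := hV.1 e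
      rw [hV.2 a e ε ha]
      exact hF a
    obtain ⟨M, _, _, x, y, hg⟩ := exists_gen' V hHyp
    have hu : ∀ u : ℤˣ, (((u : ℤ) : M)) * ((u : ℤ) : M) = 1 := by
      intro u
      rcases Int.units_eq_one_or u with rfl | rfl <;> simp
    have hg' : Gen (fun e => V (π.symm e)) (fun e => x (π.symm e))
        (fun e => ((η (π.symm e) : ℤ) : M) * y (π.symm e)) := by
      refine ⟨hg.dim, fun e => ?_, ?_⟩
      · rw [mul_pow, pow_two (((η (π.symm e) : ℤ) : M)), hu, one_mul]
        exact hg.eq _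
      · rw [eq_top_iff, ← hg.gen, IntermediateField.adjoin_le_iff]
        rintro z (⟨e, rfl⟩ | ⟨e, rfl⟩)
        · apply IntermediateField.subset_adjoin
          left
          exact ⟨π e, by simp⟩
        · have h1 : ((η e : ℤ) : M) * y e ∈ IntermediateField.adjoin k
              (Set.range (fun e => x (π.symm e)) ∪
                Set.range (fun e => ((η (π.symm e) : ℤ) : M) * y (π.symm e))) := by
            apply IntermediateField.subset_adjoin
            right
            exact ⟨π e, by simp⟩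
          have h2 := mul_mem (intCast_mem (IntermediateField.adjoin k
              (Set.range (fun e => x (π.symm e)) ∪
                Set.range (fun e => ((η (π.symm e) : ℤ) : M) * y (π.symm e)))) (η e : ℤ)) h1
          rw [← mul_assoc, hu, one_mul] at h2
          exact h2
    rw [cl_eq hF δ V x y hV hg, cl_eq hF _ _ _ _ (q0c_cmp π η δ V hV) hg']
    congr 1
    funext a
    rcases hδ : δ a with s | q
    · have h1 := q0c_sub_inl π η δ hδ
      unfold pnt
      rw [h1, hδ]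
    · have h1 := q0c_sub_inr π η δ hδ
      unfold pnt
      rw [h1, hδ]
      simp only [Equiv.symm_apply_apply, Units.val_mul, Int.cast_mul]
      congr 1
      calc ((η q.1 : ℤ) : M) * ((q.2 : ℤ) : M) * (((η q.1 : ℤ) : M) * y q.1)
          = (((η q.1 : ℤ) : M) * ((η q.1 : ℤ) : M)) * (((q.2 : ℤ) : M) * y q.1) := by ring
        _ = ((q.2 : ℤ) : M) * y q.1 := by rw [hu, one_mul]
  · rw [cl_zero δ hex, cl_zero]
    rintro ⟨V, hV⟩
    exact hex ⟨_, q0c_cmp' π η δ V hV⟩

theorem cl_pp_perm [CharZero k] (hF : ∀ a, Hyp (F a)) (π : Equiv.Perm (Fin D))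
    (τ : Fin D → Finset (Fin n)) (hτ : ∀ e e', e ≠ e' → Disjoint (τ e) (τ e'))
    (s : ∀ a, Pt (F a)) : cl (pp (fun i => τ (π i)) s : Dia F D) = cl (pp τ s) := by
  have h := cl_perm' hF π.symm (fun _ => 1) (pp τ s)
  rw [← h]
  congr 1
  funext a
  by_cases ha : ∃ e, a ∈ τ e
  · have h1 : pp τ s a = .inr (ha.choose, 1) := dif_pos ha
    have ha' : ∃ i, a ∈ τ (π i) := by
      obtain ⟨e, he⟩ := ha
      exact ⟨π.symm e, by rw [Equiv.apply_symm_apply]; exact he⟩
    have h2 : pp (fun i => τ (π i)) s a = .inr (ha'.choose, 1) := dif_pos ha'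
    have h3 : a ∈ τ (π ha'.choose) := ha'.choose_spec
    have h4 : a ∈ τ ha.choose := ha.choose_spec
    have h5 : π ha'.choose = ha.choose := by
      by_contra hne
      exact Finset.disjoint_left.1 (hτ _ _ hne) h3 h4
    rw [h2, q0c_sub_inr π.symm (fun _ => 1) (pp τ s) h1, ← h5, Equiv.symm_apply_apply, one_mul]
  · have h1 : pp τ s a = .inl (s a) := dif_neg ha
    have ha' : ¬ ∃ i, a ∈ τ (π i) := fun ⟨i, hi⟩ => ha ⟨_, hi⟩
    have h2 : pp (fun i => τ (π i)) s a = .inl (s a) := dif_neg ha'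
    rw [h2, q0c_sub_inl π.symm (fun _ => 1) (pp τ s) h1]

theorem cl_pp_empty (τ : Fin D → Finset (Fin n)) (s : ∀ a, Pt (F a)) (h : ∃ e, τ e = ∅) :
    cl (pp τ s : Dia F D) = 0 := by
  obtain ⟨e, he⟩ := h
  apply cl_zero
  rintro ⟨V, hV⟩
  obtain ⟨a, ε, ha⟩ := hV.1 e
  by_cases h1 : ∃ e, a ∈ τ e
  · have h2 : pp τ s a = .inr (h1.choose, 1) := dif_pos h1
    rw [h2] at ha
    have h3 : h1.choose = e := congrArg Prod.fst (Sum.inr.inj ha)
    have h4 : a ∈ τ h1.choose := h1.choose_spec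
    rw [h3, he] at h4
    exact absurd h4 (Finset.notMem_empty a)
  · have h2 : pp τ s a = .inl (s a) := dif_neg h1
    rw [h2] at ha
    cases ha

theorem cmp_pp (τ : Fin D → Finset (Fin n)) (s : ∀ a, Pt (F a)) (hτ : Val F τ) :
    ∃ V : Fin D → k[X], Cmp F (pp τ s) V := by
  have hne : ∀ e, ∃ a, a ∈ τ e := fun e => (hτ.2 e).1
  choose a₀ ha₀ using hne
  refine ⟨fun e => F (a₀ e), fun b => ⟨a₀ b, 1, ?_⟩, fun a b ε hab => ?_⟩
  · have h1 : ∃ e, a₀ b ∈ τ e := ⟨b, ha₀ b⟩
    have h2 : pp τ s (a₀ b) = .inr (h1.choose, 1) := dif_pos h1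
    have h3 : h1.choose = b := by
      by_contra hne
      exact Finset.disjoint_left.1 (hτ.1 _ _ hne) h1.choose_spec (ha₀ b)
    rw [h2, h3]
  · by_cases h1 : ∃ e, a ∈ τ e
    · have h2 : pp τ s a = .inr (h1.choose, 1) := dif_pos h1
      rw [h2] at hab
      have h3 : h1.choose = b := congrArg Prod.fst (Sum.inr.inj hab)
      have h4 : a ∈ τ h1.choose := h1.choose_spec
      rw [h3] at h4
      exact (hτ.2 b).2 _ (ha₀ b) _ h4
    · have h2 : pp τ s a = .inl (s a) := dif_neg h1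
      rw [h2] at hab
      cases hab

theorem extD_pp (L : Type) [Field L] [Algebra k L] (τ : Fin D → Finset (Fin n))
    (s : ∀ a, Pt (F a)) : extD L (pp τ s : Dia F D) =
      pp τ (fun a => (cst L (s a) : MPt (F a) L)) := by
  funext a
  unfold extD
  by_cases h1 : ∃ e, a ∈ τ e
  · have h2 : pp τ s a = .inr (h1.choose, 1) := dif_pos h1
    have h3 : (pp τ (fun a => (cst L (s a) : MPt (F a) L)) : Dia (ext L F) D) a = .inr (h1.choose, 1) := dif_pos h1
    rw [h2, h3]
    rfl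
  · have h2 : pp τ s a = .inl (s a) := dif_neg h1
    have h3 : (pp τ (fun a => (cst L (s a) : MPt (F a) L)) : Dia (ext L F) D) a = .inl (cst L (s a) : MPt (F a) L) := dif_neg h1
    rw [h2, h3]
    rfl

theorem cl_pp_congr (τ : Fin D → Finset (Fin n)) (s s' : ∀ a, Pt (F a))
    (h : ∀ a, (∀ e, a ∉ τ e) → s a = s' a) : cl (pp τ s : Dia F D) = cl (pp τ s') := by
  congr 1
  funext a
  by_cases h1 : ∃ e, a ∈ τ e
  · have h2 : pp τ s a = .inr (h1.choose, 1) := dif_pos h1
    have h3 : pp τ s' a = .inr (h1.choose, 1) := dif_pos h1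
    rw [h2, h3]
  · have h2 : pp τ s a = .inl (s a) := dif_neg h1
    have h3 : pp τ s' a = .inl (s' a) := dif_neg h1
    rw [h2, h3, h a fun e he => h1 ⟨e, he⟩]

end Pool.Agent.LibHL77
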