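import Pool.Agent.LibHL77.D1
import Pool.Agent.LibHL77.Q0c

/-!
[HL77 Q4r] the reset of a coordinate on the Chow groups. Proof. `exists_R` gives `CH F D →+ CH F D`; the diagonal `pp τ s` has a generic point (`cmp_pp`, `exists_gen'`, `cl_eq`);
the point with the coordinate `a` replaced by infinity is `pnt` of the pattern without `a`; if the block of `a` becomes empty both sides are zero: `cyc` of a
point over a field of smaller transcendence degree (`cyc_eq_zero_of_fld`: the coordinates are in the field generated by the other `D - 1` free points, or constants), `cl_pp_empty`.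
-/


open scoped Classical
open Polynomial

namespace Pool.Agent.LibHL77

open Pool.Agent.LibBH2
open Pool.Agent.LibCHd (VR RF Red FunF IsCps)
open Pool.Agent.LibHyp34 (Hyp Pt Pic jP Sp KC DCf gn)
open Pool.Agent.LibHD77
open Pool.Agent.LibHD77.Comb (Pat sub Cmp)

variable {k : Type} [Field k] [CharZero k] {n : ℕ}

open scoped IntermediateField.algebraAdjoinAdjoin in
omit [CharZero k] in
theorem q4r_trdeg {K : Type} [Field K] [Algebra k K] (s : Set K) :
    Algebra.trdeg k (IntermediateField.adjoin k s) ≤ Cardinal.mk s := by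
  have h1 : Algebra.trdeg k (MvPolynomial.aeval (Subtype.val : s → K) :
      MvPolynomial s k →ₐ[k] K).range ≤ Cardinal.mk s := by
    refine (trdeg_le_of_surjective (MvPolynomial.aeval (Subtype.val : s → K) :
      MvPolynomial s k →ₐ[k] K).rangeRestrict (AlgHom.rangeRestrict_surjective _)).trans ?_
    rw [MvPolynomial.trdeg_of_isDomain, Cardinal.lift_id]
  rw [← Algebra.adjoin_eq_range] at h1
  have h3 := trdeg_add_eq k (Algebra.adjoin k s) (A := IntermediateField.adjoin k s)
  rw [trdeg_eq_zero (R := Algebra.adjoin k s), add_zero] at h3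
  rw [← h3]
  exact h1

omit [CharZero k] in
theorem q4r_zero {F : Fin n → k[X]} {D : ℕ} {M : Type} [Field M] [Algebra k M] (δ : Dia F D)
    {V : Fin D → k[X]} {x y : Fin D → M} (hg : Gen V x y) (e₀ : Fin D)
    (h0 : ∀ a ε, δ a ≠ .inr (e₀, ε)) : cyc (pnt δ x y) = 0 := by
  set s : Set M := x '' (((Finset.univ.erase e₀ : Finset (Fin D)) : Set (Fin D))) with hs
  set A := IntermediateField.adjoin k s with hA
  set C := (algebraicClosure A M).restrictScalars k with hC
  have hmem : ∀ z : M, z ∈ C ↔ IsAlgebraic A z := fun z => mem_algebraicClosure_iff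
  have hxC : ∀ e, e ≠ e₀ → x e ∈ C := by
    intro e he
    refine (hmem _).2 (isAlgebraic_algebraMap (R := A) (⟨x e, ?_⟩ : A))
    refine IntermediateField.subset_adjoin _ _ ⟨e, ?_, rfl⟩
    simp [he]
  have hco : ∀ q, co (pnt δ x y) q ∈ C := by
    rintro ⟨a, c⟩
    unfold co pnt
    rcases ha : δ a with p | ⟨e, ε⟩
    · match p with
      | .inf => exact zero_mem C
      | .aff x₁ y₁ h₁ =>
        fin_cases c
        · exact C.algebraMap_mem x₁
        · exact C.algebraMap_mem y₁
    · have he : e ≠ e₀ := by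
        rintro rfl
        exact h0 a ε ha
      change xy (mk' (F a) (x e) ((ε : ℤ) * y e)) c ∈ C
      unfold mk'
      split_ifs with h1
      · fin_cases c
        · exact hxC e he
        · show ((ε : ℤ) : M) * y e ∈ C
          have h2 : (((ε : ℤ) : M) * y e) ^ 2 ∈ C := by
            rw [h1, eval_map_algebraMap]
            have h3 := (F a).aeval_algHom_apply C.val (⟨x e, hxC e he⟩ : C)
            have h4 : C.val (⟨x e, hxC e he⟩ : C) = x e := rfl
            rw [h4] at h3
            rw [h3]
            exact (aeval (⟨x e, hxC e he⟩ : C) (F a)).2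
          exact (hmem _).2 (IsAlgebraic.of_pow two_pos ((hmem _).1 h2))
      · exact zero_mem C
  have hfld : fld (pnt δ x y) ≤ C := by
    unfold fld
    rw [IntermediateField.adjoin_le_iff]
    rintro _ ⟨q, rfl⟩
    exact hco q
  refine cyc_eq_zero_of_fld hg.dim (pnt δ x y) C ?_ hfld
  have h1 : Algebra.trdeg k C = Algebra.trdeg k A := by
    have h2 := trdeg_add_eq k A (A := algebraicClosure A M)
    rw [trdeg_eq_zero (R := A), add_zero] at h2
    exact h2.symm
  rw [h1]
  have h2 : Cardinal.mk s ≤ ((Finset.univ.erase e₀ : Finset (Fin D)).card : ℕ) :=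
    Cardinal.mk_image_le.trans
      (Cardinal.mk_coe_finset (s := (Finset.univ.erase e₀ : Finset (Fin D)))).le
  refine ((q4r_trdeg s).trans h2).trans_lt ?_
  rw [Nat.cast_lt, Finset.card_erase_of_mem (Finset.mem_univ _), Finset.card_univ,
    Fintype.card_fin]
  have h4 : 0 < D := e₀.pos
  omega

omit [CharZero k] in
theorem q4r_mem {F : Fin n → k[X]} {D : ℕ} (τ : Fin D → Finset (Fin n)) (s : ∀ a, Pt (F a))
    (hd : ∀ e e', e ≠ e' → Disjoint (τ e) (τ e')) {b : Fin n} {e : Fin D} (h : b ∈ τ e) :
    (pp τ s : Dia F D) b = .inr (e, 1) := by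
  have hex : ∃ e, b ∈ τ e := ⟨e, h⟩
  have h1 : (pp τ s : Dia F D) b = .inr (hex.choose, 1) := dif_pos hex
  rw [h1]
  have h2 : hex.choose = e := by
    by_contra hne
    exact Finset.disjoint_left.1 (hd _ _ hne) hex.choose_spec h
  rw [h2]

omit [CharZero k] in
theorem q4r_not {F : Fin n → k[X]} {D : ℕ} (τ : Fin D → Finset (Fin n)) (s : ∀ a, Pt (F a))
    {b : Fin n} (h : ∀ e, b ∉ τ e) : (pp τ s : Dia F D) b = .inl (s b) :=
  dif_neg (by
    rintro ⟨e, he⟩
    exact h e he)

omit [CharZero k] in
theorem q4r_pnt {F : Fin n → k[X]} {D : ℕ} (τ : Fin D → Finset (Fin n)) (s : ∀ a, Pt (F a))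
    (hd : ∀ e e', e ≠ e' → Disjoint (τ e) (τ e')) {M : Type} [Field M] [Algebra k M]
    (x y : Fin D → M) (a : Fin n) :
    Function.update (pnt (pp τ s) x y) a .inf =
      pnt (pp (fun e => τ e \ {a}) (fun x => if x = a then .inf else s x)) x y := by
  have hd' : ∀ e e', e ≠ e' → Disjoint (τ e \ {a}) (τ e' \ {a}) := fun e e' h =>
    (hd e e' h).mono Finset.sdiff_subset Finset.sdiff_subset
  funext b
  by_cases hb : b = a
  · subst hb
    rw [Function.update_self]
    unfold pnt
    rw [q4r_not (fun e => τ e \ {b}) _ (fun e => by simp)]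
    simp [cst]
  · rw [Function.update_of_ne hb]
    unfold pnt
    by_cases h : ∃ e, b ∈ τ e
    · obtain ⟨e, he⟩ := h
      rw [q4r_mem τ s hd he, q4r_mem (fun e => τ e \ {a}) _ hd' (b := b) (e := e) (by simp [he, hb])]
    · push Not at h
      rw [q4r_not τ s h, q4r_not (fun e => τ e \ {a}) _ (fun e => by simp [h e])]
      simp [hb]

theorem exists_Rc (F : Fin n → k[X]) (hF : ∀ a, Hyp (F a)) (D : ℕ) (a : Fin n) :
    ∃ R : CH F D →+ CH F D, ∀ (τ : Fin D → Finset (Fin n)) (s : ∀ a, Pt (F a)), Val F τ →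
      R (cl (pp τ s)) = cl (pp (fun e => τ e \ {a}) (fun x => if x = a then .inf else s x)) := by
  obtain ⟨R, hR, hR'⟩ := exists_R F a D
  refine ⟨QuotientAddGroup.map (RatEq F D) (RatEq F D) R hR', fun τ s hτ => ?_⟩
  obtain ⟨V, hc⟩ := cmp_pp τ s hτ
  obtain ⟨M, iF, iA, x, y, hg⟩ := exists_gen' V (fun e => T1_hV hF hc e)
  have key : QuotientAddGroup.map (RatEq F D) (RatEq F D) R hR' (cl (pp τ s : Dia F D)) =
      (QuotientAddGroup.mk (cyc (pnt (pp (fun e => τ e \ {a})
        (fun x => if x = a then .inf else s x)) x y)) : CH F D) := by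
    rw [cl_eq hF _ V x y hc hg, ← q4r_pnt τ s hτ.1 x y a]
    change QuotientAddGroup.mk (R (cyc (pnt (pp τ s) x y))) = _
    rw [hR M (pnt (pp τ s) x y) hg.dim]
  rw [key]
  by_cases h : ∃ e, τ e \ {a} = ∅
  · obtain ⟨e₀, he₀⟩ := h
    rw [cl_pp_empty _ _ ⟨e₀, he₀⟩]
    have h1 : cyc (pnt (pp (fun e => τ e \ {a}) (fun x => if x = a then .inf else s x) : Dia F D)
        x y) = 0 := by
      refine q4r_zero _ hg e₀ fun b ε hb => ?_
      by_cases hex : ∃ e, b ∈ τ e \ {a}
      · have h2 : (pp (fun e => τ e \ {a}) (fun x => if x = a then .inf else s x) : Dia F D) b =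
            .inr (hex.choose, 1) := dif_pos hex
        rw [h2] at hb
        have h3 : hex.choose = e₀ := by
          have := Sum.inr.inj hb
          exact (Prod.mk.inj this).1
        have h4 := hex.choose_spec
        rw [h3, he₀] at h4
        simp at h4
      · have h2 : (pp (fun e => τ e \ {a}) (fun x => if x = a then .inf else s x) : Dia F D) b =
            .inl _ := dif_neg hex
        rw [h2] at hb
        cases hb
    rw [h1]
    rfl
  · push Not at h
    refine (cl_eq hF _ V x y ⟨fun e => ?_, fun b e ε hb => ?_⟩ hg).symm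
    · obtain ⟨b, hb⟩ := h e
      exact ⟨b, 1, q4r_mem (fun e => τ e \ {a}) _ (fun e e' hne =>
        (hτ.1 e e' hne).mono Finset.sdiff_subset Finset.sdiff_subset) hb⟩
    · by_cases hex : ∃ e, b ∈ τ e \ {a}
      · have h2 : (pp (fun e => τ e \ {a}) (fun x => if x = a then .inf else s x) : Dia F D) b =
            .inr (hex.choose, 1) := dif_pos hex
        rw [h2] at hb
        have h3 : hex.choose = e := (Prod.mk.inj (Sum.inr.inj hb)).1
        have h4 := hex.choose_spec
        rw [h3] at h4
        have h5 : b ∈ τ e := (Finset.mem_sdiff.1 h4).1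
        exact hc.2 b e 1 (q4r_mem τ s hτ.1 h5)
      · have h2 : (pp (fun e => τ e \ {a}) (fun x => if x = a then .inf else s x) : Dia F D) b =
            .inl _ := dif_neg hex
        rw [h2] at hb
        cases hb

end Pool.Agent.LibHL77
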