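import Pool.Agent.LibHL77.Defs

/-!
[HL77 A2] the function field of the generic hyperplane section: existence. Proof. Let `φ a / φ b` be transcendental,
`φ b ≠ 0`. One of `φ 1, φ 2` is not zero (otherwise all ratios with non-zero denominator are `0` or `1`). If
`φ 1 ≠ 0`: `M' = RatFunc M` (or `FractionRing M[X]`), `T_2 = X`, `T_1 = -(φ 0 + X φ 2) / φ 1`; if `φ 1 = 0` and
`φ 2 ≠ 0`: `T_1 = X`, `T_2 = - φ 0 / φ 2` (the same with the indices exchanged). The elements `T_1, T_2` are algebraically independent over `k`:
in the first case put `α = - φ 0 / φ 1`, `β = - φ 2 / φ 1`, so that `T_1 = α + β X`. If `G(α + β X, X) = 0` with `G ≠ 0` over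
`k`, then look at the homogeneous part `G_m` of highest degree `m` of `G`: the coefficient of `X ^ m` is `G_m(β, 1)`, so `β` is
algebraic over `k` (`G_m(β, 1) = 0`, and `G_m(t, 1) ≠ 0`); let `k' = k(β)`, finite over `k`; `G(U + β X, X)` is a non-zero
polynomial in `U, X` over `k'` which vanishes at `U = α` (as a polynomial in `X`), so `α` is algebraic over `k'`, over
`k`; then all the ratios `φ a / φ b` are algebraic, contradiction. So the `Lf k`-algebra structure exists
(`IsFractionRing.lift` of the injective `MvPolynomial.aeval ![T_1, T_2]`).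
-/

open scoped Classical
open Polynomial

namespace Pool.Agent.LibHL77

open Pool.Agent.LibBH2
open Pool.Agent.LibCHd (VR RF Red FunF)
open Pool.Agent.LibHyp34 (Hyp Pt Pic jP Sp KC DCf gn)
open Pool.Agent.LibHD77

variable {k : Type} [Field k]

/-- `X` and `α + β X` are algebraically independent over `k` if `α`, `β` are not both algebraic. -/
theorem a2_ind {M : Type} [Field M] [Algebra k M] {α β : M}
    (h : ¬ (IsAlgebraic k α ∧ IsAlgebraic k β)) {j j' : Fin 2} (hj : j ≠ j') {t : Fin 2 → M[X]}
    (htj : t j = X) (htj' : t j' = C α + C β * X) : AlgebraicIndependent k t := by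
  rw [algebraicIndependent_iff]
  intro G hG
  let A := AlgebraicClosure M
  let K₀ : IntermediateField k A := algebraicClosure k A
  haveI : Infinite K₀ := by
    haveI : IsAlgClosed K₀ := IsAlgClosure.isAlgClosed k
    infer_instance
  have hne : ∀ i : Fin 2, i ≠ j → i = j' := by
    intro i hi
    omega
  -- specialisation
  have key : ∀ c : A, MvPolynomial.aeval (fun i => if i = j then c else algebraMap M A α + algebraMap M A β * c) G = 0 := by
    intro c
    have h1 := congrArg ((Polynomial.aeval (R := M) c).restrictScalars k) hG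
    rw [map_zero] at h1
    rw [← h1, ← AlgHom.comp_apply, MvPolynomial.comp_aeval]
    congr 2
    funext i
    by_cases hi : i = j
    · rw [if_pos hi, hi]
      simp [htj]
    · rw [if_neg hi, hne i hi]
      simp [htj']
  -- all but one value are good
  have hgood : ∃ c₀ : K₀, ∀ c : K₀, c ≠ c₀ → Transcendental K₀ (algebraMap M A α + algebraMap M A β * (c : A)) := by
    by_cases H : ∃ c₀ : K₀, IsAlgebraic K₀ (algebraMap M A α + algebraMap M A β * (c₀ : A))
    · obtain ⟨c₀, hc₀⟩ := H
      refine ⟨c₀, fun c hc halg => h ?_⟩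
      have e1 : (c : A) - c₀ ≠ 0 := by
        intro h0
        apply hc
        exact Subtype.ext (sub_eq_zero.1 h0)
      have halgc : ∀ c : K₀, IsAlgebraic K₀ (c : A) := fun c => isAlgebraic_algebraMap c
      have hβ : IsAlgebraic K₀ (algebraMap M A β) := by
        have h1 := (halg.sub hc₀).mul ((halgc c).sub (halgc c₀)).inv
        have h2 : (algebraMap M A α + algebraMap M A β * (c : A) - (algebraMap M A α + algebraMap M A β * (c₀ : A))) * ((c : A) - c₀)⁻¹ =
            algebraMap M A β := by
          have h3 : algebraMap M A α + algebraMap M A β * (c : A) - (algebraMap M A α + algebraMap M A β * (c₀ : A)) =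
            algebraMap M A β * ((c : A) - c₀) := by ring
          rw [h3, mul_assoc, mul_inv_cancel₀ e1, mul_one]
        rwa [h2] at h1
      have hα : IsAlgebraic K₀ (algebraMap M A α) := by
        have h1 := halg.sub (hβ.mul (halgc c))
        rwa [add_sub_cancel_right] at h1
      have hα' : IsAlgebraic k (algebraMap M A α) := hα.restrictScalars k
      have hβ' : IsAlgebraic k (algebraMap M A β) := hβ.restrictScalars k
      exact ⟨(isAlgebraic_algebraMap_iff (algebraMap M A).injective).1 hα',
        (isAlgebraic_algebraMap_iff (algebraMap M A).injective).1 hβ'⟩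
    · push Not at H
      exact ⟨0, fun c _ => H c⟩
  obtain ⟨c₀, hc₀⟩ := hgood
  -- the polynomial vanishes on the good lines
  have hvan : ∀ x : Fin 2 → K₀, x j ≠ c₀ → MvPolynomial.eval x (MvPolynomial.map (algebraMap k K₀) G) = 0 := by
    intro x hx
    set g : K₀[X] := MvPolynomial.aeval (fun i => if i = j then C (x j) else X) G with hg
    have h1 : Polynomial.aeval (algebraMap M A α + algebraMap M A β * (x j : A)) g = 0 := by
      have h2 := key (x j : A)
      rw [← h2, hg, ← AlgHom.restrictScalars_apply k, ← AlgHom.comp_apply, MvPolynomial.comp_aeval]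
      congr 2
      funext i
      by_cases hi : i = j
      · simp [hi]
      · simp [hi]
    have h2 : g = 0 := by
      by_contra hne
      exact hc₀ (x j) hx ⟨g, hne, h1⟩
    have h3 := congrArg (Polynomial.eval (x j')) h2
    rw [Polynomial.eval_zero] at h3
    rw [← h3, hg, MvPolynomial.eval_map, ← MvPolynomial.aeval_def]
    have h4 : ∀ p : K₀[X], Polynomial.eval (x j') p = ((Polynomial.aeval (R := K₀) (x j')).restrictScalars k) p := by
      intro p
      simp [Polynomial.coe_aeval_eq_eval]
    rw [h4, ← AlgHom.comp_apply, MvPolynomial.comp_aeval]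
    congr 2
    funext i
    by_cases hi : i = j
    · simp [hi]
    · rw [hne i hi]
      simp [hj.symm]
  have hz : (MvPolynomial.X j - MvPolynomial.C c₀) * MvPolynomial.map (algebraMap k K₀) G = 0 := by
    apply MvPolynomial.funext
    intro x
    rw [map_mul, map_sub, MvPolynomial.eval_X, MvPolynomial.eval_C, map_zero]
    by_cases hx : x j = c₀
    · rw [hx, sub_self, zero_mul]
    · rw [hvan x hx, mul_zero]
  rcases mul_eq_zero.1 hz with h1 | h1
  · exfalso
    have h2 := congrArg (MvPolynomial.eval (fun _ => c₀ + 1)) h1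
    simp at h2
  · exact MvPolynomial.map_injective _ (algebraMap k K₀).injective (by rw [h1, map_zero])

/-- the structure of an algebra over `k(T_1, T_2)` given by two independent elements -/
theorem a2_lift {M' : Type} [Field M'] [Algebra k M'] {s : Fin 2 → M'} (hs : AlgebraicIndependent k s) :
    ∃ ψ : Lf k →+* M', (∀ c : k, ψ (algebraMap k (Lf k) c) = algebraMap k M' c) ∧ ∀ j, ψ (tt k j) = s j := by
  have hinj : Function.Injective (MvPolynomial.aeval (R := k) s).toRingHom := hs
  refine ⟨IsFractionRing.lift (K := Lf k) hinj, fun c => ?_, fun j => ?_⟩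
  · rw [IsScalarTower.algebraMap_apply k (MvPolynomial (Fin 2) k) (Lf k), IsFractionRing.lift_algebraMap]
    exact (MvPolynomial.aeval s).commutes c
  · unfold tt
    rw [IsFractionRing.lift_algebraMap]
    exact MvPolynomial.aeval_X s j

/-- the structure on a fraction field of `M[X]` -/
theorem a2_main {M M' : Type} [Field M] [Algebra k M] [Field M'] (g : M[X] →+* M')
    (hg : Function.Injective g) (hdiv : ∀ z : M', ∃ P Q : M[X], z = g P / g Q)
    (φ : Fin 3 → M) (hφ : NC k φ) :
    ∃ (_ : Algebra (Lf k) M') (i : EHom k (Lf k) M M'), HE i φ := by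
  obtain ⟨a, b, hb, htr⟩ := hφ
  -- the choice of the variables
  obtain ⟨j, j', hjj, hj'⟩ : ∃ j j' : Fin 2, j ≠ j' ∧ φ j'.succ ≠ 0 := by
    by_cases h1 : φ 1 = 0
    · by_cases h2 : φ 2 = 0
      · exfalso
        have hb0 : b = 0 := by
          fin_cases b
          · rfl
          · exact absurd h1 hb
          · exact absurd h2 hb
        apply htr
        fin_cases a
        · rw [hb0] at hb ⊢
          change IsAlgebraic k (φ 0 / φ 0)
          rw [div_self hb]
          exact isAlgebraic_one
        · change IsAlgebraic k (φ 1 / φ b)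
          rw [h1, zero_div]
          exact isAlgebraic_zero
        · change IsAlgebraic k (φ 2 / φ b)
          rw [h2, zero_div]
          exact isAlgebraic_zero
      · exact ⟨0, 1, by decide, h2⟩
    · exact ⟨1, 0, by decide, h1⟩
  have hcase : ∀ c : Fin 3, c = 0 ∨ c = j.succ ∨ c = j'.succ := by
    intro c
    have h1 := j.2
    have h2 := j'.2
    have h3 : (j : ℕ) ≠ (j' : ℕ) := fun h => hjj (Fin.ext h)
    have h4 := c.2
    simp only [Fin.ext_iff, Fin.val_succ, Fin.val_zero]
    omega
  obtain ⟨α, hα⟩ : ∃ α : M, α = - φ 0 / φ j'.succ := ⟨_, rfl⟩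
  obtain ⟨β, hβ⟩ : ∃ β : M, β = - φ j.succ / φ j'.succ := ⟨_, rfl⟩
  have hαβ : ¬ (IsAlgebraic k α ∧ IsAlgebraic k β) := by
    rintro ⟨h1, h2⟩
    apply htr
    have h3 : ∀ c : Fin 3, IsAlgebraic k (φ c / φ j'.succ) := by
      intro c
      rcases hcase c with h | h | h
      · rw [h]
        have := h1.neg
        rwa [hα, neg_div, neg_neg] at this
      · rw [h]
        have := h2.neg
        rwa [hβ, neg_div, neg_neg] at this
      · rw [h, div_self hj']
        exact isAlgebraic_one
    have h4 := (h3 a).mul (h3 b).inv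
    have h5 : φ a / φ j'.succ * (φ b / φ j'.succ)⁻¹ = φ a / φ b := by
      field_simp
    rwa [h5] at h4
  -- the two elements
  obtain ⟨t, htj, htj'⟩ : ∃ t : Fin 2 → M[X], t j = X ∧ t j' = C α + C β * X :=
    ⟨fun i => if i = j then X else C α + C β * X, by simp, by simp [hjj.symm]⟩
  have hind := a2_ind (k := k) hαβ hjj htj htj'
  letI algk : Algebra k M' := (g.comp ((C : M →+* M[X]).comp (algebraMap k M))).toAlgebra
  have hgk : ∀ c : k, algebraMap k M' c = g (C (algebraMap k M c)) := fun c => rfl
  obtain ⟨s, hs'⟩ : ∃ s : Fin 2 → M', ∀ i, s i = g (t i) := ⟨fun i => g (t i), fun _ => rfl⟩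
  have hs : AlgebraicIndependent k s := by
    let g' : M[X] →ₐ[k] M' := { g with commutes' := fun c => rfl }
    have h1 := hind.map' (f := g') hg
    have h2 : s = g' ∘ t := funext hs'
    rw [h2]
    exact h1
  obtain ⟨ψ, hψc, hψt⟩ := a2_lift hs
  refine ⟨ψ.toAlgebra, ?_⟩
  letI alg : Algebra (Lf k) M' := ψ.toAlgebra
  have halg : ∀ x : Lf k, algebraMap (Lf k) M' x = ψ x := fun x => rfl
  let i : EHom k (Lf k) M M' := ⟨g.comp C, by
      intro c
      rw [halg, hψc]
      rfl⟩
  have hi : ∀ m : M, i.f m = g (C m) := fun m => rfl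
  have h4 : ∀ j : Fin 2, algebraMap (Lf k) M' (tt k j) = g (t j) := by
    intro j
    rw [halg, hψt, hs']
  refine ⟨i, ?_, ?_, ?_⟩
  · -- the relation
    have h2 : C (φ 0) + t j * C (φ j.succ) + t j' * C (φ j'.succ) = 0 := by
      rw [htj, htj']
      have e1 : C α * C (φ j'.succ) = - C (φ 0) := by
        rw [← C_mul, hα, div_mul_cancel₀ _ hj', C_neg]
      have e2 : C β * C (φ j'.succ) = - C (φ j.succ) := by
        rw [← C_mul, hβ, div_mul_cancel₀ _ hj', C_neg]
      calc C (φ 0) + X * C (φ j.succ) + (C α + C β * X) * C (φ j'.succ) =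
            C (φ 0) + X * C (φ j.succ) + (C α * C (φ j'.succ) + (C β * C (φ j'.succ)) * X) := by ring
        _ = 0 := by rw [e1, e2]; ring
    have h3 := congrArg g h2
    rw [map_add, map_add, map_mul, map_mul, map_zero] at h3
    rw [h4, h4, hi, hi, hi]
    have hj01 : (j = 0 ∧ j' = 1) ∨ (j = 1 ∧ j' = 0) := by omega
    rcases hj01 with ⟨h5, h6⟩ | ⟨h5, h6⟩
    · rw [h5, h6] at h3
      exact h3
    · rw [h5, h6] at h3
      have h7 : (Fin.succ (0 : Fin 2)) = (1 : Fin 3) := rfl
      have h8 : (Fin.succ (1 : Fin 2)) = (2 : Fin 3) := rfl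
      rw [h7, h8] at h3
      rw [← h3]
      ring
  · -- generation
    rw [eq_top_iff]
    intro z _
    have hC : ∀ m : M, g (C m) ∈ IntermediateField.adjoin (Lf k) (Set.range i.f) :=
      fun m => IntermediateField.subset_adjoin _ _ ⟨m, rfl⟩
    have hX : g X ∈ IntermediateField.adjoin (Lf k) (Set.range i.f) := by
      have h1 := (IntermediateField.adjoin (Lf k) (Set.range i.f)).algebraMap_mem (tt k j)
      rwa [h4, htj] at h1
    have hP : ∀ P : M[X], g P ∈ IntermediateField.adjoin (Lf k) (Set.range i.f) := by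
      intro P
      induction P using Polynomial.induction_on' with
      | add p q hp hq =>
        rw [map_add]
        exact add_mem hp hq
      | monomial n a =>
        rw [← C_mul_X_pow_eq_monomial, map_mul, map_pow]
        exact mul_mem (hC a) (pow_mem hX n)
    obtain ⟨P, Q, rfl⟩ := hdiv z
    exact div_mem (hP P) (hP Q)
  · refine ⟨j, fun G hG h0 => hG ?_⟩
    have h1 : G.eval₂ i.f (algebraMap (Lf k) M' (tt k j)) = g G := by
      rw [h4, htj]
      change G.eval₂ (g.comp C) (g X) = _
      rw [← Polynomial.hom_eval₂, Polynomial.eval₂_C_X]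
    rw [h1] at h0
    exact hg (by rw [h0, map_zero])

theorem exists_he (M : Type) [Field M] [Algebra k M] (φ : Fin 3 → M) (hφ : NC k φ) :
    ∃ (M' : Type) (_ : Field M') (_ : Algebra (Lf k) M') (i : EHom k (Lf k) M M'), HE i φ := by
  obtain ⟨alg, i, h⟩ := a2_main (k := k) (algebraMap M[X] (FractionRing M[X]))
    (IsFractionRing.injective M[X] (FractionRing M[X])) (fun z => by
      obtain ⟨P, Q, _, h⟩ := IsFractionRing.div_surjective (A := M[X]) z
      exact ⟨P, Q, h.symm⟩) φ hφ
  exact ⟨FractionRing M[X], inferInstance, alg, i, h⟩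

end Pool.Agent.LibHL77
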