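import Pool.Agent.LibHL77.Defs

/-!
[HL77 B0a] the Gauss extension of a place of `K` to `K' = K(T)`. Proof. For `P = ∑ a_m X ^ m ≠ 0` put `w P = min v(a_m)`;
after division by an element of this order the reduction of `P` over `RF v` is a non-zero polynomial, so `w (P Q) = w P + w Q`
(the product of the reductions is not zero). `w (P / Q) = w P - w Q` on `K' ≃ RatFunc K` (`IsFractionRing`, or define `w` by choice of `P, Q` and show
independence). Residue field: the map from regular quotients `P / Q` (`Q` with `w Q = 0`, non-zero reduction) to `RatFunc (RF v)`, `P / Q ↦ P̄ / Q̄`, is a surjective ring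
homomorphism with kernel the elements of positive order; so `RF w ≃ RatFunc (RF v)`.
-/

open scoped Classical
open Polynomial

namespace Pool.Agent.LibHL77

open Pool.Agent.LibBH2
open Pool.Agent.LibCHd (VR RF Red FunF)
open Pool.Agent.LibHyp34 (Hyp Pt Pic jP Sp KC DCf gn)
open Pool.Agent.LibHD77

variable {k : Type} [Field k]

section b0a

variable {K K' : Type} [Field K] [Algebra k K] [Field K'] [Algebra k K']

/-- reduction of polynomials over the valuation ring -/
private noncomputable def b0aR (v : Place k K) : (VR v)[X] →+* (RF v)[X] :=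
  Polynomial.mapRingHom (IsLocalRing.residue (VR v))

/-- value at `T` of a polynomial over the valuation ring -/
private noncomputable def b0aE (i : K →ₐ[k] K') (T : K') (v : Place k K) : (VR v)[X] →+* K' :=
  Polynomial.eval₂RingHom ((i : K →+* K').comp (VR v).subtype) T

private theorem b0aE_map (i : K →ₐ[k] K') (T : K') (v : Place k K) (P : (VR v)[X]) :
    b0aE i T v P = (P.map (VR v).subtype).eval₂ (i : K →+* K') T := by
  rw [Polynomial.eval₂_map]
  rfl

private theorem b0aE_C (i : K →ₐ[k] K') (T : K') (v : Place k K) (c : VR v) :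
    b0aE i T v (C c) = i (c : K) := by
  rw [b0aE, Polynomial.coe_eval₂RingHom, Polynomial.eval₂_C]
  rfl

private theorem b0aE_X (i : K →ₐ[k] K') (T : K') (v : Place k K) :
    b0aE i T v X = T := by
  rw [b0aE, Polynomial.coe_eval₂RingHom, Polynomial.eval₂_X]

private theorem b0aE_ne (i : K →ₐ[k] K') (T : K')
    (htr : ∀ G : K[X], G ≠ 0 → G.eval₂ (i : K →+* K') T ≠ 0) (v : Place k K) {P : (VR v)[X]}
    (hP : P ≠ 0) : b0aE i T v P ≠ 0 := by
  rw [b0aE_map]
  refine htr _ fun h => hP ?_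
  exact Polynomial.map_injective _ (VR v).subtype_injective (h.trans (Polynomial.map_zero _).symm)

private theorem b0aR_ne (v : Place k K) {P : (VR v)[X]} (hP : b0aR v P ≠ 0) : P ≠ 0 := by
  rintro rfl
  exact hP (map_zero _)

private theorem b0a_prim (v : Place k K) (P : K[X]) (hP : P ≠ 0) :
    ∃ b, P.coeff b ≠ 0 ∧ ∃ P₁ : (VR v)[X], P = C (P.coeff b) * P₁.map (VR v).subtype ∧
      b0aR v P₁ ≠ 0 := by
  obtain ⟨b, hb, h⟩ := Finset.exists_min_image P.support (fun a => v.ord (P.coeff a))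
    (Polynomial.support_nonempty.2 hP)
  have hb0 : P.coeff b ≠ 0 := Polynomial.mem_support_iff.1 hb
  have hreg : ∀ a, ∃ z : VR v, ((VR v).subtype z : K) = (C (P.coeff b)⁻¹ * P).coeff a := by
    intro a
    have h1 : v.Reg ((C (P.coeff b)⁻¹ * P).coeff a) := by
      rw [Polynomial.coeff_C_mul]
      by_cases ha : P.coeff a = 0
      · exact Or.inl (by rw [ha, mul_zero])
      · refine Or.inr ?_
        rw [v.ord_mul _ _ (inv_ne_zero hb0) ha, v.ord_inv]
        have := h a (Polynomial.mem_support_iff.2 ha)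
        omega
    exact ⟨⟨_, h1⟩, rfl⟩
  obtain ⟨P₁, hP₁⟩ : ∃ P₁ : (VR v)[X], P₁.map (VR v).subtype = C (P.coeff b)⁻¹ * P := by
    have h2 : C (P.coeff b)⁻¹ * P ∈ Polynomial.lifts (VR v).subtype := by
      rw [Polynomial.lifts_iff_coeff_lifts]
      exact fun a => hreg a
    rw [Polynomial.mem_lifts] at h2
    exact h2
  refine ⟨b, hb0, P₁, ?_, fun h0 => ?_⟩
  · rw [hP₁, ← mul_assoc, ← C_mul, mul_inv_cancel₀ hb0, C_1, one_mul]
  · have h3 : (P₁.map (VR v).subtype).coeff b = 1 := by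
      rw [hP₁, Polynomial.coeff_C_mul, inv_mul_cancel₀ hb0]
    rw [Polynomial.coeff_map] at h3
    have h4 : P₁.coeff b = 1 := Subtype.ext h3
    have h5 : (b0aR v P₁).coeff b = 1 := by
      rw [b0aR, Polynomial.coe_mapRingHom, Polynomial.coeff_map, h4, map_one]
    rw [h0, Polynomial.coeff_zero] at h5
    exact zero_ne_one h5

private theorem b0a_uniq (v : Place k K) {c c' : K} (hc : c ≠ 0) (hc' : c' ≠ 0)
    {P P' : (VR v)[X]} (hP : b0aR v P ≠ 0)
    (h : C c * P.map (VR v).subtype = C c' * P'.map (VR v).subtype) : v.ord c' ≤ v.ord c := by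
  by_contra hlt
  push Not at hlt
  have hz : v.Zer (c' / c) := Or.inr (by rw [v.ord_div _ _ hc' hc]; omega)
  have h1 : P = C (⟨c' / c, hz.reg⟩ : VR v) * P' := by
    refine Polynomial.map_injective _ (VR v).subtype_injective ?_
    rw [Polynomial.map_mul, Polynomial.map_C]
    have h2 : (C c : K[X]) ≠ 0 := Polynomial.C_ne_zero.2 hc
    refine mul_left_cancel₀ h2 ?_
    rw [h, ← mul_assoc, ← C_mul]
    congr 2
    change c' = c * (c' / c)
    rw [mul_div_cancel₀ _ hc]
  have h3 : IsLocalRing.residue (VR v) ⟨c' / c, hz.reg⟩ = 0 :=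
    (IsLocalRing.residue_eq_zero_iff _).2 ((Pool.Agent.LibCHd.mem_max_iff _).2 hz)
  refine hP ?_
  rw [h1, b0aR, Polynomial.coe_mapRingHom, Polynomial.map_mul, Polynomial.map_C, h3, C_0, zero_mul]

/-- representation of an element -/
private def b0aRp (i : K →ₐ[k] K') (T : K') (v : Place k K) (z : K') (c : K)
    (P Q : (VR v)[X]) : Prop :=
  c ≠ 0 ∧ b0aR v P ≠ 0 ∧ b0aR v Q ≠ 0 ∧ z = i c * b0aE i T v P / b0aE i T v Q

/-- the order -/
private noncomputable def b0aO (i : K →ₐ[k] K') (T : K') (v : Place k K) (z : K') : ℤ :=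
  if h : ∃ c, ∃ P Q : (VR v)[X], b0aRp i T v z c P Q then v.ord h.choose else 0

variable {i : K →ₐ[k] K'} {T : K'}
  (htr : ∀ G : K[X], G ≠ 0 → G.eval₂ (i : K →+* K') T ≠ 0)
  (hgen : ∀ z : K', ∃ P Q : K[X], Q ≠ 0 ∧
      z = P.eval₂ (i : K →+* K') T / Q.eval₂ (i : K →+* K') T) {v : Place k K}

include htr

private theorem b0aRp_le {z : K'} {c c' : K} {P Q P' Q' : (VR v)[X]}
    (h : b0aRp i T v z c P Q) (h' : b0aRp i T v z c' P' Q') : v.ord c' ≤ v.ord c := by
  obtain ⟨h1, h2, h3, h4⟩ := h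
  obtain ⟨h1', h2', h3', h4'⟩ := h'
  have hQ := b0aE_ne i T htr v (b0aR_ne v h3)
  have hQ' := b0aE_ne i T htr v (b0aR_ne v h3')
  have h5 : i c * b0aE i T v (P * Q') = i c' * b0aE i T v (P' * Q) := by
    rw [h4, div_eq_div_iff hQ hQ'] at h4'
    rw [map_mul, map_mul, ← mul_assoc, ← mul_assoc, h4']
  have h6 : C c * (P * Q').map (VR v).subtype = C c' * (P' * Q).map (VR v).subtype := by
    by_contra hne
    refine htr _ (sub_ne_zero.2 hne) ?_
    rw [Polynomial.eval₂_sub, Polynomial.eval₂_mul, Polynomial.eval₂_mul, Polynomial.eval₂_C,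
      Polynomial.eval₂_C, ← b0aE_map, ← b0aE_map]
    exact sub_eq_zero.2 h5
  refine b0a_uniq v h1 h1' ?_ h6
  rw [map_mul]
  exact mul_ne_zero h2 h3'

private theorem b0aO_eq {z : K'} {c : K} {P Q : (VR v)[X]} (h : b0aRp i T v z c P Q) :
    b0aO i T v z = v.ord c := by
  have h1 : ∃ c, ∃ P Q : (VR v)[X], b0aRp i T v z c P Q := ⟨c, P, Q, h⟩
  rw [b0aO, dif_pos h1]
  obtain ⟨P', Q', h'⟩ := h1.choose_spec
  exact le_antisymm (b0aRp_le htr h h') (b0aRp_le htr h' h)

private theorem b0aRp_ne {z : K'} {c : K} {P Q : (VR v)[X]} (h : b0aRp i T v z c P Q) :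
    z ≠ 0 := by
  obtain ⟨h1, h2, h3, rfl⟩ := h
  exact div_ne_zero (mul_ne_zero ((map_ne_zero i).2 h1) (b0aE_ne i T htr v (b0aR_ne v h2)))
    (b0aE_ne i T htr v (b0aR_ne v h3))

omit htr in
private theorem b0aRp_one (x : K) (hx : x ≠ 0) : b0aRp i T v (i x) x 1 1 := by
  have h1 : b0aR v 1 ≠ 0 := by
    rw [map_one]
    exact one_ne_zero
  exact ⟨hx, h1, h1, by rw [map_one, mul_one, div_one]⟩

include hgen

private theorem b0aRp_exists {z : K'} (hz : z ≠ 0) :
    ∃ c, ∃ P Q : (VR v)[X], b0aRp i T v z c P Q := by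
  obtain ⟨P, Q, hQ, h⟩ := hgen z
  have hP : P ≠ 0 := by
    rintro rfl
    rw [Polynomial.eval₂_zero, zero_div] at h
    exact hz h
  obtain ⟨a, ha, P₁, hP1, hP2⟩ := b0a_prim v P hP
  obtain ⟨b, hb, Q₁, hQ1, hQ2⟩ := b0a_prim v Q hQ
  refine ⟨P.coeff a / Q.coeff b, P₁, Q₁, div_ne_zero ha hb, hP2, hQ2, ?_⟩
  have h1 : P.eval₂ (i : K →+* K') T = i (P.coeff a) * b0aE i T v P₁ := by
    conv_lhs => rw [hP1]
    rw [Polynomial.eval₂_mul, Polynomial.eval₂_C, b0aE_map]
    rfl
  have h2 : Q.eval₂ (i : K →+* K') T = i (Q.coeff b) * b0aE i T v Q₁ := by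
    conv_lhs => rw [hQ1]
    rw [Polynomial.eval₂_mul, Polynomial.eval₂_C, b0aE_map]
    rfl
  have h3 : i (Q.coeff b) ≠ 0 := (map_ne_zero i).2 hb
  have h4 := b0aE_ne i T htr v (b0aR_ne v hQ2)
  rw [h, h1, h2, map_div₀]
  field_simp

omit hgen

omit htr in
private theorem b0aRp_mul {z z' : K'} {c c' : K} {P Q P' Q' : (VR v)[X]}
    (h : b0aRp i T v z c P Q) (h' : b0aRp i T v z' c' P' Q') :
    b0aRp i T v (z * z') (c * c') (P * P') (Q * Q') := by
  obtain ⟨h1, h2, h3, rfl⟩ := h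
  obtain ⟨h1', h2', h3', rfl⟩ := h'
  refine ⟨mul_ne_zero h1 h1', ?_, ?_, ?_⟩
  · rw [map_mul]
    exact mul_ne_zero h2 h2'
  · rw [map_mul]
    exact mul_ne_zero h3 h3'
  · rw [map_mul, map_mul, map_mul, div_mul_div_comm]
    congr 1
    ring

private theorem b0aRp_add {z z' : K'} {c c' : K} {P Q P' Q' : (VR v)[X]}
    (h : b0aRp i T v z c P Q) (h' : b0aRp i T v z' c' P' Q') (hle : v.ord c ≤ v.ord c')
    (hne : z + z' ≠ 0) : v.ord c ≤ b0aO i T v (z + z') := by
  obtain ⟨h1, h2, h3, h4⟩ := h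
  obtain ⟨h1', h2', h3', h4'⟩ := h'
  have hu : v.Reg (c' / c) := Or.inr (by rw [v.ord_div _ _ h1' h1]; omega)
  have hQ := b0aE_ne i T htr v (b0aR_ne v h3)
  have hQ' := b0aE_ne i T htr v (b0aR_ne v h3')
  have hic : i c ≠ 0 := (map_ne_zero i).2 h1
  let S : (VR v)[X] := P * Q' + C (⟨c' / c, hu⟩ : VR v) * (P' * Q)
  have hS : z + z' = i c * b0aE i T v S / b0aE i T v (Q * Q') := by
    have h5 : b0aE i T v S = b0aE i T v P * b0aE i T v Q' +
        i c' / i c * (b0aE i T v P' * b0aE i T v Q) := by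
      rw [map_add, map_mul, map_mul, map_mul, b0aE_C, ← map_div₀]
    rw [h5, h4, h4', map_mul]
    field_simp
  have hS0 : S.map (VR v).subtype ≠ 0 := by
    intro h0
    refine hne ?_
    rw [hS, b0aE_map, h0, Polynomial.eval₂_zero, mul_zero, zero_div]
  obtain ⟨b, hb, S₁, hS1, hS2⟩ := b0a_prim v _ hS0
  have hd : 0 ≤ v.ord ((S.map (VR v).subtype).coeff b) := by
    have h6 : v.Reg ((S.map (VR v).subtype).coeff b) := by
      rw [Polynomial.coeff_map]
      exact (S.coeff b).2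
    exact h6.resolve_left hb
  have h7 : b0aE i T v S = i ((S.map (VR v).subtype).coeff b) * b0aE i T v S₁ := by
    rw [b0aE_map i T v S]
    conv_lhs => rw [hS1]
    rw [Polynomial.eval₂_mul, Polynomial.eval₂_C, b0aE_map]
    rfl
  have h8 : b0aRp i T v (z + z') (c * (S.map (VR v).subtype).coeff b) S₁ (Q * Q') := by
    refine ⟨mul_ne_zero h1 hb, hS2, ?_, ?_⟩
    · rw [map_mul]
      exact mul_ne_zero h3 h3'
    · rw [hS, h7, map_mul i, mul_assoc]
  rw [b0aO_eq htr h8, v.ord_mul _ _ h1 hb]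
  omega

/-- the Gauss extension -/
private noncomputable def b0aW (hgen : ∀ z : K', ∃ P Q : K[X], Q ≠ 0 ∧
      z = P.eval₂ (i : K →+* K') T / Q.eval₂ (i : K →+* K') T) (v : Place k K) :
    Place k K' where
  ord := b0aO i T v
  ord_zero := by
    rw [b0aO, dif_neg]
    rintro ⟨c, P, Q, h⟩
    exact b0aRp_ne htr h rfl
  ord_mul f g hf hg := by
    obtain ⟨c, P, Q, h⟩ := b0aRp_exists htr hgen (v := v) hf
    obtain ⟨c', P', Q', h'⟩ := b0aRp_exists htr hgen (v := v) hg
    rw [b0aO_eq htr h, b0aO_eq htr h', b0aO_eq htr (b0aRp_mul h h'),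
      v.ord_mul _ _ h.1 h'.1]
  ord_add f g hf hg hfg := by
    obtain ⟨c, P, Q, h⟩ := b0aRp_exists htr hgen (v := v) hf
    obtain ⟨c', P', Q', h'⟩ := b0aRp_exists htr hgen (v := v) hg
    rw [b0aO_eq htr h, b0aO_eq htr h']
    rcases le_total (v.ord c) (v.ord c') with hle | hle
    · exact (min_le_left _ _).trans (b0aRp_add htr h h' hle hfg)
    · rw [add_comm f g]
      exact (min_le_right _ _).trans (b0aRp_add htr h' h hle (by rwa [add_comm]))
  ord_const c hc := by
    have hc' : algebraMap k K c ≠ 0 := (_root_.map_ne_zero _).2 hc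
    rw [← i.commutes, b0aO_eq htr (b0aRp_one _ hc'), v.ord_const c hc]
  exists_uniformizer := by
    obtain ⟨t, ht⟩ := v.exists_uniformizer
    have ht0 : t ≠ 0 := by
      rintro rfl
      rw [v.ord_zero] at ht
      exact zero_ne_one ht
    exact ⟨i t, by rw [b0aO_eq htr (b0aRp_one _ ht0), ht]⟩

end b0a

theorem gauss_exists {K K' : Type} [Field K] [Algebra k K] [Field K'] [Algebra k K']
    (i : K →ₐ[k] K') (T : K') (htr : ∀ G : K[X], G ≠ 0 → G.eval₂ (i : K →+* K') T ≠ 0)
    (hgen : ∀ z : K', ∃ P Q : K[X], Q ≠ 0 ∧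
      z = P.eval₂ (i : K →+* K') T / Q.eval₂ (i : K →+* K') T) (v : Place k K) :
    ∃ (w : Place k K') (j : RF v →ₐ[k] RF w) (t : RF w), (∀ x, w.ord (i x) = v.ord x) ∧
      (∀ x c, Red v x c → Red w (i x) (j c)) ∧ Red w T t ∧
      (∀ G : (RF v)[X], G ≠ 0 → G.eval₂ (j : RF v →+* RF w) t ≠ 0) ∧
      ∀ z : RF w, ∃ P Q : (RF v)[X], Q ≠ 0 ∧
        z = P.eval₂ (j : RF v →+* RF w) t / Q.eval₂ (j : RF v →+* RF w) t := by
  let w : Place k K' := b0aW htr hgen v
  have hw : ∀ z c (P Q : (VR v)[X]), b0aRp i T v z c P Q → w.ord z = v.ord c :=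
    fun z c P Q h => b0aO_eq htr h
  have hwi : ∀ x, w.ord (i x) = v.ord x := by
    intro x
    by_cases hx : x = 0
    · rw [hx, map_zero, w.ord_zero, v.ord_zero]
    · exact hw _ _ _ _ (b0aRp_one x hx)
  have hreg : ∀ x, v.Reg x → w.Reg (i x) := by
    rintro x (hx | hx)
    · exact Or.inl (by rw [hx, map_zero])
    · exact Or.inr (by rwa [hwi])
  let ι : VR v →+* VR w :=
    { toFun := fun x => ⟨i (x : K), hreg _ x.2⟩
      map_one' := Subtype.ext (map_one i)
      map_mul' := fun a b => Subtype.ext (map_mul i _ _)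
      map_zero' := Subtype.ext (map_zero i)
      map_add' := fun a b => Subtype.ext (map_add i _ _) }
  have : IsLocalHom ι := by
    refine ⟨fun a ha => ?_⟩
    refine Pool.Agent.LibCHd.isUnit_VR v a fun h => ?_
    have h1 : w.Zer (i (a : K)) := by
      rcases h with h | h
      · exact Or.inl (by rw [h, map_zero])
      · exact Or.inr (by rwa [hwi])
    exact (IsLocalRing.mem_maximalIdeal _).1
      ((Pool.Agent.LibCHd.mem_max_iff (ι a)).2 h1) ha
  let j₀ : RF v →+* RF w := IsLocalRing.ResidueField.map ι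
  let j : RF v →ₐ[k] RF w :=
    { j₀ with
      commutes' := fun c => by
        change j₀ (IsLocalRing.residue (VR v) (algebraMap k (VR v) c)) =
          IsLocalRing.residue (VR w) (algebraMap k (VR w) c)
        rw [IsLocalRing.ResidueField.map_residue]
        congr 1
        exact Subtype.ext (i.commutes c) }
  have hj : ∀ x c, Red v x c → Red w (i x) (j c) := by
    rintro x c ⟨h, rfl⟩
    exact ⟨hreg x h, (IsLocalRing.ResidueField.map_residue ι ⟨x, h⟩).symm⟩
  have hX : b0aRp i T v T 1 X 1 := by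
    refine ⟨one_ne_zero, ?_, ?_, ?_⟩
    · rw [b0aR, Polynomial.coe_mapRingHom, Polynomial.map_X]
      exact Polynomial.X_ne_zero
    · rw [map_one]
      exact one_ne_zero
    · rw [b0aE_X, map_one, map_one, one_mul, div_one]
  obtain ⟨t, ht⟩ : ∃ t, Red w T t := Pool.Agent.LibCHd.exists_red (Or.inr (by
    rw [hw _ _ _ _ hX, v.ord_one]))
  have hred : ∀ P : (VR v)[X], Red w (b0aE i T v P) ((b0aR v P).eval₂ (j : RF v →+* RF w) t) := by
    intro P
    induction P using Polynomial.induction_on' with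
    | add P Q hP hQ =>
      rw [map_add, map_add, Polynomial.eval₂_add]
      exact hP.add hQ
    | monomial n a =>
      rw [← Polynomial.C_mul_X_pow_eq_monomial, map_mul, map_mul, map_pow, map_pow,
        Polynomial.eval₂_mul, Polynomial.eval₂_pow, b0aE_C, b0aE_X]
      have h1 : b0aR v (C a) = C (IsLocalRing.residue (VR v) a) := by
        rw [b0aR, Polynomial.coe_mapRingHom, Polynomial.map_C]
      have h2 : b0aR v X = X := by
        rw [b0aR, Polynomial.coe_mapRingHom, Polynomial.map_X]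
      rw [h1, h2, Polynomial.eval₂_C, Polynomial.eval₂_X]
      exact (hj _ _ ⟨a.2, rfl⟩).mul (ht.pow n)
  have htr' : ∀ P : (VR v)[X], b0aR v P ≠ 0 → (b0aR v P).eval₂ (j : RF v →+* RF w) t ≠ 0 := by
    intro P hP h0
    have h1 := hred P
    rw [h0, Pool.Agent.LibCHd.red_zero_iff] at h1
    have h2 : b0aRp i T v (b0aE i T v P) 1 P 1 := by
      refine ⟨one_ne_zero, hP, ?_, ?_⟩
      · rw [map_one]
        exact one_ne_zero
      · rw [map_one, map_one, one_mul, div_one]
    rcases h1 with h1 | h1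
    · exact b0aRp_ne htr h2 h1
    · rw [hw _ _ _ _ h2, v.ord_one] at h1
      exact lt_irrefl _ h1
  refine ⟨w, j, t, hwi, hj, ht, fun G hG => ?_, fun z => ?_⟩
  · obtain ⟨P, rfl⟩ := Polynomial.map_surjective _ (IsLocalRing.residue_surjective (R := VR v)) G
    exact htr' P hG
  · obtain ⟨f, hf⟩ := Pool.Agent.LibCHd.exists_rep z
    by_cases hf0 : f = 0
    · subst hf0
      refine ⟨0, 1, one_ne_zero, ?_⟩
      rw [Polynomial.eval₂_zero, zero_div]
      exact hf.unique (Pool.Agent.LibCHd.red_zero w)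
    · obtain ⟨c, P, Q, h⟩ := b0aRp_exists htr hgen (v := v) hf0
      have hc : v.Reg c := by
        have h1 := hf.reg.resolve_left hf0
        rw [hw _ _ _ _ h] at h1
        exact Or.inr h1
      obtain ⟨h1, h2, h3, h4⟩ := h
      refine ⟨b0aR v (C (⟨c, hc⟩ : VR v) * P), b0aR v Q, h3, ?_⟩
      refine hf.unique ?_
      have h5 := (hred (C (⟨c, hc⟩ : VR v) * P)).div (hred Q) (htr' Q h3)
      rw [map_mul (b0aE i T v), b0aE_C] at h5
      rw [h4]
      exact h5

end Pool.Agent.LibHL77
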