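import Pool.Agent.LibHL77.Defs

/-!
[HL77 B0b] characterisation of the Gauss extension. Proof. Let `P = ∑ a_m X ^ m ≠ 0`, `c` a coefficient of smallest order,
`P = c P₁`; `P₁(T)` is regular with residue `P̄₁(t) ≠ 0` (`t` is transcendental over `RF v`), so `w.ord (P(T)) = w.ord (i c)`.
So all orders are multiples of `e` and `e = 1` (`exists_uniformizer`). A residue is the residue of `P(T) / Q(T)`, where one can
divide `Q` (and `P`) by a coefficient of `Q` of smallest order, so `= P̄(t) / Q̄(t)` (`P` has regular coefficients then).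
-/

open scoped Classical
open Polynomial

namespace Pool.Agent.LibHL77

open Pool.Agent.LibBH2
open Pool.Agent.LibCHd (VR RF Red FunF)
open Pool.Agent.LibHyp34 (Hyp Pt Pic jP Sp KC DCf gn)
open Pool.Agent.LibHD77

variable {k L : Type} [Field k] [Field L] [Algebra k L] {K K' : Type} [Field K] [Algebra k K]
  [Field K'] [Algebra L K']

private theorem b0b_sum {w : Place L K'} {ι : Type} (s : Finset ι) (f : ι → K') (c : ι → RF w)
    (h : ∀ a ∈ s, Red w (f a) (c a)) : Red w (∑ a ∈ s, f a) (∑ a ∈ s, c a) := by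
  induction s using Finset.induction_on with
  | empty =>
    rw [Finset.sum_empty, Finset.sum_empty]
    exact Pool.Agent.LibCHd.red_zero w
  | insert a s ha ih =>
    rw [Finset.sum_insert ha, Finset.sum_insert ha]
    exact (h a (Finset.mem_insert_self a s)).add
      (ih fun b hb => h b (Finset.mem_insert_of_mem hb))

private theorem b0b_red (i : EHom k L K K') (T : K') (v : Place k K) (w : Place L K')
    (j : EHom k L (RF v) (RF w)) (hj : ∀ x c, Red v x c → Red w (i.f x) (j.f c)) (t : RF w)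
    (ht : Red w T t) (P : K[X]) (hP : ∀ b, v.Reg (P.coeff b)) :
    ∃ Pb : (RF v)[X], (∀ b, Red v (P.coeff b) (Pb.coeff b)) ∧
      Red w (P.eval₂ i.f T) (Pb.eval₂ j.f t) := by
  choose c hc using fun b => Pool.Agent.LibCHd.exists_red (hP b)
  refine ⟨∑ b ∈ P.support, monomial b (c b), fun b => ?_, ?_⟩
  · rw [Polynomial.finsetSum_coeff]
    by_cases hb : b ∈ P.support
    · rw [Finset.sum_eq_single b (fun a _ hab => Polynomial.coeff_monomial_of_ne _ (Ne.symm hab))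
        (fun h => absurd hb h), Polynomial.coeff_monomial_same]
      exact hc b
    · rw [Finset.sum_eq_zero, Polynomial.notMem_support_iff.1 hb]
      · exact Pool.Agent.LibCHd.red_zero v
      · intro a ha
        refine Polynomial.coeff_monomial_of_ne _ ?_
        rintro rfl
        exact hb ha
  · rw [Polynomial.eval₂_finsetSum, Polynomial.eval₂_eq_sum, Polynomial.sum_def]
    refine b0b_sum _ _ _ fun b _ => ?_
    rw [Polynomial.eval₂_monomial]
    exact (hj _ _ (hc b)).mul (ht.pow b)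

private theorem b0b_min (v : Place k K) (P : K[X]) (hP : P ≠ 0) :
    ∃ b, P.coeff b ≠ 0 ∧ ∀ a, P.coeff a ≠ 0 → v.ord (P.coeff b) ≤ v.ord (P.coeff a) := by
  obtain ⟨b, hb, h⟩ := Finset.exists_min_image P.support (fun a => v.ord (P.coeff a))
    (Polynomial.support_nonempty.2 hP)
  exact ⟨b, Polynomial.mem_support_iff.1 hb, fun a ha => h a (Polynomial.mem_support_iff.2 ha)⟩

private theorem b0b_unit (i : EHom k L K K') (T : K') (v : Place k K) (w : Place L K')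
    (j : EHom k L (RF v) (RF w)) (hj : ∀ x c, Red v x c → Red w (i.f x) (j.f c)) (t : RF w)
    (ht : Red w T t) (htr : ∀ G : (RF v)[X], G ≠ 0 → G.eval₂ j.f t ≠ 0) (P : K[X]) (b : ℕ)
    (hb : P.coeff b ≠ 0) (hm : ∀ a, P.coeff a ≠ 0 → v.ord (P.coeff b) ≤ v.ord (P.coeff a)) :
    ∃ Pb : (RF v)[X], Pb.eval₂ j.f t ≠ 0 ∧
      Red w ((C (P.coeff b)⁻¹ * P).eval₂ i.f T) (Pb.eval₂ j.f t) := by
  obtain ⟨Pb, h1, h2⟩ := b0b_red i T v w j hj t ht (C (P.coeff b)⁻¹ * P) (fun a => by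
    rw [Polynomial.coeff_C_mul]
    by_cases ha : P.coeff a = 0
    · exact Or.inl (by rw [ha, mul_zero])
    · refine Or.inr ?_
      rw [v.ord_mul _ _ (inv_ne_zero hb) ha, v.ord_inv]
      have := hm a ha
      omega)
  refine ⟨Pb, htr Pb ?_, h2⟩
  rintro rfl
  have h3 := h1 b
  rw [Polynomial.coeff_C_mul, inv_mul_cancel₀ hb, Polynomial.coeff_zero] at h3
  exact one_ne_zero ((Pool.Agent.LibCHd.red_one v).unique h3)

private theorem b0b_ord (i : EHom k L K K') (T : K') (v : Place k K) (w : Place L K') (e : ℤ)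
    (hv : ∀ x, w.ord (i.f x) = e * v.ord x)
    (j : EHom k L (RF v) (RF w)) (hj : ∀ x c, Red v x c → Red w (i.f x) (j.f c)) (t : RF w)
    (ht : Red w T t) (htr : ∀ G : (RF v)[X], G ≠ 0 → G.eval₂ j.f t ≠ 0) (P : K[X]) (b : ℕ)
    (hb : P.coeff b ≠ 0) (hm : ∀ a, P.coeff a ≠ 0 → v.ord (P.coeff b) ≤ v.ord (P.coeff a)) :
    P.eval₂ i.f T ≠ 0 ∧ w.ord (P.eval₂ i.f T) = e * v.ord (P.coeff b) := by
  obtain ⟨Pb, h1, h2⟩ := b0b_unit i T v w j hj t ht htr P b hb hm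
  have h3 : i.f (P.coeff b) ≠ 0 := (map_ne_zero i.f).2 hb
  have h4 : P.eval₂ i.f T = i.f (P.coeff b) * (C (P.coeff b)⁻¹ * P).eval₂ i.f T := by
    rw [Polynomial.eval₂_mul, Polynomial.eval₂_C, map_inv₀, ← mul_assoc, mul_inv_cancel₀ h3,
      one_mul]
  have h5 := h2.ne_zero h1
  have h6 := h2.ord_eq_zero h1
  rw [h4]
  exact ⟨mul_ne_zero h3 h5, by rw [w.ord_mul _ _ h3 h5, h6, hv, add_zero]⟩

theorem gauss_char (i : EHom k L K K') (T : K')
    (hgen : ∀ z : K', ∃ P Q : K[X], Q ≠ 0 ∧ z = P.eval₂ i.f T / Q.eval₂ i.f T)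
    (v : Place k K) (w : Place L K') (e : ℤ) (he : 0 < e) (hv : ∀ x, w.ord (i.f x) = e * v.ord x)
    (j : EHom k L (RF v) (RF w)) (hj : ∀ x c, Red v x c → Red w (i.f x) (j.f c)) (t : RF w)
    (ht : Red w T t) (htr : ∀ G : (RF v)[X], G ≠ 0 → G.eval₂ j.f t ≠ 0) :
    e = 1 ∧
    (∀ P : K[X], P ≠ 0 → P.eval₂ i.f T ≠ 0 ∧
      w.ord (P.eval₂ i.f T) = sInf {m | ∃ b, P.coeff b ≠ 0 ∧ m = v.ord (P.coeff b)}) ∧
    ∀ z : RF w, ∃ P Q : (RF v)[X], Q ≠ 0 ∧ z = P.eval₂ j.f t / Q.eval₂ j.f t := by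
  have h1 : e = 1 := by
    obtain ⟨z, hz⟩ := w.exists_uniformizer
    obtain ⟨P, Q, hQ, rfl⟩ := hgen z
    have hP : P ≠ 0 := by
      rintro rfl
      rw [Polynomial.eval₂_zero, zero_div, w.ord_zero] at hz
      exact zero_ne_one hz
    obtain ⟨b, hb, hbm⟩ := b0b_min v P hP
    obtain ⟨c, hc, hcm⟩ := b0b_min v Q hQ
    obtain ⟨hP1, hP2⟩ := b0b_ord i T v w e hv j hj t ht htr P b hb hbm
    obtain ⟨hQ1, hQ2⟩ := b0b_ord i T v w e hv j hj t ht htr Q c hc hcm
    rw [w.ord_div _ _ hP1 hQ1, hP2, hQ2, ← mul_sub] at hz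
    exact Int.eq_one_of_mul_eq_one_right he.le hz
  subst h1
  refine ⟨rfl, fun P hP => ?_, fun z => ?_⟩
  · obtain ⟨b, hb, hbm⟩ := b0b_min v P hP
    obtain ⟨hP1, hP2⟩ := b0b_ord i T v w 1 hv j hj t ht htr P b hb hbm
    refine ⟨hP1, ?_⟩
    rw [hP2, one_mul]
    have hl : IsLeast {m | ∃ b, P.coeff b ≠ 0 ∧ m = v.ord (P.coeff b)} (v.ord (P.coeff b)) := by
      refine ⟨⟨b, hb, rfl⟩, ?_⟩
      rintro m ⟨a, ha, rfl⟩
      exact hbm a ha
    exact hl.csInf_eq.symm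
  · obtain ⟨f, hf⟩ := Pool.Agent.LibCHd.exists_rep z
    obtain ⟨P, Q, hQ, rfl⟩ := hgen f
    obtain ⟨c, hc, hcm⟩ := b0b_min v Q hQ
    obtain ⟨Qb, hQb, hQr⟩ := b0b_unit i T v w j hj t ht htr Q c hc hcm
    have h3 : i.f (Q.coeff c)⁻¹ ≠ 0 := (map_ne_zero i.f).2 (inv_ne_zero hc)
    have h4 : P.eval₂ i.f T / Q.eval₂ i.f T =
        (C (Q.coeff c)⁻¹ * P).eval₂ i.f T / (C (Q.coeff c)⁻¹ * Q).eval₂ i.f T := by
      rw [Polynomial.eval₂_mul, Polynomial.eval₂_mul, Polynomial.eval₂_C,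
        mul_div_mul_left _ _ h3]
    rw [h4] at hf
    have hQ0 := hQr.ne_zero hQb
    have hPr : w.Reg ((C (Q.coeff c)⁻¹ * P).eval₂ i.f T) := by
      have h5 := hf.reg.mul hQr.reg
      rwa [div_mul_cancel₀ _ hQ0] at h5
    obtain ⟨Pb, -, hPb⟩ := b0b_red i T v w j hj t ht (C (Q.coeff c)⁻¹ * P) (fun a => by
      by_cases ha : (C (Q.coeff c)⁻¹ * P).coeff a = 0
      · exact Or.inl ha
      · have hP0 : C (Q.coeff c)⁻¹ * P ≠ 0 := by
          intro h
          rw [h, Polynomial.coeff_zero] at ha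
          exact ha rfl
        obtain ⟨b, hb, hbm⟩ := b0b_min v _ hP0
        obtain ⟨hP1, hP2⟩ := b0b_ord i T v w 1 hv j hj t ht htr _ b hb hbm
        rw [one_mul] at hP2
        have h6 := hPr.resolve_left hP1
        rw [hP2] at h6
        exact Or.inr (h6.trans (hbm a ha)))
    refine ⟨Pb, Qb, ?_, hf.unique (hPb.div hQr hQb)⟩
    rintro rfl
    exact hQb (Polynomial.eval₂_zero _ _)

end Pool.Agent.LibHL77
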