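import Pool.Agent.LibHL77.E0

/-!
[HL77 B1] restriction of places. Proofs. `exists_restr`: as `exists_restrict` in LibCHd/B4.lean: the values `w.ord (i x)`
form a non-zero subgroup `e ℤ`, `v.ord x = w.ord (i x) / e`; trivial on `k` by `i.comm`. `exists_resHom`: the ring homomorphism
`VR v → VR w` is local, `IsLocalRing.ResidueField.map`. `exists_trivHom`: `x ↦` the residue of `i x`. `SpR_lft`,
`SpR_lft_triv`: cases.
-/

open scoped Classical
open Polynomial

namespace Pool.Agent.LibHL77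

open Pool.Agent.LibBH2
open Pool.Agent.LibCHd (VR RF Red FunF)
open Pool.Agent.LibHyp34 (Hyp Pt Pic jP Sp KC DCf gn)
open Pool.Agent.LibHD77

variable {k L : Type} [Field k] [Field L] [Algebra k L] {K K' : Type} [Field K] [Algebra k K]
  [Field K'] [Algebra L K']

theorem exists_restr (i : EHom k L K K') (w : Place L K') (x₀ : K) (h : w.ord (i.f x₀) ≠ 0) :
    ∃ (v : Place k K) (e : ℤ), 0 < e ∧ ∀ x, w.ord (i.f x) = e * v.ord x := by
  have hi : ∀ f : K, f ≠ 0 → i.f f ≠ 0 := fun f hf => (map_ne_zero i.f).2 hf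
  let A : AddSubgroup ℤ :=
    { carrier := {n | ∃ f : K, f ≠ 0 ∧ w.ord (i.f f) = n}
      add_mem' := by
        rintro a b ⟨f, hf, rfl⟩ ⟨g, hg, rfl⟩
        exact ⟨f * g, mul_ne_zero hf hg, by rw [map_mul, w.ord_mul _ _ (hi f hf) (hi g hg)]⟩
      zero_mem' := ⟨1, one_ne_zero, by rw [map_one, w.ord_one]⟩
      neg_mem' := by
        rintro a ⟨f, hf, rfl⟩
        exact ⟨f⁻¹, inv_ne_zero hf, by rw [map_inv₀, w.ord_inv]⟩ }
  obtain ⟨a, ha⟩ := Int.subgroup_cyclic A
  have hA : ∀ n, n ∈ A ↔ a ∣ n := by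
    intro n
    rw [ha, AddSubgroup.mem_closure_singleton]
    constructor
    · rintro ⟨m, rfl⟩
      exact ⟨m, by simp [mul_comm]⟩
    · rintro ⟨m, rfl⟩
      exact ⟨m, by simp [mul_comm]⟩
  have hφ0 : x₀ ≠ 0 := by
    rintro rfl
    rw [map_zero, w.ord_zero] at h
    exact h rfl
  have ha0 : a ≠ 0 := by
    rintro rfl
    have h1 : w.ord (i.f x₀) ∈ A := ⟨x₀, hφ0, rfl⟩
    rw [hA, zero_dvd_iff] at h1
    exact h h1
  have he : (0 : ℤ) < (a.natAbs : ℤ) := by
    have := Int.natAbs_pos.2 ha0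
    exact_mod_cast this
  have hd : ∀ f : K, ∃ n : ℤ, w.ord (i.f f) = (a.natAbs : ℤ) * n := by
    intro f
    by_cases hf : f = 0
    · exact ⟨0, by rw [hf, map_zero, w.ord_zero, mul_zero]⟩
    · have h1 : w.ord (i.f f) ∈ A := ⟨f, hf, rfl⟩
      rw [hA] at h1
      obtain ⟨n, hn⟩ := Int.natAbs_dvd.2 h1
      exact ⟨n, hn⟩
  choose o ho using hd
  have hcan : ∀ x y : ℤ, (a.natAbs : ℤ) * x = (a.natAbs : ℤ) * y → x = y := by
    intro x y h
    exact mul_left_cancel₀ he.ne' h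
  refine ⟨{ ord := o, ord_zero := ?_, ord_mul := ?_, ord_add := ?_, ord_const := ?_,
            exists_uniformizer := ?_ }, a.natAbs, he, ho⟩
  · apply hcan
    rw [← ho, map_zero, w.ord_zero, mul_zero]
  · intro f g hf hg
    apply hcan
    rw [mul_add, ← ho, ← ho, ← ho, map_mul, w.ord_mul _ _ (hi f hf) (hi g hg)]
  · intro f g hf hg hfg
    have h1 := w.ord_add (i.f f) (i.f g) (hi f hf) (hi g hg) (by
      rw [← map_add]; exact hi _ hfg)
    rw [← map_add, ho, ho, ho] at h1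
    rcases min_le_iff.1 h1 with h2 | h2
    · exact min_le_iff.2 (Or.inl (le_of_mul_le_mul_left h2 he))
    · exact min_le_iff.2 (Or.inr (le_of_mul_le_mul_left h2 he))
  · intro c hc
    apply hcan
    rw [← ho, i.comm, w.ord_const _ ((map_ne_zero (algebraMap k L)).2 hc), mul_zero]
  · have h1 : (a.natAbs : ℤ) ∈ A := by
      rw [hA]
      exact Int.dvd_natAbs.2 dvd_rfl
    obtain ⟨f, hf, h2⟩ := h1
    refine ⟨f, ?_⟩
    apply hcan
    rw [← ho, h2, mul_one]

theorem B1_reg {i : EHom k L K K'} {v : Place k K} {w : Place L K'} {e : ℤ} (he : 0 < e)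
    (h : ∀ x, w.ord (i.f x) = e * v.ord x) {x : K} (hx : v.Reg x) : w.Reg (i.f x) := by
  rcases hx with hx | hx
  · exact Or.inl (by rw [hx, map_zero])
  · exact Or.inr (by rw [h]; exact mul_nonneg he.le hx)

theorem B1_zer {i : EHom k L K K'} {v : Place k K} {w : Place L K'} {e : ℤ} (he : 0 < e)
    (h : ∀ x, w.ord (i.f x) = e * v.ord x) {x : K} (hx : v.Zer x) : w.Zer (i.f x) := by
  rcases hx with hx | hx
  · exact Or.inl (by rw [hx, map_zero])
  · exact Or.inr (by rw [h]; exact mul_pos he hx)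

theorem exists_resHom (i : EHom k L K K') (v : Place k K) (w : Place L K') (e : ℤ) (he : 0 < e)
    (h : ∀ x, w.ord (i.f x) = e * v.ord x) :
    ∃ j : EHom k L (RF v) (RF w), ∀ x c, Red v x c → Red w (i.f x) (j.f c) := by
  have key : ∀ c : RF v, ∃ d : RF w, ∀ x, Red v x c → Red w (i.f x) d := by
    intro c
    obtain ⟨f, hf⟩ := LibCHd.exists_rep c
    obtain ⟨d, hd⟩ := LibCHd.exists_red (B1_reg he h hf.reg)
    refine ⟨d, fun x hx => (LibCHd.red_iff_sub hd).2 ?_⟩
    rw [← map_sub]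
    exact B1_zer he h ((LibCHd.red_iff_sub hf).1 hx)
  choose j hj using key
  refine ⟨⟨⟨⟨⟨j, ?_⟩, ?_⟩, ?_, ?_⟩, ?_⟩, fun x c hx => hj c x hx⟩
  · have h1 := hj 1 1 (LibCHd.red_one v)
    rw [map_one] at h1
    exact h1.unique (LibCHd.red_one w)
  · intro c d
    obtain ⟨f, hf⟩ := LibCHd.exists_rep c
    obtain ⟨g, hg⟩ := LibCHd.exists_rep d
    have h1 := hj _ _ (hf.mul hg)
    rw [map_mul] at h1
    exact h1.unique ((hj _ _ hf).mul (hj _ _ hg))
  · have h1 := hj 0 0 (LibCHd.red_zero v)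
    rw [map_zero] at h1
    exact h1.unique (LibCHd.red_zero w)
  · intro c d
    obtain ⟨f, hf⟩ := LibCHd.exists_rep c
    obtain ⟨g, hg⟩ := LibCHd.exists_rep d
    have h1 := hj _ _ (hf.add hg)
    rw [map_add] at h1
    exact h1.unique ((hj _ _ hf).add (hj _ _ hg))
  · intro c
    have h1 := hj _ _ (LibCHd.red_const v c)
    rw [i.comm] at h1
    exact h1.unique (LibCHd.red_const w (algebraMap k L c))

theorem exists_trivHom (i : EHom k L K K') (w : Place L K') (h : ∀ x, w.ord (i.f x) = 0) :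
    ∃ j : EHom k L K (RF w), ∀ x, Red w (i.f x) (j.f x) := by
  have key : ∀ x : K, ∃ d : RF w, Red w (i.f x) d := fun x =>
    LibCHd.exists_red (Or.inr (by rw [h]))
  choose j hj using key
  refine ⟨⟨⟨⟨⟨j, ?_⟩, ?_⟩, ?_, ?_⟩, ?_⟩, fun x => hj x⟩
  · have h1 := hj 1
    rw [map_one] at h1
    exact h1.unique (LibCHd.red_one w)
  · intro f g
    have h1 := hj (f * g)
    rw [map_mul] at h1
    exact h1.unique ((hj f).mul (hj g))
  · have h1 := hj 0
    rw [map_zero] at h1
    exact h1.unique (LibCHd.red_zero w)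
  · intro f g
    have h1 := hj (f + g)
    rw [map_add] at h1
    exact h1.unique ((hj f).add (hj g))
  · intro c
    have h1 := hj (algebraMap k K c)
    rw [i.comm] at h1
    exact h1.unique (LibCHd.red_const w (algebraMap k L c))

theorem SpR_lft (i : EHom k L K K') (v : Place k K) (w : Place L K') (e : ℤ) (he : 0 < e)
    (h : ∀ x, w.ord (i.f x) = e * v.ord x) (j : EHom k L (RF v) (RF w))
    (hj : ∀ x c, Red v x c → Red w (i.f x) (j.f c)) {f : k[X]} (p : MPt f K) (q : MPt f (RF v))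
    (hq : SpR v p q) : SpR w (lft i p) (lft j q) := by
  match p, q with
  | .inf, q =>
    have hq' : q = .inf := hq
    subst hq'
    rfl
  | .aff x y hxy, .inf =>
    have hq' : v.ord x < 0 := hq
    change w.ord (i.f x) < 0
    rw [h]
    exact mul_neg_of_pos_of_neg he hq'
  | .aff x y hxy, .aff x₀ y₀ hxy₀ =>
    have hq' : Red v x x₀ ∧ Red v y y₀ := hq
    exact ⟨hj _ _ hq'.1, hj _ _ hq'.2⟩

theorem SpR_lft_triv (i : EHom k L K K') (w : Place L K') (j : EHom k L K (RF w))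
    (hj : ∀ x, Red w (i.f x) (j.f x)) {f : k[X]} (p : MPt f K) : SpR w (lft i p) (lft j p) := by
  match p with
  | .inf => rfl
  | .aff x y hxy => exact ⟨hj x, hj y⟩

end Pool.Agent.LibHL77
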