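import Pool.Agent.LibHL77.A3
import Pool.Agent.LibHL77.A2
import Pool.Agent.LibHL77.B1
import Pool.Agent.LibHL77.B0a
import Pool.Agent.LibHL77.B0b

/-!
[HL77 B2] Gauss extensions of places to the generic hyperplane section. Proofs. Let `q` be the specialisation of `u`
at `v`, `l φ(u)` has the residues `φ(q)` (`φ.sp`). `gauss_he`: by `exists_he` there is a field `Q'` with `HE i₁ (φ q)`,
and by `he_free` for it a free variable `T_j` with `φ(q)_{j'} ≠ 0`; then `φ(u)_{j'} ≠ 0`, so `T_j` is also free in `K'`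
(as in `A4`) and `K' = K(T_j)`. `gauss_exists` (B0a; `K'` as a `k`-algebra) gives a place `w` of `K'` over `k` with residue field `RF v (t) ≃ Q'` (`t ↦` the
free variable of `Q'`, by the two descriptions as rational functions). `w` is trivial on `Lf k`: the residues of `T_1, T_2` (the
second one is given by the relation) correspond to the variables of `Q'`, which are algebraically independent over `k`, so a non-zero
polynomial in `T_1, T_2` has a non-zero residue, so order `0`; so `w` is also a place over `Lf k` (the same function `ord`, the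
same ring `VR`). `gauss_he_unique`: with
the free `T_j` of `HE j` (`he_free`): if the residue of `T_j` is transcendental over `RF v` and `w ∘ i = v` then `gauss_char` (B0b) determines the orders of the `P(T_j)`; the same for `w'` (if for `w'` the
free variable is the other one, the first is free too because `φ(q)_{j'} ≠ 0`).
-/

open scoped Classical
open Polynomial

namespace Pool.Agent.LibHL77

open Pool.Agent.LibBH2
open Pool.Agent.LibCHd (VR RF Red FunF)
open Pool.Agent.LibHyp34 (Hyp Pt Pic jP Sp KC DCf gn)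
open Pool.Agent.LibHD77
open Pool.Agent.LibCHd (red_zero red_const)

variable {k : Type} [Field k] {n : ℕ} {F : Fin n → k[X]} {K K' : Type} [Field K] [Algebra k K]
  [Field K'] [Algebra (Lf k) K'] {i : EHom k (Lf k) K K'}

theorem B2_fin2 : ∀ j j' : Fin 2, j ≠ j' → (j = 0 ∧ j' = 1) ∨ (j = 1 ∧ j' = 0) := by decide

theorem B2_fin2' : ∀ j j' a a' : Fin 2, j ≠ j' → a ≠ a' → ¬ j = a → a = j' ∧ a' = j := by decide

theorem B2_fin2'' : ∀ j j' a : Fin 2, j ≠ j' → ¬ a = j → a = j' := by decide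

/-- a linear change of the variable: transcendence -/
theorem B2_tr_lin {M M' : Type} [Field M] [Field M'] (f : M →+* M') (T : M')
    (hT : ∀ G : M[X], G ≠ 0 → G.eval₂ f T ≠ 0) (α β : M) (hα : α ≠ 0) :
    ∀ G : M[X], G ≠ 0 → G.eval₂ f (f α * T + f β) ≠ 0 := by
  intro G hG h0
  have h1 : (G.comp (C α * X + C β)).eval₂ f T = 0 := by
    rw [Polynomial.eval₂_comp]
    simpa using h0
  have h2 : G.comp (C α * X + C β) ≠ 0 := by
    intro h
    rcases Polynomial.comp_eq_zero_iff.1 h with h3 | h3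
    · exact hG h3
    · have h4 := congrArg (fun p : M[X] => p.coeff 1) h3.2
      simp at h4
      exact hα h4
  exact hT _ h2 h1

/-- a linear change of the variable: generation -/
theorem B2_gen_lin {M M' : Type} [Field M] [Field M'] (f : M →+* M') (T S : M') (α β : M)
    (hS : T = f α * S + f β) (hT : ∀ z : M', ∃ P Q : M[X], Q.eval₂ f T ≠ 0 ∧
      z = P.eval₂ f T / Q.eval₂ f T) (z : M') :
    ∃ P Q : M[X], Q.eval₂ f S ≠ 0 ∧ z = P.eval₂ f S / Q.eval₂ f S := by
  obtain ⟨P, Q, h1, h2⟩ := hT z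
  have h3 : ∀ R : M[X], (R.comp (C α * X + C β)).eval₂ f S = R.eval₂ f T := by
    intro R
    rw [Polynomial.eval₂_comp, hS]
    simp
  exact ⟨P.comp (C α * X + C β), Q.comp (C α * X + C β), by rwa [h3], by rw [h3, h3, h2]⟩

/-- the relation, solved for one of the variables -/
theorem B2_solve {M M' : Type} [Field M] [Algebra k M] [Field M'] [Algebra (Lf k) M']
    {i : EHom k (Lf k) M M'} {φ : Fin 3 → M} (h : HE i φ) {j j' : Fin 2} (hj : j ≠ j')
    (h0 : φ j'.succ ≠ 0) : algebraMap (Lf k) M' (tt k j') =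
      - (i.f (φ 0) + algebraMap (Lf k) M' (tt k j) * i.f (φ j.succ)) / i.f (φ j'.succ) := by
  have h1 : i.f (φ j'.succ) ≠ 0 := by
    rw [Ne, map_eq_zero]
    exact h0
  rw [eq_div_iff h1]
  have h2 := h.rel
  have hcase := B2_fin2 j j' hj
  rcases hcase with ⟨rfl, rfl⟩ | ⟨rfl, rfl⟩
  · have e1 : (Fin.succ (1 : Fin 2)) = (2 : Fin 3) := rfl
    have e0 : (Fin.succ (0 : Fin 2)) = (1 : Fin 3) := rfl
    rw [e1, e0]
    linear_combination h2
  · have e1 : (Fin.succ (1 : Fin 2)) = (2 : Fin 3) := rfl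
    have e0 : (Fin.succ (0 : Fin 2)) = (1 : Fin 3) := rfl
    rw [e1, e0]
    linear_combination h2

/-- a variable is free if the coefficient of the other one is not zero -/
theorem B2_free {M M' : Type} [Field M] [Algebra k M] [Field M'] [Algebra (Lf k) M']
    {i : EHom k (Lf k) M M'} {φ : Fin 3 → M} (h : HE i φ) {j j' : Fin 2} (hj : j ≠ j')
    (h0 : φ j'.succ ≠ 0) :
    (∀ G : M[X], G ≠ 0 → G.eval₂ i.f (algebraMap (Lf k) M' (tt k j)) ≠ 0) ∧
      ∀ z : M', ∃ P Q : M[X], Q ≠ 0 ∧
        z = P.eval₂ i.f (algebraMap (Lf k) M' (tt k j)) /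
          Q.eval₂ i.f (algebraMap (Lf k) M' (tt k j)) := by
  obtain ⟨a, a', haa, h1, h2, h3, h4⟩ := he_free h ⟨_, h0⟩
  by_cases hja : j = a
  · subst hja
    exact ⟨h2, h4⟩
  · obtain ⟨rfl, rfl⟩ := B2_fin2' j j' a a' hj haa hja
    have h5 := B2_solve h hj h0
    have g1 : i.f (φ a'.succ) ≠ 0 := by
      rw [Ne, map_eq_zero]
      exact h1
    have g0 : i.f (φ a.succ) ≠ 0 := by
      rw [Ne, map_eq_zero]
      exact h0
    -- T_{a'} = α T_a + β
    have e1 : algebraMap (Lf k) M' (tt k a') = i.f (-(φ a.succ / φ a'.succ)) *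
        algebraMap (Lf k) M' (tt k a) + i.f (-(φ 0 / φ a'.succ)) := by
      rw [h3]
      simp only [map_neg, map_div₀]
      field_simp
      ring
    have e2 : algebraMap (Lf k) M' (tt k a) = i.f (-(φ a'.succ / φ a.succ)) *
        algebraMap (Lf k) M' (tt k a') + i.f (-(φ 0 / φ a.succ)) := by
      rw [h5]
      simp only [map_neg, map_div₀]
      field_simp
      ring
    have hα : -(φ a.succ / φ a'.succ) ≠ 0 := neg_ne_zero.2 (div_ne_zero h0 h1)
    have htr : ∀ G : M[X], G ≠ 0 → G.eval₂ i.f (algebraMap (Lf k) M' (tt k a')) ≠ 0 := by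
      rw [e1]
      exact B2_tr_lin i.f _ h2 _ _ hα
    refine ⟨htr, fun z => ?_⟩
    obtain ⟨P, Q, hQ, hz⟩ := B2_gen_lin i.f _ _ _ _ e2 (fun z => by
      obtain ⟨P, Q, hQ, hz⟩ := h4 z
      exact ⟨P, Q, h2 Q hQ, hz⟩) z
    refine ⟨P, Q, ?_, hz⟩
    rintro rfl
    simp at hQ

/-- the variables as polynomials in the free variable -/
noncomputable def B2_sub {M : Type} [Field M] (φ : Fin 3 → M) (j j' : Fin 2) : Fin 2 → M[X] :=
  fun a => if a = j then X else -(C (φ 0) + X * C (φ j.succ)) * C (φ j'.succ)⁻¹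

theorem B2_sub_eval {M M' : Type} [Field M] [Field M'] (f : M →+* M') (φ : Fin 3 → M)
    {j j' : Fin 2} (hj : j ≠ j') (T : Fin 2 → M')
    (h : T j' = - (f (φ 0) + T j * f (φ j.succ)) / f (φ j'.succ)) (a : Fin 2) :
    (B2_sub φ j j' a).eval₂ f (T j) = T a := by
  unfold B2_sub
  split_ifs with h1
  · rw [h1, Polynomial.eval₂_X]
  · have h2 : a = j' := B2_fin2'' j j' a hj h1
    rw [h2, h, Polynomial.eval₂_mul, Polynomial.eval₂_neg, Polynomial.eval₂_add,
      Polynomial.eval₂_mul, Polynomial.eval₂_X, Polynomial.eval₂_C, Polynomial.eval₂_C,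
      Polynomial.eval₂_C, map_inv₀, div_eq_mul_inv]

theorem B2_aeval_sub {M M' : Type} [Field M] [Algebra k M] [Field M'] (f : M →+* M')
    (φ : Fin 3 → M) {j j' : Fin 2} (hj : j ≠ j') (T : Fin 2 → M')
    (h : T j' = - (f (φ 0) + T j * f (φ j.succ)) / f (φ j'.succ)) (G : MvPolynomial (Fin 2) k) :
    (MvPolynomial.aeval (B2_sub φ j j') G).eval₂ f (T j) =
      G.eval₂ (f.comp (algebraMap k M)) T := by
  have h1 : (Polynomial.eval₂RingHom f (T j)).comp
      (MvPolynomial.aeval (R := k) (B2_sub φ j j')).toRingHom =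
      MvPolynomial.eval₂Hom (f.comp (algebraMap k M)) T := by
    apply MvPolynomial.ringHom_ext
    · intro c
      simp [Polynomial.algebraMap_apply]
    · intro a
      simp [B2_sub_eval f φ hj T h a]
  exact RingHom.congr_fun h1 G

/-- the image of a polynomial in the variables -/
theorem B2_alg_eval {M' : Type} [Field M'] [Algebra (Lf k) M'] (G : MvPolynomial (Fin 2) k) :
    algebraMap (Lf k) M' (algebraMap (MvPolynomial (Fin 2) k) (Lf k) G) =
      G.eval₂ ((algebraMap (Lf k) M').comp (algebraMap k (Lf k)))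
        (fun a => algebraMap (Lf k) M' (tt k a)) := by
  have h1 : (algebraMap (Lf k) M').comp (algebraMap (MvPolynomial (Fin 2) k) (Lf k)) =
      MvPolynomial.eval₂Hom ((algebraMap (Lf k) M').comp (algebraMap k (Lf k)))
        (fun a => algebraMap (Lf k) M' (tt k a)) := by
    apply MvPolynomial.ringHom_ext
    · intro c
      simp [IsScalarTower.algebraMap_apply k (MvPolynomial (Fin 2) k) (Lf k)]
    · intro a
      simp [tt]
  exact RingHom.congr_fun h1 G

/-- residues of polynomials -/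
theorem B2_red_eval {K₁ : Type} [Field K₁] [Algebra k K₁] (w : Place k K₁) (T : Fin 2 → K₁)
    (t : Fin 2 → RF w) (h : ∀ a, Red w (T a) (t a)) (G : MvPolynomial (Fin 2) k) :
    Red w (G.eval₂ (algebraMap k K₁) T) (G.eval₂ (algebraMap k (RF w)) t) := by
  induction G using MvPolynomial.induction_on with
  | C c =>
    rw [MvPolynomial.eval₂_C, MvPolynomial.eval₂_C]
    exact red_const w c
  | add p q hp hq =>
    rw [MvPolynomial.eval₂_add, MvPolynomial.eval₂_add]
    exact hp.add hq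
  | mul_X p a hp =>
    rw [MvPolynomial.eval₂_mul, MvPolynomial.eval₂_mul, MvPolynomial.eval₂_X,
      MvPolynomial.eval₂_X]
    exact hp.mul (h a)

theorem gauss_he (φ : Mor F) (u : Pnt F K) (hi : HE i (φ.φ K u)) (v : Place k K)
    (q : Pnt F (RF v)) (hq : ∀ a, SpR v (u a) (q a)) (hnc : NC k (φ.φ (RF v) q)) :
    ∃ (w : Place (Lf k) K') (j : EHom k (Lf k) (RF v) (RF w)), (∀ x, w.ord (i.f x) = v.ord x) ∧
      (∀ x c, Red v x c → Red w (i.f x) (j.f c)) ∧ HE j (φ.φ (RF v) q) := by
  obtain ⟨l, hl⟩ := φ.sp K v u q hq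
  obtain ⟨b, hb⟩ := φ.ne (RF v) q
  obtain ⟨Q', _, _, iq, hQ'⟩ := exists_he (RF v) (φ.φ (RF v) q) hnc
  obtain ⟨a, a', haa, hq1, htrq, hrelq, -⟩ := he_free hQ' ⟨b, hb⟩
  have hu1 : φ.φ K u a'.succ ≠ 0 := by
    intro h0
    have h5 := hl a'.succ
    rw [h0, mul_zero] at h5
    exact hq1 (h5.unique (red_zero v))
  have hl0 : l ≠ 0 := by
    rintro rfl
    have h5 := hl a'.succ
    rw [zero_mul] at h5
    exact hq1 (h5.unique (red_zero v))
  obtain ⟨hK1, hK2⟩ := B2_free hi haa hu1
  have hrelu := B2_solve hi haa hu1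
  let algK' : Algebra k K' := ((algebraMap (Lf k) K').comp (algebraMap k (Lf k))).toAlgebra
  let iK : K →ₐ[k] K' := { i.f with commutes' := fun c => i.comm c }
  let T : Fin 2 → K' := fun c => algebraMap (Lf k) K' (tt k c)
  obtain ⟨w0, j0, t, g1, g2, g3, g4, g5⟩ := gauss_exists iK (T a) hK1 hK2 v
  let J : RF v →+* RF w0 := (j0 : RF v →+* RF w0)
  have hiu : ∀ b : Fin 3, Red w0 (i.f (l * φ.φ K u b)) (J (φ.φ (RF v) q b)) := fun b =>
    g2 _ _ (hl b)
  have hJ1 : J (φ.φ (RF v) q a'.succ) ≠ 0 := by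
    rw [Ne, map_eq_zero]
    exact hq1
  -- the residues of the variables
  let tf : Fin 2 → RF w0 := fun c => if c = a then t else
    -(J (φ.φ (RF v) q 0) + t * J (φ.φ (RF v) q a.succ)) / J (φ.φ (RF v) q a'.succ)
  have htfa : tf a = t := if_pos rfl
  have htfa' : tf a' = -(J (φ.φ (RF v) q 0) + tf a * J (φ.φ (RF v) q a.succ)) /
      J (φ.φ (RF v) q a'.succ) := by
    rw [htfa]
    exact if_neg (Ne.symm haa)
  have hTf : ∀ c, Red w0 (T c) (tf c) := by
    intro c
    by_cases hc : c = a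
    · rw [hc, htfa]
      exact g3
    · have hc' : c = a' := B2_fin2'' a a' c haa hc
      rw [hc', htfa', htfa]
      have e1 : T a' = -(i.f (l * φ.φ K u 0) + T a * i.f (l * φ.φ K u a.succ)) /
          i.f (l * φ.φ K u a'.succ) := by
        have h6 : i.f l ≠ 0 := by
          rw [Ne, map_eq_zero]
          exact hl0
        have h7 : i.f (φ.φ K u a'.succ) ≠ 0 := by
          rw [Ne, map_eq_zero]
          exact hu1
        change algebraMap (Lf k) K' (tt k a') = _
        rw [hrelu, map_mul, map_mul, map_mul]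
        change _ = -(i.f l * i.f (φ.φ K u 0) + algebraMap (Lf k) K' (tt k a) *
          (i.f l * i.f (φ.φ K u a.succ))) / (i.f l * i.f (φ.φ K u a'.succ))
        field_simp
      rw [e1]
      exact ((hiu 0).add (g3.mul (hiu a.succ))).neg.div (hiu a'.succ) hJ1
  -- independence
  have hJc : J.comp (algebraMap k (RF v)) = algebraMap k (RF w0) := by
    ext c
    exact j0.commutes c
  have hind : ∀ G : MvPolynomial (Fin 2) k, G ≠ 0 → G.eval₂ (algebraMap k (RF w0)) tf ≠ 0 := by
    intro G hG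
    have hR : MvPolynomial.aeval (R := k) (B2_sub (φ.φ (RF v) q) a a') G ≠ 0 := by
      intro h0
      have h6 := B2_aeval_sub (k := k) iq.f (φ.φ (RF v) q) haa
        (fun c => algebraMap (Lf k) Q' (tt k c)) hrelq G
      rw [h0, Polynomial.eval₂_zero] at h6
      have h7 := B2_alg_eval (k := k) (M' := Q') G
      have h8 : iq.f.comp (algebraMap k (RF v)) =
          (algebraMap (Lf k) Q').comp (algebraMap k (Lf k)) := RingHom.ext iq.comm
      rw [← h8, ← h6, map_eq_zero] at h7
      exact hG ((IsFractionRing.injective (MvPolynomial (Fin 2) k) (Lf k))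
        (by rw [h7, map_zero]))
    have h9 := B2_aeval_sub (k := k) J (φ.φ (RF v) q) haa tf htfa' G
    rw [hJc] at h9
    rw [← h9, htfa]
    exact g4 _ hR
  have hord : ∀ G : MvPolynomial (Fin 2) k, G ≠ 0 →
      algebraMap (Lf k) K' (algebraMap (MvPolynomial (Fin 2) k) (Lf k) G) ≠ 0 ∧
      w0.ord (algebraMap (Lf k) K' (algebraMap (MvPolynomial (Fin 2) k) (Lf k) G)) = 0 := by
    intro G hG
    have h6 := B2_red_eval w0 T tf hTf G
    have h7 : G.eval₂ (algebraMap k K') T =
        algebraMap (Lf k) K' (algebraMap (MvPolynomial (Fin 2) k) (Lf k) G) :=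
      (B2_alg_eval (k := k) (M' := K') G).symm
    rw [h7] at h6
    exact ⟨h6.ne_zero (hind G hG), h6.ord_eq_zero (hind G hG)⟩
  let w : Place (Lf k) K' :=
    { ord := w0.ord
      ord_zero := w0.ord_zero
      ord_mul := w0.ord_mul
      ord_add := w0.ord_add
      ord_const := by
        intro c hc
        obtain ⟨G, H, hH, rfl⟩ := IsFractionRing.div_surjective (A := MvPolynomial (Fin 2) k) c
        have hH0 : H ≠ 0 := nonZeroDivisors.ne_zero hH
        have hG0 : G ≠ 0 := by
          rintro rfl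
          simp at hc
        rw [map_div₀, w0.ord_div _ _ (hord G hG0).1 (hord H hH0).1, (hord G hG0).2,
          (hord H hH0).2, sub_zero]
      exists_uniformizer := w0.exists_uniformizer }
  have hR : ∀ (x : K') (c : RF w0), Red w0 x c → Red w x c := fun x c h => h
  let jj : EHom k (Lf k) (RF v) (RF w) :=
    { f := J
      comm := by
        intro c
        have h6 : Red w (i.f (algebraMap k K c)) (J (algebraMap k (RF v) c)) :=
          hR _ _ (g2 _ _ (red_const v c))
        rw [i.comm] at h6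
        exact h6.unique (red_const w _) }
  have hTT : ∀ c, algebraMap (Lf k) (RF w) (tt k c) = tf c := fun c =>
    (red_const w (tt k c)).unique (hR _ _ (hTf c))
  refine ⟨w, jj, g1, fun x c h => hR _ _ (g2 x c h), ?_, ?_, ?_⟩
  · have h6 := hi.rel
    have h7 : i.f (l * φ.φ K u 0) + T 0 * i.f (l * φ.φ K u 1) + T 1 * i.f (l * φ.φ K u 2) = 0 := by
      rw [map_mul, map_mul, map_mul]
      change i.f l * i.f (φ.φ K u 0) + algebraMap (Lf k) K' (tt k 0) * (i.f l * i.f (φ.φ K u 1)) +
        algebraMap (Lf k) K' (tt k 1) * (i.f l * i.f (φ.φ K u 2)) = 0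
      linear_combination i.f l * h6
    have h8 := ((hiu 0).add ((hTf 0).mul (hiu 1))).add ((hTf 1).mul (hiu 2))
    rw [h7] at h8
    have h9 := h8.unique (red_zero w0)
    rw [hTT, hTT]
    exact h9
  · rw [eq_top_iff]
    rintro z -
    obtain ⟨P, Q, hQ, hz⟩ := g5 z
    have hmem : ∀ P : (RF v)[X], P.eval₂ jj.f (algebraMap (Lf k) (RF w) (tt k a)) ∈
        IntermediateField.adjoin (Lf k) (Set.range jj.f) := by
      intro P
      rw [Polynomial.eval₂_eq_sum_range]
      refine sum_mem fun m _ => mul_mem ?_ (pow_mem ?_ m)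
      · exact IntermediateField.subset_adjoin _ _ ⟨_, rfl⟩
      · exact IntermediateField.algebraMap_mem _ _
    have h7 : z = P.eval₂ jj.f (algebraMap (Lf k) (RF w) (tt k a)) /
        Q.eval₂ jj.f (algebraMap (Lf k) (RF w) (tt k a)) := by
      rw [hTT a, htfa]
      exact hz
    rw [h7]
    exact div_mem (hmem P) (hmem Q)
  · refine ⟨a, fun G hG => ?_⟩
    rw [hTT a, htfa]
    exact g4 G hG

theorem gauss_he_unique (φ : Mor F) (u : Pnt F K) (hi : HE i (φ.φ K u)) (v : Place k K)
    (q : Pnt F (RF v)) (hq : ∀ a, SpR v (u a) (q a)) (w w' : Place (Lf k) K')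
    (j : EHom k (Lf k) (RF v) (RF w)) (j' : EHom k (Lf k) (RF v) (RF w'))
    (h1 : ∀ x, w.ord (i.f x) = v.ord x) (h2 : ∀ x c, Red v x c → Red w (i.f x) (j.f c))
    (h3 : HE j (φ.φ (RF v) q)) (h1' : ∀ x, w'.ord (i.f x) = v.ord x)
    (h2' : ∀ x c, Red v x c → Red w' (i.f x) (j'.f c)) (h3' : HE j' (φ.φ (RF v) q)) :
    w = w' := by
  obtain ⟨b, hb⟩ := φ.ne (RF v) q
  obtain ⟨a, a', haa, hq1, htr, -, -⟩ := he_free h3 ⟨b, hb⟩
  obtain ⟨l, hl⟩ := φ.sp K v u q hq
  have hu1 : φ.φ K u a'.succ ≠ 0 := by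
    intro h0
    have h5 := hl a'.succ
    rw [h0, mul_zero] at h5
    exact hq1 (h5.unique (red_zero v))
  obtain ⟨hK1, hK2⟩ := B2_free hi haa hu1
  obtain ⟨htr', -⟩ := B2_free h3' haa hq1
  obtain ⟨-, ho, -⟩ := gauss_char i _ hK2 v w 1 one_pos (fun x => by rw [h1, one_mul]) j h2 _
    (red_const w (tt k a)) htr
  obtain ⟨-, ho', -⟩ := gauss_char i _ hK2 v w' 1 one_pos (fun x => by rw [h1', one_mul]) j' h2' _
    (red_const w' (tt k a)) htr'
  apply Place.ext'
  intro f
  obtain ⟨P, Q, hQ, rfl⟩ := hK2 f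
  by_cases hP : P = 0
  · rw [hP, Polynomial.eval₂_zero, zero_div, w.ord_zero, w'.ord_zero]
  rw [w.ord_div _ _ (ho P hP).1 (ho Q hQ).1, w'.ord_div _ _ (ho P hP).1 (ho Q hQ).1,
    (ho P hP).2, (ho Q hQ).2, (ho' P hP).2, (ho' Q hQ).2]

end Pool.Agent.LibHL77
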