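import Pool.Agent.LibHL77.A3
import Pool.Agent.LibHL77.B1
import Pool.Agent.LibHL77.B0b

/-!
[HL77 B4] the places of the generic hyperplane section which contribute to a cycle. Proof. `exists_restr`: `v`, `e`;
`q` the specialisation at `v` (`SpR_exists`), `j` from `exists_resHom`, `q' = lftP j q` (`SpR_lft`, `SpR_unique`). The field `RF w` is
finite over `fld q'`, which is generated over `Lf k` by `j (fld q)` (`co_lftP`); `trdeg k (RF w) = d + 2` (additivity,
`trdeg k (Lf k) = 2`). The residues satisfy `φ(q)_0 + T_1 φ(q)_1 + T_2 φ(q)_2 = 0` (apply `φ.sp`, the relation `rel` times `l`) with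
coefficients in `fld q` (`mem_fld`), not all zero, so `trdeg k (j (fld q))(T_1,T_2) ≤ trdeg (fld q) + 1`, hence
`trdeg (fld q) ≥ d + 1`; `trdeg (RF v) ≤ d + 1` (`trdeg_resField` in LibCHd/Small.lean for `j = id`, `v` is not trivial). So `RF v` is
algebraic over `fld q`, some `T_j` is transcendental over `RF v`. `RF v` is finite over `fld q`: elements of `RF v` which
are linearly independent over `fld q` are linearly independent over `fld q (T_j)` in `RF w` (`T_j` transcendental), and
`fld q'` is finite over (in fact equal to) `fld q (T_j)`. So `FunF k (d+1) (RF v)`. `T_j` free in `K'` (as `φ(q)_{j'} ≠ 0`): `K' = K(T_j)`, and `gauss_char` (B0b) gives `e = 1` and that `RF w`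
is generated by `j (RF v)` and `T_j`: `HE j`.
-/

open scoped Classical
open Polynomial

namespace Pool.Agent.LibHL77

open Pool.Agent.LibBH2
open Pool.Agent.LibCHd (VR RF Red FunF)
open Pool.Agent.LibHyp34 (Hyp Pt Pic jP Sp KC DCf gn)
open Pool.Agent.LibHD77

section rat

variable {A B : Type} [Field A] [Field B]

/-- the subfield of the quotients `P(T) / Q(T)` -/
private def b4_rat (f : A →+* B) (T : B) : Subfield B where
  carrier := {z | ∃ P Q : A[X], Q.eval₂ f T ≠ 0 ∧ z = P.eval₂ f T / Q.eval₂ f T}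
  mul_mem' := by
    rintro _ _ ⟨P, Q, hQ, rfl⟩ ⟨P', Q', hQ', rfl⟩
    refine ⟨P * P', Q * Q', ?_, ?_⟩
    · rw [eval₂_mul]; exact mul_ne_zero hQ hQ'
    · rw [eval₂_mul, eval₂_mul, div_mul_div_comm]
  one_mem' := ⟨1, 1, by simp, by simp⟩
  add_mem' := by
    rintro _ _ ⟨P, Q, hQ, rfl⟩ ⟨P', Q', hQ', rfl⟩
    refine ⟨P * Q' + Q * P', Q * Q', ?_, ?_⟩
    · rw [eval₂_mul]; exact mul_ne_zero hQ hQ'
    · rw [eval₂_add, eval₂_mul, eval₂_mul, eval₂_mul, div_add_div _ _ hQ hQ']
  zero_mem' := ⟨0, 1, by simp, by simp⟩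
  neg_mem' := by
    rintro _ ⟨P, Q, hQ, rfl⟩
    exact ⟨-P, Q, hQ, by rw [eval₂_neg, neg_div]⟩
  inv_mem' := by
    rintro _ ⟨P, Q, hQ, rfl⟩
    by_cases hP : P.eval₂ f T = 0
    · exact ⟨0, 1, by simp, by simp [hP]⟩
    · exact ⟨Q, P, hP, by rw [inv_div]⟩

private theorem b4_rat_C (f : A →+* B) (T : B) (a : A) : f a ∈ b4_rat f T :=
  ⟨C a, 1, by simp, by simp⟩

private theorem b4_rat_X (f : A →+* B) (T : B) : T ∈ b4_rat f T :=
  ⟨X, 1, by simp, by simp⟩

end rat

section lf

variable {k : Type} [Field k] {B : Type} [Field B] [Algebra (Lf k) B]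

private theorem b4_Lf_mem (S : Subfield B)
    (h1 : ∀ c : k, algebraMap (Lf k) B (algebraMap k (Lf k) c) ∈ S)
    (h2 : ∀ a, algebraMap (Lf k) B (tt k a) ∈ S) (z : Lf k) : algebraMap (Lf k) B z ∈ S := by
  have h3 : ∀ p : MvPolynomial (Fin 2) k,
      algebraMap (Lf k) B (algebraMap (MvPolynomial (Fin 2) k) (Lf k) p) ∈ S := by
    intro p
    induction p using MvPolynomial.induction_on with
    | C a =>
      have h4 : algebraMap (MvPolynomial (Fin 2) k) (Lf k) (MvPolynomial.C a) =
          algebraMap k (Lf k) a := by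
        rw [← MvPolynomial.algebraMap_eq, ← IsScalarTower.algebraMap_apply]
      rw [h4]; exact h1 a
    | add p q hp hq => rw [map_add, map_add]; exact add_mem hp hq
    | mul_X p i hp => rw [map_mul, map_mul]; exact mul_mem hp (h2 i)
  obtain ⟨p, q, hq, rfl⟩ := IsFractionRing.div_surjective (A := MvPolynomial (Fin 2) k) z
  rw [map_div₀]
  exact div_mem (h3 p) (h3 q)

private theorem b4_adj_mem (S : Subfield B) (h : ∀ z : Lf k, algebraMap (Lf k) B z ∈ S)
    (R : Set B) (hR : ∀ z ∈ R, z ∈ S) (z : B) (hz : z ∈ IntermediateField.adjoin (Lf k) R) :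
    z ∈ S := by
  have h1 : IntermediateField.adjoin (Lf k) R ≤ S.toIntermediateField h := by
    rw [IntermediateField.adjoin_le_iff]
    exact hR
  exact h1 hz

private theorem b4_trdeg_Lf : Algebra.trdeg k (Lf k) = 2 := by
  have h0 : Algebra.IsAlgebraic (MvPolynomial (Fin 2) k) (Lf k) :=
    IsLocalization.isAlgebraic _ (nonZeroDivisors (MvPolynomial (Fin 2) k))
  have h1 := trdeg_add_eq k (MvPolynomial (Fin 2) k) (A := Lf k)
  rw [MvPolynomial.trdeg_of_isDomain, trdeg_eq_zero (R := MvPolynomial (Fin 2) k) (A := Lf k),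
    add_zero] at h1
  rw [← h1]
  simp

private theorem b4_trdeg_two [Algebra k B] [IsScalarTower k (Lf k) B] {d : ℕ}
    (h : FunF (Lf k) d B) : Algebra.trdeg k B = (d + 2 : ℕ) := by
  rw [← trdeg_add_eq k (Lf k) (A := B), h.trdeg, b4_trdeg_Lf]
  push_cast
  rw [add_comm]

end lf

private theorem b4_int {L₁ L₂ B : Type} [Field L₁] [Field L₂] [Field B] [Algebra L₁ B]
    [Algebra L₂ B] (E₁ : IntermediateField L₁ B) (E₂ : IntermediateField L₂ B)
    (h : ∀ z ∈ E₁, z ∈ E₂) (z : B) (hz : IsIntegral E₁ z) : IsIntegral E₂ z := by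
  let φ : E₁ →+* E₂ :=
    { toFun := fun x => ⟨x, h x x.2⟩
      map_one' := rfl
      map_mul' := fun _ _ => rfl
      map_zero' := rfl
      map_add' := fun _ _ => rfl }
  exact hz.map_of_comp_eq φ (RingHom.id B) (by ext x; rfl)

open scoped IntermediateField.algebraAdjoinAdjoin in
private theorem b4_trdeg_adjoin {E K : Type} [Field E] [Field K] [Algebra E K] (s : Set K) :
    Algebra.trdeg E (IntermediateField.adjoin E s) ≤ Cardinal.mk s := by
  have h1 : Algebra.trdeg E (MvPolynomial.aeval (Subtype.val : s → K) :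
      MvPolynomial s E →ₐ[E] K).range ≤ Cardinal.mk s := by
    refine (trdeg_le_of_surjective (MvPolynomial.aeval (Subtype.val : s → K) :
      MvPolynomial s E →ₐ[E] K).rangeRestrict (AlgHom.rangeRestrict_surjective _)).trans ?_
    rw [MvPolynomial.trdeg_of_isDomain, Cardinal.lift_id]
  rw [← Algebra.adjoin_eq_range] at h1
  have h3 := trdeg_add_eq E (Algebra.adjoin E s) (A := IntermediateField.adjoin E s)
  rw [trdeg_eq_zero (R := Algebra.adjoin E s), add_zero] at h3
  rw [← h3]
  exact h1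

private theorem b4_trdeg_le {E K : Type} [Field E] [Field K] [Algebra E K] (s : Set K)
    (h : ∀ z : K, IsIntegral (IntermediateField.adjoin E s) z) :
    Algebra.trdeg E K ≤ Cardinal.mk s := by
  have _ : Algebra.IsAlgebraic (IntermediateField.adjoin E s) K := ⟨fun z => (h z).isAlgebraic⟩
  have h3 := trdeg_add_eq E (IntermediateField.adjoin E s) (A := K)
  rw [trdeg_eq_zero (R := IntermediateField.adjoin E s), add_zero] at h3
  rw [← h3]
  exact b4_trdeg_adjoin s

/-- a finitely generated field of transcendence degree `d` -/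
private theorem b4_funF {k : Type} [Field k] {d : ℕ} {M : Type} [Field M] [Algebra k M]
    (htr : Algebra.trdeg k M = d) (S : Set M) (hS : S.Finite)
    (hfin : Module.Finite (IntermediateField.adjoin k S) M) : FunF k d M := by
  have halg : Algebra.IsAlgebraic (IntermediateField.adjoin k S) M := inferInstance
  have halg' : Algebra.IsAlgebraic (Algebra.adjoin k S) M :=
    IntermediateField.isAlgebraic_adjoin_iff_top.1 halg
  obtain ⟨s, hsS, hs⟩ := exists_isTranscendenceBasis_subset (R := k) S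
  have hcard : Cardinal.mk s = d := hs.cardinalMk_eq_trdeg.trans htr
  obtain ⟨e⟩ : Nonempty (Fin d ≃ s) := Cardinal.eq.1 (by simpa using hcard.symm)
  refine ⟨fun i => e i, hs.1.comp e e.injective, ?_⟩
  have hrange : (Set.range fun i => ((e i : s) : M)) = s := by
    ext x
    constructor
    · rintro ⟨i, rfl⟩; exact (e i).2
    · intro hx; exact ⟨e.symm ⟨x, hx⟩, by simp⟩
  rw [hrange]
  have halg0 : Algebra.IsAlgebraic (IntermediateField.adjoin k s) M := by
    rw [IntermediateField.isAlgebraic_adjoin_iff_top]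
    have := hs.isAlgebraic
    rwa [Subtype.range_coe] at this
  let b := Module.finBasis (IntermediateField.adjoin k S) M
  set E := IntermediateField.adjoin k s with hE
  have hfinS : Finite ↥(S ∪ Set.range b) := (hS.union (Set.finite_range b)).to_subtype
  have htop : IntermediateField.adjoin E (S ∪ Set.range b) = ⊤ := by
    rw [eq_top_iff]
    intro x _
    have hmem : ∀ y ∈ IntermediateField.adjoin k S,
        y ∈ IntermediateField.adjoin E (S ∪ Set.range b) := by
      intro y hy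
      have h3 : IntermediateField.adjoin k S ≤
          (IntermediateField.adjoin E (S ∪ Set.range b)).restrictScalars k := by
        rw [IntermediateField.adjoin_le_iff]
        intro z hz
        exact IntermediateField.subset_adjoin E (S ∪ Set.range b) (Or.inl hz)
      exact h3 hy
    rw [← b.sum_repr x]
    refine sum_mem fun i _ => ?_
    rw [Algebra.smul_def]
    refine mul_mem (hmem _ (b.repr x i).2) ?_
    exact IntermediateField.subset_adjoin E (S ∪ Set.range b) (Or.inr ⟨i, rfl⟩)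
  have hfin2 : FiniteDimensional E (IntermediateField.adjoin E (S ∪ Set.range b)) :=
    IntermediateField.finiteDimensional_adjoin fun x _ => (halg0.isAlgebraic x).isIntegral
  rw [htop] at hfin2
  exact Module.Finite.equiv (IntermediateField.topEquiv (F := E) (E := M)).toLinearEquiv

/-- linear independence over `E` and over `E(T)` -/
private theorem b4_lin {k κ κ' L : Type} [Field k] [Field κ] [Algebra k κ] [Field κ'] [Field L]
    [Algebra L κ'] (f : κ →+* κ') (E : IntermediateField k κ) (T : κ')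
    (hT : ∀ G : κ[X], G ≠ 0 → G.eval₂ f T ≠ 0) (E' : IntermediateField L κ')
    (hE' : ∀ z ∈ E', z ∈ b4_rat (f.comp (algebraMap E κ)) T) {ι : Type} [Fintype ι] (x : ι → κ)
    (hx : LinearIndependent E x) : LinearIndependent E' (fun l => f (x l)) := by
  rw [Fintype.linearIndependent_iff] at hx ⊢
  intro g hg
  choose P Q hQ hPQ using fun i => hE' (g i) (g i).2
  let R : ι → E[X] := fun i => P i * ∏ l ∈ Finset.univ.erase i, Q l
  have hR : ∀ i, (R i).eval₂ (f.comp (algebraMap E κ)) T =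
      (g i : κ') * ∏ l, (Q l).eval₂ (f.comp (algebraMap E κ)) T := by
    intro i
    rw [eval₂_mul, hPQ i, ← Finset.mul_prod_erase Finset.univ _ (Finset.mem_univ i),
      eval₂_finsetProd, div_mul_eq_mul_div, eq_div_iff (hQ i)]
    ring
  have hG : (∑ i, (R i).map (algebraMap E κ) * C (x i)) = 0 := by
    by_contra hne
    apply hT _ hne
    rw [eval₂_finsetSum]
    have h1 : ∀ i, ((R i).map (algebraMap E κ) * C (x i)).eval₂ f T =
        ((g i : κ') * f (x i)) * ∏ l, (Q l).eval₂ (f.comp (algebraMap E κ)) T := by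
      intro i
      rw [eval₂_mul, eval₂_map, eval₂_C, hR i]
      ring
    rw [Finset.sum_congr rfl fun i _ => h1 i, ← Finset.sum_mul]
    have h2 : ∑ i, (g i : κ') * f (x i) = 0 := hg
    rw [h2, zero_mul]
  intro i
  have hRi : R i = 0 := by
    ext m
    have h1 := congrArg (fun G => G.coeff m) hG
    simp only [finsetSum_coeff, coeff_mul_C, coeff_map, coeff_zero] at h1
    have h2 := hx (fun l => (R l).coeff m) h1 i
    rw [h2, coeff_zero]
  have h3 := hR i
  rw [hRi, eval₂_zero] at h3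
  have h4 : ∏ l, (Q l).eval₂ (f.comp (algebraMap E κ)) T ≠ 0 :=
    Finset.prod_ne_zero_iff.2 fun l _ => hQ l
  have h5 := (mul_eq_zero.1 h3.symm).resolve_right h4
  exact Subtype.ext h5

private theorem b4_fin {k κ κ' L : Type} [Field k] [Field κ] [Algebra k κ] [Field κ'] [Field L]
    [Algebra L κ'] (f : κ →+* κ') (E : IntermediateField k κ) (T : κ')
    (hT : ∀ G : κ[X], G ≠ 0 → G.eval₂ f T ≠ 0) (E' : IntermediateField L κ')
    (hE' : ∀ z ∈ E', z ∈ b4_rat (f.comp (algebraMap E κ)) T) (hfin : Module.Finite E' κ') :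
    Module.Finite E κ := by
  have h1 : Module.rank E κ ≤ (Module.finrank E' κ' : ℕ) := by
    apply rank_le
    intro s hs
    have h2 := b4_lin f E T hT E' hE' (fun i : s => (i : κ)) hs
    have h3 := h2.fintype_card_le_finrank
    simpa using h3
  rw [← Module.rank_lt_aleph0_iff]
  exact lt_of_le_of_lt h1 (Cardinal.natCast_lt_aleph0)

/-- `T_b` from the relation -/
private theorem b4_solve {k : Type} [Field k] {κ κ' : Type} [Field κ] [Algebra k κ]
    [Field κ'] [Algebra (Lf k) κ'] (j : EHom k (Lf k) κ κ') (ψ : Fin 3 → κ)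
    (hrel : j.f (ψ 0) + algebraMap (Lf k) κ' (tt k 0) * j.f (ψ 1) +
      algebraMap (Lf k) κ' (tt k 1) * j.f (ψ 2) = 0) {a b : Fin 2} (hab : a ≠ b)
    (hb : ψ b.succ ≠ 0) (S : Subfield κ') (hS : ∀ i, j.f (ψ i) ∈ S)
    (ha : algebraMap (Lf k) κ' (tt k a) ∈ S) : algebraMap (Lf k) κ' (tt k b) ∈ S := by
  have hb' : j.f (ψ b.succ) ≠ 0 := (map_ne_zero j.f).2 hb
  have h1 : algebraMap (Lf k) κ' (tt k b) = - (j.f (ψ 0) + algebraMap (Lf k) κ' (tt k a) *
      j.f (ψ a.succ)) / j.f (ψ b.succ) := by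
    rw [eq_div_iff hb']
    fin_cases a <;> fin_cases b
    · exact absurd rfl hab
    · simp only [Fin.zero_eta, Fin.mk_one, Fin.succ_zero_eq_one, Fin.succ_one_eq_two] at *
      linear_combination hrel
    · simp only [Fin.zero_eta, Fin.mk_one, Fin.succ_zero_eq_one, Fin.succ_one_eq_two] at *
      linear_combination hrel
    · exact absurd rfl hab
  rw [h1]
  exact div_mem (neg_mem (add_mem (hS 0) (mul_mem ha (hS _)))) (hS _)

private theorem b4_other {k : Type} [Field k] {κ κ' : Type} [Field κ] [Algebra k κ]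
    [Field κ'] [Algebra (Lf k) κ'] (j : EHom k (Lf k) κ κ') (ψ : Fin 3 → κ)
    (hψ : ∃ i, ψ i ≠ 0)
    (hrel : j.f (ψ 0) + algebraMap (Lf k) κ' (tt k 0) * j.f (ψ 1) +
      algebraMap (Lf k) κ' (tt k 1) * j.f (ψ 2) = 0) (a : Fin 2)
    (ha : ∀ G : κ[X], G ≠ 0 → G.eval₂ j.f (algebraMap (Lf k) κ' (tt k a)) ≠ 0) :
    ∃ b, a ≠ b ∧ ψ b.succ ≠ 0 := by
  have key : ∀ x : κ, j.f (ψ 0) + algebraMap (Lf k) κ' (tt k a) * j.f x = 0 →
      ψ 0 = 0 ∧ x = 0 := by
    intro x hx
    have h1 : (C (ψ 0) + X * C x : κ[X]) = 0 := by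
      by_contra hne
      apply ha _ hne
      rw [eval₂_add, eval₂_mul, eval₂_X, eval₂_C, eval₂_C]
      exact hx
    have h2 := congrArg (fun G => G.coeff 0) h1
    have h3 := congrArg (fun G => G.coeff 1) h1
    simp at h2 h3
    exact ⟨h2, h3⟩
  fin_cases a
  · refine ⟨1, by decide, fun h => ?_⟩
    have h' : ψ 2 = 0 := h
    rw [h', map_zero, mul_zero, add_zero] at hrel
    obtain ⟨h1, h2⟩ := key _ hrel
    obtain ⟨i, hi⟩ := hψ
    fin_cases i
    · exact hi h1
    · exact hi h2
    · exact hi h'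
  · refine ⟨0, by decide, fun h => ?_⟩
    have h' : ψ 1 = 0 := h
    rw [h', map_zero, mul_zero, add_zero] at hrel
    obtain ⟨h1, h2⟩ := key _ hrel
    obtain ⟨i, hi⟩ := hψ
    fin_cases i
    · exact hi h1
    · exact hi h'
    · exact hi h2

private theorem b4_third {a b c : Fin 2} (h : a ≠ b) (h' : ¬ c = a) : c = b := by
  fin_cases a <;> fin_cases b <;> fin_cases c <;> first | rfl | exact absurd rfl h | exact absurd rfl h'

private theorem b4_core {k : Type} [Field k] {n : ℕ} {F : Fin n → k[X]} {κ κ' : Type} [Field κ]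
    [Algebra k κ] [Field κ'] [Algebra (Lf k) κ'] (j : EHom k (Lf k) κ κ') (φ : Mor F)
    (q : Pnt F κ) {d : ℕ}
    (hrel : j.f (φ.φ κ q 0) + algebraMap (Lf k) κ' (tt k 0) * j.f (φ.φ κ q 1) +
      algebraMap (Lf k) κ' (tt k 1) * j.f (φ.φ κ q 2) = 0)
    (hw : FunF (Lf k) d κ') (hκ : Algebra.trdeg k κ < (d + 2 : ℕ))
    (hfin : Module.finrank (fld (lftP j q)) κ' ≠ 0) :
    FunF k (d + 1) κ ∧ ∃ a b : Fin 2, a ≠ b ∧ φ.φ κ q b.succ ≠ 0 ∧
      ∀ G : κ[X], G ≠ 0 → G.eval₂ j.f (algebraMap (Lf k) κ' (tt k a)) ≠ 0 := by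
  let _ : Algebra κ κ' := j.f.toAlgebra
  let _ : Algebra k κ' := ((algebraMap (Lf k) κ').comp (algebraMap k (Lf k))).toAlgebra
  have _i1 : IsScalarTower k (Lf k) κ' := IsScalarTower.of_algebraMap_eq fun _ => rfl
  have _i2 : IsScalarTower k κ κ' := IsScalarTower.of_algebraMap_eq fun c => (j.comm c).symm
  have hT : Algebra.trdeg k κ' = (d + 2 : ℕ) := b4_trdeg_two hw
  have hadd : Algebra.trdeg k κ + Algebra.trdeg κ κ' = Algebra.trdeg k κ' :=
    trdeg_add_eq k κ (A := κ')
  have hfin' : Module.Finite (fld (lftP j q)) κ' :=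
    Module.finite_of_finrank_pos (Nat.pos_of_ne_zero hfin)
  have hint : ∀ z : κ', IsIntegral (fld (lftP j q)) z := fun z => IsIntegral.of_finite _ z
  have hco : ∀ z ∈ Set.range (co (lftP j q)), ∃ e : κ, e ∈ fld q ∧ z = j.f e := by
    rintro _ ⟨p, rfl⟩
    exact ⟨co q p, IntermediateField.subset_adjoin _ _ ⟨p, rfl⟩, co_lftP j q p⟩
  -- one of the variables is transcendental
  have hex : ∃ a : Fin 2, ∀ G : κ[X], G ≠ 0 →
      G.eval₂ j.f (algebraMap (Lf k) κ' (tt k a)) ≠ 0 := by
    by_contra hcon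
    push Not at hcon
    have halg : ∀ a, algebraMap (Lf k) κ' (tt k a) ∈ algebraicClosure κ κ' := by
      intro a
      rw [mem_algebraicClosure_iff]
      obtain ⟨G, hG, h⟩ := hcon a
      exact ⟨G, hG, h⟩
    have hmem : ∀ z ∈ fld (lftP j q), z ∈ algebraicClosure κ κ' := by
      intro z hz
      refine b4_adj_mem (algebraicClosure κ κ').toSubfield (fun z => ?_) _ (fun z hz => ?_) z hz
      · refine b4_Lf_mem _ (fun c => ?_) (fun a => halg a) z
        have h1 : algebraMap (Lf k) κ' (algebraMap k (Lf k) c) = algebraMap κ κ' (algebraMap k κ c) :=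
          (j.comm c).symm
        rw [h1]
        exact (algebraicClosure κ κ').algebraMap_mem _
      · obtain ⟨e, _, rfl⟩ := hco z hz
        exact (algebraicClosure κ κ').algebraMap_mem e
    have hall : Algebra.IsAlgebraic κ κ' := by
      refine ⟨fun z => ?_⟩
      have h1 : IsIntegral (algebraicClosure κ κ') z := b4_int _ _ hmem z (hint z)
      have h2 : IsIntegral κ z := isIntegral_trans z h1
      exact h2.isAlgebraic
    rw [trdeg_eq_zero (R := κ) (A := κ'), add_zero, hT] at hadd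
    exact absurd hκ (by rw [hadd]; exact lt_irrefl _)
  obtain ⟨a, ha⟩ := hex
  obtain ⟨b, hab, hb⟩ := b4_other j (φ.φ κ q) (φ.ne κ q) hrel a ha
  refine ⟨?_, a, b, hab, hb, ha⟩
  -- the field of the coordinates is contained in any field which contains `fld q` and `T_a`
  have hsub : ∀ S : Subfield κ', (∀ e ∈ fld q, j.f e ∈ S) →
      algebraMap (Lf k) κ' (tt k a) ∈ S → ∀ z ∈ fld (lftP j q), z ∈ S := by
    intro S hS1 hS2 z hz
    refine b4_adj_mem S (fun z => ?_) _ (fun z hz => ?_) z hz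
    · refine b4_Lf_mem S (fun c => ?_) (fun a' => ?_) z
      · rw [← j.comm c]
        exact hS1 _ ((fld q).algebraMap_mem c)
      · by_cases haa : a' = a
        · rw [haa]; exact hS2
        · have hbb : a' = b := b4_third hab haa
          rw [hbb]
          exact b4_solve j (φ.φ κ q) hrel hab hb S (fun i => hS1 _ (mem_fld φ q i)) hS2
    · obtain ⟨e, he, rfl⟩ := hco z hz
      exact hS1 e he
  -- the transcendence degree
  have hle : Algebra.trdeg κ κ' ≤ 1 := by
    have h1 := b4_trdeg_le (E := κ) ({algebraMap (Lf k) κ' (tt k a)} : Set κ') (fun z => by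
      refine b4_int (fld (lftP j q)) _ (fun z hz => ?_) z (hint z)
      exact hsub (IntermediateField.adjoin κ
        ({algebraMap (Lf k) κ' (tt k a)} : Set κ')).toSubfield
        (fun e _ => (IntermediateField.adjoin κ
          ({algebraMap (Lf k) κ' (tt k a)} : Set κ')).algebraMap_mem e)
        (IntermediateField.subset_adjoin κ _ rfl) z hz)
    simpa using h1
  have htr : Algebra.trdeg k κ = (d + 1 : ℕ) := by
    obtain ⟨m, hm⟩ := Cardinal.lt_aleph0.1 (hκ.trans Cardinal.natCast_lt_aleph0)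
    rw [hT, hm] at hadd
    rw [hm] at hκ ⊢
    have h1 : m < d + 2 := by exact_mod_cast hκ
    have h2 : ((d + 2 : ℕ) : Cardinal) ≤ ((m + 1 : ℕ) : Cardinal) := by
      rw [← hadd]
      push_cast
      exact add_le_add le_rfl hle
    have h3 : d + 2 ≤ m + 1 := by exact_mod_cast h2
    have h4 : m = d + 1 := by omega
    rw [h4]
  have hfinE : Module.Finite (fld q) κ := by
    refine b4_fin j.f (fld q) (algebraMap (Lf k) κ' (tt k a)) ha (fld (lftP j q)) ?_ hfin'
    intro z hz
    refine hsub (b4_rat (j.f.comp (algebraMap (fld q) κ)) (algebraMap (Lf k) κ' (tt k a))) ?_ ?_ z hz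
    · intro e he
      exact b4_rat_C (j.f.comp (algebraMap (fld q) κ)) _ ⟨e, he⟩
    · exact b4_rat_X _ _
  exact b4_funF htr (Set.range (co q)) (Set.finite_range _) hfinE

variable {k : Type} [Field k] {n : ℕ} {F : Fin n → k[X]} {K K' : Type} [Field K] [Algebra k K]
  [Field K'] [Algebra (Lf k) K'] {i : EHom k (Lf k) K K'}

theorem he_places (φ : Mor F) {d : ℕ} (hK : FunF k (d + 2) K) (u : Pnt F K)
    (hi : HE i (φ.φ K u)) (w : Place (Lf k) K') (hw : FunF (Lf k) d (RF w)) (x₀ : K)
    (h : w.ord (i.f x₀) ≠ 0) (q' : Pnt (ext (Lf k) F) (RF w))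
    (hq' : ∀ a, SpR w (lftP i u a) (q' a)) (hc : cyc q' ≠ 0) :
    ∃ (v : Place k K) (q : Pnt F (RF v)) (j : EHom k (Lf k) (RF v) (RF w)),
      (∀ x, w.ord (i.f x) = v.ord x) ∧ FunF k (d + 1) (RF v) ∧ (∀ a, SpR v (u a) (q a)) ∧
      (∀ x c, Red v x c → Red w (i.f x) (j.f c)) ∧ HE j (φ.φ (RF v) q) ∧ q' = lftP j q := by
  obtain ⟨v, e, he, hv⟩ := exists_restr i w x₀ h
  choose q hq using fun a => SpR_exists v (u a)
  obtain ⟨j, hj⟩ := exists_resHom i v w e he hv
  have hqq : q' = lftP j q := by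
    funext a
    exact SpR_unique (hq' a) (SpR_lft i v w e he hv j hj (u a) (q a) (hq a))
  subst hqq
  obtain ⟨l, hl⟩ := φ.sp K v u q hq
  -- the residues of the variables
  have hTred : ∀ a, Red w (algebraMap (Lf k) K' (tt k a)) (algebraMap (Lf k) (RF w) (tt k a)) :=
    fun a => LibCHd.red_const w (tt k a)
  have hrel : j.f (φ.φ (RF v) q 0) + algebraMap (Lf k) (RF w) (tt k 0) * j.f (φ.φ (RF v) q 1) +
      algebraMap (Lf k) (RF w) (tt k 1) * j.f (φ.φ (RF v) q 2) = 0 := by
    have h1 := ((hj _ _ (hl 0)).add ((hTred 0).mul (hj _ _ (hl 1)))).add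
      ((hTred 1).mul (hj _ _ (hl 2)))
    have h2 : i.f (l * φ.φ K u 0) + algebraMap (Lf k) K' (tt k 0) * i.f (l * φ.φ K u 1) +
        algebraMap (Lf k) K' (tt k 1) * i.f (l * φ.φ K u 2) = 0 := by
      rw [map_mul, map_mul, map_mul]
      linear_combination (i.f l) * hi.rel
    rw [h2] at h1
    exact h1.unique (LibCHd.red_zero w)
  -- the transcendence degree of the residue field
  have hκ : Algebra.trdeg k (RF v) < (d + 2 : ℕ) := by
    have hnt : ∃ m, v.ord ((AlgHom.id k K) m) ≠ 0 := by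
      obtain ⟨t, ht⟩ := v.exists_uniformizer
      exact ⟨t, by rw [AlgHom.id_apply, ht]; exact one_ne_zero⟩
    have h1 := LibCHd.trdeg_resField (d := d + 2) (le_of_eq hK.trdeg) (LibCHd.isRes_resF v)
      (AlgHom.id k K) hnt
    have h2 : LibCHd.resField (LibCHd.isRes_resF v) (AlgHom.id k K) = ⊤ := by
      rw [eq_top_iff]
      intro c _
      obtain ⟨f, hf⟩ := LibCHd.exists_rep c
      obtain ⟨h3, h4⟩ := LibCHd.red_iff.1 hf
      exact ⟨f, h3, h4⟩
    rw [h2] at h1
    rwa [(IntermediateField.topEquiv (F := k) (E := RF v)).trdeg_eq] at h1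
  have hfin : Module.finrank (fld (lftP j q)) (RF w) ≠ 0 := (cyc_ne_zero_iff _).1 hc
  obtain ⟨hF, a, b, hab, hb, ha⟩ := b4_core j φ q hrel hw hκ hfin
  -- `K'` is generated by `T_a`
  have hub : φ.φ K u b.succ ≠ 0 := by
    intro h0
    have h1 := hl b.succ
    rw [h0, mul_zero] at h1
    exact hb (h1.unique (LibCHd.red_zero v))
  have hgen : ∀ z : K', ∃ P Q : K[X], Q ≠ 0 ∧
      z = P.eval₂ i.f (algebraMap (Lf k) K' (tt k a)) / Q.eval₂ i.f (algebraMap (Lf k) K' (tt k a)) := by
    intro z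
    have h1 : z ∈ b4_rat i.f (algebraMap (Lf k) K' (tt k a)) := by
      have h2 : z ∈ IntermediateField.adjoin (Lf k) (Set.range i.f) := by
        rw [hi.gen]; trivial
      refine b4_adj_mem _ (fun z => ?_) _ (fun z hz => ?_) z h2
      · refine b4_Lf_mem _ (fun c => ?_) (fun a' => ?_) z
        · rw [← i.comm c]
          exact b4_rat_C _ _ _
        · by_cases haa : a' = a
          · rw [haa]; exact b4_rat_X _ _
          · have hbb : a' = b := b4_third hab haa
            rw [hbb]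
            exact b4_solve i (φ.φ K u) hi.rel hab hub _ (fun i' => b4_rat_C _ _ _) (b4_rat_X _ _)
      · obtain ⟨x, rfl⟩ := hz
        exact b4_rat_C _ _ _
    obtain ⟨P, Q, hQ, hz⟩ := h1
    refine ⟨P, Q, ?_, hz⟩
    rintro rfl
    exact hQ (by simp)
  obtain ⟨he1, _, hgen'⟩ := gauss_char i (algebraMap (Lf k) K' (tt k a)) hgen v w e he hv j hj
    (algebraMap (Lf k) (RF w) (tt k a)) (hTred a) ha
  subst he1
  refine ⟨v, q, j, fun x => by rw [hv x, one_mul], hF, hq, hj, ⟨hrel, ?_, a, ha⟩, rfl⟩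
  rw [eq_top_iff]
  intro z _
  obtain ⟨P, Q, _, hz⟩ := hgen' z
  have hpol : ∀ P : (RF v)[X], P.eval₂ j.f (algebraMap (Lf k) (RF w) (tt k a)) ∈
      IntermediateField.adjoin (Lf k) (Set.range j.f) := by
    intro P
    rw [eval₂_eq_sum_range]
    refine sum_mem fun m _ => mul_mem ?_ (pow_mem ?_ m)
    · exact IntermediateField.subset_adjoin _ _ ⟨_, rfl⟩
    · exact (IntermediateField.adjoin (Lf k) (Set.range j.f)).algebraMap_mem _
  rw [hz]
  exact div_mem (hpol P) (hpol Q)

end Pool.Agent.LibHL77
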