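import Pool.Agent.LibHL77.E2
import Pool.Agent.LibHL77.B2
import Pool.Agent.LibHL77.B4

/-!
[HL77 B7] hyperplane section preserves rational equivalence. Proof. Let `K, u, g, S, C` be the data of `IsDiv F (d + 1) c`
(`FunF k (d + 2) K`). If the point `φ(u)` is constant (`¬ NC`) then so are the `φ(q)` for the specialisations `q` (`φ.sp`:
the quotients of the residues are residues of algebraic elements, which are algebraic), and `Γ c = 0`. Otherwise let
`K', i` be the hyperplane section (`exists_he`, `he_funF`: `FunF (Lf k) (d + 1) K'`). `IsDiv (ext (Lf k) F) d (Γ c)` with `K'`,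
`lftP i u`, `i.f g`, `S' =` the places `w_v` (`gauss_he`) over the `v ∈ S` with `NC k (φ(q_v))` (`v ↦ w_v` is injective),
`C' w_v = Γ (C v) = cyc (lftP j q_v)`, `SpR_lft` with `e = 1`, `he_funF` for the residue field. Let `w` be another place with
`w.ord (i g) ≠ 0`, `FunF (Lf k) d (RF w)`, `q'` a specialisation with `cyc q' ≠ 0`: `he_places` gives `v` with
`v.ord g ≠ 0`; `v ∉ S` gives `cyc q = 0`, so `cyc q' = Γ (cyc q) = 0`; for `v ∈ S` the point `φ(q)` is not constant (`he_nc`) and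
`w = w_v` by `gauss_he_unique` (`q = q_v` by `SpR_unique`). `AddSubgroup.closure_induction`.
-/

open scoped Classical
open Polynomial

namespace Pool.Agent.LibHL77

open Pool.Agent.LibBH2
open Pool.Agent.LibCHd (VR RF Red FunF)
open Pool.Agent.LibHyp34 (Hyp Pt Pic jP Sp KC DCf gn)
open Pool.Agent.LibHD77

variable {k : Type} [Field k] {n : ℕ} {F : Fin n → k[X]}

private theorem B7_nc (φ : Mor F) {K : Type} [Field K] [Algebra k K] (v : Place k K) (u : Pnt F K)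
    (q : Pnt F (RF v)) (hq : ∀ a, SpR v (u a) (q a)) (h : NC k (φ.φ (RF v) q)) :
    NC k (φ.φ K u) := by
  obtain ⟨a, b, hb, hab⟩ := h
  obtain ⟨l, hl⟩ := φ.sp K v u q hq
  have hlb := hl b
  have h1 : l * φ.φ K u b ≠ 0 := hlb.ne_zero hb
  have hub : φ.φ K u b ≠ 0 := right_ne_zero_of_mul h1
  have hl0 : l ≠ 0 := left_ne_zero_of_mul h1
  refine ⟨a, b, hub, fun halg => hab ?_⟩
  obtain ⟨G, hG, hG0⟩ := halg
  refine ⟨G, hG, ?_⟩
  have h2 : Red v (φ.φ K u a / φ.φ K u b) (φ.φ (RF v) q a / φ.φ (RF v) q b) := by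
    have h3 := (hl a).div hlb hb
    rwa [mul_div_mul_left _ _ hl0] at h3
  have h3 := red_aeval h2 G
  rw [hG0] at h3
  exact h3.unique (LibCHd.red_zero v)

private theorem B7_div (φ : Mor F) {d : ℕ} {Γ : Cyc k n →+ Cyc (Lf k) n} (hΓ : IsG φ d Γ)
    {K : Type} [Field K] [Algebra k K] (u : Pnt F K) (g : K) (S : Finset (Place k K))
    (C : Place k K → Cyc k n) (hK : FunF k (d + 1 + 1) K) (hg : g ≠ 0)
    (hS : ∀ v ∈ S, FunF k (d + 1) (RF v) ∧ ∃ q : Pnt F (RF v), (∀ a, SpR v (u a) (q a)) ∧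
      C v = cyc q)
    (hS' : ∀ v, v ∉ S → v.ord g ≠ 0 → FunF k (d + 1) (RF v) → ∀ q : Pnt F (RF v),
      (∀ a, SpR v (u a) (q a)) → cyc q = 0) :
    Γ (∑ v ∈ S, v.ord g • C v) ∈ RatEq (ext (Lf k) F) d := by
  choose hF q hq hC using hS
  have hz : ∀ v (hv : v ∈ S), ¬ NC k (φ.φ (RF v) (q v hv)) → Γ (C v) = 0 := fun v hv hn => by
    rw [hC v hv]
    exact (hΓ (RF v) (q v hv) (hF v hv)).2 hn
  by_cases hnc : NC k (φ.φ K u)
  swap
  · rw [map_sum, Finset.sum_eq_zero]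
    · exact zero_mem _
    · intro v hv
      rw [map_zsmul, hz v hv (fun h => hnc (B7_nc φ v u _ (hq v hv) h)), smul_zero]
  obtain ⟨K', _, _, i, hi⟩ := exists_he K (φ.φ K u) hnc
  have hw : ∀ t : {v : {v // v ∈ S} // NC k (φ.φ (RF v.1) (q v.1 v.2))},
      ∃ (w : Place (Lf k) K') (j : EHom k (Lf k) (RF t.1.1) (RF w)),
        (∀ x, w.ord (i.f x) = t.1.1.ord x) ∧
        (∀ x c, Red t.1.1 x c → Red w (i.f x) (j.f c)) ∧
        HE j (φ.φ (RF t.1.1) (q t.1.1 t.1.2)) := fun t =>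
    gauss_he φ u hi t.1.1 _ (hq _ t.1.2) t.2
  choose w j hw1 hw2 hw3 using hw
  have hinj : Function.Injective w := by
    intro t t' htt
    apply Subtype.ext
    apply Subtype.ext
    apply Place.ext'
    intro x
    rw [← hw1 t x, ← hw1 t' x, htt]
  have hΓC : ∀ t : {v : {v // v ∈ S} // NC k (φ.φ (RF v.1) (q v.1 v.2))},
      Γ (C t.1.1) = cyc (lftP (j t) (q t.1.1 t.1.2)) := fun t => by
    rw [hC t.1.1 t.1.2]
    exact (hΓ _ _ (hF _ t.1.2)).1 _ (j t) (hw3 t)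
  have hsum : Γ (∑ v ∈ S, v.ord g • C v) =
      ∑ t : {v : {v // v ∈ S} // NC k (φ.φ (RF v.1) (q v.1 v.2))},
        t.1.1.ord g • Γ (C t.1.1) := by
    rw [map_sum, ← Finset.sum_coe_sort S]
    symm
    rw [← Finset.sum_subtype (p := fun v : {v // v ∈ S} => NC k (φ.φ (RF v.1) (q v.1 v.2)))
      (Finset.univ.filter fun v : {v // v ∈ S} => NC k (φ.φ (RF v.1) (q v.1 v.2)))
      (fun x => by simp) (fun v => v.1.ord g • Γ (C v.1)), Finset.sum_filter]
    refine Finset.sum_congr rfl fun v _ => ?_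
    by_cases h : NC k (φ.φ (RF v.1) (q v.1 v.2))
    · rw [if_pos h, map_zsmul]
    · rw [if_neg h, map_zsmul, hz v.1 v.2 h, smul_zero]
  apply AddSubgroup.subset_closure
  refine ⟨K', inferInstance, inferInstance, lftP i u, i.f g, Finset.univ.image w,
    Function.extend w (fun t => Γ (C t.1.1)) 0, he_funF hi (φ.ne K u) hK, ?_, ?_, ?_, ?_⟩
  · exact (map_ne_zero i.f).2 hg
  · intro w' hw'
    obtain ⟨t, _, rfl⟩ := Finset.mem_image.1 hw'
    refine ⟨he_funF (hw3 t) (φ.ne _ _) (hF _ t.1.2), lftP (j t) (q t.1.1 t.1.2), fun a =>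
      SpR_lft i t.1.1 (w t) 1 one_pos (fun x => by rw [hw1, one_mul]) (j t) (hw2 t) _ _
        (hq _ t.1.2 a), ?_⟩
    rw [hinj.extend_apply, hΓC]
  · intro w' hw' hord hF' q' hq'
    by_contra hne
    obtain ⟨v, q0, j0, h1, h2, h3, h4, h5, h6⟩ := he_places φ hK u hi w' hF' g hord q' hq' hne
    have hordv : v.ord g ≠ 0 := by
      rw [← h1]
      exact hord
    by_cases hv : v ∈ S
    · have e1 : q0 = q v hv := funext fun a => SpR_unique (h3 a) (hq v hv a)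
      subst e1
      have hn : NC k (φ.φ (RF v) (q v hv)) := he_nc h5 (φ.ne _ _)
      apply hw'
      rw [Finset.mem_image]
      refine ⟨⟨⟨v, hv⟩, hn⟩, Finset.mem_univ _, ?_⟩
      exact gauss_he_unique φ u hi v (q v hv) (hq v hv) _ _ (j ⟨⟨v, hv⟩, hn⟩) j0
        (hw1 ⟨⟨v, hv⟩, hn⟩) (hw2 ⟨⟨v, hv⟩, hn⟩) (hw3 ⟨⟨v, hv⟩, hn⟩) h1 h4 h5
    · have h7 := hS' v hv hordv h2 q0 h3
      apply hne
      rw [h6, ← (hΓ (RF v) q0 h2).1 _ j0 h5, h7, map_zero]
  · rw [hsum, Finset.sum_image (fun a _ b _ h => hinj h)]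
    refine Finset.sum_congr rfl fun t _ => ?_
    rw [hinj.extend_apply, hw1]

theorem G_ratEq (φ : Mor F) {d : ℕ} {Γ : Cyc k n →+ Cyc (Lf k) n} (hΓ : IsG φ d Γ) (c : Cyc k n)
    (hc : c ∈ RatEq F (d + 1)) : Γ c ∈ RatEq (ext (Lf k) F) d := by
  refine AddSubgroup.closure_induction (p := fun c _ => Γ c ∈ RatEq (ext (Lf k) F) d)
    ?_ ?_ ?_ ?_ hc
  · rintro c ⟨K, _, _, u, g, S, C, hK, hg, hS, hS', rfl⟩
    exact B7_div φ hΓ u g S C hK hg hS hS'
  · rw [map_zero]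
    exact zero_mem _
  · intro x y _ _ hx hy
    rw [map_add]
    exact add_mem hx hy
  · intro x _ hx
    rw [map_neg]
    exact neg_mem hx

end Pool.Agent.LibHL77
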