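import Pool.Agent.LibHL77.M1

/-!
[HL77 M3] the second morphism and specialisation, one or two points specialising to infinity. Proofs. Let `g = gn f`,
`deg f = 2 g + 1`, so `2 ord y = (2 g + 1) ord x` if `x` has a pole. `plane_sp_one`: `p = .inf`: `l = 1`; `p = (x₁, y₁)` with a pole, `q = (x₂, y₂)` regular
(`x₁ ≠ x₂`): `l = 1 / y₁`: `(x₁ - x₂) / y₁ → 0`, `(y₁ + y₂) / y₁ → 1`, `x₂ ^ g + y₂ x₁ ^ g / y₁ → x₂ ^ g`. The other order by
symmetry. `plane_sp_two`: `(.inf, .inf)`: `l = 1`; `(.inf, (x₂, y₂))`, `x₂` with a pole: `l = 1 / x₂ ^ g`; two affine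
points with poles, case `x₁ = x₂ = x`, `y₁ = - y₂ = y`: `l = 1 / x ^ (3 g)`: `f'(x) x ^ g - 2 g x ^ (g - 1) f(x)` is a
polynomial with leading term `x ^ (3 g)` and `ord (2 y) = (2g+1)/2 ord x > 3 g ord x` (`g ≥ 1`). Otherwise put `z_i = 1 / x_i`, `s_i = x_i ^ g / y_i` (zeros); `P(Z) = Z ^ (2g+1) f(1/Z)` (the reverse of
`f`, `P(0) = 1`), so `s_i ^ 2 P(z_i) = z_i`. Multiplied by `s_1 s_2 / (x_1 ^ g x_2 ^ g)` the coordinates are
`(z₂ - z₁) (z₁ z₂) ^ (g - 1) s₁ s₂`, `z₂ ^ g s₂ + z₁ ^ g s₁`, `s₁ + s₂`. From `z₂ - z₁ = s₂ ^ 2 P(z₂) - s₁ ^ 2 P(z₁)`: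
`(z₂ - z₁) (1 - s₁ ^ 2 P₂(z₁, z₂)) = (s₂ - s₁) (s₂ + s₁) P(z₂)`, `P₂ = (P(z₂) - P(z₁)) / (z₂ - z₁)` a polynomial. If `s₁ + s₂ = 0`
then `z₁ = z₂`, the excluded case. So divide by `s₁ + s₂`: `(z₂ - z₁) / (s₁ + s₂) = (s₂ - s₁) U` with `U` regular, and
`z₂ ^ g s₂ + z₁ ^ g s₁ = z₁ ^ g (s₁ + s₂) + s₂ (z₂ ^ g - z₁ ^ g)`: the residues are `0, 0, 1`.
-/

open scoped Classical
open Polynomial

namespace Pool.Agent.LibHL77

open Pool.Agent.LibBH2
open Pool.Agent.LibCHd (VR RF Red FunF)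
open Pool.Agent.LibHyp34 (Hyp Pt Pic jP Sp KC DCf gn)
open Pool.Agent.LibHD77

variable {k : Type} [Field k] [CharZero k]

section Aux

variable {K : Type} [Field K] [Algebra k K] {v : Place k K}

omit [CharZero k] in
private theorem m3_rev (G : k[X]) (N : ℕ) (hN : G.natDegree ≤ N) {x : K} (hx : x ≠ 0) :
    aeval x G = aeval x⁻¹ (reflect N G) * x ^ N := by
  letI := invertibleOfNonzero hx
  have h := eval₂_reflect_mul_pow (algebraMap k K) x N G hN
  rw [invOf_eq_inv] at h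
  rw [aeval_def, aeval_def]
  exact h.symm

omit [CharZero k] in
private theorem m3_red {z : K} (hz : v.Zer z) (G : k[X]) (N : ℕ) :
    Red v (aeval z (reflect N G)) (algebraMap k (RF v) (G.coeff N)) := by
  have h := red_aeval (LibCHd.red_zero_iff.2 hz) (reflect N G)
  rwa [← coeff_zero_eq_aeval_zero', coeff_reflect, revAt_le (Nat.zero_le N), Nat.sub_zero] at h

omit [CharZero k] in
private theorem m3_lip (G : k[X]) {z₁ z₂ : K} (h₁ : v.Reg z₁) (h₂ : v.Reg z₂) :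
    ∃ c : K, v.Reg c ∧ aeval z₂ G - aeval z₁ G = c * (z₂ - z₁) := by
  induction G using Polynomial.induction_on' with
  | add p q hp hq =>
    obtain ⟨a, ha, ha'⟩ := hp
    obtain ⟨b, hb, hb'⟩ := hq
    refine ⟨a + b, ha.add hb, ?_⟩
    rw [map_add, map_add, add_mul, ← ha', ← hb']
    ring
  | monomial n c =>
    obtain ⟨d, hd⟩ := sub_dvd_pow_sub_pow (⟨z₂, h₂⟩ : VR v) ⟨z₁, h₁⟩ n
    refine ⟨algebraMap k K c * d.1, (v.reg_const c).mul d.2, ?_⟩
    have h3 : z₂ ^ n - z₁ ^ n = (z₂ - z₁) * d.1 := congrArg Subtype.val hd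
    rw [aeval_monomial, aeval_monomial, ← mul_sub, h3]
    ring

omit [CharZero k] in
private theorem m3_pow {z₁ z₂ : K} (h₁ : v.Reg z₁) (h₂ : v.Reg z₂) (n : ℕ) :
    ∃ c : K, v.Reg c ∧ z₂ ^ n - z₁ ^ n = c * (z₂ - z₁) := by
  obtain ⟨d, hd⟩ := sub_dvd_pow_sub_pow (⟨z₂, h₂⟩ : VR v) ⟨z₁, h₁⟩ n
  have h3 : z₂ ^ n - z₁ ^ n = (z₂ - z₁) * d.1 := congrArg Subtype.val hd
  exact ⟨d.1, d.2, by rw [h3]; ring⟩

omit [CharZero k] in
private theorem m3_zpow {z : K} (h : v.Zer z) {n : ℕ} (hn : 1 ≤ n) : v.Zer (z ^ n) := by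
  obtain ⟨m, rfl⟩ := Nat.exists_eq_add_of_le' hn
  rw [pow_succ]
  exact Place.Zer.reg_mul (h.reg.pow m) h

omit [CharZero k] in
/-- local coordinates at infinity -/
private theorem m3_pole (f : k[X]) [Hyp f] {x y : K} (h : y ^ 2 = aeval x f)
    (hx : v.ord x < 0) : ∃ z s : K, z ≠ 0 ∧ s ≠ 0 ∧ v.Zer z ∧ v.Zer s ∧ x = z⁻¹ ∧
      y = (s * z ^ gn f)⁻¹ ∧ s ^ 2 * aeval z (reflect (2 * gn f + 1) f) = z := by
  have hx0 : x ≠ 0 := by
    rintro rfl
    rw [v.ord_zero] at hx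
    exact lt_irrefl _ hx
  have hdeg : f.natDegree = 2 * gn f + 1 := Hyp.deg
  have hz : v.Zer x⁻¹ := Or.inr (by rw [v.ord_inv]; omega)
  have hrev := m3_rev f (2 * gn f + 1) hdeg.le hx0
  obtain ⟨P, hP⟩ : ∃ P, P = aeval x⁻¹ (reflect (2 * gn f + 1) f) := ⟨_, rfl⟩
  rw [← hP] at hrev
  have hredP : Red v P 1 := by
    have h1 := m3_red (v := v) hz f (2 * gn f + 1)
    rw [← hP, ← hdeg, coeff_natDegree, (Hyp.monic (f := f)).leadingCoeff, map_one] at h1
    exact h1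
  have hP0 : P ≠ 0 := hredP.ne_zero one_ne_zero
  have hPo : v.ord P = 0 := hredP.ord_eq_zero one_ne_zero
  have hy0 : y ≠ 0 := by
    rintro rfl
    rw [hrev] at h
    have : P * x ^ (2 * gn f + 1) ≠ 0 := mul_ne_zero hP0 (pow_ne_zero _ hx0)
    apply this
    rw [← h]
    ring
  have hxg : x ^ gn f ≠ 0 := pow_ne_zero _ hx0
  have hs0 : x ^ gn f / y ≠ 0 := div_ne_zero hxg hy0
  have hsz : (x ^ gn f / y) ^ 2 * P = x⁻¹ := by
    rw [hrev] at h
    have h2 : (x ^ gn f) ^ 2 * P * x = y ^ 2 := by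
      rw [h]
      ring
    field_simp
    linear_combination h2
  refine ⟨x⁻¹, x ^ gn f / y, inv_ne_zero hx0, hs0, hz, ?_, (inv_inv x).symm, ?_, ?_⟩
  · right
    have h1 := congrArg v.ord hsz
    rw [v.ord_mul _ _ (pow_ne_zero _ hs0) hP0, v.ord_pow, hPo, v.ord_inv] at h1
    push_cast at h1
    omega
  · rw [inv_pow]
    field_simp
  · rw [← hP]
    exact hsz

end Aux

theorem plane_sp_one (f : k[X]) [Hyp f] {K : Type} [Field K] [Algebra k K] (v : Place k K)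
    (p q : MPt f K) (p' q' : MPt f (RF v)) (hp : SpR v p p') (hq : SpR v q q')
    (h : (p' = .inf ∧ q' ≠ .inf) ∨ (p' ≠ .inf ∧ q' = .inf)) :
    ∃ l : K, ∀ i, Red v (l * plane f (gn f) (opt p) (opt q) i)
      (plane f (gn f) (opt p') (opt q') i) := by
  have hg : 1 ≤ gn f := Hyp.one_le
  obtain ⟨g, hgg⟩ : ∃ g, g = gn f := ⟨_, rfl⟩
  rw [← hgg] at hg ⊢
  rcases h with ⟨rfl, hq'⟩ | ⟨hp', rfl⟩
  · match q, q', hq, hq' with
    | .inf, q', hq, hq' => exact absurd hq hq'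
    | .aff x₂ y₂ h₂, .inf, hq, hq' => exact absurd rfl hq'
    | .aff x₂ y₂ h₂, .aff x₂' y₂' h₂', hq, hq' =>
      obtain ⟨hx₂, hy₂⟩ := hq
      match p, hp with
      | .inf, _ =>
        refine ⟨1, fun i => ?_⟩
        rw [one_mul]
        fin_cases i
        · exact LibCHd.red_zero v
        · exact LibCHd.red_one v
        · exact hx₂.pow g
      | .aff x₁ y₁ h₁, hp =>
        have hx₁ : v.ord x₁ < 0 := hp
        rw [eval_map_algebraMap] at h₁
        obtain ⟨z, s, hz0, hs0, hz, hs, hxz, hyz, hsz⟩ := m3_pole f h₁ hx₁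
        rw [← hgg] at hyz hsz
        have hne : x₁ ≠ x₂ := by
          rintro rfl
          exact not_reg hx₁ hx₂.reg
        have hpl : plane f g (opt (.aff x₁ y₁ (by rw [eval_map_algebraMap]; exact h₁) : MPt f K))
            (opt (.aff x₂ y₂ h₂ : MPt f K)) = ![x₁ - x₂, y₁ + y₂, y₁ * x₂ ^ g + y₂ * x₁ ^ g] := by
          show (if x₁ = x₂ ∧ y₁ = - y₂ then _ else _) = _
          rw [if_neg fun hh => hne hh.1]
        rw [hpl]
        have hzg : v.Zer (s * z ^ g) := hs.mul_reg (hz.reg.pow g)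
        refine ⟨s * z ^ g, fun i => ?_⟩
        fin_cases i
        · show Red v (s * z ^ g * (x₁ - x₂)) 0
          rw [LibCHd.red_zero_iff]
          have e : s * z ^ g * (x₁ - x₂) = s * z ^ (g - 1) - s * z ^ g * x₂ := by
            obtain ⟨m, rfl⟩ := Nat.exists_eq_add_of_le' hg
            rw [hxz, Nat.add_sub_cancel]
            field_simp
            ring
          rw [e]
          exact (hs.mul_reg (hz.reg.pow _)).sub (hzg.mul_reg hx₂.reg)
        · show Red v (s * z ^ g * (y₁ + y₂)) 1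
          have e : s * z ^ g * (y₁ + y₂) = 1 + s * z ^ g * y₂ := by
            rw [hyz]
            field_simp
          rw [e]
          have := (LibCHd.red_one v).add (LibCHd.red_zero_iff.2 (hzg.mul_reg hy₂.reg))
          rwa [add_zero] at this
        · show Red v (s * z ^ g * (y₁ * x₂ ^ g + y₂ * x₁ ^ g)) (x₂' ^ g)
          have e : s * z ^ g * (y₁ * x₂ ^ g + y₂ * x₁ ^ g) = x₂ ^ g + s * y₂ := by
            rw [hyz, hxz, inv_pow]
            field_simp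
          rw [e]
          have := (hx₂.pow g).add (LibCHd.red_zero_iff.2 (hs.mul_reg hy₂.reg))
          rwa [add_zero] at this
  · match p, p', hp, hp' with
    | .inf, p', hp, hp' => exact absurd hp hp'
    | .aff x₁ y₁ h₁, .inf, hp, hp' => exact absurd rfl hp'
    | .aff x₁ y₁ h₁, .aff x₁' y₁' h₁', hp, hp' =>
      obtain ⟨hx₁, hy₁⟩ := hp
      match q, hq with
      | .inf, _ =>
        refine ⟨1, fun i => ?_⟩
        rw [one_mul]
        fin_cases i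
        · exact LibCHd.red_zero v
        · exact LibCHd.red_one v
        · exact hx₁.pow g
      | .aff x₂ y₂ h₂, hq =>
        have hx₂ : v.ord x₂ < 0 := hq
        rw [eval_map_algebraMap] at h₂
        obtain ⟨z, s, hz0, hs0, hz, hs, hxz, hyz, hsz⟩ := m3_pole f h₂ hx₂
        rw [← hgg] at hyz hsz
        have hne : x₁ ≠ x₂ := by
          rintro rfl
          exact not_reg hx₂ hx₁.reg
        have hpl : plane f g (opt (.aff x₁ y₁ h₁ : MPt f K))
            (opt (.aff x₂ y₂ (by rw [eval_map_algebraMap]; exact h₂) : MPt f K)) =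
              ![x₁ - x₂, y₁ + y₂, y₁ * x₂ ^ g + y₂ * x₁ ^ g] := by
          show (if x₁ = x₂ ∧ y₁ = - y₂ then _ else _) = _
          rw [if_neg fun hh => hne hh.1]
        rw [hpl]
        have hzg : v.Zer (s * z ^ g) := hs.mul_reg (hz.reg.pow g)
        refine ⟨s * z ^ g, fun i => ?_⟩
        fin_cases i
        · show Red v (s * z ^ g * (x₁ - x₂)) 0
          rw [LibCHd.red_zero_iff]
          have e : s * z ^ g * (x₁ - x₂) = s * z ^ g * x₁ - s * z ^ (g - 1) := by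
            obtain ⟨m, rfl⟩ := Nat.exists_eq_add_of_le' hg
            rw [hxz, Nat.add_sub_cancel]
            field_simp
            ring
          rw [e]
          exact (hzg.mul_reg hx₁.reg).sub (hs.mul_reg (hz.reg.pow _))
        · show Red v (s * z ^ g * (y₁ + y₂)) 1
          have e : s * z ^ g * (y₁ + y₂) = s * z ^ g * y₁ + 1 := by
            rw [hyz]
            field_simp
          rw [e]
          have := (LibCHd.red_zero_iff.2 (hzg.mul_reg hy₁.reg)).add (LibCHd.red_one v)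
          rwa [zero_add] at this
        · show Red v (s * z ^ g * (y₁ * x₂ ^ g + y₂ * x₁ ^ g)) (x₁' ^ g)
          have e : s * z ^ g * (y₁ * x₂ ^ g + y₂ * x₁ ^ g) = s * y₁ + x₁ ^ g := by
            rw [hyz, hxz, inv_pow]
            field_simp
          rw [e]
          have := (LibCHd.red_zero_iff.2 (hs.mul_reg hy₁.reg)).add (hx₁.pow g)
          rwa [zero_add] at this

private theorem m3_same (f : k[X]) [Hyp f] {K : Type} [Field K] [Algebra k K] (v : Place k K)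
    {x y : K} (h : y ^ 2 = aeval x f) (hx : v.ord x < 0) :
    ∃ l : K, v.Zer (l * (y - -y)) ∧ v.Zer (l * aeval x (derivative f)) ∧
      Red v (l * (x ^ gn f * aeval x (derivative f) +
        -y * ((gn f : K) * x ^ (gn f - 1)) * (y - -y))) 1 := by
  have hg : 1 ≤ gn f := Hyp.one_le
  have hdeg : f.natDegree = 2 * gn f + 1 := Hyp.deg
  obtain ⟨z, s, hz0, hs0, hz, hs, hxz, hyz, hsz⟩ := m3_pole f h hx
  obtain ⟨P, hP⟩ : ∃ P, P = aeval z (reflect (2 * gn f + 1) f) := ⟨_, rfl⟩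
  rw [← hP] at hsz
  have hx0 : x ≠ 0 := by rw [hxz]; exact inv_ne_zero hz0
  have hzx : x⁻¹ = z := by rw [hxz, inv_inv]
  have hredP : Red v P 1 := by
    have h1 := m3_red (v := v) hz f (2 * gn f + 1)
    rw [← hP, ← hdeg, coeff_natDegree, (Hyp.monic (f := f)).leadingCoeff, map_one] at h1
    exact h1
  have hfx : aeval x f = P * x ^ (2 * gn f + 1) := by
    rw [m3_rev f (2 * gn f + 1) hdeg.le hx0, hzx, hP]
  have hd' : (derivative f).natDegree ≤ 2 * gn f := by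
    have := natDegree_derivative_le f
    omega
  obtain ⟨Q, hQ⟩ : ∃ Q, Q = aeval z (reflect (2 * gn f) (derivative f)) := ⟨_, rfl⟩
  have hdx : aeval x (derivative f) = Q * x ^ (2 * gn f) := by
    rw [m3_rev (derivative f) (2 * gn f) hd' hx0, hzx, hQ]
  have hredQ : Red v Q (2 * (gn f : RF v) + 1) := by
    have h1 := m3_red (v := v) hz (derivative f) (2 * gn f)
    rw [← hQ, coeff_derivative, ← hdeg, coeff_natDegree, (Hyp.monic (f := f)).leadingCoeff,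
      one_mul] at h1
    have e : algebraMap k (RF v) (((2 * gn f : ℕ) : k) + 1) = 2 * (gn f : RF v) + 1 := by
      simp only [Nat.cast_mul, Nat.cast_ofNat, map_add, map_mul, map_one, map_natCast]
      rw [map_ofNat]
    rwa [e] at h1
  refine ⟨z ^ (3 * gn f), ?_, ?_, ?_⟩
  · have e : z ^ (3 * gn f) * (y - -y) = (1 + 1) * (z ^ (2 * gn f - 1) * (s * P)) := by
      obtain ⟨m, hm⟩ := Nat.exists_eq_add_of_le' hg
      have e1 : 2 * gn f - 1 = 2 * m + 1 := by omega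
      have e2 : z = s ^ 2 * P := hsz.symm
      rw [hyz, e1, hm]
      field_simp
      have e3 : 3 * (m + 1) = (2 * m + 1) + 1 + (m + 1) := by ring
      rw [e3, pow_add, pow_add, pow_one]
      linear_combination ((1 + 1) * z ^ (2 * m + 1) * z ^ (m + 1)) * e2
    rw [e]
    refine Place.Zer.reg_mul ?_ ?_
    · exact (LibCHd.red_one v).reg.add (LibCHd.red_one v).reg
    · exact Place.Zer.reg_mul (hz.reg.pow _) (hs.mul_reg hredP.reg)
  · have e : z ^ (3 * gn f) * aeval x (derivative f) = z ^ gn f * Q := by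
      rw [hdx, hxz, inv_pow, show 3 * gn f = gn f + 2 * gn f by ring, pow_add]
      field_simp
    rw [e]
    exact (m3_zpow hz hg).mul_reg hredQ.reg
  · have e : z ^ (3 * gn f) * (x ^ gn f * aeval x (derivative f) +
        -y * ((gn f : K) * x ^ (gn f - 1)) * (y - -y)) = Q - 2 * (gn f : K) * P := by
      have e1 : -y * ((gn f : K) * x ^ (gn f - 1)) * (y - -y) =
          -(2 * (gn f : K)) * (x ^ (gn f - 1) * y ^ 2) := by ring
      rw [e1, h, hfx, hdx]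
      obtain ⟨m, hm⟩ := Nat.exists_eq_add_of_le' hg
      have e2 : gn f - 1 = m := by omega
      rw [e2, hxz, inv_pow, inv_pow, inv_pow, inv_pow,
        show 3 * gn f = gn f + 2 * gn f by ring, pow_add]
      have e3 : z ^ gn f * z ^ (2 * gn f) = z ^ m * z ^ (2 * gn f + 1) := by
        rw [← pow_add, ← pow_add]
        congr 1
        omega
      have hA : z ^ gn f ≠ 0 := pow_ne_zero _ hz0
      have hB : z ^ (2 * gn f) ≠ 0 := pow_ne_zero _ hz0
      have hC : z ^ m ≠ 0 := pow_ne_zero _ hz0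
      have hD : z ^ (2 * gn f + 1) ≠ 0 := pow_ne_zero _ hz0
      field_simp
      linear_combination (-(2 * (gn f : K) * P)) * e3
    rw [e]
    have h1 : Red v (2 * (gn f : K)) (2 * (gn f : RF v)) := by
      have h2 := LibCHd.red_const v (2 * (gn f : k))
      rwa [map_mul, map_mul, map_ofNat, map_ofNat, map_natCast, map_natCast] at h2
    have h3 := hredQ.sub (h1.mul hredP)
    have e4 : 2 * (gn f : RF v) + 1 - 2 * (gn f : RF v) * 1 = 1 := by ring
    rwa [e4] at h3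

private theorem m3_diff (f : k[X]) [Hyp f] {K : Type} [Field K] [Algebra k K] (v : Place k K)
    {x₁ y₁ x₂ y₂ : K} (h₁ : y₁ ^ 2 = aeval x₁ f) (hx₁ : v.ord x₁ < 0)
    (h₂ : y₂ ^ 2 = aeval x₂ f) (hx₂ : v.ord x₂ < 0) (hne : ¬ (x₁ = x₂ ∧ y₁ = - y₂)) :
    ∃ l : K, v.Zer (l * (x₁ - x₂)) ∧ v.Zer (l * (y₁ + y₂)) ∧
      Red v (l * (y₁ * x₂ ^ gn f + y₂ * x₁ ^ gn f)) 1 := by
  have hg : 1 ≤ gn f := Hyp.one_le
  have hdeg : f.natDegree = 2 * gn f + 1 := Hyp.deg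
  obtain ⟨z₁, s₁, hz₁0, hs₁0, hz₁, hs₁, hxz₁, hyz₁, hsz₁⟩ := m3_pole f h₁ hx₁
  obtain ⟨z₂, s₂, hz₂0, hs₂0, hz₂, hs₂, hxz₂, hyz₂, hsz₂⟩ := m3_pole f h₂ hx₂
  obtain ⟨P₁, hP₁⟩ : ∃ P, P = aeval z₁ (reflect (2 * gn f + 1) f) := ⟨_, rfl⟩
  obtain ⟨P₂, hP₂⟩ : ∃ P, P = aeval z₂ (reflect (2 * gn f + 1) f) := ⟨_, rfl⟩
  rw [← hP₁] at hsz₁
  rw [← hP₂] at hsz₂
  have hredP₂ : Red v P₂ 1 := by
    have h1 := m3_red (v := v) hz₂ f (2 * gn f + 1)
    rw [← hP₂, ← hdeg, coeff_natDegree, (Hyp.monic (f := f)).leadingCoeff, map_one] at h1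
    exact h1
  obtain ⟨c, hc, hc'⟩ := m3_lip (v := v) (reflect (2 * gn f + 1) f) hz₁.reg hz₂.reg
  rw [← hP₁, ← hP₂] at hc'
  obtain ⟨G, hG, hG'⟩ := m3_pow (v := v) hz₁.reg hz₂.reg (gn f)
  -- the unit
  obtain ⟨u, hu⟩ : ∃ u, u = 1 - s₁ ^ 2 * c := ⟨_, rfl⟩
  have hredu : Red v u 1 := by
    have h3 : v.Zer (s₁ ^ 2 * c) := (m3_zpow hs₁ (by omega)).mul_reg hc
    have h4 := (LibCHd.red_one v).sub (LibCHd.red_zero_iff.2 h3)
    rw [sub_zero] at h4
    rwa [hu]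
  have hu0 : u ≠ 0 := hredu.ne_zero one_ne_zero
  have hkey : (z₂ - z₁) * u = (s₂ - s₁) * (s₂ + s₁) * P₂ := by
    rw [hu]
    linear_combination hsz₁ - hsz₂ + s₁ ^ 2 * hc'
  have hsum : s₁ + s₂ ≠ 0 := by
    intro h0
    apply hne
    have h3 : (z₂ - z₁) * u = 0 := by
      rw [hkey, add_comm s₂ s₁, h0]
      ring
    have h4 : z₁ = z₂ := by
      have := (mul_eq_zero.1 h3).resolve_right hu0
      exact (sub_eq_zero.1 this).symm
    have h5 : s₂ = - s₁ := by linear_combination h0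
    refine ⟨by rw [hxz₁, hxz₂, h4], ?_⟩
    rw [hyz₁, hyz₂, h4, h5]
    rw [neg_mul, inv_neg, neg_neg]
  obtain ⟨W, hW⟩ : ∃ W, W = (s₂ - s₁) * P₂ * u⁻¹ := ⟨_, rfl⟩
  have hWz : v.Zer W := by
    rw [hW]
    have h3 : v.Zer ((s₂ - s₁) * P₂) := (hs₂.sub hs₁).mul_reg hredP₂.reg
    have h4 : Red v u⁻¹ 1⁻¹ := hredu.inv one_ne_zero
    exact h3.mul_reg h4.reg
  have hW' : z₂ - z₁ = W * (s₁ + s₂) := by
    rw [hW]
    field_simp
    linear_combination hkey
  obtain ⟨m, hm⟩ := Nat.exists_eq_add_of_le' hg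
  have hA₁ : z₁ ^ gn f ≠ 0 := pow_ne_zero _ hz₁0
  have hA₂ : z₂ ^ gn f ≠ 0 := pow_ne_zero _ hz₂0
  refine ⟨s₁ * s₂ * (z₁ ^ gn f * z₂ ^ gn f) / (s₁ + s₂), ?_, ?_, ?_⟩
  · have e : s₁ * s₂ * (z₁ ^ gn f * z₂ ^ gn f) / (s₁ + s₂) * (x₁ - x₂) =
        W * (z₁ ^ m * z₂ ^ m * (s₁ * s₂)) := by
      have e1 : x₁ - x₂ = W * (s₁ + s₂) / (z₁ * z₂) := by
        rw [← hW', hxz₁, hxz₂]
        field_simp
      rw [e1, hm, pow_succ, pow_succ]
      field_simp
    rw [e]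
    exact hWz.mul_reg (((hz₁.reg.pow m).mul (hz₂.reg.pow m)).mul (hs₁.reg.mul hs₂.reg))
  · have e : s₁ * s₂ * (z₁ ^ gn f * z₂ ^ gn f) / (s₁ + s₂) * (y₁ + y₂) =
        z₁ ^ gn f + s₂ * (W * G) := by
      have e1 : z₂ ^ gn f = z₁ ^ gn f + G * (W * (s₁ + s₂)) := by
        rw [← hW', ← hG']
        ring
      have e2 : s₁ * s₂ * (z₁ ^ gn f * z₂ ^ gn f) * (y₁ + y₂) =
          s₂ * z₂ ^ gn f + s₁ * z₁ ^ gn f := by
        rw [hyz₁, hyz₂]
        field_simp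
      rw [div_mul_eq_mul_div, e2, e1]
      field_simp
      ring
    rw [e]
    exact (m3_zpow hz₁ hg).add (hs₂.mul_reg (hWz.mul_reg hG).reg)
  · have e : s₁ * s₂ * (z₁ ^ gn f * z₂ ^ gn f) / (s₁ + s₂) *
        (y₁ * x₂ ^ gn f + y₂ * x₁ ^ gn f) = 1 := by
      have e2 : s₁ * s₂ * (z₁ ^ gn f * z₂ ^ gn f) * (y₁ * x₂ ^ gn f + y₂ * x₁ ^ gn f) =
          s₁ + s₂ := by
        rw [hyz₁, hyz₂, hxz₁, hxz₂, inv_pow, inv_pow]
        field_simp
        ring
      rw [div_mul_eq_mul_div, e2, div_self hsum]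
    rw [e]
    exact LibCHd.red_one v

theorem plane_sp_two (f : k[X]) [Hyp f] {K : Type} [Field K] [Algebra k K] (v : Place k K)
    (p q : MPt f K) (p' q' : MPt f (RF v)) (hp : SpR v p p') (hq : SpR v q q') (h1 : p' = .inf)
    (h2 : q' = .inf) :
    ∃ l : K, ∀ i, Red v (l * plane f (gn f) (opt p) (opt q) i)
      (plane f (gn f) (opt p') (opt q') i) := by
  have hg : 1 ≤ gn f := Hyp.one_le
  subst h1 h2
  -- it is enough to find residues `0, 0, 1`
  suffices H : ∃ l : K, v.Zer (l * plane f (gn f) (opt p) (opt q) 0) ∧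
      v.Zer (l * plane f (gn f) (opt p) (opt q) 1) ∧
      Red v (l * plane f (gn f) (opt p) (opt q) 2) 1 by
    obtain ⟨l, a, b, c⟩ := H
    refine ⟨l, fun i => ?_⟩
    fin_cases i
    · exact LibCHd.red_zero_iff.2 a
    · exact LibCHd.red_zero_iff.2 b
    · exact c
  have hone : ∀ {x y : K} (h : y ^ 2 = aeval x f) (hx : v.ord x < 0),
      ∃ l : K, v.Zer (l * 0) ∧ v.Zer (l * 1) ∧ Red v (l * x ^ gn f) 1 := by
    intro x y h hx
    obtain ⟨z, s, hz0, hs0, hz, hs, hxz, hyz, hsz⟩ := m3_pole f h hx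
    refine ⟨z ^ gn f, ?_, ?_, ?_⟩
    · rw [mul_zero]
      exact v.zer_zero
    · rw [mul_one]
      exact m3_zpow hz hg
    · have e : z ^ gn f * x ^ gn f = 1 := by
        rw [hxz, inv_pow, mul_inv_cancel₀ (pow_ne_zero _ hz0)]
      rw [e]
      exact LibCHd.red_one v
  match p, q, hp, hq with
  | .inf, .inf, _, _ =>
    refine ⟨1, ?_, ?_, ?_⟩
    · show v.Zer (1 * (0 : K))
      rw [mul_zero]
      exact v.zer_zero
    · show v.Zer (1 * (0 : K))
      rw [mul_zero]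
      exact v.zer_zero
    · show Red v (1 * (1 : K)) 1
      rw [mul_one]
      exact LibCHd.red_one v
  | .inf, .aff x y h, _, hx =>
    rw [eval_map_algebraMap] at h
    exact hone h hx
  | .aff x y h, .inf, hx, _ =>
    rw [eval_map_algebraMap] at h
    exact hone h hx
  | .aff x₁ y₁ h₁, .aff x₂ y₂ h₂, hx₁, hx₂ =>
    have h₁' := h₁
    have h₂' := h₂
    rw [eval_map_algebraMap] at h₁' h₂'
    by_cases hc : x₁ = x₂ ∧ y₁ = - y₂
    · have hpl : plane f (gn f) (opt (.aff x₁ y₁ h₁ : MPt f K)) (opt (.aff x₂ y₂ h₂ : MPt f K)) =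
          ![y₁ - y₂, aeval x₁ (derivative f), x₁ ^ gn f * aeval x₁ (derivative f) +
            y₂ * ((gn f : K) * x₁ ^ (gn f - 1)) * (y₁ - y₂)] := by
        show (if x₁ = x₂ ∧ y₁ = - y₂ then _ else _) = _
        rw [if_pos hc]
      rw [hpl]
      have hy : y₂ = - y₁ := by rw [hc.2, neg_neg]
      obtain ⟨l, a, b, c⟩ := m3_same f v h₁' hx₁
      rw [hy]
      exact ⟨l, a, b, c⟩
    · have hpl : plane f (gn f) (opt (.aff x₁ y₁ h₁ : MPt f K)) (opt (.aff x₂ y₂ h₂ : MPt f K)) =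
          ![x₁ - x₂, y₁ + y₂, y₁ * x₂ ^ gn f + y₂ * x₁ ^ gn f] := by
        show (if x₁ = x₂ ∧ y₁ = - y₂ then _ else _) = _
        rw [if_neg hc]
      rw [hpl]
      obtain ⟨l, a, b, c⟩ := m3_diff f v h₁' hx₁ h₂' hx₂ hc
      exact ⟨l, a, b, c⟩

end Pool.Agent.LibHL77
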