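import Pool.Agent.LibHL77.M2
import Pool.Agent.LibHL77.M3

/-!
[HL77 M4] the second morphism. Proof. `plane_ne`, `plane_map`, `plane_sp_aff`, `plane_sp_one`, `plane_sp_two` for
`f = F a = F b` (transport the point `u b` along `hab`; `opt` does not change: e.g. generalise `F b` and `subst`, or
construct the point of the curve `F a` with the coordinates `opt (u b)`).
-/

open scoped Classical
open Polynomial

namespace Pool.Agent.LibHL77

open Pool.Agent.LibBH2
open Pool.Agent.LibCHd (VR RF Red FunF)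
open Pool.Agent.LibHyp34 (Hyp Pt Pic jP Sp KC DCf gn)
open Pool.Agent.LibHD77

variable {k : Type} [Field k] [CharZero k] {n : ℕ}

/-- transport of points between equal curves -/
def M4_tr {f g : k[X]} (h : f = g) {M : Type} [Field M] [Algebra k M] (p : MPt g M) : MPt f M :=
  h ▸ p

theorem M4_opt {f g : k[X]} (h : f = g) {M : Type} [Field M] [Algebra k M] (p : MPt g M) :
    opt (M4_tr h p) = opt p := by
  subst h; rfl

theorem M4_mpt {f g : k[X]} (h : f = g) {M M' : Type} [Field M] [Algebra k M] [Field M']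
    [Algebra k M'] (σ : M →ₐ[k] M') (p : MPt g M) :
    mpt σ (M4_tr h p) = M4_tr h (mpt σ p) := by
  subst h; rfl

theorem M4_sp {f g : k[X]} (h : f = g) {K : Type} [Field K] [Algebra k K] (v : Place k K)
    (p : MPt g K) (q : MPt g (RF v)) (hs : SpR v p q) : SpR v (M4_tr h p) (M4_tr h q) := by
  subst h; exact hs

theorem exists_phiD (F : Fin n → k[X]) [∀ a, Hyp (F a)] (a b : Fin n) (hab : F a = F b) :
    ∃ φ : Mor F, ∀ (M : Type) [Field M] [Algebra k M] (u : Pnt F M),
      φ.φ M u = plane (F a) (gn (F a)) (opt (u a)) (opt (u b)) := by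
  refine ⟨⟨fun M _ _ u => plane (F a) (gn (F a)) (opt (u a)) (opt (u b)), ?_, ?_, ?_⟩, ?_⟩
  · intro M _ _ u
    have := plane_ne (F a) (u a) (M4_tr hab (u b))
    rw [M4_opt] at this
    exact this
  · intro M M' _ _ _ _ σ u i
    have := plane_map (F a) (gn (F a)) σ (u a) (M4_tr hab (u b)) i
    rw [M4_mpt, M4_opt, M4_opt] at this
    exact this
  · intro K _ _ v u q hq
    have h1 := hq a
    have h2 := M4_sp hab v _ _ (hq b)
    rw [← M4_opt hab (u b), ← M4_opt hab (q b)]
    by_cases ha : q a = .inf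
    · by_cases hb : M4_tr hab (q b) = .inf
      · exact plane_sp_two (F a) v (u a) _ (q a) _ h1 h2 ha hb
      · exact plane_sp_one (F a) v (u a) _ (q a) _ h1 h2 (Or.inl ⟨ha, hb⟩)
    · by_cases hb : M4_tr hab (q b) = .inf
      · exact plane_sp_one (F a) v (u a) _ (q a) _ h1 h2 (Or.inr ⟨ha, hb⟩)
      · exact plane_sp_aff (F a) v (u a) _ (q a) _ h1 h2 ha hb
  · intro M _ _ u
    rfl

end Pool.Agent.LibHL77
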