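import Pool.Agent.LibHL77.A1
import Pool.Agent.LibHL77.B1
import Pool.Agent.LibHL77.B0a
import Pool.Agent.LibHL77.B0b

/-!
[HL77 B3] Gauss extensions of places to `M(T_1, T_2)`. Proofs. `gauss_be`: `K' = K_1(T_2)` with
`K_1 = i(K)(T_1)` (an intermediate field, or `RatFunc K`), two applications of `gauss_exists` (B0a) with `K'`, `K_1` as
`k`-algebras; the residues of `T_1, T_2` are algebraically independent over `RF v`, so the place is trivial on `Lf k` (the same function
`ord`, the same ring `VR`). `gauss_be_unique`: `gauss_char` (B0b) twice (first for `K_1` with the restriction of `w`). `ord_hyp`: scale the `φ j` by an element `c` of smallest order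
(some `φ b`): the residues of the `φ j / c` are not all zero, so the residue of `hypf i φ / c` is not zero by `BE j`
(`ind` for a polynomial of degree one).
-/

open scoped Classical
open Polynomial

namespace Pool.Agent.LibHL77

open Pool.Agent.LibBH2
open Pool.Agent.LibCHd (VR RF Red FunF)
open Pool.Agent.LibHyp34 (Hyp Pt Pic jP Sp KC DCf gn)
open Pool.Agent.LibHD77

variable {k : Type} [Field k] {K K' : Type} [Field K] [Algebra k K]
  [Field K'] [Algebra (Lf k) K'] {i : EHom k (Lf k) K K'}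

/-- reduction of a polynomial expression in two elements -/
theorem B3_red {l A : Type} [Field l] [Field A] [Algebra l A] {w : Place l A} {ι : Type}
    (S : Finset ι) (d : ι → Fin 2 → ℕ) (a : ι → A) (c : ι → RF w) (T : Fin 2 → A) (t : Fin 2 → RF w)
    (h1 : ∀ m ∈ S, Red w (a m) (c m)) (h2 : ∀ e, Red w (T e) (t e)) :
    Red w (∑ m ∈ S, a m * ∏ e, T e ^ d m e) (∑ m ∈ S, c m * ∏ e, t e ^ d m e) := by
  classical
  induction S using Finset.induction_on with
  | empty => simpa using LibCHd.red_zero w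
  | insert m S hm ih =>
    rw [Finset.sum_insert hm, Finset.sum_insert hm, Fin.prod_univ_two, Fin.prod_univ_two]
    refine (LibCHd.Red.mul (h1 m (Finset.mem_insert_self _ _))
      (((h2 0).pow _).mul ((h2 1).pow _))).add (ih fun m' hm' => h1 m' (Finset.mem_insert_of_mem hm'))

/-- the variables in `K'` -/
noncomputable abbrev B3_T (k K' : Type) [Field k] [Field K'] [Algebra (Lf k) K'] : Fin 2 → K' :=
  fun e => algebraMap (Lf k) K' (tt k e)

/-- the image of a polynomial over `k` in `K'` -/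
theorem B3_map (i : EHom k (Lf k) K K') (p : MvPolynomial (Fin 2) k) :
    algebraMap (Lf k) K' (algebraMap (MvPolynomial (Fin 2) k) (Lf k) p) =
      (MvPolynomial.map (algebraMap k K) p).eval₂ i.f (B3_T k K') := by
  have h : ((algebraMap (Lf k) K').comp (algebraMap (MvPolynomial (Fin 2) k) (Lf k))) =
      (MvPolynomial.eval₂Hom i.f (B3_T k K')).comp (MvPolynomial.map (algebraMap k K)) := by
    apply MvPolynomial.ringHom_ext
    · intro c
      simp only [RingHom.comp_apply, MvPolynomial.map_C, MvPolynomial.coe_eval₂Hom,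
        MvPolynomial.eval₂_C]
      rw [i.comm]
      congr 1
    · intro e
      simp only [RingHom.comp_apply, MvPolynomial.map_X, MvPolynomial.coe_eval₂Hom,
        MvPolynomial.eval₂_X]
      rfl
  exact congrArg (fun f : MvPolynomial (Fin 2) k →+* K' => f p) h

/-- a subfield which contains `i(K)` and the variables is everything -/
theorem B3_top (hi : BE i) (S : Subfield K') (h1 : ∀ x, i.f x ∈ S)
    (h2 : ∀ e, B3_T k K' e ∈ S) (z : K') : z ∈ S := by
  have hp : ∀ p : MvPolynomial (Fin 2) k,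
      algebraMap (Lf k) K' (algebraMap (MvPolynomial (Fin 2) k) (Lf k) p) ∈ S := by
    intro p
    rw [B3_map i p, MvPolynomial.eval₂_eq']
    refine S.sum_mem fun m _ => S.mul_mem (h1 _) (S.prod_mem fun e _ => S.pow_mem (h2 e) _)
  have hc : ∀ c : Lf k, algebraMap (Lf k) K' c ∈ S := by
    intro c
    obtain ⟨p, q, -, rfl⟩ := IsFractionRing.div_surjective (A := MvPolynomial (Fin 2) k) c
    rw [map_div₀]
    exact S.div_mem (hp p) (hp q)
  have h3 : IntermediateField.adjoin (Lf k) (Set.range i.f) ≤ S.toIntermediateField hc := by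
    rw [IntermediateField.adjoin_le_iff]
    rintro _ ⟨x, rfl⟩
    exact h1 x
  rw [hi.gen] at h3
  exact h3 IntermediateField.mem_top

/-- every element is a quotient of polynomials in the variables -/
theorem B3_quot (hi : BE i) (z : K') : ∃ G H : MvPolynomial (Fin 2) K, H ≠ 0 ∧
    z = G.eval₂ i.f (B3_T k K') / H.eval₂ i.f (B3_T k K') := by
  set φ : MvPolynomial (Fin 2) K →+* K' := MvPolynomial.eval₂Hom i.f (B3_T k K') with hφ
  have hne : ∀ H : MvPolynomial (Fin 2) K, H ≠ 0 → φ H ≠ 0 := hi.ind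
  let S : Subfield K' :=
    { carrier := {z | ∃ G H : MvPolynomial (Fin 2) K, H ≠ 0 ∧ z = φ G / φ H}
      mul_mem' := by
        rintro _ _ ⟨G, H, hH, rfl⟩ ⟨G', H', hH', rfl⟩
        refine ⟨G * G', H * H', mul_ne_zero hH hH', ?_⟩
        rw [map_mul, map_mul, div_mul_div_comm]
      one_mem' := ⟨1, 1, one_ne_zero, by rw [map_one, div_one]⟩
      add_mem' := by
        rintro _ _ ⟨G, H, hH, rfl⟩ ⟨G', H', hH', rfl⟩
        refine ⟨G * H' + H * G', H * H', mul_ne_zero hH hH', ?_⟩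
        rw [map_add, map_mul, map_mul, map_mul, div_add_div _ _ (hne H hH) (hne H' hH')]
      zero_mem' := ⟨0, 1, one_ne_zero, by rw [map_zero, zero_div]⟩
      neg_mem' := by
        rintro _ ⟨G, H, hH, rfl⟩
        exact ⟨-G, H, hH, by rw [map_neg, neg_div]⟩
      inv_mem' := by
        rintro _ ⟨G, H, hH, rfl⟩
        by_cases hG : G = 0
        · exact ⟨0, 1, one_ne_zero, by rw [hG, map_zero, zero_div, inv_zero, zero_div]⟩
        · exact ⟨H, G, hG, by rw [inv_div]⟩ }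
  have h1 : z ∈ S := by
    refine B3_top hi S (fun x => ⟨MvPolynomial.C x, 1, one_ne_zero, ?_⟩)
      (fun e => ⟨MvPolynomial.X e, 1, one_ne_zero, ?_⟩) z
    · rw [map_one, div_one, hφ, MvPolynomial.coe_eval₂Hom, MvPolynomial.eval₂_C]
    · rw [map_one, div_one, hφ, MvPolynomial.coe_eval₂Hom, MvPolynomial.eval₂_X]
  exact h1

/-- the order of a polynomial in the variables -/
theorem B3_ord (v : Place k K) (w : Place (Lf k) K')
    (j : EHom k (Lf k) (RF v) (RF w)) (h1 : ∀ x, w.ord (i.f x) = v.ord x)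
    (h2 : ∀ x c, Red v x c → Red w (i.f x) (j.f c)) (h3 : BE j) (G : MvPolynomial (Fin 2) K)
    (hG : G ≠ 0) : G.eval₂ i.f (B3_T k K') ≠ 0 ∧ ∃ m ∈ G.support,
      (∀ m' ∈ G.support, v.ord (G.coeff m) ≤ v.ord (G.coeff m')) ∧
      w.ord (G.eval₂ i.f (B3_T k K')) = v.ord (G.coeff m) := by
  classical
  obtain ⟨m, hm, hmin⟩ := Finset.exists_min_image G.support (fun m => v.ord (G.coeff m))
    (MvPolynomial.support_nonempty.2 hG)
  set c := G.coeff m with hc
  have hc0 : c ≠ 0 := MvPolynomial.mem_support_iff.1 hm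
  have hred : ∀ m', ∃ r, Red v (c⁻¹ * G.coeff m') r := by
    intro m'
    apply LibCHd.exists_red
    by_cases h0 : G.coeff m' = 0
    · exact Or.inl (by rw [h0, mul_zero])
    · refine Or.inr ?_
      rw [v.ord_mul _ _ (inv_ne_zero hc0) h0, v.ord_inv]
      have h9 : v.ord c ≤ v.ord (G.coeff m') := hmin m' (MvPolynomial.mem_support_iff.2 h0)
      omega
  choose r hr using hred
  have hrm : r m = 1 := by
    have h4 := hr m
    rw [← hc, inv_mul_cancel₀ hc0] at h4
    exact h4.unique (LibCHd.red_one v)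
  set R : MvPolynomial (Fin 2) (RF v) := ∑ m' ∈ G.support, MvPolynomial.monomial m' (r m') with hR
  have hR0 : R ≠ 0 := by
    intro h0
    have h4 : R.coeff m = 1 := by
      rw [hR, MvPolynomial.coeff_sum]
      simp only [MvPolynomial.coeff_monomial]
      rw [Finset.sum_ite_eq' G.support m r, if_pos hm, hrm]
    rw [h0, MvPolynomial.coeff_zero] at h4
    exact zero_ne_one h4
  have h5 : Red w (∑ m' ∈ G.support, i.f (c⁻¹ * G.coeff m') * ∏ e, B3_T k K' e ^ m' e)
      (∑ m' ∈ G.support, j.f (r m') * ∏ e, B3_T k (RF w) e ^ m' e) :=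
    B3_red G.support (fun m' => ⇑m') _ _ _ _ (fun m' _ => h2 _ _ (hr m'))
      fun e => LibCHd.red_const w (tt k e)
  have h6 : ∑ m' ∈ G.support, j.f (r m') * ∏ e, B3_T k (RF w) e ^ m' e =
      R.eval₂ j.f (B3_T k (RF w)) := by
    rw [hR, MvPolynomial.eval₂_sum]
    refine Finset.sum_congr rfl fun m' _ => ?_
    rw [MvPolynomial.eval₂_monomial, Finsupp.prod_fintype _ _ (fun e => pow_zero _)]
  have h7 : ∑ m' ∈ G.support, i.f (c⁻¹ * G.coeff m') * ∏ e, B3_T k K' e ^ m' e =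
      (i.f c)⁻¹ * G.eval₂ i.f (B3_T k K') := by
    rw [MvPolynomial.eval₂_eq', Finset.mul_sum]
    refine Finset.sum_congr rfl fun m' _ => ?_
    rw [map_mul, map_inv₀, mul_assoc]
  rw [h6, h7] at h5
  have h8 : R.eval₂ j.f (B3_T k (RF w)) ≠ 0 := h3.ind R hR0
  have h9 := h5.ord_eq_zero h8
  have hfc : i.f c ≠ 0 := (map_ne_zero i.f).2 hc0
  have h10 : G.eval₂ i.f (B3_T k K') ≠ 0 := by
    intro h0
    rw [h0, mul_zero] at h5
    exact h8 (h5.unique (LibCHd.red_zero w))
  refine ⟨h10, m, hm, fun m' hm' => hmin m' hm', ?_⟩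
  have h11 : w.ord (i.f c) = v.ord c := h1 c
  rw [w.ord_mul _ _ (inv_ne_zero hfc) h10, w.ord_inv, h11] at h9
  linarith

/-- algebraic independence in towers -/
theorem B3_ind {R S A : Type} [Field R] [Field S] [Field A] (a : R →+* S) (b : S →+* A) (s : S)
    (u : A) (h1 : ∀ G : R[X], G ≠ 0 → G.eval₂ a s ≠ 0) (h2 : ∀ G : S[X], G ≠ 0 → G.eval₂ b u ≠ 0)
    (G : MvPolynomial (Fin 2) R) (hG : G ≠ 0) : G.eval₂ (b.comp a) ![b s, u] ≠ 0 := by
  let _ : Algebra R S := a.toAlgebra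
  let _ : Algebra S A := b.toAlgebra
  let _ : Algebra R A := (b.comp a).toAlgebra
  have : IsScalarTower R S A := IsScalarTower.of_algebraMap_eq fun _ => rfl
  have hs : Transcendental R s :=
    transcendental_iff.2 fun p hp => by_contra fun hp0 => h1 p hp0 hp
  have hu : Transcendental S u :=
    transcendental_iff.2 fun p hp => by_contra fun hp0 => h2 p hp0 hp
  have hs' : AlgebraicIndependent R (fun _ : Unit => s) :=
    algebraicIndependent_unique_type_iff.2 hs
  have hu' : AlgebraicIndependent S (fun _ : Unit => u) :=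
    algebraicIndependent_unique_type_iff.2 hu
  have h3 := AlgebraicIndependent.sumElim_comp hs' hu'
  have h4 := h3.comp (![Sum.inr (), Sum.inl ()] : Fin 2 → Unit ⊕ Unit) (by
    intro x y hxy
    fin_cases x <;> fin_cases y <;> simp at hxy ⊢)
  have h5 : (Sum.elim (fun _ : Unit => u) (algebraMap S A ∘ fun _ : Unit => s)) ∘
      (![Sum.inr (), Sum.inl ()] : Fin 2 → Unit ⊕ Unit) = ![b s, u] := by
    funext x
    fin_cases x <;> rfl
  rw [h5] at h4
  intro h0
  exact hG (algebraicIndependent_iff.1 h4 G h0)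

/-- a subfield and values of polynomials -/
theorem B3_mem {R A : Type} [Field R] [Field A] (S : Subfield A) (a : R →+* A) (u : A)
    (h1 : ∀ c, a c ∈ S) (h2 : u ∈ S) (P : R[X]) : P.eval₂ a u ∈ S := by
  rw [Polynomial.eval₂_eq_sum_range]
  exact S.sum_mem fun m _ => S.mul_mem (h1 _) (S.pow_mem h2 _)

/-- two Gauss extensions -/
theorem B3_core {K K₁ K' : Type} [Field K] [Field K₁] [Field K'] [Algebra k K] [Algebra k K₁]
    [Algebra k K'] (i₁ : K →ₐ[k] K₁) (i₂ : K₁ →ₐ[k] K') (T₀ : K₁) (T₁ : K')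
    (htr₁ : ∀ G : K[X], G ≠ 0 → G.eval₂ (i₁ : K →+* K₁) T₀ ≠ 0)
    (hgen₁ : ∀ z : K₁, ∃ P Q : K[X], Q ≠ 0 ∧
      z = P.eval₂ (i₁ : K →+* K₁) T₀ / Q.eval₂ (i₁ : K →+* K₁) T₀)
    (htr₂ : ∀ G : K₁[X], G ≠ 0 → G.eval₂ (i₂ : K₁ →+* K') T₁ ≠ 0)
    (hgen₂ : ∀ z : K', ∃ P Q : K₁[X], Q ≠ 0 ∧
      z = P.eval₂ (i₂ : K₁ →+* K') T₁ / Q.eval₂ (i₂ : K₁ →+* K') T₁) (v : Place k K) :
    ∃ (w : Place k K') (j : RF v →ₐ[k] RF w) (t : Fin 2 → RF w),
      (∀ x, w.ord (i₂ (i₁ x)) = v.ord x) ∧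
      (∀ x c, Red v x c → Red w (i₂ (i₁ x)) (j c)) ∧ Red w (i₂ T₀) (t 0) ∧ Red w T₁ (t 1) ∧
      (∀ G : MvPolynomial (Fin 2) (RF v), G ≠ 0 → G.eval₂ (j : RF v →+* RF w) t ≠ 0) ∧
      ∀ S : Subfield (RF w), (∀ c, j c ∈ S) → (∀ e, t e ∈ S) → ∀ z, z ∈ S := by
  obtain ⟨v₁, j₁, s₀, a1, a2, a3, a4, a5⟩ := gauss_exists i₁ T₀ htr₁ hgen₁ v
  obtain ⟨w, j₂, s₁, b1, b2, b3, b4, b5⟩ := gauss_exists i₂ T₁ htr₂ hgen₂ v₁
  refine ⟨w, j₂.comp j₁, ![j₂ s₀, s₁], fun x => by rw [b1, a1], fun x c h => b2 _ _ (a2 x c h),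
    b2 _ _ a3, b3, fun G hG => B3_ind (j₁ : RF v →+* RF v₁) (j₂ : RF v₁ →+* RF w) s₀ s₁ a4 b4 G hG,
    fun S h1 h2 z => ?_⟩
  have h3 : ∀ c : RF v₁, j₂ c ∈ S := by
    intro c
    obtain ⟨P, Q, -, rfl⟩ := a5 c
    rw [map_div₀]
    have h4 : ∀ P : (RF v)[X], j₂ (P.eval₂ (j₁ : RF v →+* RF v₁) s₀) ∈ S := by
      intro P
      have h5 : j₂ (P.eval₂ (j₁ : RF v →+* RF v₁) s₀) =
          P.eval₂ ((j₂ : RF v₁ →+* RF w).comp (j₁ : RF v →+* RF v₁)) (j₂ s₀) :=
        Polynomial.hom_eval₂ P (j₁ : RF v →+* RF v₁) (j₂ : RF v₁ →+* RF w) s₀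
      rw [h5]
      exact B3_mem S _ _ h1 (h2 0) P
    exact S.div_mem (h4 P) (h4 Q)
  obtain ⟨P, Q, -, rfl⟩ := b5 z
  exact S.div_mem (B3_mem S _ _ h3 (h2 1) P) (B3_mem S _ _ h3 (h2 1) Q)

theorem gauss_be (hi : BE i) (v : Place k K) :
    ∃ (w : Place (Lf k) K') (j : EHom k (Lf k) (RF v) (RF w)), (∀ x, w.ord (i.f x) = v.ord x) ∧
      (∀ x c, Red v x c → Red w (i.f x) (j.f c)) ∧ BE j := by
  let _ : Algebra K K' := i.f.toAlgebra
  let _ : Algebra k K' := ((algebraMap (Lf k) K').comp (algebraMap k (Lf k))).toAlgebra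
  have hk : ∀ c : k, algebraMap k K' c = algebraMap (Lf k) K' (algebraMap k (Lf k) c) :=
    fun _ => rfl
  have hK : ∀ x : K, algebraMap K K' x = i.f x := fun _ => rfl
  have : IsScalarTower k K K' := IsScalarTower.of_algebraMap_eq fun c => by
    rw [hk, hK, i.comm]
  have hAI : AlgebraicIndependent K (B3_T k K') :=
    algebraicIndependent_iff.2 fun G hG => by_contra fun h0 => hi.ind G h0 hG
  set T : Fin 2 → K' := B3_T k K' with hT
  let K₁ : IntermediateField K K' := IntermediateField.adjoin K {T 0}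
  let T₀ : K₁ := ⟨T 0, IntermediateField.mem_adjoin_simple_self K (T 0)⟩
  let i₁ : K →ₐ[k] K₁ := IsScalarTower.toAlgHom k K K₁
  have hcm : ∀ c : k, algebraMap K₁ K' (algebraMap k K₁ c) = algebraMap k K' c := by
    intro c
    rw [IsScalarTower.algebraMap_apply k K K₁, IsScalarTower.algebraMap_apply k K K',
      ← IsScalarTower.algebraMap_apply K K₁ K']
  let i₂ : K₁ →ₐ[k] K' := ⟨algebraMap K₁ K', hcm⟩
  have hcomp : ((i₂ : K₁ →+* K').comp (i₁ : K →+* K₁)) = algebraMap K K' := by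
    ext x
    rfl
  have hev : ∀ P : K[X], (i₂ : K₁ →+* K') (P.eval₂ (i₁ : K →+* K₁) T₀) = aeval (T 0) P := by
    intro P
    rw [Polynomial.hom_eval₂, hcomp]
    rfl
  have hinj : Function.Injective (i₂ : K₁ →+* K') := (i₂ : K₁ →+* K').injective
  have htr₁ : ∀ G : K[X], G ≠ 0 → G.eval₂ (i₁ : K →+* K₁) T₀ ≠ 0 := by
    intro G hG h0
    have h1 := hev G
    rw [h0, map_zero] at h1
    exact hG (transcendental_iff.1 (hAI.transcendental 0) G h1.symm)
  have hgen₁ : ∀ z : K₁, ∃ P Q : K[X], Q ≠ 0 ∧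
      z = P.eval₂ (i₁ : K →+* K₁) T₀ / Q.eval₂ (i₁ : K →+* K₁) T₀ := by
    intro z
    obtain ⟨P, Q, hPQ⟩ := (IntermediateField.mem_adjoin_simple_iff K (z : K')).1 z.2
    by_cases hQ : Q = 0
    · refine ⟨0, 1, one_ne_zero, hinj ?_⟩
      rw [map_div₀, hev, hev, map_zero, zero_div]
      refine hPQ.trans ?_
      rw [hQ, map_zero, div_zero]
    · refine ⟨P, Q, hQ, hinj ?_⟩
      rw [map_div₀, hev, hev]
      exact hPQ
  have htr₂ : ∀ G : K₁[X], G ≠ 0 → G.eval₂ (i₂ : K₁ →+* K') (T 1) ≠ 0 := by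
    intro G hG h0
    have h1 : Transcendental (Algebra.adjoin K (T '' {0})) (T 1) :=
      hAI.transcendental_adjoin (by simp)
    rw [Set.image_singleton] at h1
    have h2 : Transcendental K₁ (T 1) := IntermediateField.transcendental_adjoin_iff.2 h1
    exact hG (transcendental_iff.1 h2 G h0)
  have hgen₂ : ∀ z : K', ∃ P Q : K₁[X], Q ≠ 0 ∧
      z = P.eval₂ (i₂ : K₁ →+* K') (T 1) / Q.eval₂ (i₂ : K₁ →+* K') (T 1) := by
    intro z
    have hz : z ∈ (IntermediateField.adjoin K₁ {T 1}).toSubfield := by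
      refine B3_top hi _ (fun x => ?_) (fun e => ?_) z
      · exact (IntermediateField.adjoin K₁ {T 1}).algebraMap_mem (algebraMap K K₁ x)
      · fin_cases e
        · exact (IntermediateField.adjoin K₁ {T 1}).algebraMap_mem T₀
        · exact IntermediateField.mem_adjoin_simple_self K₁ (T 1)
    obtain ⟨P, Q, hPQ⟩ := (IntermediateField.mem_adjoin_simple_iff K₁ z).1 hz
    by_cases hQ : Q = 0
    · refine ⟨0, 1, one_ne_zero, ?_⟩
      rw [hPQ, hQ, map_zero, div_zero, Polynomial.eval₂_zero, zero_div]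
    · exact ⟨P, Q, hQ, hPQ⟩
  obtain ⟨w₂, j₂, t, c1, c2, c3, c4, c5, c6⟩ := B3_core i₁ i₂ T₀ (T 1) htr₁ hgen₁ htr₂ hgen₂ v
  have hTt : ∀ e, Red w₂ (T e) (t e) := by
    intro e
    fin_cases e
    · exact c3
    · exact c4
  -- the constants
  have hpol : ∀ p : MvPolynomial (Fin 2) k, p ≠ 0 →
      w₂.ord (algebraMap (Lf k) K' (algebraMap (MvPolynomial (Fin 2) k) (Lf k) p)) = 0 := by
    intro p hp
    have h1 : Red w₂ (∑ m ∈ p.support, algebraMap k K' (p.coeff m) * ∏ e, T e ^ m e)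
        (∑ m ∈ p.support, algebraMap k (RF w₂) (p.coeff m) * ∏ e, t e ^ m e) :=
      B3_red p.support (fun m => ⇑m) _ _ _ _ (fun m _ => LibCHd.red_const w₂ _) hTt
    have h2 : ∑ m ∈ p.support, algebraMap k K' (p.coeff m) * ∏ e, T e ^ m e =
        algebraMap (Lf k) K' (algebraMap (MvPolynomial (Fin 2) k) (Lf k) p) := by
      rw [B3_map i p, MvPolynomial.eval₂_map, MvPolynomial.eval₂_eq']
      refine Finset.sum_congr rfl fun m _ => ?_
      rw [hk, ← i.comm]
      rfl
    have h3 : ∑ m ∈ p.support, algebraMap k (RF w₂) (p.coeff m) * ∏ e, t e ^ m e =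
        (MvPolynomial.map (algebraMap k (RF v)) p).eval₂ (j₂ : RF v →+* RF w₂) t := by
      rw [MvPolynomial.eval₂_map, MvPolynomial.eval₂_eq']
      refine Finset.sum_congr rfl fun m _ => ?_
      congr 1
      exact (j₂.commutes _).symm
    rw [h2, h3] at h1
    refine h1.ord_eq_zero (c5 _ ?_)
    intro h0
    exact hp ((MvPolynomial.map_injective _ (algebraMap k (RF v)).injective)
      (h0.trans (map_zero _).symm))
  let w : Place (Lf k) K' :=
    { ord := w₂.ord
      ord_zero := w₂.ord_zero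
      ord_mul := w₂.ord_mul
      ord_add := w₂.ord_add
      ord_const := by
        intro c hc
        obtain ⟨p, q, hq, rfl⟩ := IsFractionRing.div_surjective (A := MvPolynomial (Fin 2) k) c
        have hq0 : q ≠ 0 := nonZeroDivisors.ne_zero hq
        have hp0 : p ≠ 0 := by
          rintro rfl
          exact hc (by rw [map_zero, zero_div])
        have hne : ∀ p : MvPolynomial (Fin 2) k, p ≠ 0 →
            algebraMap (Lf k) K' (algebraMap (MvPolynomial (Fin 2) k) (Lf k) p) ≠ 0 := by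
          intro p hp
          rw [Ne, map_eq_zero]
          exact fun h0 => hp ((IsFractionRing.injective (MvPolynomial (Fin 2) k) (Lf k))
            (h0.trans (map_zero _).symm))
        rw [map_div₀, w₂.ord_div _ _ (hne p hp0) (hne q hq0), hpol p hp0, hpol q hq0, sub_zero]
      exists_uniformizer := w₂.exists_uniformizer }
  have hRed : ∀ x (c : RF w₂), Red w₂ x c → Red w x c := fun x c h => h
  have hcj : ∀ c : k, (j₂ (algebraMap k (RF v) c) : RF w) =
      algebraMap (Lf k) (RF w) (algebraMap k (Lf k) c) := by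
    intro c
    have h1 : Red w (algebraMap k K' c) (algebraMap k (RF w₂) c) :=
      hRed _ _ (LibCHd.red_const w₂ c)
    rw [hk] at h1
    rw [j₂.commutes]
    exact h1.unique (LibCHd.red_const w _)
  let j : EHom k (Lf k) (RF v) (RF w) := ⟨(j₂ : RF v →+* RF w₂), hcj⟩
  let t' : Fin 2 → RF w := t
  have htj : ∀ e, t' e = B3_T k (RF w) e := fun e =>
    (hRed _ _ (hTt e)).unique (LibCHd.red_const w (tt k e))
  have htj' : t' = B3_T k (RF w) := funext htj
  refine ⟨w, j, c1, c2, ⟨?_, ?_⟩⟩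
  · rw [eq_top_iff]
    intro z _
    let S : Subfield (RF w) := (IntermediateField.adjoin (Lf k) (Set.range j.f)).toSubfield
    have hS1 : ∀ c, j.f c ∈ S := fun c => IntermediateField.subset_adjoin _ _ ⟨c, rfl⟩
    have hS2 : ∀ e, t' e ∈ S := by
      intro e
      rw [htj e]
      exact (IntermediateField.adjoin (Lf k) (Set.range j.f)).algebraMap_mem (tt k e)
    exact c6 S hS1 hS2 z
  · intro G hG
    have h1 : G.eval₂ j.f t' ≠ 0 := c5 G hG
    rw [htj'] at h1
    exact h1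

theorem gauss_be_unique (hi : BE i) (v : Place k K) (w w' : Place (Lf k) K')
    (j : EHom k (Lf k) (RF v) (RF w)) (j' : EHom k (Lf k) (RF v) (RF w'))
    (h1 : ∀ x, w.ord (i.f x) = v.ord x) (h2 : ∀ x c, Red v x c → Red w (i.f x) (j.f c))
    (h3 : BE j) (h1' : ∀ x, w'.ord (i.f x) = v.ord x)
    (h2' : ∀ x c, Red v x c → Red w' (i.f x) (j'.f c)) (h3' : BE j') : w = w' := by
  apply Place.ext'
  intro z
  have key : ∀ G : MvPolynomial (Fin 2) K, G ≠ 0 →
      w.ord (G.eval₂ i.f (B3_T k K')) = w'.ord (G.eval₂ i.f (B3_T k K')) := by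
    intro G hG
    obtain ⟨-, m, hm, hm1, hm2⟩ := B3_ord v w j h1 h2 h3 G hG
    obtain ⟨-, m', hm', hm1', hm2'⟩ := B3_ord v w' j' h1' h2' h3' G hG
    rw [hm2, hm2']
    exact le_antisymm (hm1 m' hm') (hm1' m hm)
  obtain ⟨G, H, hH, rfl⟩ := B3_quot hi z
  by_cases hG : G = 0
  · rw [hG, MvPolynomial.eval₂_zero, zero_div, w.ord_zero, w'.ord_zero]
  · rw [w.ord_div _ _ (hi.ind G hG) (hi.ind H hH), w'.ord_div _ _ (hi.ind G hG) (hi.ind H hH),
      key G hG, key H hH]

/-- the equation of the hyperplane -/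
noncomputable def hypf (i : EHom k (Lf k) K K') (φ : Fin 3 → K) : K' :=
  i.f (φ 0) + algebraMap (Lf k) K' (tt k 0) * i.f (φ 1) + algebraMap (Lf k) K' (tt k 1) * i.f (φ 2)

theorem ord_hyp (hi : BE i) (v : Place k K) (w : Place (Lf k) K')
    (j : EHom k (Lf k) (RF v) (RF w)) (h1 : ∀ x, w.ord (i.f x) = v.ord x)
    (h2 : ∀ x c, Red v x c → Red w (i.f x) (j.f c)) (h3 : BE j) (φ : Fin 3 → K)
    (hφ : ∃ b, φ b ≠ 0) :
    hypf i φ ≠ 0 ∧ w.ord (hypf i φ) = sInf {m | ∃ b, φ b ≠ 0 ∧ m = v.ord (φ b)} := by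
  classical
  let E : Fin 3 → (Fin 2 →₀ ℕ) := ![0, Finsupp.single 0 1, Finsupp.single 1 1]
  have hE : Function.Injective E := by
    intro a b hab
    have h4 := DFunLike.congr_fun hab 0
    have h5 := DFunLike.congr_fun hab 1
    fin_cases a <;> fin_cases b <;> simp [E] at h4 h5 ⊢
  set G : MvPolynomial (Fin 2) K := ∑ b, MvPolynomial.monomial (E b) (φ b) with hG
  have hco : ∀ b, G.coeff (E b) = φ b := by
    intro b
    rw [hG, MvPolynomial.coeff_sum]
    simp only [MvPolynomial.coeff_monomial, hE.eq_iff]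
    rw [Finset.sum_ite_eq' Finset.univ b φ, if_pos (Finset.mem_univ _)]
  have hsup : ∀ m ∈ G.support, ∃ b, m = E b := by
    intro m hm
    have h4 := MvPolynomial.mem_support_iff.1 hm
    rw [hG, MvPolynomial.coeff_sum] at h4
    obtain ⟨b, -, hb⟩ := Finset.exists_ne_zero_of_sum_ne_zero h4
    rw [MvPolynomial.coeff_monomial] at hb
    refine ⟨b, ?_⟩
    by_contra h5
    exact hb (if_neg fun h6 => h5 h6.symm)
  have hev : G.eval₂ i.f (B3_T k K') = hypf i φ := by
    rw [hG, MvPolynomial.eval₂_sum, Fin.sum_univ_three, MvPolynomial.eval₂_monomial,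
      MvPolynomial.eval₂_monomial, MvPolynomial.eval₂_monomial]
    have e0 : (E 0).prod (fun n e => B3_T k K' n ^ e) = 1 := Finsupp.prod_zero_index
    have e1 : (E 1).prod (fun n e => B3_T k K' n ^ e) = algebraMap (Lf k) K' (tt k 0) := by
      change (Finsupp.single (0 : Fin 2) 1).prod (fun n e => B3_T k K' n ^ e) = _
      rw [Finsupp.prod_single_index (h := fun n e => B3_T k K' n ^ e) (pow_zero _), pow_one]
    have e2 : (E 2).prod (fun n e => B3_T k K' n ^ e) = algebraMap (Lf k) K' (tt k 1) := by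
      change (Finsupp.single (1 : Fin 2) 1).prod (fun n e => B3_T k K' n ^ e) = _
      rw [Finsupp.prod_single_index (h := fun n e => B3_T k K' n ^ e) (pow_zero _), pow_one]
    rw [e0, e1, e2, hypf]
    ring
  obtain ⟨b₀, hb₀⟩ := hφ
  have hG0 : G ≠ 0 := by
    intro h0
    apply hb₀
    rw [← hco b₀, h0, MvPolynomial.coeff_zero]
  obtain ⟨h4, m, hm, hmin, hord⟩ := B3_ord v w j h1 h2 h3 G hG0
  rw [hev] at h4 hord
  refine ⟨h4, ?_⟩
  rw [hord]
  refine (IsLeast.csInf_eq ⟨?_, ?_⟩).symm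
  · obtain ⟨b, rfl⟩ := hsup m hm
    refine ⟨b, ?_, ?_⟩
    · rw [← hco b]
      exact MvPolynomial.mem_support_iff.1 hm
    · rw [hco b]
  · rintro _ ⟨b, hb, rfl⟩
    have h5 : E b ∈ G.support := by
      rw [MvPolynomial.mem_support_iff, hco b]
      exact hb
    have h6 := hmin _ h5
    rwa [hco b] at h6

end Pool.Agent.LibHL77
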