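import Pool.Agent.LibHL77.A1
import Pool.Agent.LibHL77.B1
import Pool.Agent.LibHL77.B0b
import Pool.Agent.LibCHd.B5
import Pool.Agent.LibCHd.Small

/-!
[HL77 B5] the places of `M(T_1, T_2)` which are not trivial on `M` and contribute to a cycle. Proof as in B4:
`trdeg k (RF w) = d + 2`, `RF w` is finite over `fld q'`, generated over `k` by `j (fld q)` and `T_1, T_2`, so `trdeg (fld q) ≥ d`;
`trdeg (RF v) ≤ d`; so `RF v` is algebraic over `fld q` and `T_1, T_2` are algebraically independent over `fld q`, over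
`RF v`; finite: linear independence over `fld q` and over `fld q (T_1, T_2)`; then `e = 1` and `BE j` by `gauss_char` (B0b) twice
(for `K_1 = i(K)(T_1)` and the restriction of `w`, then for `K' = K_1(T_2)`).
-/

open scoped Classical
open Polynomial

namespace Pool.Agent.LibHL77

open Pool.Agent.LibBH2
open Pool.Agent.LibCHd (VR RF Red FunF)
open Pool.Agent.LibHyp34 (Hyp Pt Pic jP Sp KC DCf gn)
open Pool.Agent.LibHD77
open Pool.Agent.LibCHd (red_zero red_const exists_rep isRes_resF resF)

variable {k : Type} [Field k] {n : ℕ} {F : Fin n → k[X]} {K K' : Type} [Field K] [Algebra k K]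
  [Field K'] [Algebra (Lf k) K'] {i : EHom k (Lf k) K K'}

section gauss

variable {L : Type} [Field L] [Algebra k L] {K₁ : Type} [Field K₁] [Algebra L K₁]

theorem B5_lift (v : Place k K) (P : MvPolynomial (Fin 2) K) (h : ∀ m, P.coeff m ∈ VR v) :
    ∃ P' : MvPolynomial (Fin 2) (VR v), P'.map (VR v).subtype = P := by
  refine ⟨∑ m ∈ P.support, MvPolynomial.monomial m ⟨P.coeff m, h m⟩, ?_⟩
  rw [map_sum]
  simp only [MvPolynomial.map_monomial]
  exact MvPolynomial.support_sum_monomial_coeff P

theorem B5_red (i : EHom k L K K₁) (v : Place k K) (w : Place L K₁)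
    (j : EHom k L (RF v) (RF w)) (hj : ∀ x c, Red v x c → Red w (i.f x) (j.f c))
    (T : Fin 2 → K₁) (t : Fin 2 → RF w) (ht : ∀ a, Red w (T a) (t a))
    (P : MvPolynomial (Fin 2) (VR v)) :
    Red w ((P.map (VR v).subtype).eval₂ i.f T)
      ((P.map (IsLocalRing.residue (VR v))).eval₂ j.f t) := by
  induction P using MvPolynomial.induction_on with
  | C c =>
    rw [MvPolynomial.map_C, MvPolynomial.map_C, MvPolynomial.eval₂_C, MvPolynomial.eval₂_C]
    exact hj _ _ ⟨c.2, rfl⟩
  | add p q hp hq =>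
    rw [map_add, map_add, MvPolynomial.eval₂_add, MvPolynomial.eval₂_add]
    exact hp.add hq
  | mul_X p a hp =>
    rw [map_mul, map_mul, MvPolynomial.map_X, MvPolynomial.map_X, MvPolynomial.eval₂_mul,
      MvPolynomial.eval₂_mul, MvPolynomial.eval₂_X, MvPolynomial.eval₂_X]
    exact hp.mul (ht a)

/-- the normal form of a polynomial: a coefficient of smallest order, and the rest -/
theorem B5_norm (v : Place k K) (P : MvPolynomial (Fin 2) K) (hP : P ≠ 0) :
    ∃ c : K, c ≠ 0 ∧ (∃ m, c = P.coeff m) ∧ (∀ m, P.coeff m ≠ 0 → v.ord c ≤ v.ord (P.coeff m)) ∧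
      ∃ P' : MvPolynomial (Fin 2) (VR v), P = MvPolynomial.C c * P'.map (VR v).subtype ∧
        P'.map (IsLocalRing.residue (VR v)) ≠ 0 := by
  have hne : P.support.Nonempty := MvPolynomial.support_nonempty.2 hP
  obtain ⟨m, hm, hmin⟩ := Finset.exists_min_image P.support (fun m => v.ord (P.coeff m)) hne
  have hc : P.coeff m ≠ 0 := MvPolynomial.mem_support_iff.1 hm
  have hmin' : ∀ m', P.coeff m' ≠ 0 → v.ord (P.coeff m) ≤ v.ord (P.coeff m') := fun m' h =>
    hmin m' (MvPolynomial.mem_support_iff.2 h)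
  have h1 : ∀ m', (MvPolynomial.C (P.coeff m)⁻¹ * P).coeff m' ∈ VR v := by
    intro m'
    rw [MvPolynomial.coeff_C_mul]
    by_cases h0 : P.coeff m' = 0
    · rw [h0, mul_zero]
      exact (VR v).zero_mem
    · refine Or.inr ?_
      rw [v.ord_mul _ _ (inv_ne_zero hc) h0, v.ord_inv]
      have := hmin' m' h0
      omega
  obtain ⟨P', hP'⟩ := B5_lift v _ h1
  refine ⟨P.coeff m, hc, ⟨m, rfl⟩, hmin', P', ?_, ?_⟩
  · rw [hP', ← mul_assoc, ← MvPolynomial.C_mul, mul_inv_cancel₀ hc, MvPolynomial.C_1, one_mul]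
  · intro h0
    have h2 : ((P'.coeff m : VR v) : K) = 1 := by
      have h3 := congrArg (fun Q => MvPolynomial.coeff m Q) hP'
      simp only [MvPolynomial.coeff_map, MvPolynomial.coeff_C_mul] at h3
      rw [inv_mul_cancel₀ hc] at h3
      exact h3
    have h4 : P'.coeff m = 1 := Subtype.ext h2
    have h5 := congrArg (fun Q => MvPolynomial.coeff m Q) h0
    simp only [MvPolynomial.coeff_map, MvPolynomial.coeff_zero, h4, map_one] at h5
    exact one_ne_zero h5

theorem B5_ord (i : EHom k L K K₁) (v : Place k K) (w : Place L K₁)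
    (j : EHom k L (RF v) (RF w)) (hj : ∀ x c, Red v x c → Red w (i.f x) (j.f c))
    (T : Fin 2 → K₁) (t : Fin 2 → RF w) (ht : ∀ a, Red w (T a) (t a))
    (hind : ∀ G : MvPolynomial (Fin 2) (RF v), G ≠ 0 → G.eval₂ j.f t ≠ 0)
    (c : K) (hc : c ≠ 0) (P' : MvPolynomial (Fin 2) (VR v))
    (hP' : P'.map (IsLocalRing.residue (VR v)) ≠ 0) :
    (MvPolynomial.C c * P'.map (VR v).subtype).eval₂ i.f T ≠ 0 ∧
      w.ord ((MvPolynomial.C c * P'.map (VR v).subtype).eval₂ i.f T) = w.ord (i.f c) := by
  have h1 := B5_red i v w j hj T t ht P'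
  have h2 := hind _ hP'
  have h3 : i.f c ≠ 0 := by
    rw [Ne, map_eq_zero]
    exact hc
  rw [MvPolynomial.eval₂_mul, MvPolynomial.eval₂_C]
  refine ⟨mul_ne_zero h3 (h1.ne_zero h2), ?_⟩
  rw [w.ord_mul _ _ h3 (h1.ne_zero h2), h1.ord_eq_zero h2, add_zero]

/-- the characterisation of the Gauss extension, two variables -/
theorem B5_char (i : EHom k L K K₁) (T : Fin 2 → K₁)
    (hgen : ∀ z : K₁, ∃ P Q : MvPolynomial (Fin 2) K, Q ≠ 0 ∧
      z = P.eval₂ i.f T / Q.eval₂ i.f T)
    (v : Place k K) (w : Place L K₁) (e : ℤ) (he : 0 < e) (hv : ∀ x, w.ord (i.f x) = e * v.ord x)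
    (j : EHom k L (RF v) (RF w)) (hj : ∀ x c, Red v x c → Red w (i.f x) (j.f c))
    (t : Fin 2 → RF w) (ht : ∀ a, Red w (T a) (t a))
    (hind : ∀ G : MvPolynomial (Fin 2) (RF v), G ≠ 0 → G.eval₂ j.f t ≠ 0) :
    e = 1 ∧ ∀ z : RF w, ∃ P Q : MvPolynomial (Fin 2) (RF v), Q ≠ 0 ∧
      z = P.eval₂ j.f t / Q.eval₂ j.f t := by
  constructor
  · obtain ⟨z, hz⟩ := w.exists_uniformizer
    obtain ⟨P, Q, hQ, rfl⟩ := hgen z
    have hP : P ≠ 0 := by
      rintro rfl
      rw [MvPolynomial.eval₂_zero, zero_div, w.ord_zero] at hz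
      exact zero_ne_one hz
    obtain ⟨c, hc, -, -, P', rfl, hP'⟩ := B5_norm v P hP
    obtain ⟨c₁, hc₁, -, -, Q', rfl, hQ'⟩ := B5_norm v Q hQ
    obtain ⟨a1, a2⟩ := B5_ord i v w j hj T t ht hind c hc P' hP'
    obtain ⟨b1, b2⟩ := B5_ord i v w j hj T t ht hind c₁ hc₁ Q' hQ'
    rw [w.ord_div _ _ a1 b1, a2, b2, hv, hv, ← mul_sub] at hz
    exact Int.eq_one_of_mul_eq_one_right he.le hz
  · intro z
    obtain ⟨x, hx⟩ := exists_rep z
    obtain ⟨P, Q, hQ, rfl⟩ := hgen x
    obtain ⟨c₁, hc₁, -, -, Q', rfl, hQ'⟩ := B5_norm v Q hQ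
    have hic : i.f c₁ ≠ 0 := by
      rw [Ne, map_eq_zero]
      exact hc₁
    have hQr := B5_red i v w j hj T t ht Q'
    have hQ0 := hind _ hQ'
    have hQn := hQr.ne_zero hQ0
    -- divide by `c₁`
    have e1 : P.eval₂ i.f T / (MvPolynomial.C c₁ * Q'.map (VR v).subtype).eval₂ i.f T =
        (MvPolynomial.C c₁⁻¹ * P).eval₂ i.f T / (Q'.map (VR v).subtype).eval₂ i.f T := by
      rw [MvPolynomial.eval₂_mul, MvPolynomial.eval₂_mul, MvPolynomial.eval₂_C,
        MvPolynomial.eval₂_C, map_inv₀]
      field_simp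
    rw [e1] at hx
    set P₁ := MvPolynomial.C c₁⁻¹ * P with hP₁
    have hreg : Red w (P₁.eval₂ i.f T)
        (z * (Q'.map (IsLocalRing.residue (VR v))).eval₂ j.f t) := by
      have h6 := hx.mul hQr
      rwa [div_mul_cancel₀ _ hQn] at h6
    by_cases hP0 : P₁ = 0
    · refine ⟨0, 1, one_ne_zero, ?_⟩
      rw [hP0, MvPolynomial.eval₂_zero, zero_div] at hx
      rw [MvPolynomial.eval₂_zero, zero_div]
      exact hx.unique (red_zero w)
    · obtain ⟨c, hc, ⟨m, hm⟩, hmin, P', hPP, hP'⟩ := B5_norm v P₁ hP0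
      obtain ⟨a1, a2⟩ := B5_ord i v w j hj T t ht hind c hc P' hP'
      rw [← hPP] at a1 a2
      have h7 : 0 ≤ w.ord (i.f c) := by
        rw [← a2]
        exact (hreg.reg).resolve_left a1
      have h8 : 0 ≤ v.ord c := by
        rw [hv] at h7
        exact nonneg_of_mul_nonneg_right h7 he
      have h9 : ∀ m, P₁.coeff m ∈ VR v := by
        intro m
        by_cases h0 : P₁.coeff m = 0
        · rw [h0]
          exact (VR v).zero_mem
        · exact Or.inr (h8.trans (hmin m h0))
      obtain ⟨P₂, hP₂⟩ := B5_lift v P₁ h9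
      refine ⟨P₂.map (IsLocalRing.residue (VR v)), Q'.map (IsLocalRing.residue (VR v)), hQ', ?_⟩
      have h10 := B5_red i v w j hj T t ht P₂
      rw [hP₂] at h10
      exact hx.unique (h10.div hQr hQ0)

end gauss

theorem B5_alg_eval {M' : Type} [Field M'] [Algebra (Lf k) M'] (i : EHom k (Lf k) K M')
    (G : MvPolynomial (Fin 2) k) :
    algebraMap (Lf k) M' (algebraMap (MvPolynomial (Fin 2) k) (Lf k) G) =
      (G.map (algebraMap k K)).eval₂ i.f (fun a => algebraMap (Lf k) M' (tt k a)) := by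
  have h1 : (algebraMap (Lf k) M').comp (algebraMap (MvPolynomial (Fin 2) k) (Lf k)) =
      (MvPolynomial.eval₂Hom i.f (fun a => algebraMap (Lf k) M' (tt k a))).comp
        (MvPolynomial.map (algebraMap k K)) := by
    apply MvPolynomial.ringHom_ext
    · intro c
      simp [IsScalarTower.algebraMap_apply k (MvPolynomial (Fin 2) k) (Lf k), i.comm]
    · intro a
      simp [tt]
  exact RingHom.congr_fun h1 G

/-- the elements of `K'` are rational functions of the two variables -/
theorem B5_gen (hi : BE i) (z : K') : ∃ P Q : MvPolynomial (Fin 2) K, Q ≠ 0 ∧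
    z = P.eval₂ i.f (fun a => algebraMap (Lf k) K' (tt k a)) /
      Q.eval₂ i.f (fun a => algebraMap (Lf k) K' (tt k a)) := by
  have hz : z ∈ IntermediateField.adjoin (Lf k) (Set.range i.f) := by
    rw [hi.gen]
    exact IntermediateField.mem_top
  induction hz using IntermediateField.adjoin_induction with
  | mem x hx =>
    obtain ⟨x, rfl⟩ := hx
    refine ⟨MvPolynomial.C x, 1, one_ne_zero, ?_⟩
    rw [MvPolynomial.eval₂_C, MvPolynomial.eval₂_one, div_one]
  | algebraMap x =>
    obtain ⟨p, q, hq, rfl⟩ := IsFractionRing.div_surjective (A := MvPolynomial (Fin 2) k) x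
    refine ⟨p.map (algebraMap k K), q.map (algebraMap k K), ?_, ?_⟩
    · intro h0
      exact nonZeroDivisors.ne_zero hq
        (MvPolynomial.map_injective _ (algebraMap k K).injective (by rw [h0, map_zero]))
    · rw [map_div₀, B5_alg_eval i, B5_alg_eval i]
  | add x y _ _ hx hy =>
    obtain ⟨P, Q, hQ, rfl⟩ := hx
    obtain ⟨P', Q', hQ', rfl⟩ := hy
    refine ⟨P * Q' + Q * P', Q * Q', mul_ne_zero hQ hQ', ?_⟩
    rw [div_add_div _ _ (hi.ind Q hQ) (hi.ind Q' hQ'), MvPolynomial.eval₂_add,
      MvPolynomial.eval₂_mul, MvPolynomial.eval₂_mul, MvPolynomial.eval₂_mul]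
  | inv x _ hx =>
    obtain ⟨P, Q, hQ, rfl⟩ := hx
    by_cases hP : P = 0
    · refine ⟨0, 1, one_ne_zero, ?_⟩
      rw [hP, MvPolynomial.eval₂_zero, zero_div, inv_zero, zero_div]
    · exact ⟨Q, P, hP, by rw [inv_div]⟩
  | mul x y _ _ hx hy =>
    obtain ⟨P, Q, hQ, rfl⟩ := hx
    obtain ⟨P', Q', hQ', rfl⟩ := hy
    refine ⟨P * P', Q * Q', mul_ne_zero hQ hQ', ?_⟩
    rw [div_mul_div_comm, MvPolynomial.eval₂_mul, MvPolynomial.eval₂_mul]

section key

theorem B5_fin_range {C B R : Type} [Field C] [Field B] [Field R] [Algebra C R] [Algebra B R]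
    (h : ∀ c : C, ∃ b : B, algebraMap B R b = algebraMap C R c) [hC : Module.Finite C R] :
    Module.Finite B R := by
  obtain ⟨s, hs⟩ := hC.fg_top
  refine ⟨⟨s, ?_⟩⟩
  rw [eq_top_iff]
  rintro x -
  have hx : x ∈ Submodule.span C (s : Set R) := by
    rw [hs]
    trivial
  induction hx using Submodule.span_induction with
  | mem x hx => exact Submodule.subset_span hx
  | zero => exact zero_mem _
  | add x y _ _ hx hy => exact add_mem hx hy
  | smul c x _ hx =>
    obtain ⟨b, hb⟩ := h c
    rw [Algebra.smul_def, ← hb, ← Algebra.smul_def]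
    exact Submodule.smul_mem _ _ hx

theorem B5_trdeg_Lf : Algebra.trdeg k (Lf k) = 2 := by
  have h0 : Algebra.trdeg (MvPolynomial (Fin 2) k) (Lf k) = 0 := by
    have : Algebra.IsAlgebraic (MvPolynomial (Fin 2) k) (Lf k) :=
      IsLocalization.isAlgebraic _ (nonZeroDivisors (MvPolynomial (Fin 2) k))
    exact _root_.trdeg_eq_zero
  have h1 := _root_.trdeg_add_eq k (MvPolynomial (Fin 2) k) (A := Lf k)
  rw [h0, MvPolynomial.trdeg_of_isDomain, add_zero] at h1
  rw [← h1]
  simp

theorem B5_fin {R : Type} [Field R] [Algebra (Lf k) R] [Algebra k R] [IsScalarTower k (Lf k) R]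
    {A : Type} [Field A] [Algebra A R] (S₀ : Set R)
    (hk : ∀ c : k, ∃ a : A, algebraMap A R a = algebraMap k R c)
    (hS : ∀ s ∈ S₀, ∃ a : A, algebraMap A R a = s)
    [FiniteDimensional (IntermediateField.adjoin (Lf k) S₀) R] :
    Module.Finite (IntermediateField.adjoin A
      (Set.range fun a => algebraMap (Lf k) R (tt k a))) R := by
  set B := IntermediateField.adjoin A (Set.range fun a => algebraMap (Lf k) R (tt k a)) with hB
  have hA : ∀ a : A, algebraMap A R a ∈ B := fun a => B.algebraMap_mem a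
  have hT : ∀ a, algebraMap (Lf k) R (tt k a) ∈ B := fun a =>
    IntermediateField.subset_adjoin A _ ⟨a, rfl⟩
  have hp : ∀ p : MvPolynomial (Fin 2) k,
      algebraMap (Lf k) R (algebraMap (MvPolynomial (Fin 2) k) (Lf k) p) ∈ B := by
    intro p
    induction p using MvPolynomial.induction_on with
    | C c =>
      have h1 : algebraMap (Lf k) R (algebraMap (MvPolynomial (Fin 2) k) (Lf k)
          (MvPolynomial.C c)) = algebraMap k R c := by
        rw [IsScalarTower.algebraMap_apply k (Lf k) R,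
          IsScalarTower.algebraMap_apply k (MvPolynomial (Fin 2) k) (Lf k)]
        rfl
      rw [h1]
      obtain ⟨a, ha⟩ := hk c
      rw [← ha]
      exact hA a
    | add p q hp hq =>
      rw [map_add, map_add]
      exact add_mem hp hq
    | mul_X p a hp =>
      rw [map_mul, map_mul]
      exact mul_mem hp (hT a)
  have hc : ∀ c ∈ IntermediateField.adjoin (Lf k) S₀, c ∈ B := by
    intro c hc
    induction hc using IntermediateField.adjoin_induction with
    | mem x hx =>
      obtain ⟨a, ha⟩ := hS x hx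
      rw [← ha]
      exact hA a
    | algebraMap x =>
      obtain ⟨p, q, hq, rfl⟩ := IsFractionRing.div_surjective (A := MvPolynomial (Fin 2) k) x
      rw [map_div₀]
      exact div_mem (hp p) (hp q)
    | add x y _ _ hx hy => exact add_mem hx hy
    | inv x _ hx => exact inv_mem hx
    | mul x y _ _ hx hy => exact mul_mem hx hy
  exact B5_fin_range (C := IntermediateField.adjoin (Lf k) S₀) (B := B)
    (fun c => ⟨⟨c.1, hc c.1 c.2⟩, rfl⟩)

open scoped IntermediateField.algebraAdjoinAdjoin in
theorem B5_lin {A E R : Type} [Field A] [Field E] [Field R] [Algebra A E] [Algebra E R]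
    [Algebra A R] [IsScalarTower A E R] (T : Fin 2 → R) (hT : AlgebraicIndependent E T)
    [Module.Finite (IntermediateField.adjoin A (Set.range T)) R] : Module.Finite A E := by
  let b := Module.Basis.ofVectorSpace A E
  have h1 : LinearIndependent (Algebra.adjoin A (Set.range T)) (fun l => algebraMap E R (b l)) := by
    rw [linearIndependent_iff']
    intro s g hg l hl
    have h2 : ∀ l, ∃ p : MvPolynomial (Fin 2) A, MvPolynomial.aeval T p = (g l : R) := by
      intro l
      have h3 : ∀ x ∈ Algebra.adjoin A (Set.range T), ∃ p : MvPolynomial (Fin 2) A,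
          MvPolynomial.aeval T p = x := by
        intro x hx
        rw [Algebra.adjoin_range_eq_range_aeval] at hx
        exact hx
      exact h3 _ (g l).2
    choose p hp using h2
    have h4 : MvPolynomial.aeval T (∑ l ∈ s, MvPolynomial.C (b l) * (p l).map (algebraMap A E)) =
        0 := by
      rw [map_sum, ← hg]
      refine Finset.sum_congr rfl fun l _ => ?_
      rw [map_mul, MvPolynomial.aeval_C, MvPolynomial.aeval_map_algebraMap, hp l]
      rw [Algebra.smul_def, mul_comm]
      rfl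
    have h5 := hT.eq_zero_of_aeval_eq_zero _ h4
    have h6 : p l = 0 := by
      ext m
      have h7 := congrArg (MvPolynomial.coeff m) h5
      simp only [MvPolynomial.coeff_sum, MvPolynomial.coeff_C_mul, MvPolynomial.coeff_map,
        MvPolynomial.coeff_zero] at h7
      have h8 := b.linearIndependent
      rw [linearIndependent_iff'] at h8
      have h9 := h8 s (fun l => (p l).coeff m) (by simpa [Algebra.smul_def, mul_comm] using h7) l hl
      simpa using h9
    apply Subtype.ext
    rw [← hp l, h6, map_zero]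
    rfl
  have h10 : LinearIndependent (IntermediateField.adjoin A (Set.range T))
      (fun l => algebraMap E R (b l)) :=
    (LinearIndependent.iff_fractionRing (Algebra.adjoin A (Set.range T))
      (IntermediateField.adjoin A (Set.range T))).1 h1
  have h11 := h10.finite
  exact Module.Finite.of_basis b

theorem B5_key {d : ℕ} {E R : Type} [Field E] [Algebra k E] [Field R] [Algebra (Lf k) R]
    [Algebra k R] [IsScalarTower k (Lf k) R] [Algebra E R] [IsScalarTower k E R]
    (hR : FunF (Lf k) d R) (hE : Algebra.trdeg k E ≤ d) (S : Set E)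
    [FiniteDimensional (IntermediateField.adjoin (Lf k) (algebraMap E R '' S)) R] :
    AlgebraicIndependent E (fun a => algebraMap (Lf k) R (tt k a)) ∧ Algebra.trdeg k E = d ∧
      Module.Finite (IntermediateField.adjoin k S) E := by
  set T : Fin 2 → R := fun a => algebraMap (Lf k) R (tt k a) with hT
  have h1 : Algebra.trdeg k R = 2 + d := by
    rw [← _root_.trdeg_add_eq k (Lf k) (A := R), B5_trdeg_Lf, Pool.Agent.LibCHd.FunF.trdeg hR]
  have h2 := _root_.trdeg_add_eq k E (A := R)
  rw [h1] at h2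
  obtain ⟨e, he⟩ := Cardinal.lt_aleph0.1 (lt_of_le_of_lt hE (Cardinal.natCast_lt_aleph0))
  have hed : e ≤ d := by
    rw [he] at hE
    exact_mod_cast hE
  obtain ⟨g, hg⟩ : ∃ g : ℕ, Algebra.trdeg E R = g := by
    refine Cardinal.lt_aleph0.1 (lt_of_le_of_lt (b := ((2 + d : ℕ) : Cardinal)) ?_
      (Cardinal.natCast_lt_aleph0))
    push_cast
    rw [← h2]
    exact le_add_self
  have heg : e + g = 2 + d := by
    rw [he, hg] at h2
    exact_mod_cast h2
  have hfE : Module.Finite (IntermediateField.adjoin E (Set.range T)) R :=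
    B5_fin (A := E) (algebraMap E R '' S)
      (fun c => ⟨algebraMap k E c, (IsScalarTower.algebraMap_apply k E R c).symm⟩)
      (fun s hs => by
        obtain ⟨a, -, rfl⟩ := hs
        exact ⟨a, rfl⟩)
  have halg : Algebra.IsAlgebraic (Algebra.adjoin E (Set.range T)) R :=
    IntermediateField.isAlgebraic_adjoin_iff_top.1 inferInstance
  have hbas : IsTranscendenceBasis E T := by
    refine Algebra.IsAlgebraic.isTranscendenceBasis_of_le_trdeg_of_finite E T ?_
    rw [hg, Cardinal.mk_fin]
    have : 2 ≤ g := by omega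
    exact_mod_cast this
  have hg2 : g = 2 := by
    have h3 := hbas.cardinalMk_eq_trdeg
    rw [hg, Cardinal.mk_fin] at h3
    exact_mod_cast h3.symm
  refine ⟨hbas.1, ?_, ?_⟩
  · rw [he]
    have : e = d := by omega
    rw [this]
  · let A := IntermediateField.adjoin k S
    have hfA : Module.Finite (IntermediateField.adjoin A (Set.range T)) R :=
      B5_fin (A := A) (algebraMap E R '' S)
        (fun c => ⟨algebraMap k A c, (IsScalarTower.algebraMap_apply k E R c).symm⟩)
        (fun s hs => by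
          obtain ⟨a, ha, rfl⟩ := hs
          exact ⟨⟨a, IntermediateField.subset_adjoin k S ha⟩, rfl⟩)
    exact B5_lin (A := A) T hbas.1

theorem B5_funF {d : ℕ} {E : Type} [Field E] [Algebra k E] (hd : Algebra.trdeg k E = d)
    (S : Set E) (hS : S.Finite) [Module.Finite (IntermediateField.adjoin k S) E] :
    FunF k d E := by
  have halg : Algebra.IsAlgebraic (Algebra.adjoin k S) E :=
    IntermediateField.isAlgebraic_adjoin_iff_top.1 inferInstance
  obtain ⟨t, htS, ht⟩ := isAlgebraic_iff_exists_isTranscendenceBasis_subset.1 halg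
  have h1 : Cardinal.mk t = d := by
    rw [ht.cardinalMk_eq_trdeg, hd]
  obtain ⟨ε⟩ : Nonempty (Fin d ≃ t) := by
    rw [← Cardinal.eq, h1, Cardinal.mk_fin]
  have hr : Set.range (fun l => ((ε l : t) : E)) = t := by
    ext x
    constructor
    · rintro ⟨l, rfl⟩
      exact (ε l).2
    · intro hx
      exact ⟨ε.symm ⟨x, hx⟩, by simp⟩
  refine ⟨fun l => ε l, ht.1.comp ε ε.injective, ?_⟩
  rw [hr]
  let D := IntermediateField.adjoin k t
  have h2 : Algebra.IsAlgebraic D E := by
    have h3 := ht.isAlgebraic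
    rw [Subtype.range_coe] at h3
    exact IntermediateField.isAlgebraic_adjoin_iff_top.2 h3
  have h4 : FiniteDimensional D (IntermediateField.adjoin D S) := by
    have := hS.to_subtype
    exact IntermediateField.finiteDimensional_adjoin fun x _ =>
      (Algebra.IsAlgebraic.isAlgebraic x).isIntegral
  have h5 : Module.Finite (IntermediateField.adjoin D S) E := by
    refine B5_fin_range (C := IntermediateField.adjoin k S) fun c => ?_
    have h6 : ∀ c ∈ IntermediateField.adjoin k S, c ∈ IntermediateField.adjoin D S := by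
      intro c hc
      induction hc using IntermediateField.adjoin_induction with
      | mem x hx => exact IntermediateField.subset_adjoin D S hx
      | algebraMap x =>
        exact (IntermediateField.adjoin D S).algebraMap_mem (algebraMap k D x)
      | add x y _ _ hx hy => exact add_mem hx hy
      | inv x _ hx => exact inv_mem hx
      | mul x y _ _ hx hy => exact mul_mem hx hy
    exact ⟨⟨c.1, h6 c.1 c.2⟩, rfl⟩
  exact Module.Finite.trans (IntermediateField.adjoin D S) E

end key

/-- the transcendence degree of the residue field -/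
theorem B5_trdeg {d : ℕ} (hK : FunF k (d + 1) K) (v : Place k K) (x₀ : K) (h : v.ord x₀ ≠ 0) :
    Algebra.trdeg k (RF v) ≤ d := by
  have h1 := Pool.Agent.LibCHd.trdeg_resField (d := d + 1) (M := K)
    (Pool.Agent.LibCHd.FunF.trdeg hK).le (isRes_resF v) (AlgHom.id k K) ⟨x₀, h⟩
  have h2 : Pool.Agent.LibCHd.resField (isRes_resF v) (AlgHom.id k K) = ⊤ := by
    rw [eq_top_iff]
    rintro c -
    obtain ⟨x, hx⟩ := exists_rep c
    obtain ⟨h3, h4⟩ := Pool.Agent.LibCHd.red_iff.1 hx
    exact ⟨x, h3, h4⟩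
  rw [h2, IntermediateField.topEquiv.trdeg_eq] at h1
  obtain ⟨e, he⟩ := Cardinal.lt_aleph0.1 (lt_trans h1 (Cardinal.natCast_lt_aleph0 (n := d + 1)))
  rw [he] at h1 ⊢
  have h5 : e < d + 1 := by exact_mod_cast h1
  exact_mod_cast Nat.lt_succ_iff.1 h5

theorem be_places {d : ℕ} (hK : FunF k (d + 1) K) (u : Pnt F K)
    (hi : BE i) (w : Place (Lf k) K') (hw : FunF (Lf k) d (RF w)) (x₀ : K)
    (h : w.ord (i.f x₀) ≠ 0) (q' : Pnt (ext (Lf k) F) (RF w))
    (hq' : ∀ a, SpR w (lftP i u a) (q' a)) (hc : cyc q' ≠ 0) :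
    ∃ (v : Place k K) (q : Pnt F (RF v)) (j : EHom k (Lf k) (RF v) (RF w)),
      (∀ x, w.ord (i.f x) = v.ord x) ∧ FunF k d (RF v) ∧ (∀ a, SpR v (u a) (q a)) ∧
      (∀ x c, Red v x c → Red w (i.f x) (j.f c)) ∧ BE j ∧ q' = lftP j q := by
  obtain ⟨v, e, he, hv⟩ := exists_restr i w x₀ h
  obtain ⟨j, hj⟩ := exists_resHom i v w e he hv
  choose q hq using fun a => SpR_exists v (u a)
  have hqq : q' = lftP j q := funext fun a =>
    SpR_unique (hq' a) (SpR_lft i v w e he hv j hj (u a) (q a) (hq a))
  have hfin : Module.finrank (fld q') (RF w) ≠ 0 := (cyc_ne_zero_iff q').1 hc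
  have hco : Set.range (co q') = j.f '' Set.range (co q) := by
    rw [hqq, ← Set.range_comp]
    congr 1
    funext a
    exact co_lftP j q a
  let algER : Algebra (RF v) (RF w) := j.f.toAlgebra
  let algkR : Algebra k (RF w) := ((algebraMap (Lf k) (RF w)).comp (algebraMap k (Lf k))).toAlgebra
  have : IsScalarTower k (Lf k) (RF w) := IsScalarTower.of_algebraMap_eq fun _ => rfl
  have : IsScalarTower k (RF v) (RF w) := IsScalarTower.of_algebraMap_eq fun c => (j.comm c).symm
  have hord : v.ord x₀ ≠ 0 := by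
    intro h0
    apply h
    rw [hv, h0, mul_zero]
  have hfd : FiniteDimensional (IntermediateField.adjoin (Lf k)
      (algebraMap (RF v) (RF w) '' Set.range (co q))) (RF w) := by
    have h1 : fld q' = IntermediateField.adjoin (Lf k)
        (algebraMap (RF v) (RF w) '' Set.range (co q)) := by
      unfold fld
      rw [hco]
      rfl
    rw [← h1]
    exact FiniteDimensional.of_finrank_pos (Nat.pos_of_ne_zero hfin)
  obtain ⟨h1, h2, h3⟩ := B5_key hw (B5_trdeg hK v x₀ hord) (Set.range (co q))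
  have hind : ∀ G : MvPolynomial (Fin 2) (RF v), G ≠ 0 →
      G.eval₂ j.f (fun a => algebraMap (Lf k) (RF w) (tt k a)) ≠ 0 := by
    intro G hG h0
    exact hG (h1.eq_zero_of_aeval_eq_zero G h0)
  obtain ⟨rfl, h5⟩ := B5_char i _ (B5_gen hi) v w e he hv j hj _
    (fun a => red_const w (tt k a)) hind
  refine ⟨v, q, j, fun x => by rw [hv, one_mul], B5_funF h2 (Set.range (co q)) (Set.finite_range _), hq, hj,
    ⟨?_, hind⟩, hqq⟩
  rw [eq_top_iff]
  rintro z -
  obtain ⟨P, Q, -, rfl⟩ := h5 z
  have h6 : ∀ P : MvPolynomial (Fin 2) (RF v),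
      P.eval₂ j.f (fun a => algebraMap (Lf k) (RF w) (tt k a)) ∈
        IntermediateField.adjoin (Lf k) (Set.range j.f) := by
    intro P
    induction P using MvPolynomial.induction_on with
    | C c =>
      rw [MvPolynomial.eval₂_C]
      exact IntermediateField.subset_adjoin _ _ ⟨c, rfl⟩
    | add p q hp hq =>
      rw [MvPolynomial.eval₂_add]
      exact add_mem hp hq
    | mul_X p a hp =>
      rw [MvPolynomial.eval₂_mul, MvPolynomial.eval₂_X]
      exact mul_mem hp ((IntermediateField.adjoin (Lf k) (Set.range j.f)).algebraMap_mem _)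
  exact div_mem (h6 P) (h6 Q)

end Pool.Agent.LibHL77
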