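import Pool.Agent.LibHL77.E2
import Pool.Agent.LibHL77.B3
import Pool.Agent.LibHL77.B5
import Pool.Agent.LibHL77.B6

/-!
[HL77 B8] the generic hyperplane section is equivalent to the base change of every hyperplane section. Proof. `M', i` from
`exists_be`; `IsDiv (ext (Lf k) F) d (Γ (cyc u) - B c)` with `M'` (`be_funF`), `lftP i u`, the function
`hypf i (φ u) / i (φ u z)`, and the places `w_0` of `hyp_place` (order `1`, cycle `cyc (lftP j u) = Γ (cyc u)`) and `w_v`
of `gauss_be` for `v ∈ S` (order `- mult (φ u) z v` by `ord_hyp`, cycle `cyc (lftP j q_v) = B (C v)`); `w_0` is trivial on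
`M`, the `w_v` lie over different places (a place with `v.ord = 0` everywhere does not exist). Let `w` be another place
where the function has an order `≠ 0`, `FunF (Lf k) d (RF w)`, `q'` a specialisation with `cyc q' ≠ 0`. If `w` is trivial on `M`:
`hyp_places`, `hyp_unique`: `w = w_0`. Otherwise `be_places` gives `v`, `q`, `BE j`, and by `ord_hyp` `mult (φ u) z v ≠ 0`; if
`v ∉ S` then `cyc q = 0` and `cyc q' = B (cyc q) = 0`; if `v ∈ S` then `w = w_v` (`gauss_be_unique`).
-/

open scoped Classical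
open Polynomial

namespace Pool.Agent.LibHL77

open Pool.Agent.LibBH2
open Pool.Agent.LibCHd (VR RF Red FunF)
open Pool.Agent.LibHyp34 (Hyp Pt Pic jP Sp KC DCf gn)
open Pool.Agent.LibHD77

variable {k : Type} [Field k] {n : ℕ} {F : Fin n → k[X]}

theorem LG (φ : Mor F) {d : ℕ} {Γ B : Cyc k n →+ Cyc (Lf k) n} (hΓ : IsG φ d Γ)
    (hB : IsB F d B) {M : Type} [Field M] [Algebra k M] (hM : FunF k (d + 1) M) (u : Pnt F M)
    (hnc : NC k (φ.φ M u)) (z : Fin 3) (hz : φ.φ M u z ≠ 0) (c : Cyc k n)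
    (hc : IsZ (φ.φ M u) z u d c) :
    Γ (cyc u) - B c ∈ RatEq (ext (Lf k) F) d := by
  obtain ⟨S, C, hS, hout, hcc⟩ := hc
  obtain ⟨M', _, _, i, hi⟩ := exists_be (k := k) M
  set ph := φ.φ M u with hph
  have hphi : ∃ b, ph b ≠ 0 := ⟨z, hz⟩
  obtain ⟨w0, j0, h01, h02, h03, h04⟩ := hyp_place hi ph hnc
  choose W J hW1 hW2 hW3 using fun v : Place k M => gauss_be hi v
  have hiz : i.f (ph z) ≠ 0 := (map_ne_zero i.f).2 hz
  have hH0 : hypf i ph ≠ 0 := by
    intro h
    rw [h, w0.ord_zero] at h04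
    exact zero_ne_one h04
  have hordg : ∀ w : Place (Lf k) M', w.ord (hypf i ph / i.f (ph z)) =
      w.ord (hypf i ph) - w.ord (i.f (ph z)) := fun w => w.ord_div _ _ hH0 hiz
  have hmult : ∀ (v : Place k M) (w : Place (Lf k) M') (j : EHom k (Lf k) (RF v) (RF w)),
      (∀ x, w.ord (i.f x) = v.ord x) → (∀ x c, Red v x c → Red w (i.f x) (j.f c)) → BE j →
      w.ord (hypf i ph / i.f (ph z)) = - mult ph z v := by
    intro v w j h1 h2 h3
    rw [hordg, (ord_hyp hi v w j h1 h2 h3 ph hphi).2, h1]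
    unfold mult
    ring
  have hWinj : Function.Injective W := by
    intro v v' h
    apply Place.ext'
    intro f
    rw [← hW1 v f, h, hW1 v' f]
  have hW0 : ∀ v, W v ≠ w0 := by
    intro v h
    obtain ⟨t, ht⟩ := v.exists_uniformizer
    have h1 := hW1 v t
    rw [h, h01, ht] at h1
    exact zero_ne_one h1
  let C' : Place (Lf k) M' → Cyc (Lf k) n := fun w =>
    if h : ∃ v ∈ S, W v = w then B (C h.choose) else Γ (cyc u)
  have hC0 : C' w0 = Γ (cyc u) := dif_neg (by
    rintro ⟨v, _, h⟩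
    exact hW0 v h)
  have hCW : ∀ v ∈ S, C' (W v) = B (C v) := by
    intro v hv
    have h : ∃ v' ∈ S, W v' = W v := ⟨v, hv, rfl⟩
    have h1 : C' (W v) = B (C h.choose) := dif_pos h
    rw [h1, hWinj h.choose_spec.2]
  apply AddSubgroup.subset_closure
  refine ⟨M', inferInstance, inferInstance, lftP i u, hypf i ph / i.f (ph z),
    insert w0 (S.image W), C', be_funF hi hM, div_ne_zero hH0 hiz, ?_, ?_, ?_⟩
  · intro w hw
    rcases Finset.mem_insert.1 hw with h | hw
    · subst h
      refine ⟨he_funF h03 hphi hM, lftP j0 u, fun a => SpR_lft_triv i w j0 h02 (u a), ?_⟩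
      rw [hC0]
      exact (hΓ M u hM).1 _ j0 h03
    · obtain ⟨v, hv, rfl⟩ := Finset.mem_image.1 hw
      obtain ⟨h1, q, h2, h3⟩ := hS v hv
      refine ⟨be_funF (hW3 v) h1, lftP (J v) q, fun a => SpR_lft i v (W v) 1 one_pos
        (fun x => by rw [one_mul, hW1]) (J v) (hW2 v) _ _ (h2 a), ?_⟩
      rw [hCW v hv, h3]
      exact hB (RF v) q h1 _ (J v) (hW3 v)
  · intro w hw hg hF q' hq'
    by_contra hc0
    by_cases hx : ∀ x, w.ord (i.f x) = 0
    · have h1 : w.ord (hypf i ph) ≠ 0 := by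
        rw [hordg, hx, sub_zero] at hg
        exact hg
      obtain ⟨j, h2, h3, -⟩ := hyp_places hM u hi ph hnc w hF hx h1 q' hq' hc0
      have h4 := hyp_unique hi ph hnc w w0 j j0 hx h2 h3 h01 h02 h03
      exact hw (h4 ▸ Finset.mem_insert_self _ _)
    · push Not at hx
      obtain ⟨x₀, hx₀⟩ := hx
      obtain ⟨v, q, j, h1, h2, h3, h4, h5, h6⟩ := be_places hM u hi w hF x₀ hx₀ q' hq' hc0
      have h7 : mult ph z v ≠ 0 := by
        intro h
        rw [hmult v w j h1 h4 h5, h, neg_zero] at hg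
        exact hg rfl
      by_cases hv : v ∈ S
      · have h8 := gauss_be_unique hi v w (W v) j (J v) h1 h4 h5 (hW1 v) (hW2 v) (hW3 v)
        exact hw (Finset.mem_insert_of_mem (h8 ▸ Finset.mem_image_of_mem W hv))
      · have h8 := hout v hv h7 h2 q h3
        have h9 := hB (RF v) q h2 _ j h5
        rw [h8, map_zero] at h9
        exact hc0 (h6 ▸ h9.symm)
  · have hnot : w0 ∉ S.image W := by
      intro h
      obtain ⟨v, _, hv⟩ := Finset.mem_image.1 h
      exact hW0 v hv
    rw [Finset.sum_insert hnot, Finset.sum_image (fun v _ v' _ h => hWinj h), hC0, hordg, h04,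
      h01, sub_zero, one_smul, hcc, map_sum, sub_eq_add_neg, ← Finset.sum_neg_distrib]
    congr 1
    refine Finset.sum_congr rfl fun v hv => ?_
    rw [hCW v hv, hmult v (W v) (J v) (hW1 v) (hW2 v) (hW3 v), map_zsmul, neg_smul]

end Pool.Agent.LibHL77
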