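import Pool.Agent.LibHL77.NDefs

/-!
[HL77 N3] the divisor of zeros for two free points. Let `φ = (j x - X, j y + Y, j y X ^ g + Y (j x) ^ g)`, `mult φ 0`. Proof: `four` gives
`j'`, `w`. `S = {w 0, w 2, w 3}` (or all four, with `mult φ 0 (w 1) = 0`). At `w 0` the orders of the `φ j` are `1, 0, ≥ 0` (`j y + Y ↦ 2 y`): `mult = 1`;
at `w 1`: `1`, `≥ 1` (`j y + Y = (f(j x) - f(X)) / (j y - Y)`, `j y - Y ↦ 2 y`), `≥ 1`: `mult = 0`; at `w 2`: `-2`, `-(2g+1)`,
`-(2g+1)` (`2 ord Y = (2g+1) ord X`; `ord (j y X ^ g) ≥ -2g`): `mult = 2 g - 1`; the same at `w 3`. Residue fields `M` (`exists_res_equiv`, for `w 3` with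
`j'`), specialisations: at `w 0`: `ev2 T i (x, y) (x, y)`; at `w 2`: `ev2 T i (x, y) none`; at `w 3`: `ev2 T i none (x, y)` (`X = j' x`).
Another place with `mult φ 0 v ≠ 0`: if `X` and `j x` are regular then all `φ j` are, so `v.Zer (X - j x)`; so the last
statement of `four` applies, and `cyc_zero_of_M` with `j` or `j'` (`d + 1`) as in LibHD77/L3.lean.
-/

open scoped Classical
open Polynomial

namespace Pool.Agent.LibHL77

open Pool.Agent.LibBH2
open Pool.Agent.LibCHd (VR RF Red FunF IsCps)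
open Pool.Agent.LibHyp34 (Hyp Pt Pic jP Sp KC DCf gn)
open Pool.Agent.LibHD77
open Pool.Agent.LibHD77.Comb (Pat sub Cmp)

variable {k : Type} [Field k] [CharZero k] {n : ℕ} {F : Fin n → k[X]} {M₀ M K : Type} [Field M₀]
  [Algebra k M₀] [Field M] [Algebra k M] [Field K] [Algebra k K]

section aux

variable {k : Type} [Field k] {M K : Type} [Field M] [Algebra k M] [Field K] [Algebra k K]

theorem N3_mult_eq {φ : Fin 3 → K} {z b : Fin 3} {v : Place k K} (hb : φ b ≠ 0)
    (h : ∀ j, φ j ≠ 0 → v.ord (φ b) ≤ v.ord (φ j)) : mult φ z v = v.ord (φ z) - v.ord (φ b) := by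
  unfold mult
  congr 1
  apply IsLeast.csInf_eq
  refine ⟨⟨b, hb, rfl⟩, ?_⟩
  rintro m ⟨j, hj, rfl⟩
  exact h j hj

theorem N3_eq {f : k[X]} {x y : M} (h : y ^ 2 = aeval x f) :
    (((1 : ℤˣ) : ℤ) : M) * y = y ∧ ((((1 : ℤˣ) : ℤ) : M) * y) ^ 2 = (f.map (algebraMap k M)).eval x := by
  have e : (((1 : ℤˣ) : ℤ) : M) * y = y := by simp
  refine ⟨e, ?_⟩
  rw [eval_map_algebraMap, ← h, e]

theorem N3_sg {f : k[X]} {x y : M} (h : y ^ 2 = aeval x f) :
    sg f 1 (some (x, y)) = .aff x ((((1 : ℤˣ) : ℤ) : M) * y) (N3_eq h).2 := by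
  change mk' f x ((((1 : ℤˣ) : ℤ) : M) * y) = _
  unfold mk'
  rw [dif_pos (N3_eq h).2]

theorem N3_map {f : k[X]} {x y : M} (h : y ^ 2 = aeval x f) (j : M →ₐ[k] K) :
    (j y) ^ 2 = aeval (j x) f := by
  rw [← map_pow, h, aeval_algHom_apply]

theorem N3_mpt_sg {f : k[X]} {x y : M} (h : y ^ 2 = aeval x f) (j : M →ₐ[k] K) :
    mpt j (sg f 1 (some (x, y))) = sg f 1 (some (j x, j y)) := by
  rw [N3_sg h, N3_sg (N3_map h j)]
  change Pt.aff (j x) (j ((((1 : ℤˣ) : ℤ) : M) * y)) _ = _
  congr 1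
  rw [map_mul, map_intCast]

theorem N3_mpt_none {f : k[X]} (j : M →ₐ[k] K) : mpt j (sg f 1 none) = .inf := rfl

theorem N3_close {f : k[X]} {v : Place k K} {X Y X' Y' : K}
    {h : Y ^ 2 = (f.map (algebraMap k K)).eval X} {h' : Y' ^ 2 = (f.map (algebraMap k K)).eval X'}
    (z : v.Zer (X - X')) (z' : v.Zer (Y - Y')) {q : MPt f (RF v)}
    (hq : SpR v (.aff X Y h : MPt f K) q) : SpR v (.aff X' Y' h' : MPt f K) q := by
  match q with
  | .inf =>
    change v.ord X < 0 at hq
    change v.ord X' < 0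
    have h0 : X ≠ 0 := by
      rintro rfl
      rw [v.ord_zero] at hq
      exact lt_irrefl _ hq
    by_cases hz : X - X' = 0
    · rwa [← sub_eq_zero.1 hz]
    · have h1 : 0 < v.ord (X - X') := z.resolve_left hz
      have h2 := (v.ord_add_of_lt h0 (neg_ne_zero.2 hz) (by rw [v.ord_neg]; omega)).2
      rw [show X + -(X - X') = X' by ring] at h2
      rwa [h2]
  | .aff x₀ y₀ h₀ =>
    obtain ⟨r1, r2⟩ := hq
    refine ⟨?_, ?_⟩
    · rw [Pool.Agent.LibCHd.red_iff_sub r1, ← neg_sub]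
      exact z.neg
    · rw [Pool.Agent.LibCHd.red_iff_sub r2, ← neg_sub]
      exact z'.neg

/-- specialisation of a point close to another one -/
theorem N3_sp {f : k[X]} {v : Place k K} {X Y X' Y' : K} (h : Y ^ 2 = aeval X f)
    (h' : Y' ^ 2 = aeval X' f) (z : v.Zer (X - X')) (z' : v.Zer (Y - Y'))
    {q : MPt f (RF v)} (hq : SpR v (sg f 1 (some (X, Y))) q) :
    SpR v (sg f 1 (some (X', Y'))) q := by
  rw [N3_sg h] at hq
  rw [N3_sg h']
  refine N3_close z ?_ hq
  rw [(N3_eq h).1, (N3_eq h').1]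
  exact z'

theorem N3_pole {f : k[X]} {v : Place k K} {X Y : K} (h : Y ^ 2 = aeval X f)
    (hX : v.ord X < 0) : SpR v (sg f 1 (some (X, Y))) (.inf : MPt f (RF v)) := by
  rw [N3_sg h]
  exact hX

theorem N3_pole' {f : k[X]} {v : Place k K} {X Y : K} (h : Y ^ 2 = aeval X f)
    (hX : v.ord X < 0) {q : MPt f (RF v)} (hq : SpR v (sg f 1 (some (X, Y))) q) :
    q = .inf := SpR_unique hq (N3_pole h hX)

theorem N3_reg_aeval {v : Place k K} {z : K} (hz : v.Reg z) (P : k[X]) : v.Reg (aeval z P) := by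
  induction P using Polynomial.induction_on' with
  | add p q hp hq => rw [map_add]; exact hp.add hq
  | monomial n c =>
    rw [aeval_monomial]
    exact (v.reg_const c).mul (hz.pow n)

theorem N3_reg_sqrt {v : Place k K} {y : K} (h : v.Reg (y ^ 2)) : v.Reg y := by
  by_cases hy : y = 0
  · exact Or.inl hy
  right
  have h1 := h.resolve_left (pow_ne_zero 2 hy)
  rw [v.ord_pow] at h1
  push_cast at h1
  omega

theorem N3_ord_ge {v : Place k K} {a : K} (ha : v.Reg a) (h0 : a ≠ 0) : 0 ≤ v.ord a :=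
  ha.resolve_left h0

theorem N3_zer_ge {v : Place k K} {a : K} (ha : v.Zer a) (h0 : a ≠ 0) : 1 ≤ v.ord a :=
  ha.resolve_left h0

/-- a multiple of a function of order `1` -/
theorem N3_ord_sum {v : Place k K} {a b : K} {m : ℤ} (ha : a = 0 ∨ m ≤ v.ord a)
    (hb : b = 0 ∨ m ≤ v.ord b) : a + b = 0 ∨ m ≤ v.ord (a + b) := by
  by_cases h : a + b = 0
  · exact Or.inl h
  right
  rcases eq_or_ne a 0 with rfl | ha0
  · rw [zero_add] at h ⊢
    exact hb.resolve_left h
  rcases eq_or_ne b 0 with rfl | hb0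
  · rw [add_zero] at h ⊢
    exact ha.resolve_left h
  exact (le_min (ha.resolve_left ha0) (hb.resolve_left hb0)).trans (v.ord_add a b ha0 hb0 h)

theorem N3_ord_prod {v : Place k K} {a b : K} {m n : ℤ} (ha : a = 0 ∨ m ≤ v.ord a)
    (hb : b = 0 ∨ n ≤ v.ord b) : a * b = 0 ∨ m + n ≤ v.ord (a * b) := by
  rcases eq_or_ne a 0 with rfl | ha0
  · left; rw [zero_mul]
  rcases eq_or_ne b 0 with rfl | hb0
  · left; rw [mul_zero]
  right
  rw [v.ord_mul a b ha0 hb0]
  exact add_le_add (ha.resolve_left ha0) (hb.resolve_left hb0)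

/-- the order of the difference of the values of a polynomial -/
theorem N3_sub_aeval {v : Place k K} {a b : K} (ha : v.Reg a) (hb : v.Reg b) (P : k[X]) :
    ∃ c, v.Reg c ∧ aeval a P - aeval b P = (a - b) * c := by
  induction P using Polynomial.induction_on' with
  | add p q hp hq =>
    obtain ⟨c, hc, e⟩ := hp
    obtain ⟨c', hc', e'⟩ := hq
    refine ⟨c + c', hc.add hc', ?_⟩
    rw [map_add, map_add, mul_add, ← e, ← e']
    ring
  | monomial n c =>
    refine ⟨algebraMap k K c * ∑ i ∈ Finset.range n, a ^ i * b ^ (n - 1 - i), ?_, ?_⟩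
    · refine (v.reg_const c).mul ?_
      refine Finset.sum_induction _ (fun z => v.Reg z) (fun _ _ h h' => h.add h') (Or.inl rfl) ?_
      intro i _
      exact (ha.pow i).mul (hb.pow _)
    · rw [aeval_monomial, aeval_monomial]
      have := (Commute.all a b).mul_geom_sum₂ n
      linear_combination (-(algebraMap k K c)) * this

theorem N3_ord_aeval_ge (v : Place k K) (a : K) (ha : v.ord a < 0) (m : ℕ) (Q : k[X])
    (hQ : Q.natDegree ≤ m) : aeval a Q = 0 ∨ (m : ℤ) * v.ord a ≤ v.ord (aeval a Q) := by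
  have ha0 : a ≠ 0 := by
    rintro rfl
    rw [v.ord_zero] at ha
    exact lt_irrefl _ ha
  rw [aeval_eq_sum_range' (n := m + 1) (by omega)]
  refine Finset.sum_induction _ (fun z => z = 0 ∨ (m : ℤ) * v.ord a ≤ v.ord z)
    (fun _ _ h h' => N3_ord_sum h h') (Or.inl rfl) ?_
  intro i hi
  by_cases hc : Q.coeff i = 0
  · left; rw [hc, zero_smul]
  right
  have hc' : algebraMap k K (Q.coeff i) ≠ 0 := (_root_.map_ne_zero _).2 hc
  rw [Algebra.smul_def, v.ord_mul _ _ hc' (pow_ne_zero _ ha0), v.ord_const _ hc, v.ord_pow,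
    zero_add]
  have hi' : (i : ℤ) ≤ m := by
    have := Finset.mem_range.1 hi
    omega
  nlinarith

/-- the order of a polynomial at a pole -/
theorem N3_ord_aeval (v : Place k K) (a : K) (ha : v.ord a < 0) (P : k[X]) (hP : P.Monic) :
    v.ord (aeval a P) = (P.natDegree : ℤ) * v.ord a := by
  have ha0 : a ≠ 0 := by
    rintro rfl
    rw [v.ord_zero] at ha
    exact lt_irrefl _ ha
  rcases Nat.eq_zero_or_pos P.natDegree with h0 | h0
  · rw [h0, hP.natDegree_eq_zero.1 h0, map_one]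
    have := v.ord_const 1 one_ne_zero
    rw [map_one] at this
    rw [this]
    simp
  · have e : P = X ^ P.natDegree + P.eraseLead := by
      conv_lhs => rw [← P.eraseLead_add_C_mul_X_pow]
      rw [hP.leadingCoeff, C_1, one_mul, add_comm]
    have e1 : aeval a P = a ^ P.natDegree + aeval a P.eraseLead := by
      conv_lhs => rw [e]
      rw [map_add, map_pow, aeval_X]
    have h1 := N3_ord_aeval_ge v a ha (P.natDegree - 1) P.eraseLead P.eraseLead_natDegree_le
    rw [e1]
    rcases h1 with h1 | h1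
    · rw [h1, add_zero, v.ord_pow]
    · rcases eq_or_ne (aeval a P.eraseLead) 0 with h2 | h2
      · rw [h2, add_zero, v.ord_pow]
      · have h3 := v.ord_add_of_lt (pow_ne_zero P.natDegree ha0) h2 (by
          rw [v.ord_pow]
          refine lt_of_lt_of_le ?_ h1
          have : ((P.natDegree - 1 : ℕ) : ℤ) = (P.natDegree : ℤ) - 1 := by omega
          rw [this]
          nlinarith)
        rw [h3.2, v.ord_pow]

end aux

theorem isZ_two (f : k[X]) [Hyp f] {i : M₀ →ₐ[k] M} {x y : M} (h : Gen1 i f x y) {d : ℕ}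
    (hM : FunF k (d + 1) M) {j : M →ₐ[k] K} {X Y : K} (hj : Gen1 j f X Y)
    (T : ∀ a, MPt (F a) M₀ ⊕ Bool) (hT : ∀ a c, T a = .inr c → F a = f) :
    IsZ (plane f (gn f) (some (j x, j y)) (some (X, Y))) 0
      (ev2 T (j.comp i) (some (j x, j y)) (some (X, Y))) (d + 1)
      (cyc (ev2 T i (some (x, y)) (some (x, y))) +
        (2 * gn f - 1 : ℤ) • cyc (ev2 T i none (some (x, y))) +
        (2 * gn f - 1 : ℤ) • cyc (ev2 T i (some (x, y)) none)) := by
  obtain ⟨j', w, hj', hx', hy', hgen', hw, hg0, hy0, t0, o0, z0, z0', t1, o1, z1, z1', t2, o2,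
    t3, o3, hlast⟩ := four f h hM hj
  obtain ⟨e0, he0⟩ := Pool.Agent.LibCHd.exists_res_equiv j (w 0) t0.triv t0.res
  obtain ⟨e2, he2⟩ := Pool.Agent.LibCHd.exists_res_equiv j (w 2) t2.triv t2.res
  obtain ⟨e3, he3⟩ := Pool.Agent.LibCHd.exists_res_equiv j' (w 3) t3.triv t3.res
  have hji : j'.comp i = j.comp i := AlgHom.ext hj'
  have hXY : Y ^ 2 = aeval X f := hj.eq
  have hjxy : (j y) ^ 2 = aeval (j x) f := hgen'.eq
  have hdeg : f.natDegree = 2 * gn f + 1 := Hyp.deg
  have hjy0 : j y ≠ 0 := (map_ne_zero j).2 hy0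
  have hX0 : X ≠ 0 := by
    intro h0
    have := hj.tr Polynomial.X Polynomial.X_ne_zero
    rw [eval₂_X] at this
    exact this h0
  have hjx0 : j x ≠ 0 := by
    intro h0
    have := hgen'.tr Polynomial.X Polynomial.X_ne_zero
    rw [eval₂_X] at this
    exact this h0
  have hY0 : Y ≠ 0 := by
    rw [← hy']
    exact (map_ne_zero j').2 hy0
  have h2K : (2 : K) ≠ 0 := by
    have : CharZero K := charZero_of_injective_algebraMap (algebraMap k K).injective
    exact two_ne_zero
  have h2M : (2 : M) ≠ 0 := by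
    have : CharZero M := charZero_of_injective_algebraMap (algebraMap k M).injective
    exact two_ne_zero
  -- the coordinates
  have hφ : plane f (gn f) (some (j x, j y)) (some (X, Y)) =
      ![j x - X, j y + Y, j y * X ^ gn f + Y * (j x) ^ gn f] := by
    change (if j x = X ∧ j y = -Y then _ else _) = _
    rw [if_neg]
    rintro ⟨h1, -⟩
    exact hg0 (by rw [h1, sub_self])
  have hg0' : j x - X ≠ 0 := by
    intro h0; apply hg0; rw [← neg_sub, h0, neg_zero]
  have hord : ∀ v : Place k K, v.ord (j x - X) = v.ord (X - j x) := fun v => by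
    rw [← neg_sub, v.ord_neg]
  set φ := plane f (gn f) (some (j x, j y)) (some (X, Y)) with hφdef
  have f0 : φ 0 = j x - X := by rw [hφ]; rfl
  have f1 : φ 1 = j y + Y := by rw [hφ]; rfl
  have f2 : φ 2 = j y * X ^ gn f + Y * (j x) ^ gn f := by rw [hφ]; rfl
  -- orders at a pole
  have pole : ∀ (v : Place k K) (a b : K), b ^ 2 = aeval a f → a ≠ 0 → b ≠ 0 → v.ord a = -2 →
      v.ord b = -(2 * (gn f : ℤ) + 1) := by
    intro v a b hab ha hb hv
    have h1 : v.ord (aeval a f) = (f.natDegree : ℤ) * v.ord a :=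
      N3_ord_aeval v a (by omega) f (Hyp.monic (f := f))
    rw [← hab, v.ord_pow, hv, hdeg] at h1
    push_cast at h1
    omega
  -- `w 0`
  have m0 : mult φ 0 (w 0) = 1 := by
    have k1 : (w 0).ord (φ 1) = 0 ∧ φ 1 ≠ 0 := by
      have e : φ 1 = j (2 * y) + (Y - j y) := by rw [f1, map_mul, map_ofNat]; ring
      have hne : j (2 * y) ≠ 0 := (map_ne_zero j).2 (mul_ne_zero h2M hy0)
      rw [e]
      rcases eq_or_ne (Y - j y) 0 with h0 | h0
      · rw [h0, add_zero]
        exact ⟨t0.triv _, hne⟩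
      · have h1 := N3_zer_ge z0' h0
        have h2 := (w 0).ord_add_of_lt hne h0 (by rw [t0.triv]; omega)
        exact ⟨h2.2.trans (t0.triv _), h2.1⟩
    have hX : (w 0).Reg X := by
      have e : X = j x + (X - j x) := by ring
      rw [e]
      exact (show (w 0).Reg (j x) from Or.inr (t0.triv x).ge).add z0.reg
    have hY : (w 0).Reg Y := N3_reg_sqrt (by rw [hXY]; exact N3_reg_aeval hX f)
    have hjx : (w 0).Reg (j x) := Or.inr (t0.triv x).ge
    have hjy : (w 0).Reg (j y) := Or.inr (t0.triv y).ge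
    rw [N3_mult_eq (b := 1) k1.2, k1.1, f0, hord, o0, sub_zero]
    intro b hb
    rw [k1.1]
    fin_cases b
    · change (0:ℤ) ≤ (w 0).ord (φ 0)
      rw [f0, hord, o0]; norm_num
    · exact k1.1.ge
    · change (0:ℤ) ≤ (w 0).ord (φ 2)
      change φ 2 ≠ 0 at hb
      rw [f2] at hb ⊢
      exact ((hjy.mul (hX.pow _)).add (hY.mul (hjx.pow _))).resolve_left hb
  have m1 : mult φ 0 (w 1) = 0 := by
    have hX : (w 1).Reg X := by
      have e : X = j x + (X - j x) := by ring
      rw [e]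
      exact (show (w 1).Reg (j x) from Or.inr (t1.triv x).ge).add z1.reg
    have hY : (w 1).Reg Y := N3_reg_sqrt (by rw [hXY]; exact N3_reg_aeval hX f)
    have hjx : (w 1).Reg (j x) := Or.inr (t1.triv x).ge
    have hjy : (w 1).Reg (j y) := Or.inr (t1.triv y).ge
    have k0 : (w 1).ord (φ 0) = 1 ∧ φ 0 ≠ 0 := by rw [f0, hord, o1]; exact ⟨rfl, hg0'⟩
    have hd : (w 1).ord (X - j x) = 1 := o1
    have hd' : X - j x = 0 ∨ 1 ≤ (w 1).ord (X - j x) := Or.inr hd.ge
    -- `j y + Y`
    have k1 : φ 1 = 0 ∨ 1 ≤ (w 1).ord (φ 1) := by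
      rw [f1]
      have hz : (w 1).Zer (j y + Y) := by rw [add_comm]; exact z1'
      exact hz.imp id fun h => h
    have k2 : φ 2 = 0 ∨ 1 ≤ (w 1).ord (φ 2) := by
      obtain ⟨c, hc, hce⟩ := N3_sub_aeval hX hjx (Polynomial.X ^ gn f : k[X])
      rw [map_pow, aeval_X, map_pow, aeval_X] at hce
      have e : φ 2 = j y * ((X - j x) * c) + (j y + Y) * (j x) ^ gn f := by
        rw [f2, ← hce]; ring
      rw [e]
      refine N3_ord_sum ?_ ?_
      · have := N3_ord_prod (v := w 1) (m := 0) (n := 1) hjy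
          (N3_ord_prod (m := 1) (n := 0) hd' hc)
        simpa using this
      · rw [f1] at k1
        have := N3_ord_prod (v := w 1) (m := 1) (n := 0) k1 (hjx.pow (gn f))
        simpa using this
    rw [N3_mult_eq (b := 0) k0.2, sub_self]
    intro b hb
    rw [k0.1]
    fin_cases b
    · exact k0.1.ge
    · exact k1.resolve_left hb
    · exact k2.resolve_left hb
  have m2 : mult φ 0 (w 2) = 2 * gn f - 1 := by
    have hY : (w 2).ord Y = -(2 * (gn f : ℤ) + 1) := pole _ X Y hXY hX0 hY0 o2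
    have k0 : (w 2).ord (φ 0) = -2 := by
      rw [f0, hord]
      have h1 := (w 2).ord_add_of_lt hX0 (neg_ne_zero.2 hjx0) (by
        rw [(w 2).ord_neg, t2.triv, o2]; norm_num)
      rw [sub_eq_add_neg, h1.2, o2]
    have k1 : (w 2).ord (φ 1) = -(2 * (gn f : ℤ) + 1) ∧ φ 1 ≠ 0 := by
      rw [f1, add_comm]
      have h1 := (w 2).ord_add_of_lt hY0 hjy0 (by rw [t2.triv, hY]; omega)
      exact ⟨h1.2.trans hY, h1.1⟩
    rw [N3_mult_eq (b := 1) k1.2, k0, k1.1]
    · ring
    intro b hb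
    rw [k1.1]
    fin_cases b
    · change _ ≤ (w 2).ord (φ 0)
      rw [k0]; 
      have : 1 ≤ gn f := by
        have := Hyp.three (f := f)
        omega
      omega
    · exact k1.1.ge
    · refine (?_ : φ 2 = 0 ∨ -(2 * (gn f : ℤ) + 1) ≤ (w 2).ord (φ 2)).resolve_left hb
      rw [f2]
      refine N3_ord_sum ?_ ?_
      · right
        rw [(w 2).ord_mul _ _ hjy0 (pow_ne_zero _ hX0), t2.triv, (w 2).ord_pow, o2]
        omega
      · right
        rw [(w 2).ord_mul _ _ hY0 (pow_ne_zero _ hjx0), hY, (w 2).ord_pow, t2.triv]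
        omega
  have m3 : mult φ 0 (w 3) = 2 * gn f - 1 := by
    have hXt : (w 3).ord X = 0 := by rw [← hx']; exact t3.triv x
    have hYt : (w 3).ord Y = 0 := by rw [← hy']; exact t3.triv y
    have hjy : (w 3).ord (j y) = -(2 * (gn f : ℤ) + 1) := pole _ (j x) (j y) hjxy hjx0 hjy0 o3
    have k0 : (w 3).ord (φ 0) = -2 := by
      rw [f0]
      have h1 := (w 3).ord_add_of_lt hjx0 (neg_ne_zero.2 hX0) (by
        rw [(w 3).ord_neg, hXt, o3]; norm_num)
      rw [sub_eq_add_neg, h1.2, o3]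
    have k1 : (w 3).ord (φ 1) = -(2 * (gn f : ℤ) + 1) ∧ φ 1 ≠ 0 := by
      rw [f1]
      have h1 := (w 3).ord_add_of_lt hjy0 hY0 (by rw [hYt, hjy]; omega)
      exact ⟨h1.2.trans hjy, h1.1⟩
    rw [N3_mult_eq (b := 1) k1.2, k0, k1.1]
    · ring
    intro b hb
    rw [k1.1]
    fin_cases b
    · change _ ≤ (w 3).ord (φ 0)
      rw [k0]
      have : 1 ≤ gn f := by
        have := Hyp.three (f := f)
        omega
      omega
    · exact k1.1.ge
    · refine (?_ : φ 2 = 0 ∨ -(2 * (gn f : ℤ) + 1) ≤ (w 3).ord (φ 2)).resolve_left hb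
      rw [f2]
      refine N3_ord_sum ?_ ?_
      · right
        rw [(w 3).ord_mul _ _ hjy0 (pow_ne_zero _ hX0), hjy, (w 3).ord_pow, hXt]
        omega
      · right
        rw [(w 3).ord_mul _ _ hY0 (pow_ne_zero _ hjx0), hYt, (w 3).ord_pow, o3]
        omega
  -- the equations for the curves `F a`
  have q1 : ∀ a c, T a = .inr c → y ^ 2 = aeval x (F a) := fun a c hc => by
    rw [hT a c hc]; exact h.eq
  have q2 : ∀ a c, T a = .inr c → Y ^ 2 = aeval X (F a) := fun a c hc => by
    rw [hT a c hc]; exact hXY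
  have q3 : ∀ a c, T a = .inr c → (j y) ^ 2 = aeval (j x) (F a) := fun a c hc =>
    N3_map (q1 a c hc) j
  have inl_ : ∀ {N : Type} [Field N] [Algebra k N] (i' : M₀ →ₐ[k] N) (P Q : Option (N × N)) a t,
      T a = .inl t → ev2 T i' P Q a = mpt i' t := by
    intro N _ _ i' P Q a t ha
    unfold ev2
    rw [ha]
  have fst_ : ∀ {N : Type} [Field N] [Algebra k N] (i' : M₀ →ₐ[k] N) (P Q : Option (N × N)) a,
      T a = .inr false → ev2 T i' P Q a = sg (F a) 1 P := by
    intro N _ _ i' P Q a ha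
    unfold ev2
    rw [ha]
    rfl
  have snd_ : ∀ {N : Type} [Field N] [Algebra k N] (i' : M₀ →ₐ[k] N) (P Q : Option (N × N)) a,
      T a = .inr true → ev2 T i' P Q a = sg (F a) 1 Q := by
    intro N _ _ i' P Q a ha
    unfold ev2
    rw [ha]
    rfl
  set u : Pnt F K := ev2 T (j.comp i) (some (j x, j y)) (some (X, Y)) with hu
  have uinl : ∀ a t, T a = .inl t → u a = mpt j (mpt i t) := fun a t ha => by
    rw [hu, inl_ _ _ _ _ _ ha, mpt_comp]
  have uinl' : ∀ a t, T a = .inl t → u a = mpt j' (mpt i t) := fun a t ha => by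
    rw [hu, inl_ _ _ _ _ _ ha, mpt_comp, hji]
  have ufst : ∀ a, T a = .inr false → u a = sg (F a) 1 (some (j x, j y)) := fun a ha => by
    rw [hu, fst_ _ _ _ _ ha]
  have ufst' : ∀ a, T a = .inr false → u a = mpt j (sg (F a) 1 (some (x, y))) := fun a ha => by
    rw [ufst a ha, N3_mpt_sg (q1 a _ ha)]
  have usnd : ∀ a, T a = .inr true → u a = sg (F a) 1 (some (X, Y)) := fun a ha => by
    rw [hu, snd_ _ _ _ _ ha]
  have usnd' : ∀ a, T a = .inr true → u a = mpt j' (sg (F a) 1 (some (x, y))) := fun a ha => by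
    rw [usnd a ha, N3_mpt_sg (q1 a _ ha), hx', hy']
  have S0 : ∀ a, SpR (w 0) (u a) (mpt (e0 : M →ₐ[k] RF (w 0))
      (ev2 T i (some (x, y)) (some (x, y)) a)) := fun a => by
    rcases ha : T a with t | b
    · rw [uinl a t ha, inl_ _ _ _ _ _ ha]
      exact SpR_triv j (w 0) _ he0 _
    · rcases b with _ | _
      · rw [ufst' a ha, fst_ _ _ _ _ ha]
        exact SpR_triv j (w 0) _ he0 _
      · rw [usnd a ha, snd_ _ _ _ _ ha]
        refine N3_sp (q3 a _ ha) (q2 a _ ha) (X := j x) (Y := j y) ?_ ?_ ?_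
        · rw [← neg_sub]; exact z0.neg
        · rw [← neg_sub]; exact z0'.neg
        · rw [← N3_mpt_sg (q1 a _ ha)]
          exact SpR_triv j (w 0) _ he0 _
  have S2 : ∀ a, SpR (w 2) (u a) (mpt (e2 : M →ₐ[k] RF (w 2))
      (ev2 T i (some (x, y)) none a)) := fun a => by
    rcases ha : T a with t | b
    · rw [uinl a t ha, inl_ _ _ _ _ _ ha]
      exact SpR_triv j (w 2) _ he2 _
    · rcases b with _ | _
      · rw [ufst' a ha, fst_ _ _ _ _ ha]
        exact SpR_triv j (w 2) _ he2 _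
      · rw [usnd a ha, snd_ _ _ _ _ ha, N3_mpt_none]
        exact N3_pole (q2 a _ ha) (by rw [o2]; norm_num)
  have S3 : ∀ a, SpR (w 3) (u a) (mpt (e3 : M →ₐ[k] RF (w 3))
      (ev2 T i none (some (x, y)) a)) := fun a => by
    rcases ha : T a with t | b
    · rw [uinl' a t ha, inl_ _ _ _ _ _ ha]
      exact SpR_triv j' (w 3) _ he3 _
    · rcases b with _ | _
      · rw [ufst a ha, fst_ _ _ _ _ ha, N3_mpt_none]
        exact N3_pole (q3 a _ ha) (by rw [o3]; norm_num)
      · rw [usnd' a ha, snd_ _ _ _ _ ha]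
        exact SpR_triv j' (w 3) _ he3 _
  have h02 : w 2 ≠ w 0 := fun h => absurd (hw h) (by decide)
  have h03 : w 3 ≠ w 0 := fun h => absurd (hw h) (by decide)
  have h23 : w 3 ≠ w 2 := fun h => absurd (hw h) (by decide)
  refine ⟨{w 0, w 2, w 3}, fun v => if v = w 0 then cyc (ev2 T i (some (x, y)) (some (x, y)))
    else if v = w 2 then cyc (ev2 T i (some (x, y)) none)
    else cyc (ev2 T i none (some (x, y))), ?_, ?_, ?_⟩
  · intro v hv
    simp only [Finset.mem_insert, Finset.mem_singleton] at hv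
    rcases hv with rfl | rfl | rfl
    · exact ⟨hM.congr e0, _, S0, by beta_reduce; rw [if_pos rfl]; exact (cyc_mpt e0 _).symm⟩
    · exact ⟨hM.congr e2, _, S2, by
        beta_reduce; rw [if_neg h02, if_pos rfl]; exact (cyc_mpt e2 _).symm⟩
    · exact ⟨hM.congr e3, _, S3, by
        beta_reduce; rw [if_neg h03, if_neg h23]; exact (cyc_mpt e3 _).symm⟩
  · intro v hv hmult hF q hq
    have hne : ∀ a, v ≠ w a := by
      intro a
      fin_cases a
      · rintro rfl; exact hv (by simp)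
      · rintro rfl; exact hmult m1
      · rintro rfl; exact hv (by simp)
      · rintro rfl; exact hv (by simp)
    have hcase : v.Zer (X - j x) ∨ v.ord X < 0 ∨ v.ord (j x) < 0 := by
      by_contra hcon
      push Not at hcon
      obtain ⟨c1, c2, c3⟩ := hcon
      apply hmult
      have hX : v.Reg X := Or.inr c2
      have hjx : v.Reg (j x) := Or.inr c3
      have hY : v.Reg Y := N3_reg_sqrt (by rw [hXY]; exact N3_reg_aeval hX f)
      have hjy : v.Reg (j y) := N3_reg_sqrt (by rw [hjxy]; exact N3_reg_aeval hjx f)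
      have k0 : v.ord (φ 0) = 0 := by
        rw [f0, hord]
        exact v.ord_eq_zero_of_reg (hX.sub hjx) c1
      have k0' : φ 0 ≠ 0 := by rw [f0]; exact hg0'
      rw [N3_mult_eq (b := 0) k0', sub_self]
      intro b hb
      rw [k0]
      fin_cases b
      · exact k0.ge
      · change φ 1 ≠ 0 at hb
        change (0:ℤ) ≤ v.ord (φ 1)
        rw [f1] at hb ⊢
        exact (hjy.add hY).resolve_left hb
      · change φ 2 ≠ 0 at hb
        change (0:ℤ) ≤ v.ord (φ 2)
        rw [f2] at hb ⊢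
        exact ((hjy.mul (hX.pow _)).add (hY.mul (hjx.pow _))).resolve_left hb
    rcases hlast v hcase hne with ⟨⟨m₀, hm₀⟩, hc⟩ | ⟨⟨m₀, hm₀⟩, hc⟩
    · refine cyc_zero_of_M hM j v m₀ hm₀ hF q fun a => ?_
      have hqa := hq a
      rcases ha : T a with t | b
      · right
        exact ⟨mpt i t, by rw [← uinl a t ha]; exact hqa⟩
      · rcases b with _ | _
        · right
          exact ⟨sg (F a) 1 (some (x, y)), by rw [← ufst' a ha]; exact hqa⟩
        · rw [usnd a ha] at hqa
          have q3' : (-j y) ^ 2 = aeval (j x) (F a) := by rw [neg_sq]; exact q3 a _ ha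
          have q1' : (-y) ^ 2 = aeval x (F a) := by rw [neg_sq]; exact q1 a _ ha
          rcases hc with ⟨hz, hz'⟩ | ⟨hz, hz'⟩ | hc
          · right
            refine ⟨sg (F a) 1 (some (x, y)), ?_⟩
            rw [N3_mpt_sg (q1 a _ ha)]
            exact N3_sp (q2 a _ ha) (q3 a _ ha) hz hz' hqa
          · right
            refine ⟨sg (F a) 1 (some (x, -y)), ?_⟩
            rw [N3_mpt_sg q1', map_neg]
            refine N3_sp (q2 a _ ha) q3' hz ?_ hqa
            rw [sub_neg_eq_add]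
            exact hz'
          · left
            exact ⟨.inf, N3_pole' (q2 a _ ha) hc hqa⟩
    · refine cyc_zero_of_M hM j' v m₀ hm₀ hF q fun a => ?_
      have hqa := hq a
      rcases ha : T a with t | b
      · right
        exact ⟨mpt i t, by rw [← uinl' a t ha]; exact hqa⟩
      · rcases b with _ | _
        · left
          rw [ufst a ha] at hqa
          exact ⟨.inf, N3_pole' (q3 a _ ha) hc hqa⟩
        · right
          exact ⟨sg (F a) 1 (some (x, y)), by rw [← usnd' a ha]; exact hqa⟩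
  · rw [Finset.sum_insert, Finset.sum_insert, Finset.sum_singleton]
    · simp only [if_true, if_neg h02, if_neg h03, if_neg h23]
      rw [m0, m2, m3, one_smul]
      abel
    · simp only [Finset.mem_singleton]
      exact fun h => h23 h.symm
    · simp only [Finset.mem_insert, Finset.mem_singleton]
      rintro (h | h)
      · exact h02 h.symm
      · exact h03 h.symm

end Pool.Agent.LibHL77
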