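import Pool.Agent.LibHL77.Q0b
import Pool.Agent.LibHL77.Q0c
import Pool.Agent.LibHL77.N3
import Pool.Agent.LibHL77.B8

/-!
[HL77 Q3] the section of a diagonal by the second morphism if the two coordinates are in different blocks. Proof. `V e = F a = F b = V e'` (`Cmp`). `base2`,
`isZ_two` (for `V e`; `j (x₁ e₀) = x e`), `LG` for `d + 1 = D + 1`, `B_cl` three times, `extD_pp`; the third
diagonal has the blocks `Function.update (dl e' τ) e₀ (τ e')`, a permutation of `dl e τ`: `cl_pp_perm`.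
`NC`: `x e - x e'`, `y e + y e'`: if the ratios were algebraic over `k` then `x e'` would be algebraic over `M₁` (compare Q2), but it is
transcendental over `M₁` (`Gen1.tr`).
-/

open scoped Classical
open Polynomial

namespace Pool.Agent.LibHL77

open Pool.Agent.LibBH2
open Pool.Agent.LibCHd (VR RF Red FunF IsCps)
open Pool.Agent.LibHyp34 (Hyp Pt Pic jP Sp KC DCf gn)
open Pool.Agent.LibHD77
open Pool.Agent.LibHD77.Comb (Pat sub Cmp)

variable {k : Type} [Field k] [CharZero k] {n D : ℕ} {F : Fin n → k[X]}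

omit [CharZero k] in
/-- the order of a polynomial at a pole -/
private theorem q3_pole {K : Type} [Field K] [Algebra k K] {v : Place k K} {z : K}
    (hz : v.ord z < 0) : ∀ (m : ℕ) (P : k[X]), P.natDegree ≤ m → P ≠ 0 →
      aeval z P ≠ 0 ∧ v.ord (aeval z P) = P.natDegree * v.ord z := by
  have hz0 : z ≠ 0 := by
    rintro rfl
    rw [v.ord_zero] at hz
    exact lt_irrefl _ hz
  have hmon : ∀ (i : ℕ) (a : k), a ≠ 0 → aeval z (monomial i a) ≠ 0 ∧
      v.ord (aeval z (monomial i a)) = i * v.ord z := by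
    intro i a ha
    have h1 : algebraMap k K a ≠ 0 := (_root_.map_ne_zero _).2 ha
    rw [aeval_monomial]
    refine ⟨mul_ne_zero h1 (pow_ne_zero _ hz0), ?_⟩
    rw [v.ord_mul _ _ h1 (pow_ne_zero _ hz0), v.ord_const a ha, v.ord_pow, zero_add]
  intro m
  induction m with
  | zero =>
    intro P hm hP
    have h1 : P = C (P.coeff 0) := eq_C_of_natDegree_eq_zero (Nat.le_zero.1 hm)
    have h2 : P.coeff 0 ≠ 0 := by
      intro h
      rw [h, C_0] at h1
      exact hP h1
    have h3 := hmon 0 _ h2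
    rw [monomial_zero_left, ← h1] at h3
    rw [Nat.le_zero.1 hm]
    exact h3
  | succ m ih =>
    intro P hm hP
    have h1 := P.eraseLead_add_monomial_natDegree_leadingCoeff
    have h2 := hmon P.natDegree _ (leadingCoeff_ne_zero.2 hP)
    by_cases h3 : P.eraseLead = 0
    · rw [h3, zero_add] at h1
      rw [h1] at h2
      exact h2
    · have h4 : P.eraseLead.natDegree < P.natDegree :=
        P.eraseLead_natDegree_lt_or_eraseLead_eq_zero.resolve_right h3
      obtain ⟨h5, h6⟩ := ih P.eraseLead (by omega) h3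
      have h7 := v.ord_add_of_lt h2.1 h5 (by
        rw [h2.2, h6]
        have h8 : (P.eraseLead.natDegree : ℤ) < (P.natDegree : ℤ) := by exact_mod_cast h4
        nlinarith)
      rw [← map_add, add_comm, h1, h2.2] at h7
      exact h7

omit [CharZero k] in
/-- a function with a pole is transcendental -/
private theorem q3_trans {K : Type} [Field K] [Algebra k K] {v : Place k K} {z : K}
    (hz : v.ord z < 0) : Transcendental k z := by
  rintro ⟨P, hP, hP0⟩
  exact (q3_pole hz P.natDegree P le_rfl hP).1 hP0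

private theorem q3_pp {L : Type} [Field L] {F : Fin n → L[X]} {τ : Fin D → Finset (Fin n)}
    (hτ : ∀ e e', e ≠ e' → Disjoint (τ e) (τ e')) (s : ∀ a, Pt (F a)) {a : Fin n} {e : Fin D}
    (ha : a ∈ τ e) : (pp τ s : Dia F D) a = .inr (e, 1) := by
  have h : ∃ e, a ∈ τ e := ⟨e, ha⟩
  have h1 : h.choose = e := by
    by_contra hne
    exact Finset.disjoint_left.1 (hτ _ _ hne) h.choose_spec ha
  unfold pp
  rw [dif_pos h, h1]

omit [CharZero k] in
/-- the point in an affine coordinate -/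
private theorem q3_opt {M : Type} [Field M] [Algebra k M] {f : k[X]} {x y : M}
    (h : y ^ 2 = aeval x f) : opt (sg f 1 (some (x, y)) : MPt f M) = some (x, y) := by
  have h1 : (((1 : ℤˣ) : ℤ) : M) * y = y := by
    rw [Units.val_one, Int.cast_one, one_mul]
  unfold sg mk'
  simp only
  rw [dif_pos (by rw [h1, h, eval_map_algebraMap])]
  unfold opt
  simp only
  rw [h1]

theorem sec_two (hF : ∀ a, Hyp (F a)) (φ : Mor F) (a b : Fin n) (hab : F a = F b)
    (hφ : ∀ (M : Type) [Field M] [Algebra k M] (u : Pnt F M),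
      φ.φ M u = plane (F a) (gn (F a)) (opt (u a)) (opt (u b))) {Γ : Cyc k n →+ Cyc (Lf k) n}
    (hΓ : IsG φ (D + 1) Γ) (τ : Fin (D + 2) → Finset (Fin n)) (s : ∀ a, Pt (F a)) (hτ : Val F τ)
    {M : Type} [Field M] [Algebra k M] (V : Fin (D + 2) → k[X]) (x y : Fin (D + 2) → M)
    (hc : Cmp F (pp τ s) V) (hg : Gen V x y) (e e' : Fin (D + 2)) (hne : e ≠ e') (ha : a ∈ τ e)
    (hb : b ∈ τ e') :
    (QuotientAddGroup.mk (Γ (cyc (pnt (pp τ s) x y))) : CH (ext (Lf k) F) (D + 1)) =
      cl (pp (mrg e e' τ) (cs (Lf k) s ∅)) +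
        (2 * gn (F a) - 1 : ℤ) • cl (pp (dl e τ) (cs (Lf k) s (τ e))) +
        (2 * gn (F a) - 1 : ℤ) • cl (pp (dl e' τ) (cs (Lf k) s (τ e'))) := by
  have hVa : V e = F a := hc.2 a e 1 (q3_pp hτ.1 s ha)
  have hVb : V e' = F b := hc.2 b e' 1 (q3_pp hτ.1 s hb)
  have hVV : V e = V e' := by rw [hVa, hVb, hab]
  have hHyp : Hyp (V e) := hVa ▸ hF a
  have hext : ∀ a, Hyp (ext (Lf k) F a) := fun a => hyp_map (Lf k) (F a) (hF a)
  obtain ⟨M₀, _, _, M₁, _, _, i, j, x₁, y₁, e₀, T, he₀, hg₁, hjx, hjy, hG0, hG1, hT, hT', hu,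
    hcmp, hev1, hev2, hev3⟩ := base2 hF τ s hτ V x y hc hg e e' hne hVV
  obtain ⟨B, hB⟩ := exists_B F (D + 1)
  have hye : y e ^ 2 = aeval (x e) (V e) := hg.eq e
  have hye' : y e' ^ 2 = aeval (x e') (V e') := hg.eq e'
  -- the morphism
  have hua : opt (pnt (pp τ s) x y a) = some (x e, y e) := by
    have h1 : pnt (pp τ s) x y a = sg (F a) 1 (some (x e, y e)) := by
      unfold pnt
      rw [q3_pp hτ.1 s ha]
      rfl
    rw [h1]
    exact q3_opt (by rw [hye, hVa])
  have hub : opt (pnt (pp τ s) x y b) = some (x e', y e') := by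
    have h1 : pnt (pp τ s) x y b = sg (F b) 1 (some (x e', y e')) := by
      unfold pnt
      rw [q3_pp hτ.1 s hb]
      rfl
    rw [h1]
    exact q3_opt (by rw [hye', hVb])
  have hφu : φ.φ M (pnt (pp τ s) x y) =
      plane (V e) (gn (V e)) (some (j (x₁ e₀), j (y₁ e₀))) (some (x e', y e')) := by
    rw [hφ M (pnt (pp τ s) x y), hua, hub, hVa, hjx, hjy]
  -- a place at infinity
  obtain ⟨w, tw, ow, -⟩ := exists_pl_inf (V e) hG1
  have hxne : x e' ≠ 0 := by
    intro h0
    rw [h0, w.ord_zero] at ow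
    norm_num at ow
  have hyne : y e' ≠ 0 := by
    intro h0
    have h1 := (q3_pole (v := w) (z := x e') (by rw [ow]; norm_num) _ (V e) le_rfl
      (Hyp.monic (f := V e)).ne_zero).1
    apply h1
    rw [hVV, ← hye', h0]
    ring
  have hoy : w.ord (y e') = - ((V e).natDegree : ℤ) := by
    have h1 := (q3_pole (v := w) (z := x e') (by rw [ow]; norm_num) _ (V e) le_rfl
      (Hyp.monic (f := V e)).ne_zero).2
    rw [ow, hVV, ← hye', w.ord_pow] at h1
    push_cast at h1
    rw [hVV]
    omega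
  have hdeg : (3 : ℤ) ≤ ((V e).natDegree : ℤ) := by exact_mod_cast Hyp.three (f := V e)
  have hfar : ∀ (z : M) (m : M₁), w.ord z < 0 → z ≠ 0 → j m + z ≠ 0 ∧ w.ord (j m + z) = w.ord z := by
    intro z m hz hz0
    by_cases hm : j m = 0
    · rw [hm, zero_add]
      exact ⟨hz0, rfl⟩
    · rw [add_comm]
      exact w.ord_add_of_lt hz0 hm (by rw [tw.triv]; exact hz)
  have hdx : j (x₁ e₀) - x e' ≠ 0 ∧ w.ord (j (x₁ e₀) - x e') = -2 := by
    have h1 := hfar (-x e') (x₁ e₀) (by rw [w.ord_neg, ow]; norm_num) (neg_ne_zero.2 hxne)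
    rw [w.ord_neg, ow, ← sub_eq_add_neg] at h1
    exact h1
  have hdy : j (y₁ e₀) + y e' ≠ 0 ∧ w.ord (j (y₁ e₀) + y e') = - ((V e).natDegree : ℤ) := by
    have h1 := hfar (y e') (y₁ e₀) (by rw [hoy]; omega) hyne
    rw [hoy] at h1
    exact h1
  have hplane : plane (V e) (gn (V e)) (some (j (x₁ e₀), j (y₁ e₀))) (some (x e', y e')) =
      ![j (x₁ e₀) - x e', j (y₁ e₀) + y e',
        j (y₁ e₀) * x e' ^ gn (V e) + y e' * j (x₁ e₀) ^ gn (V e)] := by
    unfold plane
    simp only
    rw [if_neg]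
    rintro ⟨h1, -⟩
    exact hdx.1 (sub_eq_zero.2 h1)
  have hz : φ.φ M (pnt (pp τ s) x y) 0 ≠ 0 := by
    rw [hφu, hplane]
    exact hdx.1
  have hnc : NC k (φ.φ M (pnt (pp τ s) x y)) := by
    refine ⟨1, 0, hz, ?_⟩
    rw [hφu, hplane]
    apply q3_trans (v := w)
    change w.ord ((j (y₁ e₀) + y e') / (j (x₁ e₀) - x e')) < 0
    rw [w.ord_div _ _ hdy.1 hdx.1, hdy.2, hdx.2]
    omega
  -- the divisor of zeros
  have hZ := isZ_two (V e) hG0 hg₁.dim hG1 T hT
  rw [← hφu, hjx, hjy, ← hu, hev1, hev2, hev3] at hZ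
  have hLG := LG φ hΓ hB hg.dim (pnt (pp τ s) x y) hnc 0 hz _ hZ
  have hmk := (QuotientAddGroup.eq_iff_sub_mem (N := RatEq (ext (Lf k) F) (D + 1))).2 hLG
  rw [hmk, map_add, map_add, map_zsmul, map_zsmul]
  have hcl : ∀ (τ' : Fin (D + 1) → Finset (Fin n)) (s' : ∀ a, Pt (F a)) (U : Finset (Fin n)),
      Cmp F (pp τ' s') (fun b => V (e'.succAbove b)) →
      (∀ a, (cst (Lf k) (s' a) : MPt (F a) (Lf k)) = cs (Lf k) s U a) →
      (QuotientAddGroup.mk (B (cyc (pnt (pp τ' s') x₁ y₁))) : CH (ext (Lf k) F) (D + 1)) =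
        cl (pp τ' (cs (Lf k) s U)) := by
    intro τ' s' U h1 h2
    rw [B_cl hF hB (pp τ' s') _ x₁ y₁ h1 hg₁, extD_pp]
    congr 2
    funext a
    exact h2 a
  have c1 := hcl (mrg e e' τ) s ∅ (hcmp s).1 (fun a => by
    unfold cs
    rw [if_neg (Finset.notMem_empty a)])
  have c2 := hcl (dl e' τ) (fun a => if a ∈ τ e' then .inf else s a) (τ e') (hcmp _).2.1
    (fun a => by
      unfold cs
      by_cases h : a ∈ τ e'
      · rw [if_pos h, if_pos h]
        rfl
      · rw [if_neg h, if_neg h])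
  have c3 := hcl (Function.update (dl e' τ) e₀ (τ e')) (fun a => if a ∈ τ e then .inf else s a)
    (τ e) (hcmp _).2.2 (fun a => by
      unfold cs
      by_cases h : a ∈ τ e
      · rw [if_pos h, if_pos h]
        rfl
      · rw [if_neg h, if_neg h])
  -- the permutation
  have hπ : ∀ m : Fin (D + 1), ∃ m' : Fin (D + 1),
      e.succAbove m' = if m = e₀ then e' else e'.succAbove m := by
    intro m
    by_cases h : m = e₀
    · rw [if_pos h]
      exact Fin.exists_succAbove_eq hne.symm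
    · rw [if_neg h]
      apply Fin.exists_succAbove_eq
      intro h1
      rw [← he₀] at h1
      exact h (Fin.succAbove_right_injective h1)
  choose π hπ using hπ
  have hinj : Function.Injective π := by
    intro m m' hmm
    have h1 := hπ m
    have h2 := hπ m'
    rw [hmm, h2] at h1
    by_cases h : m = e₀
    · by_cases h' : m' = e₀
      · rw [h, h']
      · rw [if_pos h, if_neg h'] at h1
        exact absurd h1 (Fin.succAbove_ne _ _)
    · by_cases h' : m' = e₀
      · rw [if_neg h, if_pos h'] at h1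
        exact absurd h1.symm (Fin.succAbove_ne _ _)
      · rw [if_neg h, if_neg h'] at h1
        exact (Fin.succAbove_right_injective h1).symm
  have hupd : Function.update (dl e' τ) e₀ (τ e') = fun m =>
      dl e τ (Equiv.ofBijective π (Finite.injective_iff_bijective.1 hinj) m) := by
    funext m
    rw [Equiv.ofBijective_apply]
    unfold dl
    rw [hπ m]
    by_cases h : m = e₀
    · subst h
      rw [Function.update_self, if_pos rfl]
    · rw [Function.update_of_ne h, if_neg h]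
  rw [hupd] at c3
  rw [cl_pp_perm hext _ (dl e τ) (fun m m' hm => hτ.1 _ _ fun h =>
    hm (Fin.succAbove_right_injective h)) (cs (Lf k) s (τ e))] at c3
  rw [← hupd] at c3
  rw [QuotientAddGroup.mk_add, QuotientAddGroup.mk_add, QuotientAddGroup.mk_zsmul,
    QuotientAddGroup.mk_zsmul, c1, c2, c3, hVa]

end Pool.Agent.LibHL77
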