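import Pool.Agent.LibHL77.Q2
import Pool.Agent.LibHL77.Q3
import Pool.Agent.LibHL77.B7
import Pool.Agent.LibHL77.M4

/-!
[HL77 Q4v] hyperplane section by the second morphism on the Chow groups. Proof. `exists_phiD`, `exists_G`, `G_ratEq` give `CH F (D + 1) →+ CH (ext (Lf k) F) D`
(`QuotientAddGroup.map`); the diagonal `pp τ s` has a generic point (`cmp_pp`, `exists_gen'`, `cl_eq`); `sec_two` (if `D = 0` there are no two different indices), `sec_same`,
`sec_const`, `sec_zero` (both coordinates are constants: `plane` of points over `k` has entries in `k`, `plane_map` for `k → M`).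
-/


open scoped Classical
open Polynomial

namespace Pool.Agent.LibHL77

open Pool.Agent.LibBH2
open Pool.Agent.LibCHd (VR RF Red FunF IsCps)
open Pool.Agent.LibHyp34 (Hyp Pt Pic jP Sp KC DCf gn)
open Pool.Agent.LibHD77
open Pool.Agent.LibHD77.Comb (Pat sub Cmp)

variable {k : Type} [Field k] [CharZero k] {n : ℕ}

omit [CharZero k] in
theorem q4v_const {F : Fin n → k[X]} {D : ℕ} (τ : Fin D → Finset (Fin n)) (s : ∀ a, Pt (F a))
    {M : Type} [Field M] [Algebra k M] (x y : Fin D → M) (a : Fin n) (h : ∀ e, a ∉ τ e) :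
    pnt (pp τ s) x y a = cst M (s a) := by
  have h1 : (pp τ s : Dia F D) a = .inl (s a) := dif_neg (by
    rintro ⟨e, he⟩
    exact h e he)
  unfold pnt
  rw [h1]

omit [CharZero k] in
theorem q4v_opt {M : Type} [Field M] [Algebra k M] {f : k[X]} (p : Pt f) :
    opt (cst M p : MPt f M) = (opt p).map (fun q => (algebraMap k M q.1, algebraMap k M q.2)) := by
  match p with
  | .inf => rfl
  | .aff x₁ y₁ h₁ => rfl

omit [CharZero k] in
theorem q4v_plane {M : Type} [Field M] [Algebra k M] (f : k[X]) (g : ℕ) (P Q : Option (k × k))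
    (i : Fin 3) : ∃ c : k,
      plane f g (P.map (fun q => (algebraMap k M q.1, algebraMap k M q.2)))
        (Q.map (fun q => (algebraMap k M q.1, algebraMap k M q.2))) i = algebraMap k M c := by
  refine ⟨plane f g P Q i, ?_⟩
  match P, Q with
  | none, none => fin_cases i <;> simp [plane]
  | none, some Q => fin_cases i <;> simp [plane]
  | some P, none => fin_cases i <;> simp [plane]
  | some P, some Q =>
    have h1 : (algebraMap k M P.1 = algebraMap k M Q.1 ∧ algebraMap k M P.2 = - algebraMap k M Q.2) ↔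
        (P.1 = Q.1 ∧ P.2 = - Q.2) := by
      rw [← map_neg, (algebraMap k M).injective.eq_iff, (algebraMap k M).injective.eq_iff]
    by_cases h2 : P.1 = Q.1 ∧ P.2 = - Q.2
    · have h3 := h1.2 h2
      fin_cases i <;> simp [plane, h2, aeval_algebraMap_apply]
    · have h3 : ¬ (algebraMap k M P.1 = algebraMap k M Q.1 ∧
        algebraMap k M P.2 = - algebraMap k M Q.2) := fun h => h2 (h1.1 h)
      fin_cases i <;> simp only [plane, Option.map_some, if_neg h2, if_neg h3] <;> simp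

theorem exists_V (F : Fin n → k[X]) (hF : ∀ a, Hyp (F a)) (D : ℕ) (a b : Fin n)
    (hab : F a = F b) :
    ∃ V : CH F (D + 1) →+ CH (ext (Lf k) F) D, ∀ (τ : Fin (D + 1) → Finset (Fin n))
      (s : ∀ a, Pt (F a)), Val F τ →
      (∀ e e', e ≠ e' → a ∈ τ e → b ∈ τ e' → V (cl (pp τ s)) =
        cl (pp (mrg e e' τ) (cs (Lf k) s ∅)) +
        (2 * gn (F a) - 1 : ℤ) • cl (pp (dl e τ) (cs (Lf k) s (τ e))) +
        (2 * gn (F a) - 1 : ℤ) • cl (pp (dl e' τ) (cs (Lf k) s (τ e')))) ∧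
      (∀ e, a ∈ τ e → b ∈ τ e → V (cl (pp τ s)) =
        (2 * gn (F a) : ℤ) • cl (pp (dl e τ) (cs (Lf k) s (τ e)))) ∧
      (∀ e, a ∈ τ e → (∀ i, b ∉ τ i) → V (cl (pp τ s)) =
        cl (pp (dl e τ) (st (Lf k) s (τ e) b)) +
          (2 * gn (F a) - 1 : ℤ) • cl (pp (dl e τ) (cs (Lf k) s (τ e)))) ∧
      (∀ e, b ∈ τ e → (∀ i, a ∉ τ i) → V (cl (pp τ s)) =
        cl (pp (dl e τ) (st (Lf k) s (τ e) a)) +
          (2 * gn (F a) - 1 : ℤ) • cl (pp (dl e τ) (cs (Lf k) s (τ e)))) ∧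
      ((∀ i, a ∉ τ i) → (∀ i, b ∉ τ i) → V (cl (pp τ s)) = 0) := by
  obtain ⟨φ, hφ⟩ := exists_phiD F a b hab
  obtain ⟨Γ, hΓ⟩ := exists_G φ D
  refine ⟨QuotientAddGroup.map (RatEq F (D + 1)) (RatEq (ext (Lf k) F) D) Γ
    (fun c hc => G_ratEq φ hΓ c hc), fun τ s hτ => ?_⟩
  obtain ⟨V, hc⟩ := cmp_pp τ s hτ
  obtain ⟨M, iF, iA, x, y, hg⟩ := exists_gen' V (fun e => T1_hV hF hc e)
  have key : QuotientAddGroup.map (RatEq F (D + 1)) (RatEq (ext (Lf k) F) D) Γ
      (fun c hc => G_ratEq φ hΓ c hc) (cl (pp τ s : Dia F (D + 1))) =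
      (QuotientAddGroup.mk (Γ (cyc (pnt (pp τ s) x y))) : CH (ext (Lf k) F) D) := by
    rw [cl_eq hF _ V x y hc hg]
    rfl
  refine ⟨?_, ?_, ?_, ?_, ?_⟩
  · intro e e' hne ha hb
    rw [key]
    match D, Γ, hΓ, τ, s, hτ, V, hc, x, y, hg, e, e', hne, ha, hb with
    | 0, _, _, _, _, _, _, _, _, _, _, e, e', hne, _, _ => exact absurd (Fin.ext (by omega)) hne
    | D + 1, Γ, hΓ, τ, s, hτ, V, hc, x, y, hg, e, e', hne, ha, hb =>
      exact sec_two hF φ a b hab hφ hΓ τ s hτ V x y hc hg e e' hne ha hb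
  · intro e ha hb
    rw [key]
    exact sec_same hF φ a b hab hφ hΓ τ s hτ V x y hc hg e ha hb
  · intro e ha hb
    rw [key]
    exact (sec_const hF φ a b hab hφ hΓ τ s hτ V x y hc hg e).1 ha hb
  · intro e hb ha
    rw [key]
    exact (sec_const hF φ a b hab hφ hΓ τ s hτ V x y hc hg e).2 hb ha
  · intro ha hb
    rw [key]
    refine sec_zero φ hΓ τ s V x y hg fun i => ?_
    rw [hφ, q4v_const τ s x y a ha, q4v_const τ s x y b hb, q4v_opt, q4v_opt]
    exact q4v_plane _ _ _ _ i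

end Pool.Agent.LibHL77
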