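import Pool.Agent.LibHL77.QDefs

/-!
Combinatorics of the lower bound: definitions (no geometry is used).
-/

open scoped Classical

namespace Pool.Agent.LibHL77

variable {n : ℕ}

/-- The properties of two families of classes `Φ` (`D + 1` blocks) and `Φ'` (`D` blocks) and of homomorphisms
`W a`, `E a b` between the groups. `l` are the curves, `o, o'` the points at infinity, `c` the base change
of points, `t` the transport of points between equal curves. -/
structure Ops {D : ℕ} {Lb : Type} (l : Fin n → Lb) (g : Fin n → ℤ) {A A' : Fin n → Type}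
    (o' : ∀ a, A' a) (c : ∀ a, A a → A' a) (t : ∀ a b, A b → A a) {G G' : Type}
    [AddCommGroup G] [AddCommGroup G'] (Φ : (Fin (D + 1) → Finset (Fin n)) → (∀ a, A a) → G)
    (Φ' : (Fin D → Finset (Fin n)) → (∀ a, A' a) → G') (W : Fin n → G →+ G')
    (E : Fin n → Fin n → G →+ G') : Prop where
  W1 : ∀ a e τ s, Val l τ → a ∈ τ e →
    W a (Φ τ s) = (2 : ℤ) • Φ' (dl e τ) (fun x => if x ∈ τ e then o' x else c x (s x))
  W0 : ∀ a τ s, Val l τ → (∀ e, a ∉ τ e) → W a (Φ τ s) = 0
  E1 : ∀ a b, a ≠ b → l a = l b → ∀ e e' τ s, Val l τ → e ≠ e' → a ∈ τ e → b ∈ τ e' →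
    E a b (Φ τ s) =
      Φ' (fun i => if e'.succAbove i = e then (τ e ∪ τ e') \ {a, b} else τ (e'.succAbove i))
        (fun x => if x = a ∨ x = b then o' x else c x (s x)) -
      Φ' (fun i => τ (e.succAbove i) \ {b})
        (fun x => if x ∈ τ e ∨ x = b then o' x else c x (s x)) -
      Φ' (fun i => τ (e'.succAbove i) \ {a})
        (fun x => if x ∈ τ e' ∨ x = a then o' x else c x (s x))
  E2 : ∀ a b, a ≠ b → l a = l b → ∀ e τ s, Val l τ → a ∈ τ e → b ∈ τ e →
    E a b (Φ τ s) = (- 2 * g a) • Φ' (dl e τ) (fun x => if x ∈ τ e then o' x else c x (s x))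
  E3 : ∀ a b, a ≠ b → l a = l b → ∀ e τ s, Val l τ → a ∈ τ e → (∀ i, b ∉ τ i) →
    E a b (Φ τ s) =
      Φ' (dl e τ) (fun x => if x = a ∨ x = b then o' x else
        if x ∈ τ e then c x (t x b (s b)) else c x (s x)) -
      Φ' (dl e τ) (fun x => if x ∈ τ e ∨ x = b then o' x else c x (s x))
  E4 : ∀ a b, a ≠ b → l a = l b → ∀ e τ s, Val l τ → b ∈ τ e → (∀ i, a ∉ τ i) →
    E a b (Φ τ s) =
      Φ' (dl e τ) (fun x => if x = a ∨ x = b then o' x else
        if x ∈ τ e then c x (t x a (s a)) else c x (s x)) -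
      Φ' (dl e τ) (fun x => if x ∈ τ e ∨ x = a then o' x else c x (s x))
  E0 : ∀ a b, a ≠ b → l a = l b → ∀ τ s, Val l τ → (∀ i, a ∉ τ i) → (∀ i, b ∉ τ i) →
    E a b (Φ τ s) = 0
  Z : ∀ τ s, (∃ e, τ e = ∅) → Φ' τ s = 0
  C : ∀ τ s s', (∀ a, (∀ e, a ∉ τ e) → s a = s' a) → Φ' τ s = Φ' τ s'

section

variable {D : ℕ} {Lb : Type} {A : Fin n → Type} {G : Type} [AddCommGroup G]
  {J : Type} [Fintype J]

/-- the number belonging to the set of blocks `T` -/
noncomputable def Mt (m : J → ℤ) (τ : J → Fin D → Finset (Fin n)) (T : Finset (Finset (Fin n))) :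
    ℚ := ∑ j, if Finset.univ.image (τ j) = T then (m j : ℚ) else 0

/-- the value belonging to the set of blocks `T` and the coordinate `a` -/
noncomputable def Nt (m : J → ℤ) (τ : J → Fin D → Finset (Fin n)) (s : J → ∀ a, A a)
    (val : ∀ a, A a → ℚ) (T : Finset (Finset (Fin n))) (a : Fin n) : ℚ :=
  ∑ j, if Finset.univ.image (τ j) = T then (m j : ℚ) * val a (s j a) else 0

/-- a family of `D` blocks with one or two elements -/
def Atm (l : Fin n → Lb) (τ : Fin D → Finset (Fin n)) : Prop :=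
  Val l τ ∧ ∀ e, (τ e).card ≤ 2

/-- the combinations of classes of diagonals with blocks with one or two elements are determined by their
numbers -/
def Det (l : Fin n → Lb) (Φ : (Fin D → Finset (Fin n)) → (∀ a, A a) → G)
    (val : ∀ a, A a → ℚ) : Prop :=
  ∀ (J : Type) (_ : Fintype J) (m : J → ℤ) (τ : J → Fin D → Finset (Fin n)) (s : J → ∀ a, A a),
    (∀ j, Atm l (τ j)) → IsOfFinAddOrder (∑ j, m j • Φ (τ j) (s j)) →
    ∀ T : Finset (Finset (Fin n)), Mt m τ T = 0 ∧
      ∀ a, (∀ t ∈ T, a ∉ t) → Nt m τ s val T a = 0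

end

end Pool.Agent.LibHL77
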