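import Pool.Agent.LibHL77.Q4w
import Pool.Agent.LibHL77.Q4v
import Pool.Agent.LibHL77.Q4r
import Pool.Agent.LibHL77.SDefs

/-!
[HL77 Q4b] the operations. Proof. `W a` from `exists_W`. For `a ≠ b`, `F a = F b` let `E a b = R_a R_b V - g R_b W_a - g R_a W_b` with `V` from `exists_V`, `R_a, R_b` from
`exists_Rc` for `ext (Lf k) F`, `g = gn (F a)` (otherwise `E a b = 0`). E1: `R_a R_b` of the three terms of `V`: the blocks `mrg e e' τ` without `a, b`; `dl e τ` without `b` (and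
without `a`, which is not there); the coefficients `(2 g - 1) - 2 g = -1`. E2: `2 g - 2 g - 2 g`. E3: `W b = 0`; `1`, `(2 g - 1) - 2 g`. Use `cl_pp_congr`, `cl_pp_empty`
(`exists_Rc` needs `Val`: the intermediate blocks after the first `R` may be empty: then use that `cl (pp ..) = 0` and `R 0 = 0`). `Val` for `ext (Lf k) F`: `ext_inj`. `C`, `Z`: `cl_pp_congr`, `cl_pp_empty`.
-/

open scoped Classical
open Polynomial

namespace Pool.Agent.LibHL77

open Pool.Agent.LibBH2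
open Pool.Agent.LibCHd (VR RF Red FunF IsCps)
open Pool.Agent.LibHyp34 (Hyp Pt Pic jP Sp KC DCf gn)
open Pool.Agent.LibHD77
open Pool.Agent.LibHD77.Comb (Pat sub Cmp)

variable {k : Type} [Field k] [CharZero k] {n : ℕ}

/-- `Val` without the condition that the blocks are not empty -/
private def q4bWV {D : ℕ} {Lb : Type} (l : Fin n → Lb) (τ : Fin D → Finset (Fin n)) : Prop :=
  (∀ e e', e ≠ e' → Disjoint (τ e) (τ e')) ∧ ∀ e, ∀ a ∈ τ e, ∀ b ∈ τ e, l a = l b

private theorem q4b_sdiff {D : ℕ} {Lb : Type} {l : Fin n → Lb} {τ : Fin D → Finset (Fin n)}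
    (h : q4bWV l τ) (a : Fin n) : q4bWV l (fun e => τ e \ {a}) := by
  refine ⟨fun e e' he => ?_, fun e x hx y hy => ?_⟩
  · exact (h.1 e e' he).mono Finset.sdiff_subset Finset.sdiff_subset
  · exact h.2 e x (Finset.sdiff_subset hx) y (Finset.sdiff_subset hy)

private theorem q4b_R {L : Type} [Field L] {D : ℕ} {F : Fin n → L[X]} {a : Fin n}
    {R : CH F D →+ CH F D}
    (hR : ∀ (τ : Fin D → Finset (Fin n)) (s : ∀ a, Pt (F a)), Val F τ →
      R (cl (pp τ s)) = cl (pp (fun e => τ e \ {a}) (fun x => if x = a then .inf else s x)))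
    (τ : Fin D → Finset (Fin n)) (s : ∀ a, Pt (F a)) (hτ : q4bWV F τ) :
    R (cl (pp τ s)) = cl (pp (fun e => τ e \ {a}) (fun x => if x = a then .inf else s x)) := by
  by_cases h : ∃ e, τ e = ∅
  · obtain ⟨e, he⟩ := h
    rw [cl_pp_empty τ s ⟨e, he⟩, map_zero, cl_pp_empty]
    refine ⟨e, ?_⟩
    rw [he]
    rfl
  · push Not at h
    exact hR τ s ⟨hτ.1, fun e => ⟨h e, hτ.2 e⟩⟩

private theorem q4b_RR {L : Type} [Field L] {D : ℕ} {F : Fin n → L[X]} {a b : Fin n}
    {Ra Rb : CH F D →+ CH F D}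
    (hRa : ∀ (τ : Fin D → Finset (Fin n)) (s : ∀ a, Pt (F a)), Val F τ →
      Ra (cl (pp τ s)) = cl (pp (fun e => τ e \ {a}) (fun x => if x = a then .inf else s x)))
    (hRb : ∀ (τ : Fin D → Finset (Fin n)) (s : ∀ a, Pt (F a)), Val F τ →
      Rb (cl (pp τ s)) = cl (pp (fun e => τ e \ {b}) (fun x => if x = b then .inf else s x)))
    (τ : Fin D → Finset (Fin n)) (s : ∀ a, Pt (F a)) (hτ : q4bWV F τ) :
    Ra (Rb (cl (pp τ s))) = cl (pp (fun e => (τ e \ {b}) \ {a})
      (fun x => if x = a then .inf else if x = b then .inf else s x)) := by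
  rw [q4b_R hRb τ s hτ, q4b_R hRa _ _ (q4b_sdiff hτ b)]

private theorem q4b_dl {L : Type} [Field L] [Algebra k L] {D : ℕ} {F : Fin n → k[X]}
    {τ : Fin (D + 1) → Finset (Fin n)} (h : Val F τ) (e : Fin (D + 1)) :
    q4bWV (ext L F) (dl e τ) := by
  refine ⟨fun i j hij => h.1 _ _ fun hh => hij (Fin.succAbove_right_injective hh),
    fun i x hx y hy => ?_⟩
  show (F x).map (algebraMap k L) = (F y).map (algebraMap k L)
  rw [(h.2 _).2 x hx y hy]

private theorem q4b_mrg {L : Type} [Field L] [Algebra k L] {D : ℕ} {F : Fin n → k[X]}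
    {τ : Fin (D + 1) → Finset (Fin n)} (h : Val F τ) {e e' : Fin (D + 1)} (hee : e ≠ e')
    {a b : Fin n} (hab : F a = F b) (ha : a ∈ τ e) (hb : b ∈ τ e') :
    q4bWV (ext L F) (mrg e e' τ) := by
  have hu : ∀ x ∈ τ e ∪ τ e', F x = F a := by
    intro x hx
    rcases Finset.mem_union.1 hx with hx | hx
    · exact (h.2 e).2 x hx a ha
    · rw [hab]
      exact (h.2 e').2 x hx b hb
  refine ⟨fun i j hij => ?_, fun i x hx y hy => ?_⟩
  · have hij' : e'.succAbove i ≠ e'.succAbove j :=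
      fun hh => hij (Fin.succAbove_right_injective hh)
    unfold mrg
    split_ifs with h1 h2 h2
    · exact absurd (h1.trans h2.symm) hij'
    · rw [Finset.disjoint_union_left]
      exact ⟨h.1 _ _ fun hh => h2 hh.symm, h.1 _ _ fun hh => Fin.succAbove_ne e' j hh.symm⟩
    · rw [Finset.disjoint_union_right]
      exact ⟨h.1 _ _ h1, h.1 _ _ (Fin.succAbove_ne e' i)⟩
    · exact h.1 _ _ hij'
  · show (F x).map (algebraMap k L) = (F y).map (algebraMap k L)
    unfold mrg at hx hy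
    split_ifs at hx hy with h1
    · rw [hu x hx, hu y hy]
    · rw [(h.2 _).2 x hx y hy]

private theorem q4b_sd {t : Finset (Fin n)} {a : Fin n} (h : a ∉ t) : t \ {a} = t :=
  Finset.sdiff_eq_self_of_disjoint (Finset.disjoint_singleton_right.2 h)

/-- blocks and constants may be changed -/
private theorem q4b_congr {L : Type} [Field L] {D : ℕ} {F : Fin n → L[X]}
    {τ τ' : Fin D → Finset (Fin n)} {s s' : ∀ a, Pt (F a)} (h : ∀ e, τ e = τ' e)
    (h' : ∀ a, s a = s' a) : cl (pp τ s : Dia F D) = cl (pp τ' s') := by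
  have e1 : τ = τ' := funext h
  have e2 : s = s' := funext h'
  rw [e1, e2]

theorem exists_ops (F : Fin n → k[X]) (hF : ∀ a, Hyp (F a)) (D : ℕ) :
    ∃ (W : Fin n → CH F (D + 1) →+ CH (ext (Lf k) F) D)
      (E : Fin n → Fin n → CH F (D + 1) →+ CH (ext (Lf k) F) D),
      Ops F (fun a => (gn (F a) : ℤ)) (og (ext (Lf k) F))
        (fun a s => (cst (Lf k) s : MPt (F a) (Lf k))) (fun a b => tr (F b) (F a))
        (fun τ s => cl (pp τ s : Dia F (D + 1)))
        (fun τ s => cl (pp τ s : Dia (ext (Lf k) F) D)) W E := by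
  have hF' : ∀ a, Hyp (ext (Lf k) F a) := fun a => hyp_map (Lf k) (F a) (hF a)
  choose W hW using exists_W F hF D
  choose R hR using exists_Rc (ext (Lf k) F) hF' D
  have hVex : ∀ a b, ∃ V : CH F (D + 1) →+ CH (ext (Lf k) F) D, F a = F b →
      ∀ (τ : Fin (D + 1) → Finset (Fin n)) (s : ∀ a, Pt (F a)), Val F τ →
      (∀ e e', e ≠ e' → a ∈ τ e → b ∈ τ e' → V (cl (pp τ s)) =
        cl (pp (mrg e e' τ) (cs (Lf k) s ∅)) +
        (2 * gn (F a) - 1 : ℤ) • cl (pp (dl e τ) (cs (Lf k) s (τ e))) +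
        (2 * gn (F a) - 1 : ℤ) • cl (pp (dl e' τ) (cs (Lf k) s (τ e')))) ∧
      (∀ e, a ∈ τ e → b ∈ τ e → V (cl (pp τ s)) =
        (2 * gn (F a) : ℤ) • cl (pp (dl e τ) (cs (Lf k) s (τ e)))) ∧
      (∀ e, a ∈ τ e → (∀ i, b ∉ τ i) → V (cl (pp τ s)) =
        cl (pp (dl e τ) (st (Lf k) s (τ e) b)) +
          (2 * gn (F a) - 1 : ℤ) • cl (pp (dl e τ) (cs (Lf k) s (τ e)))) ∧
      (∀ e, b ∈ τ e → (∀ i, a ∉ τ i) → V (cl (pp τ s)) =
        cl (pp (dl e τ) (st (Lf k) s (τ e) a)) +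
          (2 * gn (F a) - 1 : ℤ) • cl (pp (dl e τ) (cs (Lf k) s (τ e)))) ∧
      ((∀ i, a ∉ τ i) → (∀ i, b ∉ τ i) → V (cl (pp τ s)) = 0) := by
    intro a b
    by_cases hab : F a = F b
    · obtain ⟨V, hV⟩ := exists_V F hF D a b hab
      exact ⟨V, fun _ => hV⟩
    · exact ⟨0, fun h => absurd h hab⟩
  choose V hV using hVex
  have hRR := fun (a b : Fin n) => q4b_RR (hR a) (hR b)
  have hRw := fun a => q4b_R (hR a)
  -- a block which does not contain `x`
  have hout : ∀ {τ : Fin (D + 1) → Finset (Fin n)} (_ : Val F τ) {x : Fin n} {e : Fin (D + 1)}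
      (_ : x ∈ τ e) {i : Fin (D + 1)}, i ≠ e → x ∉ τ i := by
    intro τ hτ x e hx i hi hx'
    exact Finset.disjoint_left.1 (hτ.1 i e hi) hx' hx
  refine ⟨W, fun a b => (R a).comp ((R b).comp (V a b)) - (gn (F a) : ℤ) • (R b).comp (W a) -
    (gn (F a) : ℤ) • (R a).comp (W b), ?_, ?_, ?_, ?_, ?_, ?_, ?_, ?_, ?_⟩
  · intro a e τ s hτ ha
    exact (hW a τ s hτ).1 e ha
  · intro a τ s hτ ha
    exact (hW a τ s hτ).2 ha
  · -- E1
    intro a b hab hFab e e' τ s hτ hee ha hb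
    obtain ⟨T1, hT1⟩ : ∃ T : CH (ext (Lf k) F) D, T = cl (pp (fun i => if e'.succAbove i = e then
      (τ e ∪ τ e') \ {a, b} else τ (e'.succAbove i)) (fun x => if x = a ∨ x = b then
        og (ext (Lf k) F) x else (cst (Lf k) (s x) : MPt (F x) (Lf k)))) := ⟨_, rfl⟩
    obtain ⟨T2, hT2⟩ : ∃ T : CH (ext (Lf k) F) D, T = cl (pp (fun i => τ (e.succAbove i) \ {b})
      (fun x => if x ∈ τ e ∨ x = b then og (ext (Lf k) F) x else
        (cst (Lf k) (s x) : MPt (F x) (Lf k)))) := ⟨_, rfl⟩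
    obtain ⟨T3, hT3⟩ : ∃ T : CH (ext (Lf k) F) D, T = cl (pp (fun i => τ (e'.succAbove i) \ {a})
      (fun x => if x ∈ τ e' ∨ x = a then og (ext (Lf k) F) x else
        (cst (Lf k) (s x) : MPt (F x) (Lf k)))) := ⟨_, rfl⟩
    have k1 : R a (R b (cl (pp (mrg e e' τ) (cs (Lf k) s ∅)))) = T1 := by
      rw [hRR a b _ _ (q4b_mrg hτ hee hFab ha hb), hT1]
      refine q4b_congr (fun i => ?_) (fun x => ?_)
      · unfold mrg
        split_ifs with h1
        · rw [sdiff_sdiff_left]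
          congr 1
          ext y
          simp [or_comm]
        · rw [q4b_sd (hout hτ hb (Fin.succAbove_ne e' i)), q4b_sd (hout hτ ha h1)]
      · by_cases h1 : x = a <;> by_cases h2 : x = b <;> simp [h1, h2, cs, og]
    have k2 : R b (cl (pp (dl e τ) (cs (Lf k) s (τ e)))) = T2 := by
      rw [hRw b _ _ (q4b_dl hτ e), hT2]
      refine q4b_congr (fun i => rfl) (fun x => ?_)
      by_cases h1 : x ∈ τ e <;> by_cases h2 : x = b <;> simp [h1, h2, cs, og]
    have k2' : R a (R b (cl (pp (dl e τ) (cs (Lf k) s (τ e))))) = T2 := by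
      rw [hRR a b _ _ (q4b_dl hτ e), hT2]
      refine q4b_congr (fun i => ?_) (fun x => ?_)
      · show (τ (e.succAbove i) \ {b}) \ {a} = τ (e.succAbove i) \ {b}
        exact q4b_sd fun hh => hout hτ ha (Fin.succAbove_ne e i) (Finset.sdiff_subset hh)
      · by_cases h1 : x = a
        · simp [h1, ha, og]
        · by_cases h2 : x = b <;> by_cases h3 : x ∈ τ e <;> simp [h1, h2, h3, cs, og]
    have k3 : R a (cl (pp (dl e' τ) (cs (Lf k) s (τ e')))) = T3 := by
      rw [hRw a _ _ (q4b_dl hτ e'), hT3]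
      refine q4b_congr (fun i => rfl) (fun x => ?_)
      by_cases h1 : x ∈ τ e' <;> by_cases h2 : x = a <;> simp [h1, h2, cs, og]
    have k3' : R a (R b (cl (pp (dl e' τ) (cs (Lf k) s (τ e'))))) = T3 := by
      rw [hRR a b _ _ (q4b_dl hτ e'), hT3]
      refine q4b_congr (fun i => ?_) (fun x => ?_)
      · show (τ (e'.succAbove i) \ {b}) \ {a} = τ (e'.succAbove i) \ {a}
        rw [q4b_sd (hout hτ hb (Fin.succAbove_ne e' i))]
      · by_cases h1 : x = b
        · by_cases h2 : x = a <;> simp [h1, h2, hb, og]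
        · by_cases h2 : x = a <;> by_cases h3 : x ∈ τ e' <;> simp [h1, h2, h3, cs, og]
    show R a (R b (V a b (cl (pp τ s)))) - (gn (F a) : ℤ) • R b (W a (cl (pp τ s))) -
      (gn (F a) : ℤ) • R a (W b (cl (pp τ s))) = _
    rw [(hV a b hFab τ s hτ).1 e e' hee ha hb, (hW a τ s hτ).1 e ha, (hW b τ s hτ).1 e' hb,
      map_add, map_add, map_add, map_add, map_zsmul, map_zsmul, map_zsmul, map_zsmul, map_zsmul,
      map_zsmul, k1, k2', k2, k3', k3, ← hT1, ← hT2, ← hT3]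
    module
  · -- E2
    intro a b hab hFab e τ s hτ ha hb
    obtain ⟨T, hT⟩ : ∃ T : CH (ext (Lf k) F) D, T = cl (pp (dl e τ) (fun x => if x ∈ τ e then
      og (ext (Lf k) F) x else (cst (Lf k) (s x) : MPt (F x) (Lf k)))) := ⟨_, rfl⟩
    have k1 : R b (cl (pp (dl e τ) (cs (Lf k) s (τ e)))) = T := by
      rw [hRw b _ _ (q4b_dl hτ e), hT]
      refine q4b_congr (fun i => q4b_sd (hout hτ hb (Fin.succAbove_ne e i))) (fun x => ?_)
      by_cases h1 : x = b
      · simp [h1, hb, og]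
      · simp [h1, cs, og]
    have k2 : R a (cl (pp (dl e τ) (cs (Lf k) s (τ e)))) = T := by
      rw [hRw a _ _ (q4b_dl hτ e), hT]
      refine q4b_congr (fun i => q4b_sd (hout hτ ha (Fin.succAbove_ne e i))) (fun x => ?_)
      by_cases h1 : x = a
      · simp [h1, ha, og]
      · simp [h1, cs, og]
    have k3 : R a T = T := by
      have e1 : T = cl (pp (dl e τ) (cs (Lf k) s (τ e))) := hT
      conv_lhs => rw [e1]
      exact k2
    show R a (R b (V a b (cl (pp τ s)))) - (gn (F a) : ℤ) • R b (W a (cl (pp τ s))) -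
      (gn (F a) : ℤ) • R a (W b (cl (pp τ s))) = _
    rw [(hV a b hFab τ s hτ).2.1 e ha hb, (hW a τ s hτ).1 e ha, (hW b τ s hτ).1 e hb,
      map_zsmul, map_zsmul, map_zsmul, map_zsmul, k1, k2, k3, ← hT]
    module
  · -- E3
    intro a b hab hFab e τ s hτ ha hb
    obtain ⟨T1, hT1⟩ : ∃ T : CH (ext (Lf k) F) D, T = cl (pp (dl e τ) (fun x =>
      if x = a ∨ x = b then og (ext (Lf k) F) x else if x ∈ τ e then
        (cst (Lf k) (tr (F b) (F x) (s b)) : MPt (F x) (Lf k)) else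
        (cst (Lf k) (s x) : MPt (F x) (Lf k)))) := ⟨_, rfl⟩
    obtain ⟨T2, hT2⟩ : ∃ T : CH (ext (Lf k) F) D, T = cl (pp (dl e τ) (fun x =>
      if x ∈ τ e ∨ x = b then og (ext (Lf k) F) x else
        (cst (Lf k) (s x) : MPt (F x) (Lf k)))) := ⟨_, rfl⟩
    have k1 : R a (R b (cl (pp (dl e τ) (st (Lf k) s (τ e) b)))) = T1 := by
      rw [hRR a b _ _ (q4b_dl hτ e), hT1]
      refine q4b_congr (fun i => ?_) (fun x => ?_)
      · show (τ (e.succAbove i) \ {b}) \ {a} = τ (e.succAbove i)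
        rw [q4b_sd (hb _), q4b_sd (hout hτ ha (Fin.succAbove_ne e i))]
      · by_cases h1 : x = a
        · simp [h1, og]
        · by_cases h2 : x = b
          · simp [h2, og]
          · by_cases h3 : x ∈ τ e <;> simp [h1, h2, h3, st]
    have k2 : R b (cl (pp (dl e τ) (cs (Lf k) s (τ e)))) = T2 := by
      rw [hRw b _ _ (q4b_dl hτ e), hT2]
      refine q4b_congr (fun i => q4b_sd (hb _)) (fun x => ?_)
      by_cases h1 : x ∈ τ e <;> by_cases h2 : x = b <;> simp [h1, h2, cs, og]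
    have k2' : R a (R b (cl (pp (dl e τ) (cs (Lf k) s (τ e))))) = T2 := by
      rw [hRR a b _ _ (q4b_dl hτ e), hT2]
      refine q4b_congr (fun i => ?_) (fun x => ?_)
      · show (τ (e.succAbove i) \ {b}) \ {a} = τ (e.succAbove i)
        rw [q4b_sd (hb _), q4b_sd (hout hτ ha (Fin.succAbove_ne e i))]
      · by_cases h1 : x = a
        · simp [h1, ha, og]
        · by_cases h2 : x = b <;> by_cases h3 : x ∈ τ e <;> simp [h1, h2, h3, cs, og]
    show R a (R b (V a b (cl (pp τ s)))) - (gn (F a) : ℤ) • R b (W a (cl (pp τ s))) -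
      (gn (F a) : ℤ) • R a (W b (cl (pp τ s))) = _
    rw [(hV a b hFab τ s hτ).2.2.1 e ha hb, (hW a τ s hτ).1 e ha, (hW b τ s hτ).2 hb,
      map_add, map_add, map_zsmul, map_zsmul, map_zsmul, map_zero, k1, k2', k2, ← hT1, ← hT2]
    module
  · -- E4
    intro a b hab hFab e τ s hτ hb ha
    obtain ⟨T1, hT1⟩ : ∃ T : CH (ext (Lf k) F) D, T = cl (pp (dl e τ) (fun x =>
      if x = a ∨ x = b then og (ext (Lf k) F) x else if x ∈ τ e then
        (cst (Lf k) (tr (F a) (F x) (s a)) : MPt (F x) (Lf k)) else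
        (cst (Lf k) (s x) : MPt (F x) (Lf k)))) := ⟨_, rfl⟩
    obtain ⟨T2, hT2⟩ : ∃ T : CH (ext (Lf k) F) D, T = cl (pp (dl e τ) (fun x =>
      if x ∈ τ e ∨ x = a then og (ext (Lf k) F) x else
        (cst (Lf k) (s x) : MPt (F x) (Lf k)))) := ⟨_, rfl⟩
    have k1 : R a (R b (cl (pp (dl e τ) (st (Lf k) s (τ e) a)))) = T1 := by
      rw [hRR a b _ _ (q4b_dl hτ e), hT1]
      refine q4b_congr (fun i => ?_) (fun x => ?_)
      · show (τ (e.succAbove i) \ {b}) \ {a} = τ (e.succAbove i)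
        rw [q4b_sd (hout hτ hb (Fin.succAbove_ne e i)), q4b_sd (ha _)]
      · by_cases h1 : x = a
        · simp [h1, og]
        · by_cases h2 : x = b
          · simp [h2, og]
          · by_cases h3 : x ∈ τ e <;> simp [h1, h2, h3, st]
    have k2 : R a (cl (pp (dl e τ) (cs (Lf k) s (τ e)))) = T2 := by
      rw [hRw a _ _ (q4b_dl hτ e), hT2]
      refine q4b_congr (fun i => q4b_sd (ha _)) (fun x => ?_)
      by_cases h1 : x ∈ τ e <;> by_cases h2 : x = a <;> simp [h1, h2, cs, og]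
    have k2' : R a (R b (cl (pp (dl e τ) (cs (Lf k) s (τ e))))) = T2 := by
      rw [hRR a b _ _ (q4b_dl hτ e), hT2]
      refine q4b_congr (fun i => ?_) (fun x => ?_)
      · show (τ (e.succAbove i) \ {b}) \ {a} = τ (e.succAbove i)
        rw [q4b_sd (hout hτ hb (Fin.succAbove_ne e i)), q4b_sd (ha _)]
      · by_cases h1 : x = b
        · by_cases h2 : x = a <;> simp [h1, h2, hb, og]
        · by_cases h2 : x = a <;> by_cases h3 : x ∈ τ e <;> simp [h1, h2, h3, cs, og]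
    show R a (R b (V a b (cl (pp τ s)))) - (gn (F a) : ℤ) • R b (W a (cl (pp τ s))) -
      (gn (F a) : ℤ) • R a (W b (cl (pp τ s))) = _
    rw [(hV a b hFab τ s hτ).2.2.2.1 e hb ha, (hW a τ s hτ).2 ha, (hW b τ s hτ).1 e hb,
      map_add, map_add, map_zsmul, map_zsmul, map_zsmul, map_zero, k1, k2', k2, ← hT1, ← hT2]
    module
  · -- E0
    intro a b hab hFab τ s hτ ha hb
    show R a (R b (V a b (cl (pp τ s)))) - (gn (F a) : ℤ) • R b (W a (cl (pp τ s))) -
      (gn (F a) : ℤ) • R a (W b (cl (pp τ s))) = 0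
    rw [(hV a b hFab τ s hτ).2.2.2.2 ha hb, (hW a τ s hτ).2 ha, (hW b τ s hτ).2 hb]
    simp
  · intro τ s h
    exact cl_pp_empty τ s h
  · intro τ s s' h
    exact cl_pp_congr τ s s' h

end Pool.Agent.LibHL77
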