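import Pool.Agent.LibHL77.SDefs

/-!
[HL77 S2] the relation between the values given by `E a b` (pure combinatorics). Proof as in S1 (written out independently): `IH` for `T` and the
coordinate `z` (`z ≠ a, b`, `z` in no element of `T`). E2: the constant at `z` is `c z (s z)`, value `val z (s z)` (`hval`). E1: the same for the
first term. E3: `τ e = {a, x}`, `b` in no block: the blocks `dl e τ` of both terms have the image `T` iff
`image (τ j) = insert {a, x} T`; the constants at `z`: if `x ≠ z` both are `c z (s z)`, the terms cancel; if `x = z` they are `c z (t z b (s b))`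
with the value `val b (s b)` (`hval`, `ht`, `l z = l a = l b`) and `o' z` with the value `0`. (`τ e = {a}`: the two terms are equal.) E4: the same with `a, b`
exchanged. If `l z ≠ l a` then `{a, z}` is not a block of a `τ j`.
-/

open scoped Classical

namespace Pool.Agent.LibHL77

section comb

variable {n D : ℕ} {Lb : Type} {l : Fin n → Lb}

private theorem s_uniq {m : ℕ} {τ : Fin m → Finset (Fin n)}
    (hd : ∀ e e', e ≠ e' → Disjoint (τ e) (τ e')) {a : Fin n} {e e' : Fin m} (h : a ∈ τ e)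
    (h' : a ∈ τ e') : e = e' := by
  by_contra hne
  exact Finset.disjoint_left.1 (hd e e' hne) h h'

private theorem s_img_dl (τ : Fin (D + 1) → Finset (Fin n)) (e : Fin (D + 1)) :
    Finset.univ.image τ = insert (τ e) (Finset.univ.image (dl e τ)) := by
  ext X
  simp only [Finset.mem_image, Finset.mem_univ, true_and, Finset.mem_insert, dl]
  constructor
  · rintro ⟨i, rfl⟩
    by_cases hi : i = e
    · left; rw [hi]
    · right
      obtain ⟨k, hk⟩ := Fin.exists_succAbove_eq hi
      exact ⟨k, by rw [hk]⟩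
  · rintro (h | ⟨i, h⟩)
    · exact ⟨e, h.symm⟩
    · exact ⟨_, h⟩

private theorem s_img_iff {τ : Fin (D + 1) → Finset (Fin n)}
    (hd : ∀ e e', e ≠ e' → Disjoint (τ e) (τ e')) {a : Fin n} {e : Fin (D + 1)} (ha : a ∈ τ e)
    {X : Finset (Fin n)} {T : Finset (Finset (Fin n))} (hX : a ∈ X) (hT : ∀ t ∈ T, a ∉ t) :
    Finset.univ.image τ = insert X T ↔ τ e = X ∧ Finset.univ.image (dl e τ) = T := by
  have hR : ∀ t ∈ Finset.univ.image (dl e τ), a ∉ t := by
    intro t ht h1
    obtain ⟨i, -, rfl⟩ := Finset.mem_image.1 ht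
    exact Fin.succAbove_ne e i (s_uniq hd ha h1).symm
  rw [s_img_dl τ e]
  constructor
  · intro h
    have h1 : τ e = X := by
      have h2 : τ e ∈ insert X T := h ▸ Finset.mem_insert_self _ _
      rcases Finset.mem_insert.1 h2 with h3 | h3
      · exact h3
      · exact absurd ha (hT _ h3)
    refine ⟨h1, ?_⟩
    have h2 := congrArg (fun S => S.erase X) h
    simp only [h1] at h2
    rwa [Finset.erase_insert (fun h3 => hR _ h3 hX), Finset.erase_insert (fun h3 => hT _ h3 hX)]
      at h2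
  · rintro ⟨h1, h2⟩
    rw [h1, h2]

/-- the blocks `e`, `e'` are merged, without `a`, `b` -/
private def mg (a b : Fin n) (e e' : Fin (D + 1)) (τ : Fin (D + 1) → Finset (Fin n)) :
    Fin D → Finset (Fin n) := fun i =>
  if e'.succAbove i = e then (τ e ∪ τ e') \ {a, b} else τ (e'.succAbove i)

/-- the other blocks -/
private noncomputable def rs (e e' : Fin (D + 1)) (τ : Fin (D + 1) → Finset (Fin n)) :
    Finset (Finset (Fin n)) := ((Finset.univ.erase e).erase e').image τ

private theorem s_mem_rs {e e' : Fin (D + 1)} {τ : Fin (D + 1) → Finset (Fin n)}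
    {X : Finset (Fin n)} : X ∈ rs e e' τ ↔ ∃ i, i ≠ e ∧ i ≠ e' ∧ τ i = X := by
  unfold rs
  simp only [Finset.mem_image, Finset.mem_erase, Finset.mem_univ, and_true]
  constructor
  · rintro ⟨i, ⟨h1, h2⟩, h3⟩
    exact ⟨i, h2, h1, h3⟩
  · rintro ⟨i, h1, h2, h3⟩
    exact ⟨i, ⟨h2, h1⟩, h3⟩

private theorem s_img_rs (τ : Fin (D + 1) → Finset (Fin n)) (e e' : Fin (D + 1)) :
    Finset.univ.image τ = insert (τ e) (insert (τ e') (rs e e' τ)) := by
  ext X
  simp only [Finset.mem_image, Finset.mem_univ, true_and, Finset.mem_insert, s_mem_rs]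
  constructor
  · rintro ⟨i, rfl⟩
    by_cases h1 : i = e
    · left; rw [h1]
    · by_cases h2 : i = e'
      · right; left; rw [h2]
      · right; right; exact ⟨i, h1, h2, rfl⟩
  · rintro (h | h | ⟨i, -, -, h⟩)
    · exact ⟨e, h.symm⟩
    · exact ⟨e', h.symm⟩
    · exact ⟨i, h⟩

private theorem s_img_mg (a b : Fin n) {e e' : Fin (D + 1)} (hee : e ≠ e')
    (τ : Fin (D + 1) → Finset (Fin n)) :
    Finset.univ.image (mg a b e e' τ) = insert ((τ e ∪ τ e') \ {a, b}) (rs e e' τ) := by
  ext X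
  simp only [Finset.mem_image, Finset.mem_univ, true_and, Finset.mem_insert, s_mem_rs]
  constructor
  · rintro ⟨i, rfl⟩
    unfold mg
    by_cases h1 : e'.succAbove i = e
    · left; rw [if_pos h1]
    · right
      rw [if_neg h1]
      exact ⟨_, h1, Fin.succAbove_ne _ _, rfl⟩
  · rintro (h | ⟨i, h1, h2, h⟩)
    · obtain ⟨k, hk⟩ := Fin.exists_succAbove_eq hee
      exact ⟨k, by unfold mg; rw [if_pos hk, h]⟩
    · obtain ⟨k, hk⟩ := Fin.exists_succAbove_eq h2
      refine ⟨k, ?_⟩
      unfold mg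
      rw [if_neg (by rw [hk]; exact h1), hk, h]

private theorem s_rs_notMem {τ : Fin (D + 1) → Finset (Fin n)}
    (hd : ∀ e e', e ≠ e' → Disjoint (τ e) (τ e')) {e e' : Fin (D + 1)} {x : Fin n}
    (hx : x ∈ τ e ∨ x ∈ τ e') : ∀ t ∈ rs e e' τ, x ∉ t := by
  intro t ht h1
  obtain ⟨i, h2, h3, rfl⟩ := s_mem_rs.1 ht
  rcases hx with h4 | h4
  · exact h2 (s_uniq hd h1 h4)
  · exact h3 (s_uniq hd h1 h4)

/-- the condition of the double sum -/
private def Pxy (a b : Fin n) (τ : Fin (D + 1) → Finset (Fin n)) (T : Finset (Finset (Fin n)))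
    (x y : Fin n) : Prop :=
  (x ≠ y ∧ ({x, y} : Finset (Fin n)) ∈ T) ∧
    Finset.univ.image τ = insert {a, x} (insert {b, y} (T.erase {x, y}))

private theorem s_Pxy {a b : Fin n} {τ : Fin (D + 1) → Finset (Fin n)}
    {T : Finset (Finset (Fin n))} (hT : ∀ t ∈ T, t.card = 2 ∧ a ∉ t ∧ b ∉ t) {x y : Fin n}
    (h : Pxy a b τ T x y) : ∃ e e', e ≠ e' ∧ τ e = {a, x} ∧ τ e' = {b, y} ∧ x ≠ a ∧ x ≠ b ∧
      y ≠ a ∧ y ≠ b := by
  obtain ⟨⟨hxy, hm⟩, hi⟩ := h
  obtain ⟨-, h1, h2⟩ := hT _ hm
  simp only [Finset.mem_insert, Finset.mem_singleton, not_or] at h1 h2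
  have h3 : ({a, x} : Finset (Fin n)) ∈ Finset.univ.image τ := by
    rw [hi]; exact Finset.mem_insert_self _ _
  have h4 : ({b, y} : Finset (Fin n)) ∈ Finset.univ.image τ := by
    rw [hi]; exact Finset.mem_insert_of_mem (Finset.mem_insert_self _ _)
  obtain ⟨e, -, he⟩ := Finset.mem_image.1 h3
  obtain ⟨e', -, he'⟩ := Finset.mem_image.1 h4
  refine ⟨e, e', ?_, he, he', fun h => h1.1 h.symm, fun h => h2.1 h.symm, fun h => h1.2 h.symm,
    fun h => h2.2 h.symm⟩
  rintro rfl
  rw [he] at he'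
  have h5 : x ∈ ({b, y} : Finset (Fin n)) := by rw [← he']; simp
  rw [Finset.mem_insert, Finset.mem_singleton] at h5
  rcases h5 with h5 | h5
  · exact h2.1 h5.symm
  · exact hxy h5

private theorem s_Pxy_uniq {a b : Fin n} {τ : Fin (D + 1) → Finset (Fin n)}
    (hd : ∀ e e', e ≠ e' → Disjoint (τ e) (τ e'))
    {T : Finset (Finset (Fin n))} (hT : ∀ t ∈ T, t.card = 2 ∧ a ∉ t ∧ b ∉ t) {x y x' y' : Fin n}
    (h : Pxy a b τ T x y) (h' : Pxy a b τ T x' y') : x = x' ∧ y = y' := by
  obtain ⟨e, f, -, he, hf, hxa, -, -, hyb⟩ := s_Pxy hT h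
  obtain ⟨e', f', -, he', hf', hxa', -, -, hyb'⟩ := s_Pxy hT h'
  have h1 : e = e' := s_uniq hd (a := a) (by rw [he]; simp) (by rw [he']; simp)
  have h2 : f = f' := s_uniq hd (a := b) (by rw [hf]; simp) (by rw [hf']; simp)
  subst h1 h2
  rw [he] at he'
  rw [hf] at hf'
  have h3 : x ∈ ({a, x'} : Finset (Fin n)) := by rw [← he']; simp
  have h4 : y ∈ ({b, y'} : Finset (Fin n)) := by rw [← hf']; simp
  rw [Finset.mem_insert, Finset.mem_singleton] at h3 h4
  exact ⟨h3.resolve_left hxa, h4.resolve_left hyb⟩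

private theorem s_dsum {a b : Fin n} {τ : Fin (D + 1) → Finset (Fin n)}
    (hd : ∀ e e', e ≠ e' → Disjoint (τ e) (τ e'))
    {T : Finset (Finset (Fin n))} (hT : ∀ t ∈ T, t.card = 2 ∧ a ∉ t ∧ b ∉ t) (w : ℚ) :
    ∑ x, ∑ y, (if x ≠ y ∧ ({x, y} : Finset (Fin n)) ∈ T then
      (if Finset.univ.image τ = insert {a, x} (insert {b, y} (T.erase {x, y})) then w else 0)
        else 0) = if ∃ x y, Pxy a b τ T x y then w else 0 := by
  have h0 : ∀ x y, (if x ≠ y ∧ ({x, y} : Finset (Fin n)) ∈ T then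
      (if Finset.univ.image τ = insert {a, x} (insert {b, y} (T.erase {x, y})) then w else 0)
        else 0) = if Pxy a b τ T x y then w else 0 := by
    intro x y
    unfold Pxy
    by_cases h1 : x ≠ y ∧ ({x, y} : Finset (Fin n)) ∈ T
    · by_cases h2 : Finset.univ.image τ = insert {a, x} (insert {b, y} (T.erase {x, y}))
      · rw [if_pos h1, if_pos h2, if_pos ⟨h1, h2⟩]
      · rw [if_pos h1, if_neg h2, if_neg fun h => h2 h.2]
    · rw [if_neg h1, if_neg fun h => h1 h.1]
  simp only [h0]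
  by_cases hex : ∃ x y, Pxy a b τ T x y
  · rw [if_pos hex]
    obtain ⟨x, y, h⟩ := hex
    rw [Finset.sum_eq_single x, Finset.sum_eq_single y, if_pos h]
    · intro y' _ hne
      exact if_neg fun h' => hne (s_Pxy_uniq hd hT h' h).2
    · intro h1; exact absurd (Finset.mem_univ _) h1
    · intro x' _ hne
      exact Finset.sum_eq_zero fun y' _ => if_neg fun h' => hne (s_Pxy_uniq hd hT h' h).1
    · intro h1; exact absurd (Finset.mem_univ _) h1
  · rw [if_neg hex]
    push Not at hex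
    exact Finset.sum_eq_zero fun x _ => Finset.sum_eq_zero fun y _ => if_neg (hex x y)

private theorem s_mg_iff {a b : Fin n} (hab : a ≠ b) {τ : Fin (D + 1) → Finset (Fin n)}
    (hd : ∀ e e', e ≠ e' → Disjoint (τ e) (τ e')) (hc : ∀ e, (τ e).card ≤ 2)
    {T : Finset (Finset (Fin n))} (hT : ∀ t ∈ T, t.card = 2 ∧ a ∉ t ∧ b ∉ t)
    {e e' : Fin (D + 1)} (hee : e ≠ e') (ha : a ∈ τ e) (hb : b ∈ τ e') :
    Finset.univ.image (mg a b e e' τ) = T ↔ ∃ x y, Pxy a b τ T x y := by
  have ha' : a ∉ τ e' := fun h => hee (s_uniq hd ha h)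
  have hb' : b ∉ τ e := fun h => hee (s_uniq hd h hb)
  rw [s_img_mg a b hee τ]
  constructor
  · intro h
    have hB : (τ e ∪ τ e') \ {a, b} ∈ T := by rw [← h]; exact Finset.mem_insert_self _ _
    have hBe : (τ e ∪ τ e') \ {a, b} = (τ e).erase a ∪ (τ e').erase b := by
      ext x
      simp only [Finset.mem_sdiff, Finset.mem_union, Finset.mem_insert, Finset.mem_singleton,
        Finset.mem_erase, not_or]
      constructor
      · rintro ⟨h1 | h1, h2, h3⟩
        · exact Or.inl ⟨h2, h1⟩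
        · exact Or.inr ⟨h3, h1⟩
      · rintro (⟨h1, h2⟩ | ⟨h1, h2⟩)
        · exact ⟨Or.inl h2, h1, fun h3 => hb' (h3 ▸ h2)⟩
        · exact ⟨Or.inr h2, fun h3 => ha' (h3 ▸ h2), h1⟩
    have hcB := (hT _ hB).1
    have h1 : ((τ e).erase a).card ≤ 1 := by
      rw [Finset.card_erase_of_mem ha]
      have := hc e
      omega
    have h2 : ((τ e').erase b).card ≤ 1 := by
      rw [Finset.card_erase_of_mem hb]
      have := hc e'
      omega
    have h3 := Finset.card_union_le ((τ e).erase a) ((τ e').erase b)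
    rw [← hBe, hcB] at h3
    obtain ⟨x, hx⟩ := Finset.card_eq_one.1 (by omega : ((τ e).erase a).card = 1)
    obtain ⟨y, hy⟩ := Finset.card_eq_one.1 (by omega : ((τ e').erase b).card = 1)
    have hτe : τ e = {a, x} := by rw [← Finset.insert_erase ha, hx]
    have hτe' : τ e' = {b, y} := by rw [← Finset.insert_erase hb, hy]
    have hBxy : (τ e ∪ τ e') \ {a, b} = {x, y} := by
      rw [hBe, hx, hy]
      rfl
    have hxy : x ≠ y := by
      rintro rfl
      rw [hBxy] at hcB
      simp at hcB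
    rw [hBxy] at h hB
    have hn : ({x, y} : Finset (Fin n)) ∉ rs e e' τ := fun h4 =>
      s_rs_notMem hd (x := x) (Or.inl (by rw [hτe]; simp)) _ h4 (by simp)
    refine ⟨x, y, ⟨hxy, hB⟩, ?_⟩
    rw [s_img_rs τ e e', hτe, hτe', ← h, Finset.erase_insert hn]
  · rintro ⟨x, y, h⟩
    obtain ⟨f, f', -, hf, hf', hxa, hxb, hya, hyb⟩ := s_Pxy hT h
    obtain ⟨⟨hxy, hm⟩, hi⟩ := h
    have h1 : f = e := s_uniq hd (a := a) (by rw [hf]; simp) ha
    have h2 : f' = e' := s_uniq hd (a := b) (by rw [hf']; simp) hb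
    rw [h1] at hf
    rw [h2] at hf'
    have hR : rs e e' τ = T.erase {x, y} := by
      rw [s_img_rs τ e e', hf, hf'] at hi
      have h3 := congrArg (fun S => S.filter fun t => a ∉ t ∧ b ∉ t) hi
      have h4 : ∀ S : Finset (Finset (Fin n)), (∀ t ∈ S, a ∉ t ∧ b ∉ t) →
          (insert {a, x} (insert {b, y} S)).filter (fun t => a ∉ t ∧ b ∉ t) = S := by
        intro S hS
        ext t
        simp only [Finset.mem_filter, Finset.mem_insert]
        constructor
        · rintro ⟨h5 | h5 | h5, h6, h7⟩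
          · exact absurd (by rw [h5]; simp) h6
          · exact absurd (by rw [h5]; simp) h7
          · exact h5
        · intro h5
          exact ⟨Or.inr (Or.inr h5), hS t h5⟩
      rw [h4 _ fun t ht => ⟨s_rs_notMem hd (Or.inl ha) t ht, s_rs_notMem hd (Or.inr hb) t ht⟩,
        h4 _ fun t ht => (hT t (Finset.mem_of_mem_erase ht)).2] at h3
      exact h3
    have hB : (τ e ∪ τ e') \ {a, b} = {x, y} := by
      rw [hf, hf']
      ext t
      simp only [Finset.mem_sdiff, Finset.mem_union, Finset.mem_insert, Finset.mem_singleton,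
        not_or]
      constructor
      · rintro ⟨(h3 | h3) | (h3 | h3), h4, h5⟩
        · exact absurd h3 h4
        · exact Or.inl h3
        · exact absurd h3 h5
        · exact Or.inr h3
      · rintro (h3 | h3)
        · exact ⟨Or.inl (Or.inr h3), by rw [h3]; exact hxa, by rw [h3]; exact hxb⟩
        · exact ⟨Or.inr (Or.inr h3), by rw [h3]; exact hya, by rw [h3]; exact hyb⟩
    rw [hR, hB, Finset.insert_erase hm]

/-- `Atm` or an empty block -/
private theorem s_atm_or {m : ℕ} {τ' : Fin m → Finset (Fin n)}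
    (h1 : ∀ e e', e ≠ e' → Disjoint (τ' e) (τ' e'))
    (h2 : ∀ e, ∀ a ∈ τ' e, ∀ b ∈ τ' e, l a = l b) (h3 : ∀ e, (τ' e).card ≤ 2) :
    Atm l τ' ∨ ∃ e, τ' e = ∅ := by
  by_cases h : ∃ e, τ' e = ∅
  · exact Or.inr h
  · push Not at h
    exact Or.inl ⟨⟨h1, fun e => ⟨h e, h2 e⟩⟩, h3⟩

private theorem s_sub_atm {τ : Fin (D + 1) → Finset (Fin n)} (hτ : Atm l τ)
    {τ' : Fin D → Finset (Fin n)} (f : Fin D → Fin (D + 1)) (hf : Function.Injective f)
    (hs : ∀ i, τ' i ⊆ τ (f i)) : Atm l τ' ∨ ∃ e, τ' e = ∅ := by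
  refine s_atm_or (fun i i' hne => ?_) (fun i x hx y hy => ?_) (fun i => ?_)
  · exact Finset.disjoint_of_subset_left (hs i) (Finset.disjoint_of_subset_right (hs i')
      (hτ.1.1 _ _ fun h => hne (hf h)))
  · exact (hτ.1.2 (f i)).2 x (hs i hx) y (hs i hy)
  · exact (Finset.card_le_card (hs i)).trans (hτ.2 (f i))

private theorem s_mg_atm {a b : Fin n} (hl : l a = l b) {τ : Fin (D + 1) → Finset (Fin n)}
    (hτ : Atm l τ) {e e' : Fin (D + 1)} (hee : e ≠ e') (ha : a ∈ τ e) (hb : b ∈ τ e') :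
    Atm l (mg a b e e' τ) ∨ ∃ i, mg a b e e' τ i = ∅ := by
  have hd := hτ.1.1
  refine s_atm_or (fun i i' hne => ?_) (fun i x hx y hy => ?_) (fun i => ?_)
  · rw [Finset.disjoint_left]
    intro x hx hx'
    unfold mg at hx hx'
    have hinj : e'.succAbove i ≠ e'.succAbove i' := fun h =>
      hne (Fin.succAbove_right_injective h)
    by_cases h1 : e'.succAbove i = e
    · by_cases h2 : e'.succAbove i' = e
      · exact hinj (h1.trans h2.symm)
      · rw [if_pos h1] at hx
        rw [if_neg h2] at hx'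
        rcases Finset.mem_union.1 (Finset.mem_sdiff.1 hx).1 with h3 | h3
        · exact h2 (s_uniq hd hx' h3)
        · exact Fin.succAbove_ne e' i' (s_uniq hd hx' h3)
    · by_cases h2 : e'.succAbove i' = e
      · rw [if_neg h1] at hx
        rw [if_pos h2] at hx'
        rcases Finset.mem_union.1 (Finset.mem_sdiff.1 hx').1 with h3 | h3
        · exact h1 (s_uniq hd hx h3)
        · exact Fin.succAbove_ne e' i (s_uniq hd hx h3)
      · rw [if_neg h1] at hx
        rw [if_neg h2] at hx'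
        exact hinj (s_uniq hd hx hx')
  · unfold mg at hx hy
    by_cases h1 : e'.succAbove i = e
    · rw [if_pos h1] at hx hy
      have h2 : ∀ z, z ∈ (τ e ∪ τ e') \ {a, b} → l z = l a := by
        intro z hz
        rcases Finset.mem_union.1 (Finset.mem_sdiff.1 hz).1 with h3 | h3
        · exact (hτ.1.2 e).2 z h3 a ha
        · exact ((hτ.1.2 e').2 z h3 b hb).trans hl.symm
      exact (h2 x hx).trans (h2 y hy).symm
    · rw [if_neg h1] at hx hy
      exact (hτ.1.2 _).2 x hx y hy
  · unfold mg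
    split_ifs with h1
    · have h2 : (τ e ∪ τ e') \ {a, b} ⊆ (τ e).erase a ∪ (τ e').erase b := by
        intro x hx
        simp only [Finset.mem_sdiff, Finset.mem_union, Finset.mem_insert, Finset.mem_singleton,
          Finset.mem_erase, not_or] at hx ⊢
        rcases hx.1 with h3 | h3
        · exact Or.inl ⟨hx.2.1, h3⟩
        · exact Or.inr ⟨hx.2.2, h3⟩
      have h3 := (Finset.card_le_card h2).trans (Finset.card_union_le _ _)
      rw [Finset.card_erase_of_mem ha, Finset.card_erase_of_mem hb] at h3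
      have h4 := hτ.2 e
      have h5 := hτ.2 e'
      omega
    · exact hτ.2 _

/-- a family with a block with at most one element has not the image `T` -/
private theorem s_ne {τ' : Fin D → Finset (Fin n)} {T : Finset (Finset (Fin n))}
    (hT : ∀ t ∈ T, t.card = 2) {i : Fin D} (hi : (τ' i).card ≤ 1) :
    Finset.univ.image τ' ≠ T := by
  intro h
  have h1 : τ' i ∈ T := by rw [← h]; exact Finset.mem_image_of_mem _ (Finset.mem_univ _)
  have := hT _ h1
  omega

variable {A A' : Fin n → Type}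
  {o' : ∀ a, A' a} {c : ∀ a, A a → A' a} {t : ∀ a b, A b → A a} {G G' : Type}
  [AddCommGroup G] [AddCommGroup G'] {Φ : (Fin (D + 1) → Finset (Fin n)) → (∀ a, A a) → G}
  {Φ' : (Fin D → Finset (Fin n)) → (∀ a, A' a) → G'} {W : Fin n → G →+ G'}
  {E : Fin n → Fin n → G →+ G'} {g : Fin n → ℤ}

private theorem s_notMem {m : ℕ} {τ : Fin m → Finset (Fin n)} {X : Finset (Fin n)}
    {T : Finset (Finset (Fin n))} (h : Finset.univ.image τ = insert X T) {x : Fin n}
    (hX : x ∉ X) (hT : ∀ t ∈ T, x ∉ t) (e : Fin m) : x ∉ τ e := by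
  have h1 : τ e ∈ insert X T := by
    rw [← h]; exact Finset.mem_image_of_mem _ (Finset.mem_univ _)
  rcases Finset.mem_insert.1 h1 with h2 | h2
  · rw [h2]; exact hX
  · exact hT _ h2

private theorem s_isMem {m : ℕ} {τ : Fin m → Finset (Fin n)} {X : Finset (Fin n)}
    {T : Finset (Finset (Fin n))} (h : Finset.univ.image τ = insert X T) {x : Fin n}
    (hX : x ∈ X) : ∃ e, x ∈ τ e := by
  have h1 : X ∈ Finset.univ.image τ := by rw [h]; exact Finset.mem_insert_self _ _
  obtain ⟨e, -, he⟩ := Finset.mem_image.1 h1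
  exact ⟨e, by rw [he]; exact hX⟩

private theorem s_pair {X : Finset (Fin n)} (hc : X.card ≤ 2) {x y : Fin n} (hx : x ∈ X)
    (hy : y ∈ X) (hxy : x ≠ y) : X = {x, y} := by
  symm
  apply Finset.eq_of_subset_of_card_le
  · intro w hw
    rcases Finset.mem_insert.1 hw with h | h
    · rw [h]; exact hx
    · rw [Finset.mem_singleton.1 h]; exact hy
  · rw [Finset.card_pair hxy]; exact hc

private theorem s_det {val' : ∀ a, A' a → ℚ} (IH : Det l Φ' val')
    (hZ : ∀ τ s, (∃ e, τ e = ∅) → Φ' τ s = 0) {J : Type} [Fintype J] (m : J → ℤ)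
    (τ' : J → Fin D → Finset (Fin n)) (s' : J → ∀ a, A' a)
    (hτ : ∀ j, Atm l (τ' j) ∨ ∃ e, τ' j e = ∅)
    (hX : IsOfFinAddOrder (∑ j, m j • Φ' (τ' j) (s' j))) {T : Finset (Finset (Fin n))}
    (hT : ∀ t ∈ T, t.card = 2) :
    Mt m τ' T = 0 ∧ ∀ a, (∀ t ∈ T, a ∉ t) → Nt m τ' s' val' T a = 0 := by
  have hne : ∀ j, ¬ Atm l (τ' j) →
      (Φ' (τ' j) (s' j) = 0 ∧ Finset.univ.image (τ' j) ≠ T) := by
    intro j hj
    rcases hτ j with h | ⟨e, he⟩
    · exact absurd h hj
    · refine ⟨hZ _ _ ⟨e, he⟩, fun h => ?_⟩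
      have h1 : τ' j e ∈ T := by rw [← h]; exact Finset.mem_image_of_mem _ (Finset.mem_univ _)
      have h2 := hT _ h1
      rw [he] at h2
      simp at h2
  have hs : ∀ {M : Type} [AddCommMonoid M] (f : J → M), (∀ j, ¬ Atm l (τ' j) → f j = 0) →
      ∑ j, f j = ∑ j : {j // Atm l (τ' j)}, f j.1 := by
    intro M _ f hf
    rw [← Fintype.sum_subtype_add_sum_subtype (fun j => Atm l (τ' j)) f]
    rw [Finset.sum_eq_zero (s := (Finset.univ : Finset {j // ¬ Atm l (τ' j)}))
      (fun j _ => hf j.1 j.2), add_zero]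
  rw [hs (fun j => m j • Φ' (τ' j) (s' j)) fun j hj => by rw [(hne j hj).1, smul_zero]] at hX
  obtain ⟨h1, h2⟩ := IH {j // Atm l (τ' j)} inferInstance (fun j => m j.1) (fun j => τ' j.1)
    (fun j => s' j.1) (fun j => j.2) hX T
  refine ⟨?_, fun a ha => ?_⟩
  · unfold Mt at h1 ⊢
    rw [hs _ fun j hj => if_neg (hne j hj).2]
    exact h1
  · have h3 := h2 a ha
    unfold Nt at h3 ⊢
    rw [hs _ fun j hj => if_neg (hne j hj).2]
    exact h3

/-- the shape of `E a b` of a class -/
private def Cor (l : Fin n → Lb) (g : Fin n → ℤ) (Φ' : (Fin D → Finset (Fin n)) → (∀ a, A' a) → G')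
    (val : ∀ a, A a → ℚ) (val' : ∀ a, A' a → ℚ) (X : G') (τ : Fin (D + 1) → Finset (Fin n))
    (s : ∀ a, A a) (a b : Fin n) : Prop :=
  ∃ (κ : Fin 3 → ℤ) (τ' : Fin 3 → Fin D → Finset (Fin n)) (s' : Fin 3 → ∀ a, A' a),
    (∀ i, Atm l (τ' i) ∨ ∃ e, τ' i e = ∅) ∧ X = ∑ i, κ i • Φ' (τ' i) (s' i) ∧
    ∀ T : Finset (Finset (Fin n)), (∀ t ∈ T, t.card = 2 ∧ a ∉ t ∧ b ∉ t) →
      (∑ i, (if Finset.univ.image (τ' i) = T then (κ i : ℚ) else 0) =
        - 2 * (g a : ℚ) * (if Finset.univ.image τ = insert {a, b} T then 1 else 0) +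
        (if ∃ x y, Pxy a b τ T x y then 1 else 0)) ∧
      ∀ z, z ≠ a → z ≠ b → (∀ t ∈ T, z ∉ t) →
        ∑ i, (if Finset.univ.image (τ' i) = T then (κ i : ℚ) * val' z (s' i z) else 0) =
          - 2 * (g a : ℚ) * (if Finset.univ.image τ = insert {a, b} T then val z (s z) else 0) +
          (if ∃ x y, Pxy a b τ T x y then val z (s z) else 0) +
          (if l z = l a then (if Finset.univ.image τ = insert {a, z} T then val b (s b) else 0) +
            (if Finset.univ.image τ = insert {b, z} T then val a (s a) else 0) else 0)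

private theorem cor_mk {val : ∀ a, A a → ℚ} {val' : ∀ a, A' a → ℚ} {X : G'}
    {τ : Fin (D + 1) → Finset (Fin n)} {s : ∀ a, A a} {a b : Fin n} (κ0 κ1 κ2 : ℤ)
    (τ0 τ1 τ2 : Fin D → Finset (Fin n)) (s0 s1 s2 : ∀ a, A' a)
    (h0 : Atm l τ0 ∨ ∃ e, τ0 e = ∅) (h1 : Atm l τ1 ∨ ∃ e, τ1 e = ∅)
    (h2 : Atm l τ2 ∨ ∃ e, τ2 e = ∅)
    (hX : X = κ0 • Φ' τ0 s0 + κ1 • Φ' τ1 s1 + κ2 • Φ' τ2 s2)
    (hT : ∀ T : Finset (Finset (Fin n)), (∀ t ∈ T, t.card = 2 ∧ a ∉ t ∧ b ∉ t) →
      ((if Finset.univ.image τ0 = T then (κ0 : ℚ) else 0) +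
        (if Finset.univ.image τ1 = T then (κ1 : ℚ) else 0) +
        (if Finset.univ.image τ2 = T then (κ2 : ℚ) else 0) =
        - 2 * (g a : ℚ) * (if Finset.univ.image τ = insert {a, b} T then 1 else 0) +
        (if ∃ x y, Pxy a b τ T x y then 1 else 0)) ∧
      ∀ z, z ≠ a → z ≠ b → (∀ t ∈ T, z ∉ t) →
        (if Finset.univ.image τ0 = T then (κ0 : ℚ) * val' z (s0 z) else 0) +
        (if Finset.univ.image τ1 = T then (κ1 : ℚ) * val' z (s1 z) else 0) +
        (if Finset.univ.image τ2 = T then (κ2 : ℚ) * val' z (s2 z) else 0) =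
          - 2 * (g a : ℚ) * (if Finset.univ.image τ = insert {a, b} T then val z (s z) else 0) +
          (if ∃ x y, Pxy a b τ T x y then val z (s z) else 0) +
          (if l z = l a then (if Finset.univ.image τ = insert {a, z} T then val b (s b) else 0) +
            (if Finset.univ.image τ = insert {b, z} T then val a (s a) else 0) else 0)) :
    Cor l g Φ' val val' X τ s a b := by
  refine ⟨![κ0, κ1, κ2], ![τ0, τ1, τ2], ![s0, s1, s2], ?_, ?_, ?_⟩
  · intro i
    fin_cases i
    · exact h0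
    · exact h1
    · exact h2
  · rw [Fin.sum_univ_three]
    exact hX
  · intro T hT'
    refine ⟨?_, fun z hza hzb hz => ?_⟩
    · rw [Fin.sum_univ_three]
      exact (hT T hT').1
    · rw [Fin.sum_univ_three]
      exact (hT T hT').2 z hza hzb hz

private theorem cor_A (h : Ops l g o' c t Φ Φ' W E) {val : ∀ a, A a → ℚ}
    {val' : ∀ a, A' a → ℚ} (hval : ∀ a s, val' a (c a s) = val a s)
    {τ : Fin (D + 1) → Finset (Fin n)} (s : ∀ a, A a) (hτ : Atm l τ) {a b : Fin n} (hab : a ≠ b)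
    (hl : l a = l b) {e e' : Fin (D + 1)} (hee : e ≠ e') (ha : a ∈ τ e) (hb : b ∈ τ e') :
    Cor l g Φ' val val' (E a b (Φ τ s)) τ s a b := by
  have hd := hτ.1.1
  have ha' : a ∉ τ e' := fun h => hee (s_uniq hd ha h)
  have hb' : b ∉ τ e := fun h => hee (s_uniq hd h hb)
  refine cor_mk 1 (-1) (-1) (mg a b e e' τ) (fun i => τ (e.succAbove i) \ {b})
    (fun i => τ (e'.succAbove i) \ {a}) (fun x => if x = a ∨ x = b then o' x else c x (s x))
    (fun x => if x ∈ τ e ∨ x = b then o' x else c x (s x))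
    (fun x => if x ∈ τ e' ∨ x = a then o' x else c x (s x)) (s_mg_atm hl hτ hee ha hb)
    (s_sub_atm hτ e.succAbove Fin.succAbove_right_injective fun i => Finset.sdiff_subset)
    (s_sub_atm hτ e'.succAbove Fin.succAbove_right_injective fun i => Finset.sdiff_subset)
    ?_ ?_
  · rw [h.E1 a b hab hl e e' τ s hτ.1 hee ha hb, one_smul, neg_smul, neg_smul, one_smul,
      one_smul, ← sub_eq_add_neg, ← sub_eq_add_neg]
    rfl
  · intro T hT
    have hTa : ∀ t ∈ T, a ∉ t := fun t ht => (hT t ht).2.1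
    have hTb : ∀ t ∈ T, b ∉ t := fun t ht => (hT t ht).2.2
    have hne1 : Finset.univ.image (fun i => τ (e.succAbove i) \ {b}) ≠ T := by
      obtain ⟨k, hk⟩ := Fin.exists_succAbove_eq (Ne.symm hee)
      refine s_ne (fun t ht => (hT t ht).1) (i := k) ?_
      simp only [hk]
      rw [Finset.sdiff_singleton_eq_erase, Finset.card_erase_of_mem hb]
      have := hτ.2 e'
      omega
    have hne2 : Finset.univ.image (fun i => τ (e'.succAbove i) \ {a}) ≠ T := by
      obtain ⟨k, hk⟩ := Fin.exists_succAbove_eq hee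
      refine s_ne (fun t ht => (hT t ht).1) (i := k) ?_
      simp only [hk]
      rw [Finset.sdiff_singleton_eq_erase, Finset.card_erase_of_mem ha]
      have := hτ.2 e
      omega
    have hi : ¬ Finset.univ.image τ = insert {a, b} T := by
      intro h1
      have h2 := ((s_img_iff hd ha (X := {a, b}) (by simp) hTa).1 h1).1
      exact hb' (by rw [h2]; simp)
    have hm := s_mg_iff hab hd hτ.2 hT hee ha hb
    refine ⟨?_, fun z hza hzb hz => ?_⟩
    · rw [if_neg hne1, if_neg hne2, if_neg hi]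
      by_cases h1 : Finset.univ.image (mg a b e e' τ) = T
      · rw [if_pos h1, if_pos (hm.1 h1)]
        simp
      · rw [if_neg h1, if_neg fun h2 => h1 (hm.2 h2)]
        simp
    · have hi1 : ¬ Finset.univ.image τ = insert {a, z} T := fun h1 =>
        s_notMem h1 (x := b) (by simp [hab.symm, hzb.symm]) hTb e' hb
      have hi2 : ¬ Finset.univ.image τ = insert {b, z} T := fun h1 =>
        s_notMem h1 (x := a) (by simp [hab, hza.symm]) hTa e ha
      rw [if_neg hne1, if_neg hne2, if_neg hi, if_neg hi1, if_neg hi2]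
      have hv : val' z (if z = a ∨ z = b then o' z else c z (s z)) = val z (s z) := by
        rw [if_neg (by rintro (h1 | h1); exacts [hza h1, hzb h1]), hval]
      rw [hv]
      by_cases h1 : Finset.univ.image (mg a b e e' τ) = T
      · rw [if_pos h1, if_pos (hm.1 h1)]
        simp
      · rw [if_neg h1, if_neg fun h2 => h1 (hm.2 h2)]
        simp

private theorem cor_B (h : Ops l g o' c t Φ Φ' W E) {val : ∀ a, A a → ℚ}
    {val' : ∀ a, A' a → ℚ} (hval : ∀ a s, val' a (c a s) = val a s)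
    {τ : Fin (D + 1) → Finset (Fin n)} (s : ∀ a, A a) (hτ : Atm l τ) {a b : Fin n} (hab : a ≠ b)
    (hl : l a = l b) {e : Fin (D + 1)} (ha : a ∈ τ e) (hb : b ∈ τ e) :
    Cor l g Φ' val val' (E a b (Φ τ s)) τ s a b := by
  have hd := hτ.1.1
  have hs := s_sub_atm hτ (τ' := dl e τ) e.succAbove Fin.succAbove_right_injective
    fun i => Finset.Subset.refl _
  have he : τ e = {a, b} := s_pair (hτ.2 e) ha hb hab
  refine cor_mk (-2 * g a) 0 0 (dl e τ) (dl e τ) (dl e τ)
    (fun x => if x ∈ τ e then o' x else c x (s x)) (fun x => if x ∈ τ e then o' x else c x (s x))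
    (fun x => if x ∈ τ e then o' x else c x (s x)) hs hs hs ?_ ?_
  · rw [h.E2 a b hab hl e τ s hτ.1 ha hb, zero_smul, add_zero, add_zero]
  · intro T hT
    have hTa : ∀ t ∈ T, a ∉ t := fun t ht => (hT t ht).2.1
    have hTb : ∀ t ∈ T, b ∉ t := fun t ht => (hT t ht).2.2
    have hi : Finset.univ.image τ = insert {a, b} T ↔ Finset.univ.image (dl e τ) = T := by
      rw [s_img_iff hd ha (X := {a, b}) (by simp) hTa]
      exact ⟨fun h => h.2, fun h => ⟨he, h⟩⟩
    have hP : ¬ ∃ x y, Pxy a b τ T x y := by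
      rintro ⟨x, y, h1⟩
      obtain ⟨f, f', hff, hf, hf', -⟩ := s_Pxy hT h1
      have h2 : f = e := s_uniq hd (a := a) (by rw [hf]; simp) ha
      have h3 : f' = e := s_uniq hd (a := b) (by rw [hf']; simp) hb
      exact hff (h2.trans h3.symm)
    refine ⟨?_, fun z hza hzb hz => ?_⟩
    · rw [if_neg hP]
      by_cases h1 : Finset.univ.image (dl e τ) = T
      · simp only [if_pos h1, if_pos (hi.2 h1)]
        push_cast
        ring
      · simp only [if_neg h1, if_neg fun h2 => h1 (hi.1 h2)]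
        ring
    · have hi1 : ¬ Finset.univ.image τ = insert {a, z} T := fun h1 =>
        s_notMem h1 (x := b) (by simp [hab.symm, hzb.symm]) hTb e hb
      have hi2 : ¬ Finset.univ.image τ = insert {b, z} T := fun h1 =>
        s_notMem h1 (x := a) (by simp [hab, hza.symm]) hTa e ha
      rw [if_neg hP, if_neg hi1, if_neg hi2]
      have hv : val' z (if z ∈ τ e then o' z else c z (s z)) = val z (s z) := by
        rw [if_neg (by rw [he]; simp [hza, hzb]), hval]
      rw [hv]
      by_cases h1 : Finset.univ.image (dl e τ) = T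
      · simp only [if_pos h1, if_pos (hi.2 h1)]
        push_cast
        simp
      · simp only [if_neg h1, if_neg fun h2 => h1 (hi.1 h2)]
        simp

private theorem cor_C (h : Ops l g o' c t Φ Φ' W E) {val : ∀ a, A a → ℚ}
    {val' : ∀ a, A' a → ℚ} (hval : ∀ a s, val' a (c a s) = val a s)
    (ho : ∀ a, val' a (o' a) = 0) (ht : ∀ a b s, l a = l b → val a (t a b s) = val b s)
    {τ : Fin (D + 1) → Finset (Fin n)} (s : ∀ a, A a) (hτ : Atm l τ) {a b : Fin n} (hab : a ≠ b)
    (hl : l a = l b) {e : Fin (D + 1)} (ha : a ∈ τ e) (hb : ∀ i, b ∉ τ i) :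
    Cor l g Φ' val val' (E a b (Φ τ s)) τ s a b := by
  have hd := hτ.1.1
  have hs := s_sub_atm hτ (τ' := dl e τ) e.succAbove Fin.succAbove_right_injective
    fun i => Finset.Subset.refl _
  refine cor_mk 1 (-1) 0 (dl e τ) (dl e τ) (dl e τ)
    (fun x => if x = a ∨ x = b then o' x else
        if x ∈ τ e then c x (t x b (s b)) else c x (s x))
    (fun x => if x ∈ τ e ∨ x = b then o' x else c x (s x))
    (fun x => if x ∈ τ e ∨ x = b then o' x else c x (s x)) hs hs hs ?_ ?_
  · rw [h.E3 a b hab hl e τ s hτ.1 ha hb, zero_smul, add_zero, one_smul, neg_smul, one_smul,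
      ← sub_eq_add_neg]
  · intro T hT
    have hTa : ∀ t ∈ T, a ∉ t := fun t ht => (hT t ht).2.1
    have hTb : ∀ t ∈ T, b ∉ t := fun t ht => (hT t ht).2.2
    have hi : ¬ Finset.univ.image τ = insert {a, b} T := by
      intro h1
      obtain ⟨f, hf⟩ := s_isMem h1 (x := b) (by simp)
      exact hb f hf
    have hP : ¬ ∃ x y, Pxy a b τ T x y := by
      rintro ⟨x, y, h1⟩
      obtain ⟨f, f', hff, hf, hf', -⟩ := s_Pxy hT h1
      exact hb f' (by rw [hf']; simp)
    refine ⟨?_, fun z hza hzb hz => ?_⟩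
    · rw [if_neg hP, if_neg hi]
      by_cases h1 : Finset.univ.image (dl e τ) = T
      · simp only [if_pos h1]
        push_cast
        ring
      · simp only [if_neg h1]
        ring
    · have hi2 : ¬ Finset.univ.image τ = insert {b, z} T := by
        intro h1
        obtain ⟨f, hf⟩ := s_isMem h1 (x := b) (by simp)
        exact hb f hf
      have hi1 : Finset.univ.image τ = insert {a, z} T ↔
          τ e = {a, z} ∧ Finset.univ.image (dl e τ) = T :=
        s_img_iff hd ha (X := {a, z}) (by simp) hTa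
      have hzab : ¬ (z = a ∨ z = b) := fun h1 => h1.elim hza hzb
      rw [if_neg hP, if_neg hi, if_neg hi2, if_neg hzab]
      by_cases hze : z ∈ τ e
      · have he : τ e = {a, z} := s_pair (hτ.2 e) ha hze hza.symm
        have hlz : l z = l a := (hτ.1.2 e).2 z hze a ha
        rw [if_pos hze, if_pos (Or.inl hze), if_pos hlz, hval, ho, ht z b (s b) (hlz.trans hl)]
        by_cases h1 : Finset.univ.image (dl e τ) = T
        · simp only [if_pos h1, if_pos (hi1.2 ⟨he, h1⟩)]
          push_cast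
          ring
        · simp only [if_neg h1, if_neg fun h2 => h1 (hi1.1 h2).2]
          ring
      · rw [if_neg hze, if_neg (fun h1 : z ∈ τ e ∨ z = b => h1.elim hze hzb), hval,
          if_neg (fun h2 : Finset.univ.image τ = insert {a, z} T =>
            hze (by rw [(hi1.1 h2).1]; simp))]
        by_cases h1 : Finset.univ.image (dl e τ) = T
        · simp only [if_pos h1]
          push_cast
          simp
        · simp only [if_neg h1]
          simp

private theorem cor_D (h : Ops l g o' c t Φ Φ' W E) {val : ∀ a, A a → ℚ}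
    {val' : ∀ a, A' a → ℚ} (hval : ∀ a s, val' a (c a s) = val a s)
    (ho : ∀ a, val' a (o' a) = 0) (ht : ∀ a b s, l a = l b → val a (t a b s) = val b s)
    {τ : Fin (D + 1) → Finset (Fin n)} (s : ∀ a, A a) (hτ : Atm l τ) {a b : Fin n} (hab : a ≠ b)
    (hl : l a = l b) {e : Fin (D + 1)} (hb : b ∈ τ e) (ha : ∀ i, a ∉ τ i) :
    Cor l g Φ' val val' (E a b (Φ τ s)) τ s a b := by
  have hd := hτ.1.1
  have hs := s_sub_atm hτ (τ' := dl e τ) e.succAbove Fin.succAbove_right_injective
    fun i => Finset.Subset.refl _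
  refine cor_mk 1 (-1) 0 (dl e τ) (dl e τ) (dl e τ)
    (fun x => if x = a ∨ x = b then o' x else
        if x ∈ τ e then c x (t x a (s a)) else c x (s x))
    (fun x => if x ∈ τ e ∨ x = a then o' x else c x (s x))
    (fun x => if x ∈ τ e ∨ x = a then o' x else c x (s x)) hs hs hs ?_ ?_
  · rw [h.E4 a b hab hl e τ s hτ.1 hb ha, zero_smul, add_zero, one_smul, neg_smul, one_smul,
      ← sub_eq_add_neg]
  · intro T hT
    have hTa : ∀ t ∈ T, a ∉ t := fun t ht => (hT t ht).2.1
    have hTb : ∀ t ∈ T, b ∉ t := fun t ht => (hT t ht).2.2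
    have hi : ¬ Finset.univ.image τ = insert {a, b} T := by
      intro h1
      obtain ⟨f, hf⟩ := s_isMem h1 (x := a) (by simp)
      exact ha f hf
    have hP : ¬ ∃ x y, Pxy a b τ T x y := by
      rintro ⟨x, y, h1⟩
      obtain ⟨f, f', hff, hf, hf', -⟩ := s_Pxy hT h1
      exact ha f (by rw [hf]; simp)
    refine ⟨?_, fun z hza hzb hz => ?_⟩
    · rw [if_neg hP, if_neg hi]
      by_cases h1 : Finset.univ.image (dl e τ) = T
      · simp only [if_pos h1]
        push_cast
        ring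
      · simp only [if_neg h1]
        ring
    · have hi1 : ¬ Finset.univ.image τ = insert {a, z} T := by
        intro h1
        obtain ⟨f, hf⟩ := s_isMem h1 (x := a) (by simp)
        exact ha f hf
      have hi2 : Finset.univ.image τ = insert {b, z} T ↔
          τ e = {b, z} ∧ Finset.univ.image (dl e τ) = T :=
        s_img_iff hd hb (X := {b, z}) (by simp) hTb
      have hzab : ¬ (z = a ∨ z = b) := fun h1 => h1.elim hza hzb
      rw [if_neg hP, if_neg hi, if_neg hi1, if_neg hzab]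
      by_cases hze : z ∈ τ e
      · have he : τ e = {b, z} := s_pair (hτ.2 e) hb hze hzb.symm
        have hlz : l z = l a := ((hτ.1.2 e).2 z hze b hb).trans hl.symm
        rw [if_pos hze, if_pos (Or.inl hze), if_pos hlz, hval, ho, ht z a (s a) hlz]
        by_cases h1 : Finset.univ.image (dl e τ) = T
        · simp only [if_pos h1, if_pos (hi2.2 ⟨he, h1⟩)]
          push_cast
          ring
        · simp only [if_neg h1, if_neg fun h2 => h1 (hi2.1 h2).2]
          ring
      · rw [if_neg hze, if_neg (fun h1 : z ∈ τ e ∨ z = a => h1.elim hze hza), hval,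
          if_neg (fun h2 : Finset.univ.image τ = insert {b, z} T =>
            hze (by rw [(hi2.1 h2).1]; simp))]
        by_cases h1 : Finset.univ.image (dl e τ) = T
        · simp only [if_pos h1]
          push_cast
          simp
        · simp only [if_neg h1]
          simp

private theorem cor_E (h : Ops l g o' c t Φ Φ' W E) {val : ∀ a, A a → ℚ}
    {val' : ∀ a, A' a → ℚ}
    {τ : Fin (D + 1) → Finset (Fin n)} (s : ∀ a, A a) (hτ : Atm l τ) {a b : Fin n} (hab : a ≠ b)
    (hl : l a = l b) (ha : ∀ i, a ∉ τ i) (hb : ∀ i, b ∉ τ i) :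
    Cor l g Φ' val val' (E a b (Φ τ s)) τ s a b := by
  have hs := s_sub_atm hτ (τ' := dl 0 τ) (Fin.succAbove 0) Fin.succAbove_right_injective
    fun i => Finset.Subset.refl _
  refine cor_mk 0 0 0 (dl 0 τ) (dl 0 τ) (dl 0 τ) o' o' o' hs hs hs ?_ ?_
  · rw [h.E0 a b hab hl τ s hτ.1 ha hb, zero_smul, add_zero, add_zero]
  · intro T hT
    have hi : ¬ Finset.univ.image τ = insert {a, b} T := by
      intro h1
      obtain ⟨f, hf⟩ := s_isMem h1 (x := a) (by simp)
      exact ha f hf
    have hP : ¬ ∃ x y, Pxy a b τ T x y := by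
      rintro ⟨x, y, h1⟩
      obtain ⟨f, f', hff, hf, hf', -⟩ := s_Pxy hT h1
      exact ha f (by rw [hf]; simp)
    refine ⟨?_, fun z hza hzb hz => ?_⟩
    · rw [if_neg hP, if_neg hi]
      simp
    · have hi1 : ¬ Finset.univ.image τ = insert {a, z} T := by
        intro h1
        obtain ⟨f, hf⟩ := s_isMem h1 (x := a) (by simp)
        exact ha f hf
      have hi2 : ¬ Finset.univ.image τ = insert {b, z} T := by
        intro h1
        obtain ⟨f, hf⟩ := s_isMem h1 (x := b) (by simp)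
        exact hb f hf
      rw [if_neg hP, if_neg hi, if_neg hi1, if_neg hi2]
      simp

private theorem s_cor (h : Ops l g o' c t Φ Φ' W E) {val : ∀ a, A a → ℚ}
    {val' : ∀ a, A' a → ℚ} (hval : ∀ a s, val' a (c a s) = val a s)
    (ho : ∀ a, val' a (o' a) = 0) (ht : ∀ a b s, l a = l b → val a (t a b s) = val b s)
    {τ : Fin (D + 1) → Finset (Fin n)} (s : ∀ a, A a) (hτ : Atm l τ) {a b : Fin n} (hab : a ≠ b)
    (hl : l a = l b) : Cor l g Φ' val val' (E a b (Φ τ s)) τ s a b := by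
  by_cases hA : ∃ e, a ∈ τ e
  · obtain ⟨e, ha⟩ := hA
    by_cases hB : ∃ e, b ∈ τ e
    · obtain ⟨e', hb⟩ := hB
      by_cases hee : e = e'
      · subst hee
        exact cor_B h hval s hτ hab hl ha hb
      · exact cor_A h hval s hτ hab hl hee ha hb
    · push Not at hB
      exact cor_C h hval ho ht s hτ hab hl ha hB
  · push Not at hA
    by_cases hB : ∃ e, b ∈ τ e
    · obtain ⟨e, hb⟩ := hB
      exact cor_D h hval ho ht s hτ hab hl hb hA
    · push Not at hB
      exact cor_E h s hτ hab hl hA hB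

private theorem s_swap {J : Type} [Fintype J] (P : Fin n → Fin n → Prop)
    [∀ x y, Decidable (P x y)] (f : J → Fin n → Fin n → ℚ) :
    ∑ x, ∑ y, (if P x y then ∑ j, f j x y else 0) =
      ∑ j, ∑ x, ∑ y, (if P x y then f j x y else 0) := by
  have h1 : ∀ x y, (if P x y then ∑ j, f j x y else 0) = ∑ j, (if P x y then f j x y else 0) := by
    intro x y
    split_ifs
    · rfl
    · simp
  simp only [h1]
  rw [Finset.sum_congr rfl fun x _ => Finset.sum_comm, Finset.sum_comm]

end comb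

variable {n D : ℕ} {Lb : Type} {l : Fin n → Lb} {g : Fin n → ℤ} {A A' : Fin n → Type}
  {o' : ∀ a, A' a} {c : ∀ a, A a → A' a} {t : ∀ a b, A b → A a} {G G' : Type}
  [AddCommGroup G] [AddCommGroup G'] {Φ : (Fin (D + 1) → Finset (Fin n)) → (∀ a, A a) → G}
  {Φ' : (Fin D → Finset (Fin n)) → (∀ a, A' a) → G'} {W : Fin n → G →+ G'}
  {E : Fin n → Fin n → G →+ G'}

theorem rel_val (h : Ops l g o' c t Φ Φ' W E) {val : ∀ a, A a → ℚ} {val' : ∀ a, A' a → ℚ}
    (IH : Det l Φ' val') (hval : ∀ a s, val' a (c a s) = val a s) (ho : ∀ a, val' a (o' a) = 0)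
    (ht : ∀ a b s, l a = l b → val a (t a b s) = val b s)
    {J : Type} [Fintype J] (m : J → ℤ) (τ : J → Fin (D + 1) → Finset (Fin n))
    (s : J → ∀ a, A a) (hτ : ∀ j, Atm l (τ j))
    (hX : IsOfFinAddOrder (∑ j, m j • Φ (τ j) (s j))) (a b : Fin n) (hab : a ≠ b)
    (hl : l a = l b) (T : Finset (Finset (Fin n)))
    (hT : ∀ t ∈ T, t.card = 2 ∧ a ∉ t ∧ b ∉ t) (z : Fin n) (hza : z ≠ a) (hzb : z ≠ b)
    (hz : ∀ t ∈ T, z ∉ t) :
    - 2 * (g a : ℚ) * Nt m τ s val (insert {a, b} T) z +
      ∑ x, ∑ y, (if x ≠ y ∧ ({x, y} : Finset (Fin n)) ∈ T then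
        Nt m τ s val (insert {a, x} (insert {b, y} (T.erase {x, y}))) z else 0) +
      (if l z = l a then Nt m τ s val (insert {a, z} T) b + Nt m τ s val (insert {b, z} T) a
        else 0) = 0 := by
  have hc := fun j => s_cor h hval ho ht (s j) (hτ j) hab hl
  choose κ τ' s' h1 h2 h3 using hc
  have hX' : IsOfFinAddOrder (∑ p : J × Fin 3,
      (m p.1 * κ p.1 p.2) • Φ' (τ' p.1 p.2) (s' p.1 p.2)) := by
    have h4 := (E a b).isOfFinAddOrder hX
    rw [map_sum] at h4
    rw [Fintype.sum_prod_type]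
    have h5 : ∀ j, E a b (m j • Φ (τ j) (s j)) =
        ∑ i, (m j * κ j i) • Φ' (τ' j i) (s' j i) := by
      intro j
      rw [map_zsmul, h2 j, Finset.smul_sum]
      exact Finset.sum_congr rfl fun i _ => by rw [mul_smul]
    simp only [h5] at h4
    exact h4
  obtain ⟨-, h5⟩ := s_det IH h.Z (fun p : J × Fin 3 => m p.1 * κ p.1 p.2)
    (fun p => τ' p.1 p.2) (fun p => s' p.1 p.2) (fun p => h1 p.1 p.2) hX' (fun t ht => (hT t ht).1)
  refine Eq.trans ?_ (h5 z hz)
  unfold Nt
  have h8 : ∀ f f' : J → ℚ, (if l z = l a then ∑ j, f j + ∑ j, f' j else 0) =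
      ∑ j, (if l z = l a then f j + f' j else 0) := by
    intro f f'
    split_ifs
    · rw [Finset.sum_add_distrib]
    · simp
  rw [Fintype.sum_prod_type, s_swap, Finset.mul_sum, ← Finset.sum_add_distrib, h8,
    ← Finset.sum_add_distrib]
  refine Finset.sum_congr rfl fun j _ => ?_
  have h6 := (h3 j T hT).2 z hza hzb hz
  have h7 : ∑ i, (if Finset.univ.image (τ' j i) = T then
      ((m j * κ j i : ℤ) : ℚ) * val' z (s' j i z) else 0) =
      m j * ∑ i, (if Finset.univ.image (τ' j i) = T then (κ j i : ℚ) * val' z (s' j i z)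
        else 0) := by
    rw [Finset.mul_sum]
    refine Finset.sum_congr rfl fun i _ => ?_
    split_ifs
    · push_cast
      ring
    · ring
  simp only
  rw [s_dsum (hτ j).1.1 hT ((m j : ℚ) * val z (s j z)), h7, h6]
  split_ifs <;> ring

end Pool.Agent.LibHL77
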