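import Pool.Agent.LibHL77.S1
import Pool.Agent.LibHL77.S2

/-!
[HL77 S4] the numbers and values belonging to sets of pairs vanish (pure combinatorics). Proof. Let `μ` be the maximum of `|Mt m τ T|` over the sets `T` all of whose elements have
two elements, attained at `T₀`; if `μ > 0` then `T₀ = image (τ j)` for some `j`, so the elements of `T₀` are disjoint, have one label each, and `T₀`
is not empty (`D + 1` blocks). Let `{a, b} ∈ T₀`, `T = T₀.erase {a, b}`: `rel_num` gives `2 g_a μ ≤ ∑ |Mt ..|` over the pairs `(x, y)` with `{x, y} ∈ T`, where only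
the `x` with `l x = l a` give a non-zero term (otherwise no `τ j` has the block `{a, x}`), `y` is determined by `x` (disjoint); `x ≠ a, b`, so there
are at most `2 g_a - 2` such `x` by `hn`. So `2 g_a μ ≤ (2 g_a - 2) μ`, `μ = 0`. The values: `ν` the maximum of `|Nt m τ s val T z|` over `T` as before and `z` not in the
elements of `T`; the same with `rel_val`: the `x` with `l x = l a` are different from `a, b` and, if `l z = l a`, from `z`, so the number of terms is at most
`2 g_a - 2`, resp. `2 g_a - 3 + 2` (the two last terms; `b` is not in the elements of `insert {a, z} T`), so `2 g_a ν ≤ (2 g_a - 1) ν`.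
-/

open scoped Classical

namespace Pool.Agent.LibHL77

variable {n D : ℕ} {Lb : Type} {l : Fin n → Lb} {g : Fin n → ℤ} {A A' : Fin n → Type}
  {o' : ∀ a, A' a} {c : ∀ a, A a → A' a} {t : ∀ a b, A b → A a} {G G' : Type}
  [AddCommGroup G] [AddCommGroup G'] {Φ : (Fin (D + 1) → Finset (Fin n)) → (∀ a, A a) → G}
  {Φ' : (Fin D → Finset (Fin n)) → (∀ a, A' a) → G'} {W : Fin n → G →+ G'}
  {E : Fin n → Fin n → G →+ G'}

/-- a set of blocks which is not the image of a family has the number zero -/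
private theorem s4_Mt_zero {J : Type} [Fintype J] {m : J → ℤ}
    {τ : J → Fin (D + 1) → Finset (Fin n)} {T : Finset (Finset (Fin n))}
    (h : ∀ j, Finset.univ.image (τ j) ≠ T) : Mt m τ T = 0 := by
  unfold Mt
  apply Finset.sum_eq_zero
  intro j _
  rw [if_neg (h j)]

private theorem s4_Nt_zero {J : Type} [Fintype J] {m : J → ℤ}
    {τ : J → Fin (D + 1) → Finset (Fin n)} {s : J → ∀ a, A a} {val : ∀ a, A a → ℚ}
    {T : Finset (Finset (Fin n))} {z : Fin n}
    (h : ∀ j, Finset.univ.image (τ j) ≠ T) : Nt m τ s val T z = 0 := by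
  unfold Nt
  apply Finset.sum_eq_zero
  intro j _
  rw [if_neg (h j)]

/-- two blocks of an image are equal or disjoint -/
private theorem s4_disj {τ : Fin (D + 1) → Finset (Fin n)} (hτ : Atm l τ)
    {T : Finset (Finset (Fin n))} (hT : Finset.univ.image τ = T) :
    ∀ t ∈ T, ∀ t' ∈ T, t ≠ t' → Disjoint t t' := by
  intro t ht t' ht' hne
  rw [← hT, Finset.mem_image] at ht ht'
  obtain ⟨e, -, rfl⟩ := ht
  obtain ⟨e', -, rfl⟩ := ht'
  exact hτ.1.1 e e' (fun h => hne (by rw [h]))

/-- the blocks have one label each -/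
private theorem s4_lab {τ : Fin (D + 1) → Finset (Fin n)} (hτ : Atm l τ)
    {T : Finset (Finset (Fin n))} (hT : Finset.univ.image τ = T) :
    ∀ t ∈ T, ∀ a ∈ t, ∀ b ∈ t, l a = l b := by
  intro t ht a ha b hb
  rw [← hT, Finset.mem_image] at ht
  obtain ⟨e, -, rfl⟩ := ht
  exact (hτ.1.2 e).2 a ha b hb

/-- the bound for the double sum over the pairs -/
private theorem s4_dbl {f : Fin n → Fin n → ℚ} {T : Finset (Finset (Fin n))} (P : Fin n → Prop)
    [DecidablePred P] {μ : ℚ} (hμ : 0 ≤ μ) (hdis : ∀ t ∈ T, ∀ t' ∈ T, t ≠ t' → Disjoint t t')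
    (hf : ∀ x y, x ≠ y → ({x, y} : Finset (Fin n)) ∈ T → |f x y| ≤ μ)
    (hz : ∀ x y, x ≠ y → ({x, y} : Finset (Fin n)) ∈ T → ¬ P x → f x y = 0) :
    |∑ x, ∑ y, (if x ≠ y ∧ ({x, y} : Finset (Fin n)) ∈ T then f x y else 0)| ≤
      ((Finset.univ.filter P).card : ℚ) * μ := by
  have key : ∀ x, |∑ y, (if x ≠ y ∧ ({x, y} : Finset (Fin n)) ∈ T then f x y else 0)| ≤
      if P x then μ else 0 := by
    intro x
    by_cases hx : ∃ y, x ≠ y ∧ ({x, y} : Finset (Fin n)) ∈ T
    · obtain ⟨y, hxy, hyT⟩ := hx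
      have hsum : (∑ y', (if x ≠ y' ∧ ({x, y'} : Finset (Fin n)) ∈ T then f x y' else 0)) =
          f x y := by
        rw [Finset.sum_eq_single y]
        · rw [if_pos ⟨hxy, hyT⟩]
        · intro y' _ hne
          rw [if_neg]
          rintro ⟨hxy', hyT'⟩
          by_cases he : ({x, y'} : Finset (Fin n)) = {x, y}
          · have h1 : y' ∈ ({x, y} : Finset (Fin n)) := by
              rw [← he]; simp
            rw [Finset.mem_insert, Finset.mem_singleton] at h1
            rcases h1 with h1 | h1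
            · exact hxy' h1.symm
            · exact hne h1
          · have h2 := hdis _ hyT' _ hyT he
            rw [Finset.disjoint_left] at h2
            exact h2 (Finset.mem_insert_self _ _) (Finset.mem_insert_self _ _)
        · intro h
          exact absurd (Finset.mem_univ y) h
      rw [hsum]
      by_cases hP : P x
      · rw [if_pos hP]; exact hf x y hxy hyT
      · rw [if_neg hP, hz x y hxy hyT hP, abs_zero]
    · have hsum : (∑ y', (if x ≠ y' ∧ ({x, y'} : Finset (Fin n)) ∈ T then f x y' else 0)) = 0 := by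
        apply Finset.sum_eq_zero
        intro y' _
        rw [if_neg]
        intro h
        exact hx ⟨y', h⟩
      rw [hsum, abs_zero]
      split_ifs
      · exact hμ
      · exact le_refl _
  calc |∑ x, ∑ y, (if x ≠ y ∧ ({x, y} : Finset (Fin n)) ∈ T then f x y else 0)|
      ≤ ∑ x, |∑ y, (if x ≠ y ∧ ({x, y} : Finset (Fin n)) ∈ T then f x y else 0)| :=
        Finset.abs_sum_le_sum_abs _ _
    _ ≤ ∑ x, (if P x then μ else 0) := Finset.sum_le_sum (fun x _ => key x)
    _ = ((Finset.univ.filter P).card : ℚ) * μ := by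
        rw [← Finset.sum_filter, Finset.sum_const, nsmul_eq_mul]

private theorem s4_card2 (a b : Fin n) (hab : a ≠ b) (hl : l a = l b) {N : ℤ}
    (hn : ((Finset.univ.filter fun x => l x = l a).card : ℤ) ≤ N) :
    ((Finset.univ.filter fun x => l x = l a ∧ x ≠ a ∧ x ≠ b).card : ℤ) ≤ N - 2 := by
  have h1 : insert a (insert b (Finset.univ.filter fun x => l x = l a ∧ x ≠ a ∧ x ≠ b)) ⊆
      Finset.univ.filter fun x => l x = l a := by
    intro x hx
    rw [Finset.mem_insert, Finset.mem_insert, Finset.mem_filter] at hx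
    rw [Finset.mem_filter]
    refine ⟨Finset.mem_univ _, ?_⟩
    rcases hx with hx | hx | hx
    · rw [hx]
    · rw [hx, hl]
    · exact hx.2.1
  have h2 := Finset.card_le_card h1
  rw [Finset.card_insert_of_notMem, Finset.card_insert_of_notMem] at h2
  · have h3 : (((Finset.univ.filter fun x => l x = l a ∧ x ≠ a ∧ x ≠ b).card + 1 + 1 : ℕ) : ℤ) ≤
        ((Finset.univ.filter fun x => l x = l a).card : ℤ) := by exact_mod_cast h2
    push_cast at h3
    linarith
  · intro h
    rw [Finset.mem_filter] at h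
    exact h.2.2.2 rfl
  · intro h
    rw [Finset.mem_insert, Finset.mem_filter] at h
    rcases h with h | h
    · exact hab h
    · exact h.2.2.1 rfl

private theorem s4_card3 (a b z : Fin n) (hab : a ≠ b) (hza : z ≠ a) (hzb : z ≠ b)
    (hl : l a = l b) (hlz : l z = l a) {N : ℤ}
    (hn : ((Finset.univ.filter fun x => l x = l a).card : ℤ) ≤ N) :
    ((Finset.univ.filter fun x => l x = l a ∧ x ≠ a ∧ x ≠ b ∧ x ≠ z).card : ℤ) ≤ N - 3 := by
  have h1 : insert a (insert b (insert z
      (Finset.univ.filter fun x => l x = l a ∧ x ≠ a ∧ x ≠ b ∧ x ≠ z))) ⊆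
      Finset.univ.filter fun x => l x = l a := by
    intro x hx
    rw [Finset.mem_insert, Finset.mem_insert, Finset.mem_insert, Finset.mem_filter] at hx
    rw [Finset.mem_filter]
    refine ⟨Finset.mem_univ _, ?_⟩
    rcases hx with hx | hx | hx | hx
    · rw [hx]
    · rw [hx, hl]
    · rw [hx, hlz]
    · exact hx.2.1
  have h2 := Finset.card_le_card h1
  rw [Finset.card_insert_of_notMem, Finset.card_insert_of_notMem,
    Finset.card_insert_of_notMem] at h2
  · have h3 : (((Finset.univ.filter fun x => l x = l a ∧ x ≠ a ∧ x ≠ b ∧ x ≠ z).card + 1 + 1 + 1 :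
        ℕ) : ℤ) ≤ ((Finset.univ.filter fun x => l x = l a).card : ℤ) := by exact_mod_cast h2
    push_cast at h3
    linarith
  · intro h
    rw [Finset.mem_filter] at h
    exact h.2.2.2.2 rfl
  · intro h
    rw [Finset.mem_insert, Finset.mem_filter] at h
    rcases h with h | h
    · exact hzb h.symm
    · exact h.2.2.2.1 rfl
  · intro h
    rw [Finset.mem_insert, Finset.mem_insert, Finset.mem_filter] at h
    rcases h with h | h | h
    · exact hab h
    · exact hza h.symm
    · exact h.2.2.1 rfl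

/-- the block `{a, b}` of an image `T₀` all of whose elements have two elements -/
private theorem s4_pick {τ : Fin (D + 1) → Finset (Fin n)} (hτ : Atm l τ)
    {T₀ : Finset (Finset (Fin n))} (hT : Finset.univ.image τ = T₀) (h2 : ∀ t ∈ T₀, t.card = 2) :
    ∃ a b, a ≠ b ∧ l a = l b ∧ ({a, b} : Finset (Fin n)) ∈ T₀ ∧
      insert {a, b} (T₀.erase {a, b}) = T₀ ∧
      (∀ t ∈ T₀.erase {a, b}, t.card = 2 ∧ a ∉ t ∧ b ∉ t) ∧
      (∀ t ∈ T₀.erase {a, b}, ∀ t' ∈ T₀.erase {a, b}, t ≠ t' → Disjoint t t') := by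
  have h0 : τ 0 ∈ T₀ := by
    rw [← hT]; exact Finset.mem_image_of_mem _ (Finset.mem_univ _)
  obtain ⟨a, b, hab, he⟩ := Finset.card_eq_two.mp (h2 _ h0)
  rw [he] at h0
  refine ⟨a, b, hab, ?_, h0, Finset.insert_erase h0, ?_, ?_⟩
  · exact s4_lab hτ hT _ h0 a (by simp) b (by simp)
  · intro t ht
    rw [Finset.mem_erase] at ht
    have hd := s4_disj hτ hT _ ht.2 _ h0 ht.1
    rw [Finset.disjoint_right] at hd
    exact ⟨h2 t ht.2, hd (by simp), hd (by simp)⟩
  · intro t ht t' ht' hne
    exact s4_disj hτ hT t (Finset.mem_of_mem_erase ht) t' (Finset.mem_of_mem_erase ht') hne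

/-- the new set of blocks -/
private theorem s4_new {T : Finset (Finset (Fin n))} {a b : Fin n}
    (hT : ∀ t ∈ T, t.card = 2 ∧ a ∉ t ∧ b ∉ t) {x y : Fin n}
    (hT' : ({x, y} : Finset (Fin n)) ∈ T) :
    x ≠ a ∧ x ≠ b ∧ y ≠ a ∧ y ≠ b ∧
      ∀ t ∈ insert ({a, x} : Finset (Fin n)) (insert {b, y} (T.erase {x, y})), t.card = 2 := by
  obtain ⟨-, ha, hb⟩ := hT _ hT'
  rw [Finset.mem_insert, Finset.mem_singleton, not_or] at ha hb
  refine ⟨Ne.symm ha.1, Ne.symm hb.1, Ne.symm ha.2, Ne.symm hb.2, ?_⟩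
  intro t ht
  rw [Finset.mem_insert, Finset.mem_insert] at ht
  rcases ht with ht | ht | ht
  · rw [ht]; exact Finset.card_pair ha.1
  · rw [ht]; exact Finset.card_pair hb.2
  · exact (hT t (Finset.mem_of_mem_erase ht)).1

theorem pairs_zero (h : Ops l g o' c t Φ Φ' W E) {val : ∀ a, A a → ℚ} {val' : ∀ a, A' a → ℚ}
    (IH : Det l Φ' val') (hval : ∀ a s, val' a (c a s) = val a s) (ho : ∀ a, val' a (o' a) = 0)
    (ht : ∀ a b s, l a = l b → val a (t a b s) = val b s)
    (hn : ∀ a, ((Finset.univ.filter fun b => l b = l a).card : ℤ) ≤ 2 * g a)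
    {J : Type} [Fintype J] (m : J → ℤ) (τ : J → Fin (D + 1) → Finset (Fin n))
    (s : J → ∀ a, A a) (hτ : ∀ j, Atm l (τ j))
    (hX : IsOfFinAddOrder (∑ j, m j • Φ (τ j) (s j))) (T : Finset (Finset (Fin n)))
    (hT : ∀ t ∈ T, t.card = 2) :
    Mt m τ T = 0 ∧ ∀ z, (∀ t ∈ T, z ∉ t) → Nt m τ s val T z = 0 := by
  have hMt : ∀ T : Finset (Finset (Fin n)), (∀ t ∈ T, t.card = 2) → Mt m τ T = 0 := by
    obtain ⟨T₀, hT₀, hmax⟩ := Finset.exists_max_image
      (Finset.univ.filter fun T : Finset (Finset (Fin n)) => ∀ t ∈ T, t.card = 2)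
      (fun T => |Mt m τ T|) ⟨∅, by simp⟩
    rw [Finset.mem_filter] at hT₀
    have hT₀' := hT₀.2
    have hle : ∀ T : Finset (Finset (Fin n)), (∀ t ∈ T, t.card = 2) →
        |Mt m τ T| ≤ |Mt m τ T₀| := by
      intro T hT
      exact hmax T (Finset.mem_filter.mpr ⟨Finset.mem_univ _, hT⟩)
    have hzero : |Mt m τ T₀| = 0 := by
      by_contra hne
      have hpos : 0 < |Mt m τ T₀| := lt_of_le_of_ne (abs_nonneg _) (Ne.symm hne)
      have hj : ∃ j, Finset.univ.image (τ j) = T₀ := by
        by_contra hno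
        push Not at hno
        exact hne (by rw [s4_Mt_zero hno, abs_zero])
      obtain ⟨j, hj⟩ := hj
      obtain ⟨a, b, hab, hl, hmem, hins, hTT, hdis⟩ := s4_pick (hτ j) hj hT₀'
      obtain ⟨T, hTdef⟩ : ∃ T, T = T₀.erase {a, b} := ⟨_, rfl⟩
      rw [← hTdef] at hins hTT hdis
      have hrel := rel_num h IH m τ s hτ hX a b hab hl T hTT
      rw [hins] at hrel
      have hb := s4_dbl (f := fun x y => Mt m τ (insert {a, x} (insert {b, y} (T.erase {x, y}))))
        (P := fun x => l x = l a ∧ x ≠ a ∧ x ≠ b) (le_of_lt hpos) hdis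
        (by
          intro x y hxy hyT
          exact hle _ (s4_new hTT hyT).2.2.2.2)
        (by
          intro x y hxy hyT hP
          apply s4_Mt_zero
          intro j' hj'
          apply hP
          obtain ⟨h1, h2, -⟩ := s4_new hTT hyT
          exact ⟨s4_lab (hτ j') hj' {a, x} (Finset.mem_insert_self _ _) x (by simp) a (by simp),
            h1, h2⟩)
      have hc := s4_card2 a b hab hl (hn a)
      have hcq : ((Finset.univ.filter fun x => l x = l a ∧ x ≠ a ∧ x ≠ b).card : ℚ) ≤
          2 * (g a : ℚ) - 2 := by exact_mod_cast hc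
      have h3 : 2 * (g a : ℚ) * |Mt m τ T₀| ≤
          ((Finset.univ.filter fun x => l x = l a ∧ x ≠ a ∧ x ≠ b).card : ℚ) * |Mt m τ T₀| := by
        refine le_trans ?_ hb
        have h4 : (∑ x, ∑ y, (if x ≠ y ∧ ({x, y} : Finset (Fin n)) ∈ T then
          Mt m τ (insert {a, x} (insert {b, y} (T.erase {x, y}))) else 0)) =
            2 * (g a : ℚ) * Mt m τ T₀ := by linarith
        rw [h4, abs_mul]
        exact mul_le_mul_of_nonneg_right (le_abs_self _) (abs_nonneg _)
      have h5 := mul_le_mul_of_nonneg_right hcq (le_of_lt hpos)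
      nlinarith
    intro T hT
    have h1 := hle T hT
    rw [hzero] at h1
    exact abs_eq_zero.mp (le_antisymm h1 (abs_nonneg _))
  refine ⟨hMt T hT, ?_⟩
  intro z hz
  obtain ⟨⟨T₀, z₀⟩, hT₀, hmax⟩ := Finset.exists_max_image
    (Finset.univ.filter fun p : Finset (Finset (Fin n)) × Fin n =>
      (∀ t ∈ p.1, t.card = 2) ∧ ∀ t ∈ p.1, p.2 ∉ t)
    (fun p => |Nt m τ s val p.1 p.2|) ⟨(T, z), by
      rw [Finset.mem_filter]; exact ⟨Finset.mem_univ _, hT, hz⟩⟩
  rw [Finset.mem_filter] at hT₀
  obtain ⟨-, hT₀', hz₀⟩ := hT₀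
  have hle : ∀ (T : Finset (Finset (Fin n))) (z : Fin n), (∀ t ∈ T, t.card = 2) →
      (∀ t ∈ T, z ∉ t) → |Nt m τ s val T z| ≤ |Nt m τ s val T₀ z₀| := by
    intro T z hT hz
    exact hmax (T, z) (Finset.mem_filter.mpr ⟨Finset.mem_univ _, hT, hz⟩)
  have hzero : |Nt m τ s val T₀ z₀| = 0 := by
    by_contra hne
    have hpos : 0 < |Nt m τ s val T₀ z₀| := lt_of_le_of_ne (abs_nonneg _) (Ne.symm hne)
    have hj : ∃ j, Finset.univ.image (τ j) = T₀ := by
      by_contra hno
      push Not at hno
      exact hne (by rw [s4_Nt_zero hno, abs_zero])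
    obtain ⟨j, hj⟩ := hj
    obtain ⟨a, b, hab, hl, hmem, hins, hTT, hdis⟩ := s4_pick (hτ j) hj hT₀'
    obtain ⟨T, hTdef⟩ : ∃ T, T = T₀.erase {a, b} := ⟨_, rfl⟩
    have hzT : ∀ t ∈ T, z₀ ∉ t := by
      intro t ht
      rw [hTdef] at ht
      exact hz₀ t (Finset.mem_of_mem_erase ht)
    rw [← hTdef] at hins hTT hdis
    have hzab := hz₀ _ hmem
    rw [Finset.mem_insert, Finset.mem_singleton, not_or] at hzab
    obtain ⟨hza, hzb⟩ := hzab
    have hrel := rel_val h IH hval ho ht m τ s hτ hX a b hab hl T hTT z₀ hza hzb hzT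
    rw [hins] at hrel
    have hnewz : ∀ x y : Fin n, ({x, y} : Finset (Fin n)) ∈ T →
        x ≠ z₀ ∧ ∀ t ∈ insert ({a, x} : Finset (Fin n)) (insert {b, y} (T.erase {x, y})),
          z₀ ∉ t := by
      intro x y hyT
      have h1 := hzT _ hyT
      rw [Finset.mem_insert, Finset.mem_singleton, not_or] at h1
      refine ⟨Ne.symm h1.1, ?_⟩
      intro t ht'
      rw [Finset.mem_insert, Finset.mem_insert] at ht'
      rcases ht' with ht' | ht' | ht'
      · rw [ht', Finset.mem_insert, Finset.mem_singleton, not_or]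
        exact ⟨hza, h1.1⟩
      · rw [ht', Finset.mem_insert, Finset.mem_singleton, not_or]
        exact ⟨hzb, h1.2⟩
      · exact hzT t (Finset.mem_of_mem_erase ht')
    have hb := s4_dbl (f := fun x y =>
        Nt m τ s val (insert {a, x} (insert {b, y} (T.erase {x, y}))) z₀)
      (P := fun x => l x = l a ∧ x ≠ a ∧ x ≠ b ∧ x ≠ z₀) (le_of_lt hpos) hdis
      (by
        intro x y hxy hyT
        exact hle _ _ (s4_new hTT hyT).2.2.2.2 (hnewz x y hyT).2)
      (by
        intro x y hxy hyT hP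
        apply s4_Nt_zero
        intro j' hj'
        apply hP
        obtain ⟨h1, h2, -⟩ := s4_new hTT hyT
        exact ⟨s4_lab (hτ j') hj' {a, x} (Finset.mem_insert_self _ _) x (by simp) a (by simp),
          h1, h2, (hnewz x y hyT).1⟩)
    have h6 : |∑ x, ∑ y, (if x ≠ y ∧ ({x, y} : Finset (Fin n)) ∈ T then
          Nt m τ s val (insert {a, x} (insert {b, y} (T.erase {x, y}))) z₀ else 0)| +
        |if l z₀ = l a then Nt m τ s val (insert {a, z₀} T) b + Nt m τ s val (insert {b, z₀} T) a
          else 0| ≤ (2 * (g a : ℚ) - 1) * |Nt m τ s val T₀ z₀| := by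
      by_cases hlz : l z₀ = l a
      · rw [if_pos hlz]
        have hc := s4_card3 a b z₀ hab hza hzb hl hlz (hn a)
        have hcq : ((Finset.univ.filter fun x => l x = l a ∧ x ≠ a ∧ x ≠ b ∧ x ≠ z₀).card : ℚ) ≤
            2 * (g a : ℚ) - 3 := by exact_mod_cast hc
        have h5 := mul_le_mul_of_nonneg_right hcq (le_of_lt hpos)
        have h7 : |Nt m τ s val (insert {a, z₀} T) b| ≤ |Nt m τ s val T₀ z₀| := by
          apply hle
          · intro t ht'
            rw [Finset.mem_insert] at ht'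
            rcases ht' with ht' | ht'
            · rw [ht']; exact Finset.card_pair (Ne.symm hza)
            · exact (hTT t ht').1
          · intro t ht'
            rw [Finset.mem_insert] at ht'
            rcases ht' with ht' | ht'
            · rw [ht', Finset.mem_insert, Finset.mem_singleton, not_or]
              exact ⟨Ne.symm hab, Ne.symm hzb⟩
            · exact (hTT t ht').2.2
        have h8 : |Nt m τ s val (insert {b, z₀} T) a| ≤ |Nt m τ s val T₀ z₀| := by
          apply hle
          · intro t ht'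
            rw [Finset.mem_insert] at ht'
            rcases ht' with ht' | ht'
            · rw [ht']; exact Finset.card_pair (Ne.symm hzb)
            · exact (hTT t ht').1
          · intro t ht'
            rw [Finset.mem_insert] at ht'
            rcases ht' with ht' | ht'
            · rw [ht', Finset.mem_insert, Finset.mem_singleton, not_or]
              exact ⟨hab, Ne.symm hza⟩
            · exact (hTT t ht').2.1
        have h9 := abs_add_le (Nt m τ s val (insert {a, z₀} T) b)
          (Nt m τ s val (insert {b, z₀} T) a)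
        linarith
      · rw [if_neg hlz, abs_zero, add_zero]
        have hsub : ((Finset.univ.filter fun x => l x = l a ∧ x ≠ a ∧ x ≠ b ∧ x ≠ z₀).card : ℤ) ≤
            ((Finset.univ.filter fun x => l x = l a ∧ x ≠ a ∧ x ≠ b).card : ℤ) := by
          have h1 : (Finset.univ.filter fun x => l x = l a ∧ x ≠ a ∧ x ≠ b ∧ x ≠ z₀) ⊆
              (Finset.univ.filter fun x => l x = l a ∧ x ≠ a ∧ x ≠ b) := by
            intro x hx
            rw [Finset.mem_filter] at hx ⊢
            exact ⟨hx.1, hx.2.1, hx.2.2.1, hx.2.2.2.1⟩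
          exact_mod_cast Finset.card_le_card h1
        have hc := le_trans hsub (s4_card2 a b hab hl (hn a))
        have hcq : ((Finset.univ.filter fun x => l x = l a ∧ x ≠ a ∧ x ≠ b ∧ x ≠ z₀).card : ℚ) ≤
            2 * (g a : ℚ) - 2 := by exact_mod_cast hc
        have h5 := mul_le_mul_of_nonneg_right hcq (le_of_lt hpos)
        linarith
    have h10 : 2 * (g a : ℚ) * |Nt m τ s val T₀ z₀| ≤
        (2 * (g a : ℚ) - 1) * |Nt m τ s val T₀ z₀| := by
      refine le_trans ?_ h6
      refine le_trans ?_ (abs_add_le _ _)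
      have h4 : (∑ x, ∑ y, (if x ≠ y ∧ ({x, y} : Finset (Fin n)) ∈ T then
          Nt m τ s val (insert {a, x} (insert {b, y} (T.erase {x, y}))) z₀ else 0)) +
          (if l z₀ = l a then Nt m τ s val (insert {a, z₀} T) b +
            Nt m τ s val (insert {b, z₀} T) a else 0) =
          2 * (g a : ℚ) * Nt m τ s val T₀ z₀ := by linarith
      rw [h4, abs_mul]
      exact mul_le_mul_of_nonneg_right (le_abs_self _) (abs_nonneg _)
    linarith
  have h1 := hle T z hT hz
  rw [hzero] at h1
  exact abs_eq_zero.mp (le_antisymm h1 (abs_nonneg _))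

end Pool.Agent.LibHL77
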