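import Pool.Agent.LibHL77.S3
import Pool.Agent.LibHL77.S4

/-!
[HL77 S5] the inductive step (pure combinatorics). Proof. For a set of blocks `T` (we may assume `T = image (τ j)` for some `j`, otherwise `Mt = Nt = 0`) induction on the number of elements of `T` with one
element. If there is none: `pairs_zero` (the elements have one or two elements). Otherwise `{a} ∈ T`, `T₁ = T.erase {a}`: `rel_W` for `T₁`: the sets `insert {a, x} T₁` have one
block less with one element (`{a, x}` is not in `T₁`; if `insert {a, x} T₁` is not an image the terms vanish), so by induction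
`Mt m τ (insert {a} T₁) = 0`; the same for the values.
-/

open scoped Classical

namespace Pool.Agent.LibHL77

variable {n D : ℕ} {Lb : Type} {l : Fin n → Lb} {g : Fin n → ℤ} {A A' : Fin n → Type}
  {o' : ∀ a, A' a} {c : ∀ a, A a → A' a} {t : ∀ a b, A b → A a} {G G' : Type}
  [AddCommGroup G] [AddCommGroup G'] {Φ : (Fin (D + 1) → Finset (Fin n)) → (∀ a, A a) → G}
  {Φ' : (Fin D → Finset (Fin n)) → (∀ a, A' a) → G'} {W : Fin n → G →+ G'}
  {E : Fin n → Fin n → G →+ G'}

theorem det_step (h : Ops l g o' c t Φ Φ' W E) {val : ∀ a, A a → ℚ} {val' : ∀ a, A' a → ℚ}
    (IH : Det l Φ' val') (hval : ∀ a s, val' a (c a s) = val a s) (ho : ∀ a, val' a (o' a) = 0)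
    (ht : ∀ a b s, l a = l b → val a (t a b s) = val b s)
    (hn : ∀ a, ((Finset.univ.filter fun b => l b = l a).card : ℤ) ≤ 2 * g a) :
    Det l Φ val := by
  intro J _ m τ s hτ hX
  have key : ∀ (k : ℕ) (T : Finset (Finset (Fin n))),
      (T.filter fun t => t.card = 1).card = k →
      Mt m τ T = 0 ∧ ∀ z, (∀ t ∈ T, z ∉ t) → Nt m τ s val T z = 0 := by
    intro k
    induction k with
    | zero =>
      intro T hT
      by_cases hj : ∃ j, Finset.univ.image (τ j) = T
      · obtain ⟨j, hj⟩ := hj
        refine pairs_zero h IH hval ho ht hn m τ s hτ hX T ?_
        intro t htT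
        have h1 : t.card ≠ 1 := by
          intro h1
          have h2 : t ∈ T.filter fun t => t.card = 1 := Finset.mem_filter.mpr ⟨htT, h1⟩
          rw [Finset.card_eq_zero.mp hT] at h2
          exact absurd h2 (Finset.notMem_empty _)
        rw [← hj, Finset.mem_image] at htT
        obtain ⟨e, -, rfl⟩ := htT
        have h2 := (hτ j).2 e
        have h3 : 0 < (τ j e).card := Finset.card_pos.mpr ((hτ j).1.2 e).1
        omega
      · push Not at hj
        refine ⟨?_, fun z _ => ?_⟩
        · unfold Mt
          apply Finset.sum_eq_zero
          intro j _
          rw [if_neg (hj j)]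
        · unfold Nt
          apply Finset.sum_eq_zero
          intro j _
          rw [if_neg (hj j)]
    | succ k ih =>
      intro T hT
      by_cases hj : ∃ j, Finset.univ.image (τ j) = T
      · obtain ⟨j, hj⟩ := hj
        have hne : (T.filter fun t => t.card = 1).Nonempty := by
          rw [← Finset.card_pos, hT]; exact Nat.succ_pos k
        obtain ⟨t₀, ht₀⟩ := hne
        rw [Finset.mem_filter] at ht₀
        obtain ⟨a, rfl⟩ := Finset.card_eq_one.mp ht₀.2
        obtain ⟨T₁, hT₁⟩ : ∃ T₁, T₁ = T.erase {a} := ⟨_, rfl⟩
        have hins : insert {a} T₁ = T := by rw [hT₁]; exact Finset.insert_erase ht₀.1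
        have ha : ∀ t ∈ T₁, a ∉ t := by
          intro t htT
          rw [hT₁, Finset.mem_erase] at htT
          have h1 := htT.2
          have h2 := ht₀.1
          have h3 := htT.1
          rw [← hj, Finset.mem_image] at h1 h2
          obtain ⟨e, -, he⟩ := h1
          obtain ⟨e', -, he'⟩ := h2
          have h4 : e ≠ e' := by
            intro h5
            apply h3
            rw [← he, h5, he']
          have h6 := (hτ j).1.1 e e' h4
          rw [he, he', Finset.disjoint_singleton_right] at h6
          exact h6
        have hcard : ∀ x, x ≠ a →
            ((insert ({a, x} : Finset (Fin n)) T₁).filter fun t => t.card = 1).card = k := by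
          intro x hx
          have h1 : ((insert ({a, x} : Finset (Fin n)) T₁).filter fun t => t.card = 1) =
              (T.filter fun t => t.card = 1).erase {a} := by
            rw [Finset.filter_insert, if_neg, hT₁, Finset.filter_erase]
            rw [Finset.card_pair (Ne.symm hx)]
            norm_num
          rw [h1, Finset.card_erase_of_mem (Finset.mem_filter.mpr ht₀), hT]
          rfl
        obtain ⟨hW, hW'⟩ := rel_W h IH hval ho m τ s hτ hX a T₁ ha
        rw [hins] at hW
        refine ⟨?_, ?_⟩
        · rw [Finset.sum_eq_zero] at hW
          · rw [add_zero] at hW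
            exact hW
          · intro x hx
            exact (ih _ (hcard x (Finset.ne_of_mem_erase hx))).1
        · intro z hz
          have hza : z ≠ a := by
            have h1 := hz _ ht₀.1
            rwa [Finset.mem_singleton] at h1
          have hzT : ∀ t ∈ T₁, z ∉ t := by
            intro t htT
            rw [hT₁] at htT
            exact hz t (Finset.mem_of_mem_erase htT)
          have h2 := hW' z hza hzT
          rw [hins, Finset.sum_eq_zero, add_zero] at h2
          · exact h2
          · intro x hx
            have hxz := Finset.ne_of_mem_erase hx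
            have hxa := Finset.ne_of_mem_erase (Finset.mem_of_mem_erase hx)
            refine (ih _ (hcard x hxa)).2 z ?_
            intro t htT
            rw [Finset.mem_insert] at htT
            rcases htT with htT | htT
            · rw [htT, Finset.mem_insert, Finset.mem_singleton, not_or]
              exact ⟨hza, Ne.symm hxz⟩
            · exact hzT t htT
      · push Not at hj
        refine ⟨?_, fun z _ => ?_⟩
        · unfold Mt
          apply Finset.sum_eq_zero
          intro j _
          rw [if_neg (hj j)]
        · unfold Nt
          apply Finset.sum_eq_zero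
          intro j _
          rw [if_neg (hj j)]
  intro T
  exact key _ T rfl

end Pool.Agent.LibHL77
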