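import Pool.Agent.LibHL77.Z3
import Pool.Agent.LibEnd77.ValA

/-!
[HL77 Z5] the Picard group over any field (generated by the rational points). Proof of `mk_zero_iff`. The set of the `D` with the property on the right is a subgroup (`h h'`, `h⁻¹`) and contains the `IsDiv f D` (LibHyp34/Defs.lean: `Sp v (gen f) (p v)` gives
`SpR v (gen f) (cst _ (p v))`; the places over one rational point are equal: `cen_unique`); conversely the support of `h` is contained in the places `exists_cen` of the points of the support of `D` (finite), which gives `IsDiv f D`.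
`reg_el`: write `h = A + B ys` with `A, B ∈ k(xs)`. For every irreducible `P` there is a place over `P` (e.g. an extension of the valuation, or a prime of the integral closure of `k[xs]`, `ofHOS` in LibEnd77/ValA.lean). All places over `P` are regular at `xs`, so `h` and `σ h` (`σ`
permutes the places) are regular there; as in Z3a (1) `A, B` have no pole at `P`. So `A, B ∈ k[xs]`. (Or: `h` is integral over `k[xs]` because it is in all valuation rings, then `2 A = h + σ h`, `B ^ 2 f` are in `k[xs]`.)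
-/

open scoped Classical
open Polynomial

namespace Pool.Agent.LibHL77

open Pool.Agent.LibBH2
open Pool.Agent.LibCHd (VR RF Red FunF IsCps)
open Pool.Agent.LibHyp34 (Hyp Pt Pic jP Sp KC DCf gn gen el mk)
open Pool.Agent.LibHD77
open Pool.Agent.LibHD77.Comb (Pat sub Cmp)

variable {k : Type} [Field k] [CharZero k]

section aux

omit [CharZero k] in
theorem z5_cst_inj {M : Type} [Field M] [Algebra k M] {f : k[X]} {s s' : Pt f}
    (h : (cst M s : MPt f M) = cst M s') : s = s' := by
  match s, s' with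
  | .inf, .inf => rfl
  | .inf, .aff x y h1 => cases h
  | .aff x y h1, .inf => cases h
  | .aff x y h1, .aff x' y' h2 =>
    simp only [cst, Pt.aff.injEq] at h
    have e1 : x = x' := (algebraMap k M).injective h.1
    have e2 : y = y' := (algebraMap k M).injective h.2
    subst e1 e2
    rfl

omit [CharZero k] in
theorem z5_SpR_iff {K : Type} [Field K] [Algebra k K] {f : k[X]} (v : Place k K) (T : MPt f K)
    (s : Pt f) : SpR v T (cst (RF v) s) ↔ Sp v T s := by
  match T, s with
  | .inf, .inf => exact ⟨fun _ => rfl, fun _ => rfl⟩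
  | .inf, .aff x y h1 =>
    constructor
    · intro h
      cases (show (cst (RF v) (.aff x y h1 : Pt f) : MPt f (RF v)) = .inf from h)
    · intro h
      cases (show (.aff x y h1 : Pt f) = .inf from h)
  | .aff x y h1, .inf => exact Iff.rfl
  | .aff x y h1, .aff x' y' h2 =>
    change (Red v x (algebraMap k (RF v) x') ∧ Red v y (algebraMap k (RF v) y')) ↔ _
    rw [LibCHd.red_iff_val, LibCHd.red_iff_val]
    exact Iff.rfl

theorem z5_unique {f : k[X]} [Hyp f] {s : Pt f} {p p' : Place k (KC f)}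
    (h : SpR p (gen f : MPt f (KC f)) (cst (RF p) s))
    (h' : SpR p' (gen f : MPt f (KC f)) (cst (RF p') s)) : p = p' := by
  obtain ⟨p₀, hc, -, -, -, -⟩ := exists_cen f s
  have key : ∀ q : Place k (KC f), SpR q (gen f : MPt f (KC f)) (cst (RF q) s) → q = p₀ := by
    intro q hq
    have h1 : Cen f q (cst (RF q) s : MPt f (RF q)) :=
      ⟨cst (RF q) s, AlgHom.id k (RF q), hq, mpt_cst _ _⟩
    have h2 := cen_mpt f p₀ (Algebra.ofId k (RF q)) (cst k s : MPt f k) hc
    rw [mpt_cst] at h2
    exact cen_unique f q p₀ _ h1 h2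
  rw [key p h, key p' h']

theorem z5_exists (f : k[X]) [Hyp f] (s : Pt f) :
    ∃ p : Place k (KC f), SpR p (gen f : MPt f (KC f)) (cst (RF p) s) := by
  obtain ⟨p₀, -, h, -, -, -⟩ := exists_cen f s
  exact ⟨p₀, h⟩

/-- the place at a rational point -/
noncomputable def z5_pl (f : k[X]) [Hyp f] (s : Pt f) : Place k (KC f) := (z5_exists f s).choose

theorem z5_pl_spec (f : k[X]) [Hyp f] (s : Pt f) :
    SpR (z5_pl f s) (gen f : MPt f (KC f)) (cst (RF (z5_pl f s)) s) := (z5_exists f s).choose_spec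

end aux

/-- the property of `D` in `mk_zero_iff` -/
def z5_P (f : k[X]) [Hyp f] (D : Pt f →₀ ℤ) : Prop :=
    ∃ h : KC f, h ≠ 0 ∧
      (∀ p : Place k (KC f), p.ord h ≠ 0 → ∃ s : Pt f, SpR p (gen f : MPt f (KC f)) (cst (RF p) s)) ∧
      ∀ (p : Place k (KC f)) (s : Pt f), SpR p (gen f : MPt f (KC f)) (cst (RF p) s) →
        p.ord h = D s

theorem z5_of_isDiv (f : k[X]) [Hyp f] (D : Pt f →₀ ℤ) (hD : LibHyp34.IsDiv f D) : z5_P f D := by
  obtain ⟨h, S, p, hne, hS, hsp, rfl⟩ := hD
  have hspr : ∀ v ∈ S, SpR v (gen f : MPt f (KC f)) (cst (RF v) (p v)) := fun v hv =>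
    (z5_SpR_iff v _ _).2 (hsp v hv)
  refine ⟨h, hne, fun v hv => ⟨p v, hspr v (hS v hv)⟩, fun v s hs => ?_⟩
  rw [Finsupp.finsetSum_apply, Finset.sum_eq_single v]
  · by_cases hv : v ∈ S
    · have h1 : p v = s := z5_cst_inj (SpR_unique (hspr v hv) hs)
      rw [h1, Finsupp.single_eq_same]
    · have h1 : v.ord h = 0 := by
        by_contra h1
        exact hv (hS v h1)
      rw [h1, Finsupp.single_zero, Finsupp.zero_apply]
  · intro w hw hne
    rw [Finsupp.single_apply, if_neg]
    intro h1
    apply hne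
    have h2 := hspr w hw
    rw [h1] at h2
    exact z5_unique h2 hs
  · intro hv
    have h1 : v.ord h = 0 := by
      by_contra h1
      exact hv (hS v h1)
    rw [h1, Finsupp.single_zero, Finsupp.zero_apply]

theorem mk_zero_iff (f : k[X]) [Hyp f] (D : Pt f →₀ ℤ) : mk f D = 0 ↔
    ∃ h : KC f, h ≠ 0 ∧
      (∀ p : Place k (KC f), p.ord h ≠ 0 → ∃ s : Pt f, SpR p (gen f : MPt f (KC f)) (cst (RF p) s)) ∧
      ∀ (p : Place k (KC f)) (s : Pt f), SpR p (gen f : MPt f (KC f)) (cst (RF p) s) →
        p.ord h = D s := by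
  have h0 : mk f D = 0 ↔ D ∈ AddSubgroup.closure {D | LibHyp34.IsDiv f D} :=
    QuotientAddGroup.eq_zero_iff D
  rw [h0]
  clear h0
  constructor
  · intro h
    change z5_P f D
    induction h using AddSubgroup.closure_induction with
    | mem D hD => exact z5_of_isDiv f D hD
    | zero =>
      refine ⟨1, one_ne_zero, fun p hp => absurd p.ord_one hp, fun p s _ => ?_⟩
      rw [p.ord_one]
      rfl
    | add D D' _ _ ih ih' =>
      obtain ⟨h, h1, h2, h3⟩ := ih
      obtain ⟨h', h1', h2', h3'⟩ := ih'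
      refine ⟨h * h', mul_ne_zero h1 h1', fun p hp => ?_, fun p s hs => ?_⟩
      · rw [p.ord_mul _ _ h1 h1'] at hp
        by_cases hh : p.ord h = 0
        · rw [hh, zero_add] at hp
          exact h2' p hp
        · exact h2 p hh
      · rw [p.ord_mul _ _ h1 h1', h3 p s hs, h3' p s hs]
        rfl
    | neg D _ ih =>
      obtain ⟨h, h1, h2, h3⟩ := ih
      refine ⟨h⁻¹, inv_ne_zero h1, fun p hp => ?_, fun p s hs => ?_⟩
      · rw [p.ord_inv] at hp
        exact h2 p fun h4 => hp (by rw [h4, neg_zero])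
      · rw [p.ord_inv, h3 p s hs]
        rfl
  · rintro ⟨h, h1, h2, h3⟩
    apply AddSubgroup.subset_closure
    change LibHyp34.IsDiv f D
    have hord : ∀ s : Pt f, (z5_pl f s).ord h = D s := fun s => h3 _ s (z5_pl_spec f s)
    have hinj : ∀ s s' : Pt f, z5_pl f s = z5_pl f s' → s = s' := by
      intro s s' hs
      have h4 := z5_pl_spec f s
      have h5 := z5_pl_spec f s'
      rw [← hs] at h5
      exact z5_cst_inj (SpR_unique h4 h5)
    have hpt : ∃ p : Place k (KC f) → Pt f, ∀ s, p (z5_pl f s) = s := by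
      have : Nonempty (Pt f) := ⟨.inf⟩
      refine ⟨Function.invFun (z5_pl f), fun s => ?_⟩
      exact Function.leftInverse_invFun (fun s s' hs => hinj s s' hs) s
    obtain ⟨p, hp⟩ := hpt
    refine ⟨h, D.support.image (z5_pl f), p, h1, ?_, ?_, ?_⟩
    · intro v hv
      obtain ⟨s, hs⟩ := h2 v hv
      have e1 : v = z5_pl f s := z5_unique hs (z5_pl_spec f s)
      rw [Finset.mem_image]
      refine ⟨s, ?_, e1.symm⟩
      rw [Finsupp.mem_support_iff, ← hord, ← e1]
      exact hv
    · intro v hv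
      rw [Finset.mem_image] at hv
      obtain ⟨s, -, rfl⟩ := hv
      rw [hp]
      exact (z5_SpR_iff _ _ _).1 (z5_pl_spec f s)
    · rw [Finset.sum_image (fun s _ s' _ hs => hinj s s' hs)]
      conv_lhs => rw [← Finsupp.sum_single D]
      rw [Finsupp.sum]
      refine Finset.sum_congr rfl fun s _ => ?_
      rw [hp, hord]

section reg

open Pool.Agent.LibEnd77.Val8 IsDedekindDomain

omit [CharZero k] in
theorem z5_finite (f : k[X]) [Hyp f] : FiniteDimensional (RatFunc k) (KC f) := by
  have hm : (quadPoly f).Monic := monic_X_pow_sub_C _ two_ne_zero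
  exact hm.finite_adjoinRoot

theorem z5_integral (f : k[X]) [Hyp f] (h : KC f)
    (H : ∀ p : Place k (KC f), p.Reg (xs f) → p.Reg h) : IsIntegral k[X] h := by
  have hfin := z5_finite f
  have hded : IsDedekindDomain (integralClosure k[X] (KC f)) :=
    integralClosure.isDedekindDomain k[X] (RatFunc k) (KC f)
  have hfrac : IsFractionRing (integralClosure k[X] (KC f)) (KC f) :=
    integralClosure.isFractionRing_of_finite_extension (RatFunc k) (KC f)
  by_cases h0 : h = 0
  · rw [h0]
    exact isIntegral_zero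
  have h1 : h ∈ (algebraMap (integralClosure k[X] (KC f)) (KC f)).range := by
    apply HeightOneSpectrum.mem_integers_of_valuation_le_one
    intro P
    have hx : P.valuation (KC f) (xs f) ≤ 1 := by
      have e1 : xs f = algebraMap (integralClosure k[X] (KC f)) (KC f)
          (algebraMap k[X] (integralClosure k[X] (KC f)) X) := by
        change algebraMap (RatFunc k) (KC f) RatFunc.X = algebraMap k[X] (KC f) X
        rw [← RatFunc.algebraMap_X]
        rfl
      rw [e1]
      exact P.valuation_le_one _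
    have h2 : (ofHOS (k := k) (H := KC f) P).Reg (xs f) := by
      by_cases hx0 : xs f = 0
      · exact Or.inl hx0
      · right
        rw [ofHOS_ord (k := k) P hx0, ← WithZero.exp_zero, WithZero.exp_le_exp] at hx
        omega
    rcases H _ h2 with h3 | h3
    · exact absurd h3 h0
    · rw [ofHOS_ord (k := k) P h0, ← WithZero.exp_zero, WithZero.exp_le_exp]
      omega
  obtain ⟨r, hr⟩ := h1
  rw [← hr]
  exact r.2

omit [CharZero k] in
/-- if `b ^ 2 f` is a polynomial and `f` is squarefree then `b` is a polynomial -/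
theorem z5_sqf (f : k[X]) [Hyp f] (b : RatFunc k) (G : k[X])
    (h : b ^ 2 * algebraMap k[X] (RatFunc k) f = algebraMap k[X] (RatFunc k) G) :
    ∃ B : k[X], b = algebraMap k[X] (RatFunc k) B := by
  have h1 := RatFunc.num_div_denom b
  have hd : b.denom ≠ 0 := b.denom_ne_zero
  have hd' : algebraMap k[X] (RatFunc k) b.denom ≠ 0 := by simpa using hd
  have h2 : b.num ^ 2 * f = G * b.denom ^ 2 := by
    apply IsFractionRing.injective k[X] (RatFunc k)
    rw [map_mul, map_mul, map_pow, map_pow, ← h]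
    generalize algebraMap k[X] (RatFunc k) b.num = n at h1 ⊢
    generalize algebraMap k[X] (RatFunc k) b.denom = d at h1 hd' ⊢
    rw [← h1]
    field_simp
  have hcop : IsCoprime (b.denom ^ 2) (b.num ^ 2) := (RatFunc.isCoprime_num_denom b).symm.pow
  have h3 : b.denom ^ 2 ∣ f := hcop.dvd_of_dvd_mul_left ⟨G, by rw [h2, mul_comm]⟩
  have h4 : IsUnit b.denom := (Hyp.sqf (f := f)) _ (by rw [← pow_two]; exact h3)
  obtain ⟨u, hu⟩ := h4.exists_right_inv
  refine ⟨b.num * u, ?_⟩
  rw [← h1, map_mul, div_eq_iff hd', mul_assoc, ← map_mul, mul_comm u, hu, map_one, mul_one, h1]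

theorem reg_el (f : k[X]) [Hyp f] (h : KC f) (H : ∀ p : Place k (KC f), p.Reg (xs f) → p.Reg h) :
    ∃ A B : k[X], h = el f A B := by
  have hint := z5_integral f h H
  obtain ⟨ψ₀, hψ1, hψ2⟩ : ∃ ψ : KC f →+* KC f, (∀ r, ψ ((DCf f).ι r) = (DCf f).ι r) ∧
      ψ (DCf f).w = -(DCf f).w := by
    refine (DCf f).exists_hom (LibHyp34.nsq f) (DCf f).ι.toRingHom (-(DCf f).w) ?_
    rw [neg_sq]
    exact (DCf f).hw
  have hιa : ∀ r : RatFunc k, (DCf f).ι r = algebraMap (RatFunc k) (KC f) r := fun _ => rfl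
  let ψ : KC f →ₐ[k[X]] KC f :=
    { ψ₀ with commutes' := fun P => hψ1 (algebraMap k[X] (RatFunc k) P) }
  have hψ0 : ∀ g, ψ g = ψ₀ g := fun _ => rfl
  have hint' : IsIntegral k[X] (ψ h) := hint.map ψ
  obtain ⟨a, b, hab⟩ := (DCf f).gen h
  have hψh : ψ h = (DCf f).ι a - (DCf f).ι b * (DCf f).w := by
    rw [hψ0, hab, map_add, map_mul, hψ1, hψ1, hψ2]
    ring
  have ha : IsIntegral k[X] (2 * a) := by
    have h1 : IsIntegral k[X] (algebraMap (RatFunc k) (KC f) (2 * a)) := by
      have h2 := hint.add hint'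
      have h3 : algebraMap (RatFunc k) (KC f) (2 * a) = h + ψ h := by
        rw [hψh, ← hιa, map_mul, map_ofNat, hab]
        ring
      rw [h3]
      exact h2
    exact (isIntegral_algebraMap_iff (algebraMap (RatFunc k) (KC f)).injective).1 h1
  have hb : IsIntegral k[X] ((2 * b) ^ 2 * algebraMap k[X] (RatFunc k) f) := by
    have h1 : IsIntegral k[X] (algebraMap (RatFunc k) (KC f)
        ((2 * b) ^ 2 * algebraMap k[X] (RatFunc k) f)) := by
      have h2 := (hint.sub hint').pow 2
      have h4 : (DCf f).ι (algebraMap k[X] (RatFunc k) f) = (DCf f).w ^ 2 := (DCf f).hw.symm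
      have h3 : algebraMap (RatFunc k) (KC f) ((2 * b) ^ 2 * algebraMap k[X] (RatFunc k) f) =
          (h - ψ h) ^ 2 := by
        rw [hψh, ← hιa, map_mul, map_pow, map_mul, map_ofNat, h4, hab]
        ring
      rw [h3]
      exact h2
    exact (isIntegral_algebraMap_iff (algebraMap (RatFunc k) (KC f)).injective).1 h1
  obtain ⟨A, hA⟩ := IsIntegrallyClosed.isIntegral_iff.1 ha
  obtain ⟨G, hG⟩ := IsIntegrallyClosed.isIntegral_iff.1 hb
  obtain ⟨B, hB⟩ := z5_sqf f (2 * b) G hG.symm
  have h2 : (2 : RatFunc k) ≠ 0 := by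
    have h3 : (2 : RatFunc k) = algebraMap k (RatFunc k) 2 := by rw [map_ofNat]
    rw [h3]
    exact (_root_.map_ne_zero _).2 two_ne_zero
  have hC : ∀ r : RatFunc k, ∀ R : k[X], 2 * r = algebraMap k[X] (RatFunc k) R →
      (DCf f).ι r = aeval (DCf f).s (C (2⁻¹ : k) * R) := by
    intro r R hr
    have h3 : (algebraMap k[X] (RatFunc k) (C (2⁻¹ : k))) * 2 = 1 := by
      have h4 : (2 : RatFunc k) = algebraMap k[X] (RatFunc k) (C 2) := by
        rw [map_ofNat, map_ofNat]
      rw [h4, ← map_mul, ← C_mul, inv_mul_cancel₀ two_ne_zero, C_1, map_one]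
    rw [← (DCf f).ι_poly, map_mul, ← hr, ← mul_assoc, h3, one_mul]
  refine ⟨C (2⁻¹ : k) * A, C (2⁻¹ : k) * B, ?_⟩
  rw [el, ← hC a A hA.symm, ← hC b B hB]
  exact hab

end reg

end Pool.Agent.LibHL77
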