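import Pool.Agent.LibHL77.NDefs

/-!
Blocks and constants: definitions.
-/

open scoped Classical
open Polynomial

namespace Pool.Agent.LibHL77

open Pool.Agent.LibBH2
open Pool.Agent.LibCHd (VR RF Red FunF IsCps)
open Pool.Agent.LibHyp34 (Hyp Pt Pic jP Sp KC DCf gn)
open Pool.Agent.LibHD77
open Pool.Agent.LibHD77.Comb (Pat sub Cmp)

variable {k : Type} [Field k] {n : ℕ} {F : Fin n → k[X]}

/-- the constants `s` over `L`, replaced by the point at infinity on `U` -/
noncomputable def cs (L : Type) [Field L] [Algebra k L] (s : ∀ a, Pt (F a)) (U : Finset (Fin n)) :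
    ∀ a, Pt (ext L F a) := fun a => if a ∈ U then .inf else (cst L (s a) : MPt (F a) L)

/-- the constants `s` over `L`, replaced by the point `s b` on `U` -/
noncomputable def st (L : Type) [Field L] [Algebra k L] (s : ∀ a, Pt (F a)) (U : Finset (Fin n))
    (b : Fin n) : ∀ a, Pt (ext L F a) := fun a =>
  if a ∈ U then (cst L (tr (F b) (F a) (s b)) : MPt (F a) L) else (cst L (s a) : MPt (F a) L)

/-- the blocks without the block `e` -/
def dl {D : ℕ} (e : Fin (D + 1)) (τ : Fin (D + 1) → Finset (Fin n)) : Fin D → Finset (Fin n) :=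
  fun i => τ (e.succAbove i)

/-- the blocks `e` and `e'` are merged (the index `e'` is removed) -/
def mrg {D : ℕ} (e e' : Fin (D + 1)) (τ : Fin (D + 1) → Finset (Fin n)) :
    Fin D → Finset (Fin n) := fun i =>
  if e'.succAbove i = e then τ e ∪ τ e' else τ (e'.succAbove i)

end Pool.Agent.LibHL77
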