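import Pool.Agent.LibHL77.Z6b
import Pool.Agent.LibHL77.QDefs

/-!
[HL77 Z7] functionals. Proofs. `tors_iff`: the subgroup generated by an element of infinite order is `ℤ`; extend `n x ↦ n` to `A → ℚ` (`ℚ` is divisible: e.g. the `ℚ`-vector space `ℚ ⊗ A`, or `AddCommGrpCat` injective objects, or Zorn).
`ext_fnl`: for a polynomial `g` over `L` which is `f.map` for a (unique) `f` with `Hyp f`: on the subgroup of `Pic (f.map)` generated by the `jP (cst L s)` the map `∑ m_j jP (cst L s_j) ↦ ∑ m_j lam f (jP s_j)` is well defined (`pic_inj`: if the first sum is zero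
the second one is torsion, so its value is zero); extend it to `Pic (f.map)`. Other `g`: zero. `mapDomain` and `jP`: `jP s = mk f (single s 1 - single .inf 1)`. `val_tr`: `subst`.
-/

open scoped Classical
open Polynomial

namespace Pool.Agent.LibHL77

open Pool.Agent.LibBH2
open Pool.Agent.LibCHd (VR RF Red FunF IsCps)
open Pool.Agent.LibHyp34 (Hyp Pt Pic jP Sp KC DCf gn gen el mk)
open Pool.Agent.LibHD77
open Pool.Agent.LibHD77.Comb (Pat sub Cmp)

/-- extension of homomorphisms to `ℚ` -/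
private theorem Z7_ext {A B : Type} [AddCommGroup A] [AddCommGroup B] (i : A →+ B)
    (hi : Function.Injective i) (φ : A →+ ℚ) : ∃ ψ : B →+ ℚ, ∀ a, ψ (i a) = φ a := by
  obtain ⟨ψ, hψ⟩ := (Module.Baer.of_divisible ℚ).extension_property_addMonoidHom i hi φ
  exact ⟨ψ, fun a => DFunLike.congr_fun hψ a⟩

theorem tors_iff {A : Type} [AddCommGroup A] (x : A) :
    IsOfFinAddOrder x ↔ ∀ lam : A →+ ℚ, lam x = 0 := by
  constructor
  · intro h lam
    rw [isOfFinAddOrder_iff_nsmul_eq_zero] at h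
    obtain ⟨n, hn, h⟩ := h
    have h1 : n • lam x = 0 := by rw [← map_nsmul, h, map_zero]
    rw [nsmul_eq_mul, mul_eq_zero] at h1
    rcases h1 with h1 | h1
    · exact absurd h1 (by exact_mod_cast hn.ne')
    · exact h1
  · intro h
    by_contra hx
    have hi : Function.Injective (zmultiplesHom A x) := by
      intro a b hab
      simp only [zmultiplesHom_apply] at hab
      by_contra hne
      apply hx
      rw [isOfFinAddOrder_iff_zsmul_eq_zero]
      refine ⟨a - b, sub_ne_zero.2 hne, ?_⟩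
      rw [sub_smul, hab, sub_self]
    obtain ⟨ψ, hψ⟩ := Z7_ext (zmultiplesHom A x) hi (Int.castAddHom ℚ)
    have h1 := hψ 1
    rw [zmultiplesHom_apply, one_smul, h ψ] at h1
    simp at h1

variable {k : Type} [Field k] [CharZero k]

private theorem Z7_one (L : Type) [Field L] [Algebra k L] [CharZero L] (f : k[X]) [Hyp f]
    (φ : Pic f →+ ℚ) : ∃ μ : Pic (f.map (algebraMap k L)) →+ ℚ, ∀ s : Pt f,
      μ (jP (cst L s : MPt f L)) = φ (jP s) := by
  let dg : (Pt f →₀ ℤ) →+ ℤ := Finsupp.liftAddHom (fun _ => AddMonoidHom.id ℤ)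
  let γ : (Pt f →₀ ℤ) →+ (Pt f →₀ ℤ) :=
    AddMonoidHom.id _ - (Finsupp.singleAddHom (Pt.inf : Pt f)).comp dg
  let α : (Pt f →₀ ℤ) →+ Pic f := (mk f).comp γ
  let β : (Pt f →₀ ℤ) →+ Pic (f.map (algebraMap k L)) :=
    (mk (f.map (algebraMap k L))).comp
      ((Finsupp.mapDomain.addMonoidHom (fun s => (cst L s : MPt f L))).comp γ)
  have hγ : ∀ s : Pt f, γ (Finsupp.single s 1) = Finsupp.single s 1 - Finsupp.single .inf 1 := by
    intro s
    simp [γ, dg]
  have hα : ∀ s : Pt f, α (Finsupp.single s 1) = jP s := by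
    intro s
    simp only [α, AddMonoidHom.comp_apply, hγ]
    rfl
  have hβ : ∀ s : Pt f, β (Finsupp.single s 1) = jP (cst L s : MPt f L) := by
    intro s
    simp only [β, AddMonoidHom.comp_apply, hγ, map_sub, Finsupp.mapDomain.addMonoidHom_apply,
      Finsupp.mapDomain_single]
    rw [← map_sub]
    rfl
  have hker : β.ker ≤ (φ.comp α).ker := by
    intro D hD
    rw [AddMonoidHom.mem_ker] at hD ⊢
    have h1 : IsOfFinAddOrder (mk f (γ D)) := by
      apply pic_inj L f (γ D)
      have h2 : mk (f.map (algebraMap k L))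
          ((γ D).mapDomain (fun s => (cst L s : MPt f L))) = 0 := hD
      rw [h2]
      exact IsOfFinAddOrder.zero
    exact (tors_iff _).1 h1 φ
  obtain ⟨μ, hμ⟩ := Z7_ext (QuotientAddGroup.kerLift β) (QuotientAddGroup.kerLift_injective β)
    (QuotientAddGroup.lift β.ker (φ.comp α) hker)
  refine ⟨μ, fun s => ?_⟩
  have h1 := hμ (QuotientAddGroup.mk (Finsupp.single s 1))
  rw [QuotientAddGroup.kerLift_mk, QuotientAddGroup.lift_mk, hβ, AddMonoidHom.comp_apply, hα] at h1
  exact h1

theorem ext_fnl (L : Type) [Field L] [Algebra k L] [CharZero L] (lam : Fnl k) :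
    ∃ lam' : Fnl L, ∀ (f : k[X]) [Hyp f] (s : Pt f),
      lam' (f.map (algebraMap k L)) (jP (cst L s : MPt f L)) = lam f (jP s) := by
  have key : ∀ (g : L[X]) (hg : Hyp g), ∃ μ : Pic g →+ ℚ, ∀ (f : k[X]) (_ : Hyp f)
      (e : f.map (algebraMap k L) = g) (s : Pt f),
      μ (jP (e ▸ (cst L s : MPt f L))) = lam f (jP s) := by
    intro g hg
    by_cases h : ∃ (f : k[X]) (_ : Hyp f), f.map (algebraMap k L) = g
    · obtain ⟨f, hf, rfl⟩ := h
      obtain ⟨μ, hμ⟩ := Z7_one L f (lam f)
      refine ⟨μ, fun f' hf' e s => ?_⟩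
      have hff : f' = f := Polynomial.map_injective _ (algebraMap k L).injective e
      subst hff
      exact hμ s
    · exact ⟨0, fun f hf e => absurd ⟨f, hf, e⟩ h⟩
  choose μ hμ using key
  exact ⟨fun g hg => μ g hg, fun f hf s => hμ (f.map (algebraMap k L)) _ f hf rfl s⟩

theorem val_tr (lam : Fnl k) (f g : k[X]) [Hyp f] [Hyp g] (h : f = g) (s : Pt f) :
    lam g (jP (tr f g s)) = lam f (jP s) := by
  subst h
  simp [tr]

end Pool.Agent.LibHL77
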