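import Pool.Agent.LibHL77.Z4
import Pool.Agent.LibHL77.Z5
import Pool.Agent.LibHL77.Z7
import Pool.Agent.LibHL77.Q0c
import Pool.Agent.LibHL77.Q4b
import Pool.Agent.LibHL77.S5

/-!
[HL77 X1] the theorem on diagonals with small blocks, by induction. Proofs. `det_zero`: for `D = 0` the diagonal `pp τ s` is the point `s`: `cl (pp τ s) = cls 0 (fun a => cst k (s a))` with `M = k` (`cl_eq`, `Gen` for `D = 0`). If `∑ m_j cl` has finite order, `N ∑ m_j cyc ∈ RatEq F 0`:
`exists_deg`: `∑ m_j = 0`. `exists_A` and `exists_cen` for the points `s_j a`: there is `h` with `p.ord h * finrank k (RF p) = N ∑_j m_j [p = p_(s_j a)]`; the support consists of rational places (`finrank = 1`): `mk_zero_iff` gives `mk (N ∑ m_j s_j a) = 0`, and with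
`∑ m_j = 0`: `N ∑ m_j jP (s_j a) = 0`, so `lam` vanishes. All images are `∅`: for `T = ∅` this is the claim, for `T ≠ ∅` the sums are empty. `det_all`: induction on `D` for all fields `k`: `exists_ops`, `ext_fnl`, `val_tr`, `det_step` (the curves `ext (Lf k) F`: `ext_inj`, `gn_map`; `Val` and
`Atm` for `F` and `ext (Lf k) F` are the same); `natDegree = 2 gn + 1`.
-/

open scoped Classical
open Polynomial

namespace Pool.Agent.LibHL77

open Pool.Agent.LibBH2
open Pool.Agent.LibCHd (VR RF Red FunF IsCps)
open Pool.Agent.LibHyp34 (Hyp Pt Pic jP Sp KC DCf gn gen el mk)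
open Pool.Agent.LibHD77
open Pool.Agent.LibHD77.Comb (Pat sub Cmp)

theorem x1_card {α : Type} [Fintype α] (p : α → Prop) (i1 i2 : DecidablePred p) :
    (@Finset.filter α p i1 Finset.univ).card = (@Finset.filter α p i2 Finset.univ).card := by
  congr

section zero

variable {k : Type} [Field k] [CharZero k] {n : ℕ}

omit [CharZero k] in
theorem x1_cl (F : Fin n → k[X]) [hF : ∀ a, Hyp (F a)] (τ : Fin 0 → Finset (Fin n))
    (s : ∀ a, Pt (F a)) :
    cl (pp τ s : Dia F 0) = cls 0 (fun a => (cst k (s a) : MPt (F a) k)) := by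
  have hpp : ∀ a, (pp τ s : Dia F 0) a = .inl (s a) := by
    intro a
    unfold pp
    rw [dif_neg]
    rintro ⟨e, -⟩
    exact e.elim0
  have hC : Cmp F (pp τ s : Dia F 0) (Fin.elim0 : Fin 0 → k[X]) := by
    refine ⟨fun b => b.elim0, fun a b ε _ => b.elim0⟩
  have hG : Gen (Fin.elim0 : Fin 0 → k[X]) (M := k) Fin.elim0 Fin.elim0 := by
    refine ⟨funF_zero.2 inferInstance, fun e => e.elim0, ?_⟩
    rw [eq_top_iff]
    intro x _
    exact (IntermediateField.adjoin k _).algebraMap_mem x
  have hp : (pnt (pp τ s : Dia F 0) Fin.elim0 Fin.elim0 : Pnt F k) =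
      fun a => (cst k (s a) : MPt (F a) k) := by
    funext a
    unfold pnt
    rw [hpp]
  rw [cl_eq hF (pp τ s : Dia F 0) _ _ _ hC hG, hp]

/-- the values of a divisor of a function -/
theorem x1_mk (f : k[X]) [Hyp f] {J : Type} [Fintype J] (m : J → ℤ) (s : J → Pt f)
    (B : Place k (KC f) →₀ ℤ) (N : ℕ)
    (hB : ∀ p : J → Place k (KC f), (∀ j, Cen f (p j) (cst k (s j) : MPt f k)) →
      B = N • ∑ j, m j • Finsupp.single (p j) 1)
    (hh : ∃ h : KC f, h ≠ 0 ∧ ∀ p, B p = p.ord h * (Module.finrank k (RF p) : ℤ)) :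
    mk f (N • ∑ j, m j • Finsupp.single (s j) 1) = 0 := by
  obtain ⟨h, h0, hh⟩ := hh
  choose p hp1 hp2 hp3 hp4 hp5 using fun j => exists_cen f (s j)
  have hB' := hB p hp1
  have hev : ∀ q : Place k (KC f), B q = N * ∑ j, m j * (if p j = q then 1 else 0) := by
    intro q
    rw [hB']
    simp only [Finsupp.smul_apply, Finsupp.finsetSum_apply, Finsupp.single_apply, nsmul_eq_mul,
      smul_eq_mul]
  rw [mk_zero_iff]
  refine ⟨h, h0, fun q hq => ?_, fun q t hq => ?_⟩
  · have h1 : (Module.finrank k (RF q) : ℤ) ≠ 0 := by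
      have h2 : FiniteDimensional k (RF q) := funF_zero.1 (res_finite (funF_KC f) q)
      have h3 : 0 < Module.finrank k (RF q) := Module.finrank_pos
      omega
    have h2 : B q ≠ 0 := by
      rw [hh]
      exact mul_ne_zero hq h1
    rw [hev] at h2
    have h3 : ∑ j, m j * (if p j = q then 1 else 0) ≠ 0 := fun h4 => h2 (by rw [h4, mul_zero])
    obtain ⟨j, -, hj⟩ := Finset.exists_ne_zero_of_sum_ne_zero h3
    by_cases hjq : p j = q
    · refine ⟨s j, ?_⟩
      rw [← hjq]
      exact hp2 j
    · rw [if_neg hjq, mul_zero] at hj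
      exact absurd rfl hj
  · obtain ⟨p₀, -, hq', -, hfin, -⟩ := exists_cen f t
    have e1 : q = p₀ := z5_unique hq hq'
    have h1 := hh q
    rw [e1, hfin, Nat.cast_one, mul_one, ← e1] at h1
    rw [← h1, hev]
    simp only [Finsupp.smul_apply, Finsupp.finsetSum_apply, Finsupp.single_apply, nsmul_eq_mul,
      smul_eq_mul]
    congr 1
    refine Finset.sum_congr rfl fun j _ => ?_
    congr 1
    have h2 : p j = q ↔ s j = t := by
      constructor
      · intro h3
        have h4 := hp2 j
        rw [h3] at h4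
        exact z5_cst_inj (SpR_unique h4 hq)
      · intro h3
        have h4 := hp2 j
        rw [h3] at h4
        exact z5_unique h4 hq
    simp only [h2]

end zero

theorem det_zero (k : Type) [Field k] [CharZero k] {n : ℕ} (F : Fin n → k[X])
    [∀ a, Hyp (F a)] (lam : Fnl k) :
    Det F (fun τ s => cl (pp τ s : Dia F 0)) (fun a s => lam (F a) (jP s)) := by
  intro J _ m τ s hτ hX T
  by_cases hT : T = ∅
  · subst hT
    have himg : ∀ j, Finset.univ.image (τ j) = ∅ := by
      intro j
      rw [Finset.image_eq_empty]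
      rfl
    obtain ⟨N, hN, hrel⟩ := isOfFinAddOrder_iff_nsmul_eq_zero.1 hX
    have hc : N • ∑ j, m j • cyc (fun a => (cst k (s j a) : MPt (F a) k)) ∈ RatEq F 0 := by
      rw [← QuotientAddGroup.eq_zero_iff]
      rw [← hrel]
      have h1 : ∀ x : Cyc k n, ((x : Cyc k n) : CH F 0) = QuotientAddGroup.mk' (RatEq F 0) x :=
        fun _ => rfl
      rw [h1, map_nsmul, map_sum]
      congr 1
      refine Finset.sum_congr rfl fun j _ => ?_
      rw [map_zsmul]
      exact congrArg _ (x1_cl F (τ j) (s j)).symm
    have hfk : FunF k 0 k := funF_zero.2 inferInstance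
    have hsum : ∑ j, m j = 0 := by
      obtain ⟨A, hA1, hA2⟩ := exists_deg F
      have h1 := hA2 _ hc
      rw [map_nsmul, map_sum] at h1
      have h2 : ∀ j, A (m j • cyc (fun a => (cst k (s j a) : MPt (F a) k))) = m j := by
        intro j
        rw [map_zsmul, hA1 k _ hfk, Module.finrank_self]
        simp
      simp only [h2] at h1
      rw [nsmul_eq_mul, mul_eq_zero] at h1
      rcases h1 with h1 | h1
      · exfalso
        have h3 : (N : ℤ) ≠ 0 := by exact_mod_cast hN.ne'
        exact h3 h1
      · exact h1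
    refine ⟨?_, fun a _ => ?_⟩
    · unfold Mt
      simp only [himg, if_true]
      exact_mod_cast hsum
    · unfold Nt
      simp only [himg, if_true]
      obtain ⟨A, hA1, hA2⟩ := exists_A F a
      have h1 : mk (F a) (N • ∑ j, m j • Finsupp.single (s j a) 1) = 0 := by
        refine x1_mk (F a) m (fun j => s j a)
          (A (N • ∑ j, m j • cyc (fun a => (cst k (s j a) : MPt (F a) k)))) N ?_ (hA2 _ hc)
        intro p hp
        rw [map_nsmul, map_sum]
        congr 1
        refine Finset.sum_congr rfl fun j _ => ?_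
        rw [map_zsmul, hA1 k (fun a => (cst k (s j a) : MPt (F a) k)) (p j) hfk (hp j),
          Module.finrank_self]
        rfl
      have h2 : N • ∑ j, m j • jP (s j a) = 0 := by
        rw [← h1, map_nsmul, map_sum]
        congr 1
        have h3 : ∀ j, m j • jP (s j a) = mk (F a) (m j • Finsupp.single (s j a) 1) -
            m j • mk (F a) (Finsupp.single .inf 1) := by
          intro j
          rw [jP, map_sub, smul_sub, map_zsmul]
        rw [Finset.sum_congr rfl fun j _ => h3 j, Finset.sum_sub_distrib, ← Finset.sum_smul, hsum,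
          zero_smul, sub_zero]
      have h3 := congrArg (lam (F a)) h2
      rw [map_nsmul, map_sum, map_zero, nsmul_eq_mul, mul_eq_zero] at h3
      rcases h3 with h3 | h3
      · exfalso
        have h4 : (N : ℚ) ≠ 0 := by exact_mod_cast hN.ne'
        exact h4 h3
      · rw [← h3]
        refine Finset.sum_congr rfl fun j _ => ?_
        rw [map_zsmul, zsmul_eq_mul]
  · have himg : ∀ j, ¬ Finset.univ.image (τ j) = T := by
      intro j h
      apply hT
      rw [← h, Finset.image_eq_empty]
      rfl
    refine ⟨?_, fun a _ => ?_⟩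
    · unfold Mt
      exact Finset.sum_eq_zero fun j _ => if_neg (himg j)
    · unfold Nt
      exact Finset.sum_eq_zero fun j _ => if_neg (himg j)

theorem det_all (D : ℕ) : ∀ (k : Type) [Field k] [CharZero k] {n : ℕ} (F : Fin n → k[X])
    [∀ a, Hyp (F a)]
    (_ : ∀ a, (Finset.univ.filter fun b => F b = F a).card < (F a).natDegree) (lam : Fnl k),
    Det F (fun τ s => cl (pp τ s : Dia F D)) (fun a s => lam (F a) (jP s)) := by
  induction D with
  | zero =>
    intro k _ _ n F _ _ lam
    exact det_zero k F lam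
  | succ D ih =>
    intro k _ _ n F hF hcard lam
    obtain ⟨W, E, hops⟩ := exists_ops F hF D
    obtain ⟨lam', hlam'⟩ := ext_fnl (Lf k) lam
    have hF' : ∀ a, Hyp (ext (Lf k) F a) := fun a => hyp_map (Lf k) (F a) (hF a)
    have hcard' : ∀ a, (Finset.univ.filter fun b => ext (Lf k) F b = ext (Lf k) F a).card <
        (ext (Lf k) F a).natDegree := by
      intro a
      have h1 : (Finset.univ.filter fun b => ext (Lf k) F b = ext (Lf k) F a) =
          Finset.univ.filter fun b => F b = F a := by
        ext b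
        rw [Finset.mem_filter, Finset.mem_filter]
        refine and_congr_right fun _ => ⟨fun h => ext_inj (Lf k) h, fun h => ?_⟩
        change (F b).map _ = (F a).map _
        rw [h]
      rw [h1]
      change _ < ((F a).map (algebraMap k (Lf k))).natDegree
      rw [natDegree_map]
      exact hcard a
    have IH := ih (Lf k) (ext (Lf k) F) (fun a => (x1_card _ _ _).trans_lt (hcard' a)) lam'
    have IH' : Det F (fun τ s => cl (pp τ s : Dia (ext (Lf k) F) D))
        (fun a s => lam' (ext (Lf k) F a) (jP s)) := by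
      intro J _ m τ s hτ hX T
      refine IH J _ m τ s (fun j => ⟨⟨(hτ j).1.1, fun e => ⟨((hτ j).1.2 e).1, ?_⟩⟩, (hτ j).2⟩) hX T
      intro a ha b hb
      change (F a).map _ = (F b).map _
      rw [((hτ j).1.2 e).2 a ha b hb]
    refine det_step hops IH' (val := fun a s => lam (F a) (jP s)) ?_ ?_ ?_ ?_
    · intro a s
      exact hlam' (F a) s
    · intro a
      rw [og, LibHyp34.jP_inf, map_zero]
    · intro a b s h
      exact val_tr lam (F b) (F a) h.symm s
    · intro a
      have h1 := hcard a
      have h2 : (F a).natDegree = 2 * gn (F a) + 1 := Hyp.deg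
      have h3 : (Finset.univ.filter fun b => F b = F a).card ≤ 2 * gn (F a) := by omega
      have h4 : ((Finset.univ.filter fun b => F b = F a).card : ℤ) ≤ 2 * (gn (F a) : ℤ) := by
        exact_mod_cast h3
      exact (le_of_eq (congrArg _ (x1_card _ _ _))).trans h4

end Pool.Agent.LibHL77
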