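import Pool.Agent.LibHD77.C2

/-!
[HL77 X2] the expansion of the class of a pattern in patterns with small blocks (pure combinatorics).
-/

open scoped Classical

namespace Pool.Agent.LibHL77

open Pool.Agent.LibHD77.Comb

variable {n D : ℕ}

/-- the coefficients of the expansion -/
def cfP (r : Finset (Fin n)) (v : Fin n → ℤ) : ℤ :=
  if r.card = 1 then ∑ a ∈ r, v a * (v a - ∑ b ∈ Finset.univ.erase a, v b) else
  if r.card = 2 then ∏ a ∈ r, v a else 0

theorem cfP_ne {r : Finset (Fin n)} {v : Fin n → ℤ} (h : cfP r v ≠ 0) :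
    (r.card = 1 ∨ r.card = 2) ∧ ∀ a ∈ r, v a ≠ 0 := by
  unfold cfP at h
  split_ifs at h with h1 h2
  · refine ⟨Or.inl h1, ?_⟩
    obtain ⟨a, rfl⟩ := Finset.card_eq_one.1 h1
    rw [Finset.sum_singleton] at h
    intro b hb
    rw [Finset.mem_singleton.1 hb]
    exact left_ne_zero_of_mul h
  · refine ⟨Or.inr h2, fun a ha => ?_⟩
    exact Finset.prod_ne_zero_iff.1 h a ha
  · exact absurd rfl h

/-- ordered pairs and sets with two elements -/
theorem sum_pairs (f : Finset (Fin n) → ℤ) :
    ∑ a : Fin n, ∑ b ∈ Finset.univ.erase a, f {a, b} =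
      2 * ∑ r : Finset (Fin n), if r.card = 2 then f r else 0 := by
  have h1 : ∀ a : Fin n, ∑ b ∈ Finset.univ.erase a, f {a, b} =
      ∑ b : Fin n, ∑ r : Finset (Fin n), if a ≠ b ∧ r = {a, b} then f r else 0 := by
    intro a
    rw [← Finset.add_sum_erase Finset.univ (fun b : Fin n => ∑ r : Finset (Fin n),
      if a ≠ b ∧ r = {a, b} then f r else 0) (Finset.mem_univ a)]
    have h2 : (∑ r : Finset (Fin n), if a ≠ a ∧ r = {a, a} then f r else 0) = 0 := by
      apply Finset.sum_eq_zero
      intro r _
      rw [if_neg]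
      rintro ⟨h, _⟩
      exact h rfl
    rw [h2, zero_add]
    apply Finset.sum_congr rfl
    intro b hb
    have hba : a ≠ b := (Finset.ne_of_mem_erase hb).symm
    rw [Finset.sum_eq_single ({a, b} : Finset (Fin n))]
    · rw [if_pos ⟨hba, rfl⟩]
    · intro r _ hr
      rw [if_neg]
      rintro ⟨_, h⟩
      exact hr h
    · intro h
      exact absurd (Finset.mem_univ _) h
  rw [Finset.sum_congr rfl fun a _ => h1 a]
  simp_rw [Finset.sum_comm (s := (Finset.univ : Finset (Fin n)))
    (t := (Finset.univ : Finset (Finset (Fin n))))]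
  rw [Finset.mul_sum]
  apply Finset.sum_congr rfl
  intro r _
  by_cases hr : r.card = 2
  · rw [if_pos hr]
    obtain ⟨x, y, hxy, rfl⟩ := Finset.card_eq_two.1 hr
    have h3 : ∀ a b : Fin n, (a ≠ b ∧ ({x, y} : Finset (Fin n)) = {a, b}) ↔
        ((a, b) = (x, y) ∨ (a, b) = (y, x)) := by
      intro a b
      constructor
      · rintro ⟨hab, h⟩
        have ha : a ∈ ({x, y} : Finset (Fin n)) := by rw [h]; simp
        have hb : b ∈ ({x, y} : Finset (Fin n)) := by rw [h]; simp
        rw [Finset.mem_insert, Finset.mem_singleton] at ha hb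
        rcases ha with rfl | rfl <;> rcases hb with rfl | rfl
        · exact absurd rfl hab
        · exact Or.inl rfl
        · exact Or.inr rfl
        · exact absurd rfl hab
      · rintro (h | h)
        · rw [Prod.mk.injEq] at h
          obtain ⟨rfl, rfl⟩ := h
          exact ⟨hxy, rfl⟩
        · rw [Prod.mk.injEq] at h
          obtain ⟨rfl, rfl⟩ := h
          exact ⟨hxy.symm, Finset.pair_comm _ _⟩
    simp_rw [h3]
    rw [← Fintype.sum_prod_type (f := fun p : Fin n × Fin n =>
      if (p.1, p.2) = (x, y) ∨ (p.1, p.2) = (y, x) then f {x, y} else 0)]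
    rw [← Finset.sum_filter]
    have h4 : (Finset.univ.filter fun p : Fin n × Fin n =>
        (p.1, p.2) = (x, y) ∨ (p.1, p.2) = (y, x)) = {(x, y), (y, x)} := by
      ext p
      simp
    rw [h4, Finset.sum_pair]
    · ring
    · intro h
      rw [Prod.mk.injEq] at h
      exact hxy h.1
  · rw [if_neg hr, mul_zero]
    apply Finset.sum_eq_zero
    intro a _
    apply Finset.sum_eq_zero
    intro b _
    rw [if_neg]
    rintro ⟨hab, rfl⟩
    exact hr (Finset.card_pair hab)

theorem sum_singles (f : Fin n → ℤ) :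
    (∑ r : Finset (Fin n), if r.card = 1 then ∑ a ∈ r, f a else 0) = ∑ a, f a := by
  rw [← Finset.sum_filter]
  have h1 : (Finset.univ.filter fun r : Finset (Fin n) => r.card = 1) =
      Finset.univ.image fun a : Fin n => ({a} : Finset (Fin n)) := by
    ext r
    simp only [Finset.mem_filter, Finset.mem_univ, true_and, Finset.mem_image]
    rw [Finset.card_eq_one]
    constructor
    · rintro ⟨a, rfl⟩
      exact ⟨a, rfl⟩
    · rintro ⟨a, rfl⟩
      exact ⟨a, rfl⟩
  rw [h1, Finset.sum_image (fun a _ b _ h => Finset.singleton_injective h)]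
  apply Finset.sum_congr rfl
  intro a _
  rw [Finset.sum_singleton]

theorem ind_single (a : Fin n) : ind ({a} : Finset (Fin n)) = Pi.single a 1 := by
  funext b
  unfold ind
  by_cases h : b = a
  · subst h
    simp
  · rw [Pi.single_eq_of_ne h, if_neg (by simpa using h)]

theorem ind_pair {a b : Fin n} (hab : a ≠ b) :
    ind ({a, b} : Finset (Fin n)) = Pi.single a 1 + Pi.single b 1 := by
  funext c
  rw [Pi.add_apply]
  unfold ind
  by_cases h : c = a
  · subst h
    rw [Pi.single_eq_same, Pi.single_eq_of_ne hab]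
    simp
  · by_cases h' : c = b
    · subst h'
      rw [Pi.single_eq_same, Pi.single_eq_of_ne h]
      simp
    · rw [Pi.single_eq_of_ne h, Pi.single_eq_of_ne h', if_neg (by simp [h, h'])]
      rfl

theorem quad_ind (q : QuadraticMap ℤ (Fin n → ℤ) ℤ) (v : Fin n → ℤ) :
    q v = ∑ r : Finset (Fin n), cfP r v * q (ind r) := by
  have h2 : (2 : ℤ) * q v = 2 * ∑ r : Finset (Fin n), cfP r v * q (ind r) := by
    -- the left side
    have hv : v = ∑ a, v a • (Pi.single a 1 : Fin n → ℤ) := by
      funext b
      rw [Finset.sum_apply, Finset.sum_eq_single b]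
      · simp
      · intro a _ hab
        rw [Pi.smul_apply, Pi.single_eq_of_ne hab.symm, smul_zero]
      · intro h
        exact absurd (Finset.mem_univ _) h
    have hl : (2 : ℤ) * q v = ∑ a : Fin n, ∑ b : Fin n,
        v a * v b * QuadraticMap.polar q (Pi.single a 1) (Pi.single b 1) := by
      have e1 : QuadraticMap.polar q v v = 2 * q v := by
        rw [QuadraticMap.polar_self]
        simp
      rw [← e1]
      have e2 : QuadraticMap.polarBilin q v v = ∑ a : Fin n, ∑ b : Fin n,
          v a * v b * QuadraticMap.polar q (Pi.single a 1) (Pi.single b 1) := by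
        conv_lhs => rw [hv]
        simp only [map_sum, LinearMap.sum_apply, map_smul, LinearMap.smul_apply, smul_eq_mul,
          QuadraticMap.polarBilin_apply_apply]
        rw [Finset.sum_comm]
        apply Finset.sum_congr rfl
        intro a _
        rw [Finset.mul_sum]
        apply Finset.sum_congr rfl
        intro b _
        ring
      exact e2
    -- the right side
    have hr : ∑ r : Finset (Fin n), cfP r v * q (ind r) =
        (∑ a, v a * (v a - ∑ b ∈ Finset.univ.erase a, v b) * q (Pi.single a 1)) +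
          ∑ r : Finset (Fin n), if r.card = 2 then (∏ a ∈ r, v a) * q (ind r) else 0 := by
      rw [← sum_singles (fun a => v a * (v a - ∑ b ∈ Finset.univ.erase a, v b) *
        q (Pi.single a 1)), ← Finset.sum_add_distrib]
      apply Finset.sum_congr rfl
      intro r _
      unfold cfP
      by_cases h1 : r.card = 1
      · have h3 : r.card ≠ 2 := by omega
        rw [if_pos h1, if_pos h1, if_neg h3, add_zero]
        obtain ⟨a, rfl⟩ := Finset.card_eq_one.1 h1
        rw [Finset.sum_singleton, Finset.sum_singleton, ind_single]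
      · rw [if_neg h1, if_neg h1, zero_add]
        by_cases h3 : r.card = 2
        · rw [if_pos h3, if_pos h3]
        · rw [if_neg h3, if_neg h3, zero_mul]
    rw [hl, hr, mul_add, ← sum_pairs (fun r => (∏ a ∈ r, v a) * q (ind r)), Finset.mul_sum,
      ← Finset.sum_add_distrib]
    have hkey : ∀ a : Fin n, ∀ b ∈ Finset.univ.erase a,
        (∏ c ∈ ({a, b} : Finset (Fin n)), v c) * q (ind {a, b}) =
        v a * v b * QuadraticMap.polar q (Pi.single a 1) (Pi.single b 1) +
          v a * v b * q (Pi.single a 1) + v a * v b * q (Pi.single b 1) := by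
      intro a b hb
      have hab : a ≠ b := (Finset.ne_of_mem_erase hb).symm
      rw [Finset.prod_pair hab, ind_pair hab]
      unfold QuadraticMap.polar
      ring
    have h5 : ∑ a : Fin n, ∑ b ∈ Finset.univ.erase a, v a * v b * q (Pi.single b 1) =
        ∑ a : Fin n, ∑ b ∈ Finset.univ.erase a, v a * v b * q (Pi.single a 1) := by
      have e3 : ∀ g : Fin n → Fin n → ℤ, ∑ a : Fin n, ∑ b ∈ Finset.univ.erase a, g a b =
          ∑ a : Fin n, ∑ b : Fin n, (if a = b then 0 else g a b) := by
        intro g
        apply Finset.sum_congr rfl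
        intro a _
        rw [← Finset.add_sum_erase Finset.univ (fun b : Fin n => if a = b then 0 else g a b)
          (Finset.mem_univ a), if_pos rfl, zero_add]
        apply Finset.sum_congr rfl
        intro b hb
        rw [if_neg (Finset.ne_of_mem_erase hb).symm]
      rw [e3, e3, Finset.sum_comm]
      apply Finset.sum_congr rfl
      intro a _
      apply Finset.sum_congr rfl
      intro b _
      by_cases h : a = b
      · rw [if_pos h, if_pos h.symm]
      · rw [if_neg h, if_neg (Ne.symm h)]
        ring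
    have h6 : ∀ a : Fin n, ∑ b : Fin n, v a * v b *
        QuadraticMap.polar q (Pi.single a 1) (Pi.single b 1) =
        2 * (v a * v a * q (Pi.single a 1)) + ∑ b ∈ Finset.univ.erase a, v a * v b *
        QuadraticMap.polar q (Pi.single a 1) (Pi.single b 1) := by
      intro a
      rw [← Finset.add_sum_erase Finset.univ (fun b : Fin n => v a * v b *
        QuadraticMap.polar q (Pi.single a 1) (Pi.single b 1)) (Finset.mem_univ a)]
      congr 1
      rw [QuadraticMap.polar_self]
      simp only [nsmul_eq_mul]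
      push_cast
      ring
    rw [Finset.sum_congr rfl fun a _ => h6 a]
    have h7 : ∀ a : Fin n, 2 * (v a * (v a - ∑ b ∈ Finset.univ.erase a, v b) *
        q (Pi.single a 1)) = 2 * (v a * v a * q (Pi.single a 1)) -
        2 * ∑ b ∈ Finset.univ.erase a, v a * v b * q (Pi.single a 1) := by
      intro a
      rw [mul_sub, sub_mul, mul_sub, Finset.mul_sum, Finset.sum_mul]
    have h8 : ∀ a : Fin n, ∑ b ∈ Finset.univ.erase a,
        ((∏ c ∈ ({a, b} : Finset (Fin n)), v c) * q (ind {a, b})) =
        ∑ b ∈ Finset.univ.erase a, v a * v b *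
          QuadraticMap.polar q (Pi.single a 1) (Pi.single b 1) +
        ∑ b ∈ Finset.univ.erase a, v a * v b * q (Pi.single a 1) +
        ∑ b ∈ Finset.univ.erase a, v a * v b * q (Pi.single b 1) := by
      intro a
      rw [← Finset.sum_add_distrib, ← Finset.sum_add_distrib]
      exact Finset.sum_congr rfl fun b hb => hkey a b hb
    rw [Finset.sum_congr rfl fun a _ => congrArg₂ (· + ·) (h7 a) (h8 a)]
    simp only [Finset.sum_add_distrib, Finset.sum_sub_distrib]
    rw [h5, ← Finset.mul_sum, ← Finset.mul_sum]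
    ring
  exact mul_left_cancel₀ two_ne_zero h2

/-- the coefficients -/
theorem coef_sum (r : Finset (Fin n)) (v : Fin n → ℤ) :
    ∑ t : Finset (Fin n), cf t v * (if r ⊆ t ∧ r ≠ ∅ then (-1 : ℤ) ^ (t.card - r.card) else 0) =
      cfP r v := by
  by_cases h0 : r = ∅
  · rw [Finset.sum_eq_zero]
    · unfold cfP
      rw [h0]
      simp
    · intro t _
      rw [if_neg (fun h => h.2 h0), mul_zero]
  have hpos : 1 ≤ r.card := Finset.card_pos.2 (Finset.nonempty_iff_ne_empty.2 h0)
  have hcf : ∀ t : Finset (Fin n), 2 < t.card → cf t v = 0 := by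
    intro t ht
    unfold cf
    rw [if_neg (by omega), if_neg (by omega)]
  by_cases h1 : r.card = 1
  · obtain ⟨a, rfl⟩ := Finset.card_eq_one.1 h1
    have hinj : Set.InjOn (fun b : Fin n => ({a, b} : Finset (Fin n)))
        (Finset.univ.erase a : Finset (Fin n)) := by
      intro b hb c hc hbc
      have hb' : b ≠ a := Finset.ne_of_mem_erase hb
      have h2 : b ∈ ({a, c} : Finset (Fin n)) := by
        rw [← show ({a, b} : Finset (Fin n)) = {a, c} from hbc]
        simp
      rw [Finset.mem_insert, Finset.mem_singleton] at h2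
      exact h2.resolve_left hb'
    have hnot : ({a} : Finset (Fin n)) ∉ (Finset.univ.erase a).image
        (fun b : Fin n => ({a, b} : Finset (Fin n))) := by
      intro h
      obtain ⟨b, hb, hab⟩ := Finset.mem_image.1 h
      have hb' : b ≠ a := Finset.ne_of_mem_erase hb
      have h2 : b ∈ ({a} : Finset (Fin n)) := by
        rw [← hab]
        simp
      exact hb' (Finset.mem_singleton.1 h2)
    rw [← Finset.sum_subset (Finset.subset_univ (insert ({a} : Finset (Fin n))
      ((Finset.univ.erase a).image (fun b : Fin n => ({a, b} : Finset (Fin n)))))),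
      Finset.sum_insert hnot, Finset.sum_image hinj]
    · have e1 : cf ({a} : Finset (Fin n)) v = v a ^ 2 := by
        unfold cf
        simp
      rw [e1, if_pos ⟨Finset.Subset.refl _, h0⟩]
      unfold cfP
      rw [if_pos h1, Finset.sum_singleton]
      have e2 : ∑ x ∈ Finset.univ.erase a, cf ({a, x} : Finset (Fin n)) v *
          (if ({a} : Finset (Fin n)) ⊆ {a, x} ∧ ({a} : Finset (Fin n)) ≠ ∅ then
            (-1 : ℤ) ^ (({a, x} : Finset (Fin n)).card - ({a} : Finset (Fin n)).card) else 0) =
          ∑ x ∈ Finset.univ.erase a, - (v a * v x) := by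
        apply Finset.sum_congr rfl
        intro x hx
        have hx' : a ≠ x := (Finset.ne_of_mem_erase hx).symm
        have e3 : cf ({a, x} : Finset (Fin n)) v = v a * v x := by
          unfold cf
          rw [if_neg (by rw [Finset.card_pair hx']; decide), if_pos (Finset.card_pair hx'),
            Finset.prod_pair hx']
        rw [e3, if_pos ⟨by simp, h0⟩, Finset.card_pair hx', Finset.card_singleton]
        norm_num
      rw [e2, Finset.sum_neg_distrib, ← Finset.mul_sum]
      simp only [Finset.card_singleton, Nat.sub_self, pow_zero]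
      ring
    · intro t _ ht
      by_cases hsub : ({a} : Finset (Fin n)) ⊆ t ∧ ({a} : Finset (Fin n)) ≠ ∅
      · have hat : a ∈ t := hsub.1 (Finset.mem_singleton_self a)
        have hc : 2 < t.card := by
          by_contra hcon
          push Not at hcon
          apply ht
          rw [Finset.mem_insert, Finset.mem_image]
          have h3 : 1 ≤ t.card := Finset.card_pos.2 ⟨a, hat⟩
          have h4 : (t.erase a).card = t.card - 1 := Finset.card_erase_of_mem hat
          by_cases h5 : t.card = 1
          · left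
            obtain ⟨c, rfl⟩ := Finset.card_eq_one.1 h5
            rw [Finset.mem_singleton.1 hat]
          · right
            have h6 : (t.erase a).card = 1 := by omega
            obtain ⟨c, hc⟩ := Finset.card_eq_one.1 h6
            have h7 : c ∈ t.erase a := by rw [hc]; exact Finset.mem_singleton_self c
            refine ⟨c, Finset.mem_erase.2 ⟨Finset.ne_of_mem_erase h7, Finset.mem_univ _⟩, ?_⟩
            rw [← Finset.insert_erase hat, hc]
        rw [hcf t hc, zero_mul]
      · rw [if_neg hsub, mul_zero]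
  by_cases h2 : r.card = 2
  · rw [Finset.sum_eq_single r]
    · rw [if_pos ⟨Finset.Subset.refl _, h0⟩, Nat.sub_self, pow_zero, mul_one]
      unfold cf cfP
      rw [if_neg h1, if_pos h2, if_neg h1]
    · intro t _ ht
      by_cases hsub : r ⊆ t ∧ r ≠ ∅
      · have hc : 2 < t.card := by
          have h3 := Finset.card_lt_card (Finset.ssubset_iff_subset_ne.2 ⟨hsub.1, ht.symm⟩)
          omega
        rw [hcf t hc, zero_mul]
      · rw [if_neg hsub, mul_zero]
    · intro h
      exact absurd (Finset.mem_univ _) h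
  · rw [Finset.sum_eq_zero]
    · unfold cfP
      rw [if_neg h1, if_neg h2]
    · intro t _
      by_cases hsub : r ⊆ t ∧ r ≠ ∅
      · have h3 := Finset.card_le_card hsub.1
        rw [hcf t (by omega), zero_mul]
      · rw [if_neg hsub, mul_zero]

variable {A : Fin n → Type} {L : Type} {J : Fin n → Type} [∀ a, AddCommGroup (J a)]
  {G : Type} [AddCommGroup G]

theorem expandP {l : Fin n → L} {o : ∀ a, A a} {j : ∀ a, A a → J a} {S : ∀ a, Set (A a)}
    {Φ : Pat A (Fin D) → G} (h : Sys l o j S Φ) (δ : Pat A (Fin D)) (V : Fin D → L)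
    (hδ : Cmp l δ V) :
    Φ δ = ∑ ρ : Fin D → Finset (Fin n),
      (∏ e, cfP (ρ e) (LibHD77.Comb.vec δ e)) • Φ (pat o ρ ρ (pts o δ)) := by
  have hcoef : ∀ ρ : Fin D → Finset (Fin n), (∏ e, cfP (ρ e) (LibHD77.Comb.vec δ e)) =
      ∑ τ : Fin D → Finset (Fin n), ∏ e, (cf (τ e) (LibHD77.Comb.vec δ e) *
        (if ρ e ⊆ τ e ∧ ρ e ≠ ∅ then (-1 : ℤ) ^ ((τ e).card - (ρ e).card) else 0)) := by
    intro ρ
    rw [← Fintype.piFinset_univ]
    have h1 := Finset.prod_univ_sum (fun _ : Fin D => (Finset.univ : Finset (Finset (Fin n))))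
      (fun e t => cf t (LibHD77.Comb.vec δ e) *
        (if ρ e ⊆ t ∧ ρ e ≠ ∅ then (-1 : ℤ) ^ (t.card - (ρ e).card) else 0))
    rw [← h1]
    exact Finset.prod_congr rfl fun e _ => (coef_sum _ _).symm
  rw [expand h δ V hδ]
  simp_rw [hcoef, Finset.sum_smul]
  rw [Finset.sum_comm]
  apply Finset.sum_congr rfl
  intro τ _
  simp_rw [Finset.prod_mul_distrib]
  by_cases h0 : (∏ e, cf (τ e) (LibHD77.Comb.vec δ e)) = 0
  · rw [h0, zero_smul]
    symm
    apply Finset.sum_eq_zero
    intro ρ _
    rw [zero_mul, zero_smul]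
  -- the sets are contained in the blocks
  have hτ : ∀ e, ∀ a ∈ τ e, pts o δ a = o a := by
    intro e a ha
    have h1 := (Finset.prod_ne_zero_iff.1 h0) e (Finset.mem_univ _)
    have h2 : LibHD77.Comb.vec δ e a ≠ 0 := by
      intro hz
      apply h1
      unfold cf
      split_ifs
      · exact Finset.prod_eq_zero ha (by rw [hz]; norm_num)
      · exact Finset.prod_eq_zero ha hz
      · rfl
    unfold LibHD77.Comb.vec at h2
    unfold pts
    rcases hda : δ a with s | q
    · rw [hda] at h2
      exact absurd rfl h2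
    · rfl
  have hpat : ∀ ρ : Fin D → Finset (Fin n), pat o τ ρ (pts o δ) = pat o ρ ρ (pts o δ) := by
    intro ρ
    funext a
    unfold pat
    by_cases h1 : ∃ e, a ∈ ρ e
    · rw [dif_pos h1, dif_pos h1]
    · rw [dif_neg h1, dif_neg h1, if_neg h1]
      by_cases h2 : ∃ e, a ∈ τ e
      · rw [if_pos h2]
        obtain ⟨e, he⟩ := h2
        rw [hτ e a he]
      · rw [if_neg h2]
  unfold Gt
  rw [Finset.smul_sum, ← Finset.sum_subset (Finset.subset_univ
    (Fintype.piFinset fun e => (τ e).powerset))]
  · apply Finset.sum_congr rfl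
    intro ρ hρ
    rw [Fintype.mem_piFinset] at hρ
    have hρ' : ∀ e, ρ e ⊆ τ e := fun e => Finset.mem_powerset.1 (hρ e)
    by_cases hem : ∃ e, ρ e = ∅
    · rw [if_pos hem, smul_zero]
      obtain ⟨e, he⟩ := hem
      rw [Finset.prod_eq_zero (i := e) (f := fun e => if ρ e ⊆ τ e ∧ ρ e ≠ ∅ then
          (-1 : ℤ) ^ ((τ e).card - (ρ e).card) else 0) (Finset.mem_univ _)
          (if_neg fun hh => hh.2 he), mul_zero, zero_smul]
    · rw [if_neg hem]
      push Not at hem
      have hpr : (∏ e, (if ρ e ⊆ τ e ∧ ρ e ≠ ∅ then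
          (-1 : ℤ) ^ ((τ e).card - (ρ e).card) else 0)) =
          ∏ e, (-1 : ℤ) ^ ((τ e).card - (ρ e).card) :=
        Finset.prod_congr rfl fun e _ => if_pos ⟨hρ' e, Finset.nonempty_iff_ne_empty.1 (hem e)⟩
      rw [hpr, mul_smul, hpat]
  · intro ρ _ hρ
    rw [Fintype.mem_piFinset] at hρ
    push Not at hρ
    obtain ⟨e, he⟩ := hρ
    rw [Finset.mem_powerset] at he
    rw [Finset.prod_eq_zero (i := e) (f := fun e => if ρ e ⊆ τ e ∧ ρ e ≠ ∅ then
        (-1 : ℤ) ^ ((τ e).card - (ρ e).card) else 0) (Finset.mem_univ _)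
        (if_neg fun hh => he hh.1), mul_zero, zero_smul]

end Pool.Agent.LibHL77
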