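import Pool.Agent.LibHL77.X1
import Pool.Agent.LibHL77.X2
import Pool.Agent.LibHD77.F1

/-!
[HL77 X3] the numbers of a torsion combination of diagonals vanish.
-/

open scoped Classical
open Polynomial

namespace Pool.Agent.LibHL77

open Pool.Agent.LibHyp34 (Hyp Pt Pic jP)
open Pool.Agent.LibHD77
open Pool.Agent.LibHD77.Comb (Pat sub Cmp)

/-- the family of homomorphisms which is `l` on one curve and zero on the others -/
noncomputable def fnl0 {k : Type} [Field k] (g : k[X]) [Hyp g] (l : Pic g →+ ℚ) : Fnl k :=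
  fun f _ => if h : f = g then (by subst h; exact l) else 0

theorem fnl0_self {k : Type} [Field k] (g : k[X]) [Hyp g] (l : Pic g →+ ℚ) :
    fnl0 g l g = l := by
  unfold fnl0
  rw [dif_pos rfl]

theorem pat_eq_pp {k : Type} [Field k] {n D : ℕ} {F : Fin n → k[X]}
    (ρ : Fin D → Finset (Fin n)) (s : ∀ a, Pt (F a)) :
    Comb.pat (og F) ρ ρ s = (pp ρ s : Dia F D) := by
  funext a
  unfold Comb.pat pp
  by_cases h : ∃ e, a ∈ ρ e
  · rw [dif_pos h, dif_pos h]
  · rw [dif_neg h, dif_neg h, if_neg h]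

theorem sum_sub {ι M : Type} [Fintype ι] [AddCommMonoid M] (p : ι → Prop)
    [Fintype {x // p x}] (f : ι → M) (h : ∀ x, ¬ p x → f x = 0) :
    ∑ x, f x = ∑ x : {x // p x}, f x := by
  rw [← Finset.sum_subtype (Finset.univ.filter p) (by simp) f, Finset.sum_filter_of_ne]
  intro x _ hx
  by_contra hp
  exact hx (h x hp)

theorem regroup {n D : ℕ} {K : Type} [Fintype K] (ρ : K → Fin D → Finset (Fin n))
    (hinj : ∀ x, Function.Injective (ρ x)) (qq : Finset (Fin n) → ℚ) (u : K → ℚ) :
    ∑ x, u x * ∏ e, qq (ρ x e) = ∑ T : Finset (Finset (Fin n)), (∏ t ∈ T, qq t) *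
      ∑ x, (if Finset.univ.image (ρ x) = T then u x else 0) := by
  simp_rw [Finset.mul_sum]
  rw [Finset.sum_comm]
  apply Finset.sum_congr rfl
  intro x _
  rw [Finset.sum_eq_single (Finset.univ.image (ρ x))]
  · rw [if_pos rfl, Finset.prod_image (fun a _ b _ h => hinj x h)]
    ring
  · intro T _ hT
    rw [if_neg hT.symm, mul_zero]
  · intro h
    exact absurd (Finset.mem_univ _) h

/-- the blocks which occur in the expansion -/
theorem atm_of_ne {k : Type} [Field k] {n D : ℕ} {F : Fin n → k[X]} {δ : Dia F D}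
    {V : Fin D → k[X]} (hV : Cmp F δ V) {ρ : Fin D → Finset (Fin n)}
    (hc : (∏ e, cfP (ρ e) (Comb.vec δ e)) ≠ 0) :
    Atm F ρ ∧ Function.Injective ρ ∧ ∀ e, ∀ a ∈ ρ e, ∃ ε, δ a = .inr (e, ε) := by
  have h1 : ∀ e, (ρ e).card = 1 ∨ (ρ e).card = 2 := fun e =>
    (cfP_ne (Finset.prod_ne_zero_iff.1 hc e (Finset.mem_univ _))).1
  have h2 : ∀ e, ∀ a ∈ ρ e, ∃ ε, δ a = .inr (e, ε) := by
    intro e a ha
    have h3 := (cfP_ne (Finset.prod_ne_zero_iff.1 hc e (Finset.mem_univ _))).2 a ha
    unfold Comb.vec at h3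
    rcases hda : δ a with s | q
    · rw [hda] at h3
      exact absurd rfl h3
    · rw [hda] at h3
      by_cases hq : q.1 = e
      · exact ⟨q.2, by rw [← hq]⟩
      · simp [hq] at h3
  have h3 : ∀ e, (ρ e).Nonempty := by
    intro e
    rw [← Finset.card_pos]
    rcases h1 e with h | h <;> omega
  have h4 : ∀ e e', e ≠ e' → Disjoint (ρ e) (ρ e') := by
    intro e e' hee
    rw [Finset.disjoint_left]
    intro a ha ha'
    obtain ⟨ε, hε⟩ := h2 e a ha
    obtain ⟨ε', hε'⟩ := h2 e' a ha'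
    rw [hε] at hε'
    simp only [Sum.inr.injEq, Prod.mk.injEq] at hε'
    exact hee hε'.1
  refine ⟨⟨⟨h4, fun e => ⟨h3 e, fun a ha b hb => ?_⟩⟩, fun e => ?_⟩, ?_, h2⟩
  · obtain ⟨ε, hε⟩ := h2 e a ha
    obtain ⟨ε', hε'⟩ := h2 e b hb
    rw [← hV.2 a e ε hε, ← hV.2 b e ε' hε']
  · rcases h1 e with h | h <;> omega
  · intro e e' hee
    by_contra hne
    have h5 := h4 e e' hne
    rw [← hee, disjoint_self] at h5
    exact (h3 e).ne_empty h5

theorem vanish_of_torsion {k : Type} [Field k] [CharZero k] [IsAlgClosed k] {n : ℕ}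
    (F : Fin n → k[X]) [∀ a, Hyp (F a)]
    (hn : ∀ a, (Finset.univ.filter fun b => F b = F a).card < (F a).natDegree) (D : ℕ)
    (J : Type) [Fintype J] (m : J → ℤ) (δ : J → Dia F D) (hδ : ∀ j, ∃ V : Fin D → k[X],
      Cmp F (δ j) V) (h : IsOfFinAddOrder (∑ j, m j • cl (δ j))) : Vanish m δ := by
  obtain ⟨c, hc⟩ : ∃ c : J × (Fin D → Finset (Fin n)) → ℤ,
      c = fun x => ∏ e, cfP (x.2 e) (Comb.vec (δ x.1) e) := ⟨_, rfl⟩
  have hS : Orth F (fun _ => (∅ : Set _)) := by
    intro i j p hp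
    exact absurd hp (Set.notMem_empty p)
  have hsys := sys F (fun _ => ∅) hS (D := D) (id : Fin n → Fin n)
  -- the expansion modulo torsion
  have hexp : ∀ j, (QuotientAddGroup.mk (cl (δ j)) : CH F D ⧸ AddCommGroup.torsion (CH F D)) =
      ∑ ρ : Fin D → Finset (Fin n), c (j, ρ) • (QuotientAddGroup.mk
        (cl (pp ρ (Comb.pts (og F) (δ j)) : Dia F D)) :
          CH F D ⧸ AddCommGroup.torsion (CH F D)) := by
    intro j
    obtain ⟨V, hV⟩ := hδ j
    have h1 := expandP hsys (δ j) V hV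
    refine h1.trans ?_
    apply Finset.sum_congr rfl
    intro ρ _
    rw [hc]
    dsimp only
    congr 2
    exact congrArg cl (pat_eq_pp ρ (Comb.pts (og F) (δ j)))
  -- the combination of the small diagonals
  have htor : IsOfFinAddOrder (∑ x : {x : J × (Fin D → Finset (Fin n)) // c x ≠ 0},
      (m x.1.1 * c x.1) • cl (pp x.1.2 (Comb.pts (og F) (δ x.1.1)) : Dia F D)) := by
    rw [← mk_eq_zero_iff]
    have h1 : (QuotientAddGroup.mk (∑ j, m j • cl (δ j)) :
        CH F D ⧸ AddCommGroup.torsion (CH F D)) = 0 := (mk_eq_zero_iff _).2 h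
    have h2 : (QuotientAddGroup.mk (∑ j, m j • cl (δ j)) :
        CH F D ⧸ AddCommGroup.torsion (CH F D)) = ∑ j, m j • (QuotientAddGroup.mk (cl (δ j)) :
          CH F D ⧸ AddCommGroup.torsion (CH F D)) := by
      have h3 := map_sum (QuotientAddGroup.mk' (AddCommGroup.torsion (CH F D)))
        (fun j => m j • cl (δ j)) Finset.univ
      refine h3.trans ?_
      apply Finset.sum_congr rfl
      intro j _
      exact map_zsmul (QuotientAddGroup.mk' (AddCommGroup.torsion (CH F D))) _ _
    have h4 : (QuotientAddGroup.mk (∑ x : {x : J × (Fin D → Finset (Fin n)) // c x ≠ 0},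
        (m x.1.1 * c x.1) • cl (pp x.1.2 (Comb.pts (og F) (δ x.1.1)) : Dia F D)) :
        CH F D ⧸ AddCommGroup.torsion (CH F D)) =
        ∑ x : {x : J × (Fin D → Finset (Fin n)) // c x ≠ 0}, (m x.1.1 * c x.1) •
          (QuotientAddGroup.mk (cl (pp x.1.2 (Comb.pts (og F) (δ x.1.1)) : Dia F D)) :
            CH F D ⧸ AddCommGroup.torsion (CH F D)) := by
      have h3 := map_sum (QuotientAddGroup.mk' (AddCommGroup.torsion (CH F D)))
        (fun x : {x : J × (Fin D → Finset (Fin n)) // c x ≠ 0} =>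
          (m x.1.1 * c x.1) • cl (pp x.1.2 (Comb.pts (og F) (δ x.1.1)) : Dia F D)) Finset.univ
      refine h3.trans ?_
      apply Finset.sum_congr rfl
      intro x _
      exact map_zsmul (QuotientAddGroup.mk' (AddCommGroup.torsion (CH F D))) _ _
    rw [h4, ← sum_sub (fun x : J × (Fin D → Finset (Fin n)) => c x ≠ 0)
      (fun x => (m x.1 * c x) •
          (QuotientAddGroup.mk (cl (pp x.2 (Comb.pts (og F) (δ x.1)) : Dia F D)) :
            CH F D ⧸ AddCommGroup.torsion (CH F D))), Fintype.sum_prod_type]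
    · rw [← h1, h2]
      apply Finset.sum_congr rfl
      intro j _
      rw [hexp j, Finset.smul_sum]
      apply Finset.sum_congr rfl
      intro ρ _
      dsimp only
      rw [mul_smul]
    · intro x hx
      rw [not_not] at hx
      rw [hx, mul_zero, zero_smul]
  have hatm : ∀ x : {x : J × (Fin D → Finset (Fin n)) // c x ≠ 0},
      Atm F x.1.2 ∧ Function.Injective x.1.2 ∧
        ∀ e, ∀ a ∈ x.1.2 e, ∃ ε, δ x.1.1 a = .inr (e, ε) := by
    intro x
    obtain ⟨V, hV⟩ := hδ x.1.1
    refine atm_of_ne hV ?_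
    have h1 := x.2
    rw [← show c x.1 = ∏ e, cfP (x.1.2 e) (Comb.vec (δ x.1.1) e) from congrFun hc x.1]
    exact h1
  intro q
  -- the products
  have hP : ∀ j, (∏ e, q (Comb.vec (δ j) e)) =
      ∑ ρ : Fin D → Finset (Fin n), c (j, ρ) * ∏ e, q (Comb.ind (ρ e)) := by
    intro j
    have h1 : ∀ e, q (Comb.vec (δ j) e) =
        ∑ r ∈ (Finset.univ : Finset (Finset (Fin n))),
          cfP r (Comb.vec (δ j) e) * q (Comb.ind r) := fun e => quad_ind q _
    rw [Finset.prod_congr rfl fun e _ => h1 e]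
    have h2 := Finset.prod_univ_sum
      (fun _ : Fin D => (Finset.univ : Finset (Finset (Fin n))))
      (fun e r => cfP r (Comb.vec (δ j) e) * q (Comb.ind r))
    rw [h2, Fintype.piFinset_univ]
    apply Finset.sum_congr rfl
    intro ρ _
    rw [hc, Finset.prod_mul_distrib]
  have hmain : ∀ g : J → ℚ, ∑ j, ((m j * ∏ e, q (vec (δ j) e) : ℤ) : ℚ) * g j =
      ∑ T : Finset (Finset (Fin n)), (∏ t ∈ T, ((q (Comb.ind t) : ℤ) : ℚ)) *
        ∑ x : {x : J × (Fin D → Finset (Fin n)) // c x ≠ 0},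
          (if Finset.univ.image x.1.2 = T then ((m x.1.1 * c x.1 : ℤ) : ℚ) * g x.1.1
            else 0) := by
    intro g
    rw [← regroup (fun x : {x : J × (Fin D → Finset (Fin n)) // c x ≠ 0} => x.1.2)
      (fun x => (hatm x).2.1) (fun t => ((q (Comb.ind t) : ℤ) : ℚ))
      (fun x => ((m x.1.1 * c x.1 : ℤ) : ℚ) * g x.1.1)]
    rw [← sum_sub (fun x : J × (Fin D → Finset (Fin n)) => c x ≠ 0)
      (fun x => ((m x.1 * c x : ℤ) : ℚ) * g x.1 *
        ∏ e, ((q (Comb.ind (x.2 e)) : ℤ) : ℚ)), Fintype.sum_prod_type]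
    · apply Finset.sum_congr rfl
      intro j _
      have h1 : (∏ e, q (vec (δ j) e)) =
          ∑ ρ : Fin D → Finset (Fin n), c (j, ρ) * ∏ e, q (Comb.ind (ρ e)) := by
        rw [← hP j]
        exact Finset.prod_congr rfl fun e _ => by rw [vec_eq]
      rw [h1]
      push_cast
      rw [Finset.mul_sum, Finset.sum_mul]
      apply Finset.sum_congr rfl
      intro ρ _
      ring
    · intro x hx
      rw [not_not] at hx
      rw [hx]
      simp
  refine ⟨?_, fun a => ?_⟩
  · have h1 := hmain (fun _ => 1)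
    have h2 := det_all D k F hn (fun f _ => 0) _ inferInstance
      (fun x : {x : J × (Fin D → Finset (Fin n)) // c x ≠ 0} => m x.1.1 * c x.1)
      (fun x => x.1.2) (fun x => Comb.pts (og F) (δ x.1.1)) (fun x => (hatm x).1) htor
    have h3 : ∑ j, ((m j * ∏ e, q (vec (δ j) e) : ℤ) : ℚ) * 1 = 0 := by
      rw [h1]
      apply Finset.sum_eq_zero
      intro T _
      have h4 := (h2 T).1
      unfold Mt at h4
      simp only [mul_one]
      rw [h4, mul_zero]
    simp only [mul_one] at h3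
    exact_mod_cast h3
  · rw [tors_iff]
    intro l0
    have h1 := hmain (fun j => l0 (fx (δ j) a))
    have h2 := det_all D k F hn (fnl0 (F a) l0) _ inferInstance
      (fun x : {x : J × (Fin D → Finset (Fin n)) // c x ≠ 0} => m x.1.1 * c x.1)
      (fun x => x.1.2) (fun x => Comb.pts (og F) (δ x.1.1)) (fun x => (hatm x).1) htor
    have h3 : ∑ j, ((m j * ∏ e, q (vec (δ j) e) : ℤ) : ℚ) * l0 (fx (δ j) a) = 0 := by
      rw [h1]
      apply Finset.sum_eq_zero
      intro T _
      by_cases haT : ∀ t ∈ T, a ∉ t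
      · have h4 := (h2 T).2 a haT
        unfold Nt at h4
        have h5 : ∀ j, fnl0 (F a) l0 (F a) (jP (Comb.pts (og F) (δ j) a)) =
            l0 (fx (δ j) a) := by
          intro j
          rw [fnl0_self]
          congr 1
          unfold Comb.pts fx og
          rcases hda : δ j a with s | p
          · rfl
          · exact Pool.Agent.LibHyp34.jP_inf (F a)
        rw [show (∑ x : {x : J × (Fin D → Finset (Fin n)) // c x ≠ 0},
          (if Finset.univ.image x.1.2 = T then ((m x.1.1 * c x.1 : ℤ) : ℚ) *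
            l0 (fx (δ x.1.1) a) else 0)) = 0 from by
          refine Eq.trans ?_ h4
          apply Finset.sum_congr rfl
          intro x _
          rw [← h5 x.1.1], mul_zero]
      · push Not at haT
        obtain ⟨t, htT, hat⟩ := haT
        rw [Finset.sum_eq_zero, mul_zero]
        intro x _
        by_cases hx : Finset.univ.image x.1.2 = T
        · rw [if_pos hx]
          rw [← hx, Finset.mem_image] at htT
          obtain ⟨e, _, rfl⟩ := htT
          obtain ⟨ε, hε⟩ := (hatm x).2.2 e a hat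
          have h6 : fx (δ x.1.1) a = 0 := by
            unfold fx
            rw [hε]
          rw [h6, map_zero, mul_zero]
        · rw [if_neg hx]
    rw [map_sum, ← h3]
    apply Finset.sum_congr rfl
    intro j _
    rw [map_zsmul, zsmul_eq_mul]

end Pool.Agent.LibHL77
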