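import Pool.Agent.LibHL77.SDefs
import Pool.Agent.LibHD77.R1

/-!
[HL77 X4] the lower bound for the rank (pure combinatorics and linear algebra). Proof. For every `T` counted in `nAtL l D univ` choose an enumeration `τ_T : Fin D → Finset (Fin n)` (injective with image `T`: `Atm l τ_T`). For every `a` choose `s_(a,i) ∈ S a`, `i < r a`, with linearly independent classes `j a (s_(a,i))`
(a generating set of a group of rank `≥ r a` contains `r a` linearly independent elements: `exists_linearIndependent` for the span, `Module.rank` of the span of a maximal independent subset equals the rank). The elements `Φ τ_T o` and `Φ τ_T (o with s_(a,i) at a) - Φ τ_T o` for `a` in no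
element of `T` (the `T` counted in `nAtL l D (univ.erase a)`) are linearly independent over `ℤ`: a relation with coefficients `x_T`, `y_(T,a,i)` is a relation of a family as in `Det`; its number at `T` is `x_T` (the `y` cancel), so `x_T = 0`; its value at `T, a` is `∑_i y_(T,a,i) val (s_(a,i))` for every admissible `val`, so
with `val a' s = lam (j a' s)` for `a' = a` and zero otherwise, `lam (∑_i y_(T,a,i) j a (s_(a,i))) = 0` for all `lam : J a →+ ℚ`, so the sum is torsion, a multiple of it is zero and `y = 0` (independence). Here `H` says that `Det` holds for all such `val`. The rank is at least the number of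
these elements.
-/

open scoped Classical

namespace Pool.Agent.LibHL77

open Pool.Agent.LibHD77.Comb (nAtL)

variable {n D : ℕ} {L : Type} {A : Fin n → Type} {Jc : Fin n → Type} [∀ a, AddCommGroup (Jc a)]
  {G : Type} [AddCommGroup G]

/-- a generating set of a group of rank at least `r` contains `r` independent elements -/
private theorem x4_pick {M : Type} [AddCommGroup M] (X : Set M) (r : ℕ)
    (h : (r : Cardinal) ≤ Module.rank ℤ (AddSubgroup.closure X)) :
    ∃ s : Fin r → M, (∀ i, s i ∈ X) ∧ LinearIndependent ℤ s := by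
  obtain ⟨I, hI, hmax⟩ := exists_maximal_linearIndepOn ℤ (Subtype.val : X → M)
  obtain ⟨P, hP⟩ : ∃ P, P = Submodule.span ℤ ((Subtype.val : X → M) '' I) := ⟨_, rfl⟩
  rw [← hP] at hmax
  obtain ⟨Q, hQ⟩ : ∃ Q, Q = Submodule.span ℤ X := ⟨_, rfl⟩
  have h1 : Module.rank ℤ (AddSubgroup.closure X) ≤ Module.rank ℤ Q := by
    have hle : ∀ x ∈ AddSubgroup.closure X, x ∈ Q := by
      intro x hx
      have h2 : AddSubgroup.closure X ≤ Q.toAddSubgroup := by
        rw [AddSubgroup.closure_le, hQ]
        exact Submodule.subset_span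
      exact h2 hx
    let f : AddSubgroup.closure X →+ Q :=
      { toFun := fun x => ⟨x.1, hle x.1 x.2⟩
        map_zero' := rfl
        map_add' := fun _ _ => rfl }
    exact LinearMap.rank_le_of_injective f.toIntLinearMap (fun x y hxy => by
      apply Subtype.ext
      exact congrArg (fun z : Q => (z : M)) hxy)
  have h2 : ∀ x ∈ Q, ∃ a : ℤ, a ≠ 0 ∧ a • x ∈ P := by
    intro x hx
    rw [hQ] at hx
    induction hx using Submodule.span_induction with
    | mem x hx =>
      by_cases hxI : (⟨x, hx⟩ : X) ∈ I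
      · refine ⟨1, one_ne_zero, ?_⟩
        rw [one_smul, hP]
        exact Submodule.subset_span ⟨⟨x, hx⟩, hxI, rfl⟩
      · exact hmax ⟨x, hx⟩ hxI
    | zero => exact ⟨1, one_ne_zero, by rw [smul_zero]; exact P.zero_mem⟩
    | add x y _ _ hx hy =>
      obtain ⟨a, ha, ha'⟩ := hx
      obtain ⟨b, hb, hb'⟩ := hy
      refine ⟨a * b, mul_ne_zero ha hb, ?_⟩
      rw [smul_add]
      apply P.add_mem
      · rw [mul_comm, mul_smul]; exact P.smul_mem _ ha'
      · rw [mul_smul]; exact P.smul_mem _ hb'
    | smul c x _ hx =>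
      obtain ⟨a, ha, ha'⟩ := hx
      exact ⟨a, ha, by rw [smul_comm]; exact P.smul_mem _ ha'⟩
  have h3 : Module.rank ℤ Q ≤ Cardinal.mk I := by
    rw [← Submodule.rank_quotient_add_rank (P.comap Q.subtype)]
    have h4 : Module.rank ℤ (Q ⧸ P.comap Q.subtype) = 0 := by
      rw [rank_eq_zero_iff]
      intro x
      obtain ⟨y, rfl⟩ := Submodule.Quotient.mk_surjective _ x
      obtain ⟨a, ha, ha'⟩ := h2 y.1 y.2
      refine ⟨a, ha, ?_⟩
      rw [← Submodule.Quotient.mk_smul, Submodule.Quotient.mk_eq_zero]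
      exact ha'
    rw [h4, zero_add]
    have h5 : Module.rank ℤ (P.comap Q.subtype) ≤ Module.rank ℤ P := by
      let f : (P.comap Q.subtype) →ₗ[ℤ] P :=
        { toFun := fun x => ⟨x.1.1, x.2⟩
          map_add' := fun _ _ => rfl
          map_smul' := fun _ _ => rfl }
      exact LinearMap.rank_le_of_injective f (fun x y hxy => by
        apply Subtype.ext
        apply Subtype.ext
        exact congrArg (fun z : P => (z : M)) hxy)
    refine h5.trans ?_
    rw [hP]
    refine (rank_span_le _).trans ?_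
    exact Cardinal.mk_image_le
  have h6 : Cardinal.mk (Fin r) ≤ Cardinal.mk I := by
    rw [Cardinal.mk_fin]
    exact h.trans (h1.trans h3)
  obtain ⟨f⟩ := h6
  refine ⟨fun i => (f i).1.1, fun i => (f i).1.2, ?_⟩
  exact hI.comp f f.injective

open Pool.Agent.LibHD77.Comb (ATs enm enm_mem enm_inj nAtL_univ nAtL_erase)

private theorem x4_image {l : Fin n → L} {T : Finset (Finset (Fin n))} (hT : T ∈ ATs l D) :
    Finset.univ.image (enm D T) = T := by
  have h1 : T.card = D := (Finset.mem_filter.1 hT).2.1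
  apply Finset.eq_of_subset_of_card_le
  · intro t ht
    obtain ⟨e, -, rfl⟩ := Finset.mem_image.1 ht
    exact enm_mem h1 e
  · rw [Finset.card_image_of_injective _ (fun e e' he => enm_inj h1 he), Finset.card_univ,
      Fintype.card_fin, h1]

private theorem x4_atm {l : Fin n → L} {T : Finset (Finset (Fin n))} (hT : T ∈ ATs l D) :
    Atm l (enm D T) := by
  obtain ⟨-, h1, h2, h3⟩ := Finset.mem_filter.1 hT
  refine ⟨⟨?_, ?_⟩, ?_⟩
  · intro e e' hee
    exact h3 _ (enm_mem h1 e) _ (enm_mem h1 e') fun h4 => hee (enm_inj h1 h4)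
  · intro e
    obtain ⟨h4, h5⟩ := h2 _ (enm_mem h1 e)
    refine ⟨?_, h5⟩
    rw [← Finset.card_pos]
    omega
  · intro e
    obtain ⟨h4, -⟩ := h2 _ (enm_mem h1 e)
    omega

private theorem x4_Mt_sum {J₁ J₂ : Type} [Fintype J₁] [Fintype J₂] (m₁ : J₁ → ℤ) (m₂ : J₂ → ℤ)
    (τ₁ : J₁ → Fin D → Finset (Fin n)) (τ₂ : J₂ → Fin D → Finset (Fin n))
    (T : Finset (Finset (Fin n))) :
    Mt (Sum.elim m₁ m₂) (Sum.elim τ₁ τ₂) T = Mt m₁ τ₁ T + Mt m₂ τ₂ T := by
  unfold Mt
  rw [Fintype.sum_sum_type]
  rfl

private theorem x4_Nt_sum {J₁ J₂ : Type} [Fintype J₁] [Fintype J₂] (m₁ : J₁ → ℤ) (m₂ : J₂ → ℤ)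
    (τ₁ : J₁ → Fin D → Finset (Fin n)) (τ₂ : J₂ → Fin D → Finset (Fin n))
    (s₁ : J₁ → ∀ a, A a) (s₂ : J₂ → ∀ a, A a) (val : ∀ a, A a → ℚ)
    (T : Finset (Finset (Fin n))) (a : Fin n) :
    Nt (Sum.elim m₁ m₂) (Sum.elim τ₁ τ₂) (Sum.elim s₁ s₂) val T a =
      Nt m₁ τ₁ s₁ val T a + Nt m₂ τ₂ s₂ val T a := by
  unfold Nt
  rw [Fintype.sum_sum_type]
  rfl

/-- the indices of the independent elements -/
private abbrev x4_S (l : Fin n → L) (D : ℕ) (r : Fin n → ℕ) : Type :=
  Σ a : Fin n, {T // T ∈ (ATs l D).filter fun T => ∀ t ∈ T, a ∉ t} × Fin (r a)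

private theorem x4_mem {l : Fin n → L} {r : Fin n → ℕ} (x : x4_S l D r) :
    x.2.1.1 ∈ ATs l D := (Finset.mem_filter.1 x.2.1.2).1

theorem rank_ge (l : Fin n → L) (o : ∀ a, A a) (j : ∀ a, A a → Jc a) (jo : ∀ a, j a (o a) = 0)
    (Φ : (Fin D → Finset (Fin n)) → (∀ a, A a) → G) (S : ∀ a, Set (A a))
    (tors : ∀ (a : Fin n) (x : Jc a), (∀ lam : Jc a →+ ℚ, lam x = 0) → IsOfFinAddOrder x)
    (H : ∀ (a : Fin n) (lam : Jc a →+ ℚ), ∃ val : ∀ a, A a → ℚ, (∀ s, val a s = lam (j a s)) ∧
      (∀ b, val b (o b) = 0) ∧ Det l Φ val)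
    (H0 : ∃ val : ∀ a, A a → ℚ, Det l Φ val)
    (r : Fin n → ℕ) (hr : ∀ a, (r a : Cardinal) ≤ Module.rank ℤ (AddSubgroup.closure (j a '' S a))) :
    ((nAtL l D Finset.univ + ∑ a, r a * nAtL l D (Finset.univ.erase a) : ℕ) : Cardinal) ≤
      Module.rank ℤ (AddSubgroup.closure {c | ∃ (τ : Fin D → Finset (Fin n)) (s : ∀ a, A a),
        Atm l τ ∧ (∀ a, s a = o a ∨ s a ∈ S a) ∧ c = Φ τ s}) := by
  have hpick : ∀ a, ∃ s : Fin (r a) → A a, (∀ i, s i ∈ S a) ∧
      LinearIndependent ℤ fun i => j a (s i) := by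
    intro a
    obtain ⟨s, hs, hs'⟩ := x4_pick _ _ (hr a)
    choose s' hs1 hs2 using hs
    refine ⟨s', hs1, ?_⟩
    have h1 : (fun i => j a (s' i)) = s := funext hs2
    rw [h1]
    exact hs'
  choose sA hsS hsI using hpick
  obtain ⟨C, hC⟩ : ∃ C : Set G, C = {c | ∃ (τ : Fin D → Finset (Fin n)) (s : ∀ a, A a),
        Atm l τ ∧ (∀ a, s a = o a ∨ s a ∈ S a) ∧ c = Φ τ s} := ⟨_, rfl⟩
  rw [← hC]
  have hmem1 : ∀ T : {T // T ∈ ATs l D}, Φ (enm D T.1) o ∈ AddSubgroup.closure C := by
    intro T
    apply AddSubgroup.subset_closure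
    rw [hC]
    exact ⟨enm D T.1, o, x4_atm T.2, fun a => Or.inl rfl, rfl⟩
  have hmem2 : ∀ x : x4_S l D r,
      Φ (enm D x.2.1.1) (Function.update o x.1 (sA x.1 x.2.2)) ∈ AddSubgroup.closure C := by
    intro x
    apply AddSubgroup.subset_closure
    rw [hC]
    refine ⟨enm D x.2.1.1, _, x4_atm (x4_mem x), fun a => ?_, rfl⟩
    by_cases ha : a = x.1
    · subst ha
      right
      rw [Function.update_self]
      exact hsS _ _
    · left
      rw [Function.update_of_ne ha]
  have hmem3 : ∀ x : x4_S l D r, Φ (enm D x.2.1.1) o ∈ AddSubgroup.closure C := fun x =>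
    hmem1 ⟨x.2.1.1, x4_mem x⟩
  have hind : LinearIndependent ℤ (fun i : {T // T ∈ ATs l D} ⊕ x4_S l D r =>
      (Sum.elim (fun T => (⟨Φ (enm D T.1) o, hmem1 T⟩ : AddSubgroup.closure C))
        (fun x => ⟨Φ (enm D x.2.1.1) (Function.update o x.1 (sA x.1 x.2.2)), hmem2 x⟩ -
          ⟨Φ (enm D x.2.1.1) o, hmem3 x⟩) i)) := by
    rw [Fintype.linearIndependent_iff]
    intro g hg
    have hg1 : (∑ T : {T // T ∈ ATs l D}, g (Sum.inl T) • Φ (enm D T.1) o) +
        ∑ x : x4_S l D r, g (Sum.inr x) •
          (Φ (enm D x.2.1.1) (Function.update o x.1 (sA x.1 x.2.2)) - Φ (enm D x.2.1.1) o) = 0 := by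
      have h1 := congrArg (AddSubgroup.closure C).subtype hg
      rw [Fintype.sum_sum_type, map_add, map_sum, map_sum, map_zero] at h1
      rw [← h1]
      congr 1
    -- the family
    have hdet : ∀ val : ∀ a, A a → ℚ, Det l Φ val → ∀ T : Finset (Finset (Fin n)),
        Mt (J := {T // T ∈ ATs l D} ⊕ (x4_S l D r ⊕ x4_S l D r))
          (Sum.elim (fun T => g (Sum.inl T)) (Sum.elim (fun x => g (Sum.inr x))
            (fun x => - g (Sum.inr x))))
          (Sum.elim (fun T => enm D T.1) (Sum.elim (fun x => enm D x.2.1.1)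
            (fun x => enm D x.2.1.1))) T = 0 ∧
        ∀ a, (∀ t ∈ T, a ∉ t) → Nt (J := {T // T ∈ ATs l D} ⊕ (x4_S l D r ⊕ x4_S l D r))
          (Sum.elim (fun T => g (Sum.inl T)) (Sum.elim (fun x => g (Sum.inr x))
            (fun x => - g (Sum.inr x))))
          (Sum.elim (fun T => enm D T.1) (Sum.elim (fun x => enm D x.2.1.1)
            (fun x => enm D x.2.1.1)))
          (Sum.elim (fun _ => o) (Sum.elim (fun x => Function.update o x.1 (sA x.1 x.2.2))
            (fun _ => o))) val T a = 0 := by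
      intro val hval
      refine hval _ inferInstance _ _ _ ?_ ?_
      · rintro (T | x | x)
        · exact x4_atm T.2
        · exact x4_atm (x4_mem x)
        · exact x4_atm (x4_mem x)
      · have h1 : (∑ jj : {T // T ∈ ATs l D} ⊕ (x4_S l D r ⊕ x4_S l D r),
            (Sum.elim (fun T => g (Sum.inl T)) (Sum.elim (fun x => g (Sum.inr x))
              (fun x => - g (Sum.inr x))) jj : ℤ) •
            Φ (Sum.elim (fun T => enm D T.1) (Sum.elim (fun x => enm D x.2.1.1)
              (fun x => enm D x.2.1.1)) jj)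
            (Sum.elim (fun _ => o) (Sum.elim (fun x => Function.update o x.1 (sA x.1 x.2.2))
              (fun _ => o)) jj)) = 0 := by
          rw [Fintype.sum_sum_type, Fintype.sum_sum_type, ← hg1]
          simp only [Sum.elim_inl, Sum.elim_inr]
          congr 1
          rw [← Finset.sum_add_distrib]
          refine Finset.sum_congr rfl fun x _ => ?_
          rw [smul_sub, neg_smul, sub_eq_add_neg]
        rw [h1]
        exact IsOfFinAddOrder.zero
    -- the numbers
    have hx0 : ∀ T : {T // T ∈ ATs l D}, g (Sum.inl T) = 0 := by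
      intro T
      obtain ⟨val, hval⟩ := H0
      have h1 := (hdet val hval T.1).1
      rw [x4_Mt_sum, x4_Mt_sum] at h1
      unfold Mt at h1
      rw [← Finset.sum_add_distrib, Finset.sum_eq_zero (s := Finset.univ) (f := fun x : x4_S l D r =>
        (if Finset.univ.image (enm D x.2.1.1) = T.1 then (g (Sum.inr x) : ℚ) else 0) +
          if Finset.univ.image (enm D x.2.1.1) = T.1 then ((- g (Sum.inr x) : ℤ) : ℚ) else 0),
        add_zero, Finset.sum_eq_single T] at h1
      · rw [if_pos (x4_image T.2)] at h1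
        exact_mod_cast h1
      · intro T' _ hne
        rw [if_neg]
        intro h2
        rw [x4_image T'.2] at h2
        exact hne (Subtype.ext h2)
      · intro h2
        exact absurd (Finset.mem_univ T) h2
      · intro x _
        split_ifs
        · push_cast; ring
        · ring
    have hy0 : ∀ x : x4_S l D r, g (Sum.inr x) = 0 := by
      rintro ⟨a, T, i⟩
      have hTA : T.1 ∈ ATs l D := (Finset.mem_filter.1 T.2).1
      have hTa : ∀ t ∈ T.1, a ∉ t := (Finset.mem_filter.1 T.2).2
      have hlam : ∀ lam : Jc a →+ ℚ,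
          lam (∑ i, g (Sum.inr ⟨a, T, i⟩) • j a (sA a i)) = 0 := by
        intro lam
        obtain ⟨val, hv1, hv2, hval⟩ := H a lam
        have h1 := (hdet val hval T.1).2 a hTa
        rw [x4_Nt_sum, x4_Nt_sum] at h1
        unfold Nt at h1
        rw [Finset.sum_eq_zero (s := Finset.univ) (f := fun T' : {T // T ∈ ATs l D} =>
          (if Finset.univ.image (enm D T'.1) = T.1 then (g (Sum.inl T') : ℚ) * val a (o a) else 0)),
          Finset.sum_eq_zero (s := Finset.univ) (f := fun x : x4_S l D r =>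
          (if Finset.univ.image (enm D x.2.1.1) = T.1 then
            ((- g (Sum.inr x) : ℤ) : ℚ) * val a (o a) else 0)), add_zero, zero_add,
          Fintype.sum_sigma, Finset.sum_eq_single a] at h1
        · rw [Fintype.sum_prod_type, Finset.sum_eq_single T] at h1
          · rw [map_sum, ← h1]
            refine Finset.sum_congr rfl fun i _ => ?_
            rw [if_pos (x4_image hTA)]
            change _ = (g (Sum.inr ⟨a, T, i⟩) : ℚ) * val a (Function.update o a (sA a i) a)
            rw [Function.update_self, hv1, map_zsmul, zsmul_eq_mul]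
          · intro T' _ hne
            apply Finset.sum_eq_zero
            intro i _
            rw [if_neg]
            intro h2
            rw [x4_image (Finset.mem_filter.1 T'.2).1] at h2
            exact hne (Subtype.ext h2)
          · intro h2
            exact absurd (Finset.mem_univ T) h2
        · intro b _ hb
          apply Finset.sum_eq_zero
          intro x _
          change (if _ then _ * val a (Function.update o b (sA b x.2) a) else 0) = 0
          rw [Function.update_of_ne (Ne.symm hb), hv2, mul_zero, ite_self]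
        · intro h2
          exact absurd (Finset.mem_univ a) h2
        · intro x _
          rw [hv2, mul_zero, ite_self]
        · intro x _
          rw [hv2, mul_zero, ite_self]
      have h2 := tors a _ hlam
      rw [isOfFinAddOrder_iff_nsmul_eq_zero] at h2
      obtain ⟨N, hN, h3⟩ := h2
      rw [Finset.smul_sum] at h3
      have h4 : ∑ i, ((N : ℤ) * g (Sum.inr ⟨a, T, i⟩)) • j a (sA a i) = 0 := by
        rw [← h3]
        refine Finset.sum_congr rfl fun i _ => ?_
        rw [mul_smul, natCast_zsmul]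
      have h5 := Fintype.linearIndependent_iff.1 (hsI a) _ h4 i
      rcases mul_eq_zero.1 h5 with h6 | h6
      · exact absurd (by exact_mod_cast h6) hN.ne'
      · exact h6
    rintro (T | x)
    · exact hx0 T
    · exact hy0 x
  refine le_trans (le_of_eq ?_) hind.cardinal_le_rank
  rw [Cardinal.mk_fintype, Fintype.card_sum, Fintype.card_sigma, nAtL_univ]
  congr 2
  · rw [Fintype.card_coe]
  · refine Finset.sum_congr rfl fun a _ => ?_
    rw [Fintype.card_prod, Fintype.card_coe, Fintype.card_fin, nAtL_erase, mul_comm]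

end Pool.Agent.LibHL77
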