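import Pool.Agent.LibHD77.Stmt

/-!
The statements on diagonals of products in which no curve occurs more than `2 * genus` times.
-/

open scoped Classical
open Polynomial

namespace Pool.Agent.LibHL77

open Pool.Agent.LibHyp34 (Hyp Pt Pic jP)
open Pool.Agent.LibHD77

variable {k : Type} [Field k] {I : Type}

/-- Every curve occurs at most `2 * genus` times among the factors of `C_(ι 1) × ... × C_(ι n)` (the
curve `y ^ 2 = f(x)`, `f` of odd degree, has `2 * genus = deg f - 1`). -/
def Small {n : ℕ} (ι : Fin n → I) (f : I → k[X]) : Prop :=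
  ∀ a, (Finset.univ.filter fun b => f (ι b) = f (ι a)).card < (f (ι a)).natDegree

/-- If every curve occurs at most `2 * genus` times then the numbers of a torsion combination of
diagonals vanish; the fixed coordinates are arbitrary. -/
def Conv (f : I → k[X]) [∀ i, Hyp (f i)] : Prop :=
  ∀ (n : ℕ) (ι : Fin n → I) (D : ℕ), Small ι f → ∀ (J : Type) (_ : Fintype J) (m : J → ℤ)
    (δ : J → Dia (Pr ι f) D) (M : J → Type) (_ : ∀ j, Field (M j)) (_ : ∀ j, Algebra k (M j))
    (u : ∀ j, Pnt (Pr ι f) (M j)), (∀ j, IsPt (δ j) (u j)) →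
    IsOfFinAddOrder (∑ j, m j • cls D (u j)) → Vanish m δ

/-- If every curve occurs at most `2 * genus` times and the classes of the points in `S i` generate a
group of rank `r i` then the classes of the diagonals of dimension `D` with fixed coordinates in the
sets `S` generate a group of rank `N + ∑_a r_(ι a) N_a`, with `N`, `N_a` as in `RankLe`. -/
def RankEq (f : I → k[X]) [∀ i, Hyp (f i)] (S : ∀ i, Set (Pt (f i))) : Prop :=
  ∀ r : I → ℕ, (∀ i, Module.rank ℤ (AddSubgroup.closure (jP '' S i)) = r i) →
    ∀ (n : ℕ) (ι : Fin n → I) (D : ℕ), Small ι f → Module.rank ℤ (DG ι f S D) =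
      (nAt (Pr ι f) D Finset.univ +
        ∑ a, r (ι a) * nAt (Pr ι f) D (Finset.univ.erase a) : ℕ)

end Pool.Agent.LibHL77
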