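import Pool.Agent.LibHL77.X3
import Pool.Agent.LibHL77.X4
import Pool.Agent.LibHL77.Stmt
import Pool.Agent.LibHD77.F2

/-!
[HL77 X5] the theorems of the lower half. Proofs. `conv`: `vanish_of_torsion` for `F = Pr ι f`, `isPt_pnt`, `cl_isPt` (LibHD77/T1.lean). `rank_eq`: `≤` is `rank_dia` (LibHD77/F2.lean); `≥`: `rank_ge` for `l = Pr ι f`, `o = og (Pr ι f)`, `j a = jP`, `Φ τ s = cl (pp τ s)`, `S a = S (ι a)`, `r a = r (ι a)`; `H`: `det_all` for the family `lam` which is the given
functional for the polynomial `F a` and zero for the others; `tors`: `tors_iff`. The group there is contained in `DG ι f S D`: `pp τ s` has a generic point (`cmp_pp`, `exists_gen`, `gen_isPt`, `cl_eq`), with the fixed coordinates `.inf` or in `S`. `nAt = nAtL` (the same definition).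
-/

open scoped Classical
open Polynomial

namespace Pool.Agent.LibHL77

open Pool.Agent.LibHyp34 (Hyp Pt Pic jP)
open Pool.Agent.LibHD77
open Pool.Agent.LibHD77.Comb (Pat sub Cmp)

variable {k : Type} [Field k] [CharZero k] [IsAlgClosed k] {I : Type}

theorem conv (f : I → k[X]) [∀ i, Hyp (f i)] : Conv f := by
  intro n ι D hs J _ m δ M _ _ u hu h
  have h1 : ∀ j, ∃ V : Fin D → k[X], Cmp (Pr ι f) (δ j) V := fun j => by
    obtain ⟨V, x, y, hV, -, -⟩ := isPt_pnt (fun a => inferInstance) (δ j) (u j) (hu j)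
    exact ⟨V, hV⟩
  refine vanish_of_torsion (Pr ι f) hs D J m δ h1 ?_
  have h2 : ∀ j, cl (δ j) = cls D (u j) := fun j =>
    cl_isPt (fun a => inferInstance) (δ j) (u j) (hu j)
  simp only [h2]
  exact h

/-- the family of homomorphisms which is `lam` for the polynomial `f` and zero for the others -/
private noncomputable def ext1 {f : k[X]} [Hyp f] (lam : Pic f →+ ℚ) : Fnl k := fun g _ =>
  if h : f = g then h ▸ lam else 0

private theorem ext1_eq {f : k[X]} [Hyp f] (lam : Pic f →+ ℚ) : ext1 lam f = lam := by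
  unfold ext1
  rw [dif_pos rfl]

theorem rank_eq (f : I → k[X]) [∀ i, Hyp (f i)] (S : ∀ i, Set (Pt (f i))) (hS : Orth f S) :
    RankEq f S := by
  intro r hr n ι D hs
  apply le_antisymm
  · exact rank_dia f S hS r (fun i => (hr i).le) n ι D
  · have h1 := rank_ge (Pr ι f) (og (Pr ι f)) (fun a (s : Pt (Pr ι f a)) => (jP s : Pic (Pr ι f a)))
      (fun a => Pool.Agent.LibHyp34.jP_inf _) (fun τ s => cl (pp τ s : Dia (Pr ι f) D))
      (fun a => S (ι a)) (fun a x h => (tors_iff x).2 h)
      (fun a lam => ⟨fun b s => ext1 lam (Pr ι f b) (jP s), fun s => congrArg (fun q => q (jP s)) (ext1_eq lam), fun b => by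
        show ext1 lam (Pr ι f b) (jP (.inf : Pt (Pr ι f b))) = 0
        rw [Pool.Agent.LibHyp34.jP_inf, map_zero], det_all D k (Pr ι f) hs (ext1 lam)⟩)
      ⟨_, det_all D k (Pr ι f) hs (fun _ _ => 0)⟩
      (fun a => r (ι a)) (fun a => (hr (ι a)).ge)
    refine le_trans h1 ?_
    have hle : AddSubgroup.closure {c : CH (Pr ι f) D | ∃ (τ : Fin D → Finset (Fin n))
        (s : ∀ a, Pt (Pr ι f a)), Atm (Pr ι f) τ ∧ (∀ a, s a = og (Pr ι f) a ∨ s a ∈ S (ι a)) ∧
        c = cl (pp τ s : Dia (Pr ι f) D)} ≤ DG ι f S D := by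
      rw [AddSubgroup.closure_le]
      rintro _ ⟨τ, s, hτ, hs', rfl⟩
      obtain ⟨V, hV⟩ := cmp_pp τ s hτ.1
      obtain ⟨M, _, _, x, y, hG⟩ := exists_gen V fun e => T1_hV (fun a => inferInstance) hV e
      refine AddSubgroup.subset_closure ⟨pp τ s, M, inferInstance, inferInstance,
        pnt (pp τ s) x y, ⟨gen_isPt _ V x y hV hG, ?_⟩,
        cl_eq (fun a => inferInstance) _ V x y hV hG⟩
      intro a s' h2
      unfold pp at h2
      by_cases h3 : ∃ e, a ∈ τ e
      · rw [dif_pos h3] at h2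
        exact absurd h2 (by simp)
      · rw [dif_neg h3] at h2
        have h4 : s a = s' := Sum.inl.inj h2
        rw [← h4]
        exact hs' a
    exact LinearMap.rank_le_of_injective (AddSubgroup.inclusion hle).toIntLinearMap
      (AddSubgroup.inclusion_injective hle)

end Pool.Agent.LibHL77
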