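import Pool.Agent.LibHL77.Defs

/-!
[HL77 E0] cycles and homomorphisms of fields. Proofs. `cyc_mpt_deg`: copy of `cyc_map_deg` in LibAC34/CDeg.lean, with
`eqs_mpt` and `fld_mpt` (LibHD77/P1.lean and its proof of `cyc_mpt`). `lft_mpt`, `co_lft`: cases. `mem_fld`: the point over
`fld u` (`exists_min`) and `nat` for `(fld u).val`. `exists_min`: the coordinates are in `fld u`; `.inf` if `u a = .inf`.
`hyp_map`: `f` is separable (perfect field), so is `f.map`; the degree does not change. `funF_sub`: `M` has a
transcendence basis `t` over `k`, with `d` elements because `N` is algebraic over `σ M`; `N` is finitely generated and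
algebraic over `k(t)`, so finite, so `M` is finite over `k(t)`. `gn_map`, `ext_inj`: `Polynomial.map_injective`.
`lft_cst`: `i.comm`. `eqs_iso`: the two rings `k[co u] ≃ k[X] / (relations) ≃ k[co u']`, then fraction fields
(`fld u = ⊤`).
-/

open scoped Classical
open Polynomial

namespace Pool.Agent.LibHL77

open Pool.Agent.LibBH2
open Pool.Agent.LibCHd (VR RF Red FunF)
open Pool.Agent.LibHyp34 (Hyp Pt Pic jP Sp KC DCf gn)
open Pool.Agent.LibHD77

variable {k : Type} [Field k]

theorem hyp_map [CharZero k] (L : Type) [Field L] [Algebra k L] (f : k[X]) (hf : Hyp f) :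
    Hyp (f.map (algebraMap k L)) := by
  have h1 : (f.map (algebraMap k L)).natDegree = f.natDegree := natDegree_map _
  refine ⟨hf.monic.map _, ?_, ?_, ?_⟩
  · rw [h1]
    exact hf.odd
  · rw [h1]
    exact hf.three
  · exact ((PerfectField.separable_iff_squarefree.2 hf.sqf).map (f := algebraMap k L)).squarefree

instance [CharZero k] (L : Type) [Field L] [Algebra k L] (f : k[X]) [Hyp f] :
    Hyp (f.map (algebraMap k L)) := hyp_map L f inferInstance

theorem gn_map (L : Type) [Field L] [Algebra k L] (f : k[X]) :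
    gn (f.map (algebraMap k L)) = gn f := by
  unfold gn
  rw [natDegree_map]

theorem ext_inj (L : Type) [Field L] [Algebra k L] {f g : k[X]}
    (h : f.map (algebraMap k L) = g.map (algebraMap k L)) : f = g := by
  exact Polynomial.map_injective _ (algebraMap k L).injective h

section

variable {n : ℕ} {F : Fin n → k[X]} {M M' : Type} [Field M] [Algebra k M] [Field M'] [Algebra k M']

theorem E0_fld_mpt (σ : M →ₐ[k] M') (u : Pnt F M) :
    fld (fun a => mpt σ (u a)) = (fld u).map σ := by
  have h1 : co (fun a => mpt σ (u a)) = fun q => σ (co u q) := funext fun q => co_mpt σ u q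
  unfold fld
  rw [IntermediateField.adjoin_map, h1]
  congr 1
  rw [← Set.range_comp]
  rfl

/-- the cycle in a larger field is multiplied by the degree -/
theorem cyc_mpt_deg (σ : M →ₐ[k] M') (u : Pnt F M) :
    cyc (fun a => mpt σ (u a)) = (Module.finrank σ.fieldRange M' : ℤ) • cyc u := by
  have h1 : Module.finrank (fld (fun a => mpt σ (u a))) M' =
      Module.finrank σ.fieldRange M' * Module.finrank (fld u) M := by
    rw [E0_fld_mpt, AlgHom.fieldRange_eq_map,
      ← IntermediateField.relfinrank_mul_finrank_top (IntermediateField.map_mono σ (le_top :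
        fld u ≤ ⊤)), IntermediateField.relfinrank_map_map,
      IntermediateField.relfinrank_top_right, mul_comm]
  rw [cyc, cyc, eqs_mpt, h1, Finsupp.smul_single]
  congr 1

/-- a point with coordinates in a subfield comes from the subfield -/
theorem E0_lift (E : IntermediateField k M) {f : k[X]} (p : MPt f M) (h : ∀ c, xy p c ∈ E) :
    ∃ p₀ : MPt f E, mpt E.val p₀ = p := by
  match p with
  | .inf => exact ⟨.inf, rfl⟩
  | .aff x y hxy =>
    have hx : x ∈ E := h 0
    have hy : y ∈ E := h 1
    refine ⟨.aff ⟨x, hx⟩ ⟨y, hy⟩ ?_, rfl⟩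
    apply E.val.injective
    have h1 : E.val ((f.map (algebraMap k E)).eval (⟨x, hx⟩ : E)) =
        (f.map (algebraMap k M)).eval x := by
      rw [eval_map_algebraMap, eval_map_algebraMap]
      exact (aeval_algHom_apply E.val (⟨x, hx⟩ : E) f).symm
    have h2 : E.val ((⟨y, hy⟩ : E) ^ 2) = y ^ 2 := rfl
    exact (h2.trans hxy).trans h1.symm

/-- a point is the base change of a point over the field generated by its coordinates -/
theorem exists_min (u : Pnt F M) : ∃ u₀ : Pnt F (fld u), fld u₀ = ⊤ ∧
    (fun a => mpt (fld u).val (u₀ a)) = u := by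
  have h1 : ∀ a, ∃ p₀ : MPt (F a) (fld u), mpt (fld u).val p₀ = u a := by
    intro a
    apply E0_lift
    intro c
    exact IntermediateField.subset_adjoin _ _ ⟨(a, c), rfl⟩
  choose u₀ hu₀ using h1
  have h2 : (fun a => mpt (fld u).val (u₀ a)) = u := funext hu₀
  refine ⟨u₀, ?_, h2⟩
  apply IntermediateField.map_injective (fld u).val
  have h3 := E0_fld_mpt (fld u).val u₀
  rw [h2] at h3
  rw [← h3, ← AlgHom.fieldRange_eq_map, IntermediateField.fieldRange_val]

theorem funF_sub {d : ℕ} (σ : M →ₐ[k] M') (hσ : Module.finrank σ.fieldRange M' ≠ 0)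
    (h : FunF k d M') : FunF k d M := by
  have h0 := h.trdeg
  obtain ⟨t', ht', hf'⟩ := h
  let _ : Algebra M M' := (σ : M →+* M').toAlgebra
  have htow : IsScalarTower k M M' := IsScalarTower.of_algebraMap_eq fun x => (σ.commutes x).symm
  -- `M'` is finite over `M`
  have hfin : Module.Finite M M' := by
    have h1 : Module.Finite σ.fieldRange M' :=
      Module.finite_of_finrank_pos (Nat.pos_of_ne_zero hσ)
    exact Module.Finite.of_equiv_equiv (AlgHom.equivFieldRange σ).symm.toRingEquiv
      (RingEquiv.refl M') (by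
        ext x
        obtain ⟨m, rfl⟩ := (AlgHom.equivFieldRange σ).surjective x
        change (σ : M →+* M') ((AlgHom.equivFieldRange σ).symm (AlgHom.equivFieldRange σ m)) =
          ((AlgHom.equivFieldRange σ m : σ.fieldRange) : M')
        rw [AlgEquiv.symm_apply_apply]
        rfl)
  have halg : Algebra.IsAlgebraic M M' := inferInstance
  have h1 : Algebra.trdeg k M = d := by
    rw [← h0, ← trdeg_add_eq k M (A := M'), trdeg_eq_zero_iff.2 halg, add_zero]
  obtain ⟨ι, x, hx⟩ := exists_isTranscendenceBasis' k M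
  have h2 : Cardinal.mk ι = (d : Cardinal) := by
    rw [hx.cardinalMk_eq_trdeg, h1]
  have h3 : Nonempty (Fin d ≃ ι) := by
    rw [← Cardinal.eq, Cardinal.mk_fin, h2]
  obtain ⟨e⟩ := h3
  have ht : IsTranscendenceBasis k (fun l => x (e l)) := hx.comp_equiv e
  refine ⟨fun l => x (e l), ht.1, ?_⟩
  set t : Fin d → M := fun l => x (e l) with htdef
  have hE : Algebra.IsAlgebraic (IntermediateField.adjoin k (Set.range t)) M :=
    ht.isAlgebraic_field
  have hEss : Algebra.EssFiniteType k M' := by
    have e1 : Algebra.EssFiniteType k (IntermediateField.adjoin k (Set.range t')) := by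
      rw [IntermediateField.essFiniteType_iff]
      exact ⟨Finset.univ.image t', by simp⟩
    exact Algebra.EssFiniteType.comp k (IntermediateField.adjoin k (Set.range t')) M'
  have hEss' : Algebra.EssFiniteType (IntermediateField.adjoin k (Set.range t)) M' :=
    Algebra.EssFiniteType.of_comp k (IntermediateField.adjoin k (Set.range t)) M'
  have hE' : Algebra.IsAlgebraic (IntermediateField.adjoin k (Set.range t)) M' :=
    Algebra.IsAlgebraic.trans (IntermediateField.adjoin k (Set.range t)) M M'
  have hF : Module.Finite (IntermediateField.adjoin k (Set.range t)) M' :=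
    Algebra.finite_of_essFiniteType_of_isAlgebraic
  exact Module.Finite.of_injective
    (IsScalarTower.toAlgHom (IntermediateField.adjoin k (Set.range t)) M M').toLinearMap
    (algebraMap M M').injective

/-- points with the same equations differ by an isomorphism of fields -/
theorem eqs_iso (u : Pnt F M) (u' : Pnt F M') (hu : fld u = ⊤) (hu' : fld u' = ⊤)
    (h : eqs u = eqs u') : ∃ ε : M ≃ₐ[k] M', (fun a => mpt (ε : M →ₐ[k] M') (u a)) = u' := by
  have hinf : ∀ a, u a = .inf ↔ u' a = .inf := by
    intro a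
    have h1 : (eqs u).1 = (eqs u').1 := by rw [h]
    exact (Set.ext_iff.1 h1) a
  have hrel : ∀ G : MvPolynomial (Fin n × Fin 2) k,
      MvPolynomial.aeval (co u) G = 0 ↔ MvPolynomial.aeval (co u') G = 0 := by
    intro G
    have h1 : (eqs u).2 = (eqs u').2 := by rw [h]
    exact (Set.ext_iff.1 h1) G
  let φ : MvPolynomial (Fin n × Fin 2) k →ₐ[k] M := MvPolynomial.aeval (co u)
  let φ' : MvPolynomial (Fin n × Fin 2) k →ₐ[k] M' := MvPolynomial.aeval (co u')
  let I : Ideal (MvPolynomial (Fin n × Fin 2) k) := RingHom.ker φ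
  let g : MvPolynomial (Fin n × Fin 2) k ⧸ I →ₐ[k] M :=
    Ideal.Quotient.liftₐ I φ (fun a ha => ha)
  let g' : MvPolynomial (Fin n × Fin 2) k ⧸ I →ₐ[k] M' :=
    Ideal.Quotient.liftₐ I φ' (fun a ha => (hrel a).1 ha)
  have hg : Function.Injective g := by
    rw [injective_iff_map_eq_zero]
    intro a
    obtain ⟨G, rfl⟩ := Ideal.Quotient.mk_surjective a
    intro ha
    exact Ideal.Quotient.eq_zero_iff_mem.2 ha
  have hg' : Function.Injective g' := by
    rw [injective_iff_map_eq_zero]
    intro a
    obtain ⟨G, rfl⟩ := Ideal.Quotient.mk_surjective a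
    intro ha
    exact Ideal.Quotient.eq_zero_iff_mem.2 ((hrel G).2 ha)
  let _ : Algebra (MvPolynomial (Fin n × Fin 2) k ⧸ I) M := (g : _ →+* M).toAlgebra
  let _ : Algebra (MvPolynomial (Fin n × Fin 2) k ⧸ I) M' := (g' : _ →+* M').toAlgebra
  have ht : IsScalarTower k (MvPolynomial (Fin n × Fin 2) k ⧸ I) M :=
    IsScalarTower.of_algebraMap_eq fun x => (g.commutes x).symm
  have ht' : IsScalarTower k (MvPolynomial (Fin n × Fin 2) k ⧸ I) M' :=
    IsScalarTower.of_algebraMap_eq fun x => (g'.commutes x).symm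
  have hf1 : FaithfulSMul (MvPolynomial (Fin n × Fin 2) k ⧸ I) M :=
    (faithfulSMul_iff_algebraMap_injective _ _).2 hg
  have hf2 : FaithfulSMul (MvPolynomial (Fin n × Fin 2) k ⧸ I) M' :=
    (faithfulSMul_iff_algebraMap_injective _ _).2 hg'
  have hfr : IsFractionRing (MvPolynomial (Fin n × Fin 2) k ⧸ I) M := by
    apply IsFractionRing.of_field
    intro z
    have hz : z ∈ IntermediateField.adjoin k (Set.range (co u)) := by
      change z ∈ fld u
      rw [hu]
      exact IntermediateField.mem_top
    obtain ⟨r, s, hrs⟩ := (IntermediateField.mem_adjoin_range_iff k (co u) z).1 hz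
    exact ⟨Ideal.Quotient.mk I r, Ideal.Quotient.mk I s, hrs⟩
  have hfr' : IsFractionRing (MvPolynomial (Fin n × Fin 2) k ⧸ I) M' := by
    apply IsFractionRing.of_field
    intro z
    have hz : z ∈ IntermediateField.adjoin k (Set.range (co u')) := by
      change z ∈ fld u'
      rw [hu']
      exact IntermediateField.mem_top
    obtain ⟨r, s, hrs⟩ := (IntermediateField.mem_adjoin_range_iff k (co u') z).1 hz
    exact ⟨Ideal.Quotient.mk I r, Ideal.Quotient.mk I s, hrs⟩
  let ε₀ : M ≃ₐ[MvPolynomial (Fin n × Fin 2) k ⧸ I] M' :=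
    IsLocalization.algEquiv (nonZeroDivisors (MvPolynomial (Fin n × Fin 2) k ⧸ I)) M M'
  refine ⟨ε₀.restrictScalars k, funext fun a => mpt_ext ?_ ?_⟩
  · rw [mpt_inf_iff]
    exact hinf a
  · intro c
    rw [xy_mpt]
    have h1 : xy (u a) c = algebraMap (MvPolynomial (Fin n × Fin 2) k ⧸ I) M
        (Ideal.Quotient.mk I (MvPolynomial.X (a, c))) := by
      change co u (a, c) = MvPolynomial.aeval (co u) (MvPolynomial.X (a, c))
      rw [MvPolynomial.aeval_X]
    have h2 : xy (u' a) c = algebraMap (MvPolynomial (Fin n × Fin 2) k ⧸ I) M'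
        (Ideal.Quotient.mk I (MvPolynomial.X (a, c))) := by
      change co u' (a, c) = MvPolynomial.aeval (co u') (MvPolynomial.X (a, c))
      rw [MvPolynomial.aeval_X]
    rw [h1, h2]
    exact ε₀.commutes _

theorem mem_fld (φ : Mor F) (u : Pnt F M) (i : Fin 3) : φ.φ M u i ∈ fld u := by
  obtain ⟨u₀, -, h⟩ := exists_min u
  have h1 := φ.nat (fld u) M (fld u).val u₀ i
  rw [h] at h1
  rw [h1]
  exact (φ.φ (fld u) u₀ i).2

/-- an algebraic point has a non-zero cycle -/
theorem cyc_ne_zero_iff (u : Pnt F M) : cyc u ≠ 0 ↔ Module.finrank (fld u) M ≠ 0 := by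
  unfold cyc
  rw [Finsupp.single_ne_zero, Nat.cast_ne_zero]

end

section

variable {L : Type} [Field L] [Algebra k L] {M N M' N' : Type} [Field M] [Algebra k M] [Field N]
  [Algebra k N] [Field M'] [Algebra L M'] [Field N'] [Algebra L N']

theorem lft_mpt (i : EHom k L M M') (i' : EHom k L N N') (σ : M →ₐ[k] N) (σ' : M' →ₐ[L] N')
    (h : ∀ m, σ' (i.f m) = i'.f (σ m)) {f : k[X]} (p : MPt f M) :
    lft i' (mpt σ p) = mpt σ' (lft i p) := by
  match p with
  | .inf => rfl
  | .aff x y hxy =>
    simp only [mpt, lft, Pt.aff.injEq]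
    exact ⟨(h x).symm, (h y).symm⟩

theorem co_lftP {n : ℕ} {F : Fin n → k[X]} (i : EHom k L M M') (u : Pnt F M) (q : Fin n × Fin 2) :
    co (lftP i u) q = i.f (co u q) := by
  have key : ∀ (f : k[X]) (p : MPt f M) (c : Fin 2), xy (lft i p) c = i.f (xy p c) := by
    intro f p c
    match p with
    | .inf =>
      change (0 : Fin 2 → M') c = i.f ((0 : Fin 2 → M) c)
      rw [Pi.zero_apply, Pi.zero_apply, map_zero]
    | .aff x y h =>
      change (![i.f x, i.f y] : Fin 2 → M') c = i.f ((![x, y] : Fin 2 → M) c)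
      fin_cases c <;> rfl
  exact key _ (u q.1) q.2

theorem lft_inf_iff (i : EHom k L M M') {f : k[X]} (p : MPt f M) :
    lft i p = .inf ↔ p = .inf := by
  match p with
  | .inf => exact ⟨fun _ => rfl, fun _ => rfl⟩
  | .aff x y h => constructor <;> intro h' <;> cases h'

theorem lft_cst (i : EHom k L M M') {f : k[X]} (s : Pt f) :
    lft i (cst M s : MPt f M) = cst M' (cst L s : MPt f L) := by
  match s with
  | .inf => rfl
  | .aff x y h =>
    simp only [cst, lft, Pt.aff.injEq]
    exact ⟨i.comm x, i.comm y⟩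

end

end Pool.Agent.LibHL77
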