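import Pool.Agent.LibHL77.Z1

/-!
[HL77 Z2] the norm of a function. Proof. `K` is finite over `i H` (both are function fields of one variable). `h = N_{K/H}(g)` (`Algebra.norm H g` with `K` an `H`-algebra by `i`). Let `v` be a
place of `H`, `O = VR v` (a discrete valuation ring with fraction field `H`), `A` the integral closure of `O` in `K` (a Dedekind domain, finite over `O`: characteristic zero). The places `w` of `K` over `v`
are the primes `P` of `A` (they are regular on `A`; compare `eq_ofHOS`, `primeOf` in LibEnd77/ValA.lean, ValB.lean with `O` in place of `k[φ]`). Mathlib: `Ideal.relNorm_singleton`, `Ideal.relNorm_eq_pow_of_isMaximal` (`relNorm O P = 𝔪 ^ f`,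
`f` the inertia degree), multiplicativity, so `v.ord (N g) = ∑ f(w) w.ord g` for `g ∈ A`, then for quotients. And `f(w) finrank k (RF v) = finrank k (RF w)` (`RF w = A / P`, `RF v = O / 𝔪`). All
`w` over `v` with `w.ord g ≠ 0` are in `S`; the others in `S` contribute zero.
-/

open scoped Classical
open Polynomial

namespace Pool.Agent.LibHL77

section Z2aux

open Pool.Agent.LibBH2 Pool.Agent.LibCHd Pool.Agent.LibEnd77.Val8 IsDedekindDomain

variable {k : Type} [Field k] {H K : Type} [Field H] [Algebra k H] [Field K] [Algebra k K]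

/-! ### the discrete valuation ring -/

private theorem Z2_frac (v : Place k H) : IsFractionRing (VR v) H := by
  refine IsFractionRing.of_field (VR v) H fun z => ?_
  by_cases hz : v.Reg z
  · exact ⟨⟨z, hz⟩, 1, by simp; rfl⟩
  · have hz0 : z ≠ 0 := fun h => hz (Or.inl h)
    have h1 : v.ord z < 0 := by
      by_contra h
      exact hz (Or.inr (not_lt.1 h))
    refine ⟨1, ⟨z⁻¹, Or.inr (by rw [v.ord_inv]; omega)⟩, ?_⟩
    rw [map_one]
    change z = 1 / z⁻¹
    simp

private theorem Z2_unit (v : Place k H) (u : VR v) (hu : v.ord (u : H) = 0) (hu0 : (u : H) ≠ 0) :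
    IsUnit u := by
  apply isUnit_VR
  rintro (h | h)
  · exact hu0 h
  · omega

private theorem Z2_dvr (v : Place k H) : IsDiscreteValuationRing (VR v) := by
  obtain ⟨t, ht⟩ := v.exists_uniformizer
  have ht0 : t ≠ 0 := by
    rintro rfl
    rw [v.ord_zero] at ht
    omega
  have htr : v.Reg t := Or.inr (by omega)
  apply IsDiscreteValuationRing.ofHasUnitMulPowIrreducibleFactorization
  refine ⟨⟨t, htr⟩, ⟨?_, ?_⟩, ?_⟩
  · intro h
    obtain ⟨s, hs⟩ := h.exists_right_inv
    have h1 : t * (s : H) = 1 := congrArg Subtype.val hs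
    have hs0 : (s : H) ≠ 0 := by
      intro h
      rw [h, mul_zero] at h1
      exact zero_ne_one h1
    have h2 : v.ord (t * (s : H)) = 0 := by rw [h1, v.ord_one]
    rw [v.ord_mul _ _ ht0 hs0, ht] at h2
    have h3 := s.2.resolve_left hs0
    omega
  · intro a b hab
    have h1 : t = (a : H) * (b : H) := congrArg Subtype.val hab
    have ha0 : (a : H) ≠ 0 := by
      intro h
      rw [h, zero_mul] at h1
      exact ht0 h1
    have hb0 : (b : H) ≠ 0 := by
      intro h
      rw [h, mul_zero] at h1
      exact ht0 h1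
    have h2 : v.ord ((a : H) * (b : H)) = 1 := by rw [← h1, ht]
    rw [v.ord_mul _ _ ha0 hb0] at h2
    have h3 := a.2.resolve_left ha0
    have h4 := b.2.resolve_left hb0
    by_cases h5 : v.ord (a : H) = 0
    · exact Or.inl (Z2_unit v a h5 ha0)
    · exact Or.inr (Z2_unit v b (by omega) hb0)
  · intro x hx
    have hx0 : (x : H) ≠ 0 := fun h => hx (Subtype.ext h)
    have h1 := x.2.resolve_left hx0
    obtain ⟨n, hn⟩ := Int.eq_ofNat_of_zero_le h1
    refine ⟨n, ?_⟩
    have hreg : v.Reg ((x : H) / t ^ n) := by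
      right
      rw [v.ord_div _ _ hx0 (pow_ne_zero _ ht0), v.ord_pow, ht]
      omega
    have hu : IsUnit (⟨(x : H) / t ^ n, hreg⟩ : VR v) := by
      apply Z2_unit
      · show v.ord ((x : H) / t ^ n) = 0
        rw [v.ord_div _ _ hx0 (pow_ne_zero _ ht0), v.ord_pow, ht]
        omega
      · exact div_ne_zero hx0 (pow_ne_zero _ ht0)
    refine ⟨hu.unit, ?_⟩
    apply Subtype.ext
    change t ^ n * ((x : H) / t ^ n) = x
    field_simp

/-- the order of a generator of the power of the maximal ideal -/
private theorem Z2_ord_pow (v : Place k H) (a : VR v) (ha : (a : H) ≠ 0) (f : ℕ)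
    (h : Ideal.span {a} = IsLocalRing.maximalIdeal (VR v) ^ f) : v.ord (a : H) = f := by
  obtain ⟨t, ht⟩ := v.exists_uniformizer
  have ht0 : t ≠ 0 := by
    rintro rfl
    rw [v.ord_zero] at ht
    omega
  have htr : v.Reg t := Or.inr (by omega)
  have hm : IsLocalRing.maximalIdeal (VR v) = Ideal.span {(⟨t, htr⟩ : VR v)} := by
    apply le_antisymm
    · intro x hx
      rw [Ideal.mem_span_singleton']
      rcases (mem_max_iff x).1 hx with h0 | h0
      · exact ⟨0, by rw [zero_mul]; exact (Subtype.ext h0).symm⟩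
      · have hx0 : (x : H) ≠ 0 := by
          intro h1
          rw [h1, v.ord_zero] at h0
          omega
        refine ⟨⟨(x : H) / t, Or.inr ?_⟩, ?_⟩
        · rw [v.ord_div _ _ hx0 ht0, ht]
          omega
        · apply Subtype.ext
          change (x : H) / t * t = x
          field_simp
    · rw [Ideal.span_singleton_le_iff_mem, mem_max_iff]
      exact Or.inr (by change 0 < v.ord t; omega)
  rw [hm, Ideal.span_singleton_pow, Ideal.span_singleton_eq_span_singleton] at h
  obtain ⟨u, hu⟩ := h
  have h1 : (a : H) * ((u : VR v) : H) = t ^ f := congrArg Subtype.val hu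
  have hu0 : ((u : VR v) : H) ≠ 0 := by
    intro h0
    rw [h0, mul_zero] at h1
    exact pow_ne_zero _ ht0 h1.symm
  have hu1 : v.ord ((u : VR v) : H) = 0 := by
    apply Place.ord_eq_zero_of_reg (u : VR v).2
    intro hz
    have := (mem_max_iff (u : VR v)).2 hz
    exact (IsLocalRing.mem_maximalIdeal _).1 this u.isUnit
  have h2 := congrArg v.ord h1
  rw [v.ord_mul _ _ ha hu0, hu1, v.ord_pow, ht] at h2
  linarith

section gen

variable {R : Type} [CommRing R] [IsDedekindDomain R] [Algebra R K] [IsFractionRing R K]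
  [Algebra k R] [IsScalarTower k R K]

private theorem Z2_regR (P : HeightOneSpectrum R) (r : R) :
    (ofHOS (k := k) (H := K) P).Reg (algebraMap R K r) := by
  by_cases h0 : algebraMap R K r = 0
  · exact Or.inl h0
  · right
    have h1 := P.valuation_le_one (K := K) r
    rw [ofHOS_ord (k := k) P h0, ← WithZero.exp_zero, WithZero.exp_le_exp] at h1
    omega

private theorem Z2_quot (P : HeightOneSpectrum R) {x : K}
    (hx : (ofHOS (k := k) (H := K) P).Reg x) :
    ∃ a s : R, s ∉ P.asIdeal ∧ x = algebraMap R K a / algebraMap R K s := by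
  by_cases h0 : x = 0
  · refine ⟨0, 1, fun h => P.isPrime.ne_top ((Ideal.eq_top_iff_one _).2 h), ?_⟩
    rw [h0, map_zero, zero_div]
  have h2 := hx.resolve_left h0
  have h1 : x ∈ (P.valuation K).valuationSubring := by
    rw [Valuation.mem_valuationSubring_iff, ofHOS_ord (k := k) P h0, ← WithZero.exp_zero,
      WithZero.exp_le_exp]
    omega
  rw [← HeightOneSpectrum.valuationSubringAtPrime_eq_valuationSubring] at h1
  obtain ⟨a, s, hs, rfl⟩ := h1
  exact ⟨a, s, hs, (div_eq_mul_inv _ _).symm⟩

/-- the residue field of the place of a prime -/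
private theorem Z2_res (P : HeightOneSpectrum R) :
    Module.finrank k (RF (ofHOS (k := k) (H := K) P)) = Module.finrank k (R ⧸ P.asIdeal) := by
  set w := ofHOS (k := k) (H := K) P with hw
  let g : R →+* VR w := (algebraMap R K).codRestrict (VR w) (fun r => Z2_regR P r)
  let ρ₀ : R →+* RF w := (IsLocalRing.residue (VR w)).comp g
  have hred : ∀ r, Red w (algebraMap R K r) (ρ₀ r) := fun r => ⟨Z2_regR P r, rfl⟩
  let ρ : R →ₐ[k] RF w :=
    { toRingHom := ρ₀
      commutes' := by
        intro c
        have h2 := hred (algebraMap k R c)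
        rw [← IsScalarTower.algebraMap_apply k R K] at h2
        exact ((red_const w c).unique h2).symm }
  have hred' : ∀ r, Red w (algebraMap R K r) (ρ r) := hred
  have hker : RingHom.ker ρ = P.asIdeal := by
    ext r
    rw [RingHom.mem_ker, ← ofHOS_zer (k := k) (H := K) P r, ← red_zero_iff]
    constructor
    · intro h
      have := hred' r
      rwa [h] at this
    · intro h
      exact (hred' r).unique h
  have hρ : Function.Surjective ρ := by
    intro x
    obtain ⟨f, hf⟩ := exists_rep x
    obtain ⟨a, s, hs, hfa⟩ := Z2_quot P hf.reg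
    have hPmax : P.asIdeal.IsMaximal := P.isMaximal
    obtain ⟨s', hs'⟩ : ∃ s' : R, s * s' - 1 ∈ P.asIdeal := by
      have h1 : (Ideal.Quotient.mk P.asIdeal s) ≠ 0 := by
        rwa [Ne, Ideal.Quotient.eq_zero_iff_mem]
      let _ : Field (R ⧸ P.asIdeal) := Ideal.Quotient.field P.asIdeal
      obtain ⟨s', hs'⟩ := Ideal.Quotient.mk_surjective (Ideal.Quotient.mk P.asIdeal s)⁻¹
      refine ⟨s', ?_⟩
      rw [← Ideal.Quotient.eq_zero_iff_mem, map_sub, map_mul, hs', mul_inv_cancel₀ h1, map_one,
        sub_self]
    refine ⟨a * s', ?_⟩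
    have hs0 : algebraMap R K s ≠ 0 := by
      intro h
      apply hs
      have : s = 0 := by
        rwa [FaithfulSMul.algebraMap_eq_zero_iff] at h
      rw [this]
      exact zero_mem _
    have h2 : w.Zer (algebraMap R K (a * s') - f) := by
      have h3 : algebraMap R K (a * s') - f = f * algebraMap R K (s * s' - 1) := by
        rw [hfa, map_mul, map_sub, map_mul, map_one]
        field_simp
      rw [h3]
      exact Place.Zer.reg_mul hf.reg ((ofHOS_zer (k := k) (H := K) P _).2 hs')
    exact (hred' _).unique ((red_iff_sub hf).2 h2)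
  have h1 := (Ideal.quotientKerAlgEquivOfSurjective hρ).toLinearEquiv.finrank_eq
  have h2 := (Ideal.quotientEquivAlgOfEq k hker).toLinearEquiv.finrank_eq
  rw [← h1, h2]

/-- the order of a generator of the prime -/
private theorem Z2_ord_gen (P : HeightOneSpectrum R) (π : R) (h : P.asIdeal = Ideal.span {π}) :
    (ofHOS (k := k) (H := K) P).ord (algebraMap R K π) = 1 := by
  have hπ : π ≠ 0 := by
    rintro rfl
    apply P.ne_bot
    rw [h, Ideal.span_singleton_eq_bot]
  have h0 : algebraMap R K π ≠ 0 := by
    rw [Ne, FaithfulSMul.algebraMap_eq_zero_iff]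
    exact hπ
  have h1 := ofHOS_ord (k := k) P h0
  rw [HeightOneSpectrum.valuation_of_algebraMap, P.intValuation_singleton hπ h,
    WithZero.exp_inj] at h1
  omega

/-- the order of an element outside the prime -/
private theorem Z2_ord_out (P : HeightOneSpectrum R) (r : R) (h : r ∉ P.asIdeal) :
    (ofHOS (k := k) (H := K) P).ord (algebraMap R K r) = 0 := by
  apply Place.ord_eq_zero_of_reg (Z2_regR P r)
  intro hz
  exact h ((ofHOS_zer (k := k) (H := K) P r).1 hz)

end gen

section setup

attribute [local instance] Z2_frac Z2_dvr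

variable [Algebra H K] [IsScalarTower k H K]

private theorem Z2_tower (v : Place k H) : IsScalarTower k (VR v) K := by
  refine IsScalarTower.of_algebraMap_eq fun c => ?_
  change algebraMap k K c = algebraMap H K (algebraMap k H c)
  exact IsScalarTower.algebraMap_apply k H K c

attribute [local instance] Z2_tower

private theorem Z2_charH [CharZero k] : CharZero H :=
  charZero_of_injective_algebraMap (algebraMap k H).injective

private theorem Z2_ded [CharZero k] [FiniteDimensional H K] (v : Place k H) :
    IsDedekindDomain (integralClosure (VR v) K) := by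
  have := Z2_charH (k := k) (H := H)
  exact integralClosure.isDedekindDomain (VR v) H K

private theorem Z2_fracB [FiniteDimensional H K] (v : Place k H) :
    IsFractionRing (integralClosure (VR v) K) K :=
  integralClosure.isFractionRing_of_finite_extension H K

private theorem Z2_finB [CharZero k] [FiniteDimensional H K] (v : Place k H) :
    Module.Finite (VR v) (integralClosure (VR v) K) := by
  have := Z2_charH (k := k) (H := H)
  exact IsIntegralClosure.finite (VR v) H K _

private theorem Z2_towB (v : Place k H) : IsScalarTower k (integralClosure (VR v) K) K :=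
  IsScalarTower.of_algebraMap_eq fun _ => rfl

private theorem Z2_faith (v : Place k H) : FaithfulSMul (VR v) (integralClosure (VR v) K) := by
  rw [faithfulSMul_iff_algebraMap_injective]
  intro a b hab
  have h1 : algebraMap (VR v) K a = algebraMap (VR v) K b := congrArg Subtype.val hab
  exact Subtype.ext ((algebraMap H K).injective h1)

attribute [local instance] Z2_ded Z2_fracB Z2_finB Z2_towB Z2_faith

private theorem Z2_norm_prime [CharZero k] [FiniteDimensional H K] (v : Place k H)
    (P : Ideal (integralClosure (VR v) K)) [P.IsMaximal]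
    [P.LiesOver (IsLocalRing.maximalIdeal (VR v))] (π : integralClosure (VR v) K) (hπ0 : π ≠ 0)
    (hπ : P = Ideal.span {π}) :
    v.ord (Algebra.norm H (π : K)) = (P.inertiaDeg (VR v) : ℤ) := by
  have h0 := Z2_charH (k := k) (H := H)
  have h00 : CharZero (FractionRing (VR v)) := by
    refine ⟨fun a b hab => ?_⟩
    have h1 := congrArg (FractionRing.algEquiv (VR v) H) hab
    rw [map_natCast, map_natCast] at h1
    exact_mod_cast h1
  have h1 := Ideal.relNorm_singleton (R := VR v) π
  rw [← hπ, Ideal.relNorm_eq_pow_of_isMaximal P (IsLocalRing.maximalIdeal (VR v))] at h1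
  have h2 := Algebra.algebraMap_intNorm (A := VR v) (K := H) (L := K) π
  have h3 : ((Algebra.intNorm (VR v) (integralClosure (VR v) K) π : VR v) : H) =
      Algebra.norm H (π : K) := h2
  rw [← h3]
  refine Z2_ord_pow v _ ?_ _ h1.symm
  rw [h3, Ne, Algebra.norm_eq_zero_iff]
  intro h
  exact hπ0 (Subtype.ext h)

private theorem Z2_lies [CharZero k] [FiniteDimensional H K] (v : Place k H)
    (P : HeightOneSpectrum (integralClosure (VR v) K)) :
    P.asIdeal.LiesOver (IsLocalRing.maximalIdeal (VR v)) := by
  constructor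
  have hp := P.isPrime
  have h1 : (P.asIdeal.under (VR v)).IsPrime := inferInstance
  have h2 : P.asIdeal.under (VR v) ≠ ⊥ := by
    intro h
    exact P.ne_bot (Ideal.eq_bot_of_comap_eq_bot h)
  have h3 : (P.asIdeal.under (VR v)).IsMaximal := h1.isMaximal h2
  exact (IsLocalRing.eq_maximalIdeal h3).symm

private theorem Z2_finite [CharZero k] [FiniteDimensional H K] (v : Place k H) :
    Finite (HeightOneSpectrum (integralClosure (VR v) K)) := by
  have hm0 : IsLocalRing.maximalIdeal (VR v) ≠ ⊥ := IsDiscreteValuationRing.not_a_field _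
  let F : HeightOneSpectrum (integralClosure (VR v) K) →
      {P // P ∈ IsDedekindDomain.primesOverFinset (IsLocalRing.maximalIdeal (VR v))
        (integralClosure (VR v) K)} := fun P =>
    ⟨P.asIdeal, (IsDedekindDomain.mem_primesOverFinset_iff hm0 _).2 ⟨P.isPrime, Z2_lies v P⟩⟩
  refine Finite.of_injective F fun P Q h => ?_
  exact HeightOneSpectrum.ext (congrArg Subtype.val h)

private theorem Z2_pid [CharZero k] [FiniteDimensional H K] (v : Place k H) :
    IsPrincipalIdealRing (integralClosure (VR v) K) := by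
  have h1 := Z2_finite (K := K) v
  apply IsPrincipalIdealRing.of_finite_primes
  refine ((Set.finite_range fun P : HeightOneSpectrum (integralClosure (VR v) K) =>
    P.asIdeal).insert ⊥).subset fun P hP => ?_
  by_cases h : P = ⊥
  · exact Or.inl h
  · exact Or.inr ⟨⟨P, hP, h⟩, rfl⟩

/-- the order of the norm -/
private theorem Z2_norm [CharZero k] [FiniteDimensional H K] (v : Place k H)
    [Fintype (HeightOneSpectrum (integralClosure (VR v) K))] (x : K) (hx : x ≠ 0) :
    v.ord (Algebra.norm H x) = ∑ P : HeightOneSpectrum (integralClosure (VR v) K),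
      (P.asIdeal.inertiaDeg (VR v) : ℤ) * (ofHOS (k := k) (H := K) P).ord x := by
  have hpid := Z2_pid (K := K) v
  have hadd : ∀ x y : K, x ≠ 0 → y ≠ 0 →
      v.ord (Algebra.norm H x) = ∑ P : HeightOneSpectrum (integralClosure (VR v) K),
        (P.asIdeal.inertiaDeg (VR v) : ℤ) * (ofHOS (k := k) (H := K) P).ord x →
      v.ord (Algebra.norm H y) = ∑ P : HeightOneSpectrum (integralClosure (VR v) K),
        (P.asIdeal.inertiaDeg (VR v) : ℤ) * (ofHOS (k := k) (H := K) P).ord y →
      v.ord (Algebra.norm H (x * y)) = ∑ P : HeightOneSpectrum (integralClosure (VR v) K),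
        (P.asIdeal.inertiaDeg (VR v) : ℤ) * (ofHOS (k := k) (H := K) P).ord (x * y) := by
    intro x y hx hy h1 h2
    rw [map_mul, v.ord_mul _ _ (by rwa [Ne, Algebra.norm_eq_zero_iff])
      (by rwa [Ne, Algebra.norm_eq_zero_iff]), h1, h2, ← Finset.sum_add_distrib]
    refine Finset.sum_congr rfl fun P _ => ?_
    rw [(ofHOS (k := k) (H := K) P).ord_mul _ _ hx hy, mul_add]
  have hB : ∀ b : integralClosure (VR v) K, b ≠ 0 →
      v.ord (Algebra.norm H (b : K)) = ∑ P : HeightOneSpectrum (integralClosure (VR v) K),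
        (P.asIdeal.inertiaDeg (VR v) : ℤ) * (ofHOS (k := k) (H := K) P).ord (b : K) := by
    intro b
    induction b using UniqueFactorizationMonoid.induction_on_prime with
    | h₁ => intro h; exact absurd rfl h
    | h₂ x hu =>
      intro _
      have h1 : ∀ P : HeightOneSpectrum (integralClosure (VR v) K),
          (ofHOS (k := k) (H := K) P).ord (x : K) = 0 := fun P =>
        Z2_ord_out P x fun h => P.isPrime.ne_top (Ideal.eq_top_of_isUnit_mem _ h hu)
      rw [Finset.sum_eq_zero fun P _ => by rw [h1 P, mul_zero]]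
      have h2 := Algebra.algebraMap_intNorm (A := VR v) (K := H) (L := K) x
      have h3 : ((Algebra.intNorm (VR v) (integralClosure (VR v) K) x : VR v) : H) =
          Algebra.norm H (x : K) := h2
      have h4 : IsUnit (Algebra.intNorm (VR v) (integralClosure (VR v) K) x) := hu.map _
      rw [← h3]
      apply Place.ord_eq_zero_of_reg (Algebra.intNorm (VR v) (integralClosure (VR v) K) x).2
      intro hz
      exact (IsLocalRing.mem_maximalIdeal _).1 ((mem_max_iff _).2 hz) h4
    | h₃ a p ha hp ih =>
      intro hpa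
      have hp0 : p ≠ 0 := hp.ne_zero
      refine hadd _ _ (fun h => hp0 (Subtype.ext h)) (fun h => ha (Subtype.ext h)) ?_ (ih ha)
      let P0 : HeightOneSpectrum (integralClosure (VR v) K) :=
        ⟨Ideal.span {p}, (Ideal.span_singleton_prime hp0).2 hp, by
          rwa [Ne, Ideal.span_singleton_eq_bot]⟩
      have hmax : P0.asIdeal.IsMaximal := P0.isMaximal
      have hlies := Z2_lies v P0
      rw [Finset.sum_eq_single P0]
      · have h1 : (ofHOS (k := k) (H := K) P0).ord (p : K) = 1 := Z2_ord_gen P0 p rfl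
        rw [h1, mul_one]
        exact Z2_norm_prime v P0.asIdeal p hp0 rfl
      · intro Q _ hQ
        have h1 : p ∉ Q.asIdeal := by
          intro h
          apply hQ
          apply HeightOneSpectrum.ext
          exact (hmax.eq_of_le Q.isPrime.ne_top ((Ideal.span_singleton_le_iff_mem _).2 h)).symm
        have h2 : (ofHOS (k := k) (H := K) Q).ord (p : K) = 0 := Z2_ord_out Q p h1
        rw [h2, mul_zero]
      · exact fun h => absurd (Finset.mem_univ _) h
  obtain ⟨a, b, hb, hab⟩ := IsFractionRing.div_surjective (A := integralClosure (VR v) K) x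
  have hb0 : b ≠ 0 := nonZeroDivisors.ne_zero hb
  have hbK : (b : K) ≠ 0 := fun h => hb0 (Subtype.ext h)
  have hxb : x * (b : K) = (a : K) := by
    rw [← hab]
    exact div_mul_cancel₀ _ hbK
  have ha0 : a ≠ 0 := by
    rintro rfl
    exact (mul_ne_zero hx hbK) hxb
  have h1 := hB a ha0
  have h2 := hB b hb0
  have h3 : v.ord (Algebra.norm H (a : K)) = v.ord (Algebra.norm H x) +
      v.ord (Algebra.norm H (b : K)) := by
    rw [← hxb, map_mul, v.ord_mul _ _ (by rwa [Ne, Algebra.norm_eq_zero_iff])
      (by rwa [Ne, Algebra.norm_eq_zero_iff])]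
  have h4 : v.ord (Algebra.norm H x) = v.ord (Algebra.norm H (a : K)) -
      v.ord (Algebra.norm H (b : K)) := by linarith
  rw [h4, h1, h2, ← Finset.sum_sub_distrib]
  refine Finset.sum_congr rfl fun P _ => ?_
  rw [← hxb, (ofHOS (k := k) (H := K) P).ord_mul _ _ hx hbK]
  ring

/-- the residue degrees -/
private theorem Z2_deg [CharZero k] [FiniteDimensional H K] (v : Place k H)
    (P : HeightOneSpectrum (integralClosure (VR v) K)) :
    Module.finrank k (RF (ofHOS (k := k) (H := K) P)) =
      P.asIdeal.inertiaDeg (VR v) * Module.finrank k (RF v) := by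
  have hlies := Z2_lies v P
  have hmax : P.asIdeal.IsMaximal := P.isMaximal
  rw [Z2_res, Ideal.inertiaDeg_eq_of_isMaximal (IsLocalRing.maximalIdeal (VR v)) P.asIdeal]
  let _ : Field (VR v ⧸ IsLocalRing.maximalIdeal (VR v)) := Ideal.Quotient.field _
  have htow : IsScalarTower k (VR v ⧸ IsLocalRing.maximalIdeal (VR v))
      (integralClosure (VR v) K ⧸ P.asIdeal) := by
    refine IsScalarTower.of_algebraMap_eq fun c => ?_
    have h1 : algebraMap k (integralClosure (VR v) K) c =
        algebraMap (VR v) (integralClosure (VR v) K) (algebraMap k (VR v) c) := by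
      apply Subtype.ext
      change algebraMap k K c = algebraMap (VR v) K (algebraMap k (VR v) c)
      exact IsScalarTower.algebraMap_apply k (VR v) K c
    exact congrArg (Ideal.Quotient.mk P.asIdeal) h1
  have h1 := Module.finrank_mul_finrank k (VR v ⧸ IsLocalRing.maximalIdeal (VR v))
    (integralClosure (VR v) K ⧸ P.asIdeal)
  rw [← h1, mul_comm]
  rfl

private theorem Z2_towA (v : Place k H) : IsScalarTower k (VR v) H :=
  IsScalarTower.of_algebraMap_eq fun _ => rfl

attribute [local instance] Z2_towA

/-- the places of the primes are over `v` -/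
private theorem Z2_over [CharZero k] [FiniteDimensional H K] (v : Place k H)
    (P : HeightOneSpectrum (integralClosure (VR v) K)) :
    ∃ e : ℤ, 0 < e ∧ ∀ x : H, (ofHOS (k := k) (H := K) P).ord (algebraMap H K x) = e * v.ord x := by
  have hm0 : IsLocalRing.maximalIdeal (VR v) ≠ ⊥ := IsDiscreteValuationRing.not_a_field _
  have hlies := Z2_lies v P
  let vm : HeightOneSpectrum (VR v) :=
    ⟨IsLocalRing.maximalIdeal (VR v), (IsLocalRing.maximalIdeal.isMaximal _).isPrime, hm0⟩
  have hq : v = ofHOS (k := k) (H := H) vm :=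
    eq_ofHOS v (fun r => r.2) vm (fun r => mem_max_iff r)
  have hl : P.asIdeal.LiesOver vm.asIdeal := hlies
  have hpr := P.isPrime
  refine ⟨(Ideal.ramificationIdx' (IsLocalRing.maximalIdeal (VR v)) P.asIdeal : ℤ), ?_, ?_⟩
  · have h2 := Ideal.IsDedekindDomain.ramificationIdx'_ne_zero_of_liesOver
      (p := IsLocalRing.maximalIdeal (VR v)) P.asIdeal hm0
    omega
  · intro f
    by_cases hf : f = 0
    · rw [hf, map_zero, Place.ord_zero, Place.ord_zero, mul_zero]
    have h1 := HeightOneSpectrum.valuation_liesOver (K := H) K vm P f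
    rw [ofHOS_ord (k := k) vm hf, ofHOS_ord (k := k) P ((_root_.map_ne_zero _).2 hf), ← hq,
      ← WithZero.exp_nsmul, WithZero.exp_inj] at h1
    change (Ideal.ramificationIdx' (IsLocalRing.maximalIdeal (VR v)) P.asIdeal) •
      (-v.ord f) = -(ofHOS (k := k) (H := K) P).ord (algebraMap H K f) at h1
    rw [nsmul_eq_mul] at h1
    linarith

/-- a place over `v` is the place of a prime -/
private theorem Z2_prime [CharZero k] [FiniteDimensional H K] (v : Place k H) (w : Place k K)
    (hw : ∃ e : ℤ, 0 < e ∧ ∀ x : H, w.ord (algebraMap H K x) = e * v.ord x) :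
    ∃ P : HeightOneSpectrum (integralClosure (VR v) K), w = ofHOS (k := k) (H := K) P := by
  obtain ⟨e, he, hw⟩ := hw
  have hA : ∀ a : VR v, w.Reg (algebraMap (VR v) K a) := by
    intro a
    by_cases h0 : (a : H) = 0
    · left
      change algebraMap H K (a : H) = 0
      rw [h0, map_zero]
    · right
      change 0 ≤ w.ord (algebraMap H K (a : H))
      rw [hw]
      exact mul_nonneg he.le (a.2.resolve_left h0)
  have hreg : ∀ b : integralClosure (VR v) K, w.Reg (b : K) := fun b => reg_of_integral w hA b.2
  let I : Ideal (integralClosure (VR v) K) :=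
    { carrier := {r | w.Zer (r : K)}
      add_mem' := fun {a b} ha hb => Place.Zer.add ha hb
      zero_mem' := w.zer_zero
      smul_mem' := fun a b hb => Place.Zer.reg_mul (hreg a) hb }
  have hI : ∀ r, r ∈ I ↔ w.Zer (r : K) := fun r => Iff.rfl
  have hIp : I.IsPrime := by
    refine ⟨?_, ?_⟩
    · intro h
      have h1 : (1 : integralClosure (VR v) K) ∈ I := by rw [h]; trivial
      rcases (hI 1).1 h1 with h1 | h1
      · exact one_ne_zero h1
      · have h2 : w.ord ((1 : integralClosure (VR v) K) : K) = 0 := w.ord_one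
        omega
    · intro a b hab
      have hab' : w.Zer ((a : K) * (b : K)) := hab
      rw [hI, hI]
      by_contra hcon
      push Not at hcon
      obtain ⟨h1, h2⟩ := hcon
      have ha0 : (a : K) ≠ 0 := fun h => h1 (Or.inl h)
      have hb0 : (b : K) ≠ 0 := fun h => h2 (Or.inl h)
      have h3 := hab'.resolve_left (mul_ne_zero ha0 hb0)
      rw [w.ord_mul _ _ ha0 hb0, Place.ord_eq_zero_of_reg (hreg a) h1,
        Place.ord_eq_zero_of_reg (hreg b) h2] at h3
      exact lt_irrefl _ h3
  have hI0 : I ≠ ⊥ := by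
    obtain ⟨t, ht⟩ := v.exists_uniformizer
    have ht0 : t ≠ 0 := by
      rintro rfl
      rw [v.ord_zero] at ht
      omega
    intro h
    have h1 : algebraMap (VR v) (integralClosure (VR v) K) ⟨t, Or.inr (by omega)⟩ ∈ I := by
      rw [hI]
      right
      change 0 < w.ord (algebraMap H K t)
      rw [hw, ht]
      omega
    rw [h, Ideal.mem_bot] at h1
    have h2 : algebraMap H K t = 0 := congrArg Subtype.val h1
    exact ht0 ((algebraMap H K).injective (by rw [h2, map_zero]))
  exact ⟨⟨I, hIp, hI0⟩, eq_ofHOS w hreg ⟨I, hIp, hI0⟩ hI⟩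

private theorem Z2_main [CharZero k] [FiniteDimensional H K] (g : K) (hg : g ≠ 0) (v : Place k H)
    (S : Finset (Place k K))
    (h1 : ∀ w ∈ S, ∃ e : ℤ, 0 < e ∧ ∀ x : H, w.ord (algebraMap H K x) = e * v.ord x)
    (h2 : ∀ w : Place k K, (∃ e : ℤ, 0 < e ∧ ∀ x : H, w.ord (algebraMap H K x) = e * v.ord x) →
      w.ord g ≠ 0 → w ∈ S) :
    v.ord (Algebra.norm H g) * (Module.finrank k (RF v) : ℤ) =
      ∑ w ∈ S, w.ord g * (Module.finrank k (RF w) : ℤ) := by
  have hfin := Z2_finite (K := K) v
  let _ : Fintype (HeightOneSpectrum (integralClosure (VR v) K)) := Fintype.ofFinite _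
  let F : HeightOneSpectrum (integralClosure (VR v) K) → Place k K := fun P =>
    ofHOS (k := k) (H := K) P
  have hF : Function.Injective F := by
    intro P Q h
    apply HeightOneSpectrum.ext
    ext r
    have h3 := ofHOS_zer (k := k) (H := K) P r
    have h4 := ofHOS_zer (k := k) (H := K) Q r
    change (F P).Zer _ ↔ r ∈ P.asIdeal at h3
    change (F Q).Zer _ ↔ r ∈ Q.asIdeal at h4
    rw [← h3, ← h4, h]
  have hS : S ⊆ Finset.univ.image F := by
    intro w hw
    obtain ⟨P, hP⟩ := Z2_prime v w (h1 w hw)
    exact Finset.mem_image.2 ⟨P, Finset.mem_univ _, hP.symm⟩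
  rw [Finset.sum_subset hS fun w hw hwS => ?_]
  · rw [Finset.sum_image fun P _ Q _ h => hF h, Z2_norm v g hg, Finset.sum_mul]
    refine Finset.sum_congr rfl fun P _ => ?_
    change _ = (ofHOS (k := k) (H := K) P).ord g *
      (Module.finrank k (RF (ofHOS (k := k) (H := K) P)) : ℤ)
    rw [Z2_deg]
    push_cast
    ring
  · obtain ⟨P, -, rfl⟩ := Finset.mem_image.1 hw
    by_contra h
    apply hwS
    refine h2 _ (Z2_over v P) fun h0 => h ?_
    rw [h0, zero_mul]

private theorem Z2_fin (hH : FunF k 1 H) (hK : FunF k 1 K) : FiniteDimensional H K := by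
  have h1 := hH.trdeg
  have h2 := hK.trdeg
  have h3 := trdeg_add_eq k H (A := K)
  rw [h1, h2] at h3
  have h4 : Algebra.trdeg H K = 0 := by
    have h5 : Algebra.trdeg H K < Cardinal.aleph0 := by
      refine lt_of_le_of_lt ?_ (Cardinal.natCast_lt_aleph0 (n := 1))
      rw [← h3]
      exact le_add_self
    obtain ⟨n, hn⟩ := Cardinal.lt_aleph0.1 h5
    rw [hn] at h3 ⊢
    have h6 : 1 + n = 1 := by exact_mod_cast h3
    have h7 : n = 0 := by omega
    rw [h7, Nat.cast_zero]
  have h5 : Algebra.IsAlgebraic H K := trdeg_eq_zero_iff.1 h4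
  obtain ⟨t, ht, hf⟩ := hK
  have hEss : Algebra.EssFiniteType k K := by
    have e1 : Algebra.EssFiniteType k (IntermediateField.adjoin k (Set.range t)) := by
      rw [IntermediateField.essFiniteType_iff]
      exact ⟨Finset.univ.image t, by rw [Finset.coe_image, Finset.coe_univ, Set.image_univ]⟩
    exact Algebra.EssFiniteType.comp k (IntermediateField.adjoin k (Set.range t)) K
  have hEss' : Algebra.EssFiniteType H K := Algebra.EssFiniteType.of_comp k H K
  exact Algebra.finite_of_essFiniteType_of_isAlgebraic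

end setup

end Z2aux

open Pool.Agent.LibBH2
open Pool.Agent.LibCHd (VR RF Red FunF IsCps)
open Pool.Agent.LibHyp34 (Hyp Pt Pic jP Sp KC DCf gn gen)
open Pool.Agent.LibHD77
open Pool.Agent.LibHD77.Comb (Pat sub Cmp)

variable {k : Type} [Field k] [CharZero k] {H K : Type} [Field H] [Algebra k H] [Field K]
  [Algebra k K]

theorem norm_ord (hH : FunF k 1 H) (hK : FunF k 1 K) (i : H →ₐ[k] K) (g : K) (hg : g ≠ 0) :
    ∃ h : H, h ≠ 0 ∧ ∀ (v : Place k H) (S : Finset (Place k K)),
      (∀ w ∈ S, ∃ e : ℤ, 0 < e ∧ ∀ x, w.ord (i x) = e * v.ord x) →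
      (∀ w : Place k K, (∃ e : ℤ, 0 < e ∧ ∀ x, w.ord (i x) = e * v.ord x) → w.ord g ≠ 0 → w ∈ S) →
      v.ord h * (Module.finrank k (RF v) : ℤ) =
        ∑ w ∈ S, w.ord g * (Module.finrank k (RF w) : ℤ) := by
  let _ : Algebra H K := (i : H →+* K).toAlgebra
  have htow : IsScalarTower k H K := IsScalarTower.of_algebraMap_eq fun x => (i.commutes x).symm
  have hfin : FiniteDimensional H K := Z2_fin (k := k) hH hK
  refine ⟨Algebra.norm H g, by rwa [Ne, Algebra.norm_eq_zero_iff], fun v S h1 h2 => ?_⟩
  exact Z2_main g hg v S h1 h2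

end Pool.Agent.LibHL77
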