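import Pool.Agent.LibHL77.Defs
import Pool.Agent.LibEnd77.ValC

/-!
[HL77 Z1] the sum formula over a field which is not algebraically closed. Proofs. `funF_zero`: `Set.range t = ∅` for `t : Fin 0 → M`. `res_finite`: `trdeg k (RF v) ≤ 0` by `trdeg_resField` (LibCHd/Small.lean, `j = id`);
finiteness: `v` is a place over a prime of the integral closure of `k[φ]` in `K` for a `φ` with `v.ord φ > 0` (`φ` is transcendental, `K / k(φ)` finite), with residue field finite over
`k[φ] / (φ) = k`. `sum_zeros'`, `sum_formula'`: as `sum_zeros`, `sum_formula` in LibEnd77/ValA.lean, ValB.lean, ValC.lean, where `k` is algebraically closed: the places with `v.ord φ > 0` correspond to the primes `P` over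
`(φ)` of the integral closure (`IC k φ`), `v.ord φ` is the ramification index, and `finrank k (RF v)` is the inertia degree (the residue field of the localisation at `P` is
the quotient by `P`); `Ideal.sum_ramification_inertia`. In characteristic zero everything is separable. For `φ` algebraic over `k` all orders are zero. Apply the first formula to `φ` and `φ⁻¹`
(`k(φ) = k(φ⁻¹)`).
-/

open scoped Classical IntermediateField.algebraAdjoinAdjoin
open Polynomial

namespace Pool.Agent.LibHL77.Z1aux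

open Pool.Agent.LibBH2 Pool.Agent.LibEnd77.Val8 IsDedekindDomain
open Pool.Agent.LibCHd (VR RF FunF)

variable {k H : Type} [Field k] [Field H] [Algebra k H]

section hos

variable {R : Type} [CommRing R] [IsDedekindDomain R] [Algebra R H] [IsFractionRing R H]
  [Algebra k R] [IsScalarTower k R H]

theorem quot_of_reg (P : HeightOneSpectrum R) {x : H} (hx : (ofHOS (k := k) P).Reg x) :
    ∃ a s : R, s ∉ P.asIdeal ∧ x * algebraMap R H s = algebraMap R H a := by
  by_cases h0 : x = 0
  · exact ⟨0, 1, (Ideal.ne_top_iff_one _).1 P.isPrime.ne_top, by rw [h0]; simp⟩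
  have hx' := hx.resolve_left h0
  have h1 : x ∈ (P.valuation H).valuationSubring := by
    rw [Valuation.mem_valuationSubring_iff, ofHOS_ord (k := k) P h0, ← WithZero.exp_zero,
      WithZero.exp_le_exp]
    omega
  rw [← HeightOneSpectrum.valuationSubringAtPrime_eq_valuationSubring] at h1
  obtain ⟨a, s, hs, rfl⟩ := h1
  have hs' : s ∉ P.asIdeal := hs
  refine ⟨a, s, hs', ?_⟩
  have hs0 : algebraMap R H s ≠ 0 := by
    intro h
    apply hs'
    rw [(FaithfulSMul.algebraMap_eq_zero_iff R H).1 h]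
    exact Ideal.zero_mem _
  rw [mul_assoc, inv_mul_cancel₀ hs0, mul_one]

theorem reg_R (P : HeightOneSpectrum R) (r : R) :
    (ofHOS (k := k) (H := H) P).Reg (algebraMap R H r) := by
  by_cases h0 : algebraMap R H r = 0
  · exact Or.inl h0
  · right
    have h1 := P.valuation_le_one (K := H) r
    rw [ofHOS_ord (k := k) P h0, ← WithZero.exp_zero, WithZero.exp_le_exp] at h1
    omega

/-- the residues of the elements of the ring -/
noncomputable def resR (k : Type) {H : Type} [Field k] [Field H] [Algebra k H] {R : Type}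
    [CommRing R] [IsDedekindDomain R] [Algebra R H] [IsFractionRing R H]
    [Algebra k R] [IsScalarTower k R H] (P : HeightOneSpectrum R) :
    R →+* RF (ofHOS (k := k) (H := H) P) :=
  (IsLocalRing.residue _).comp
    { toFun := fun r => (⟨algebraMap R H r, reg_R P r⟩ : VR (ofHOS (k := k) (H := H) P))
      map_one' := Subtype.ext (map_one _)
      map_mul' := fun a b => Subtype.ext (map_mul _ a b)
      map_zero' := Subtype.ext (map_zero _)
      map_add' := fun a b => Subtype.ext (map_add _ a b) }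

theorem resR_eq (P : HeightOneSpectrum R) (r : R) : resR k (H := H) P r =
    Pool.Agent.LibCHd.resF (ofHOS (k := k) (H := H) P) (algebraMap R H r) :=
  (Pool.Agent.LibCHd.resF_of_reg (reg_R P r)).symm

theorem resR_zero (P : HeightOneSpectrum R) (r : R) :
    resR k (H := H) P r = 0 ↔ r ∈ P.asIdeal := by
  rw [resR_eq, (Pool.Agent.LibCHd.isRes_resF _).zero_iff _ (reg_R P r), ofHOS_zer]

theorem resR_surj (P : HeightOneSpectrum R) : Function.Surjective (resR k (H := H) P) := by
  intro y
  obtain ⟨⟨z, hz⟩, rfl⟩ := IsLocalRing.residue_surjective y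
  obtain ⟨a, s, hs, h⟩ := quot_of_reg P hz
  haveI : P.asIdeal.IsMaximal := P.isMaximal
  obtain ⟨t, ht⟩ : ∃ t : R, s * t - 1 ∈ P.asIdeal := by
    letI := Ideal.Quotient.field P.asIdeal
    have hne : (Ideal.Quotient.mk P.asIdeal s) ≠ 0 := by
      rwa [Ne, Ideal.Quotient.eq_zero_iff_mem]
    obtain ⟨t, ht⟩ := Ideal.Quotient.mk_surjective (Ideal.Quotient.mk P.asIdeal s)⁻¹
    refine ⟨t, ?_⟩
    rw [← Ideal.Quotient.eq_zero_iff_mem, map_sub, map_mul, ht, map_one, mul_inv_cancel₀ hne,
      sub_self]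
  refine ⟨a * t, ?_⟩
  have hr := Pool.Agent.LibCHd.isRes_resF (ofHOS (k := k) (H := H) P)
  have h1 : resR k (H := H) P (s * t) = 1 := by
    have h2 : resR k (H := H) P (s * t - 1) = 0 := (resR_zero P _).2 ht
    rwa [map_sub, map_one, sub_eq_zero] at h2
  have h3 : resR k (H := H) P a = IsLocalRing.residue _ ⟨z, hz⟩ * resR k (H := H) P s := by
    rw [resR_eq P a, ← h, hr.mul _ _ hz (reg_R P s), resR_eq P s,
      Pool.Agent.LibCHd.resF_of_reg hz]
  rw [map_mul, h3, mul_assoc, ← map_mul, h1, mul_one]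

/-- the residue field -/
noncomputable def resE (P : HeightOneSpectrum R) :
    (R ⧸ P.asIdeal) ≃+* RF (ofHOS (k := k) (H := H) P) :=
  RingEquiv.ofBijective (Ideal.Quotient.lift P.asIdeal (resR k (H := H) P)
    fun a ha => (resR_zero P a).2 ha) ⟨by
      rw [injective_iff_map_eq_zero]
      intro y hy
      obtain ⟨r, rfl⟩ := Ideal.Quotient.mk_surjective y
      rw [Ideal.Quotient.lift_mk, resR_zero] at hy
      exact Ideal.Quotient.eq_zero_iff_mem.2 hy, by
      intro y
      obtain ⟨r, rfl⟩ := resR_surj P y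
      exact ⟨Ideal.Quotient.mk _ r, Ideal.Quotient.lift_mk _ _ _⟩⟩

theorem resE_mk (P : HeightOneSpectrum R) (r : R) :
    resE (k := k) (H := H) P (Ideal.Quotient.mk _ r) = resR k (H := H) P r := rfl

theorem resE_const (P : HeightOneSpectrum R) (c : k) :
    resE (k := k) (H := H) P (Ideal.Quotient.mk _ (algebraMap k R c)) =
      algebraMap k (RF (ofHOS (k := k) (H := H) P)) c := by
  rw [resE_mk, resR_eq, ← IsScalarTower.algebraMap_apply,
    (Pool.Agent.LibCHd.isRes_resF _).const]

end hos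

section main

variable {φ : H} (hφ : Transcendental k φ)
  [FiniteDimensional (IntermediateField.adjoin k {φ}) H]
  [Algebra.IsSeparable (IntermediateField.adjoin k {φ}) H]

include hφ in
theorem inertia_eq (P : Ideal (IC k φ)) (hP : P.IsPrime) (h : P ≠ ⊥)
    (hl : P.LiesOver (Ideal.span {gen k φ})) :
    Ideal.inertiaDeg' (Ideal.span {gen k φ}) P =
      Module.finrank k (RF (ofHOS (k := k) (H := H) (hos P hP h))) := by
  haveI := max hφ
  rw [Ideal.inertiaDeg'_algebraMap]
  symm
  refine Algebra.finrank_eq_of_equiv_equiv (quotEquiv hφ)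
    (resE (k := k) (H := H) (hos P hP h)).symm ?_
  ext c
  rw [RingHom.comp_apply, RingHom.comp_apply]
  apply (resE (k := k) (H := H) (hos P hP h)).injective
  change _ = (resE (k := k) (H := H) (hos P hP h))
    ((resE (k := k) (H := H) (hos P hP h)).symm (algebraMap k _ c))
  rw [RingEquiv.apply_symm_apply, ← resE_const]
  rfl

include hφ in
theorem fin_res (v : Place k H) (hv : 0 < v.ord φ) : FiniteDimensional k (RF v) := by
  have hl := primeOf_liesOver hφ v hv
  have hpr := primeOf_isPrime (φ := φ) v (Or.inr hv.le)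
  haveI := hl
  haveI hmax := max hφ
  have hb : primeOf (φ := φ) v (Or.inr hv.le) ≠ ⊥ :=
    Ideal.ne_bot_of_liesOver_of_ne_bot (ne_bot hφ) _
  have hv' : v = ofHOS (hos _ hpr hb) := by
    apply eq_ofHOS v (reg_IC v (Or.inr hv.le))
    intro r
    exact mem_primeOf v (Or.inr hv.le) r
  have hpos : 0 < Ideal.inertiaDeg' (Ideal.span {gen k φ}) (primeOf (φ := φ) v (Or.inr hv.le)) :=
    Ideal.inertiaDeg'_pos _ _
  rw [inertia_eq hφ _ hpr hb hl, ← hv'] at hpos
  exact Module.finite_of_finrank_pos hpos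

include hφ in
/-- The number of zeros. -/
theorem sum_zeros : ∃ S : Finset (Place k H), (∀ v, v ∈ S ↔ 0 < v.ord φ) ∧
    ∑ v ∈ S, v.ord φ * (Module.finrank k (RF v) : ℤ) =
      Module.finrank (IntermediateField.adjoin k {φ}) H := by
  haveI hmax := max hφ
  have hp0 := ne_bot hφ
  let S₀ := IsDedekindDomain.primesOverFinset (Ideal.span {gen k φ}) (IC k φ)
  have hS : ∀ P, P ∈ S₀ ↔ P.IsPrime ∧ P.LiesOver (Ideal.span {gen k φ}) := fun P =>
    IsDedekindDomain.mem_primesOverFinset_iff hp0 _
  have hb : ∀ P ∈ S₀, P ≠ ⊥ := by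
    intro P hP
    haveI := ((hS P).1 hP).2
    exact Ideal.ne_bot_of_liesOver_of_ne_bot hp0 P
  let f : S₀ → Place k H := fun P => ofHOS (hos P.1 ((hS P.1).1 P.2).1 (hb P.1 P.2))
  have hinj : Function.Injective f := by
    intro P Q h
    apply Subtype.ext
    ext r
    have h1 := ofHOS_zer (k := k) (H := H) (hos P.1 ((hS P.1).1 P.2).1 (hb P.1 P.2)) r
    have h2 := ofHOS_zer (k := k) (H := H) (hos Q.1 ((hS Q.1).1 Q.2).1 (hb Q.1 Q.2)) r
    change (f P).Zer _ ↔ r ∈ P.1 at h1
    change (f Q).Zer _ ↔ r ∈ Q.1 at h2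
    rw [← h1, ← h2, h]
  refine ⟨S₀.attach.image f, ?_, ?_⟩
  · intro v
    constructor
    · intro hv
      obtain ⟨P, -, rfl⟩ := Finset.mem_image.1 hv
      have h1 := ((hS P.1).1 P.2)
      haveI := h1.1
      haveI := h1.2
      change 0 < (ofHOS (k := k) (H := H) (hos P.1 h1.1 (hb P.1 P.2))).ord φ
      rw [ord_gen hφ P.1 h1.1 (hb P.1 P.2) h1.2]
      have h2 := Ideal.IsDedekindDomain.ramificationIdx'_ne_zero_of_liesOver
        (p := Ideal.span {gen k φ}) P.1 hp0
      omega
    · intro hv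
      have hl := primeOf_liesOver hφ v hv
      have hpr := primeOf_isPrime (φ := φ) v (Or.inr hv.le)
      have hm : primeOf (φ := φ) v (Or.inr hv.le) ∈ S₀ := (hS _).2 ⟨hpr, hl⟩
      refine Finset.mem_image.2 ⟨⟨_, hm⟩, Finset.mem_attach _ _, ?_⟩
      symm
      apply eq_ofHOS v (reg_IC v (Or.inr hv.le))
      intro r
      exact mem_primeOf v (Or.inr hv.le) r
  · rw [Finset.sum_image fun P _ Q _ h => hinj h]
    have h1 : ∀ P ∈ S₀.attach, (f P).ord φ * (Module.finrank k (RF (f P)) : ℤ) =
        (fun Q : Ideal (IC k φ) => ((Ideal.ramificationIdx' (Ideal.span {gen k φ}) Q *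
          Ideal.inertiaDeg' (Ideal.span {gen k φ}) Q : ℕ) : ℤ)) P.1 := by
      intro P _
      have h1 := ((hS P.1).1 P.2)
      change (ofHOS (k := k) (H := H) (hos P.1 h1.1 (hb P.1 P.2))).ord φ *
        (Module.finrank k (RF (ofHOS (k := k) (H := H) (hos P.1 h1.1 (hb P.1 P.2)))) : ℤ) =
        ((Ideal.ramificationIdx' (Ideal.span {gen k φ}) P.1 *
          Ideal.inertiaDeg' (Ideal.span {gen k φ}) P.1 : ℕ) : ℤ)
      rw [ord_gen hφ P.1 h1.1 (hb P.1 P.2) h1.2, ← inertia_eq hφ P.1 h1.1 (hb P.1 P.2) h1.2,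
        Nat.cast_mul]
    rw [Finset.sum_congr rfl h1, Finset.sum_attach S₀ (fun Q : Ideal (IC k φ) =>
      ((Ideal.ramificationIdx' (Ideal.span {gen k φ}) Q *
          Ideal.inertiaDeg' (Ideal.span {gen k φ}) Q : ℕ) : ℤ)), ← Nat.cast_sum,
      Ideal.sum_ramification_inertia (IC k φ) (IntermediateField.adjoin k {φ}) H hp0]

end main

end Pool.Agent.LibHL77.Z1aux

namespace Pool.Agent.LibHL77

open Pool.Agent.LibBH2
open Pool.Agent.LibCHd (VR RF Red FunF IsCps)
open Pool.Agent.LibHyp34 (Hyp Pt Pic jP Sp KC DCf gn gen)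
open Pool.Agent.LibHD77
open Pool.Agent.LibHD77.Comb (Pat sub Cmp)

variable {k : Type} [Field k]

theorem funF_zero {M : Type} [Field M] [Algebra k M] : FunF k 0 M ↔ FiniteDimensional k M := by
  constructor
  · rintro ⟨t, -, h⟩
    have h1 : Set.range t = ∅ := by
      rw [Set.range_eq_empty_iff]
      infer_instance
    rw [h1] at h
    rw [IntermediateField.adjoin_empty] at h
    exact Module.Finite.of_equiv_equiv (IntermediateField.botEquiv k M).toRingEquiv
      (RingEquiv.refl M) (by ext x; obtain ⟨y, rfl⟩ := (IntermediateField.botEquiv k M).symm.surjective x; simp)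
  · intro h
    refine ⟨fun e => e.elim0, ?_, ?_⟩
    · rw [algebraicIndependent_empty_type_iff]
      exact (algebraMap k M).injective
    · exact Module.Finite.of_restrictScalars_finite k _ M

variable [CharZero k] {K : Type} [Field K] [Algebra k K]

theorem Z1_ff (hK : FunF k 1 K) : Pool.Agent.LibQC8.IsFunctionField k K := by
  obtain ⟨t, ht, h⟩ := hK
  refine ⟨t 0, ht.transcendental 0, ?_⟩
  have h1 : Set.range t = {t 0} := by
    ext z
    simp only [Set.mem_range, Set.mem_singleton_iff]
    constructor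
    · rintro ⟨i, rfl⟩
      rw [Subsingleton.elim i 0]
    · rintro rfl
      exact ⟨0, rfl⟩
  rw [h1] at h
  exact h

theorem Z1_ord_alg (v : Place k K) {x : K} (hx : IsAlgebraic k x) : v.ord x = 0 := by
  have h1 : v.Reg x := Pool.Agent.LibEnd77.Val8.reg_of_integral (A := k) v
    (fun a => v.reg_const a) hx.isIntegral
  have h2 : v.Reg x⁻¹ := Pool.Agent.LibEnd77.Val8.reg_of_integral (A := k) v
    (fun a => v.reg_const a) hx.inv.isIntegral
  by_cases h0 : x = 0
  · rw [h0, v.ord_zero]
  have h3 := h1.resolve_left h0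
  have h4 := h2.resolve_left (inv_ne_zero h0)
  rw [v.ord_inv] at h4
  omega

theorem res_finite (hK : FunF k 1 K) (v : Place k K) : FunF k 0 (RF v) := by
  rw [funF_zero]
  obtain ⟨φ, hφ⟩ := v.exists_uniformizer
  have htr : Transcendental k φ := by
    intro h
    rw [Z1_ord_alg v h] at hφ
    omega
  haveI := Pool.Agent.LibEnd77.Val8.finite_adjoin (Z1_ff hK) htr
  exact Z1aux.fin_res htr v (by omega)

theorem sum_zeros' (hK : FunF k 1 K) (φ : K) (hφ : Transcendental k φ) :
    ∃ S : Finset (Place k K), (∀ v, v ∈ S ↔ 0 < v.ord φ) ∧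
      ∑ v ∈ S, v.ord φ * (Module.finrank k (RF v) : ℤ) =
        Module.finrank (IntermediateField.adjoin k {φ}) K := by
  haveI := Pool.Agent.LibEnd77.Val8.finite_adjoin (Z1_ff hK) hφ
  exact Z1aux.sum_zeros hφ

theorem sum_formula' (hK : FunF k 1 K) (g : K) (S : Finset (Place k K))
    (hS : ∀ v : Place k K, v.ord g ≠ 0 → v ∈ S) :
    ∑ v ∈ S, v.ord g * (Module.finrank k (RF v) : ℤ) = 0 := by
  by_cases ha : IsAlgebraic k g
  · refine Finset.sum_eq_zero fun v _ => ?_
    rw [Z1_ord_alg v ha, zero_mul]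
  obtain ⟨A, hA, h1⟩ := sum_zeros' hK g ha
  obtain ⟨B, hB, h2⟩ := sum_zeros' hK g⁻¹ (Pool.Agent.LibEnd77.Val8.transcendental_inv ha)
  have h3 : Module.finrank (IntermediateField.adjoin k {g⁻¹}) K =
      Module.finrank (IntermediateField.adjoin k {g}) K := by
    rw [Pool.Agent.LibEnd77.Val8.adjoin_inv]
  rw [h3, ← h1] at h2
  have hAS : A ⊆ S := fun v hv => hS v ((hA v).1 hv).ne'
  have hBS : B ⊆ S := fun v hv => hS v (by
    have := (hB v).1 hv
    rw [v.ord_inv] at this
    omega)
  have hdis : Disjoint A B := by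
    rw [Finset.disjoint_left]
    intro v hv hv'
    have h4 := (hA v).1 hv
    have h5 := (hB v).1 hv'
    rw [v.ord_inv] at h5
    omega
  rw [← Finset.sum_subset (Finset.union_subset hAS hBS), Finset.sum_union hdis, ← h2,
    ← Finset.sum_add_distrib]
  · refine Finset.sum_eq_zero fun v _ => ?_
    rw [v.ord_inv]
    ring
  · intro v _ hv
    rw [Finset.mem_union, not_or, hA, hB, v.ord_inv] at hv
    have : v.ord g = 0 := by omega
    rw [this, zero_mul]

end Pool.Agent.LibHL77
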