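import Pool.Agent.LibHL77.Defs
import Pool.Agent.LibCHd.FunFrac

/-!
[HL77 A1] base change to `k(T_1, T_2)`. Proofs. `exists_be`: `M' = FractionRing (MvPolynomial (Fin 2) M)`, `i`
the constants, the `Lf k`-algebra structure by `IsFractionRing.lift` of `MvPolynomial.map (algebraMap k M)` (injective)
followed by `algebraMap`; `gen`: every element is a quotient of polynomials in the variables with coefficients
in `M`; `ind`: `eval₂ i (variables) G = algebraMap _ _ G`. `be_funF`: if `t_1, ..., t_d` is a transcendence basis of
`M / k` with `M / k(t)` finite, then `i t_1, ..., i t_d` are algebraically independent over `Lf k` (a relation gives, after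
multiplication by a common denominator in `k[T_1,T_2]`, a polynomial relation over `k` between the `i t_e` and the `T_j`;
by `ind` its coefficients, as a polynomial in the `T_j`, vanish, which are relations between the `t_e` over `k`), and
`M' = Lf k(i M)` is finite over `Lf k(i t)` (a finite set of generators of `M` over `k(t)` generates, algebraic).
-/

open scoped Classical
open Polynomial

namespace Pool.Agent.LibHL77

open Pool.Agent.LibBH2
open Pool.Agent.LibCHd (VR RF Red FunF)
open Pool.Agent.LibHyp34 (Hyp Pt Pic jP Sp KC DCf gn)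
open Pool.Agent.LibHD77

variable {k : Type} [Field k]

/-- the embedding `k(T_1, T_2) → M(T_1, T_2)` -/
private noncomputable def A1_emb (M : Type) [Field M] [Algebra k M] :
    Lf k →+* FractionRing (MvPolynomial (Fin 2) M) :=
  IsFractionRing.lift (A := MvPolynomial (Fin 2) k) (K := Lf k)
    (g := (algebraMap (MvPolynomial (Fin 2) M) (FractionRing (MvPolynomial (Fin 2) M))).comp
      (MvPolynomial.map (algebraMap k M)))
    ((IsFractionRing.injective (MvPolynomial (Fin 2) M)
      (FractionRing (MvPolynomial (Fin 2) M))).comp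
        (MvPolynomial.map_injective _ (algebraMap k M).injective))

private theorem A1_emb_alg (M : Type) [Field M] [Algebra k M] (p : MvPolynomial (Fin 2) k) :
    A1_emb M (algebraMap (MvPolynomial (Fin 2) k) (Lf k) p) =
      algebraMap (MvPolynomial (Fin 2) M) (FractionRing (MvPolynomial (Fin 2) M))
        (MvPolynomial.map (algebraMap k M) p) := by
  rw [A1_emb, IsFractionRing.lift_algebraMap]
  rfl

theorem exists_be (M : Type) [Field M] [Algebra k M] :
    ∃ (M' : Type) (_ : Field M') (_ : Algebra (Lf k) M') (i : EHom k (Lf k) M M'), BE i := by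
  let _ : Algebra (Lf k) (FractionRing (MvPolynomial (Fin 2) M)) := (A1_emb M).toAlgebra
  have halg : ∀ x : Lf k, algebraMap (Lf k) (FractionRing (MvPolynomial (Fin 2) M)) x =
      A1_emb M x := fun _ => rfl
  let j : EHom k (Lf k) M (FractionRing (MvPolynomial (Fin 2) M)) :=
    { f := (algebraMap (MvPolynomial (Fin 2) M) (FractionRing (MvPolynomial (Fin 2) M))).comp
        MvPolynomial.C
      comm := fun c => by
        rw [halg, IsScalarTower.algebraMap_apply k (MvPolynomial (Fin 2) k) (Lf k), A1_emb_alg,
          MvPolynomial.algebraMap_eq, MvPolynomial.map_C]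
        rfl }
  have hjf : ∀ m : M, j.f m = algebraMap (MvPolynomial (Fin 2) M)
      (FractionRing (MvPolynomial (Fin 2) M)) (MvPolynomial.C m) := fun _ => rfl
  have htt : ∀ l : Fin 2, algebraMap (Lf k) (FractionRing (MvPolynomial (Fin 2) M)) (tt k l) =
      algebraMap (MvPolynomial (Fin 2) M) (FractionRing (MvPolynomial (Fin 2) M))
        (MvPolynomial.X l) := fun l => by
    rw [halg, tt, A1_emb_alg, MvPolynomial.map_X]
  have hev : ∀ G : MvPolynomial (Fin 2) M,
      G.eval₂ j.f (fun l => algebraMap (Lf k) (FractionRing (MvPolynomial (Fin 2) M)) (tt k l)) =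
        algebraMap (MvPolynomial (Fin 2) M) (FractionRing (MvPolynomial (Fin 2) M)) G := by
    intro G
    induction G using MvPolynomial.induction_on with
    | C a => rw [MvPolynomial.eval₂_C, hjf]
    | add p q hp hq => rw [MvPolynomial.eval₂_add, hp, hq, map_add]
    | mul_X p l hp => rw [MvPolynomial.eval₂_mul, MvPolynomial.eval₂_X, hp, htt, map_mul]
  refine ⟨FractionRing (MvPolynomial (Fin 2) M), inferInstance, inferInstance, j, ?_, ?_⟩
  · rw [eq_top_iff]
    have hpol : ∀ G : MvPolynomial (Fin 2) M,
        algebraMap (MvPolynomial (Fin 2) M) (FractionRing (MvPolynomial (Fin 2) M)) G ∈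
          IntermediateField.adjoin (Lf k) (Set.range j.f) := by
      intro G
      induction G using MvPolynomial.induction_on with
      | C a =>
        rw [← hjf]
        exact IntermediateField.subset_adjoin _ _ ⟨a, rfl⟩
      | add p q hp hq =>
        rw [map_add]
        exact add_mem hp hq
      | mul_X p l hp =>
        rw [map_mul, ← htt]
        exact mul_mem hp (IntermediateField.algebraMap_mem _ _)
    intro x _
    obtain ⟨a, b, -, rfl⟩ := IsFractionRing.div_surjective (A := MvPolynomial (Fin 2) M) x
    exact div_mem (hpol a) (hpol b)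
  · intro G hG h
    rw [hev] at h
    exact hG ((IsFractionRing.injective (MvPolynomial (Fin 2) M)
      (FractionRing (MvPolynomial (Fin 2) M))) (by rw [h, map_zero]))

theorem be_funF {M M' : Type} [Field M] [Algebra k M] [Field M'] [Algebra (Lf k) M']
    {i : EHom k (Lf k) M M'} (h : BE i) {d : ℕ} (hd : FunF k d M) : FunF (Lf k) d M' := by
  obtain ⟨t, ht, hfin⟩ := hd
  let _ : Algebra M M' := i.f.toAlgebra
  let _ : Algebra (MvPolynomial (Fin 2) k) M' :=
    ((algebraMap (Lf k) M').comp (algebraMap (MvPolynomial (Fin 2) k) (Lf k))).toAlgebra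
  let _ : Algebra k M' := ((algebraMap (Lf k) M').comp (algebraMap k (Lf k))).toAlgebra
  have T1 : IsScalarTower k M M' := IsScalarTower.of_algebraMap_eq fun x => (i.comm x).symm
  have T2 : IsScalarTower (MvPolynomial (Fin 2) k) (Lf k) M' :=
    IsScalarTower.of_algebraMap_eq fun _ => rfl
  have T3 : IsScalarTower k (Lf k) M' := IsScalarTower.of_algebraMap_eq fun _ => rfl
  let y : Fin 2 → M' := fun l => algebraMap (Lf k) M' (tt k l)
  have hyM : AlgebraicIndependent M y := by
    rw [algebraicIndependent_iff]
    intro G hG
    by_contra hne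
    exact h.ind G hne hG
  have hs := ht.sumElim_comp hyM
  have hs' : AlgebraicIndependent k (Sum.elim (algebraMap M M' ∘ t) y) := by
    have h1 := hs.comp (Equiv.sumComm (Fin d) (Fin 2)) (Equiv.injective _)
    have h2 : (Sum.elim y (algebraMap M M' ∘ t)) ∘ (Equiv.sumComm (Fin d) (Fin 2)) =
        Sum.elim (algebraMap M M' ∘ t) y := by
      ext (_ | _) <;> rfl
    rwa [h2] at h1
  obtain ⟨hy, hty⟩ := AlgebraicIndependent.sumElim_iff.1 hs'
  have hpol : AlgebraicIndependent (MvPolynomial (Fin 2) k) (algebraMap M M' ∘ t) := by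
    have h1 := hty.ringHom_of_comp_eq (f := (hy.aevalEquiv.symm : _ ≃ₐ[k] _).toRingEquiv.toRingHom)
      (g := RingHom.id M') (S := MvPolynomial (Fin 2) k) (B := M')
      hy.aevalEquiv.symm.surjective Function.injective_id ?_
    · exact h1
    · refine RingHom.ext fun p => ?_
      obtain ⟨P, rfl⟩ := hy.aevalEquiv.surjective p
      change algebraMap (MvPolynomial (Fin 2) k) M' (hy.aevalEquiv.symm (hy.aevalEquiv P)) =
        algebraMap (Algebra.adjoin k (Set.range y)) M' (hy.aevalEquiv P)
      rw [AlgEquiv.symm_apply_apply, hy.algebraMap_aevalEquiv]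
      change algebraMap (Lf k) M' (algebraMap (MvPolynomial (Fin 2) k) (Lf k) P) = _
      clear hty hs' hs
      induction P using MvPolynomial.induction_on with
      | C a =>
        rw [MvPolynomial.aeval_C, ← MvPolynomial.algebraMap_eq,
          ← IsScalarTower.algebraMap_apply k (MvPolynomial (Fin 2) k) (Lf k)]
        rfl
      | add p q hp hq => rw [map_add, map_add, map_add, hp, hq]
      | mul_X p l hp => rw [map_mul, map_mul, map_mul, hp, MvPolynomial.aeval_X]; rfl
  have hA : Algebra.IsAlgebraic (MvPolynomial (Fin 2) k) (Lf k) :=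
    IsLocalization.isAlgebraic (S := Lf k) (M := nonZeroDivisors (MvPolynomial (Fin 2) k)) ..
  have hL : AlgebraicIndependent (Lf k) (algebraMap M M' ∘ t) := hpol.extendScalars (Lf k)
  refine ⟨algebraMap M M' ∘ t, hL, ?_⟩
  set E := IntermediateField.adjoin (Lf k) (Set.range (algebraMap M M' ∘ t)) with hE
  have hmem : ∀ l, (IsScalarTower.toAlgHom k M M') (t l) ∈ E.restrictScalars k := fun l => by
    change algebraMap M M' (t l) ∈ E
    exact IntermediateField.subset_adjoin _ _ ⟨l, rfl⟩
  have hS := Pool.Agent.LibCHd.funF_image (IsScalarTower.toAlgHom k M M') t hfin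
    (E.restrictScalars k) hmem
  obtain ⟨S, hS1, hS2⟩ := hS
  have htop : IntermediateField.adjoin E (S : Set M') = ⊤ := by
    rw [eq_top_iff]
    intro x _
    have h3 : IntermediateField.adjoin (Lf k) (Set.range i.f) ≤
        (IntermediateField.adjoin E (S : Set M')).restrictScalars (Lf k) := by
      rw [IntermediateField.adjoin_le_iff]
      rintro _ ⟨m, rfl⟩
      exact hS2 m
    rw [h.gen] at h3
    exact h3 (IntermediateField.mem_top (x := x))
  have hfin' : FiniteDimensional E (IntermediateField.adjoin E (S : Set M')) := by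
    have : Finite ↥(S : Set M') := S.finite_toSet.to_subtype
    exact IntermediateField.finiteDimensional_adjoin fun x hx => hS1 x hx
  rw [htop] at hfin'
  exact Module.Finite.equiv (IntermediateField.topEquiv (F := E) (E := M')).toLinearEquiv

end Pool.Agent.LibHL77
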