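import Pool.Agent.LibHL77.A3

/-!
[HL77 A4] the section of a variety which is dominated by another one. Proof. `NC k φ` by `he_nc` is not needed. By
`he_free` for `i`: `M' = i(M)(T_j)` with `T_j` transcendental over `i(M)`, `φ j'.succ ≠ 0`. In `N'`: `T_j` is transcendental
over `N`: by `he_free` for `i'` one of the variables is; if it is not `T_j` then `T_j'` is transcendental over `N` and
`T_j = - (φ 0 + T_j' φ j'.succ) / φ j.succ` (with `φ j.succ ≠ 0`) is a polynomial of degree one in `T_j'` since `φ j'.succ ≠ 0`, so transcendental.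
Define `σ' (P(T_j) / Q(T_j)) = (σ P)(T_j) / (σ Q)(T_j)` (lift to the fraction field of `M[X]`, `M' ≃ RatFunc M`); it is
`Lf k`-linear because `T_j' ` goes to `T_j'` (`rel`) and `Lf k` is generated by `T_1, T_2`. Degree: `N' = N(T)`,
`σ' M' = σ(M)(T)`: `[N(T) : σ(M)(T)] = [N : σ(M)]` (a basis of `N` over `σ M` is a basis; if the degree is infinite,
linearly independent elements stay linearly independent; a finite algebraic extension: `N ⊗ M(T)` is a field).
For `BE` the same with `T_1, T_2`.
-/

open scoped Classical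
open Polynomial

namespace Pool.Agent.LibHL77

open Pool.Agent.LibBH2
open Pool.Agent.LibCHd (VR RF Red FunF)
open Pool.Agent.LibHyp34 (Hyp Pt Pic jP Sp KC DCf gn)
open Pool.Agent.LibHD77

/-- extension of an injective homomorphism to the fraction fields and its degree -/
theorem a4_ext {A K B L : Type} [CommRing A] [Field K] [CommRing B] [Field L] [Algebra A B]
    (eA : A →+* K) (hA : Function.Injective eA) (hAs : ∀ z, ∃ P Q, z = eA P / eA Q)
    (eB : B →+* L) (hB : Function.Injective eB) (hBs : ∀ z, ∃ P Q, z = eB P / eB Q)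
    (hτ : Function.Injective (algebraMap A B)) :
    ∃ σ' : K →+* L, (∀ a, σ' (eA a) = eB (algebraMap A B a)) ∧
      @Module.finrank K L _ _ σ'.toAlgebra.toModule = Module.finrank A B := by
  letI algA : Algebra A K := eA.toAlgebra
  letI algB : Algebra B L := eB.toAlgebra
  letI algAL : Algebra A L := (eB.comp (algebraMap A B)).toAlgebra
  haveI : IsScalarTower A B L := IsScalarTower.of_algebraMap_eq fun _ => rfl
  haveI : FaithfulSMul A K := (faithfulSMul_iff_algebraMap_injective A K).2 hA
  haveI : FaithfulSMul B L := (faithfulSMul_iff_algebraMap_injective B L).2 hB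
  haveI : IsFractionRing A K := IsFractionRing.of_field A K hAs
  haveI : IsFractionRing B L := IsFractionRing.of_field B L hBs
  have hinj : Function.Injective (eB.comp (algebraMap A B)) := hB.comp hτ
  refine ⟨IsFractionRing.lift (K := K) hinj, fun a => IsFractionRing.lift_algebraMap hinj a, ?_⟩
  letI algKL : Algebra K L := (IsFractionRing.lift (K := K) hinj).toAlgebra
  haveI : IsScalarTower A K L := IsScalarTower.of_algebraMap_eq fun a =>
    (IsFractionRing.lift_algebraMap hinj a).symm
  exact IsFractionRing.finrank_eq A K B L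

section

variable {k : Type} [Field k] {M N M' N' : Type} [Field M] [Algebra k M] [Field N] [Algebra k N]
  [Field M'] [Algebra (Lf k) M'] [Field N'] [Algebra (Lf k) N']
  {i : EHom k (Lf k) M M'} {i' : EHom k (Lf k) N N'}

theorem a4_finrank_range {K M N : Type} [Field K] [Field M] [Field N] [Algebra K M] [Algebra K N] (σ : M →ₐ[K] N) :
    Module.finrank σ.fieldRange N = @Module.finrank M N _ _ (σ : M →+* N).toAlgebra.toModule := by
  letI : Algebra M N := (σ : M →+* N).toAlgebra
  exact (Algebra.finrank_eq_of_equiv_equiv σ.equivFieldRange.toRingEquiv (RingEquiv.refl N)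
    (by ext x; rfl)).symm

/-- a homomorphism which is the identity on the constants and on the variables -/
theorem a4_lin (σ : M' →+* N') (hc : ∀ c : k, σ (algebraMap (Lf k) M' (algebraMap k (Lf k) c)) =
      algebraMap (Lf k) N' (algebraMap k (Lf k) c))
    (ht : ∀ j, σ (algebraMap (Lf k) M' (tt k j)) = algebraMap (Lf k) N' (tt k j)) (x : Lf k) :
    σ (algebraMap (Lf k) M' x) = algebraMap (Lf k) N' x := by
  have h : σ.comp (algebraMap (Lf k) M') = algebraMap (Lf k) N' := by
    apply IsLocalization.ringHom_ext (nonZeroDivisors (MvPolynomial (Fin 2) k))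
    apply MvPolynomial.ringHom_ext
    · intro c
      have h1 : algebraMap (MvPolynomial (Fin 2) k) (Lf k) (MvPolynomial.C c) = algebraMap k (Lf k) c := by
        rw [IsScalarTower.algebraMap_apply k (MvPolynomial (Fin 2) k) (Lf k)]
        rfl
      simp only [RingHom.comp_apply]
      rw [h1]
      exact hc c
    · intro j
      exact ht j
  exact RingHom.congr_fun h x

/-- the other variable is also free if its coefficient is not zero -/
theorem a4_free {φ : Fin 3 → M} (h : HE i φ) {j j' : Fin 2} (hjj : j ≠ j') (hj' : φ j'.succ ≠ 0) :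
    (∀ G : M[X], G ≠ 0 → G.eval₂ i.f (algebraMap (Lf k) M' (tt k j)) ≠ 0) ∧
      algebraMap (Lf k) M' (tt k j') = - (i.f (φ 0) + algebraMap (Lf k) M' (tt k j) *
        i.f (φ j.succ)) / i.f (φ j'.succ) ∧
      ∀ z : M', ∃ P Q : M[X],
        z = P.eval₂ i.f (algebraMap (Lf k) M' (tt k j)) / Q.eval₂ i.f (algebraMap (Lf k) M' (tt k j)) := by
  have hj'f : i.f (φ j'.succ) ≠ 0 := by
    rw [Ne, map_eq_zero]
    exact hj'
  have hrel := a3_rel h hjj
  have htj' : algebraMap (Lf k) M' (tt k j') = - (i.f (φ 0) + algebraMap (Lf k) M' (tt k j) *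
        i.f (φ j.succ)) / i.f (φ j'.succ) := by
    rw [eq_div_iff hj'f]
    linear_combination hrel
  obtain ⟨l, l', hll, hl', hfree, -, hz⟩ := he_free h ⟨_, hj'⟩
  have hcase : (l = j ∧ l' = j') ∨ (l = j' ∧ l' = j) := by omega
  rcases hcase with ⟨rfl, rfl⟩ | ⟨rfl, rfl⟩
  · exact ⟨hfree, htj', fun z => by
      obtain ⟨P, Q, _, hPQ⟩ := hz z
      exact ⟨P, Q, hPQ⟩⟩
  · -- now `l = j'`, `l' = j`
    rename_i l l'
    have hl'f : i.f (φ l'.succ) ≠ 0 := by
      rw [Ne, map_eq_zero]
      exact hl'
    have htl' : algebraMap (Lf k) M' (tt k l') = - (i.f (φ 0) + algebraMap (Lf k) M' (tt k l) *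
        i.f (φ l.succ)) / i.f (φ l'.succ) := by
      rw [eq_div_iff hl'f]
      linear_combination hrel
    refine ⟨?_, htj', ?_⟩
    · intro G hG h0
      have e1 : algebraMap (Lf k) M' (tt k l') = (C (- φ 0 / φ l'.succ) + C (- φ l.succ / φ l'.succ) * X : M[X]).eval₂ i.f
          (algebraMap (Lf k) M' (tt k l)) := by
        rw [eval₂_add, eval₂_mul, eval₂_C, eval₂_C, eval₂_X, htl', map_div₀, map_div₀, map_neg, map_neg]
        field_simp
        try ring
      rw [e1, ← Polynomial.eval₂_comp] at h0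
      have h2 : G.comp (C (- φ 0 / φ l'.succ) + C (- φ l.succ / φ l'.succ) * X : M[X]) = 0 := by
        by_contra hne
        exact hfree _ hne h0
      have hb : - φ l.succ / φ l'.succ ≠ 0 := div_ne_zero (neg_ne_zero.2 hj') hl'
      rcases Polynomial.comp_eq_zero_iff.1 h2 with h3 | ⟨_, h3⟩
      · exact hG h3
      · have h4 := congrArg (fun p => coeff p 1) h3
        simp [coeff_C] at h4
        rcases h4 with h4 | h4
        · exact hj' h4
        · exact hl' h4
    · intro z
      obtain ⟨P, Q, _, hPQ⟩ := hz z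
      have e1 : algebraMap (Lf k) M' (tt k l) = (C (- φ 0 / φ l.succ) + C (- φ l'.succ / φ l.succ) * X : M[X]).eval₂ i.f
          (algebraMap (Lf k) M' (tt k l')) := by
        rw [eval₂_add, eval₂_mul, eval₂_C, eval₂_C, eval₂_X, htj', map_div₀, map_div₀, map_neg, map_neg]
        field_simp
        try ring
      rw [e1, ← Polynomial.eval₂_comp, ← Polynomial.eval₂_comp] at hPQ
      exact ⟨_, _, hPQ⟩

attribute [local instance] Polynomial.algebra MvPolynomial.algebraMvPolynomial

theorem he_map {φ : Fin 3 → M} (hφ : ∃ b, φ b ≠ 0) (h : HE i φ) (σ : M →ₐ[k] N)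
    (h' : HE i' (fun b => σ (φ b))) :
    ∃ σ' : M' →ₐ[Lf k] N', (∀ m, σ' (i.f m) = i'.f (σ m)) ∧
      Module.finrank σ'.fieldRange N' = Module.finrank σ.fieldRange N := by
  obtain ⟨j, j', hjj, hj', -, -, -⟩ := he_free h hφ
  obtain ⟨hfree, htj, hz⟩ := a4_free h hjj hj'
  have hσj' : σ (φ j'.succ) ≠ 0 := by
    rw [Ne, map_eq_zero]
    exact hj'
  obtain ⟨hfree', htj', hz'⟩ := a4_free h' hjj hσj'
  letI algMN : Algebra M N := (σ : M →+* N).toAlgebra
  have halg : ∀ m, algebraMap M N m = σ m := fun _ => rfl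
  let eA : M[X] →+* M' := eval₂RingHom i.f (algebraMap (Lf k) M' (tt k j))
  let eB : N[X] →+* N' := eval₂RingHom i'.f (algebraMap (Lf k) N' (tt k j))
  have heA : ∀ P, eA P = P.eval₂ i.f (algebraMap (Lf k) M' (tt k j)) := fun _ => rfl
  have heB : ∀ P, eB P = P.eval₂ i'.f (algebraMap (Lf k) N' (tt k j)) := fun _ => rfl
  have hA : Function.Injective eA := by
    rw [injective_iff_map_eq_zero]
    intro P hP
    by_contra hne
    exact hfree P hne hP
  have hB : Function.Injective eB := by
    rw [injective_iff_map_eq_zero]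
    intro P hP
    by_contra hne
    exact hfree' P hne hP
  have hτ : Function.Injective (algebraMap M[X] N[X]) := Polynomial.map_injective _ (σ : M →+* N).injective
  obtain ⟨σ₁, hσ₁, hrank⟩ := a4_ext eA hA hz eB hB hz' hτ
  have hmap : ∀ P : M[X], algebraMap M[X] N[X] P = P.map (algebraMap M N) := fun _ => rfl
  have hm : ∀ m, σ₁ (i.f m) = i'.f (σ m) := by
    intro m
    have h1 := hσ₁ (C m)
    rwa [hmap, heA, heB, map_C, eval₂_C, eval₂_C, halg] at h1
  have ht : σ₁ (algebraMap (Lf k) M' (tt k j)) = algebraMap (Lf k) N' (tt k j) := by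
    have h1 := hσ₁ X
    rwa [hmap, heA, heB, map_X, eval₂_X, eval₂_X] at h1
  have ht' : σ₁ (algebraMap (Lf k) M' (tt k j')) = algebraMap (Lf k) N' (tt k j') := by
    rw [htj, htj', map_div₀, map_neg, map_add, map_mul, ht, hm, hm, hm]
  have htt : ∀ l, σ₁ (algebraMap (Lf k) M' (tt k l)) = algebraMap (Lf k) N' (tt k l) := by
    intro l
    have : l = j ∨ l = j' := by omega
    rcases this with h | h
    · rw [h]; exact ht
    · rw [h]; exact ht'
  have hcc : ∀ c : k, σ₁ (algebraMap (Lf k) M' (algebraMap k (Lf k) c)) =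
      algebraMap (Lf k) N' (algebraMap k (Lf k) c) := by
    intro c
    rw [← i.comm, ← i'.comm, hm, σ.commutes]
  let σ' : M' →ₐ[Lf k] N' := { σ₁ with commutes' := a4_lin σ₁ hcc htt }
  refine ⟨σ', hm, ?_⟩
  rw [a4_finrank_range, a4_finrank_range]
  have h1 : Module.finrank M[X] N[X] = Module.finrank M N :=
    congrArg Cardinal.toNat (rank_polynomial_polynomial M N)
  exact hrank.trans h1

/-- every element is a quotient -/
theorem a4_quot {R : Type} [CommRing R] (e : R →+* M') (h : IntermediateField.adjoin (Lf k) (Set.range i.f) = ⊤)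
    (hm : ∀ m, i.f m ∈ Set.range e) (ht : ∀ j, algebraMap (Lf k) M' (tt k j) ∈ Set.range e) (z : M') :
    ∃ P Q, z = e P / e Q := by
  let F : Subfield M' := Subfield.closure (Set.range e)
  have hFM : ∀ m : M, i.f m ∈ F := fun m => Subfield.subset_closure (hm m)
  have hFL : ∀ x : Lf k, algebraMap (Lf k) M' x ∈ F := by
    have hpol : ∀ P : MvPolynomial (Fin 2) k, algebraMap (Lf k) M' (algebraMap (MvPolynomial (Fin 2) k) (Lf k) P) ∈ F := by
      intro P
      induction P using MvPolynomial.induction_on with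
      | C a =>
        have h1 : algebraMap (MvPolynomial (Fin 2) k) (Lf k) (MvPolynomial.C a) = algebraMap k (Lf k) a := by
          rw [IsScalarTower.algebraMap_apply k (MvPolynomial (Fin 2) k) (Lf k)]
          rfl
        rw [h1, ← i.comm]
        exact hFM _
      | add p q hp hq =>
        rw [map_add, map_add]
        exact add_mem hp hq
      | mul_X p l hp =>
        rw [map_mul, map_mul]
        exact mul_mem hp (Subfield.subset_closure (ht l))
    intro x
    obtain ⟨P, Q, _, rfl⟩ := IsFractionRing.div_surjective (A := MvPolynomial (Fin 2) k) x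
    rw [map_div₀]
    exact div_mem (hpol P) (hpol Q)
  have h1 : z ∈ IntermediateField.adjoin (Lf k) (Set.range i.f) := by
    rw [h]
    exact IntermediateField.mem_top
  have h2 : IntermediateField.adjoin (Lf k) (Set.range i.f) ≤ F.toIntermediateField hFL := by
    rw [IntermediateField.adjoin_le_iff]
    rintro _ ⟨m, rfl⟩
    exact hFM m
  have h3 : z ∈ Subfield.closure (Set.range e) := h2 h1
  rw [Subfield.mem_closure_iff] at h3
  obtain ⟨y, hy, w, hw, rfl⟩ := h3
  have h4 : Subring.closure (Set.range e) = e.range := by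
    rw [← RingHom.coe_range]
    exact Subring.closure_eq _
  rw [h4] at hy hw
  obtain ⟨P, rfl⟩ := hy
  obtain ⟨Q, rfl⟩ := hw
  exact ⟨P, Q, rfl⟩

theorem be_map (h : BE i) (σ : M →ₐ[k] N) (h' : BE i') :
    ∃ σ' : M' →ₐ[Lf k] N', (∀ m, σ' (i.f m) = i'.f (σ m)) ∧
      Module.finrank σ'.fieldRange N' = Module.finrank σ.fieldRange N := by
  letI algMN : Algebra M N := (σ : M →+* N).toAlgebra
  have halg : ∀ m, algebraMap M N m = σ m := fun _ => rfl
  let eA : MvPolynomial (Fin 2) M →+* M' := MvPolynomial.eval₂Hom i.f (fun j => algebraMap (Lf k) M' (tt k j))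
  let eB : MvPolynomial (Fin 2) N →+* N' := MvPolynomial.eval₂Hom i'.f (fun j => algebraMap (Lf k) N' (tt k j))
  have hA : Function.Injective eA := by
    rw [injective_iff_map_eq_zero]
    intro P hP
    by_contra hne
    exact h.ind P hne hP
  have hB : Function.Injective eB := by
    rw [injective_iff_map_eq_zero]
    intro P hP
    by_contra hne
    exact h'.ind P hne hP
  have heAC : ∀ m, eA (MvPolynomial.C m) = i.f m := fun m => MvPolynomial.eval₂Hom_C _ _ m
  have heBC : ∀ m, eB (MvPolynomial.C m) = i'.f m := fun m => MvPolynomial.eval₂Hom_C _ _ m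
  have heAX : ∀ j, eA (MvPolynomial.X j) = algebraMap (Lf k) M' (tt k j) := fun m => MvPolynomial.eval₂Hom_X' _ _ m
  have heBX : ∀ j, eB (MvPolynomial.X j) = algebraMap (Lf k) N' (tt k j) := fun m => MvPolynomial.eval₂Hom_X' _ _ m
  have hz := a4_quot eA h.gen (fun m => ⟨_, heAC m⟩) (fun j => ⟨_, heAX j⟩)
  have hz' := a4_quot eB h'.gen (fun m => ⟨_, heBC m⟩) (fun j => ⟨_, heBX j⟩)
  have hmap : ∀ P : MvPolynomial (Fin 2) M, algebraMap (MvPolynomial (Fin 2) M) (MvPolynomial (Fin 2) N) P =
      P.map (algebraMap M N) := by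
    intro P
    rw [MvPolynomial.algebraMap_def]
  have hτ : Function.Injective (algebraMap (MvPolynomial (Fin 2) M) (MvPolynomial (Fin 2) N)) := by
    rw [MvPolynomial.algebraMap_def]
    exact MvPolynomial.map_injective _ (σ : M →+* N).injective
  obtain ⟨σ₁, hσ₁, hrank⟩ := a4_ext eA hA hz eB hB hz' hτ
  have hm : ∀ m, σ₁ (i.f m) = i'.f (σ m) := by
    intro m
    have h1 := hσ₁ (MvPolynomial.C m)
    rwa [hmap, heAC, MvPolynomial.map_C, heBC, halg] at h1
  have htt : ∀ j, σ₁ (algebraMap (Lf k) M' (tt k j)) = algebraMap (Lf k) N' (tt k j) := by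
    intro j
    have h1 := hσ₁ (MvPolynomial.X j)
    rwa [hmap, heAX, MvPolynomial.map_X, heBX] at h1
  have hcc : ∀ c : k, σ₁ (algebraMap (Lf k) M' (algebraMap k (Lf k) c)) =
      algebraMap (Lf k) N' (algebraMap k (Lf k) c) := by
    intro c
    rw [← i.comm, ← i'.comm, hm, σ.commutes]
  let σ' : M' →ₐ[Lf k] N' := { σ₁ with commutes' := a4_lin σ₁ hcc htt }
  refine ⟨σ', hm, ?_⟩
  rw [a4_finrank_range, a4_finrank_range]
  have h1 : Module.finrank (MvPolynomial (Fin 2) M) (MvPolynomial (Fin 2) N) = Module.finrank M N := by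
    have h2 := congrArg Cardinal.toNat (rank_mvPolynomial_mvPolynomial M N (Fin 2))
    rwa [Cardinal.toNat_lift] at h2
  exact hrank.trans h1

end

end Pool.Agent.LibHL77
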