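import Pool.Agent.LibHL77.E1

/-!
[HL77 D1] the push-forward under the map which replaces the coordinate `a` by the point at infinity. Proof. `exists_hom`
with `Ψ M u = cyc (Function.update u a .inf)` (`cyc_mpt_deg`). Rational equivalence: the same `K`, `g`, `S`, the point
`Function.update u a .inf`; the specialisations are `Function.update q a .inf` (`SpR_inf`; a specialisation of `u` exists by
`SpR_exists`); `cyc q = 0` implies `cyc (Function.update q a .inf) = 0` (`finrank` over a smaller field is `0`), or
`R (cyc q) = 0`.
-/

open scoped Classical
open Polynomial

namespace Pool.Agent.LibHL77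

open Pool.Agent.LibBH2
open Pool.Agent.LibCHd (VR RF Red FunF)
open Pool.Agent.LibHyp34 (Hyp Pt Pic jP Sp KC DCf gn)
open Pool.Agent.LibHD77

variable {k : Type} [Field k] {n : ℕ}

theorem exists_R (F : Fin n → k[X]) (a : Fin n) (d : ℕ) : ∃ R : Cyc k n →+ Cyc k n,
    (∀ (M : Type) [Field M] [Algebra k M] (u : Pnt F M), FunF k d M →
      R (cyc u) = cyc (Function.update u a .inf)) ∧ ∀ c ∈ RatEq F d, R c ∈ RatEq F d := by
  obtain ⟨R, hR⟩ := exists_hom (F := F) d (G := Cyc k n)
    (fun M _ _ u => cyc (Function.update u a .inf)) (by
      intro M M' _ _ _ _ σ u _ _
      have h1 : Function.update (fun b => mpt σ (u b)) a (.inf : MPt (F a) M') =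
          fun b => mpt σ (Function.update u a (.inf : MPt (F a) M) b) := by
        funext b
        by_cases hb : b = a
        · subst hb
          rw [Function.update_self, Function.update_self]
          rfl
        · rw [Function.update_of_ne hb, Function.update_of_ne hb]
      change cyc (Function.update (fun b => mpt σ (u b)) a (.inf : MPt (F a) M')) = _
      rw [h1]
      exact cyc_mpt_deg σ (Function.update u a (.inf : MPt (F a) M)))
  refine ⟨R, hR, ?_⟩
  intro c hc
  unfold RatEq at hc
  refine AddSubgroup.closure_induction (p := fun c _ => R c ∈ RatEq F d) ?_ ?_ ?_ ?_ hc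
  · rintro c ⟨K, _, _, u, g, S, C, hK, hg, h1, h2, rfl⟩
    apply AddSubgroup.subset_closure
    refine ⟨K, _, _, Function.update u a .inf, g, S, fun v => R (C v), hK, hg, ?_, ?_, ?_⟩
    · intro v hv
      obtain ⟨h3, q, hq, hC⟩ := h1 v hv
      refine ⟨h3, Function.update q a .inf, ?_, ?_⟩
      · intro b
        by_cases hb : b = a
        · subst hb
          rw [Function.update_self, Function.update_self]
          exact SpR_inf v
        · rw [Function.update_of_ne hb, Function.update_of_ne hb]
          exact hq b
      · change R (C v) = _
        rw [hC]
        exact hR (RF v) q h3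
    · intro v hv hgv h3 q' hq'
      obtain ⟨qa, hqa⟩ := SpR_exists v (u a)
      have h4 : cyc (Function.update q' a qa) = 0 := by
        refine h2 v hv hgv h3 _ ?_
        intro b
        by_cases hb : b = a
        · subst hb
          rw [Function.update_self]
          exact hqa
        · rw [Function.update_of_ne hb]
          have := hq' b
          rw [Function.update_of_ne hb] at this
          exact this
      have h5 := hR (RF v) (Function.update q' a qa) h3
      rw [h4, map_zero] at h5
      have h6 : Function.update (Function.update q' a qa) a (.inf : MPt (F a) (RF v)) = q' := by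
        rw [Function.update_idem]
        have h7 := hq' a
        rw [Function.update_self] at h7
        have h8 : q' a = .inf := h7
        rw [← h8, Function.update_eq_self]
      have h9 : (0 : Cyc k n) = cyc (Function.update (Function.update q' a qa) a
        (.inf : MPt (F a) (RF v))) := h5
      rw [h6] at h9
      exact h9.symm
    · rw [map_sum]
      apply Finset.sum_congr rfl
      intro v _
      rw [map_zsmul]
  · rw [map_zero]
    exact AddSubgroup.zero_mem _
  · intro x y _ _ hx hy
    rw [map_add]
    exact AddSubgroup.add_mem _ hx hy
  · intro x _ hx
    rw [map_neg]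
    exact AddSubgroup.neg_mem _ hx

end Pool.Agent.LibHL77
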