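import Pool.Agent.LibHL77.E0

/-!
[HL77 E1] homomorphisms on the group of cycles of dimension `d`. Proof. `H` sends the basis element `z` to `Ψ M u`, where
`(M, u)` is chosen with `FunF k d M`, `fld u = ⊤`, `eqs u = z`, if there is one, and to `0` otherwise
(`Finsupp.liftAddHom`). Independence of the choice: `eqs_iso` and the hypothesis (`finrank = 1` for an
isomorphism). For given `(M, u)`: `u = mpt (fld u).val u₀` (`exists_min`), `Ψ M u = [M : fld u] Ψ (fld u) u₀`; if the degree
is zero both sides are zero (`cyc u = single _ 0`); otherwise `FunF k d (fld u)` by `funF_sub` and `eqs u = eqs u₀`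
(`eqs_mpt`).
-/

open scoped Classical
open Polynomial

namespace Pool.Agent.LibHL77

open Pool.Agent.LibBH2
open Pool.Agent.LibCHd (VR RF Red FunF)
open Pool.Agent.LibHyp34 (Hyp Pt Pic jP Sp KC DCf gn)
open Pool.Agent.LibHD77

variable {k : Type} [Field k]

theorem exists_hom {n : ℕ} {F : Fin n → k[X]} (d : ℕ) {G : Type} [AddCommGroup G]
    (Ψ : ∀ (M : Type) [Field M] [Algebra k M], Pnt F M → G)
    (hΨ : ∀ (M M' : Type) [Field M] [Algebra k M] [Field M'] [Algebra k M'] (σ : M →ₐ[k] M')
      (u : Pnt F M), FunF k d M' → fld u = ⊤ →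
      Ψ M' (fun a => mpt σ (u a)) = (Module.finrank σ.fieldRange M' : ℤ) • Ψ M u) :
    ∃ H : Cyc k n →+ G, ∀ (M : Type) [Field M] [Algebra k M] (u : Pnt F M), FunF k d M →
      H (cyc u) = Ψ M u := by
  -- the values on the basis elements
  let Q : Set (Fin n) × Set (MvPolynomial (Fin n × Fin 2) k) → G → Prop := fun z g =>
    ∃ (M : Type) (_ : Field M) (_ : Algebra k M) (u : Pnt F M),
      FunF k d M ∧ fld u = ⊤ ∧ eqs u = z ∧ Ψ M u = g
  let val : Set (Fin n) × Set (MvPolynomial (Fin n × Fin 2) k) → G := fun z =>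
    if h : ∃ g, Q z g then h.choose else 0
  have huniq : ∀ (M M' : Type) [Field M] [Algebra k M] [Field M'] [Algebra k M']
      (u : Pnt F M) (u' : Pnt F M'), FunF k d M' → fld u = ⊤ → fld u' = ⊤ → eqs u = eqs u' →
      Ψ M' u' = Ψ M u := by
    intro M M' _ _ _ _ u u' hM' hu hu' he
    obtain ⟨ε, hε⟩ := eqs_iso u u' hu hu' he
    have h1 := hΨ M M' (ε : M →ₐ[k] M') u hM' hu
    have h2 : (ε : M →ₐ[k] M').fieldRange = ⊤ := by
      rw [AlgHom.fieldRange_eq_top]
      exact ε.surjective
    rw [hε, h2, IntermediateField.finrank_top, Nat.cast_one, one_smul] at h1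
    exact h1
  have hval : ∀ (M : Type) [Field M] [Algebra k M] (u : Pnt F M), FunF k d M → fld u = ⊤ →
      val (eqs u) = Ψ M u := by
    intro M _ _ u hM hu
    have hex : ∃ g, Q (eqs u) g := ⟨Ψ M u, M, inferInstance, inferInstance, u, hM, hu, rfl, rfl⟩
    have h1 : val (eqs u) = hex.choose := dif_pos hex
    rw [h1]
    obtain ⟨M', _, _, u', hM', hu', he, hg⟩ := hex.choose_spec
    rw [← hg]
    exact huniq M M' u u' hM' hu hu' he.symm
  refine ⟨Finsupp.liftAddHom fun z => zmultiplesHom G (val z), ?_⟩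
  intro M _ _ u hM
  have e1 : (Finsupp.liftAddHom fun z => zmultiplesHom G (val z)) (cyc u) =
      (Module.finrank (fld u) M : ℤ) • val (eqs u) := by
    unfold cyc
    rw [Finsupp.liftAddHom_apply_single, zmultiplesHom_apply]
  rw [e1]
  obtain ⟨u₀, hu₀, hu⟩ := exists_min u
  have h1 := hΨ (fld u) M (fld u).val u₀ hM hu₀
  have h2 : (fld u).val.fieldRange = fld u := IntermediateField.fieldRange_val _
  rw [hu, h2] at h1
  rw [h1]
  by_cases h0 : Module.finrank (fld u) M = 0
  · rw [h0, Nat.cast_zero, zero_smul, zero_smul]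
  · have h3 : Module.finrank (fld u).val.fieldRange M ≠ 0 := by
      rw [h2]
      exact h0
    have h4 := funF_sub (fld u).val h3 hM
    have h5 : eqs u = eqs u₀ := by
      have h6 := eqs_mpt (fld u).val u₀
      rw [hu] at h6
      exact h6
    rw [h5, hval (fld u) u₀ h4 hu₀]

end Pool.Agent.LibHL77
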