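import Pool.Agent.LibHL77.E1
import Pool.Agent.LibHL77.A1
import Pool.Agent.LibHL77.A2
import Pool.Agent.LibHL77.A4

/-!
[HL77 E2] the homomorphisms of the groups of cycles given by hyperplane section and base change. Proofs. `exists_hom`.
`Ψ M u` is `cyc (lftP i u)` for a chosen `HE i (φ.φ M u)` (`exists_he`) if `NC k (φ.φ M u)`, otherwise `0` (resp. for a chosen
`BE i`, `exists_be`). Compatibility: `φ.nat`, `he_map`, `be_map`, `lft_mpt`, `cyc_mpt_deg`; `NC` does not change under a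
homomorphism of fields. The same with `σ = id` shows that every `HE i` gives the same cycle (`he_map` for the identity: `finrank = 1`).
-/

open scoped Classical
open Polynomial

namespace Pool.Agent.LibHL77

open Pool.Agent.LibBH2
open Pool.Agent.LibCHd (VR RF Red FunF)
open Pool.Agent.LibHyp34 (Hyp Pt Pic jP Sp KC DCf gn)
open Pool.Agent.LibHD77

variable {k : Type} [Field k] {n : ℕ} {F : Fin n → k[X]}

theorem nc_map {M N : Type} [Field M] [Algebra k M] [Field N] [Algebra k N] (σ : M →ₐ[k] N)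
    (φ : Fin 3 → M) : NC k (fun b => σ (φ b)) ↔ NC k φ := by
  have h : ∀ a b, Transcendental k (σ (φ a) / σ (φ b)) ↔ Transcendental k (φ a / φ b) := by
    intro a b
    rw [← map_div₀]
    exact not_congr (isAlgebraic_algHom_iff σ σ.toRingHom.injective)
  constructor
  · rintro ⟨a, b, h1, h2⟩
    exact ⟨a, b, fun h3 => h1 (by simp only [h3, map_zero]), (h a b).1 h2⟩
  · rintro ⟨a, b, h1, h2⟩
    exact ⟨a, b, (map_ne_zero σ).2 h1, (h a b).2 h2⟩

/-- the properties of the hyperplane section of cycles of dimension `d + 1` -/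
def IsG (φ : Mor F) (d : ℕ) (Γ : Cyc k n →+ Cyc (Lf k) n) : Prop :=
  ∀ (M : Type) [Field M] [Algebra k M] (u : Pnt F M), FunF k (d + 1) M →
    (∀ (M' : Type) [Field M'] [Algebra (Lf k) M'] (i : EHom k (Lf k) M M'),
      HE i (φ.φ M u) → Γ (cyc u) = cyc (lftP i u)) ∧ (¬ NC k (φ.φ M u) → Γ (cyc u) = 0)

/-- the properties of the base change of cycles of dimension `d` -/
def IsB (F : Fin n → k[X]) (d : ℕ) (B : Cyc k n →+ Cyc (Lf k) n) : Prop :=
  ∀ (M : Type) [Field M] [Algebra k M] (u : Pnt F M), FunF k d M →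
    ∀ (M' : Type) [Field M'] [Algebra (Lf k) M'] (i : EHom k (Lf k) M M'),
      BE i → B (cyc u) = cyc (lftP i u)

private theorem e2_id_finrank (M : Type) [Field M] [Algebra k M] :
    Module.finrank (AlgHom.id k M).fieldRange M = 1 := by
  have h1 : (AlgHom.id k M).fieldRange = ⊤ := by
    rw [eq_top_iff]
    intro x _
    exact ⟨x, rfl⟩
  rw [h1]
  exact IntermediateField.finrank_top

private theorem e2_lift {M N M' N' : Type} [Field M] [Algebra k M] [Field N] [Algebra k N]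
    [Field M'] [Algebra (Lf k) M'] [Field N'] [Algebra (Lf k) N'] {i : EHom k (Lf k) M M'}
    {i' : EHom k (Lf k) N N'} (σ : M →ₐ[k] N) (σ' : M' →ₐ[Lf k] N')
    (h1 : ∀ m, σ' (i.f m) = i'.f (σ m))
    (h2 : Module.finrank σ'.fieldRange N' = Module.finrank σ.fieldRange N) (u : Pnt F M) :
    cyc (lftP i' (fun a => mpt σ (u a))) =
      (Module.finrank σ.fieldRange N : ℤ) • cyc (lftP i u) := by
  have h3 : lftP i' (fun a => mpt σ (u a)) = fun a => mpt σ' (lftP i u a) :=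
    funext fun a => lft_mpt i i' σ σ' h1 (u a)
  rw [h3, cyc_mpt_deg σ' (lftP i u), h2]

private theorem e2_mpt_id {M : Type} [Field M] [Algebra k M] (u : Pnt F M) :
    (fun a => mpt (AlgHom.id k M) (u a)) = u := by
  funext a
  rcases u a with _ | ⟨x, y, h⟩
  · rfl
  · rfl

theorem exists_G (φ : Mor F) (d : ℕ) : ∃ Γ : Cyc k n →+ Cyc (Lf k) n, IsG φ d Γ := by
  have key : ∀ (M : Type) [Field M] [Algebra k M] (u : Pnt F M), ∃ c : Cyc (Lf k) n,
      (∀ (M' : Type) [Field M'] [Algebra (Lf k) M'] (i : EHom k (Lf k) M M'),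
        HE i (φ.φ M u) → c = cyc (lftP i u)) ∧ (¬ NC k (φ.φ M u) → c = 0) := by
    intro M _ _ u
    by_cases h : NC k (φ.φ M u)
    · obtain ⟨M₀, _, _, i₀, h₀⟩ := exists_he M (φ.φ M u) h
      refine ⟨cyc (lftP i₀ u), fun M' _ _ i hi => ?_, fun h' => absurd h h'⟩
      obtain ⟨σ', h1, h2⟩ := he_map (i' := i) (φ.ne M u) h₀ (AlgHom.id k M) hi
      have h3 := e2_lift (AlgHom.id k M) σ' h1 h2 u
      rw [e2_mpt_id, e2_id_finrank, Nat.cast_one, one_smul] at h3
      exact h3.symm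
    · exact ⟨0, fun M' _ _ i hi => absurd (he_nc hi (φ.ne M u)) h, fun _ => rfl⟩
  let Ψ : ∀ (M : Type) [Field M] [Algebra k M], Pnt F M → Cyc (Lf k) n :=
    fun M _ _ u => (key M u).choose
  have hΨ : ∀ (M : Type) [Field M] [Algebra k M] (u : Pnt F M),
      (∀ (M' : Type) [Field M'] [Algebra (Lf k) M'] (i : EHom k (Lf k) M M'),
        HE i (φ.φ M u) → Ψ M u = cyc (lftP i u)) ∧ (¬ NC k (φ.φ M u) → Ψ M u = 0) :=
    fun M _ _ u => (key M u).choose_spec
  obtain ⟨H, hH⟩ := exists_hom (F := F) (d + 1) Ψ (by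
    intro M N _ _ _ _ σ u _ _
    have hφ : φ.φ N (fun a => mpt σ (u a)) = fun b => σ (φ.φ M u b) :=
      funext fun b => φ.nat M N σ u b
    by_cases h : NC k (φ.φ M u)
    · have h' : NC k (φ.φ N (fun a => mpt σ (u a))) := by
        rw [hφ]
        exact (nc_map σ _).2 h
      obtain ⟨M₀, _, _, i, hi⟩ := exists_he M (φ.φ M u) h
      obtain ⟨N₀, _, _, i', hi'⟩ := exists_he N (φ.φ N (fun a => mpt σ (u a))) h'
      rw [(hΨ M u).1 M₀ i hi, (hΨ N (fun a => mpt σ (u a))).1 N₀ i' hi']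
      rw [hφ] at hi'
      obtain ⟨σ', h1, h2⟩ := he_map (i' := i') (φ.ne M u) hi σ hi'
      exact e2_lift σ σ' h1 h2 u
    · have h' : ¬ NC k (φ.φ N (fun a => mpt σ (u a))) := by
        rw [hφ]
        exact fun h1 => h ((nc_map σ _).1 h1)
      rw [(hΨ M u).2 h, (hΨ N (fun a => mpt σ (u a))).2 h', smul_zero])
  refine ⟨H, fun M _ _ u hM => ⟨fun M' _ _ i hi => ?_, fun h => ?_⟩⟩
  · rw [hH M u hM]
    exact (hΨ M u).1 M' i hi
  · rw [hH M u hM]
    exact (hΨ M u).2 h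

theorem exists_B (F : Fin n → k[X]) (d : ℕ) : ∃ B : Cyc k n →+ Cyc (Lf k) n, IsB F d B := by
  have key : ∀ (M : Type) [Field M] [Algebra k M] (u : Pnt F M), ∃ c : Cyc (Lf k) n,
      ∀ (M' : Type) [Field M'] [Algebra (Lf k) M'] (i : EHom k (Lf k) M M'),
        BE i → c = cyc (lftP i u) := by
    intro M _ _ u
    obtain ⟨M₀, _, _, i₀, h₀⟩ := exists_be (k := k) M
    refine ⟨cyc (lftP i₀ u), fun M' _ _ i hi => ?_⟩
    obtain ⟨σ', h1, h2⟩ := be_map (i' := i) h₀ (AlgHom.id k M) hi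
    have h3 := e2_lift (AlgHom.id k M) σ' h1 h2 u
    rw [e2_mpt_id, e2_id_finrank, Nat.cast_one, one_smul] at h3
    exact h3.symm
  let Ψ : ∀ (M : Type) [Field M] [Algebra k M], Pnt F M → Cyc (Lf k) n :=
    fun M _ _ u => (key M u).choose
  have hΨ : ∀ (M : Type) [Field M] [Algebra k M] (u : Pnt F M) (M' : Type) [Field M']
      [Algebra (Lf k) M'] (i : EHom k (Lf k) M M'), BE i → Ψ M u = cyc (lftP i u) :=
    fun M _ _ u => (key M u).choose_spec
  obtain ⟨H, hH⟩ := exists_hom (F := F) d Ψ (by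
    intro M N _ _ _ _ σ u _ _
    obtain ⟨M₀, _, _, i, hi⟩ := exists_be (k := k) M
    obtain ⟨N₀, _, _, i', hi'⟩ := exists_be (k := k) N
    rw [hΨ M u M₀ i hi, hΨ N (fun a => mpt σ (u a)) N₀ i' hi']
    obtain ⟨σ', h1, h2⟩ := be_map (i' := i') hi σ hi'
    exact e2_lift σ σ' h1 h2 u)
  refine ⟨H, fun M _ _ u hM M' _ _ i hi => ?_⟩
  rw [hH M u hM]
  exact hΨ M u M' i hi

end Pool.Agent.LibHL77
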