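import Pool.Agent.LibHD77.L1d
import Pool.Agent.LibHD77.L1b

/-!
[HL77 L1c] the place at a ramification point with abscissa in `M` of the curve `y ^ 2 = f(x)` over `M`. Proof: as `exists_pl_aff`,
`exists_pl_inf` (LibHD77/L1a.lean, L1b.lean): `exists_DC`, `place_down`, `place_up` (LibHD77/L0.lean), `DC.exists_ram`,
`DC.ram_unique`, `DC.ram_s` (LibBH2/Exist.lean, DoubleCover.lean) over the field `M` at the point `x₀`. `DC.exists_ram` may
need a square root of `f'(x₀)`: then do the same construction directly: the order on `M[X]` at `X - x₀`, `f = (X - x₀) f₁`,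
`f₁(x₀) ≠ 0`; `ord (A(X) + B(X) Y) = min (2 ord A, 2 ord B + 1)` is the valuation of `K` (for `z = A + B Y`, `ord z = ord (A ^ 2 - B ^ 2 f)`,
multiplicative), the residue of a regular `A + B Y` is the one of `A`.
-/

open scoped Classical
open Polynomial

namespace Pool.Agent.LibHD77

open Pool.Agent.LibBH2
open Pool.Agent.LibCHd (VR RF Red FunF)
open Pool.Agent.LibHyp34 (Hyp Pt Pic jP Sp KC DCf)

/-- `s ↦ s₀ + γ t ^ 2` on polynomials -/
private noncomputable def L1c_poly {k : Type} [Field k] (s₀ γ : k) : k[X] →+* LaurentSeries k :=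
  (HahnSeries.ofPowerSeries ℤ k).comp
    ((Polynomial.coeToPowerSeries.ringHom).comp (Polynomial.compRingHom (C s₀ + C γ * X ^ 2)))

private theorem L1c_poly_apply {k : Type} [Field k] (s₀ γ : k) (P : k[X]) :
    L1c_poly s₀ γ P =
      HahnSeries.ofPowerSeries ℤ k ((P.comp (C s₀ + C γ * X ^ 2) : k[X]) : PowerSeries k) :=
  rfl

private theorem L1c_poly_injective {k : Type} [Field k] (s₀ : k) {γ : k} (hγ : γ ≠ 0) :
    Function.Injective (L1c_poly s₀ γ) := by
  rw [injective_iff_map_eq_zero]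
  intro P hP
  rw [L1c_poly_apply] at hP
  have h1 := (map_eq_zero_iff _ HahnSeries.ofPowerSeries_injective).1 hP
  have h2 : P.comp (C s₀ + C γ * X ^ 2) = 0 := by
    have := Polynomial.coe_injective k (a₁ := P.comp (C s₀ + C γ * X ^ 2)) (a₂ := 0)
    apply this
    rw [h1]; simp
  rw [comp_eq_zero_iff] at h2
  rcases h2 with h2 | h2
  · exact h2
  · exfalso
    have h3 : (C s₀ + C γ * X ^ 2 : k[X]).coeff 2 =
        (C (coeff (C s₀ + C γ * X ^ 2) 0) : k[X]).coeff 2 := by
      rw [← h2.2]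
    rw [coeff_add, coeff_C_mul, coeff_X_pow, if_pos rfl, coeff_C, coeff_C,
      if_neg (by norm_num), if_neg (by norm_num)] at h3
    apply hγ
    simpa using h3

private noncomputable def L1c_rat {k : Type} [Field k] (s₀ : k) {γ : k} (hγ : γ ≠ 0) :
    RatFunc k →+* LaurentSeries k :=
  RatFunc.liftRingHom (L1c_poly s₀ γ)
    (nonZeroDivisors_le_comap_nonZeroDivisors_of_injective _ (L1c_poly_injective s₀ hγ))

private theorem L1c_rat_poly {k : Type} [Field k] (s₀ : k) {γ : k} (hγ : γ ≠ 0) (P : k[X]) :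
    L1c_rat s₀ hγ (algebraMap _ _ P) = L1c_poly s₀ γ P :=
  RatFunc.liftRingHom_algebraMap _ _ _

/-- the place over a simple zero `s₀` of `F = (s - s₀) G` -/
private theorem L1c_ram {k K : Type} [Field k] [CharZero k] [Field K] [Algebra k K] (D : DC k K)
    (hF : ¬ IsSquare (algebraMap k[X] (RatFunc k) D.F)) {s₀ : k} {G : k[X]}
    (hFG : D.F = (X - C s₀) * G) (hγ : G.eval s₀ ≠ 0) :
    ∃ v : Place k K, v.ord (D.s - algebraMap k K s₀) = 2 ∧ v.ord D.w = 1 ∧
      ∀ z, v.Reg z → ∃ m, v.Zer (z - algebraMap k K m) := by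
  obtain ⟨γ, hγe⟩ : ∃ γ : k, G.eval s₀ = γ := ⟨_, rfl⟩
  have hγ0 : γ ≠ 0 := by rw [← hγe]; exact hγ
  obtain ⟨W, hW, hWc⟩ := exists_sqrt_powerSeries
    (PowerSeries.C γ⁻¹ * ((G.comp (C s₀ + C γ * X ^ 2) : k[X]) : PowerSeries k)) 1 one_ne_zero (by
      rw [map_mul, PowerSeries.constantCoeff_C, Polynomial.constantCoeff_coe,
        coeff_zero_eq_eval_zero, eval_comp]
      simp [hγe, hγ0])
  have hW' : PowerSeries.C γ * W ^ 2 = ((G.comp (C s₀ + C γ * X ^ 2) : k[X]) : PowerSeries k) := by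
    rw [hW, ← mul_assoc, ← map_mul, mul_inv_cancel₀ hγ0, map_one, one_mul]
  obtain ⟨ψ, hψ, hψw⟩ := D.exists_hom hF (L1c_rat s₀ hγ0)
    (HahnSeries.ofPowerSeries ℤ k (PowerSeries.C γ * (PowerSeries.X * W))) (by
    rw [L1c_rat_poly, L1c_poly_apply, ← map_pow, hFG]
    congr 1
    rw [Polynomial.mul_comp, Polynomial.coe_mul, ← hW']
    simp
    ring)
  have hconst : ∀ c : k, ψ (algebraMap k K c) = HahnSeries.C c := by
    intro c
    have h1 : algebraMap k K c = D.ι (algebraMap k[X] (RatFunc k) (C c)) := by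
      rw [D.ι_poly]; simp
    rw [h1, hψ, L1c_rat_poly, L1c_poly_apply]
    simp
  have hs : ψ (D.s - algebraMap k K s₀) = HahnSeries.C γ * HahnSeries.single 2 1 := by
    have h1 : D.s - algebraMap k K s₀ = D.ι (algebraMap k[X] (RatFunc k) (X - C s₀)) := by
      rw [D.ι_poly]; simp
    rw [h1, hψ, L1c_rat_poly, L1c_poly_apply]
    have h2 : ((X - C s₀ : k[X]).comp (C s₀ + C γ * X ^ 2) : k[X]) = C γ * X ^ 2 := by simp
    rw [h2, Polynomial.coe_mul, Polynomial.coe_pow, Polynomial.coe_X, map_mul,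
      HahnSeries.ofPowerSeries_X_pow, Polynomial.coe_C, HahnSeries.ofPowerSeries_C]
    norm_num
  have hCγ : (HahnSeries.C γ : LaurentSeries k) ≠ 0 := by
    rw [Ne, map_eq_zero_iff _ HahnSeries.C_injective]
    exact hγ0
  have hords : (ψ (D.s - algebraMap k K s₀)).order = 2 := by
    rw [hs, HahnSeries.order_mul hCγ (by simp), HahnSeries.order_C,
      HahnSeries.order_single one_ne_zero, zero_add]
  have hordw : (ψ D.w).order = 1 := by
    have hW0 : W ≠ 0 := by rintro rfl; exact one_ne_zero (by rw [← hWc]; simp)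
    have h5 : HahnSeries.ofPowerSeries ℤ k W ≠ 0 :=
      (map_ne_zero_iff _ HahnSeries.ofPowerSeries_injective).2 hW0
    rw [hψw, map_mul, map_mul, HahnSeries.ofPowerSeries_C, HahnSeries.ofPowerSeries_X,
      HahnSeries.order_mul hCγ (mul_ne_zero (by simp) h5), HahnSeries.order_C, zero_add,
      HahnSeries.order_mul (by simp) h5, HahnSeries.order_single one_ne_zero]
    have h4 : (HahnSeries.ofPowerSeries ℤ k W).order = 0 := by
      apply le_antisymm
      · apply HahnSeries.order_le_of_coeff_ne_zero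
        have := HahnSeries.ofPowerSeries_apply_coeff (Γ := ℤ) (R := k) W 0
        rw [Nat.cast_zero] at this
        rw [this]
        simp [hWc]
      · by_contra hcon
        push Not at hcon
        have h1 := mt HahnSeries.coeff_order_eq_zero.1 h5
        apply h1
        clear h1
        generalize (HahnSeries.ofPowerSeries ℤ k W).order = m at hcon ⊢
        rw [HahnSeries.ofPowerSeries_apply]
        apply HahnSeries.embDomain_of_notMem_range
        rintro ⟨n, hn⟩
        have : (n : ℤ) = m := by simpa using hn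
        omega
    rw [h4]; norm_num
  refine ⟨Place.ofHom ψ hconst ⟨_, hordw⟩, ?_, ?_, L1b_res ψ hconst ⟨_, hordw⟩⟩
  · rw [Place.ofHom_ord, hords]
  · rw [Place.ofHom_ord, hordw]

variable {k : Type} [Field k] [CharZero k] {M K : Type} [Field M] [Algebra k M] [Field K]
  [Algebra k K]

theorem exists_pl_wei (f : k[X]) [Hyp f] {j : M →ₐ[k] K} {X Y : K} (h : Gen1 j f X Y) (x₀ : M)
    (h0 : aeval x₀ f = 0) :
    ∃ w : Place k K, Triv j w ∧ w.ord (X - j x₀) = 2 ∧ w.ord Y = 1 ∧
      ∀ v : Place k K, (∀ m, v.ord (j m) = 0) → v.Zer (X - j x₀) → v = w := by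
  haveI : CharZero M := charZero_of_injective_algebraMap (algebraMap k M).injective
  letI : Algebra M K := (j : M →+* K).toAlgebra
  have halg : ∀ m : M, algebraMap M K m = j m := fun _ => rfl
  obtain ⟨D, hs, hw, hF, hsq⟩ := exists_DC f j h
  have hF0 : D.F.eval x₀ = 0 := by
    rw [hF, eval_map_algebraMap, h0]
  have hF1 : D.F.derivative.eval x₀ ≠ 0 := by
    have hsep : f.Separable := PerfectField.separable_iff_squarefree.2 (Hyp.sqf (f := f))
    rw [hF, derivative_map, eval_map_algebraMap]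
    exact hsep.aeval_derivative_ne_zero h0
  obtain ⟨G, hG, hFG⟩ := D.ram_factor hF0 hF1
  obtain ⟨v, hv1, hv2, hv3⟩ := L1c_ram D hsq hFG hG
  have hvz : v.Zer (D.s - algebraMap M K x₀) := Or.inr (by rw [hv1]; exact two_pos)
  obtain ⟨w, hw'⟩ := place_down j v
  refine ⟨w, ⟨fun m => ?_, fun z hz => ?_⟩, ?_, ?_, fun v' hv' hX => ?_⟩
  · rw [hw']
    by_cases hm0 : m = 0
    · rw [hm0, map_zero, v.ord_zero]
    · exact v.ord_const m hm0
  · have hz' : v.Reg z := hz.imp id fun h => by rwa [hw'] at h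
    obtain ⟨m, hm⟩ := hv3 z hz'
    exact ⟨m, hm.imp id fun h => by rwa [hw']⟩
  · rw [hw', ← hs]
    exact hv1
  · rw [hw', ← hw]
    exact hv2
  · obtain ⟨v₁, hv₁⟩ := place_up j v' hv'
    have h1 : v₁ = v := by
      refine D.ram_unique hF0 hF1 v₁ v ?_ hvz
      rw [Place.Zer, hv₁, hs]
      exact hX
    refine Place.ext' fun z => ?_
    rw [hw', ← h1, hv₁]

end Pool.Agent.LibHD77
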