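import Pool.Agent.LibHL77.MDefs

/-!
[HL77 M1] the morphism given by the abscissa, and elementary properties of the second morphism. Proofs. `phiX`: `sp`: `l = 1`, or
`l = 1 / x` if `x` has a pole. `plane_ne`: in the first case of `some P, some Q` all coordinates zero would give `y₁ = y₂ = - y₂`, so
`y₁ = 0`, `f(x₁) = 0` and `f'(x₁) = 0`, but `f` has no multiple roots over `M` (`hyp_map`); in the second case `x₁ = x₂`,
`y₁ = - y₂`. `plane_map`: cases.
-/

open scoped Classical
open Polynomial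

namespace Pool.Agent.LibHL77

open Pool.Agent.LibBH2
open Pool.Agent.LibCHd (VR RF Red FunF)
open Pool.Agent.LibHyp34 (Hyp Pt Pic jP Sp KC DCf gn)
open Pool.Agent.LibHD77

variable {k : Type} [Field k] {n : ℕ}

theorem m1_absc_sp {f : k[X]} {K : Type} [Field K] [Algebra k K] (v : Place k K) (p : MPt f K)
    (q : MPt f (RF v)) (h : SpR v p q) :
    ∃ l : K, ∀ i, Red v (l * absc (opt p) i) (absc (opt q) i) := by
  match p, q, h with
  | .inf, q, h =>
    have h' : q = .inf := h
    subst h'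
    refine ⟨1, fun i => ?_⟩
    rw [one_mul]
    fin_cases i
    · exact LibCHd.red_zero v
    · exact LibCHd.red_one v
    · exact LibCHd.red_zero v
  | .aff x y hxy, .inf, h =>
    have h' : v.ord x < 0 := h
    have hx : x ≠ 0 := by
      rintro rfl
      rw [v.ord_zero] at h'
      exact lt_irrefl _ h'
    refine ⟨x⁻¹, fun i => ?_⟩
    fin_cases i
    · change Red v (x⁻¹ * 1) 0
      rw [mul_one, LibCHd.red_zero_iff]
      refine Or.inr ?_
      rw [v.ord_inv]
      omega
    · change Red v (x⁻¹ * x) 1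
      rw [inv_mul_cancel₀ hx]
      exact LibCHd.red_one v
    · change Red v (x⁻¹ * 0) 0
      rw [mul_zero]
      exact LibCHd.red_zero v
  | .aff x y hxy, .aff x₀ y₀ hxy₀, h =>
    have h' : Red v x x₀ := h.1
    refine ⟨1, fun i => ?_⟩
    rw [one_mul]
    fin_cases i
    · exact LibCHd.red_one v
    · exact h'
    · exact LibCHd.red_zero v

theorem m1_absc_map {f : k[X]} {M M' : Type} [Field M] [Algebra k M] [Field M'] [Algebra k M']
    (σ : M →ₐ[k] M') (p : MPt f M) (i : Fin 3) : absc (opt (mpt σ p)) i = σ (absc (opt p) i) := by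
  match p with
  | .inf =>
    fin_cases i
    · exact (map_zero σ).symm
    · exact (map_one σ).symm
    · exact (map_zero σ).symm
  | .aff x y h =>
    fin_cases i
    · exact (map_one σ).symm
    · rfl
    · exact (map_zero σ).symm

theorem exists_phiX (F : Fin n → k[X]) (a : Fin n) :
    ∃ φ : Mor F, ∀ (M : Type) [Field M] [Algebra k M] (u : Pnt F M), φ.φ M u = absc (opt (u a)) := by
  refine ⟨⟨fun M _ _ u => absc (opt (u a)), ?_, ?_, ?_⟩, fun M _ _ u => rfl⟩
  · intro M _ _ u
    match u a with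
    | .inf => exact ⟨1, one_ne_zero⟩
    | .aff x y h => exact ⟨0, one_ne_zero⟩
  · intro M M' _ _ _ _ σ u i
    exact m1_absc_map σ (u a) i
  · intro K _ _ v u q h
    exact m1_absc_sp v (u a) (q a) (h a)

theorem plane_ne [CharZero k] (f : k[X]) [Hyp f] {M : Type} [Field M] [Algebra k M]
    (p q : MPt f M) : ∃ i, plane f (gn f) (opt p) (opt q) i ≠ 0 := by
  have : CharZero M := charZero_of_injective_algebraMap (algebraMap k M).injective
  match p, q with
  | .inf, .inf => exact ⟨2, one_ne_zero⟩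
  | .inf, .aff x y h => exact ⟨1, one_ne_zero⟩
  | .aff x y h, .inf => exact ⟨1, one_ne_zero⟩
  | .aff x₁ y₁ h₁, .aff x₂ y₂ h₂ =>
    by_cases hc : x₁ = x₂ ∧ y₁ = - y₂
    · have e : plane f (gn f) (opt (Pt.aff x₁ y₁ h₁ : MPt f M)) (opt (Pt.aff x₂ y₂ h₂ : MPt f M)) =
          ![y₁ - y₂, aeval x₁ (derivative f), x₁ ^ (gn f) * aeval x₁ (derivative f) +
            y₂ * ((gn f : M) * x₁ ^ (gn f - 1)) * (y₁ - y₂)] := if_pos hc
      rw [e]
      by_cases hy : y₁ - y₂ = 0
      · refine ⟨1, ?_⟩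
        change aeval x₁ (derivative f) ≠ 0
        intro hd
        have hy2 : y₁ = 0 := by
          have h3 : y₁ = y₂ := sub_eq_zero.1 hy
          have h4 : y₁ + y₁ = 0 := by
            nth_rewrite 2 [h3]
            rw [hc.2]
            ring
          have h5 : (2:M) * y₁ = 0 := by rw [two_mul, h4]
          exact (mul_eq_zero.1 h5).resolve_left two_ne_zero
        have hf0 : eval x₁ (f.map (algebraMap k M)) = 0 := by
          rw [← h₁, hy2]
          ring
        have hd0 : eval x₁ (derivative (f.map (algebraMap k M))) = 0 := by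
          rw [derivative_map, eval_map_algebraMap]
          exact hd
        have hsep : (f.map (algebraMap k M)).Separable :=
          (PerfectField.separable_iff_squarefree.2 (Hyp.sqf (f := f))).map (f := algebraMap k M)
        obtain ⟨A, B, hAB⟩ := hsep
        have h6 := congrArg (eval x₁) hAB
        rw [eval_add, eval_mul, eval_mul, hf0, hd0, mul_zero, mul_zero, add_zero, eval_one] at h6
        exact zero_ne_one h6
      · exact ⟨0, hy⟩
    · have e : plane f (gn f) (opt (Pt.aff x₁ y₁ h₁ : MPt f M)) (opt (Pt.aff x₂ y₂ h₂ : MPt f M)) =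
          ![x₁ - x₂, y₁ + y₂, y₁ * x₂ ^ (gn f) + y₂ * x₁ ^ (gn f)] := if_neg hc
      rw [e]
      by_cases hx : x₁ - x₂ = 0
      · refine ⟨1, ?_⟩
        change y₁ + y₂ ≠ 0
        intro hy
        exact hc ⟨sub_eq_zero.1 hx, eq_neg_of_add_eq_zero_left hy⟩
      · exact ⟨0, hx⟩

theorem plane_map (f : k[X]) (g : ℕ) {M M' : Type} [Field M] [Algebra k M] [Field M']
    [Algebra k M'] (σ : M →ₐ[k] M') (p q : MPt f M) (i : Fin 3) :
    plane f g (opt (mpt σ p)) (opt (mpt σ q)) i = σ (plane f g (opt p) (opt q) i) := by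
  match p, q with
  | .inf, .inf =>
    fin_cases i
    · exact (map_zero σ).symm
    · exact (map_zero σ).symm
    · exact (map_one σ).symm
  | .inf, .aff x y h =>
    fin_cases i
    · exact (map_zero σ).symm
    · exact (map_one σ).symm
    · exact (map_pow σ x g).symm
  | .aff x y h, .inf =>
    fin_cases i
    · exact (map_zero σ).symm
    · exact (map_one σ).symm
    · exact (map_pow σ x g).symm
  | .aff x₁ y₁ h₁, .aff x₂ y₂ h₂ =>
    by_cases hc : x₁ = x₂ ∧ y₁ = - y₂
    · have hc' : σ x₁ = σ x₂ ∧ σ y₁ = - σ y₂ := by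
        refine ⟨by rw [hc.1], by rw [hc.2, map_neg]⟩
      have e : plane f g (opt (Pt.aff x₁ y₁ h₁ : MPt f M)) (opt (Pt.aff x₂ y₂ h₂ : MPt f M)) =
          ![y₁ - y₂, aeval x₁ (derivative f), x₁ ^ g * aeval x₁ (derivative f) +
            y₂ * ((g : M) * x₁ ^ (g - 1)) * (y₁ - y₂)] := if_pos hc
      have e' : plane f g (opt (mpt σ (Pt.aff x₁ y₁ h₁ : MPt f M))) (opt (mpt σ (Pt.aff x₂ y₂ h₂ : MPt f M))) =
          ![σ y₁ - σ y₂, aeval (σ x₁) (derivative f), σ x₁ ^ g * aeval (σ x₁) (derivative f) +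
            σ y₂ * ((g : M') * σ x₁ ^ (g - 1)) * (σ y₁ - σ y₂)] := if_pos hc'
      have ha : aeval (σ x₁) (derivative f) = σ (aeval x₁ (derivative f)) := aeval_algHom_apply σ x₁ _
      rw [e, e']
      fin_cases i
      · exact (map_sub σ y₁ y₂).symm
      · exact ha
      · change σ x₁ ^ g * aeval (σ x₁) (derivative f) + σ y₂ * ((g : M') * σ x₁ ^ (g - 1)) * (σ y₁ - σ y₂) =
          σ (x₁ ^ g * aeval x₁ (derivative f) + y₂ * ((g : M) * x₁ ^ (g - 1)) * (y₁ - y₂))
        rw [ha]
        simp only [map_add, map_mul, map_pow, map_sub, map_natCast]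
    · have hc' : ¬ (σ x₁ = σ x₂ ∧ σ y₁ = - σ y₂) := by
        rintro ⟨h3, h4⟩
        exact hc ⟨σ.injective h3, σ.injective (show σ y₁ = σ (-y₂) by rw [h4, map_neg])⟩
      have e : plane f g (opt (Pt.aff x₁ y₁ h₁ : MPt f M)) (opt (Pt.aff x₂ y₂ h₂ : MPt f M)) =
          ![x₁ - x₂, y₁ + y₂, y₁ * x₂ ^ g + y₂ * x₁ ^ g] := if_neg hc
      have e' : plane f g (opt (mpt σ (Pt.aff x₁ y₁ h₁ : MPt f M))) (opt (mpt σ (Pt.aff x₂ y₂ h₂ : MPt f M))) =
          ![σ x₁ - σ x₂, σ y₁ + σ y₂, σ y₁ * σ x₂ ^ g + σ y₂ * σ x₁ ^ g] := if_neg hc'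
      rw [e, e']
      fin_cases i
      · exact (map_sub σ x₁ x₂).symm
      · exact (map_add σ y₁ y₂).symm
      · change σ y₁ * σ x₂ ^ g + σ y₂ * σ x₁ ^ g = σ (y₁ * x₂ ^ g + y₂ * x₁ ^ g)
        simp only [map_add, map_mul, map_pow]

end Pool.Agent.LibHL77
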