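import Pool.Agent.LibHL77.M1

/-!
[HL77 M2] the second morphism and specialisation, affine points. Let `p = (x₁, y₁)`, `q = (x₂, y₂)` over `K`, with
affine specialisations `p', q'`. Proof. If both pairs are in the same case of `plane`: `l = 1` (`Red` of
polynomial expressions; `aeval` of `f'` reduces). If `x₁ = x₂`, `y₁ = - y₂` then the same holds for the residues. Remains: `p', q'`
in the first case, `p, q` in the second. If `x₁ ≠ x₂`: `l = (y₁ - y₂) / (x₁ - x₂)`: `l (y₁ + y₂) = (f(x₁) - f(x₂)) / (x₁ - x₂) = Q(x₁, x₂)`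
for a polynomial `Q` over `k` in two variables with `Q(x, x) = f'(x)`, and `y₁ x₂ ^ g + y₂ x₁ ^ g = x₂ ^ g (y₁ + y₂) + y₂ (x₁ ^ g - x₂ ^ g)`. If
`x₁ = x₂` then `y₁ = y₂` (the squares are equal, and not `y₁ = - y₂`), `y₁ ≠ 0`, the residue of `y₁` is `0`: `l = f'(x₁) / (2 y₁)`.
(If `p, q` are in the second case and `p', q'` too, `l = 1`.)
-/

open scoped Classical
open Polynomial

namespace Pool.Agent.LibHL77

open Pool.Agent.LibBH2
open Pool.Agent.LibCHd (VR RF Red FunF)
open Pool.Agent.LibHyp34 (Hyp Pt Pic jP Sp KC DCf gn)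
open Pool.Agent.LibHD77

variable {k : Type} [Field k] [CharZero k]

section

omit [CharZero k]

theorem m2_pow {K : Type} [Field K] [Algebra k K] {v : Place k K} {x₁ x₂ : K} {a : RF v}
    (h₁ : Red v x₁ a) (h₂ : Red v x₂ a) (n : ℕ) :
    ∃ D : K, x₁ ^ n - x₂ ^ n = (x₁ - x₂) * D ∧ Red v D ((n : RF v) * a ^ (n - 1)) := by
  induction n with
  | zero =>
    refine ⟨0, by simp, ?_⟩
    have : ((0 : ℕ) : RF v) * a ^ (0 - 1) = 0 := by simp
    rw [this]
    exact LibCHd.red_zero v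
  | succ n ih =>
    obtain ⟨D, hD, hr⟩ := ih
    refine ⟨x₁ ^ n + x₂ * D, ?_, ?_⟩
    · have : x₁ ^ (n + 1) - x₂ ^ (n + 1) = (x₁ - x₂) * x₁ ^ n + x₂ * (x₁ ^ n - x₂ ^ n) := by ring
      rw [this, hD]
      ring
    · have h3 : (((n + 1 : ℕ) : RF v)) * a ^ (n + 1 - 1) = a ^ n + a * ((n : RF v) * a ^ (n - 1)) := by
        cases n with
        | zero => simp
        | succ m =>
          simp only [Nat.add_sub_cancel]
          push_cast
          ring
      rw [h3]
      exact (h₁.pow n).add (h₂.mul hr)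

theorem m2_nat {K : Type} [Field K] [Algebra k K] (v : Place k K) (n : ℕ) :
    Red v (n : K) (n : RF v) := by
  have h := LibCHd.red_const v (n : k)
  rwa [map_natCast, map_natCast] at h

theorem m2_poly {K : Type} [Field K] [Algebra k K] {v : Place k K} {x₁ x₂ : K} {a : RF v}
    (h₁ : Red v x₁ a) (h₂ : Red v x₂ a) (G : k[X]) :
    ∃ D : K, aeval x₁ G - aeval x₂ G = (x₁ - x₂) * D ∧ Red v D (aeval a (derivative G)) := by
  induction G using Polynomial.induction_on' with
  | add p q hp hq =>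
    obtain ⟨D, hD, hr⟩ := hp
    obtain ⟨D', hD', hr'⟩ := hq
    refine ⟨D + D', ?_, ?_⟩
    · rw [map_add, map_add, mul_add, ← hD, ← hD']
      ring
    · rw [derivative_add, map_add]
      exact hr.add hr'
  | monomial n c =>
    obtain ⟨D, hD, hr⟩ := m2_pow h₁ h₂ n
    refine ⟨algebraMap k K c * D, ?_, ?_⟩
    · rw [aeval_monomial, aeval_monomial, ← mul_sub, hD]
      ring
    · rw [derivative_monomial, aeval_monomial, map_mul, map_natCast, mul_assoc]
      exact (LibCHd.red_const v c).mul hr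

end

theorem plane_sp_aff (f : k[X]) [Hyp f] {K : Type} [Field K] [Algebra k K] (v : Place k K)
    (p q : MPt f K) (p' q' : MPt f (RF v)) (hp : SpR v p p') (hq : SpR v q q') (h1 : p' ≠ .inf)
    (h2 : q' ≠ .inf) :
    ∃ l : K, ∀ i, Red v (l * plane f (gn f) (opt p) (opt q) i)
      (plane f (gn f) (opt p') (opt q') i) := by
  have hcK : CharZero K := charZero_of_injective_algebraMap (algebraMap k K).injective
  have hcR : CharZero (RF v) := charZero_of_injective_algebraMap (algebraMap k (RF v)).injective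
  match p, p', hp, h1, q, q', hq, h2 with
  | .inf, p', hp, h1, _, _, _, _ => exact absurd hp h1
  | .aff x₁ y₁ e₁, .inf, hp, h1, _, _, _, _ => exact absurd rfl h1
  | .aff x₁ y₁ e₁, .aff a₁ b₁ d₁, hp, h1, .inf, q', hq, h2 => exact absurd hq h2
  | .aff x₁ y₁ e₁, .aff a₁ b₁ d₁, hp, h1, .aff x₂ y₂ e₂, .inf, hq, h2 => exact absurd rfl h2
  | .aff x₁ y₁ e₁, .aff a₁ b₁ d₁, hp, h1, .aff x₂ y₂ e₂, .aff a₂ b₂ d₂, hq, h2 =>
    obtain ⟨hx₁, hy₁⟩ : Red v x₁ a₁ ∧ Red v y₁ b₁ := hp
    obtain ⟨hx₂, hy₂⟩ : Red v x₂ a₂ ∧ Red v y₂ b₂ := hq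
    set g := gn f with hg
    have E1 : x₁ = x₂ ∧ y₁ = - y₂ → plane f g (opt (Pt.aff x₁ y₁ e₁ : MPt f K)) (opt (Pt.aff x₂ y₂ e₂ : MPt f K)) =
          ![y₁ - y₂, aeval x₁ (derivative f), x₁ ^ g * aeval x₁ (derivative f) +
            y₂ * ((g : K) * x₁ ^ (g - 1)) * (y₁ - y₂)] := fun hc => if_pos hc
    have E2 : ¬ (x₁ = x₂ ∧ y₁ = - y₂) → plane f g (opt (Pt.aff x₁ y₁ e₁ : MPt f K)) (opt (Pt.aff x₂ y₂ e₂ : MPt f K)) =
          ![x₁ - x₂, y₁ + y₂, y₁ * x₂ ^ g + y₂ * x₁ ^ g] := fun hc => if_neg hc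
    have F1 : a₁ = a₂ ∧ b₁ = - b₂ → plane f g (opt (Pt.aff a₁ b₁ d₁ : MPt f (RF v))) (opt (Pt.aff a₂ b₂ d₂ : MPt f (RF v))) =
          ![b₁ - b₂, aeval a₁ (derivative f), a₁ ^ g * aeval a₁ (derivative f) +
            b₂ * ((g : RF v) * a₁ ^ (g - 1)) * (b₁ - b₂)] := fun hc => if_pos hc
    have F2 : ¬ (a₁ = a₂ ∧ b₁ = - b₂) → plane f g (opt (Pt.aff a₁ b₁ d₁ : MPt f (RF v))) (opt (Pt.aff a₂ b₂ d₂ : MPt f (RF v))) =
          ![a₁ - a₂, b₁ + b₂, b₁ * a₂ ^ g + b₂ * a₁ ^ g] := fun hc => if_neg hc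
    by_cases hc : x₁ = x₂ ∧ y₁ = - y₂
    · have hc' : a₁ = a₂ ∧ b₁ = - b₂ := by
        refine ⟨?_, ?_⟩
        · have h3 := hx₂
          rw [← hc.1] at h3
          exact hx₁.unique h3
        · have h3 := hy₂.neg
          rw [← hc.2] at h3
          exact hy₁.unique h3
      rw [E1 hc, F1 hc']
      refine ⟨1, fun i => ?_⟩
      rw [one_mul]
      have hd := red_aeval hx₁ (derivative f)
      fin_cases i
      · exact hy₁.sub hy₂
      · exact hd
      · exact ((hx₁.pow g).mul hd).add ((hy₂.mul ((m2_nat v g).mul (hx₁.pow (g - 1)))).mul (hy₁.sub hy₂))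
    · rw [E2 hc]
      by_cases hc' : a₁ = a₂ ∧ b₁ = - b₂
      · rw [F1 hc']
        obtain ⟨ha, hb⟩ := hc'
        subst ha
        have hfe : ∀ (x : K), eval x (f.map (algebraMap k K)) = aeval x f := fun x => eval_map_algebraMap f x
        by_cases hx : x₁ = x₂
        · subst hx
          have hy : y₁ = y₂ := by
            have h3 : y₁ ^ 2 = y₂ ^ 2 := by rw [e₁, e₂]
            rcases sq_eq_sq_iff_eq_or_eq_neg.1 h3 with h4 | h4
            · exact h4
            · exact absurd ⟨rfl, h4⟩ hc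
          subst hy
          have hy0 : y₁ ≠ 0 := by
            intro h0
            apply hc
            refine ⟨rfl, ?_⟩
            rw [h0, neg_zero]
          have hb12 : b₁ = b₂ := hy₁.unique hy₂
          have hd := red_aeval hx₁ (derivative f)
          have h2 : (2 : K) ≠ 0 := two_ne_zero
          refine ⟨aeval x₁ (derivative f) / (2 * y₁), fun i => ?_⟩
          fin_cases i
          · change Red v (aeval x₁ (derivative f) / (2 * y₁) * (x₁ - x₁)) (b₁ - b₂)
            rw [sub_self, mul_zero, hb12, sub_self]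
            exact LibCHd.red_zero v
          · change Red v (aeval x₁ (derivative f) / (2 * y₁) * (y₁ + y₁)) (aeval a₁ (derivative f))
            have : aeval x₁ (derivative f) / (2 * y₁) * (y₁ + y₁) = aeval x₁ (derivative f) := by
              field_simp
              ring
            rw [this]
            exact hd
          · change Red v (aeval x₁ (derivative f) / (2 * y₁) * (y₁ * x₁ ^ g + y₁ * x₁ ^ g))
              (a₁ ^ g * aeval a₁ (derivative f) + b₂ * ((g : RF v) * a₁ ^ (g - 1)) * (b₁ - b₂))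
            have h4 : aeval x₁ (derivative f) / (2 * y₁) * (y₁ * x₁ ^ g + y₁ * x₁ ^ g) =
                x₁ ^ g * aeval x₁ (derivative f) := by
              field_simp
              ring
            rw [h4, hb12, sub_self, mul_zero, add_zero]
            exact (hx₁.pow g).mul hd
        · have hx0 : x₁ - x₂ ≠ 0 := sub_ne_zero.2 hx
          obtain ⟨D, hD, hDr⟩ := m2_poly hx₁ hx₂ f
          obtain ⟨P, hP, hPr⟩ := m2_pow hx₁ hx₂ g
          have hyy : (y₁ - y₂) * (y₁ + y₂) = (x₁ - x₂) * D := by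
            rw [← hD, ← hfe, ← hfe, ← e₁, ← e₂]
            ring
          refine ⟨(y₁ - y₂) / (x₁ - x₂), fun i => ?_⟩
          fin_cases i
          · change Red v ((y₁ - y₂) / (x₁ - x₂) * (x₁ - x₂)) (b₁ - b₂)
            rw [div_mul_cancel₀ _ hx0]
            exact hy₁.sub hy₂
          · change Red v ((y₁ - y₂) / (x₁ - x₂) * (y₁ + y₂)) (aeval a₁ (derivative f))
            have : (y₁ - y₂) / (x₁ - x₂) * (y₁ + y₂) = D := by
              rw [div_mul_eq_mul_div, hyy, mul_div_cancel_left₀ _ hx0]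
            rw [this]
            exact hDr
          · change Red v ((y₁ - y₂) / (x₁ - x₂) * (y₁ * x₂ ^ g + y₂ * x₁ ^ g))
              (a₁ ^ g * aeval a₁ (derivative f) + b₂ * ((g : RF v) * a₁ ^ (g - 1)) * (b₁ - b₂))
            have h4 : (y₁ - y₂) / (x₁ - x₂) * (y₁ * x₂ ^ g + y₂ * x₁ ^ g) =
                x₂ ^ g * D + y₂ * P * (y₁ - y₂) := by
              have h5 : (y₁ - y₂) * (y₁ * x₂ ^ g + y₂ * x₁ ^ g) =
                  (x₁ - x₂) * (x₂ ^ g * D + y₂ * P * (y₁ - y₂)) := by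
                have h6 : (y₁ - y₂) * (y₁ * x₂ ^ g + y₂ * x₁ ^ g) =
                    x₂ ^ g * ((y₁ - y₂) * (y₁ + y₂)) + y₂ * (y₁ - y₂) * (x₁ ^ g - x₂ ^ g) := by ring
                rw [h6, hyy, hP]
                ring
              rw [div_mul_eq_mul_div, h5, mul_div_cancel_left₀ _ hx0]
            rw [h4]
            exact ((hx₂.pow g).mul hDr).add ((hy₂.mul hPr).mul (hy₁.sub hy₂))
      · rw [F2 hc']
        refine ⟨1, fun i => ?_⟩
        rw [one_mul]
        fin_cases i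
        · exact hx₁.sub hx₂
        · exact hy₁.add hy₂
        · exact (hy₁.mul (hx₂.pow g)).add (hy₂.mul (hx₁.pow g))

end Pool.Agent.LibHL77
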