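import Pool.Agent.LibHL77.E0

/-!
The two kinds of morphisms to the projective plane: definitions.
-/

open scoped Classical
open Polynomial

namespace Pool.Agent.LibHL77

open Pool.Agent.LibBH2
open Pool.Agent.LibCHd (VR RF Red FunF)
open Pool.Agent.LibHyp34 (Hyp Pt Pic jP Sp KC DCf gn)
open Pool.Agent.LibHD77

section

variable {k : Type} [Field k] {M : Type} [Field M] [Algebra k M]

/-- the affine coordinates of a point (`none` for the point at infinity) -/
def opt {f : k[X]} : Pt f → Option (k × k)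
  | .inf => none
  | .aff x y _ => some (x, y)

/-- the homogeneous coordinates of the morphism defined by the abscissa -/
def absc : Option (M × M) → Fin 3 → M
  | none => ![0, 1, 0]
  | some P => ![1, P.1, 0]

/-- The homogeneous coordinates `(x₁ - x₂ : y₁ + y₂ : y₁ x₂ ^ g + y₂ x₁ ^ g)` of the morphism defined on the
product of the curve `y ^ 2 = f(x)` with itself. Near the points with `x₁ = x₂`, `y₁ = - y₂` they are
`(y₁ - y₂ : q : x₂ ^ g q + y₂ r (y₁ - y₂))` with `q = (f(x₁) - f(x₂)) / (x₁ - x₂)` and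
`r = (x₁ ^ g - x₂ ^ g) / (x₁ - x₂)`. -/
noncomputable def plane (f : k[X]) (g : ℕ) : Option (M × M) → Option (M × M) → Fin 3 → M
  | none, none => ![0, 0, 1]
  | none, some Q => ![0, 1, Q.1 ^ g]
  | some P, none => ![0, 1, P.1 ^ g]
  | some P, some Q =>
    if P.1 = Q.1 ∧ P.2 = - Q.2 then
      ![P.2 - Q.2, aeval P.1 (derivative f), P.1 ^ g * aeval P.1 (derivative f) +
        Q.2 * ((g : M) * P.1 ^ (g - 1)) * (P.2 - Q.2)]
    else ![P.1 - Q.1, P.2 + Q.2, P.2 * Q.1 ^ g + Q.2 * P.1 ^ g]

end

end Pool.Agent.LibHL77
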