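import Pool.Agent.LibHD77.L1a
import Pool.Agent.LibHD77.L2
import Pool.Agent.LibHL77.P0

/-!
[HL77 N0] the places of the function field of the square of a curve over `M₀`. Proof: as `exists_four` (LibHD77/L2.lean), where
`K` is now given: `j'` from `gen1_swap`; `w 0`, `w 1`: `exists_pl_aff` for `(x, y)`, `(x, -y)` (`y ≠ 0`); `w 2`: `exists_pl_inf` for `j`;
`w 3`: `exists_pl_inf` for `j'` and `(j x, j y)`. Last statement: if `v` is trivial on `j M` and `v.Zer (X - j x)` then
`(Y - j y) (Y + j y) = f(X) - f(j x)` vanishes at `v`, one factor does, `v = w 0` or `w 1`; if `v` is trivial on `j M` and `X` has a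
pole, `v = w 2`; if `j x` has a pole and `v` is trivial on `j' M`, `v = w 3`.
-/

open scoped Classical
open Polynomial

namespace Pool.Agent.LibHL77

open Pool.Agent.LibBH2
open Pool.Agent.LibCHd (VR RF Red FunF IsCps)
open Pool.Agent.LibHyp34 (Hyp Pt Pic jP Sp KC DCf gn)
open Pool.Agent.LibHD77

section aux

variable {k : Type} [Field k] {M : Type} [Field M] [Algebra k M]

private theorem n0_ord_far {v : Place k M} {f g : M} (hf : v.ord f < 0) (hg : v.Reg g) :
    v.ord (f - g) = v.ord f := by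
  have hf0 : f ≠ 0 := by
    rintro rfl
    rw [v.ord_zero] at hf
    exact lt_irrefl _ hf
  by_cases hg0 : g = 0
  · rw [hg0, sub_zero]
  · have h1 : 0 ≤ v.ord g := hg.resolve_left hg0
    rw [sub_eq_add_neg]
    exact (v.ord_add_of_lt hf0 (neg_ne_zero.2 hg0) (by rw [v.ord_neg]; omega)).2

private theorem n0_ord_sub_comm (v : Place k M) (f g : M) : v.ord (f - g) = v.ord (g - f) := by
  rw [← neg_sub, v.ord_neg]

/-- values of polynomials in the residue field -/
private theorem n0_red_aeval {v : Place k M} {z : M} {c : RF v} (h : Red v z c) (P : k[X]) :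
    Red v (aeval z P) (aeval c P) := by
  induction P using Polynomial.induction_on' with
  | add p q hp hq =>
    rw [map_add, map_add]
    exact Pool.Agent.LibCHd.Red.add hp hq
  | monomial n a =>
    rw [Polynomial.aeval_monomial, Polynomial.aeval_monomial]
    exact Pool.Agent.LibCHd.Red.mul (Pool.Agent.LibCHd.red_const v a)
      (Pool.Agent.LibCHd.Red.pow h n)

/-- a function with a regular square is regular -/
private theorem n0_reg_sq {v : Place k M} {z : M} (h : v.Reg (z ^ 2)) : v.Reg z := by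
  rcases h with h | h
  · exact Or.inl (pow_eq_zero_iff (two_ne_zero) |>.1 h)
  · right
    rw [v.ord_pow] at h
    push_cast at h
    omega

/-- a product of two regular functions vanishes only if one of them does -/
private theorem n0_zer_mul {v : Place k M} {a b : M} (ha : v.Reg a) (hb : v.Reg b)
    (h : v.Zer (a * b)) : v.Zer a ∨ v.Zer b := by
  by_contra hcon
  push Not at hcon
  obtain ⟨h1, h2⟩ := hcon
  have ha0 : a ≠ 0 := fun h' => h1 (Or.inl h')
  have hb0 : b ≠ 0 := fun h' => h2 (Or.inl h')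
  have e1 := Place.ord_eq_zero_of_reg ha h1
  have e2 := Place.ord_eq_zero_of_reg hb h2
  rcases h with h | h
  · exact (mul_ne_zero ha0 hb0) h
  · rw [v.ord_mul _ _ ha0 hb0, e1, e2] at h
    exact lt_irrefl _ h

/-- the two points over an abscissa -/
private theorem n0_near {v : Place k M} {f : k[X]} {a b c d : M} (h1 : c ^ 2 = aeval a f)
    (h2 : d ^ 2 = aeval b f) (ha : v.Reg a) (hz : v.Zer (a - b)) :
    v.Zer (c - d) ∨ v.Zer (c + d) := by
  obtain ⟨r, hr⟩ := Pool.Agent.LibCHd.exists_red ha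
  have hb : Red v b r := by
    rw [Pool.Agent.LibCHd.red_iff_sub hr, ← neg_sub]
    exact hz.neg
  have e1 := n0_red_aeval hr f
  have e2 := n0_red_aeval hb f
  have e3 := Pool.Agent.LibCHd.Red.sub e1 e2
  rw [sub_self, Pool.Agent.LibCHd.red_zero_iff, ← h1, ← h2] at e3
  have hc : v.Reg c := n0_reg_sq (by rw [h1]; exact e1.1)
  have hd : v.Reg d := n0_reg_sq (by rw [h2]; exact e2.1)
  refine n0_zer_mul (hc.sub hd) (hc.add hd) ?_
  rwa [show (c - d) * (c + d) = c ^ 2 - d ^ 2 by ring]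

private theorem n0_not_reg {v : Place k M} {z : M} (h : v.Reg z) : ¬ v.ord z < 0 := by
  rcases h with h | h
  · rw [h, v.ord_zero]
    exact lt_irrefl _
  · exact not_lt.2 h

end aux

variable {k : Type} [Field k] [CharZero k] {M₀ M K : Type} [Field M₀] [Algebra k M₀]
  [Field M] [Algebra k M] [Field K] [Algebra k K]

theorem four (f : k[X]) [Hyp f] {i : M₀ →ₐ[k] M} {x y : M} (h : Gen1 i f x y) {d : ℕ}
    (hM : FunF k (d + 1) M) {j : M →ₐ[k] K} {X Y : K} (hj : Gen1 j f X Y) :
    ∃ (j' : M →ₐ[k] K) (w : Fin 4 → Place k K), (∀ m, j' (i m) = j (i m)) ∧ j' x = X ∧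
      j' y = Y ∧ Gen1 j' f (j x) (j y) ∧ Function.Injective w ∧ X - j x ≠ 0 ∧ y ≠ 0 ∧
      Triv j (w 0) ∧ (w 0).ord (X - j x) = 1 ∧ (w 0).Zer (X - j x) ∧ (w 0).Zer (Y - j y) ∧
      Triv j (w 1) ∧ (w 1).ord (X - j x) = 1 ∧ (w 1).Zer (X - j x) ∧ (w 1).Zer (Y + j y) ∧
      Triv j (w 2) ∧ (w 2).ord X = -2 ∧
      Triv j' (w 3) ∧ (w 3).ord (j x) = -2 ∧
      ∀ v : Place k K, (v.Zer (X - j x) ∨ v.ord X < 0 ∨ v.ord (j x) < 0) → (∀ a, v ≠ w a) →
        ((∃ m, v.ord (j m) ≠ 0) ∧ ((v.Zer (X - j x) ∧ v.Zer (Y - j y)) ∨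
          (v.Zer (X - j x) ∧ v.Zer (Y + j y)) ∨ v.ord X < 0)) ∨
        ((∃ m, v.ord (j' m) ≠ 0) ∧ v.ord (j x) < 0) := by
  -- the second coordinate is not zero
  have hf0 : f ≠ 0 := (Hyp.monic (f := f)).ne_zero
  have hy0 : y ≠ 0 := by
    intro h0
    have h1 : aeval x f = 0 := by rw [← h.eq, h0]; ring
    refine h.tr (f.map (algebraMap k M₀)) ?_ ?_
    · exact (Polynomial.map_ne_zero_iff (algebraMap k M₀).injective).2 hf0
    · rw [Polynomial.eval₂_map]
      have h2 : ((i : M₀ →+* M)).comp (algebraMap k M₀) = algebraMap k M := by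
        ext c
        exact i.commutes c
      rw [h2]
      exact h1
  obtain ⟨j', hjj, hjx, hjy, hQ⟩ := gen1_swap f h (d := d)
    (Pool.Agent.LibCHd.FunF.trdeg hM) hj
  obtain ⟨w₀, t₀, o₀, z₀, u₀⟩ := exists_pl_aff f hj x y h.eq hy0
  obtain ⟨w₁, t₁, o₁, z₁, u₁⟩ := exists_pl_aff f hj x (-y) (by rw [neg_sq]; exact h.eq)
    (neg_ne_zero.2 hy0)
  obtain ⟨w₂, t₂, o₂, u₂⟩ := exists_pl_inf f hj
  obtain ⟨w₃, t₃, o₃, u₃⟩ := exists_pl_inf f hQ
  rw [map_neg, sub_neg_eq_add] at z₁
  have g₂ : w₂.ord (X - j x) = -2 := by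
    rw [n0_ord_far (by rw [o₂]; norm_num) (Or.inr (by rw [t₂.triv])), o₂]
  have g₃ : w₃.ord (X - j x) = -2 := by
    rw [n0_ord_sub_comm, n0_ord_far (by rw [o₃]; norm_num)
      (Or.inr (by rw [← hjx, t₃.triv])), o₃]
  have hg0 : X - j x ≠ 0 := by
    intro h0
    rw [h0, w₀.ord_zero] at o₀
    exact zero_ne_one o₀
  have hjy0 : j (2 * y) ≠ 0 := by
    have h2 : (2 : M) ≠ 0 := by
      have := charZero_of_injective_algebraMap (algebraMap k M).injective
      exact two_ne_zero
    intro h0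
    exact mul_ne_zero h2 hy0 ((map_eq_zero j).1 h0)
  have n₀₁ : w₀ ≠ w₁ := by
    intro he
    subst he
    have h1 := z₁.sub z₀
    have h2 : Y + j y - (Y - j y) = j (2 * y) := by rw [map_mul, map_ofNat]; ring
    rw [h2] at h1
    rcases h1 with h1 | h1
    · exact hjy0 h1
    · rw [t₀.triv] at h1
      exact lt_irrefl _ h1
  have n₀₂ : w₀ ≠ w₂ := by
    intro he
    rw [he, g₂] at o₀
    norm_num at o₀
  have n₀₃ : w₀ ≠ w₃ := by
    intro he
    rw [he, g₃] at o₀
    norm_num at o₀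
  have n₁₂ : w₁ ≠ w₂ := by
    intro he
    rw [he, g₂] at o₁
    norm_num at o₁
  have n₁₃ : w₁ ≠ w₃ := by
    intro he
    rw [he, g₃] at o₁
    norm_num at o₁
  have n₂₃ : w₂ ≠ w₃ := by
    intro he
    have h1 : w₃.ord X = 0 := by rw [← hjx, t₃.triv]
    rw [he, h1] at o₂
    norm_num at o₂
  refine ⟨j', ![w₀, w₁, w₂, w₃], hjj, hjx, hjy, hQ, ?_, hg0, hy0, t₀, o₀,
    Or.inr (by rw [Matrix.cons_val_zero, o₀]; norm_num), z₀, t₁, o₁, Or.inr ?_, z₁, t₂, o₂,
    t₃, o₃, ?_⟩
  · intro a b hab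
    fin_cases a <;> fin_cases b <;> first | rfl | skip
    · exact absurd hab n₀₁
    · exact absurd hab n₀₂
    · exact absurd hab n₀₃
    · exact absurd hab n₀₁.symm
    · exact absurd hab n₁₂
    · exact absurd hab n₁₃
    · exact absurd hab n₀₂.symm
    · exact absurd hab n₁₂.symm
    · exact absurd hab n₂₃
    · exact absurd hab n₀₃.symm
    · exact absurd hab n₁₃.symm
    · exact absurd hab n₂₃.symm
  · show 0 < w₁.ord (X - j x)
    rw [o₁]
    norm_num
  · intro v hv hne
    have m₀ : v ≠ w₀ := hne 0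
    have m₁ : v ≠ w₁ := hne 1
    have m₂ : v ≠ w₂ := hne 2
    have m₃ : v ≠ w₃ := hne 3
    rcases Pool.Agent.LibCHd.reg_or v X with rX | rX
    · rcases Pool.Agent.LibCHd.reg_or v (j x) with rx | rx
      · -- both are regular
        have hg : v.Zer (X - j x) := by
          rcases hv with hv | hv | hv
          · exact hv
          · exact absurd hv (n0_not_reg rX)
          · exact absurd hv (n0_not_reg rx)
        have hq : (j y) ^ 2 = aeval (j x) f := by
          rw [← map_pow, h.eq, aeval_algHom_apply]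
        have hn := n0_near hj.eq hq rX hg
        left
        refine ⟨?_, ?_⟩
        · by_contra hcon
          push Not at hcon
          rcases hn with hn | hn
          · exact m₀ (u₀ v hcon hg hn)
          · exact m₁ (u₁ v hcon hg (by rw [map_neg, sub_neg_eq_add]; exact hn))
        · rcases hn with hn | hn
          · exact Or.inl ⟨hg, hn⟩
          · exact Or.inr (Or.inl ⟨hg, hn⟩)
      · right
        refine ⟨?_, rx⟩
        by_contra hcon
        push Not at hcon
        exact m₃ (u₃ v hcon rx)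
    · left
      refine ⟨?_, Or.inr (Or.inr rX)⟩
      by_contra hcon
      push Not at hcon
      exact m₂ (u₂ v hcon rX)

end Pool.Agent.LibHL77
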