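import Pool.Agent.LibHL77.NDefs

/-!
[HL77 N1] divisors of zeros concentrated at the place where the free point becomes the point at infinity. Proofs. `isZ_inf`:
`S = {w}`, `w` from `exists_pl_inf` (`Triv i w`, `ord x = -2`): the residue field is `M₀` (`exists_res_equiv`, LibCHd/B6.lean, as in
LibHD77/L3.lean), the specialisation of `ev1 T i (some (x, y))` is the base change of `ev1 T id none`
(`SpR_triv`), `cyc_mpt`; `FunF k d M₀` from `gen1_trdeg` (see LibHD77/U2, T2b; it is a hypothesis). Another place with `mult ≠ 0`: `v.ord x < 0` by `h1`, so `v` is not trivial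
on `M₀` (uniqueness in `exists_pl_inf`), `cyc_zero_of_M` (LibHD77/P2.lean). `mult_absc`, `mult_same`, `mult_inf`, `mult_inf'`: compute the
minimum (`sInf` of a finite set of one, two or three integers).
-/

open scoped Classical
open Polynomial

namespace Pool.Agent.LibHL77

open Pool.Agent.LibBH2
open Pool.Agent.LibCHd (VR RF Red FunF IsCps)
open Pool.Agent.LibHyp34 (Hyp Pt Pic jP Sp KC DCf gn)
open Pool.Agent.LibHD77
open Pool.Agent.LibHD77.Comb (Pat sub Cmp)

variable {k : Type} [Field k] [CharZero k] {n : ℕ} {F : Fin n → k[X]} {M₀ M : Type} [Field M₀]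
  [Algebra k M₀] [Field M] [Algebra k M]

omit [CharZero k] in
private theorem N1_sg {M : Type} [Field M] [Algebra k M] {f : k[X]} {x y : M}
    (h : y ^ 2 = aeval x f) :
    ∃ h' : y ^ 2 = (f.map (algebraMap k M)).eval x, (sg f 1 (some (x, y)) : MPt f M) =
      .aff x y h' := by
  have h' : y ^ 2 = (f.map (algebraMap k M)).eval x := by rw [eval_map_algebraMap, h]
  have h'' : ((((1 : ℤˣ) : ℤ) : M) * y) ^ 2 = (f.map (algebraMap k M)).eval x := by
    simpa using h'
  refine ⟨h', ?_⟩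
  change mk' f x ((((1 : ℤˣ) : ℤ) : M) * y) = _
  unfold mk'
  rw [dif_pos h'']
  congr 1
  simp

theorem isZ_inf (f : k[X]) [Hyp f] {i : M₀ →ₐ[k] M} {x y : M} (h : Gen1 i f x y) {d : ℕ}
    (hM₀ : FunF k d M₀) (T : ∀ a, MPt (F a) M₀ ⊕ Unit) (hT : ∀ a, T a = .inr () → F a = f)
    (φ : Fin 3 → M) (z : Fin 3) (r : ℤ) (h1 : ∀ v : Place k M, 0 ≤ v.ord x → mult φ z v = 0)
    (h2 : ∀ v : Place k M, v.ord x = -2 → mult φ z v = r) :
    IsZ φ z (ev1 T i (some (x, y))) d (r • cyc (ev1 T (AlgHom.id k M₀) none)) := by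
  obtain ⟨w, hw, hwx, hwu⟩ := exists_pl_inf f h
  obtain ⟨e, he⟩ := Pool.Agent.LibCHd.exists_res_equiv i w hw.triv hw.res
  have hinl : ∀ a t, T a = .inl t → ev1 T i (some (x, y)) a = mpt i t := fun a t ha => by
    unfold ev1; rw [ha]
  have hinr : ∀ a, T a = .inr () → ∃ h', ev1 T i (some (x, y)) a = (.aff x y h' : MPt (F a) M) := by
    intro a ha
    have hq : y ^ 2 = aeval x (F a) := by rw [hT a ha]; exact h.eq
    obtain ⟨h', h''⟩ := N1_sg hq
    refine ⟨h', ?_⟩
    rw [← h'']
    unfold ev1; rw [ha]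
  have hinl' : ∀ a t, T a = .inl t → ev1 T (AlgHom.id k M₀) none a = mpt (AlgHom.id k M₀) t :=
    fun a t ha => by unfold ev1; rw [ha]
  have hinr' : ∀ a, T a = .inr () → ev1 T (AlgHom.id k M₀) none a = (.inf : MPt (F a) M₀) :=
    fun a ha => by unfold ev1; rw [ha]; rfl
  refine ⟨{w}, fun _ => cyc (ev1 T (AlgHom.id k M₀) none), ?_, ?_, ?_⟩
  · intro v hv
    rw [Finset.mem_singleton] at hv
    subst hv
    refine ⟨hM₀.congr e, fun a => mpt (e : M₀ →ₐ[k] RF v) (ev1 T (AlgHom.id k M₀) none a), ?_,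
      (cyc_mpt e _).symm⟩
    intro a
    show SpR v (ev1 T i (some (x, y)) a)
      (mpt (e : M₀ →ₐ[k] RF v) (ev1 T (AlgHom.id k M₀) none a))
    rcases ha : T a with t | ⟨⟩
    · rw [hinl a t ha, hinl' a t ha, mpt_comp]
      exact SpR_triv i v _ he t
    · obtain ⟨h', h''⟩ := hinr a ha
      rw [h'', hinr' a ha]
      change v.ord x < 0
      rw [hwx]
      norm_num
  · intro v hv hm hF q hq
    rw [Finset.mem_singleton] at hv
    have hx : v.ord x < 0 := by
      by_contra hcon
      exact hm (h1 v (not_lt.1 hcon))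
    obtain ⟨m₀, hm₀⟩ : ∃ m, v.ord (i m) ≠ 0 := by
      by_contra hcon
      push Not at hcon
      exact hv (hwu v hcon hx)
    refine cyc_zero_of_M hM₀ i v m₀ hm₀ hF q fun a => ?_
    have hqa := hq a
    rcases ha : T a with t | ⟨⟩
    · right
      exact ⟨t, by rw [← hinl a t ha]; exact hqa⟩
    · left
      obtain ⟨h', h''⟩ := hinr a ha
      rw [h''] at hqa
      refine ⟨.inf, SpR_unique hqa ?_⟩
      exact hx
  · rw [Finset.sum_singleton, h2 w hwx]

variable {K : Type} [Field K] [Algebra k K]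

omit [CharZero k] in
private theorem N1_mult {φ : Fin 3 → K} {z : Fin 3} {v : Place k K} {a b : ℤ}
    (h : {m | ∃ j, φ j ≠ 0 ∧ m = v.ord (φ j)} = {a, b}) : mult φ z v = v.ord (φ z) - min a b := by
  unfold mult
  rw [h, csInf_pair]

omit [CharZero k] in
private theorem N1_ord_one (v : Place k K) : v.ord (1 : K) = 0 := by
  have := v.ord_const (1 : k) one_ne_zero
  rwa [map_one] at this

theorem mult_absc {x : K} (y : K) (hx : x ≠ 0) (v : Place k K) :
    (0 ≤ v.ord x → mult (absc (some (x, y))) 0 v = 0) ∧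
    (v.ord x = -2 → mult (absc (some (x, y))) 0 v = 2) := by
  have hs : {m | ∃ j, (absc (some (x, y)) : Fin 3 → K) j ≠ 0 ∧
      m = v.ord ((absc (some (x, y)) : Fin 3 → K) j)} = {0, v.ord x} := by
    ext m
    simp only [Set.mem_setOf_eq, Set.mem_insert_iff, Set.mem_singleton_iff]
    constructor
    · rintro ⟨j, h1, h2⟩
      fin_cases j
      · left; rw [h2]; exact N1_ord_one v
      · right; exact h2
      · exact absurd rfl h1
    · rintro (rfl | rfl)
      · exact ⟨0, one_ne_zero, (N1_ord_one v).symm⟩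
      · exact ⟨1, hx, rfl⟩
  have h0 : v.ord ((absc (some (x, y)) : Fin 3 → K) 0) = 0 := N1_ord_one v
  rw [N1_mult hs, h0]
  constructor
  · intro h
    rw [min_eq_left h, sub_zero]
  · intro h
    rw [h]
    norm_num

/-- `φ = (0, c, c x ^ g)` -/
private theorem N1_pow (g : ℕ) {x c : K} (hx : x ≠ 0) (hc : c ≠ 0) {φ : Fin 3 → K}
    (h0 : φ 0 = 0) (h1 : φ 1 = c) (h2 : φ 2 = c * x ^ g) (v : Place k K) :
    (0 ≤ v.ord x → mult φ 1 v = 0) ∧ (v.ord x = -2 → mult φ 1 v = 2 * g) := by
  have ho : v.ord (c * x ^ g) = v.ord c + g * v.ord x := by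
    rw [v.ord_mul _ _ hc (pow_ne_zero _ hx), v.ord_pow]
  have hs : {m | ∃ j, φ j ≠ 0 ∧ m = v.ord (φ j)} = {v.ord c, v.ord c + g * v.ord x} := by
    ext m
    simp only [Set.mem_setOf_eq, Set.mem_insert_iff, Set.mem_singleton_iff]
    constructor
    · rintro ⟨j, h3, h4⟩
      fin_cases j
      · exact absurd h0 h3
      · left; rw [h4]; exact congrArg v.ord h1
      · right; rw [h4, ← ho]; exact congrArg v.ord h2
    · rintro (rfl | rfl)
      · exact ⟨1, by rw [h1]; exact hc, by rw [h1]⟩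
      · exact ⟨2, by rw [h2]; exact mul_ne_zero hc (pow_ne_zero _ hx), by rw [h2, ho]⟩
  rw [N1_mult hs, h1]
  constructor
  · intro h
    have : (0 : ℤ) ≤ g * v.ord x := mul_nonneg (by positivity) h
    rw [min_eq_left (by linarith)]
    ring
  · intro h
    rw [h]
    have : (0 : ℤ) ≤ g := by positivity
    rw [min_eq_right (by linarith)]
    ring

theorem mult_same (f : k[X]) (g : ℕ) {x y : K} (hx : x ≠ 0) (hy : y ≠ 0) (v : Place k K) :
    (0 ≤ v.ord x → mult (plane f g (some (x, y)) (some (x, y))) 1 v = 0) ∧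
    (v.ord x = -2 → mult (plane f g (some (x, y)) (some (x, y))) 1 v = 2 * g) := by
  have : CharZero K := charZero_of_injective_algebraMap (algebraMap k K).injective
  have hne : ¬ (x = x ∧ y = -y) := by
    rintro ⟨-, h⟩
    apply hy
    have h2 : (2 : K) * y = 0 := by linear_combination h
    exact (mul_eq_zero.1 h2).resolve_left two_ne_zero
  have hp : plane f g (some (x, y)) (some (x, y)) = ![x - x, y + y, y * x ^ g + y * x ^ g] := by
    unfold plane
    exact if_neg hne
  refine N1_pow g (c := y + y) hx ?_ ?_ ?_ ?_ v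
  · intro h
    have h2 : (2 : K) * y = 0 := by linear_combination h
    exact (mul_ne_zero two_ne_zero hy) h2
  · rw [hp]
    exact sub_self x
  · rw [hp]; rfl
  · rw [hp]
    show y * x ^ g + y * x ^ g = (y + y) * x ^ g
    ring

theorem mult_inf (f : k[X]) (g : ℕ) {x y : K} (hx : x ≠ 0) (v : Place k K) :
    ((0 ≤ v.ord x → mult (plane f g (some (x, y)) none) 1 v = 0) ∧
      (v.ord x = -2 → mult (plane f g (some (x, y)) none) 1 v = 2 * g)) ∧
    (0 ≤ v.ord x → mult (plane f g none (some (x, y))) 1 v = 0) ∧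
      (v.ord x = -2 → mult (plane f g none (some (x, y))) 1 v = 2 * g) := by
  refine ⟨N1_pow g (c := 1) hx one_ne_zero rfl rfl ?_ v,
    N1_pow g (c := 1) hx one_ne_zero rfl rfl ?_ v⟩
  · show x ^ g = 1 * x ^ g
    ring
  · show x ^ g = 1 * x ^ g
    ring

end Pool.Agent.LibHL77
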