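import Pool.Agent.LibHL77.NDefs

/-!
[HL77 N2] the divisor of zeros for a free point and a fixed point `(x₀, y₀)`. Let `φ` be
`(x - x₀, y + y₀, y x₀ ^ g + y₀ x ^ g)` (`x ≠ x₀` because `x` is transcendental), `mult φ 0`. Proof. `S` = the place `w₁` at `(x₀, y₀)`
(`exists_pl_aff` if `y₀ ≠ 0`, `exists_pl_wei` if `y₀ = 0`) and the place `w₂` at infinity (`exists_pl_inf`). `mult φ 0 w₁ = 1`: if `y₀ ≠ 0` the
orders are `1, 0, ≥ 0`; if `y₀ = 0` they are `2, 1, ≥ 1`. `mult φ 0 w₂ = 2 g - 1`: the orders are `-2`, `-(2g+1)`, `≥ -(2g+1)`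
(`2 ord y = (2g+1) ord x`). Other places with `mult φ 0 v ≠ 0`: if `x` has a pole at `v` the free point specialises to
infinity and `v` is not trivial on `M₀`: `cyc_zero_of_M`. If `x` is regular then the `φ j` are regular, so `v.Zer (x - x₀)`,
`y ↦ ± y₀`: the free point specialises to a constant; if `v` is not trivial on `M₀`: `cyc_zero_of_M`; if it is trivial and
`v ≠ w₁` then `y₀ ≠ 0`, `v.Zer (y + y₀)`, `v` is the place at `(x₀, - y₀)`, `v.ord (x - x₀) = 1`, `y - y₀` is a unit, so
`y + y₀ = (f(x) - f(x₀)) / (y - y₀)` has order `≥ 1`, `y x₀ ^ g + y₀ x ^ g = x₀ ^ g (y + y₀) + y₀ (x ^ g - x₀ ^ g)` too, `mult = 0`.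
Specialisations and cycles as in N1. `isZ_const'`: the same with the two points exchanged: only the sign of `φ 0`
changes.
-/

open scoped Classical
open Polynomial

namespace Pool.Agent.LibHL77

open Pool.Agent.LibBH2
open Pool.Agent.LibCHd (VR RF Red FunF IsCps)
open Pool.Agent.LibHyp34 (Hyp Pt Pic jP Sp KC DCf gn)
open Pool.Agent.LibHD77
open Pool.Agent.LibHD77.Comb (Pat sub Cmp)

variable {k : Type} [Field k] [CharZero k] {n : ℕ} {F : Fin n → k[X]} {M₀ M : Type} [Field M₀]
  [Algebra k M₀] [Field M] [Algebra k M]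

section aux

variable {k : Type} [Field k] {M K : Type} [Field M] [Algebra k M] [Field K] [Algebra k K]

theorem N2_mult_eq {φ : Fin 3 → K} {z b : Fin 3} {v : Place k K} (hb : φ b ≠ 0)
    (h : ∀ j, φ j ≠ 0 → v.ord (φ b) ≤ v.ord (φ j)) : mult φ z v = v.ord (φ z) - v.ord (φ b) := by
  unfold mult
  congr 1
  apply IsLeast.csInf_eq
  refine ⟨⟨b, hb, rfl⟩, ?_⟩
  rintro m ⟨j, hj, rfl⟩
  exact h j hj

theorem N2_eq {f : k[X]} {x y : M} (h : y ^ 2 = aeval x f) :
    (((1 : ℤˣ) : ℤ) : M) * y = y ∧ ((((1 : ℤˣ) : ℤ) : M) * y) ^ 2 = (f.map (algebraMap k M)).eval x := by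
  have e : (((1 : ℤˣ) : ℤ) : M) * y = y := by simp
  refine ⟨e, ?_⟩
  rw [eval_map_algebraMap, ← h, e]

theorem N2_sg {f : k[X]} {x y : M} (h : y ^ 2 = aeval x f) :
    sg f 1 (some (x, y)) = .aff x ((((1 : ℤˣ) : ℤ) : M) * y) (N2_eq h).2 := by
  change mk' f x ((((1 : ℤˣ) : ℤ) : M) * y) = _
  unfold mk'
  rw [dif_pos (N2_eq h).2]

theorem N2_map {f : k[X]} {x y : M} (h : y ^ 2 = aeval x f) (j : M →ₐ[k] K) :
    (j y) ^ 2 = aeval (j x) f := by
  rw [← map_pow, h, aeval_algHom_apply]

theorem N2_mpt_sg {f : k[X]} {x y : M} (h : y ^ 2 = aeval x f) (j : M →ₐ[k] K) :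
    mpt j (sg f 1 (some (x, y))) = sg f 1 (some (j x, j y)) := by
  rw [N2_sg h, N2_sg (N2_map h j)]
  change Pt.aff (j x) (j ((((1 : ℤˣ) : ℤ) : M) * y)) _ = _
  congr 1
  rw [map_mul, map_intCast]

theorem N2_mpt_none {f : k[X]} (j : M →ₐ[k] K) : mpt j (sg f 1 none) = .inf := rfl

theorem N2_close {f : k[X]} {v : Place k K} {X Y X' Y' : K}
    {h : Y ^ 2 = (f.map (algebraMap k K)).eval X} {h' : Y' ^ 2 = (f.map (algebraMap k K)).eval X'}
    (z : v.Zer (X - X')) (z' : v.Zer (Y - Y')) {q : MPt f (RF v)}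
    (hq : SpR v (.aff X Y h : MPt f K) q) : SpR v (.aff X' Y' h' : MPt f K) q := by
  match q with
  | .inf =>
    change v.ord X < 0 at hq
    change v.ord X' < 0
    have h0 : X ≠ 0 := by
      rintro rfl
      rw [v.ord_zero] at hq
      exact lt_irrefl _ hq
    by_cases hz : X - X' = 0
    · rwa [← sub_eq_zero.1 hz]
    · have h1 : 0 < v.ord (X - X') := z.resolve_left hz
      have h2 := (v.ord_add_of_lt h0 (neg_ne_zero.2 hz) (by rw [v.ord_neg]; omega)).2
      rw [show X + -(X - X') = X' by ring] at h2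
      rwa [h2]
  | .aff x₀ y₀ h₀ =>
    obtain ⟨r1, r2⟩ := hq
    refine ⟨?_, ?_⟩
    · rw [Pool.Agent.LibCHd.red_iff_sub r1, ← neg_sub]
      exact z.neg
    · rw [Pool.Agent.LibCHd.red_iff_sub r2, ← neg_sub]
      exact z'.neg

/-- specialisation of a point close to another one -/
theorem N2_sp {f : k[X]} {v : Place k K} {X Y X' Y' : K} (h : Y ^ 2 = aeval X f)
    (h' : Y' ^ 2 = aeval X' f) (z : v.Zer (X - X')) (z' : v.Zer (Y - Y'))
    {q : MPt f (RF v)} (hq : SpR v (sg f 1 (some (X, Y))) q) :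
    SpR v (sg f 1 (some (X', Y'))) q := by
  rw [N2_sg h] at hq
  rw [N2_sg h']
  refine N2_close z ?_ hq
  rw [(N2_eq h).1, (N2_eq h').1]
  exact z'

theorem N2_pole {f : k[X]} {v : Place k K} {X Y : K} (h : Y ^ 2 = aeval X f)
    (hX : v.ord X < 0) : SpR v (sg f 1 (some (X, Y))) (.inf : MPt f (RF v)) := by
  rw [N2_sg h]
  exact hX

theorem N2_pole' {f : k[X]} {v : Place k K} {X Y : K} (h : Y ^ 2 = aeval X f)
    (hX : v.ord X < 0) {q : MPt f (RF v)} (hq : SpR v (sg f 1 (some (X, Y))) q) :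
    q = .inf := SpR_unique hq (N2_pole h hX)

theorem N2_reg_aeval {v : Place k K} {z : K} (hz : v.Reg z) (P : k[X]) : v.Reg (aeval z P) := by
  induction P using Polynomial.induction_on' with
  | add p q hp hq => rw [map_add]; exact hp.add hq
  | monomial n c =>
    rw [aeval_monomial]
    exact (v.reg_const c).mul (hz.pow n)

theorem N2_reg_sqrt {v : Place k K} {y : K} (h : v.Reg (y ^ 2)) : v.Reg y := by
  by_cases hy : y = 0
  · exact Or.inl hy
  right
  have h1 := h.resolve_left (pow_ne_zero 2 hy)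
  rw [v.ord_pow] at h1
  push_cast at h1
  omega

theorem N2_ord_ge {v : Place k K} {a : K} (ha : v.Reg a) (h0 : a ≠ 0) : 0 ≤ v.ord a :=
  ha.resolve_left h0

theorem N2_zer_ge {v : Place k K} {a : K} (ha : v.Zer a) (h0 : a ≠ 0) : 1 ≤ v.ord a :=
  ha.resolve_left h0

/-- a multiple of a function of order `1` -/
theorem N2_ord_sum {v : Place k K} {a b : K} {m : ℤ} (ha : a = 0 ∨ m ≤ v.ord a)
    (hb : b = 0 ∨ m ≤ v.ord b) : a + b = 0 ∨ m ≤ v.ord (a + b) := by
  by_cases h : a + b = 0
  · exact Or.inl h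
  right
  rcases eq_or_ne a 0 with rfl | ha0
  · rw [zero_add] at h ⊢
    exact hb.resolve_left h
  rcases eq_or_ne b 0 with rfl | hb0
  · rw [add_zero] at h ⊢
    exact ha.resolve_left h
  exact (le_min (ha.resolve_left ha0) (hb.resolve_left hb0)).trans (v.ord_add a b ha0 hb0 h)

theorem N2_ord_prod {v : Place k K} {a b : K} {m n : ℤ} (ha : a = 0 ∨ m ≤ v.ord a)
    (hb : b = 0 ∨ n ≤ v.ord b) : a * b = 0 ∨ m + n ≤ v.ord (a * b) := by
  rcases eq_or_ne a 0 with rfl | ha0
  · left; rw [zero_mul]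
  rcases eq_or_ne b 0 with rfl | hb0
  · left; rw [mul_zero]
  right
  rw [v.ord_mul a b ha0 hb0]
  exact add_le_add (ha.resolve_left ha0) (hb.resolve_left hb0)

/-- the order of the difference of the values of a polynomial -/
theorem N2_sub_aeval {v : Place k K} {a b : K} (ha : v.Reg a) (hb : v.Reg b) (P : k[X]) :
    ∃ c, v.Reg c ∧ aeval a P - aeval b P = (a - b) * c := by
  induction P using Polynomial.induction_on' with
  | add p q hp hq =>
    obtain ⟨c, hc, e⟩ := hp
    obtain ⟨c', hc', e'⟩ := hq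
    refine ⟨c + c', hc.add hc', ?_⟩
    rw [map_add, map_add, mul_add, ← e, ← e']
    ring
  | monomial n c =>
    refine ⟨algebraMap k K c * ∑ i ∈ Finset.range n, a ^ i * b ^ (n - 1 - i), ?_, ?_⟩
    · refine (v.reg_const c).mul ?_
      refine Finset.sum_induction _ (fun z => v.Reg z) (fun _ _ h h' => h.add h') (Or.inl rfl) ?_
      intro i _
      exact (ha.pow i).mul (hb.pow _)
    · rw [aeval_monomial, aeval_monomial]
      have := (Commute.all a b).mul_geom_sum₂ n
      linear_combination (-(algebraMap k K c)) * this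

theorem N2_ord_aeval_ge (v : Place k K) (a : K) (ha : v.ord a < 0) (m : ℕ) (Q : k[X])
    (hQ : Q.natDegree ≤ m) : aeval a Q = 0 ∨ (m : ℤ) * v.ord a ≤ v.ord (aeval a Q) := by
  have ha0 : a ≠ 0 := by
    rintro rfl
    rw [v.ord_zero] at ha
    exact lt_irrefl _ ha
  rw [aeval_eq_sum_range' (n := m + 1) (by omega)]
  refine Finset.sum_induction _ (fun z => z = 0 ∨ (m : ℤ) * v.ord a ≤ v.ord z)
    (fun _ _ h h' => N2_ord_sum h h') (Or.inl rfl) ?_
  intro i hi
  by_cases hc : Q.coeff i = 0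
  · left; rw [hc, zero_smul]
  right
  have hc' : algebraMap k K (Q.coeff i) ≠ 0 := (_root_.map_ne_zero _).2 hc
  rw [Algebra.smul_def, v.ord_mul _ _ hc' (pow_ne_zero _ ha0), v.ord_const _ hc, v.ord_pow,
    zero_add]
  have hi' : (i : ℤ) ≤ m := by
    have := Finset.mem_range.1 hi
    omega
  nlinarith

/-- the order of a polynomial at a pole -/
theorem N2_ord_aeval (v : Place k K) (a : K) (ha : v.ord a < 0) (P : k[X]) (hP : P.Monic) :
    v.ord (aeval a P) = (P.natDegree : ℤ) * v.ord a := by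
  have ha0 : a ≠ 0 := by
    rintro rfl
    rw [v.ord_zero] at ha
    exact lt_irrefl _ ha
  rcases Nat.eq_zero_or_pos P.natDegree with h0 | h0
  · rw [h0, hP.natDegree_eq_zero.1 h0, map_one]
    have := v.ord_const 1 one_ne_zero
    rw [map_one] at this
    rw [this]
    simp
  · have e : P = X ^ P.natDegree + P.eraseLead := by
      conv_lhs => rw [← P.eraseLead_add_C_mul_X_pow]
      rw [hP.leadingCoeff, C_1, one_mul, add_comm]
    have e1 : aeval a P = a ^ P.natDegree + aeval a P.eraseLead := by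
      conv_lhs => rw [e]
      rw [map_add, map_pow, aeval_X]
    have h1 := N2_ord_aeval_ge v a ha (P.natDegree - 1) P.eraseLead P.eraseLead_natDegree_le
    rw [e1]
    rcases h1 with h1 | h1
    · rw [h1, add_zero, v.ord_pow]
    · rcases eq_or_ne (aeval a P.eraseLead) 0 with h2 | h2
      · rw [h2, add_zero, v.ord_pow]
      · have h3 := v.ord_add_of_lt (pow_ne_zero P.natDegree ha0) h2 (by
          rw [v.ord_pow]
          refine lt_of_lt_of_le ?_ h1
          have : ((P.natDegree - 1 : ℕ) : ℤ) = (P.natDegree : ℤ) - 1 := by omega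
          rw [this]
          nlinarith)
        rw [h3.2, v.ord_pow]

end aux

/-- the common part of the two statements -/
theorem N2_core (f : k[X]) [Hyp f] {i : M₀ →ₐ[k] M} {x y : M} (h : Gen1 i f x y) {d : ℕ}
    (hM₀ : FunF k d M₀) (T : ∀ a, MPt (F a) M₀ ⊕ Unit) (hT : ∀ a, T a = .inr () → F a = f)
    (x₀ y₀ : k) (h0 : y₀ ^ 2 = f.eval x₀) (φ : Fin 3 → M)
    (f0 : ∀ v : Place k M, v.ord (φ 0) = v.ord (x - algebraMap k M x₀))
    (f0' : φ 0 ≠ 0) (f1 : φ 1 = y + algebraMap k M y₀)
    (f2 : φ 2 = y * (algebraMap k M x₀) ^ gn f + algebraMap k M y₀ * x ^ gn f) :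
    IsZ φ 0 (ev1 T i (some (x, y))) d
      (cyc (ev1 T (AlgHom.id k M₀) (some (algebraMap k M₀ x₀, algebraMap k M₀ y₀))) +
        (2 * gn f - 1 : ℤ) • cyc (ev1 T (AlgHom.id k M₀) none)) := by
  have hxy : y ^ 2 = aeval x f := h.eq
  have hic : ∀ c : k, i (algebraMap k M₀ c) = algebraMap k M c := fun c => i.commutes c
  have h0M : (algebraMap k M₀ y₀) ^ 2 = aeval (algebraMap k M₀ x₀) f := by
    rw [← map_pow, h0, aeval_algebraMap_apply, coe_aeval_eq_eval]
  have h0K : (algebraMap k M y₀) ^ 2 = aeval (algebraMap k M x₀) f := by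
    rw [← map_pow, h0, aeval_algebraMap_apply, coe_aeval_eq_eval]
  have hdeg : f.natDegree = 2 * gn f + 1 := Hyp.deg
  have hg1 : 1 ≤ gn f := Hyp.one_le
  have hCM : CharZero M := charZero_of_injective_algebraMap (algebraMap k M).injective
  have hx0 : x ≠ 0 := by
    intro h0
    have := h.tr Polynomial.X Polynomial.X_ne_zero
    rw [eval₂_X] at this
    exact this h0
  have hxx : x - algebraMap k M x₀ ≠ 0 := by
    have := h.tr (Polynomial.X - C (algebraMap k M₀ x₀)) (Polynomial.X_sub_C_ne_zero _)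
    rw [eval₂_sub, eval₂_X, eval₂_C] at this
    change x - i (algebraMap k M₀ x₀) ≠ 0 at this
    rwa [hic] at this
  have hy0 : y ≠ 0 := by
    intro hy
    have h1 : aeval x f = 0 := by rw [← hxy, hy]; ring
    have h2 := h.tr (f.map (algebraMap k M₀)) ((Hyp.monic (f := f)).map _).ne_zero
    apply h2
    rw [eval₂_map]
    have h3 : (i : M₀ →+* M).comp (algebraMap k M₀) = algebraMap k M := RingHom.ext hic
    rw [h3]
    exact h1
  have creg : ∀ (v : Place k M) (c : k), v.Reg (algebraMap k M c) := fun v c => v.reg_const c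
  -- the place at infinity
  obtain ⟨w₂, t2, o2, u2⟩ := exists_pl_inf f h
  have oy2 : w₂.ord y = -(2 * (gn f : ℤ) + 1) := by
    have h1 : w₂.ord (aeval x f) = (f.natDegree : ℤ) * w₂.ord x :=
      N2_ord_aeval w₂ x (by omega) f (Hyp.monic (f := f))
    rw [← hxy, w₂.ord_pow, o2, hdeg] at h1
    push_cast at h1
    omega
  have m2 : mult φ 0 w₂ = 2 * gn f - 1 := by
    have k0 : w₂.ord (φ 0) = -2 := by
      rw [f0]
      rcases eq_or_ne (algebraMap k M x₀) 0 with e | e
      · rw [e, sub_zero, o2]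
      · have hc : x₀ ≠ 0 := by rintro rfl; exact e (map_zero _)
        have h1 := w₂.ord_add_of_lt hx0 (neg_ne_zero.2 e) (by
          rw [w₂.ord_neg, w₂.ord_const _ hc, o2]; norm_num)
        rw [sub_eq_add_neg, h1.2, o2]
    have k1 : w₂.ord (φ 1) = -(2 * (gn f : ℤ) + 1) ∧ φ 1 ≠ 0 := by
      rw [f1]
      rcases eq_or_ne (algebraMap k M y₀) 0 with e | e
      · rw [e, add_zero]; exact ⟨oy2, hy0⟩
      · have hc : y₀ ≠ 0 := by rintro rfl; exact e (map_zero _)
        have h1 := w₂.ord_add_of_lt hy0 e (by rw [w₂.ord_const _ hc, oy2]; omega)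
        exact ⟨h1.2.trans oy2, h1.1⟩
    rw [N2_mult_eq (b := 1) k1.2, k0, k1.1]
    · ring
    intro b hb
    rw [k1.1]
    fin_cases b
    · change _ ≤ w₂.ord (φ 0)
      rw [k0]
      omega
    · exact k1.1.ge
    · refine (?_ : φ 2 = 0 ∨ -(2 * (gn f : ℤ) + 1) ≤ w₂.ord (φ 2)).resolve_left hb
      rw [f2]
      refine N2_ord_sum ?_ ?_
      · have := N2_ord_prod (v := w₂) (a := y) (m := -(2 * (gn f : ℤ) + 1)) (n := 0)
          (Or.inr oy2.ge) ((creg w₂ x₀).pow (gn f))
        simpa using this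
      · have h1 : x ^ gn f = 0 ∨ -(2 * (gn f : ℤ)) ≤ w₂.ord (x ^ gn f) := by
          right
          rw [w₂.ord_pow, o2]
          omega
        have := N2_ord_prod (v := w₂) (m := 0) (creg w₂ y₀) h1
        rw [zero_add] at this
        exact this.imp id fun h' => by omega
  -- the place at the point
  obtain ⟨w₁, t1, zx1, zy1, m1, u1⟩ : ∃ w : Place k M, Triv i w ∧
      w.Zer (x - algebraMap k M x₀) ∧ w.Zer (y - algebraMap k M y₀) ∧ mult φ 0 w = 1 ∧
      ∀ v : Place k M, (∀ m, v.ord (i m) = 0) → v.Zer (x - algebraMap k M x₀) →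
        v.Zer (y - algebraMap k M y₀) → v = w := by
    rcases eq_or_ne y₀ 0 with hy | hy
    · have hz : aeval (algebraMap k M₀ x₀) f = 0 := by rw [← h0M, hy, map_zero]; ring
      obtain ⟨w, t, o, oy, u⟩ := exists_pl_wei f h (algebraMap k M₀ x₀) hz
      rw [hic] at o
      have zx : w.Zer (x - algebraMap k M x₀) := Or.inr (by rw [o]; norm_num)
      have zy : w.Zer (y - algebraMap k M y₀) := by
        rw [hy, map_zero, sub_zero]
        exact Or.inr (by rw [oy]; norm_num)
      refine ⟨w, t, zx, zy, ?_, fun v hv h1 _ => u v hv (by rw [hic]; exact h1)⟩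
      have e1 : φ 1 = y := by rw [f1, hy, map_zero, add_zero]
      have e2 : φ 2 = y * (algebraMap k M x₀) ^ gn f := by
        rw [f2, hy, map_zero, zero_mul, add_zero]
      rw [N2_mult_eq (b := 1) (by rw [e1]; exact hy0), f0, o, e1, oy]
      · norm_num
      intro b hb
      rw [e1, oy]
      fin_cases b
      · change 1 ≤ w.ord (φ 0)
        rw [f0, o]; norm_num
      · change 1 ≤ w.ord (φ 1)
        rw [e1, oy]
      · refine (?_ : φ 2 = 0 ∨ 1 ≤ w.ord (φ 2)).resolve_left hb
        rw [e2]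
        have := N2_ord_prod (v := w) (a := y) (m := 1) (n := 0) (Or.inr oy.ge)
          ((creg w x₀).pow (gn f))
        simpa using this
    · have hy' : algebraMap k M₀ y₀ ≠ 0 := (_root_.map_ne_zero _).2 hy
      obtain ⟨w, t, o, oy, u⟩ := exists_pl_aff f h (algebraMap k M₀ x₀) (algebraMap k M₀ y₀) h0M hy'
      rw [hic] at o oy
      have zx : w.Zer (x - algebraMap k M x₀) := Or.inr (by rw [o]; norm_num)
      refine ⟨w, t, zx, oy, ?_, fun v hv h1 h2 => u v hv (by rw [hic]; exact h1)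
        (by rw [hic]; exact h2)⟩
      have hx : w.Reg x := by
        have e : x = (x - algebraMap k M x₀) + algebraMap k M x₀ := by ring
        rw [e]
        exact zx.reg.add (creg w x₀)
      have hyr : w.Reg y := N2_reg_sqrt (by rw [hxy]; exact N2_reg_aeval hx f)
      have k1 : w.ord (φ 1) = 0 ∧ φ 1 ≠ 0 := by
        have hc : (2 * y₀ : k) ≠ 0 := mul_ne_zero two_ne_zero hy
        have hc' : algebraMap k M (2 * y₀) ≠ 0 := (_root_.map_ne_zero _).2 hc
        have e : φ 1 = algebraMap k M (2 * y₀) + (y - algebraMap k M y₀) := by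
          rw [f1, map_mul, map_ofNat]; ring
        rw [e]
        rcases eq_or_ne (y - algebraMap k M y₀) 0 with h0 | h0
        · rw [h0, add_zero]
          exact ⟨w.ord_const _ hc, hc'⟩
        · have h1 := N2_zer_ge oy h0
          have h2 := w.ord_add_of_lt hc' h0 (by rw [w.ord_const _ hc]; omega)
          exact ⟨h2.2.trans (w.ord_const _ hc), h2.1⟩
      rw [N2_mult_eq (b := 1) k1.2, k1.1, f0, o, sub_zero]
      intro b hb
      rw [k1.1]
      fin_cases b
      · change (0:ℤ) ≤ w.ord (φ 0)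
        rw [f0, o]; norm_num
      · exact k1.1.ge
      · change (0:ℤ) ≤ w.ord (φ 2)
        change φ 2 ≠ 0 at hb
        rw [f2] at hb ⊢
        exact ((hyr.mul ((creg w x₀).pow _)).add ((creg w y₀).mul (hx.pow _))).resolve_left hb
  have h12 : w₂ ≠ w₁ := by
    rintro rfl
    have hxr : w₂.Reg x := by
      have e : x = (x - algebraMap k M x₀) + algebraMap k M x₀ := by ring
      rw [e]
      exact zx1.reg.add (creg w₂ x₀)
    have := hxr.resolve_left hx0
    rw [o2] at this
    omega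
  -- coordinates
  have inl_ : ∀ {N : Type} [Field N] [Algebra k N] (i' : M₀ →ₐ[k] N) (P : Option (N × N)) a t,
      T a = .inl t → ev1 T i' P a = mpt i' t := by
    intro N _ _ i' P a t ha
    unfold ev1
    rw [ha]
  have inr_ : ∀ {N : Type} [Field N] [Algebra k N] (i' : M₀ →ₐ[k] N) (P : Option (N × N)) a,
      T a = .inr () → ev1 T i' P a = sg (F a) 1 P := by
    intro N _ _ i' P a ha
    unfold ev1
    rw [ha]
  have q1 : ∀ a, T a = .inr () → y ^ 2 = aeval x (F a) := fun a hc => by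
    rw [hT a hc]; exact hxy
  have q2 : ∀ a, T a = .inr () → (algebraMap k M₀ y₀) ^ 2 = aeval (algebraMap k M₀ x₀) (F a) :=
    fun a hc => by rw [hT a hc]; exact h0M
  have q3 : ∀ a, T a = .inr () → (algebraMap k M y₀) ^ 2 = aeval (algebraMap k M x₀) (F a) :=
    fun a hc => by rw [hT a hc]; exact h0K
  obtain ⟨e1, he1⟩ := Pool.Agent.LibCHd.exists_res_equiv i w₁ t1.triv t1.res
  obtain ⟨e2, he2⟩ := Pool.Agent.LibCHd.exists_res_equiv i w₂ t2.triv t2.res
  have S1 : ∀ a, SpR w₁ (ev1 T i (some (x, y)) a) (mpt (e1 : M₀ →ₐ[k] RF w₁)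
      (ev1 T (AlgHom.id k M₀) (some (algebraMap k M₀ x₀, algebraMap k M₀ y₀)) a)) := fun a => by
    rcases ha : T a with t | ⟨⟩
    · rw [inl_ _ _ _ _ ha, inl_ _ _ _ _ ha, mpt_comp]
      exact SpR_triv i w₁ _ he1 _
    · rw [inr_ _ _ _ ha, inr_ _ _ _ ha]
      refine N2_sp (q3 a ha) (q1 a ha) ?_ ?_ ?_
      · rw [← neg_sub]; exact zx1.neg
      · rw [← neg_sub]; exact zy1.neg
      · rw [← hic, ← hic, ← N2_mpt_sg (q2 a ha)]
        exact SpR_triv i w₁ _ he1 _
  have S2 : ∀ a, SpR w₂ (ev1 T i (some (x, y)) a) (mpt (e2 : M₀ →ₐ[k] RF w₂)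
      (ev1 T (AlgHom.id k M₀) none a)) := fun a => by
    rcases ha : T a with t | ⟨⟩
    · rw [inl_ _ _ _ _ ha, inl_ _ _ _ _ ha, mpt_comp]
      exact SpR_triv i w₂ _ he2 _
    · rw [inr_ _ _ _ ha, inr_ _ _ _ ha, N2_mpt_none]
      exact N2_pole (q1 a ha) (by rw [o2]; norm_num)
  refine ⟨{w₁, w₂}, fun v => if v = w₁ then
    cyc (ev1 T (AlgHom.id k M₀) (some (algebraMap k M₀ x₀, algebraMap k M₀ y₀)))
    else cyc (ev1 T (AlgHom.id k M₀) none), ?_, ?_, ?_⟩
  · intro v hv
    simp only [Finset.mem_insert, Finset.mem_singleton] at hv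
    rcases hv with rfl | rfl
    · exact ⟨hM₀.congr e1, _, S1, by beta_reduce; rw [if_pos rfl]; exact (cyc_mpt e1 _).symm⟩
    · exact ⟨hM₀.congr e2, _, S2, by beta_reduce; rw [if_neg h12]; exact (cyc_mpt e2 _).symm⟩
  · intro v hv hmult hF q hq
    simp only [Finset.mem_insert, Finset.mem_singleton, not_or] at hv
    by_cases hpole : v.ord x < 0
    · have hnt : ∃ m, v.ord (i m) ≠ 0 := by
        by_contra hcon
        push Not at hcon
        exact hv.2 (u2 v hcon hpole)
      obtain ⟨m₀, hm₀⟩ := hnt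
      refine cyc_zero_of_M hM₀ i v m₀ hm₀ hF q fun a => ?_
      have hqa := hq a
      rcases ha : T a with t | ⟨⟩
      · right
        exact ⟨t, by rw [inl_ _ _ _ _ ha] at hqa; exact hqa⟩
      · left
        rw [inr_ _ _ _ ha] at hqa
        exact ⟨.inf, N2_pole' (q1 a ha) hpole hqa⟩
    · push Not at hpole
      have hx : v.Reg x := Or.inr hpole
      have hyr : v.Reg y := N2_reg_sqrt (by rw [hxy]; exact N2_reg_aeval hx f)
      have r1 : φ 1 = 0 ∨ 0 ≤ v.ord (φ 1) := by rw [f1]; exact hyr.add (creg v y₀)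
      have r2 : φ 2 = 0 ∨ 0 ≤ v.ord (φ 2) := by
        rw [f2]; exact (hyr.mul ((creg v x₀).pow _)).add ((creg v y₀).mul (hx.pow _))
      have hzx : v.Zer (x - algebraMap k M x₀) := by
        by_contra hcon
        apply hmult
        have k0 : v.ord (φ 0) = 0 := by
          rw [f0]
          exact v.ord_eq_zero_of_reg (hx.sub (creg v x₀)) hcon
        rw [N2_mult_eq (b := 0) f0', sub_self]
        intro b hb
        rw [k0]
        fin_cases b
        · exact k0.ge
        · exact r1.resolve_left hb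
        · exact r2.resolve_left hb
      obtain ⟨c, hc, hce⟩ := N2_sub_aeval hx (creg v x₀) f
      rw [← hxy, ← h0K] at hce
      have hprod : (y - algebraMap k M y₀) * (y + algebraMap k M y₀) =
          (x - algebraMap k M x₀) * c := by rw [← hce]; ring
      by_cases hzy : v.Zer (y - algebraMap k M y₀)
      · have hnt : ∃ m, v.ord (i m) ≠ 0 := by
          by_contra hcon
          push Not at hcon
          exact hv.1 (u1 v hcon hzx hzy)
        obtain ⟨m₀, hm₀⟩ := hnt
        refine cyc_zero_of_M hM₀ i v m₀ hm₀ hF q fun a => ?_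
        have hqa := hq a
        rcases ha : T a with t | ⟨⟩
        · right
          exact ⟨t, by rw [inl_ _ _ _ _ ha] at hqa; exact hqa⟩
        · right
          rw [inr_ _ _ _ ha] at hqa
          refine ⟨sg (F a) 1 (some (algebraMap k M₀ x₀, algebraMap k M₀ y₀)), ?_⟩
          rw [N2_mpt_sg (q2 a ha), hic, hic]
          exact N2_sp (q1 a ha) (q3 a ha) hzx hzy hqa
      · have hyne : y - algebraMap k M y₀ ≠ 0 := fun h' => hzy (Or.inl h')
        have hyo : v.ord (y - algebraMap k M y₀) = 0 :=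
          v.ord_eq_zero_of_reg (hyr.sub (creg v y₀)) hzy
        have hxo : 1 ≤ v.ord (x - algebraMap k M x₀) := N2_zer_ge hzx hxx
        have hsum : y + algebraMap k M y₀ = 0 ∨
            v.ord (x - algebraMap k M x₀) ≤ v.ord (y + algebraMap k M y₀) := by
          by_cases hs : y + algebraMap k M y₀ = 0
          · exact Or.inl hs
          right
          have h1 := N2_ord_prod (v := v) (m := v.ord (x - algebraMap k M x₀)) (n := 0)
            (Or.inr le_rfl) hc
          rw [← hprod, add_zero] at h1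
          have h2 := h1.resolve_left (mul_ne_zero hyne hs)
          rwa [v.ord_mul _ _ hyne hs, hyo, zero_add] at h2
        have hnt : ∃ m, v.ord (i m) ≠ 0 := by
          by_contra hcon
          apply hmult
          rw [N2_mult_eq (b := 0) f0', sub_self]
          intro b hb
          rw [f0]
          fin_cases b
          · exact (f0 v).ge
          · refine (?_ : φ 1 = 0 ∨ v.ord (x - algebraMap k M x₀) ≤ v.ord (φ 1)).resolve_left hb
            rw [f1]
            exact hsum
          · refine (?_ : φ 2 = 0 ∨ v.ord (x - algebraMap k M x₀) ≤ v.ord (φ 2)).resolve_left hb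
            obtain ⟨c', hc', hce'⟩ := N2_sub_aeval hx (creg v x₀) (Polynomial.X ^ gn f : k[X])
            rw [map_pow, aeval_X, map_pow, aeval_X] at hce'
            have e : φ 2 = (y + algebraMap k M y₀) * (algebraMap k M x₀) ^ gn f +
                algebraMap k M y₀ * ((x - algebraMap k M x₀) * c') := by
              rw [f2, ← hce']; ring
            rw [e]
            refine N2_ord_sum ?_ ?_
            · have := N2_ord_prod (n := 0) hsum ((creg v x₀).pow (gn f))
              rwa [add_zero] at this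
            · have := N2_ord_prod (m := 0) (creg v y₀)
                (N2_ord_prod (m := v.ord (x - algebraMap k M x₀)) (n := 0) (Or.inr le_rfl) hc')
              rwa [add_zero, zero_add] at this
        obtain ⟨m₀, hm₀⟩ := hnt
        have hzs : v.Zer (y + algebraMap k M y₀) := hsum.imp id fun h' => by omega
        refine cyc_zero_of_M hM₀ i v m₀ hm₀ hF q fun a => ?_
        have hqa := hq a
        rcases ha : T a with t | ⟨⟩
        · right
          exact ⟨t, by rw [inl_ _ _ _ _ ha] at hqa; exact hqa⟩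
        · right
          rw [inr_ _ _ _ ha] at hqa
          have q2' : (-algebraMap k M₀ y₀) ^ 2 = aeval (algebraMap k M₀ x₀) (F a) := by
            rw [neg_sq]; exact q2 a ha
          have q3' : (-algebraMap k M y₀) ^ 2 = aeval (algebraMap k M x₀) (F a) := by
            rw [neg_sq]; exact q3 a ha
          refine ⟨sg (F a) 1 (some (algebraMap k M₀ x₀, -algebraMap k M₀ y₀)), ?_⟩
          rw [N2_mpt_sg q2', map_neg, hic, hic]
          refine N2_sp (q1 a ha) q3' hzx ?_ hqa
          rw [sub_neg_eq_add]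
          exact hzs
  · rw [Finset.sum_insert, Finset.sum_singleton]
    · simp only [if_true, if_neg h12]
      rw [m1, m2, one_smul]
    · simp only [Finset.mem_singleton]
      exact fun h => h12 h.symm

theorem isZ_const (f : k[X]) [Hyp f] {i : M₀ →ₐ[k] M} {x y : M} (h : Gen1 i f x y) {d : ℕ}
    (hM₀ : FunF k d M₀) (T : ∀ a, MPt (F a) M₀ ⊕ Unit) (hT : ∀ a, T a = .inr () → F a = f)
    (x₀ y₀ : k) (h0 : y₀ ^ 2 = f.eval x₀) :
    IsZ (plane f (gn f) (some (x, y)) (some (algebraMap k M x₀, algebraMap k M y₀))) 0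
      (ev1 T i (some (x, y))) d
      (cyc (ev1 T (AlgHom.id k M₀) (some (algebraMap k M₀ x₀, algebraMap k M₀ y₀))) +
        (2 * gn f - 1 : ℤ) • cyc (ev1 T (AlgHom.id k M₀) none)) ∧
    IsZ (plane f (gn f) (some (algebraMap k M x₀, algebraMap k M y₀)) (some (x, y))) 0
      (ev1 T i (some (x, y))) d
      (cyc (ev1 T (AlgHom.id k M₀) (some (algebraMap k M₀ x₀, algebraMap k M₀ y₀))) +
        (2 * gn f - 1 : ℤ) • cyc (ev1 T (AlgHom.id k M₀) none)) := by
  have hxx : x - algebraMap k M x₀ ≠ 0 := by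
    have := h.tr (Polynomial.X - C (algebraMap k M₀ x₀)) (Polynomial.X_sub_C_ne_zero _)
    rw [eval₂_sub, eval₂_X, eval₂_C] at this
    change x - i (algebraMap k M₀ x₀) ≠ 0 at this
    rwa [i.commutes] at this
  have hp : plane f (gn f) (some (x, y)) (some (algebraMap k M x₀, algebraMap k M y₀)) =
      ![x - algebraMap k M x₀, y + algebraMap k M y₀,
        y * (algebraMap k M x₀) ^ gn f + algebraMap k M y₀ * x ^ gn f] := by
    change (if x = algebraMap k M x₀ ∧ y = -algebraMap k M y₀ then _ else _) = _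
    rw [if_neg]
    rintro ⟨h1, -⟩
    exact hxx (by rw [h1, sub_self])
  have hp' : plane f (gn f) (some (algebraMap k M x₀, algebraMap k M y₀)) (some (x, y)) =
      ![algebraMap k M x₀ - x, algebraMap k M y₀ + y,
        algebraMap k M y₀ * x ^ gn f + y * (algebraMap k M x₀) ^ gn f] := by
    change (if algebraMap k M x₀ = x ∧ algebraMap k M y₀ = -y then _ else _) = _
    rw [if_neg]
    rintro ⟨h1, -⟩
    exact hxx (by rw [h1, sub_self])
  constructor
  · refine N2_core f h hM₀ T hT x₀ y₀ h0 _ (fun v => ?_) ?_ ?_ ?_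
    · rw [hp]; rfl
    · rw [hp]; exact hxx
    · rw [hp]; rfl
    · rw [hp]; rfl
  · refine N2_core f h hM₀ T hT x₀ y₀ h0 _ (fun v => ?_) ?_ ?_ ?_
    · rw [hp']
      change v.ord (algebraMap k M x₀ - x) = _
      rw [← neg_sub, v.ord_neg]
    · rw [hp']
      change algebraMap k M x₀ - x ≠ 0
      rw [← neg_sub]
      exact neg_ne_zero.2 hxx
    · rw [hp']
      change algebraMap k M y₀ + y = _
      rw [add_comm]
    · rw [hp']
      change algebraMap k M y₀ * x ^ gn f + y * (algebraMap k M x₀) ^ gn f = _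
      rw [add_comm]

end Pool.Agent.LibHL77
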