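import Pool.Agent.LibHL77.E2
import Pool.Agent.LibHD77.T1

/-!
[HL77 P1] base change of diagonals. Proofs. `be_gen`: `be_funF`, the equations by `i.comm`, the generators: `M' = Lf k(i M)` and
`M = k(x, y)`. `lftP_pnt`: for every coordinate: `lft_cst`; `mk'`: the equation holds for `x, ± y` iff it holds for the
images. `B_cl`: `exists_be`, `hB`, `lftP_pnt`, `cl_eq` over `Lf k` (`Cmp` for `extD` and the curves `(V e).map`).
-/

open scoped Classical
open Polynomial

namespace Pool.Agent.LibHL77

open Pool.Agent.LibBH2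
open Pool.Agent.LibCHd (VR RF Red FunF IsCps)
open Pool.Agent.LibHyp34 (Hyp Pt Pic jP Sp KC DCf gn)
open Pool.Agent.LibHD77
open Pool.Agent.LibHD77.Comb (Pat sub Cmp)

variable {k : Type} [Field k] [CharZero k] {n D : ℕ} {F : Fin n → k[X]}

omit [CharZero k] in
/-- the value of a polynomial with coefficients in `k` under a homomorphism of fields over `k → L` -/
theorem p1_eval {L : Type} [Field L] [Algebra k L] {M M' : Type} [Field M] [Algebra k M]
    [Field M'] [Algebra L M'] (i : EHom k L M M') (f : k[X]) (x : M) :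
    i.f (aeval x f) = aeval (i.f x) (f.map (algebraMap k L)) := by
  have h1 : (i.f.comp (algebraMap k M)) = (algebraMap L M').comp (algebraMap k L) :=
    RingHom.ext i.comm
  rw [aeval_def, Polynomial.hom_eval₂, h1, aeval_def, Polynomial.eval₂_map]

omit [CharZero k] in
/-- a field generated over the smaller field goes into a field generated by the images -/
theorem p1_mem {L : Type} [Field L] [Algebra k L] {M M' : Type} [Field M] [Algebra k M]
    [Field M'] [Algebra L M'] (i : EHom k L M M') (S : Set M) (E : IntermediateField L M')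
    (h : ∀ s ∈ S, i.f s ∈ E) (m : M) (hm : m ∈ IntermediateField.adjoin k S) : i.f m ∈ E := by
  let C : IntermediateField k M :=
    { (E.toSubfield.comap i.f) with
      algebraMap_mem' := fun c => by
        change i.f (algebraMap k M c) ∈ E
        rw [i.comm]
        exact E.algebraMap_mem _ }
  have h1 : IntermediateField.adjoin k S ≤ C := by
    rw [IntermediateField.adjoin_le_iff]
    exact fun s hs => h s hs
  exact h1 hm

theorem be_gen {M M' : Type} [Field M] [Algebra k M] [Field M'] [Algebra (Lf k) M']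
    {i : EHom k (Lf k) M M'} (h : BE i) {V : Fin D → k[X]} {x y : Fin D → M} (hg : Gen V x y) :
    Gen (fun e => (V e).map (algebraMap k (Lf k))) (fun e => i.f (x e)) (fun e => i.f (y e)) := by
  refine ⟨be_funF h hg.dim, fun e => ?_, ?_⟩
  · rw [← map_pow, hg.eq e, p1_eval]
  · rw [eq_top_iff, ← h.gen, IntermediateField.adjoin_le_iff]
    rintro _ ⟨m, rfl⟩
    refine p1_mem i (Set.range x ∪ Set.range y) _ ?_ m (by rw [hg.gen]; exact IntermediateField.mem_top)
    rintro s (⟨e, rfl⟩ | ⟨e, rfl⟩)
    · exact IntermediateField.subset_adjoin _ _ (Or.inl ⟨e, rfl⟩)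
    · exact IntermediateField.subset_adjoin _ _ (Or.inr ⟨e, rfl⟩)

omit [CharZero k] in
theorem p1_mk {L : Type} [Field L] [Algebra k L] {M M' : Type} [Field M] [Algebra k M]
    [Field M'] [Algebra L M'] (i : EHom k L M M') (f : k[X]) (x y : M) :
    lft i (mk' f x y : MPt f M) = mk' (f.map (algebraMap k L)) (i.f x) (i.f y) := by
  have hiff : (i.f y) ^ 2 = ((f.map (algebraMap k L)).map (algebraMap L M')).eval (i.f x) ↔
      y ^ 2 = (f.map (algebraMap k M)).eval x := by
    rw [eval_map_algebraMap, eval_map_algebraMap, ← p1_eval, ← map_pow]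
    exact i.f.injective.eq_iff
  unfold mk'
  by_cases h : y ^ 2 = (f.map (algebraMap k M)).eval x
  · rw [dif_pos h, dif_pos (hiff.2 h)]
    rfl
  · rw [dif_neg h, dif_neg (fun h' => h (hiff.1 h'))]
    rfl

theorem lftP_pnt {L : Type} [Field L] [Algebra k L] {M M' : Type} [Field M] [Algebra k M]
    [Field M'] [Algebra L M'] (i : EHom k L M M') (δ : Dia F D) (x y : Fin D → M) :
    lftP i (pnt δ x y) = pnt (extD L δ) (fun e => i.f (x e)) (fun e => i.f (y e)) := by
  funext a
  unfold lftP pnt extD
  rcases h : δ a with s | q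
  · exact lft_cst i s
  · change lft i (mk' (F a) (x q.1) ((q.2 : ℤ) * y q.1) : MPt (F a) M) =
      mk' ((F a).map (algebraMap k L)) (i.f (x q.1)) ((q.2 : ℤ) * i.f (y q.1))
    rw [p1_mk, map_mul, map_intCast]

theorem B_cl (hF : ∀ a, Hyp (F a)) {B : Cyc k n →+ Cyc (Lf k) n} (hB : IsB F D B)
    {M : Type} [Field M] [Algebra k M] (δ : Dia F D) (V : Fin D → k[X]) (x y : Fin D → M)
    (h : Cmp F δ V) (hg : Gen V x y) :
    (QuotientAddGroup.mk (B (cyc (pnt δ x y))) : CH (ext (Lf k) F) D) = cl (extD (Lf k) δ) := by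
  obtain ⟨M', _, _, i, hi⟩ := exists_be (k := k) M
  rw [hB M (pnt δ x y) hg.dim M' i hi, lftP_pnt]
  symm
  have hc : Cmp (ext (Lf k) F) (extD (Lf k) δ) (fun e => (V e).map (algebraMap k (Lf k))) := by
    refine ⟨fun e => ?_, fun a e ε ha => ?_⟩
    · obtain ⟨a, ε, ha⟩ := h.1 e
      refine ⟨a, ε, ?_⟩
      unfold extD
      rw [ha]
      rfl
    · unfold extD at ha
      rcases h' : δ a with s | q
      · rw [h'] at ha
        simp at ha
      · rw [h'] at ha
        simp only [Sum.map_inr, id_eq, Sum.inr.injEq] at ha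
        subst ha
        show (V e).map _ = (F a).map _
        rw [h.2 a e ε h']
  exact cl_eq (fun a => hyp_map (Lf k) (F a) (hF a)) (extD (Lf k) δ)
    (fun e => (V e).map (algebraMap k (Lf k))) (fun e => i.f (x e)) (fun e => i.f (y e)) hc (be_gen hi hg)

end Pool.Agent.LibHL77
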