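import Pool.Agent.LibHL77.N0
import Pool.Agent.LibHL77.L1c
import Pool.Agent.LibHL77.P1
import Pool.Agent.LibHL77.MDefs

/-!
Points with one or two free points: definitions, and some lemmas on the divisors of zeros.
-/

open scoped Classical
open Polynomial

namespace Pool.Agent.LibHL77

open Pool.Agent.LibBH2
open Pool.Agent.LibCHd (VR RF Red FunF IsCps)
open Pool.Agent.LibHyp34 (Hyp Pt Pic jP Sp KC DCf gn)
open Pool.Agent.LibHD77
open Pool.Agent.LibHD77.Comb (Pat sub Cmp)

variable {k : Type} [Field k] {n : ℕ} {F : Fin n → k[X]} {M₀ M : Type} [Field M₀] [Algebra k M₀]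
  [Field M] [Algebra k M]

/-- evaluation: the coordinates are points over `M₀` (`inl`) or the free point `P` (`inr`) -/
noncomputable def ev1 (T : ∀ a, MPt (F a) M₀ ⊕ Unit) (i : M₀ →ₐ[k] M) (P : Option (M × M)) :
    Pnt F M := fun a =>
  match T a with
  | .inl t => mpt i t
  | .inr _ => sg (F a) 1 P

/-- evaluation: the coordinates are points over `M₀` (`inl`) or one of the free points `P` (`inr false`),
`Q` (`inr true`) -/
noncomputable def ev2 (T : ∀ a, MPt (F a) M₀ ⊕ Bool) (i : M₀ →ₐ[k] M) (P Q : Option (M × M)) :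
    Pnt F M := fun a =>
  match T a with
  | .inl t => mpt i t
  | .inr c => sg (F a) 1 (if c then Q else P)

end Pool.Agent.LibHL77
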