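import Pool.Agent.LibHL77.QDefs

/-!
[HL77 Q0a] a diagonal as a point with one free point over the field of the others. Proof. `gen_base` (LibHD77/U4b.lean) for `e`
gives `M₀, i, x₀, y₀`. `T a = .inr ()` for `a ∈ τ e`, `T a = .inl (cst M₀ (s a))` if `a` is in no block, and
`.inl (mk' (F a) (x₀ b) (1 * y₀ b))` if `a ∈ τ (e.succAbove b)` (`Fin.exists_succAbove_eq`). The blocks are disjoint, so the
`choose` in `pp` is determined. Compare the proof of `cl_par` in LibHD77/T2b.lean. `Cmp`: the blocks are not empty, the curves as before.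
`FunF`: `Gen.dim`.
-/

open scoped Classical
open Polynomial

namespace Pool.Agent.LibHL77

open Pool.Agent.LibBH2
open Pool.Agent.LibCHd (VR RF Red FunF IsCps)
open Pool.Agent.LibHyp34 (Hyp Pt Pic jP Sp KC DCf gn)
open Pool.Agent.LibHD77
open Pool.Agent.LibHD77.Comb (Pat sub Cmp)

variable {k : Type} [Field k] {n D : ℕ} {F : Fin n → k[X]}

theorem q0a_pp_mem {D : ℕ} {τ : Fin D → Finset (Fin n)} (h : ∀ e e', e ≠ e' → Disjoint (τ e) (τ e'))
    (s : ∀ a, Pt (F a)) {a : Fin n} {e : Fin D} (ha : a ∈ τ e) :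
    (pp τ s : Dia F D) a = .inr (e, 1) := by
  have hex : ∃ e, a ∈ τ e := ⟨e, ha⟩
  unfold pp
  rw [dif_pos hex]
  have h1 : hex.choose = e := by
    by_contra hne
    exact Finset.disjoint_left.1 (h _ _ hne) hex.choose_spec ha
  rw [h1]

theorem q0a_pp_not {D : ℕ} {τ : Fin D → Finset (Fin n)} (s : ∀ a, Pt (F a)) {a : Fin n}
    (ha : ∀ e, a ∉ τ e) : (pp τ s : Dia F D) a = .inl (s a) := by
  unfold pp
  rw [dif_neg]
  rintro ⟨e, h⟩
  exact ha e h

theorem q0a_mpt_id {M : Type} [Field M] [Algebra k M] {f : k[X]} (p : MPt f M) :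
    mpt (AlgHom.id k M) p = p := by
  rcases p with _ | ⟨x, y, h⟩
  · rfl
  · rfl

theorem q0a_dl {D : ℕ} {τ : Fin (D + 1) → Finset (Fin n)}
    (h : ∀ e e', e ≠ e' → Disjoint (τ e) (τ e')) (e : Fin (D + 1)) :
    ∀ b b', b ≠ b' → Disjoint (dl e τ b) (dl e τ b') := fun _ _ hb =>
  h _ _ fun h' => hb (Fin.succAbove_right_injective h')

theorem base1 (hF : ∀ a, Hyp (F a)) (τ : Fin (D + 1) → Finset (Fin n)) (s : ∀ a, Pt (F a))
    (hτ : Val F τ) {M : Type} [Field M] [Algebra k M] (V : Fin (D + 1) → k[X])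
    (x y : Fin (D + 1) → M) (hc : Cmp F (pp τ s) V) (hg : Gen V x y) (e : Fin (D + 1)) :
    ∃ (M₀ : Type) (_ : Field M₀) (_ : Algebra k M₀) (i : M₀ →ₐ[k] M) (x₀ y₀ : Fin D → M₀)
      (T : ∀ a, MPt (F a) M₀ ⊕ Unit),
      Gen (fun b => V (e.succAbove b)) x₀ y₀ ∧ Gen1 i (V e) (x e) (y e) ∧
      (∀ a, T a = .inr () → F a = V e) ∧ (∀ a, T a = .inr () ↔ a ∈ τ e) ∧
      pnt (pp τ s) x y = ev1 T i (some (x e, y e)) ∧
      (∀ s' : ∀ a, Pt (F a), Cmp F (pp (dl e τ) s') (fun b => V (e.succAbove b))) ∧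
      ev1 T (AlgHom.id k M₀) none =
        pnt (pp (dl e τ) (fun a => if a ∈ τ e then .inf else s a)) x₀ y₀ ∧
      ∀ (p : k × k) (s' : ∀ a, Pt (F a)), p.2 ^ 2 = (V e).eval p.1 → (∀ a, a ∉ τ e → s' a = s a) →
        (∀ a, a ∈ τ e → opt (s' a) = some p) →
        ev1 T (AlgHom.id k M₀) (some (algebraMap k M₀ p.1, algebraMap k M₀ p.2)) =
          pnt (pp (dl e τ) s') x₀ y₀ := by
  have hdis := hτ.1
  have hdl := q0a_dl hdis e
  have hV : ∀ b, Hyp (V b) := T1_hV hF hc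
  obtain ⟨M₀, _, _, i, x₀, y₀, hG, hx, hy, hG1⟩ := gen_base hV hg e
  let T : ∀ a, MPt (F a) M₀ ⊕ Unit := fun a =>
    if a ∈ τ e then .inr () else
      if h : ∃ b, a ∈ dl e τ b then .inl (mk' (F a) (x₀ h.choose) (((1 : ℤˣ) : ℤ) * y₀ h.choose))
      else .inl (cst M₀ (s a))
  have hT1 : ∀ a, a ∈ τ e → T a = .inr () := fun a ha => if_pos ha
  have hT2 : ∀ a b, a ∈ dl e τ b → T a = .inl (mk' (F a) (x₀ b) (((1 : ℤˣ) : ℤ) * y₀ b)) := by
    intro a b hab
    have hne : a ∉ τ e := fun h =>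
      Finset.disjoint_left.1 (hdis _ _ (Fin.succAbove_ne e b)) hab h
    have hex : ∃ b, a ∈ dl e τ b := ⟨b, hab⟩
    have h1 : hex.choose = b := by
      by_contra hne'
      exact Finset.disjoint_left.1 (hdl _ _ hne') hex.choose_spec hab
    show (if a ∈ τ e then (.inr () : MPt (F a) M₀ ⊕ Unit) else
      if h : ∃ b, a ∈ dl e τ b then
        (.inl (mk' (F a) (x₀ h.choose) (((1 : ℤˣ) : ℤ) * y₀ h.choose)) : MPt (F a) M₀ ⊕ Unit)
      else .inl (cst M₀ (s a))) = _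
    rw [if_neg hne, dif_pos hex, h1]
  have hT3 : ∀ a, a ∉ τ e → (∀ b, a ∉ dl e τ b) → T a = .inl (cst M₀ (s a)) := by
    intro a ha hb
    show (if a ∈ τ e then (.inr () : MPt (F a) M₀ ⊕ Unit) else
      if h : ∃ b, a ∈ dl e τ b then
        (.inl (mk' (F a) (x₀ h.choose) (((1 : ℤˣ) : ℤ) * y₀ h.choose)) : MPt (F a) M₀ ⊕ Unit)
      else .inl (cst M₀ (s a))) = _
    rw [if_neg ha, dif_neg]
    rintro ⟨b, h⟩
    exact hb b h
  have hcase : ∀ a, a ∈ τ e ∨ (∃ b, a ∈ dl e τ b) ∨ (a ∉ τ e ∧ ∀ b, a ∉ dl e τ b) := by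
    intro a
    by_cases h1 : a ∈ τ e
    · exact Or.inl h1
    · by_cases h2 : ∃ b, a ∈ dl e τ b
      · exact Or.inr (Or.inl h2)
      · exact Or.inr (Or.inr ⟨h1, fun b hb => h2 ⟨b, hb⟩⟩)
  have hinr : ∀ a, T a = .inr () ↔ a ∈ τ e := by
    intro a
    refine ⟨fun h => ?_, hT1 a⟩
    rcases hcase a with h1 | ⟨b, h1⟩ | ⟨h1, h2⟩
    · exact h1
    · rw [hT2 a b h1] at h
      exact absurd h (by simp)
    · rw [hT3 a h1 h2] at h
      exact absurd h (by simp)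
  have hnot : ∀ a, a ∉ τ e → (∀ b, a ∉ dl e τ b) → ∀ j, a ∉ τ j := by
    intro a h1 h2 j hj
    rcases eq_or_ne j e with rfl | hne
    · exact h1 hj
    · obtain ⟨b, rfl⟩ := Fin.exists_succAbove_eq hne
      exact h2 b hj
  have hin : ∀ a, a ∈ τ e → ∀ b, a ∉ dl e τ b := fun a ha b hb =>
    Finset.disjoint_left.1 (hdis _ _ (Fin.succAbove_ne e b)) hb ha
  refine ⟨M₀, _, _, i, x₀, y₀, T, hG, hG1, ?_, hinr, ?_, ?_, ?_, ?_⟩
  · intro a ha
    exact (hc.2 a e 1 (q0a_pp_mem hdis s ((hinr a).1 ha))).symm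
  · funext a
    rcases hcase a with h1 | ⟨b, h1⟩ | ⟨h1, h2⟩
    · unfold pnt ev1
      rw [q0a_pp_mem hdis s h1, hT1 a h1]
      rfl
    · unfold pnt ev1
      have h1' : a ∈ τ (e.succAbove b) := h1
      rw [q0a_pp_mem hdis s h1', hT2 a b h1]
      show mk' (F a) (x (e.succAbove b)) (((1 : ℤˣ) : ℤ) * y (e.succAbove b)) =
        mpt i (mk' (F a) (x₀ b) (((1 : ℤˣ) : ℤ) * y₀ b) : MPt (F a) M₀)
      rw [T1_mpt, hx, map_mul, hy, map_intCast]
    · unfold pnt ev1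
      rw [q0a_pp_not s (hnot a h1 h2), hT3 a h1 h2]
      exact (mpt_cst i (s a)).symm
  · intro s'
    constructor
    · intro b
      obtain ⟨a, ha⟩ := (hτ.2 (e.succAbove b)).1
      exact ⟨a, 1, q0a_pp_mem hdl s' ha⟩
    · intro a b ε hab
      have h1 : a ∈ dl e τ b := by
        rcases hcase a with h1 | ⟨c, h1⟩ | ⟨h1, h2⟩
        · rw [q0a_pp_not s' (hin a h1)] at hab
          exact absurd hab (by simp)
        · rw [q0a_pp_mem hdl s' h1] at hab
          simp only [Sum.inr.injEq, Prod.mk.injEq] at hab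
          rw [← hab.1]
          exact h1
        · rw [q0a_pp_not s' h2] at hab
          exact absurd hab (by simp)
      have h2 : a ∈ τ (e.succAbove b) := h1
      exact hc.2 a (e.succAbove b) 1 (q0a_pp_mem hdis s h2)
  · funext a
    rcases hcase a with h1 | ⟨b, h1⟩ | ⟨h1, h2⟩
    · unfold pnt ev1
      rw [q0a_pp_not _ (hin a h1), hT1 a h1]
      show (.inf : MPt (F a) M₀) = cst M₀ (if a ∈ τ e then .inf else s a)
      rw [if_pos h1]
      rfl
    · unfold pnt ev1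
      rw [q0a_pp_mem hdl _ h1, hT2 a b h1]
      exact q0a_mpt_id _
    · unfold pnt ev1
      rw [q0a_pp_not _ h2, hT3 a h1 h2]
      show mpt (AlgHom.id k M₀) (cst M₀ (s a) : MPt (F a) M₀) = cst M₀ (if a ∈ τ e then .inf else s a)
      rw [if_neg h1]
      exact q0a_mpt_id _
  · intro p s' hp hs1 hs2
    funext a
    rcases hcase a with h1 | ⟨b, h1⟩ | ⟨h1, h2⟩
    · unfold pnt ev1
      rw [q0a_pp_not _ (hin a h1), hT1 a h1]
      show (mk' (F a) (algebraMap k M₀ p.1) (((1 : ℤˣ) : ℤ) * algebraMap k M₀ p.2) : MPt (F a) M₀) =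
        cst M₀ (s' a)
      have h3 := hs2 a h1
      rcases h4 : s' a with _ | ⟨x1, y1, h5⟩
      · rw [h4] at h3
        exact absurd h3 (by simp [opt])
      · rw [h4] at h3
        simp only [opt, Option.some.injEq] at h3
        subst h3
        rw [Units.val_one, Int.cast_one, one_mul]
        exact dif_pos (by
          rw [← map_pow, h5, eval_map_algebraMap, aeval_algebraMap_apply, coe_aeval_eq_eval])
    · unfold pnt ev1
      rw [q0a_pp_mem hdl _ h1, hT2 a b h1]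
      exact q0a_mpt_id _
    · unfold pnt ev1
      rw [q0a_pp_not _ h2, hT3 a h1 h2, hs1 a h1]
      exact q0a_mpt_id _

end Pool.Agent.LibHL77
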