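import Pool.Agent.LibHL77.QDefs

/-!
[HL77 Q0b] a diagonal as a point with two free points over the field of the others. Proof. `gen_base` (LibHD77/U4b.lean) for `e'` gives
`M₁, j, x₁, y₁`, then `gen_base` for `e₀` (`e'.succAbove e₀ = e`, `Fin.exists_succAbove_eq`) in `M₁` gives `M₀, i` (if `D` is zero there
are no two different indices; write `D = D' + 1`). `T a = .inr false` on `τ e`, `.inr true` on `τ e'`,
`.inl` of the constant or of the point of the block over `M₀` otherwise. As in Q0a, LibHD77/T2b.lean.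
-/

open scoped Classical
open Polynomial

namespace Pool.Agent.LibHL77

open Pool.Agent.LibBH2
open Pool.Agent.LibCHd (VR RF Red FunF IsCps)
open Pool.Agent.LibHyp34 (Hyp Pt Pic jP Sp KC DCf gn)
open Pool.Agent.LibHD77
open Pool.Agent.LibHD77.Comb (Pat sub Cmp)

variable {k : Type} [Field k] {n D : ℕ} {F : Fin n → k[X]}

/-- `mk'` is compatible with base change -/
private theorem Q0b_mk {M₀ M : Type} [Field M₀] [Algebra k M₀] [Field M] [Algebra k M]
    (i : M₀ →ₐ[k] M) (f : k[X]) (x y : M₀) : mpt i (mk' f x y) = mk' f (i x) (i y) := by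
  have hiff : y ^ 2 = (f.map (algebraMap k M₀)).eval x ↔
      i y ^ 2 = (f.map (algebraMap k M)).eval (i x) := by
    rw [← map_pow, eval_map_algebraMap, eval_map_algebraMap, aeval_algHom_apply]
    exact i.injective.eq_iff.symm
  unfold mk'
  by_cases h : y ^ 2 = (f.map (algebraMap k M₀)).eval x
  · rw [dif_pos h, dif_pos (hiff.1 h)]
    rfl
  · rw [dif_neg h, dif_neg fun h' => h (hiff.2 h')]
    rfl

private theorem Q0b_un {d : ℕ} {τ : Fin d → Finset (Fin n)}
    (hd : ∀ e e', e ≠ e' → Disjoint (τ e) (τ e')) {a : Fin n} {b b' : Fin d} (h : a ∈ τ b)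
    (h' : a ∈ τ b') : b = b' := by
  by_contra hne
  exact Finset.disjoint_left.1 (hd b b' hne) h h'

private theorem Q0b_pp {d : ℕ} {τ : Fin d → Finset (Fin n)} (s : ∀ a, Pt (F a))
    (hd : ∀ e e', e ≠ e' → Disjoint (τ e) (τ e')) {a : Fin n} {b : Fin d} (h : a ∈ τ b) :
    pp τ s a = .inr (b, 1) := by
  have hex : ∃ e, a ∈ τ e := ⟨b, h⟩
  unfold pp
  rw [dif_pos hex, Q0b_un hd hex.choose_spec h]

private theorem Q0b_pn {d : ℕ} {τ : Fin d → Finset (Fin n)} (s : ∀ a, Pt (F a)) {a : Fin n}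
    (h : ∀ b, a ∉ τ b) : pp τ s a = .inl (s a) := by
  unfold pp
  rw [dif_neg (fun hex => h _ hex.choose_spec)]

private theorem Q0b_cmp {d : ℕ} {τ : Fin d → Finset (Fin n)} (s : ∀ a, Pt (F a))
    (hd : ∀ e e', e ≠ e' → Disjoint (τ e) (τ e')) (hn : ∀ e, (τ e).Nonempty) {V : Fin d → k[X]}
    (hV : ∀ e, ∀ a ∈ τ e, V e = F a) : Cmp F (pp τ s) V := by
  constructor
  · intro b
    obtain ⟨a, ha⟩ := hn b
    exact ⟨a, 1, Q0b_pp s hd ha⟩
  · intro a b ε hab
    by_cases hex : ∃ e, a ∈ τ e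
    · obtain ⟨e, he⟩ := hex
      rw [Q0b_pp s hd he, Sum.inr.injEq, Prod.mk.injEq] at hab
      rw [← hab.1]
      exact hV e a he
    · rw [Q0b_pn s (fun b hb => hex ⟨b, hb⟩)] at hab
      exact absurd hab (by simp)

section

variable {M : Type} [Field M] [Algebra k M]

private theorem Q0b_in {d : ℕ} {δ : Dia F d} (x y : Fin d → M) {a : Fin n} {b : Fin d}
    (h : δ a = .inr (b, 1)) : pnt δ x y a = mk' (F a) (x b) (y b) := by
  simp only [pnt, h, Units.val_one, Int.cast_one, one_mul]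

private theorem Q0b_out {d : ℕ} {δ : Dia F d} (x y : Fin d → M) {a : Fin n} {t : Pt (F a)}
    (h : δ a = .inl t) : pnt δ x y a = cst M t := by
  simp only [pnt, h]

variable {M₀ : Type} [Field M₀] [Algebra k M₀]

private theorem Q0b_ev0 {T : ∀ a, MPt (F a) M₀ ⊕ Bool} (i : M₀ →ₐ[k] M) (P Q : Option (M × M))
    {a : Fin n} (h : T a = .inr false) : ev2 T i P Q a = sg (F a) 1 P := by
  simp only [ev2, h]
  rfl

private theorem Q0b_ev1 {T : ∀ a, MPt (F a) M₀ ⊕ Bool} (i : M₀ →ₐ[k] M) (P Q : Option (M × M))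
    {a : Fin n} (h : T a = .inr true) : ev2 T i P Q a = sg (F a) 1 Q := by
  simp only [ev2, h]
  rfl

private theorem Q0b_evl {T : ∀ a, MPt (F a) M₀ ⊕ Bool} (i : M₀ →ₐ[k] M) (P Q : Option (M × M))
    {a : Fin n} {t : MPt (F a) M₀} (h : T a = .inl t) : ev2 T i P Q a = mpt i t := by
  simp only [ev2, h]

private theorem Q0b_sg (f : k[X]) (u v : M) : sg f 1 (some (u, v)) = mk' f u v := by
  simp only [sg, Units.val_one, Int.cast_one, one_mul]

end

/-- the coordinates of the points -/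
private theorem Q0b_T {τ : Fin (D + 2) → Finset (Fin n)} (s : ∀ a, Pt (F a))
    (hd : ∀ e e', e ≠ e' → Disjoint (τ e) (τ e')) {e e' : Fin (D + 2)} (hne : e ≠ e')
    {e₀ : Fin (D + 1)} (he₀ : e'.succAbove e₀ = e) {M₀ : Type} [Field M₀] [Algebra k M₀]
    (x₀ y₀ : Fin D → M₀) : ∃ T : ∀ a, MPt (F a) M₀ ⊕ Bool,
      (∀ a ∈ τ e, T a = .inr false) ∧ (∀ a ∈ τ e', T a = .inr true) ∧
      (∀ a b, a ∈ τ (e'.succAbove (e₀.succAbove b)) → T a = .inl (mk' (F a) (x₀ b) (y₀ b))) ∧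
      (∀ a, (∀ b, a ∉ τ b) → T a = .inl (cst M₀ (s a))) := by
  refine ⟨fun a => if a ∈ τ e then .inr false else if a ∈ τ e' then .inr true else
    if h : ∃ b, a ∈ τ (e'.succAbove (e₀.succAbove b)) then
      .inl (mk' (F a) (x₀ h.choose) (y₀ h.choose)) else .inl (cst M₀ (s a)), ?_, ?_, ?_, ?_⟩
  · intro a ha
    exact if_pos ha
  · intro a ha
    have h1 : a ∉ τ e := fun h => hne (Q0b_un hd h ha)
    show (if a ∈ τ e then _ else if a ∈ τ e' then _ else _) = _
    rw [if_neg h1, if_pos ha]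
  · intro a b hab
    have h1 : a ∉ τ e := fun h => by
      have h2 := Q0b_un hd h hab
      rw [← he₀] at h2
      exact Fin.succAbove_ne e₀ b (Fin.succAbove_right_injective h2).symm
    have h2 : a ∉ τ e' := fun h => Fin.succAbove_ne e' _ (Q0b_un hd h hab).symm
    have hex : ∃ b, a ∈ τ (e'.succAbove (e₀.succAbove b)) := ⟨b, hab⟩
    have h3 : hex.choose = b :=
      Fin.succAbove_right_injective (Fin.succAbove_right_injective
        (Q0b_un hd hex.choose_spec hab))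
    show (if a ∈ τ e then _ else if a ∈ τ e' then _ else
      if h : ∃ b, a ∈ τ (e'.succAbove (e₀.succAbove b)) then _ else _) = _
    rw [if_neg h1, if_neg h2, dif_pos hex, h3]
  · intro a ha
    show (if a ∈ τ e then _ else if a ∈ τ e' then _ else
      if h : ∃ b, a ∈ τ (e'.succAbove (e₀.succAbove b)) then _ else _) = _
    rw [if_neg (ha e), if_neg (ha e'), dif_neg (fun h => ha _ h.choose_spec)]

theorem base2 (hF : ∀ a, Hyp (F a)) (τ : Fin (D + 2) → Finset (Fin n)) (s : ∀ a, Pt (F a))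
    (hτ : Val F τ) {M : Type} [Field M] [Algebra k M] (V : Fin (D + 2) → k[X])
    (x y : Fin (D + 2) → M) (hc : Cmp F (pp τ s) V) (hg : Gen V x y) (e e' : Fin (D + 2))
    (hne : e ≠ e') (hV : V e = V e') :
    ∃ (M₀ : Type) (_ : Field M₀) (_ : Algebra k M₀) (M₁ : Type) (_ : Field M₁) (_ : Algebra k M₁)
      (i : M₀ →ₐ[k] M₁) (j : M₁ →ₐ[k] M) (x₁ y₁ : Fin (D + 1) → M₁) (e₀ : Fin (D + 1))
      (T : ∀ a, MPt (F a) M₀ ⊕ Bool), e'.succAbove e₀ = e ∧
      Gen (fun b => V (e'.succAbove b)) x₁ y₁ ∧ j (x₁ e₀) = x e ∧ j (y₁ e₀) = y e ∧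
      Gen1 i (V e) (x₁ e₀) (y₁ e₀) ∧ Gen1 j (V e) (x e') (y e') ∧
      (∀ a c, T a = .inr c → F a = V e) ∧
      (∀ a, (T a = .inr false ↔ a ∈ τ e) ∧ (T a = .inr true ↔ a ∈ τ e')) ∧
      pnt (pp τ s) x y = ev2 T (j.comp i) (some (x e, y e)) (some (x e', y e')) ∧
      (∀ s' : ∀ a, Pt (F a), Cmp F (pp (mrg e e' τ) s') (fun b => V (e'.succAbove b)) ∧
        Cmp F (pp (dl e' τ) s') (fun b => V (e'.succAbove b)) ∧
        Cmp F (pp (Function.update (dl e' τ) e₀ (τ e')) s') (fun b => V (e'.succAbove b))) ∧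
      ev2 T i (some (x₁ e₀, y₁ e₀)) (some (x₁ e₀, y₁ e₀)) = pnt (pp (mrg e e' τ) s) x₁ y₁ ∧
      ev2 T i (some (x₁ e₀, y₁ e₀)) none =
        pnt (pp (dl e' τ) (fun a => if a ∈ τ e' then .inf else s a)) x₁ y₁ ∧
      ev2 T i none (some (x₁ e₀, y₁ e₀)) =
        pnt (pp (Function.update (dl e' τ) e₀ (τ e')) (fun a => if a ∈ τ e then .inf else s a))
          x₁ y₁ := by
  have hd := hτ.1
  have hVF : ∀ b, ∀ a ∈ τ b, V b = F a := fun b a ha => hc.2 a b 1 (Q0b_pp s hd ha)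
  have hVH : ∀ b, Hyp (V b) := by
    intro b
    obtain ⟨a, ha⟩ := (hτ.2 b).1
    rw [hVF b a ha]
    exact hF a
  obtain ⟨M₁, _, _, j, x₁, y₁, hG₁, hx₁, hy₁, hGj⟩ := gen_base hVH hg e'
  obtain ⟨e₀, he₀⟩ := Fin.exists_succAbove_eq hne
  obtain ⟨M₀, _, _, i, x₀, y₀, -, hx₀, hy₀, hGi⟩ :=
    gen_base (fun b => hVH (e'.succAbove b)) hG₁ e₀
  obtain ⟨T, hTA, hTB, hTC, hTN⟩ := Q0b_T (F := F) s hd hne he₀ x₀ y₀
  have hcases : ∀ a, a ∈ τ e ∨ a ∈ τ e' ∨ (∃ b, a ∈ τ (e'.succAbove (e₀.succAbove b))) ∨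
      ∀ b, a ∉ τ b := by
    intro a
    by_cases hex : ∃ b, a ∈ τ b
    · obtain ⟨b, hb⟩ := hex
      by_cases hb' : b = e'
      · rw [hb'] at hb
        exact Or.inr (Or.inl hb)
      · obtain ⟨b₁, rfl⟩ := Fin.exists_succAbove_eq hb'
        by_cases hb₁ : b₁ = e₀
        · rw [hb₁, he₀] at hb
          exact Or.inl hb
        · obtain ⟨b₂, rfl⟩ := Fin.exists_succAbove_eq hb₁
          exact Or.inr (Or.inr (Or.inl ⟨b₂, hb⟩))
    · exact Or.inr (Or.inr (Or.inr fun b hb => hex ⟨b, hb⟩))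
  have hne2 : ∀ b, e'.succAbove (e₀.succAbove b) ≠ e := by
    intro b h
    rw [← he₀] at h
    exact Fin.succAbove_ne e₀ b (Fin.succAbove_right_injective h)
  have hne3 : ∀ b, b ≠ e₀ → e'.succAbove b ≠ e := by
    intro b hb h
    rw [← he₀] at h
    exact hb (Fin.succAbove_right_injective h)
  -- the three families of blocks
  have mA : mrg e e' τ e₀ = τ e ∪ τ e' := if_pos he₀
  have mC : ∀ b, b ≠ e₀ → mrg e e' τ b = τ (e'.succAbove b) := fun b hb => if_neg (hne3 b hb)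
  have uA : Function.update (dl e' τ) e₀ (τ e') e₀ = τ e' := Function.update_self _ _ _
  have uC : ∀ b, b ≠ e₀ → Function.update (dl e' τ) e₀ (τ e') b = τ (e'.succAbove b) :=
    fun b hb => Function.update_of_ne hb _ _
  have dA : dl e' τ e₀ = τ e := by
    show τ (e'.succAbove e₀) = τ e
    rw [he₀]
  have hdd : ∀ b b', b ≠ b' → Disjoint (dl e' τ b) (dl e' τ b') := fun b b' hb =>
    hd _ _ fun h => hb (Fin.succAbove_right_injective h)
  have hdm : ∀ b b', b ≠ b' → Disjoint (mrg e e' τ b) (mrg e e' τ b') := by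
    have h1 : ∀ b, b ≠ e₀ → Disjoint (τ e ∪ τ e') (τ (e'.succAbove b)) := by
      intro b hb
      rw [Finset.disjoint_union_left]
      exact ⟨hd _ _ (hne3 b hb).symm, hd _ _ (Fin.succAbove_ne e' b).symm⟩
    intro b b' hb
    by_cases h2 : b = e₀
    · have h3 : b' ≠ e₀ := fun h => hb (h2.trans h.symm)
      rw [h2, mA, mC b' h3]
      exact h1 b' h3
    · by_cases h3 : b' = e₀
      · rw [h3, mA, mC b h2]
        exact (h1 b h2).symm
      · rw [mC b h2, mC b' h3]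
        exact hd _ _ fun h => hb (Fin.succAbove_right_injective h)
  have hdu : ∀ b b', b ≠ b' → Disjoint (Function.update (dl e' τ) e₀ (τ e') b)
      (Function.update (dl e' τ) e₀ (τ e') b') := by
    intro b b' hb
    by_cases h2 : b = e₀
    · have h3 : b' ≠ e₀ := fun h => hb (h2.trans h.symm)
      rw [h2, uA, uC b' h3]
      exact hd _ _ (Fin.succAbove_ne e' b').symm
    · by_cases h3 : b' = e₀
      · rw [h3, uA, uC b h2]
        exact hd _ _ (Fin.succAbove_ne e' b)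
      · rw [uC b h2, uC b' h3]
        exact hd _ _ fun h => hb (Fin.succAbove_right_injective h)
  refine ⟨M₀, inferInstance, inferInstance, M₁, inferInstance, inferInstance, i, j, x₁, y₁, e₀, T,
    he₀, hG₁, ?_, ?_, ?_, ?_, ?_, ?_, ?_, ?_, ?_, ?_, ?_⟩
  · rw [hx₁, he₀]
  · rw [hy₁, he₀]
  · have h1 : Gen1 i (V (e'.succAbove e₀)) (x₁ e₀) (y₁ e₀) := hGi
    rw [he₀] at h1
    exact h1
  · rw [hV]
    exact hGj
  · intro a c hac
    rcases hcases a with ha | ha | ⟨b, ha⟩ | ha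
    · exact (hVF e a ha).symm
    · rw [hV]
      exact (hVF e' a ha).symm
    · rw [hTC a b ha] at hac
      exact absurd hac (by simp)
    · rw [hTN a ha] at hac
      exact absurd hac (by simp)
  · intro a
    rcases hcases a with ha | ha | ⟨b, ha⟩ | ha
    · have h1 : a ∉ τ e' := fun h => hne (Q0b_un hd ha h)
      rw [hTA a ha]
      simp [ha, h1]
    · have h1 : a ∉ τ e := fun h => hne (Q0b_un hd h ha)
      rw [hTB a ha]
      simp [ha, h1]
    · have h1 : a ∉ τ e := fun h => hne2 b (Q0b_un hd ha h)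
      have h2 : a ∉ τ e' := fun h => Fin.succAbove_ne e' _ (Q0b_un hd ha h)
      rw [hTC a b ha]
      simp [h1, h2]
    · rw [hTN a ha]
      simp [ha e, ha e']
  · funext a
    rcases hcases a with ha | ha | ⟨b, ha⟩ | ha
    · rw [Q0b_in x y (Q0b_pp s hd ha), Q0b_ev0 _ _ _ (hTA a ha), Q0b_sg]
    · rw [Q0b_in x y (Q0b_pp s hd ha), Q0b_ev1 _ _ _ (hTB a ha), Q0b_sg]
    · rw [Q0b_in x y (Q0b_pp s hd ha), Q0b_evl _ _ _ (hTC a b ha), Q0b_mk, AlgHom.comp_apply,
        AlgHom.comp_apply, hx₀, hy₀, hx₁, hy₁]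
    · rw [Q0b_out x y (Q0b_pn s ha), Q0b_evl _ _ _ (hTN a ha), mpt_cst]
  · intro s'
    refine ⟨Q0b_cmp s' hdm ?_ ?_, Q0b_cmp s' hdd ?_ ?_, Q0b_cmp s' hdu ?_ ?_⟩
    · intro b
      by_cases hb : b = e₀
      · rw [hb, mA]
        exact (hτ.2 e).1.mono Finset.subset_union_left
      · rw [mC b hb]
        exact (hτ.2 _).1
    · intro b a ha
      by_cases hb : b = e₀
      · rw [hb, mA, Finset.mem_union] at ha
        show V (e'.succAbove b) = F a
        rw [hb, he₀]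
        rcases ha with ha | ha
        · exact hVF e a ha
        · rw [hV]
          exact hVF e' a ha
      · rw [mC b hb] at ha
        exact hVF _ a ha
    · intro b
      exact (hτ.2 _).1
    · intro b a ha
      exact hVF _ a ha
    · intro b
      by_cases hb : b = e₀
      · rw [hb, uA]
        exact (hτ.2 e').1
      · rw [uC b hb]
        exact (hτ.2 _).1
    · intro b a ha
      by_cases hb : b = e₀
      · rw [hb, uA] at ha
        show V (e'.succAbove b) = F a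
        rw [hb, he₀, hV]
        exact hVF e' a ha
      · rw [uC b hb] at ha
        exact hVF _ a ha
  · funext a
    rcases hcases a with ha | ha | ⟨b, ha⟩ | ha
    · have h1 : a ∈ mrg e e' τ e₀ := by
        rw [mA]
        exact Finset.mem_union_left _ ha
      rw [Q0b_in x₁ y₁ (Q0b_pp s hdm h1), Q0b_ev0 _ _ _ (hTA a ha), Q0b_sg]
    · have h1 : a ∈ mrg e e' τ e₀ := by
        rw [mA]
        exact Finset.mem_union_right _ ha
      rw [Q0b_in x₁ y₁ (Q0b_pp s hdm h1), Q0b_ev1 _ _ _ (hTB a ha), Q0b_sg]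
    · have h1 : a ∈ mrg e e' τ (e₀.succAbove b) := by
        rw [mC _ (Fin.succAbove_ne e₀ b)]
        exact ha
      rw [Q0b_in x₁ y₁ (Q0b_pp s hdm h1), Q0b_evl _ _ _ (hTC a b ha), Q0b_mk, hx₀, hy₀]
    · have h1 : ∀ b, a ∉ mrg e e' τ b := by
        intro b
        by_cases hb : b = e₀
        · rw [hb, mA, Finset.mem_union]
          rintro (h | h)
          · exact ha _ h
          · exact ha _ h
        · rw [mC b hb]
          exact ha _
      rw [Q0b_out x₁ y₁ (Q0b_pn s h1), Q0b_evl _ _ _ (hTN a ha), mpt_cst]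
  · funext a
    rcases hcases a with ha | ha | ⟨b, ha⟩ | ha
    · have h1 : a ∈ dl e' τ e₀ := by
        rw [dA]
        exact ha
      rw [Q0b_in x₁ y₁ (Q0b_pp _ hdd h1), Q0b_ev0 _ _ _ (hTA a ha), Q0b_sg]
    · have h1 : ∀ b, a ∉ dl e' τ b := fun b hb =>
        Fin.succAbove_ne e' b (Q0b_un hd hb ha)
      rw [Q0b_out x₁ y₁ (Q0b_pn _ h1), Q0b_ev1 _ _ _ (hTB a ha), if_pos ha]
      rfl
    · have h1 : a ∈ dl e' τ (e₀.succAbove b) := ha
      rw [Q0b_in x₁ y₁ (Q0b_pp _ hdd h1), Q0b_evl _ _ _ (hTC a b ha), Q0b_mk, hx₀, hy₀]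
    · have h1 : ∀ b, a ∉ dl e' τ b := fun b => ha _
      rw [Q0b_out x₁ y₁ (Q0b_pn _ h1), Q0b_evl _ _ _ (hTN a ha), mpt_cst, if_neg (ha e')]
  · funext a
    rcases hcases a with ha | ha | ⟨b, ha⟩ | ha
    · have h1 : ∀ b, a ∉ Function.update (dl e' τ) e₀ (τ e') b := by
        intro b
        by_cases hb : b = e₀
        · rw [hb, uA]
          exact fun h => hne (Q0b_un hd ha h)
        · rw [uC b hb]
          exact fun h => hne3 b hb (Q0b_un hd h ha)
      rw [Q0b_out x₁ y₁ (Q0b_pn _ h1), Q0b_ev0 _ _ _ (hTA a ha), if_pos ha]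
      rfl
    · have h1 : a ∈ Function.update (dl e' τ) e₀ (τ e') e₀ := by
        rw [uA]
        exact ha
      rw [Q0b_in x₁ y₁ (Q0b_pp _ hdu h1), Q0b_ev1 _ _ _ (hTB a ha), Q0b_sg]
    · have h1 : a ∈ Function.update (dl e' τ) e₀ (τ e') (e₀.succAbove b) := by
        rw [uC _ (Fin.succAbove_ne e₀ b)]
        exact ha
      rw [Q0b_in x₁ y₁ (Q0b_pp _ hdu h1), Q0b_evl _ _ _ (hTC a b ha), Q0b_mk, hx₀, hy₀]
    · have h1 : ∀ b, a ∉ Function.update (dl e' τ) e₀ (τ e') b := by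
        intro b
        by_cases hb : b = e₀
        · rw [hb, uA]
          exact ha _
        · rw [uC b hb]
          exact ha _
      rw [Q0b_out x₁ y₁ (Q0b_pn _ h1), Q0b_evl _ _ _ (hTN a ha), mpt_cst, if_neg (ha e)]

end Pool.Agent.LibHL77
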