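import Pool.Agent.LibHL77.Q0a
import Pool.Agent.LibHL77.Q0c
import Pool.Agent.LibHL77.N1
import Pool.Agent.LibHL77.B8

/-!
[HL77 Q1] hyperplane sections of diagonals by the abscissa, and cases with the divisor at infinity. Common proof (`sec_inf`): `base1` for `e`, `isZ_inf` with the given
`h1, h2`, `LG` (with `exists_B`), `cyc (ev1 T id none)` is the cycle of the diagonal `pp (dl e τ) (..)` over `M₀`, `B_cl`, `extD_pp`, and
`cst L .inf = .inf`. `NC`: `x e` (or `(x e) ^ g`) is transcendental over `k` (`Gen1.tr`). `sec_absc`: `opt (pnt (pp τ s) x y a) = some (x e, y e)`,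
`mult_absc`. `sec_same`: both coordinates are `(x e, y e)`, `mult_same`, `plane` in its second case because `y e ≠ 0`. `sec_one_inf`: `mult_inf`. `sec_zero`: the
point `φ` has coordinates in `k` (`φ.nat` for `k → M` or directly), so `¬ NC`.
-/

open scoped Classical
open Polynomial

namespace Pool.Agent.LibHL77

open Pool.Agent.LibBH2
open Pool.Agent.LibCHd (VR RF Red FunF IsCps)
open Pool.Agent.LibHyp34 (Hyp Pt Pic jP Sp KC DCf gn)
open Pool.Agent.LibHD77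
open Pool.Agent.LibHD77.Comb (Pat sub Cmp)

variable {k : Type} [Field k] [CharZero k] {n D : ℕ} {F : Fin n → k[X]}

omit [CharZero k] in
theorem q1_xy {τ : Fin (D + 1) → Finset (Fin n)} (s : ∀ a, Pt (F a)) (hτ : Val F τ)
    {M : Type} [Field M] [Algebra k M] {V : Fin (D + 1) → k[X]} {x y : Fin (D + 1) → M}
    (hc : Cmp F (pp τ s) V) (hg : Gen V x y) {e : Fin (D + 1)} {a : Fin n} (ha : a ∈ τ e) :
    opt (pnt (pp τ s) x y a) = some (x e, y e) := by
  have h1 : V e = F a := hc.2 a e 1 (q0a_pp_mem hτ.1 s ha)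
  have h2 : y e ^ 2 = aeval (x e) (F a) := by
    rw [← h1]
    exact hg.eq e
  obtain ⟨h', h3⟩ := T1_mk h2 1
  unfold pnt
  rw [q0a_pp_mem hτ.1 s ha]
  show opt (mk' (F a) (x e) (((1 : ℤˣ) : ℤ) * y e) : MPt (F a) M) = _
  rw [h3]
  simp only [opt, Units.val_one, Int.cast_one, one_mul]

omit [CharZero k] in
theorem q1_inf {τ : Fin (D + 1) → Finset (Fin n)} (s : ∀ a, Pt (F a))
    {M : Type} [Field M] [Algebra k M] (x y : Fin (D + 1) → M)
    {b : Fin n} (hb : ∀ i, b ∉ τ i) (hs : s b = .inf) :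
    opt (pnt (pp τ s) x y b) = none := by
  unfold pnt
  rw [q0a_pp_not s hb]
  show opt (cst M (s b) : MPt (F b) M) = none
  rw [hs]
  rfl

omit [CharZero k] in
theorem q1_tr {M₀ M : Type} [Field M₀] [Algebra k M₀] [Field M] [Algebra k M] {i : M₀ →ₐ[k] M}
    {f : k[X]} {x y : M} (h : Gen1 i f x y) : Transcendental k x := by
  rw [transcendental_iff]
  intro p hp
  by_contra hne
  have h1 : p.map (algebraMap k M₀) ≠ 0 := (Polynomial.map_ne_zero_iff (algebraMap k M₀).injective).2 hne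
  refine h.tr _ h1 ?_
  rw [eval₂_map]
  have h2 : ((i : M₀ →+* M).comp (algebraMap k M₀)) = algebraMap k M := i.comp_algebraMap
  rw [h2, ← aeval_def, hp]

theorem sec_inf (hF : ∀ a, Hyp (F a)) (φ : Mor F) {Γ : Cyc k n →+ Cyc (Lf k) n}
    (hΓ : IsG φ D Γ) (τ : Fin (D + 1) → Finset (Fin n)) (s : ∀ a, Pt (F a)) (hτ : Val F τ)
    {M : Type} [Field M] [Algebra k M] (V : Fin (D + 1) → k[X]) (x y : Fin (D + 1) → M)
    (hc : Cmp F (pp τ s) V) (hg : Gen V x y) (e : Fin (D + 1)) (z : Fin 3) (r : ℤ)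
    (hnc : NC k (φ.φ M (pnt (pp τ s) x y))) (hz : φ.φ M (pnt (pp τ s) x y) z ≠ 0)
    (h1 : ∀ v : Place k M, 0 ≤ v.ord (x e) → mult (φ.φ M (pnt (pp τ s) x y)) z v = 0)
    (h2 : ∀ v : Place k M, v.ord (x e) = -2 → mult (φ.φ M (pnt (pp τ s) x y)) z v = r) :
    (QuotientAddGroup.mk (Γ (cyc (pnt (pp τ s) x y))) : CH (ext (Lf k) F) D) =
      r • cl (pp (dl e τ) (cs (Lf k) s (τ e))) := by
  obtain ⟨M₀, _, _, i, x₀, y₀, T, hG, hG1, hT1, -, hp, hcmp, hn, -⟩ := base1 hF τ s hτ V x y hc hg e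
  have hVe : Hyp (V e) := T1_hV hF hc e
  have hZ := isZ_inf (V e) hG1 hG.dim T hT1 (φ.φ M (pnt (pp τ s) x y)) z r h1 h2
  rw [← hp, hn] at hZ
  obtain ⟨B, hB⟩ := exists_B F D
  have hL := LG φ hΓ hB hg.dim (pnt (pp τ s) x y) hnc z hz _ hZ
  have h3 := (QuotientAddGroup.eq_zero_iff (N := RatEq (ext (Lf k) F) D) _).2 hL
  rw [QuotientAddGroup.mk_sub, sub_eq_zero] at h3
  rw [h3, map_zsmul, QuotientAddGroup.mk_zsmul, B_cl hF hB _ _ x₀ y₀ (hcmp _) hG, extD_pp]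
  have hs : (fun a => (cst (Lf k) ((fun a => if a ∈ τ e then .inf else s a : ∀ a, Pt (F a)) a) :
      MPt (F a) (Lf k))) = cs (Lf k) s (τ e) := by
    funext a
    by_cases ha : a ∈ τ e
    · simp only [cs, if_pos ha]
      rfl
    · simp only [cs, if_neg ha]
  rw [← hs]

theorem sec_absc (hF : ∀ a, Hyp (F a)) (φ : Mor F) (a : Fin n)
    (hφ : ∀ (M : Type) [Field M] [Algebra k M] (u : Pnt F M), φ.φ M u = absc (opt (u a)))
    {Γ : Cyc k n →+ Cyc (Lf k) n}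
    (hΓ : IsG φ D Γ) (τ : Fin (D + 1) → Finset (Fin n)) (s : ∀ a, Pt (F a)) (hτ : Val F τ)
    {M : Type} [Field M] [Algebra k M] (V : Fin (D + 1) → k[X]) (x y : Fin (D + 1) → M)
    (hc : Cmp F (pp τ s) V) (hg : Gen V x y) (e : Fin (D + 1)) (he : a ∈ τ e) :
    (QuotientAddGroup.mk (Γ (cyc (pnt (pp τ s) x y))) : CH (ext (Lf k) F) D) =
      (2 : ℤ) • cl (pp (dl e τ) (cs (Lf k) s (τ e))) := by
  obtain ⟨M₀, _, _, i, x₀, y₀, T, -, hG1, -⟩ := base1 hF τ s hτ V x y hc hg e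
  have htr := q1_tr hG1
  have hx0 : x e ≠ 0 := fun h => htr (by rw [h]; exact isAlgebraic_zero)
  have hphi : φ.φ M (pnt (pp τ s) x y) = absc (some (x e, y e)) := by
    rw [hφ, q1_xy s hτ hc hg he]
  refine sec_inf hF φ hΓ τ s hτ V x y hc hg e 0 2 ?_ ?_ ?_ ?_
  · rw [hphi]
    refine ⟨1, 0, one_ne_zero, ?_⟩
    show Transcendental k (x e / 1)
    rwa [div_one]
  · rw [hphi]
    exact one_ne_zero
  · intro v
    rw [hphi]
    exact (mult_absc (y e) hx0 v).1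
  · intro v
    rw [hphi]
    exact (mult_absc (y e) hx0 v).2

omit [CharZero k] in
theorem q1_gn (f : k[X]) (hf : Hyp f) : gn f ≠ 0 := by
  have h1 := hf.three
  have h2 := hf.odd
  unfold gn
  omega

theorem sec_same (hF : ∀ a, Hyp (F a)) (φ : Mor F) (a b : Fin n) (hab : F a = F b)
    (hφ : ∀ (M : Type) [Field M] [Algebra k M] (u : Pnt F M),
      φ.φ M u = plane (F a) (gn (F a)) (opt (u a)) (opt (u b))) {Γ : Cyc k n →+ Cyc (Lf k) n}
    (hΓ : IsG φ D Γ) (τ : Fin (D + 1) → Finset (Fin n)) (s : ∀ a, Pt (F a)) (hτ : Val F τ)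
    {M : Type} [Field M] [Algebra k M] (V : Fin (D + 1) → k[X]) (x y : Fin (D + 1) → M)
    (hc : Cmp F (pp τ s) V) (hg : Gen V x y) (e : Fin (D + 1)) (ha : a ∈ τ e) (hb : b ∈ τ e) :
    (QuotientAddGroup.mk (Γ (cyc (pnt (pp τ s) x y))) : CH (ext (Lf k) F) D) =
      (2 * gn (F a) : ℤ) • cl (pp (dl e τ) (cs (Lf k) s (τ e))) := by
  obtain ⟨M₀, _, _, i, x₀, y₀, T, -, hG1, -⟩ := base1 hF τ s hτ V x y hc hg e
  have htr := q1_tr hG1
  have hx0 : x e ≠ 0 := fun h => htr (by rw [h]; exact isAlgebraic_zero)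
  have hVa : V e = F a := hc.2 a e 1 (q0a_pp_mem hτ.1 s ha)
  have hfa : F a ≠ 0 := (hF a).monic.ne_zero
  have hchar : CharZero M := charZero_of_injective_algebraMap (algebraMap k M).injective
  have hy0 : y e ≠ 0 := by
    intro h
    have h1 := hg.eq e
    rw [h, hVa] at h1
    refine htr ⟨F a, hfa, ?_⟩
    rw [← h1]
    ring
  have hphi : φ.φ M (pnt (pp τ s) x y) =
      plane (F a) (gn (F a)) (some (x e, y e)) (some (x e, y e)) := by
    rw [hφ, q1_xy s hτ hc hg ha, q1_xy s hτ hc hg hb]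
  have h2y : y e + y e ≠ 0 := by
    rw [← two_mul]
    exact mul_ne_zero two_ne_zero hy0
  have hpl : plane (F a) (gn (F a)) (some (x e, y e)) (some (x e, y e)) =
      ![x e - x e, y e + y e, y e * x e ^ gn (F a) + y e * x e ^ gn (F a)] := by
    refine if_neg ?_
    rintro ⟨-, h⟩
    have h3 : y e + y e = 0 := by
      have h4 : y e = - y e := h
      nth_rewrite 1 [h4]
      ring
    exact h2y h3
  refine sec_inf hF φ hΓ τ s hτ V x y hc hg e 1 (2 * gn (F a) : ℤ) ?_ ?_ ?_ ?_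
  · rw [hphi, hpl]
    refine ⟨2, 1, h2y, ?_⟩
    show Transcendental k ((y e * x e ^ gn (F a) + y e * x e ^ gn (F a)) / (y e + y e))
    rw [← add_mul, mul_div_assoc, mul_comm, div_mul_cancel₀ _ h2y]
    exact htr.pow (Nat.pos_of_ne_zero (q1_gn _ (hF a)))
  · rw [hphi, hpl]
    exact h2y
  · intro v
    rw [hphi]
    exact (mult_same (F a) (gn (F a)) hx0 hy0 v).1
  · intro v
    rw [hphi]
    exact (mult_same (F a) (gn (F a)) hx0 hy0 v).2

/-- one of the coordinates is the fixed point at infinity -/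
theorem sec_one_inf (hF : ∀ a, Hyp (F a)) (φ : Mor F) (a b : Fin n) (hab : F a = F b)
    (hφ : ∀ (M : Type) [Field M] [Algebra k M] (u : Pnt F M),
      φ.φ M u = plane (F a) (gn (F a)) (opt (u a)) (opt (u b))) {Γ : Cyc k n →+ Cyc (Lf k) n}
    (hΓ : IsG φ D Γ) (τ : Fin (D + 1) → Finset (Fin n)) (s : ∀ a, Pt (F a)) (hτ : Val F τ)
    {M : Type} [Field M] [Algebra k M] (V : Fin (D + 1) → k[X]) (x y : Fin (D + 1) → M)
    (hc : Cmp F (pp τ s) V) (hg : Gen V x y) (e : Fin (D + 1))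
    (h : (a ∈ τ e ∧ (∀ i, b ∉ τ i) ∧ s b = .inf) ∨ (b ∈ τ e ∧ (∀ i, a ∉ τ i) ∧ s a = .inf)) :
    (QuotientAddGroup.mk (Γ (cyc (pnt (pp τ s) x y))) : CH (ext (Lf k) F) D) =
      (2 * gn (F a) : ℤ) • cl (pp (dl e τ) (cs (Lf k) s (τ e))) := by
  obtain ⟨M₀, _, _, i, x₀, y₀, T, -, hG1, -⟩ := base1 hF τ s hτ V x y hc hg e
  have htr := q1_tr hG1
  have hx0 : x e ≠ 0 := fun h => htr (by rw [h]; exact isAlgebraic_zero)
  have hnc : Transcendental k (x e ^ gn (F a) / (1 : M)) := by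
    rw [div_one]
    exact htr.pow (Nat.pos_of_ne_zero (q1_gn _ (hF a)))
  rcases h with ⟨ha, hb, hs⟩ | ⟨hb, ha, hs⟩
  · have hphi : φ.φ M (pnt (pp τ s) x y) = plane (F a) (gn (F a)) (some (x e, y e)) none := by
      rw [hφ, q1_xy s hτ hc hg ha, q1_inf s x y hb hs]
    refine sec_inf hF φ hΓ τ s hτ V x y hc hg e 1 (2 * gn (F a) : ℤ) ?_ ?_ ?_ ?_
    · rw [hphi]
      exact ⟨2, 1, one_ne_zero, hnc⟩
    · rw [hphi]
      exact one_ne_zero
    · intro v
      rw [hphi]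
      exact (mult_inf (F a) (gn (F a)) hx0 v).1.1
    · intro v
      rw [hphi]
      exact (mult_inf (F a) (gn (F a)) hx0 v).1.2
  · have hphi : φ.φ M (pnt (pp τ s) x y) = plane (F a) (gn (F a)) none (some (x e, y e)) := by
      rw [hφ, q1_xy s hτ hc hg hb, q1_inf s x y ha hs]
    refine sec_inf hF φ hΓ τ s hτ V x y hc hg e 1 (2 * gn (F a) : ℤ) ?_ ?_ ?_ ?_
    · rw [hphi]
      exact ⟨2, 1, one_ne_zero, hnc⟩
    · rw [hphi]
      exact one_ne_zero
    · intro v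
      rw [hphi]
      exact (mult_inf (F a) (gn (F a)) hx0 v).2.1
    · intro v
      rw [hphi]
      exact (mult_inf (F a) (gn (F a)) hx0 v).2.2

/-- the section is empty if the image is a point -/
theorem sec_zero (φ : Mor F) {Γ : Cyc k n →+ Cyc (Lf k) n}
    (hΓ : IsG φ D Γ) (τ : Fin (D + 1) → Finset (Fin n)) (s : ∀ a, Pt (F a))
    {M : Type} [Field M] [Algebra k M] (V : Fin (D + 1) → k[X]) (x y : Fin (D + 1) → M)
    (hg : Gen V x y) (h : ∀ i, ∃ c : k, φ.φ M (pnt (pp τ s) x y) i = algebraMap k M c) :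
    (QuotientAddGroup.mk (Γ (cyc (pnt (pp τ s) x y))) : CH (ext (Lf k) F) D) = 0 := by
  have hnc : ¬ NC k (φ.φ M (pnt (pp τ s) x y)) := by
    rintro ⟨a, b, -, h1⟩
    obtain ⟨ca, ha⟩ := h a
    obtain ⟨cb, hb⟩ := h b
    rw [ha, hb, ← map_div₀] at h1
    exact h1 (isAlgebraic_algebraMap _)
  rw [(hΓ M (pnt (pp τ s) x y) hg.dim).2 hnc]
  rfl

end Pool.Agent.LibHL77
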