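import Pool.Agent.LibHL77.Q1
import Pool.Agent.LibHL77.N2

/-!
[HL77 Q2] the section of a diagonal by the second morphism if one of the two coordinates is a fixed point. Proof. Let `a ∈ τ e` and `b` in no block,
`s b = (x₀, y₀)` affine (if `s b = .inf`: `sec_one_inf`, and `st` and `cs` give the same pattern, `1 + (2 g - 1) = 2 g`).
`base1` for `e`, `isZ_const` (first part; second part if `a` and `b` are exchanged), `LG`, `B_cl` for the two diagonals, the first with
`s' = s` outside `τ e` and `tr (F b) (F c) (s b)` on `τ e` (`F c = F a = F b`); `extD_pp`. `NC`: the coordinates `x - x₀`, `y + y₀`: if all ratios were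
algebraic, so would be `(y + y₀) / (x - x₀)`, hence `x` (`(y + y₀) = c (x - x₀)` gives an algebraic relation
for `x` of degree `deg f ≥ 3`). Here `V e = F a` (`Cmp`).
-/

open scoped Classical
open Polynomial

namespace Pool.Agent.LibHL77

open Pool.Agent.LibBH2
open Pool.Agent.LibCHd (VR RF Red FunF IsCps)
open Pool.Agent.LibHyp34 (Hyp Pt Pic jP Sp KC DCf gn)
open Pool.Agent.LibHD77
open Pool.Agent.LibHD77.Comb (Pat sub Cmp)

variable {k : Type} [Field k] [CharZero k] {n D : ℕ} {F : Fin n → k[X]}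

private theorem q2_opt_tr {f g : k[X]} (h : f = g) (s : Pt f) : opt (tr f g s) = opt s := by
  subst h
  unfold tr
  rw [dif_pos rfl]

private theorem q2_tr_inf {f g : k[X]} : tr f g (.inf : Pt f) = .inf := by
  unfold tr
  split_ifs with h
  · subst h
    rfl
  · rfl

private theorem q2_pp_mem {τ : Fin D → Finset (Fin n)} (s : ∀ a, Pt (F a)) (hτ : Val F τ) {a : Fin n} {e : Fin D}
    (ha : a ∈ τ e) : pp τ s a = .inr (e, 1) := by
  have h1 : ∃ e, a ∈ τ e := ⟨e, ha⟩
  have h2 : pp τ s a = .inr (h1.choose, 1) := dif_pos h1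
  have h3 : h1.choose = e := by
    by_contra hne
    exact Finset.disjoint_left.1 (hτ.1 _ _ hne) h1.choose_spec ha
  rw [h2, h3]

private theorem q2_pp_not {τ : Fin D → Finset (Fin n)} (s : ∀ a, Pt (F a)) {a : Fin n}
    (ha : ∀ i, a ∉ τ i) : pp τ s a = .inl (s a) :=
  dif_neg fun ⟨i, hi⟩ => ha i hi

private theorem q2_tr {M₀ M : Type} [Field M₀] [Algebra k M₀] [Field M] [Algebra k M] {i : M₀ →ₐ[k] M}
    {f : k[X]} {x y : M} (h : Gen1 i f x y) : Transcendental k x := by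
  rintro ⟨G, hG, hG0⟩
  refine h.tr (G.map (algebraMap k M₀)) ((Polynomial.map_ne_zero_iff (algebraMap k M₀).injective).2 hG) ?_
  rw [Polynomial.eval₂_map]
  have h1 : (i : M₀ →+* M).comp (algebraMap k M₀) = algebraMap k M := RingHom.ext fun c => i.commutes c
  rw [h1]
  exact hG0

private theorem q2_ratio {M₀ M : Type} [Field M₀] [Algebra k M₀] [Field M] [Algebra k M] {i : M₀ →ₐ[k] M}
    {f : k[X]} [Hyp f] {x y : M} (h : Gen1 i f x y) (x₀ y₀ : k) (c : M)
    (hc : y + algebraMap k M y₀ = c * (x - algebraMap k M x₀)) : Transcendental k c := by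
  intro hal
  apply q2_tr h
  set A := algebraicClosure k M with hA
  have hcA : c ∈ A := mem_algebraicClosure_iff.2 hal
  have h3 : IsAlgebraic A x := by
    refine ⟨f.map (algebraMap k A) - (C (⟨c, hcA⟩ : A) * (X - C (algebraMap k A x₀)) - C (algebraMap k A y₀)) ^ 2, ?_, ?_⟩
    · intro h0
      have h1 : (C (⟨c, hcA⟩ : A) * (X - C (algebraMap k A x₀)) - C (algebraMap k A y₀) : A[X]).natDegree ≤ 1 := by
        compute_degree
      have h2 : ((C (⟨c, hcA⟩ : A) * (X - C (algebraMap k A x₀)) - C (algebraMap k A y₀)) ^ 2 : A[X]).natDegree ≤ 2 := by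
        refine (natDegree_pow_le).trans ?_
        omega
      have h4 : (f.map (algebraMap k A)).natDegree = f.natDegree := natDegree_map _
      have h5 := Hyp.three (f := f)
      rw [sub_eq_zero] at h0
      rw [← h0, h4] at h2
      omega
    · rw [map_sub, map_pow, map_sub, map_mul, map_sub, aeval_C, aeval_C, aeval_C, aeval_X, aeval_map_algebraMap, ← h.eq]
      have e1 : algebraMap A M (⟨c, hcA⟩ : A) = c := rfl
      have e2 : algebraMap A M (algebraMap k A x₀) = algebraMap k M x₀ := rfl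
      have e3 : algebraMap A M (algebraMap k A y₀) = algebraMap k M y₀ := rfl
      rw [e1, e2, e3, ← hc]
      ring
  exact h3.restrictScalars k

private theorem q2_nc {M₀ M : Type} [Field M₀] [Algebra k M₀] [Field M] [Algebra k M] {i : M₀ →ₐ[k] M}
    {f : k[X]} [Hyp f] {x y : M} (h : Gen1 i f x y) (x₀ y₀ : k) (g : ℕ) (ph : Fin 3 → M)
    (hph : ph = plane f g (some (x, y)) (some (algebraMap k M x₀, algebraMap k M y₀)) ∨
      ph = plane f g (some (algebraMap k M x₀, algebraMap k M y₀)) (some (x, y))) :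
    NC k ph ∧ ph 0 ≠ 0 := by
  have hx : x - algebraMap k M x₀ ≠ 0 := by
    intro h0
    apply q2_tr h
    rw [sub_eq_zero] at h0
    rw [h0]
    exact isAlgebraic_algebraMap x₀
  rcases hph with rfl | rfl
  · have e : plane f g (some (x, y)) (some (algebraMap k M x₀, algebraMap k M y₀)) =
        ![x - algebraMap k M x₀, y + algebraMap k M y₀,
          y * (algebraMap k M x₀) ^ g + algebraMap k M y₀ * x ^ g] := by
      exact if_neg fun h1 => hx (sub_eq_zero.2 h1.1)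
    rw [e]
    have h0 : (![x - algebraMap k M x₀, y + algebraMap k M y₀,
          y * (algebraMap k M x₀) ^ g + algebraMap k M y₀ * x ^ g] : Fin 3 → M) 0 ≠ 0 := hx
    refine ⟨⟨1, 0, h0, ?_⟩, h0⟩
    show Transcendental k ((y + algebraMap k M y₀) / (x - algebraMap k M x₀))
    apply q2_ratio h x₀ y₀
    field_simp
  · have e : plane f g (some (algebraMap k M x₀, algebraMap k M y₀)) (some (x, y)) =
        ![algebraMap k M x₀ - x, algebraMap k M y₀ + y,
          algebraMap k M y₀ * x ^ g + y * (algebraMap k M x₀) ^ g] := by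
      refine if_neg fun h1 => ?_
      have h1' : algebraMap k M x₀ = x := h1.1
      exact hx (by rw [h1', sub_self])
    have hx' : algebraMap k M x₀ - x ≠ 0 := by
      intro h1
      apply hx
      rw [← neg_sub, h1, neg_zero]
    rw [e]
    have h0 : (![algebraMap k M x₀ - x, algebraMap k M y₀ + y,
          algebraMap k M y₀ * x ^ g + y * (algebraMap k M x₀) ^ g] : Fin 3 → M) 0 ≠ 0 := hx'
    refine ⟨⟨1, 0, h0, ?_⟩, h0⟩
    show Transcendental k ((algebraMap k M y₀ + y) / (algebraMap k M x₀ - x))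
    intro hal
    refine q2_ratio h x₀ y₀ (-((algebraMap k M y₀ + y) / (algebraMap k M x₀ - x))) ?_ hal.neg
    field_simp
    ring

private theorem q2_main (hF : ∀ a, Hyp (F a)) (φ : Mor F) (a b : Fin n) (hab : F a = F b)
    {Γ : Cyc k n →+ Cyc (Lf k) n}
    (hΓ : IsG φ D Γ) (τ : Fin (D + 1) → Finset (Fin n)) (s : ∀ a, Pt (F a)) (hτ : Val F τ)
    {M : Type} [Field M] [Algebra k M] (V : Fin (D + 1) → k[X]) (x y : Fin (D + 1) → M)
    (hc : Cmp F (pp τ s) V) (hg : Gen V x y) (e : Fin (D + 1)) (ha : a ∈ τ e)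
    (x₀ y₀ : k) (h0 : y₀ ^ 2 = (F b).eval x₀) (hsb : s b = .aff x₀ y₀ h0)
    (hph : φ.φ M (pnt (pp τ s) x y) = plane (F a) (gn (F a)) (some (x e, y e)) (some (algebraMap k M x₀, algebraMap k M y₀)) ∨
      φ.φ M (pnt (pp τ s) x y) = plane (F a) (gn (F a)) (some (algebraMap k M x₀, algebraMap k M y₀)) (some (x e, y e))) :
    (QuotientAddGroup.mk (Γ (cyc (pnt (pp τ s) x y))) : CH (ext (Lf k) F) D) =
        cl (pp (dl e τ) (st (Lf k) s (τ e) b)) +
          (2 * gn (F a) - 1 : ℤ) • cl (pp (dl e τ) (cs (Lf k) s (τ e))) := by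
  obtain ⟨M₀, _, _, i, x1, y1, T, hG, hG1, hT1, hT2, hpnt, hCmp, hev0, hev1⟩ := base1 hF τ s hτ V x y hc hg e
  have hVe : V e = F a := (hT1 a ((hT2 a).2 ha)).symm
  haveI : Hyp (V e) := by
    rw [hVe]
    exact hF a
  rw [← hVe] at hph ⊢
  have h0' : y₀ ^ 2 = (V e).eval x₀ := by
    rw [h0, hVe, hab]
  obtain ⟨hnc, hz⟩ := q2_nc hG1 x₀ y₀ (gn (V e)) _ hph
  have hZ : IsZ (φ.φ M (pnt (pp τ s) x y)) 0 (pnt (pp τ s) x y) D
      (cyc (ev1 T (AlgHom.id k M₀) (some (algebraMap k M₀ x₀, algebraMap k M₀ y₀))) +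
        (2 * gn (V e) - 1 : ℤ) • cyc (ev1 T (AlgHom.id k M₀) none)) := by
    have h2 := isZ_const (V e) hG1 hG.dim T hT1 x₀ y₀ h0'
    rcases hph with h1 | h1
    · rw [h1, hpnt]
      exact h2.1
    · rw [h1, hpnt]
      exact h2.2
  obtain ⟨B, hB⟩ := exists_B F D
  have hLG := LG φ hΓ hB hg.dim (pnt (pp τ s) x y) hnc 0 hz _ hZ
  have h1 : (QuotientAddGroup.mk (Γ (cyc (pnt (pp τ s) x y))) : CH (ext (Lf k) F) D) =
      QuotientAddGroup.mk (B (cyc (ev1 T (AlgHom.id k M₀) (some (algebraMap k M₀ x₀, algebraMap k M₀ y₀))) +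
        (2 * gn (V e) - 1 : ℤ) • cyc (ev1 T (AlgHom.id k M₀) none))) :=
    QuotientAddGroup.eq_iff_sub_mem.2 hLG
  rw [h1, map_add, map_zsmul, QuotientAddGroup.mk_add, QuotientAddGroup.mk_zsmul]
  have hs1 := hev1 (x₀, y₀) (fun a' => if a' ∈ τ e then tr (F b) (F a') (s b) else s a') h0'
    (fun a' ha' => if_neg ha') (fun a' ha' => by
      rw [if_pos ha', q2_opt_tr (by rw [← hab]; exact (hτ.2 e).2 _ ha _ ha'), hsb]
      rfl)
  rw [hs1, hev0]
  have hB1 := B_cl hF hB (pp (dl e τ) (fun a' => if a' ∈ τ e then tr (F b) (F a') (s b) else s a')) _ x1 y1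
    (hCmp _) hG
  have hB0 := B_cl hF hB (pp (dl e τ) (fun a' => if a' ∈ τ e then .inf else s a')) _ x1 y1
    (hCmp _) hG
  rw [hB1, hB0, extD_pp, extD_pp]
  congr 3
  · congr 1
    funext a'
    unfold st
    split_ifs <;> rfl
  · congr 1
    funext a'
    unfold cs
    split_ifs <;> rfl

theorem sec_const (hF : ∀ a, Hyp (F a)) (φ : Mor F) (a b : Fin n) (hab : F a = F b)
    (hφ : ∀ (M : Type) [Field M] [Algebra k M] (u : Pnt F M),
      φ.φ M u = plane (F a) (gn (F a)) (opt (u a)) (opt (u b))) {Γ : Cyc k n →+ Cyc (Lf k) n}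
    (hΓ : IsG φ D Γ) (τ : Fin (D + 1) → Finset (Fin n)) (s : ∀ a, Pt (F a)) (hτ : Val F τ)
    {M : Type} [Field M] [Algebra k M] (V : Fin (D + 1) → k[X]) (x y : Fin (D + 1) → M)
    (hc : Cmp F (pp τ s) V) (hg : Gen V x y) (e : Fin (D + 1)) :
    (a ∈ τ e → (∀ i, b ∉ τ i) →
      (QuotientAddGroup.mk (Γ (cyc (pnt (pp τ s) x y))) : CH (ext (Lf k) F) D) =
        cl (pp (dl e τ) (st (Lf k) s (τ e) b)) +
          (2 * gn (F a) - 1 : ℤ) • cl (pp (dl e τ) (cs (Lf k) s (τ e)))) ∧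
    (b ∈ τ e → (∀ i, a ∉ τ i) →
      (QuotientAddGroup.mk (Γ (cyc (pnt (pp τ s) x y))) : CH (ext (Lf k) F) D) =
        cl (pp (dl e τ) (st (Lf k) s (τ e) a)) +
          (2 * gn (F a) - 1 : ℤ) • cl (pp (dl e τ) (cs (Lf k) s (τ e)))) := by
  have hopt_mem : ∀ c : Fin n, c ∈ τ e → opt (pnt (pp τ s) x y c) = some (x e, y e) := by
    intro c hce
    have h1 : y e ^ 2 = aeval (x e) (F c) := by
      rw [← hc.2 c e 1 (q2_pp_mem s hτ hce)]
      exact hg.eq e
    obtain ⟨h2, h3⟩ := T1_mk h1 1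
    have h4 : pnt (pp τ s) x y c = mk' (F c) (x e) (((1 : ℤˣ) : ℤ) * y e) := by
      unfold pnt
      rw [q2_pp_mem s hτ hce]
    rw [h4, h3]
    unfold opt
    simp
  have hopt_not : ∀ c : Fin n, (∀ i, c ∉ τ i) → ∀ (x₀ y₀ : k) (h0 : y₀ ^ 2 = (F c).eval x₀), s c = .aff x₀ y₀ h0 →
      opt (pnt (pp τ s) x y c) = some (algebraMap k M x₀, algebraMap k M y₀) := by
    intro c hci x₀ y₀ h0 hsc
    have h4 : pnt (pp τ s) x y c = cst M (s c) := by
      unfold pnt
      rw [q2_pp_not s hci]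
    rw [h4, hsc]
    rfl
  have hst : ∀ c : Fin n, s c = .inf → st (Lf k) s (τ e) c = cs (Lf k) s (τ e) := by
    intro c hsc
    funext a'
    unfold st cs
    split_ifs
    · rw [hsc, q2_tr_inf]
      rfl
    · rfl
  refine ⟨fun ha hb => ?_, fun hb ha => ?_⟩
  · rcases hs : s b with _ | ⟨x₀, y₀, h0⟩
    · rw [hst b hs, sec_one_inf hF φ a b hab hφ hΓ τ s hτ V x y hc hg e (Or.inl ⟨ha, hb, hs⟩), sub_zsmul,
        one_zsmul]
      abel
    · refine q2_main hF φ a b hab hΓ τ s hτ V x y hc hg e ha x₀ y₀ h0 hs (Or.inl ?_)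
      rw [hφ, hopt_mem a ha, hopt_not b hb x₀ y₀ h0 hs]
  · rcases hs : s a with _ | ⟨x₀, y₀, h0⟩
    · rw [hst a hs, sec_one_inf hF φ a b hab hφ hΓ τ s hτ V x y hc hg e (Or.inr ⟨hb, ha, hs⟩), sub_zsmul,
        one_zsmul]
      abel
    · have h1 := q2_main hF φ b a hab.symm hΓ τ s hτ V x y hc hg e hb x₀ y₀ h0 hs (Or.inr ?_)
      · rw [h1, hab]
      · rw [hφ, hopt_mem b hb, hopt_not a ha x₀ y₀ h0 hs, hab]

end Pool.Agent.LibHL77
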