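import Pool.Agent.LibHL77.Q1
import Pool.Agent.LibHL77.B7
import Pool.Agent.LibHL77.M1

/-!
[HL77 Q4w] hyperplane section by the abscissa on the Chow groups. Proof. `exists_phiX`, `exists_G`, `G_ratEq` give `CH F (D + 1) →+ CH (ext (Lf k) F) D`
(`QuotientAddGroup.map`); the diagonal `pp τ s` has a generic point (`cmp_pp`, `exists_gen'`, `cl_eq`); `sec_absc`, `sec_zero` (the coordinate
is a constant: `absc (opt (cst M s))` has entries in `k`).
-/


open scoped Classical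
open Polynomial

namespace Pool.Agent.LibHL77

open Pool.Agent.LibBH2
open Pool.Agent.LibCHd (VR RF Red FunF IsCps)
open Pool.Agent.LibHyp34 (Hyp Pt Pic jP Sp KC DCf gn)
open Pool.Agent.LibHD77
open Pool.Agent.LibHD77.Comb (Pat sub Cmp)

variable {k : Type} [Field k] [CharZero k] {n : ℕ}

theorem q4w_const {F : Fin n → k[X]} {D : ℕ} (τ : Fin D → Finset (Fin n)) (s : ∀ a, Pt (F a))
    {M : Type} [Field M] [Algebra k M] (x y : Fin D → M) (a : Fin n) (h : ∀ e, a ∉ τ e) :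
    pnt (pp τ s) x y a = cst M (s a) := by
  have h1 : (pp τ s : Dia F D) a = .inl (s a) := dif_neg (by
    rintro ⟨e, he⟩
    exact h e he)
  unfold pnt
  rw [h1]

theorem q4w_absc {M : Type} [Field M] [Algebra k M] {f : k[X]} (p : Pt f) (i : Fin 3) :
    ∃ c : k, absc (opt (cst M p : MPt f M)) i = algebraMap k M c := by
  match p with
  | .inf =>
    fin_cases i
    · exact ⟨0, by simp [cst, opt, absc]⟩
    · exact ⟨1, by simp [cst, opt, absc]⟩
    · exact ⟨0, by simp [cst, opt, absc]⟩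
  | .aff x₁ y₁ h₁ =>
    fin_cases i
    · exact ⟨1, by simp [cst, opt, absc]⟩
    · exact ⟨x₁, by simp [cst, opt, absc]⟩
    · exact ⟨0, by simp [cst, opt, absc]⟩

theorem exists_W (F : Fin n → k[X]) (hF : ∀ a, Hyp (F a)) (D : ℕ) (a : Fin n) :
    ∃ W : CH F (D + 1) →+ CH (ext (Lf k) F) D, ∀ (τ : Fin (D + 1) → Finset (Fin n))
      (s : ∀ a, Pt (F a)), Val F τ →
      (∀ e, a ∈ τ e → W (cl (pp τ s)) = (2 : ℤ) • cl (pp (dl e τ) (cs (Lf k) s (τ e)))) ∧
      ((∀ e, a ∉ τ e) → W (cl (pp τ s)) = 0) := by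
  obtain ⟨φ, hφ⟩ := exists_phiX F a
  obtain ⟨Γ, hΓ⟩ := exists_G φ D
  refine ⟨QuotientAddGroup.map (RatEq F (D + 1)) (RatEq (ext (Lf k) F) D) Γ
    (fun c hc => G_ratEq φ hΓ c hc), fun τ s hτ => ?_⟩
  obtain ⟨V, hc⟩ := cmp_pp τ s hτ
  obtain ⟨M, iF, iA, x, y, hg⟩ := exists_gen' V (fun e => T1_hV hF hc e)
  have key : QuotientAddGroup.map (RatEq F (D + 1)) (RatEq (ext (Lf k) F) D) Γ
      (fun c hc => G_ratEq φ hΓ c hc) (cl (pp τ s : Dia F (D + 1))) =
      (QuotientAddGroup.mk (Γ (cyc (pnt (pp τ s) x y))) : CH (ext (Lf k) F) D) := by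
    rw [cl_eq hF _ V x y hc hg]
    rfl
  refine ⟨fun e he => ?_, fun h => ?_⟩
  · rw [key]
    exact sec_absc hF φ a hφ hΓ τ s hτ V x y hc hg e he
  · rw [key]
    refine sec_zero φ hΓ τ s V x y hg fun i => ?_
    rw [hφ, q4w_const τ s x y a h]
    exact q4w_absc (s a) i

end Pool.Agent.LibHL77
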