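import Pool.Agent.LibHL77.SDefs

/-!
[HL77 S3] the relations given by `W a` (pure combinatorics). Proof. Apply `W a` to the relation: only the `j` with `a ∈ τ j e` for some (one) `e` remain, with
`2 m_j Φ' (dl e (τ j))`; `IH` for `T` (a set of blocks which do not contain `a`). The image of `dl e (τ j)` is `T` iff `image (τ j) = insert (τ j e) T`, and
`τ j e` is `{a}` or `{a, x}`. Second part: the constant at `z` is `o' z` if `z ∈ τ j e`, i.e. `τ j e = {a, z}`, and `c z (s z)` otherwise.
-/

open scoped Classical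

namespace Pool.Agent.LibHL77

variable {n D : ℕ} {Lb : Type} {l : Fin n → Lb} {g : Fin n → ℤ} {A A' : Fin n → Type}
  {o' : ∀ a, A' a} {c : ∀ a, A a → A' a} {t : ∀ a b, A b → A a} {G G' : Type}
  [AddCommGroup G] [AddCommGroup G'] {Φ : (Fin (D + 1) → Finset (Fin n)) → (∀ a, A a) → G}
  {Φ' : (Fin D → Finset (Fin n)) → (∀ a, A' a) → G'} {W : Fin n → G →+ G'}
  {E : Fin n → Fin n → G →+ G'}

omit [AddCommGroup G] [AddCommGroup G'] in
private theorem s3_pair {a : Fin n} {B U : Finset (Fin n)} (ha : a ∈ B) (hB : B.card ≤ 2)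
    (hU : a ∉ U) :
    (if B = {a} then (1:ℚ) else 0) + ∑ x ∈ U, (if B = {a, x} then (1:ℚ) else 0) =
      if B ⊆ insert a U then 1 else 0 := by
  by_cases h : B = {a}
  · have h1 : ∑ x ∈ U, (if B = {a, x} then (1:ℚ) else 0) = 0 := by
      refine Finset.sum_eq_zero fun x hx => if_neg fun h2 => ?_
      have h3 : x ∈ B := by
        rw [h2]
        simp
      rw [h, Finset.mem_singleton] at h3
      exact hU (h3 ▸ hx)
    have h4 : B ⊆ insert a U := by
      rw [h]
      simp
    rw [h1, if_pos h, if_pos h4, add_zero]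
  · obtain ⟨b, hb, hba⟩ : ∃ b ∈ B, b ≠ a := by
      by_contra hc
      push Not at hc
      exact h (Finset.eq_singleton_iff_unique_mem.2 ⟨ha, hc⟩)
    have hBab : B = {a, b} := by
      symm
      refine Finset.eq_of_subset_of_card_le ?_ ?_
      · intro y hy
        rw [Finset.mem_insert, Finset.mem_singleton] at hy
        rcases hy with rfl | rfl
        · exact ha
        · exact hb
      · rw [Finset.card_pair hba.symm]
        exact hB
    have h1 : ∀ x ∈ U, (if B = {a, x} then (1:ℚ) else 0) = if x = b then 1 else 0 := by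
      intro x _
      by_cases hx : x = b
      · rw [if_pos hx, if_pos (by rw [hBab, hx])]
      · rw [if_neg hx, if_neg fun h2 => ?_]
        have h3 : b ∈ ({a, x} : Finset (Fin n)) := by
          rw [← h2]
          exact hb
        rw [Finset.mem_insert, Finset.mem_singleton] at h3
        rcases h3 with h3 | h3
        · exact hba h3
        · exact hx h3.symm
    rw [if_neg h, zero_add, Finset.sum_congr rfl h1, Finset.sum_ite_eq']
    by_cases hbU : b ∈ U
    · rw [if_pos hbU, if_pos]
      rw [hBab]
      intro y hy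
      rw [Finset.mem_insert, Finset.mem_singleton] at hy
      rw [Finset.mem_insert]
      rcases hy with rfl | rfl
      · exact Or.inl rfl
      · exact Or.inr hbU
    · rw [if_neg hbU, if_neg]
      intro h2
      rcases Finset.mem_insert.1 (h2 hb) with h3 | h3
      · exact hba h3
      · exact hbU h3

private theorem s3_img {τ : Fin (D + 1) → Finset (Fin n)} (hv : Val l τ) {a : Fin n}
    {e : Fin (D + 1)} (hae : a ∈ τ e) {T : Finset (Finset (Fin n))} (hT : ∀ t ∈ T, a ∉ t)
    {B : Finset (Fin n)} (haB : a ∈ B) :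
    Finset.univ.image τ = insert B T ↔ (τ e = B ∧ Finset.univ.image (dl e τ) = T) := by
  have hu : ∀ i, a ∈ τ i → i = e := fun i hi => by
    by_contra hne
    exact Finset.disjoint_left.1 (hv.1 i e hne) hi hae
  have hi : Finset.univ.image τ = insert (τ e) (Finset.univ.image (dl e τ)) := by
    ext t
    rw [Finset.mem_image, Finset.mem_insert, Finset.mem_image]
    constructor
    · rintro ⟨i, -, rfl⟩
      rcases Fin.eq_self_or_eq_succAbove e i with rfl | ⟨i', rfl⟩
      · exact Or.inl rfl
      · exact Or.inr ⟨i', Finset.mem_univ _, rfl⟩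
    · rintro (rfl | ⟨i', -, rfl⟩)
      · exact ⟨e, Finset.mem_univ _, rfl⟩
      · exact ⟨_, Finset.mem_univ _, rfl⟩
  constructor
  · intro h
    have h1 : B ∈ Finset.univ.image τ := by
      rw [h]
      exact Finset.mem_insert_self _ _
    obtain ⟨i, -, hiB⟩ := Finset.mem_image.1 h1
    have h2 : i = e := hu i (by rw [hiB]; exact haB)
    have h3 : τ e = B := by rw [← h2, hiB]
    refine ⟨h3, ?_⟩
    ext t
    constructor
    · intro ht
      obtain ⟨i', -, hi'⟩ := Finset.mem_image.1 ht
      have h4 : t ∈ insert B T := by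
        rw [← h, ← hi']
        exact Finset.mem_image_of_mem _ (Finset.mem_univ _)
      rcases Finset.mem_insert.1 h4 with h5 | h5
      · exfalso
        have h6 : a ∈ τ (e.succAbove i') := by
          have h7 : dl e τ i' = τ (e.succAbove i') := rfl
          rw [← h7, hi', h5]
          exact haB
        exact Fin.succAbove_ne e i' (hu _ h6)
      · exact h5
    · intro ht
      have h4 : t ∈ Finset.univ.image τ := by
        rw [h]
        exact Finset.mem_insert_of_mem ht
      rw [hi] at h4
      rcases Finset.mem_insert.1 h4 with h5 | h5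
      · exact absurd (by rw [h5]; exact hae) (hT t ht)
      · exact h5
  · rintro ⟨rfl, rfl⟩
    exact hi

private theorem s3_term {τ : Fin (D + 1) → Finset (Fin n)} (hv : Atm l τ) {a : Fin n}
    {e : Fin (D + 1)} (hae : (∃ e, a ∈ τ e) → a ∈ τ e) {T : Finset (Finset (Fin n))}
    (hT : ∀ t ∈ T, a ∉ t) {U : Finset (Fin n)} (hU : a ∉ U) (w : ℚ) :
    (if Finset.univ.image τ = insert {a} T then w else 0) +
      ∑ x ∈ U, (if Finset.univ.image τ = insert {a, x} T then w else 0) =
      if ∃ e, a ∈ τ e then (if Finset.univ.image (dl e τ) = T then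
        (if τ e ⊆ insert a U then w else 0) else 0) else 0 := by
  by_cases hex : ∃ e, a ∈ τ e
  · have hae' := hae hex
    rw [if_pos hex]
    have h1 : ∀ B : Finset (Fin n), a ∈ B → (if Finset.univ.image τ = insert B T then w else 0) =
        if Finset.univ.image (dl e τ) = T then (if τ e = B then w else 0) else 0 := by
      intro B hB
      have h2 := s3_img hv.1 hae' hT hB
      by_cases h3 : Finset.univ.image (dl e τ) = T
      · rw [if_pos h3]
        by_cases h4 : τ e = B
        · rw [if_pos (h2.2 ⟨h4, h3⟩), if_pos h4]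
        · rw [if_neg fun h5 => h4 (h2.1 h5).1, if_neg h4]
      · rw [if_neg h3, if_neg fun h5 => h3 (h2.1 h5).2]
    rw [h1 {a} (Finset.mem_singleton_self a), Finset.sum_congr rfl fun x _ =>
      h1 {a, x} (Finset.mem_insert_self a _)]
    by_cases h3 : Finset.univ.image (dl e τ) = T
    · simp only [if_pos h3]
      have h4 := congrArg (fun q : ℚ => q * w) (s3_pair hae' (hv.2 e) hU)
      simp only [add_mul, Finset.sum_mul, ite_mul, one_mul, zero_mul] at h4
      exact h4
    · simp only [if_neg h3, Finset.sum_const_zero, add_zero]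
  · rw [if_neg hex]
    have h1 : ∀ B : Finset (Fin n), a ∈ B →
        (if Finset.univ.image τ = insert B T then w else 0) = 0 := by
      intro B hB
      refine if_neg fun h2 => hex ?_
      have h3 : B ∈ Finset.univ.image τ := by
        rw [h2]
        exact Finset.mem_insert_self _ _
      obtain ⟨i, -, hi⟩ := Finset.mem_image.1 h3
      exact ⟨i, by rw [hi]; exact hB⟩
    rw [h1 {a} (Finset.mem_singleton_self a), Finset.sum_eq_zero fun x _ =>
      h1 {a, x} (Finset.mem_insert_self a _), add_zero]

theorem rel_W (h : Ops l g o' c t Φ Φ' W E) {val : ∀ a, A a → ℚ} {val' : ∀ a, A' a → ℚ}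
    (IH : Det l Φ' val') (hval : ∀ a s, val' a (c a s) = val a s) (ho : ∀ a, val' a (o' a) = 0)
    {J : Type} [Fintype J] (m : J → ℤ) (τ : J → Fin (D + 1) → Finset (Fin n))
    (s : J → ∀ a, A a) (hτ : ∀ j, Atm l (τ j))
    (hX : IsOfFinAddOrder (∑ j, m j • Φ (τ j) (s j))) (a : Fin n)
    (T : Finset (Finset (Fin n))) (hT : ∀ t ∈ T, a ∉ t) :
    Mt m τ (insert {a} T) + ∑ x ∈ Finset.univ.erase a, Mt m τ (insert {a, x} T) = 0 ∧
    ∀ z, z ≠ a → (∀ t ∈ T, z ∉ t) →
      Nt m τ s val (insert {a} T) z +
        ∑ x ∈ (Finset.univ.erase a).erase z, Nt m τ s val (insert {a, x} T) z = 0 := by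
  have hch : ∀ j, ∃ e, (∃ e', a ∈ τ j e') → a ∈ τ j e := fun j => by
    by_cases hj : ∃ e', a ∈ τ j e'
    · exact ⟨hj.choose, fun _ => hj.choose_spec⟩
    · exact ⟨0, fun h => absurd h hj⟩
  choose e he using hch
  -- the new family
  have hfin : IsOfFinAddOrder (∑ j : {j : J // ∃ e', a ∈ τ j e'}, (2 * m j.1) •
      Φ' (dl (e j.1) (τ j.1)) (fun x => if x ∈ τ j.1 (e j.1) then o' x else c x (s j.1 x))) := by
    have h1 := (W a).isOfFinAddOrder hX
    have h2 : W a (∑ j, m j • Φ (τ j) (s j)) = ∑ j : {j : J // ∃ e', a ∈ τ j e'}, (2 * m j.1) •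
        Φ' (dl (e j.1) (τ j.1)) (fun x => if x ∈ τ j.1 (e j.1) then o' x else c x (s j.1 x)) := by
      rw [map_sum, ← Finset.sum_subtype (Finset.univ.filter fun j => ∃ e', a ∈ τ j e')
        (fun j => by simp) (fun j => (2 * m j) • Φ' (dl (e j) (τ j))
          (fun x => if x ∈ τ j (e j) then o' x else c x (s j x))), Finset.sum_filter]
      refine Finset.sum_congr rfl fun j _ => ?_
      rw [map_zsmul]
      by_cases hj : ∃ e', a ∈ τ j e'
      · rw [if_pos hj, h.W1 a (e j) (τ j) (s j) (hτ j).1 (he j hj), smul_smul, mul_comm]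
      · rw [if_neg hj, h.W0 a (τ j) (s j) (hτ j).1 (fun e' he' => hj ⟨e', he'⟩), smul_zero]
    rwa [h2] at h1
  have hat : ∀ j : {j : J // ∃ e', a ∈ τ j e'}, Atm l (dl (e j.1) (τ j.1)) := fun j => by
    obtain ⟨⟨h1, h2⟩, h3⟩ := hτ j.1
    exact ⟨⟨fun i i' hii => h1 _ _ fun h4 => hii (Fin.succAbove_right_injective h4),
      fun i => h2 _⟩, fun i => h3 _⟩
  obtain ⟨hM, hN⟩ := IH {j : J // ∃ e', a ∈ τ j e'} inferInstance (fun j => 2 * m j.1)
    (fun j => dl (e j.1) (τ j.1)) (fun j x => if x ∈ τ j.1 (e j.1) then o' x else c x (s j.1 x))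
    hat hfin T
  have key : ∀ (U : Finset (Fin n)), a ∉ U → ∀ w : J → ℚ,
      (∑ j, if Finset.univ.image (τ j) = insert {a} T then w j else 0) +
        ∑ x ∈ U, ∑ j, (if Finset.univ.image (τ j) = insert {a, x} T then w j else 0) =
      ∑ j : {j : J // ∃ e', a ∈ τ j e'}, if Finset.univ.image (dl (e j.1) (τ j.1)) = T then
        (if τ j.1 (e j.1) ⊆ insert a U then w j.1 else 0) else 0 := by
    intro U hU w
    rw [Finset.sum_comm, ← Finset.sum_add_distrib,
      ← Finset.sum_subtype (Finset.univ.filter fun j => ∃ e', a ∈ τ j e')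
        (fun j => by simp) (fun j => if Finset.univ.image (dl (e j) (τ j)) = T then
        (if τ j (e j) ⊆ insert a U then w j else 0) else 0), Finset.sum_filter]
    exact Finset.sum_congr rfl fun j _ => s3_term (hτ j) (he j) hT hU (w j)
  refine ⟨?_, fun z hza hz => ?_⟩
  · have h1 := key (Finset.univ.erase a) (Finset.notMem_erase a _) (fun j => (m j : ℚ))
    unfold Mt
    rw [h1]
    unfold Mt at hM
    have h2 : (2 : ℚ) * ∑ j : {j : J // ∃ e', a ∈ τ j e'},
        (if Finset.univ.image (dl (e j.1) (τ j.1)) = T then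
          (if τ j.1 (e j.1) ⊆ insert a (Finset.univ.erase a) then (m j.1 : ℚ) else 0) else 0) = 0 := by
      rw [Finset.mul_sum]
      refine Eq.trans (Finset.sum_congr rfl fun j _ => ?_) hM
      by_cases h4 : Finset.univ.image (dl (e j.1) (τ j.1)) = T
      · have h5 : τ j.1 (e j.1) ⊆ insert a (Finset.univ.erase a) := by
          rw [Finset.insert_erase (Finset.mem_univ a)]
          exact Finset.subset_univ _
        rw [if_pos h4, if_pos h4, if_pos h5]
        push_cast
        rfl
      · rw [if_neg h4, if_neg h4, mul_zero]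
    linarith
  · have h1 := key ((Finset.univ.erase a).erase z)
      (fun h => Finset.notMem_erase a _ (Finset.mem_of_mem_erase h))
      (fun j => (m j : ℚ) * val z (s j z))
    have h3 := hN z hz
    unfold Nt
    rw [h1]
    unfold Nt at h3
    have h2 : (2 : ℚ) * ∑ j : {j : J // ∃ e', a ∈ τ j e'},
        (if Finset.univ.image (dl (e j.1) (τ j.1)) = T then
          (if τ j.1 (e j.1) ⊆ insert a ((Finset.univ.erase a).erase z) then
            (m j.1 : ℚ) * val z (s j.1 z) else 0) else 0) = 0 := by
      rw [Finset.mul_sum]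
      refine Eq.trans (Finset.sum_congr rfl fun j _ => ?_) h3
      by_cases h4 : Finset.univ.image (dl (e j.1) (τ j.1)) = T
      · rw [if_pos h4, if_pos h4]
        change _ = ((2 * m j.1 : ℤ) : ℚ) *
          val' z (if z ∈ τ j.1 (e j.1) then o' z else c z (s j.1 z))
        by_cases h5 : z ∈ τ j.1 (e j.1)
        · rw [if_pos h5, ho, if_neg, mul_zero, mul_zero]
          intro h6
          rcases Finset.mem_insert.1 (h6 h5) with h7 | h7
          · exact hza h7
          · exact Finset.notMem_erase z _ h7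
        · rw [if_neg h5, hval, if_pos]
          · push_cast
            ring
          · intro y hy
            rw [Finset.mem_insert, Finset.mem_erase, Finset.mem_erase]
            by_cases hya : y = a
            · exact Or.inl hya
            · exact Or.inr ⟨fun hyz => h5 (hyz ▸ hy), hya, Finset.mem_univ _⟩
      · rw [if_neg h4, if_neg h4, mul_zero]
    linarith

end Pool.Agent.LibHL77
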