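import Pool.Agent.LibHL77.Z3a
import Pool.Agent.LibHL77.L1c
import Pool.Agent.LibHD77.L1a
import Pool.Agent.LibHD77.L1b
import Pool.Agent.LibHD77.U3
import Pool.Agent.LibEnd77.ValC

/-!
[HL77 Z3] places and centres. `Cen f p T`: the place `p` of the function field of the curve is centred at the point `T` with coordinates in a field `M`. Proofs. `cen_mpt`: compose. `res_gen`: `q = .inf`: `exists_pl_inf` (LibHD77/L1b.lean) with `M = k`: the
residue field is `k`; otherwise by `loc` every residue is a quotient of polynomials in the residues of `xs, ys`. `cen_unique`: `T = .inf`: both places have a pole at `xs`: uniqueness in `exists_pl_inf`; `T` affine: by `loc` the ring `VR p` consists of the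
quotients `G(xs, ys) / H(xs, ys)` with `H(x₀, y₀) ≠ 0` (`ι` is injective), the same for `p'`, so `VR p = VR p'`, and a place is determined by its ring (`ord z ≥ 0 ↔` ..., a uniformizer, units). `cen_of_mpt`: by `res_gen` the image of `ι` is generated by the
coordinates of `mpt σ T`, so contained in `σ M`. `exists_cen`: `exists_pl_inf`, `exists_pl_aff`, `exists_pl_wei` with `M = k`, `j = Algebra.ofId k (KC f)` (`Gen1`: `gen1_of_cps` or directly); `Triv` gives that the residue field is `k`; the uniformizer is `t`.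
-/

open scoped Classical
open Polynomial

namespace Pool.Agent.LibHL77

open Pool.Agent.LibBH2
open Pool.Agent.LibCHd (VR RF Red FunF IsCps)
open Pool.Agent.LibHyp34 (Hyp Pt Pic jP Sp KC DCf gn gen el mk)
open Pool.Agent.LibHD77
open Pool.Agent.LibHD77.Comb (Pat sub Cmp)

variable {k : Type} [Field k]

/-- the place `p` of the curve is centred at the point `T` -/
def Cen (f : k[X]) [Hyp f] (p : Place k (KC f)) {M : Type} [Field M] [Algebra k M]
    (T : MPt f M) : Prop :=
  ∃ (q : MPt f (RF p)) (ι : RF p →ₐ[k] M), SpR p (gen f : MPt f (KC f)) q ∧ mpt ι q = T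

theorem cen_mpt (f : k[X]) [Hyp f] (p : Place k (KC f)) {M M' : Type} [Field M] [Algebra k M]
    [Field M'] [Algebra k M'] (σ : M →ₐ[k] M') (T : MPt f M) (h : Cen f p T) :
    Cen f p (mpt σ T) := by
  obtain ⟨q, ι, h1, h2⟩ := h
  exact ⟨q, σ.comp ι, h1, by rw [← mpt_comp, h2]⟩

/-- a place is determined by its ring and its ideal -/
theorem Z3_place {K : Type} [Field K] [Algebra k K] {p p' : Place k K}
    (h1 : ∀ z, p.Reg z → p'.Reg z) (h2 : ∀ z, p.Zer z → p'.Zer z) : p = p' := by
  obtain ⟨t, ht⟩ := p.exists_uniformizer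
  have ht0 : t ≠ 0 := by
    rintro rfl
    rw [p.ord_zero] at ht
    omega
  have hu : ∀ u, u ≠ 0 → p.ord u = 0 → p'.ord u = 0 := by
    intro u hu h
    have h3 := (h1 u (Or.inr h.ge)).resolve_left hu
    have h4 := (h1 u⁻¹ (Or.inr (by rw [p.ord_inv, h]; simp))).resolve_left (inv_ne_zero hu)
    rw [p'.ord_inv] at h4
    omega
  have key : ∀ z, z ≠ 0 → p'.ord z = p.ord z * p'.ord t := by
    intro z hz
    have h5 := hu (z * t ^ (-(p.ord z))) (mul_ne_zero hz (zpow_ne_zero _ ht0)) (by
      rw [p.ord_mul _ _ hz (zpow_ne_zero _ ht0), p.ord_zpow, ht]; ring)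
    rw [p'.ord_mul _ _ hz (zpow_ne_zero _ ht0), p'.ord_zpow] at h5
    linarith
  have h6 : 0 < p'.ord t := (h2 t (Or.inr (by omega))).resolve_left ht0
  obtain ⟨t', ht'⟩ := p'.exists_uniformizer
  have ht0' : t' ≠ 0 := by
    rintro rfl
    rw [p'.ord_zero] at ht'
    omega
  have h7 := key t' ht0'
  rw [ht'] at h7
  have h8 : p'.ord t = 1 :=
    Int.eq_one_of_dvd_one h6.le ⟨p.ord t', by rw [h7]; ring⟩
  apply Place.ext'
  intro z
  by_cases hz : z = 0
  · rw [hz, p.ord_zero, p'.ord_zero]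
  · rw [key z hz, h8, mul_one]

theorem Z3_gen1 (f : k[X]) [Hyp f] : Gen1 (Algebra.ofId k (KC f)) f (xs f) (ys f) := by
  refine ⟨ys_sq f, fun G hG hz => ?_, ?_⟩
  · exact u3_trans f ⟨G, hG, hz⟩
  · exact u3_mem f _ (IntermediateField.subset_adjoin _ _ (by simp))
      (IntermediateField.subset_adjoin _ _ (by simp))

theorem Z3_surj {f : k[X]} [Hyp f] {w : Place k (KC f)}
    (hw : Triv (Algebra.ofId k (KC f)) w) : Function.Surjective (algebraMap k (RF w)) := by
  intro c
  obtain ⟨z, hz⟩ := Pool.Agent.LibCHd.exists_rep c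
  obtain ⟨m, hm⟩ := hw.res z hz.reg
  exact ⟨m, ((Pool.Agent.LibCHd.red_iff_val (c := m)).2 hm).unique hz⟩

theorem Z3_el (f : k[X]) [Hyp f] {p : Place k (KC f)} {a b : RF p} (ha : Red p (xs f) a)
    (hb : Red p (ys f) b) (A B : k[X]) :
    Red p (el f A B) (aeval a A + aeval a B * b) :=
  (red_aeval ha A).add ((red_aeval ha B).mul hb)

theorem Z3_zer (f : k[X]) [Hyp f] {p : Place k (KC f)} {a b : RF p} (ha : Red p (xs f) a)
    (hb : Red p (ys f) b) {M : Type} [Field M] [Algebra k M] (ι : RF p →ₐ[k] M) (A B : k[X]) :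
    p.Zer (el f A B) ↔ aeval (ι a) A + aeval (ι a) B * ι b = 0 := by
  have h1 := Z3_el f ha hb A B
  have h2 : aeval (ι a) A + aeval (ι a) B * ι b = ι (aeval a A + aeval a B * b) := by
    rw [map_add, map_mul, aeval_algHom_apply, aeval_algHom_apply]
  rw [h2, map_eq_zero]
  constructor
  · intro h3
    exact h1.unique (Pool.Agent.LibCHd.red_zero_iff.2 h3)
  · intro h3
    rw [h3] at h1
    exact Pool.Agent.LibCHd.red_zero_iff.1 h1

variable [CharZero k]

theorem res_gen (f : k[X]) [Hyp f] (p : Place k (KC f)) (q : MPt f (RF p))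
    (hq : SpR p (gen f : MPt f (KC f)) q) : IntermediateField.adjoin k {xy q 0, xy q 1} = ⊤ := by
  match q, hq with
  | .inf, hq =>
    have hq' : p.ord (xs f) < 0 := hq
    obtain ⟨w, hw, -, huniq⟩ := exists_pl_inf f (Z3_gen1 f)
    have hp : p = w := huniq p (fun m => Pool.Agent.LibEnd77.Val8.ord_const_eq p m) hq'
    subst hp
    rw [eq_top_iff]
    intro c _
    obtain ⟨m, rfl⟩ := Z3_surj hw c
    exact IntermediateField.algebraMap_mem _ m
  | .aff a b h, hq =>
    have ha : Red p (xs f) a := hq.1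
    have hb : Red p (ys f) b := hq.2
    have hmem : ∀ A B : k[X], aeval a A + aeval a B * b ∈
        IntermediateField.adjoin k {xy (.aff a b h : MPt f (RF p)) 0, xy (.aff a b h : MPt f (RF p)) 1} := by
      have h0 : a ∈ IntermediateField.adjoin k
          {xy (.aff a b h : MPt f (RF p)) 0, xy (.aff a b h : MPt f (RF p)) 1} :=
        IntermediateField.subset_adjoin _ _ (Or.inl rfl)
      have h1 : b ∈ IntermediateField.adjoin k
          {xy (.aff a b h : MPt f (RF p)) 0, xy (.aff a b h : MPt f (RF p)) 1} :=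
        IntermediateField.subset_adjoin _ _ (Or.inr rfl)
      have h2 : ∀ A : k[X], aeval a A ∈ IntermediateField.adjoin k
          {xy (.aff a b h : MPt f (RF p)) 0, xy (.aff a b h : MPt f (RF p)) 1} := by
        intro A
        have h4 : Algebra.adjoin k {a} ≤ (IntermediateField.adjoin k
            {xy (.aff a b h : MPt f (RF p)) 0, xy (.aff a b h : MPt f (RF p)) 1}).toSubalgebra :=
          Algebra.adjoin_le (by rintro _ rfl; exact h0)
        exact h4 (Polynomial.aeval_mem_adjoin_singleton k a)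
      intro A B
      exact add_mem (h2 A) (mul_mem (h2 B) h1)
    rw [eq_top_iff]
    intro c _
    obtain ⟨z, hz⟩ := Pool.Agent.LibCHd.exists_rep c
    obtain ⟨A, B, C, E, hne, h1⟩ := loc f p ha.reg z hz.reg
    have hCE := Z3_el f ha hb C E
    have hAB := Z3_el f ha hb A B
    have hc0 : aeval a C + aeval a E * b ≠ 0 := by
      intro h0
      rw [h0] at hCE
      exact hne (Pool.Agent.LibCHd.red_zero_iff.1 hCE)
    have h2 := hz.mul hCE
    rw [h1] at h2
    have h3 : c = (aeval a A + aeval a B * b) / (aeval a C + aeval a E * b) := by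
      rw [eq_div_iff hc0]
      exact h2.unique hAB
    rw [h3]
    exact div_mem (hmem A B) (hmem C E)

theorem Z3_half (f : k[X]) [Hyp f] {p p' : Place k (KC f)} {M : Type} [Field M] [Algebra k M]
    {a b : RF p} (ha : Red p (xs f) a) (hb : Red p (ys f) b) {a' b' : RF p'}
    (ha' : Red p' (xs f) a') (hb' : Red p' (ys f) b') (ι : RF p →ₐ[k] M) (ι' : RF p' →ₐ[k] M)
    (h1 : ι a = ι' a') (h2 : ι b = ι' b') : p = p' := by
  have hz : ∀ A B, p.Zer (el f A B) ↔ p'.Zer (el f A B) := by
    intro A B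
    rw [Z3_zer f ha hb ι, Z3_zer f ha' hb' ι', h1, h2]
  have hq : ∀ z, p.Reg z → ∃ A B C E : k[X], ¬ p.Zer (el f C E) ∧ ¬ p'.Zer (el f C E) ∧
      z * el f C E = el f A B ∧ z = el f A B / el f C E := by
    intro z hz'
    obtain ⟨A, B, C, E, hne, h3⟩ := loc f p ha.reg z hz'
    refine ⟨A, B, C, E, hne, fun h => hne ((hz C E).2 h), h3, ?_⟩
    rw [eq_div_iff fun h => hne (Or.inl h)]
    exact h3
  apply Z3_place
  · intro z hz'
    obtain ⟨A, B, C, E, hne, hne', h3, h4⟩ := hq z hz'
    rw [h4]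
    refine ((Z3_el f ha' hb' A B).div (Z3_el f ha' hb' C E) fun h0 => hne' ?_).reg
    have := Z3_el f ha' hb' C E
    rw [h0] at this
    exact Pool.Agent.LibCHd.red_zero_iff.1 this
  · intro z hz'
    obtain ⟨A, B, C, E, hne, hne', h3, h4⟩ := hq z hz'.reg
    have h5 : p'.Zer (el f A B) := by
      rw [← hz, ← h3]
      exact hz'.mul_reg (Z3_el f ha hb C E).reg
    rw [h4, ← Pool.Agent.LibCHd.red_zero_iff]
    have h6 := (Pool.Agent.LibCHd.red_zero_iff.2 h5).div (Z3_el f ha' hb' C E) fun h0 => hne' (by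
      have := Z3_el f ha' hb' C E
      rw [h0] at this
      exact Pool.Agent.LibCHd.red_zero_iff.1 this)
    rwa [zero_div] at h6

theorem cen_unique (f : k[X]) [Hyp f] (p p' : Place k (KC f)) {M : Type} [Field M] [Algebra k M]
    (T : MPt f M) (h : Cen f p T) (h' : Cen f p' T) : p = p' := by
  obtain ⟨q, ι, h1, h2⟩ := h
  obtain ⟨q', ι', h1', h2'⟩ := h'
  match q, q', h1, h1', h2, h2' with
  | .inf, .inf, h1, h1', h2, h2' =>
    obtain ⟨w, hw, -, huniq⟩ := exists_pl_inf f (Z3_gen1 f)
    rw [huniq p (fun m => Pool.Agent.LibEnd77.Val8.ord_const_eq p m) h1,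
      huniq p' (fun m => Pool.Agent.LibEnd77.Val8.ord_const_eq p' m) h1']
  | .inf, .aff a b h, h1, h1', h2, h2' =>
    rw [← h2] at h2'
    cases h2'
  | .aff a b h, .inf, h1, h1', h2, h2' =>
    rw [← h2] at h2'
    cases h2'
  | .aff a b h, .aff a' b' h', h1, h1', h2, h2' =>
    rw [← h2'] at h2
    have h3 : ι a = ι' a' := congrArg (fun T => xy T 0) h2
    have h4 : ι b = ι' b' := congrArg (fun T => xy T 1) h2
    exact Z3_half f h1.1 h1.2 h1'.1 h1'.2 ι ι' h3 h4

theorem Z3_mpt_inj {f : k[X]} {M M' : Type} [Field M] [Algebra k M] [Field M'] [Algebra k M']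
    (σ : M →ₐ[k] M') {p q : MPt f M} (h : mpt σ p = mpt σ q) : p = q := by
  apply mpt_ext
  · rw [← mpt_inf_iff σ p, h, mpt_inf_iff]
  · intro c
    apply σ.toRingHom.injective
    have := congrArg (fun T => xy T c) h
    simp only [xy_mpt] at this
    exact this

theorem cen_of_mpt (f : k[X]) [Hyp f] (p : Place k (KC f)) {M M' : Type} [Field M] [Algebra k M]
    [Field M'] [Algebra k M'] (σ : M →ₐ[k] M') (T : MPt f M) (h : Cen f p (mpt σ T)) :
    Cen f p T := by
  obtain ⟨q, ι, h1, h2⟩ := h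
  have hgen := res_gen f p q h1
  have hc : ∀ c : Fin 2, ι (xy q c) = σ (xy T c) := by
    intro c
    rw [← xy_mpt, h2, xy_mpt]
  have hle : ∀ z : RF p, ι z ∈ σ.fieldRange := by
    have h3 : (⊤ : IntermediateField k (RF p)) ≤ σ.fieldRange.comap ι := by
      rw [← hgen, IntermediateField.adjoin_le_iff]
      rintro z (rfl | hz)
      · exact ⟨_, (hc 0).symm⟩
      · rw [Set.mem_singleton_iff] at hz
        rw [hz]
        exact ⟨_, (hc 1).symm⟩
    intro z
    exact h3 (IntermediateField.mem_top (F := k) (E := RF p) (x := z))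
  choose g hg using hle
  have hinj : Function.Injective σ := σ.toRingHom.injective
  let ι' : RF p →ₐ[k] M :=
    { toFun := g
      map_one' := hinj ((hg 1).trans (by rw [map_one, map_one]))
      map_mul' := fun a b => hinj ((hg (a * b)).trans (by
        rw [map_mul, map_mul]
        exact (congrArg₂ _ (hg a) (hg b)).symm))
      map_zero' := hinj ((hg 0).trans (by rw [map_zero, map_zero]))
      map_add' := fun a b => hinj ((hg (a + b)).trans (by
        rw [map_add, map_add]
        exact (congrArg₂ _ (hg a) (hg b)).symm))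
      commutes' := fun c => hinj ((hg _).trans (by rw [AlgHom.commutes, AlgHom.commutes])) }
  refine ⟨q, ι', h1, ?_⟩
  apply Z3_mpt_inj σ
  rw [mpt_comp, ← h2]
  congr 1
  ext z
  exact hg z

theorem Z3_ord_inf {K : Type} [Field K] [Algebra k K] (v : Place k K) {x : K} (hx : v.ord x < 0)
    {f : k[X]} (hf : f.Monic) :
    aeval x f ≠ 0 ∧ v.ord (aeval x f) = f.natDegree * v.ord x := by
  have hx0 : x ≠ 0 := by
    rintro rfl
    rw [v.ord_zero] at hx
    exact lt_irrefl _ hx
  let _ : Invertible x := invertibleOfNonzero hx0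
  have h1 := eval₂_reverse_mul_pow (algebraMap k K) x f
  rw [invOf_eq_inv] at h1
  have hz : v.Zer x⁻¹ := Or.inr (by rw [v.ord_inv]; omega)
  have hred := Pool.Agent.LibCHd.red_zero_iff.2 hz
  have h2 := red_aeval hred f.reverse
  have h3 : aeval (0 : RF v) f.reverse = algebraMap k (RF v) 1 := by
    rw [← coeff_zero_eq_aeval_zero', coeff_zero_reverse, hf.leadingCoeff]
  rw [h3, map_one] at h2
  have h4 : eval₂ (algebraMap k K) x⁻¹ f.reverse ≠ 0 := h2.ne_zero one_ne_zero
  have h5 : v.ord (eval₂ (algebraMap k K) x⁻¹ f.reverse) = 0 := h2.ord_eq_zero one_ne_zero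
  have h6 : aeval x f = eval₂ (algebraMap k K) x⁻¹ f.reverse * x ^ f.natDegree := by
    rw [h1]; rfl
  rw [h6]
  refine ⟨mul_ne_zero h4 (pow_ne_zero _ hx0), ?_⟩
  rw [v.ord_mul _ _ h4 (pow_ne_zero _ hx0), h5, v.ord_pow, zero_add]

theorem Z3_data (f : k[X]) [Hyp f] (s : Pt f) (w : Place k (KC f))
    (hw : Triv (Algebra.ofId k (KC f)) w) (h : Sp w (gen f) s) :
    Cen f w (cst k s : MPt f k) ∧ SpR w (gen f : MPt f (KC f)) (cst (RF w) s) ∧
    Sp w (gen f) s ∧ Module.finrank k (RF w) = 1 := by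
  have hsurj := Z3_surj hw
  let e : k ≃ₐ[k] RF w := AlgEquiv.ofBijective (Algebra.ofId k (RF w))
    ⟨(algebraMap k (RF w)).injective, hsurj⟩
  have hsp : SpR w (gen f : MPt f (KC f)) (cst (RF w) s) := by
    match s, h with
    | .inf, h => exact h
    | .aff x y h0, h =>
      exact ⟨Pool.Agent.LibCHd.red_iff_val.2 h.1, Pool.Agent.LibCHd.red_iff_val.2 h.2⟩
  refine ⟨⟨_, e.symm.toAlgHom, hsp, ?_⟩, hsp, h, ?_⟩
  · exact mpt_cst _ s
  · rw [← e.toLinearEquiv.finrank_eq]
    exact Module.finrank_self k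

/-- the place at a rational point, with the uniformizer `xs - x`, `ys` or `xs ^ g / ys` -/
theorem exists_cen (f : k[X]) [Hyp f] (s : Pt f) : ∃ p : Place k (KC f),
    Cen f p (cst k s : MPt f k) ∧ SpR p (gen f : MPt f (KC f)) (cst (RF p) s) ∧
    Sp p (gen f) s ∧ Module.finrank k (RF p) = 1 ∧
    p.ord (match s with
      | .inf => xs f ^ (gn f) / ys f
      | .aff x y _ => if y = 0 then ys f else xs f - algebraMap k (KC f) x) = 1 := by
  match s with
  | .inf =>
    obtain ⟨w, hw, hord, -⟩ := exists_pl_inf f (Z3_gen1 f)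
    have hneg : w.ord (xs f) < 0 := by omega
    obtain ⟨h1, h2, h3, h4⟩ := Z3_data f (.inf : Pt f) w hw hneg
    refine ⟨w, h1, h2, h3, h4, ?_⟩
    obtain ⟨h5, h6⟩ := Z3_ord_inf w hneg (Hyp.monic (f := f))
    rw [← ys_sq] at h5 h6
    rw [w.ord_pow, Hyp.deg (f := f), hord] at h6
    have hx0 : xs f ≠ 0 := by
      intro h
      rw [h, w.ord_zero] at hord
      omega
    have hy0 : ys f ≠ 0 := fun h => h5 (by rw [h]; simp)
    change w.ord (xs f ^ (gn f) / ys f) = 1
    rw [w.ord_div _ _ (pow_ne_zero _ hx0) hy0, w.ord_pow, hord]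
    push_cast at h6
    linarith
  | .aff x y h =>
    by_cases hy : y = 0
    · subst hy
      have h0 : aeval x f = 0 := by
        rw [coe_aeval_eq_eval, ← h]
        simp
      obtain ⟨w, hw, hx, hy, -⟩ := exists_pl_wei f (Z3_gen1 f) x h0
      have hx' : w.ord (xs f - algebraMap k (KC f) x) = 2 := hx
      obtain ⟨h1, h2, h3, h4⟩ := Z3_data f (.aff x 0 h : Pt f) w hw
        ⟨Or.inr (by rw [show (DCf f).s = xs f from rfl, hx']; norm_num), Or.inr (by
          rw [map_zero, sub_zero, show (DCf f).w = ys f from rfl, hy]; norm_num)⟩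
      refine ⟨w, h1, h2, h3, h4, ?_⟩
      change w.ord (if (0 : k) = 0 then ys f else _) = 1
      rw [if_pos rfl]
      exact hy
    · have h0 : y ^ 2 = aeval x f := by
        rw [coe_aeval_eq_eval, ← h]
      obtain ⟨w, hw, hx, hy', -⟩ := exists_pl_aff f (Z3_gen1 f) x y h0 hy
      have hx' : w.ord (xs f - algebraMap k (KC f) x) = 1 := hx
      obtain ⟨h1, h2, h3, h4⟩ := Z3_data f (.aff x y h : Pt f) w hw
        ⟨Or.inr (by rw [show (DCf f).s = xs f from rfl, hx']; norm_num), hy'⟩
      refine ⟨w, h1, h2, h3, h4, ?_⟩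
      change w.ord (if y = 0 then ys f else xs f - algebraMap k (KC f) x) = 1
      rw [if_neg hy]
      exact hx'

end Pool.Agent.LibHL77
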