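import Pool.Agent.LibHL77.Defs

/-!
[HL77 Z3a] the local rings of the affine curve. Let `p` be a place of the function field `K = k(xs)(ys)` at which `xs` is regular (so `ys` is too). `loc`: every function which is regular at `p` is a quotient of two
polynomials in `xs, ys`, the denominator not zero at `p`. Proof. If `p` is trivial on `k[xs]` then on `k(xs)` and `p` would be trivial; so the polynomials in `xs` vanishing at `p` are the multiples of an irreducible `P`; `O₀ = k[xs]_(P)`, `v₀` its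
valuation, `σ : ys ↦ -ys` the automorphism of `K` over `k(xs)`, `O = O₀ + O₀ ys`. (1) If `z = A + B ys` (`A, B ∈ k(xs)`) is regular at `p` and `σ z` is regular at `p` then `z ∈ O`: `2 A = z + σ z` is regular at `p`, so `A ∈ O₀`;
`B ^ 2 f = A ^ 2 - z σ(z) ∈ O₀` and `v₀ f ≤ 1` (`f` has no multiple factors), so `B ∈ O₀`. (2) In general let `p' = p ∘ σ`. If `p' = p`: done by (1). If `p' ≠ p`: there is `b ∈ O` with `p'.Zer b` and not `p.Zer b`: take `z` with
`p.Reg z`, not `p'.Reg z` or the other way round (`VR p ≠ VR p'`; if `VR p ⊆ VR p'` they are equal), ... for instance `b₁ = 1 / z` or its conjugate suitably, and correct `b₁` to be regular at both places (multiply by `1 / (1 + b₁)`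
or use `w / (1 + w ^ m)`); then `b₁ ∈ O` by (1). For `z` regular at `p` the function `z b ^ N` is regular at `p` and `p'` for large `N`, so in `O` by (1). Finally clear the denominators in `O₀` (polynomials in `xs` prime to `P`).
-/

open scoped Classical
open Polynomial

namespace Pool.Agent.LibHL77

open Pool.Agent.LibBH2
open Pool.Agent.LibCHd (VR RF Red FunF IsCps)
open Pool.Agent.LibHyp34 (Hyp Pt Pic jP Sp KC DCf gn gen el mk)
open Pool.Agent.LibHD77
open Pool.Agent.LibHD77.Comb (Pat sub Cmp)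

variable {k : Type} [Field k] [CharZero k]

private theorem z3_reg_aeval {K : Type} [Field K] [Algebra k K] {p : Place k K} {x : K}
    (hp : p.Reg x) (A : k[X]) : p.Reg (aeval x A) := by
  induction A using Polynomial.induction_on' with
  | add a b ha hb => rw [map_add]; exact ha.add hb
  | monomial n a =>
    rw [aeval_monomial]
    exact (p.reg_const a).mul (hp.pow n)

private theorem z3_nz_mul {K : Type} [Field K] [Algebra k K] {p : Place k K} {x y : K}
    (hx : p.Reg x) (hy : p.Reg y) (hx' : ¬ p.Zer x) (hy' : ¬ p.Zer y) : ¬ p.Zer (x * y) := by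
  have h1 := Place.ord_eq_zero_of_reg hx hx'
  have h2 := Place.ord_eq_zero_of_reg hy hy'
  have hx0 : x ≠ 0 := fun h => hx' (Or.inl h)
  have hy0 : y ≠ 0 := fun h => hy' (Or.inl h)
  rintro (h | h)
  · exact mul_ne_zero hx0 hy0 h
  · rw [p.ord_mul _ _ hx0 hy0, h1, h2] at h
    omega

private theorem z3_ys_ne (f : k[X]) [Hyp f] : ys f ≠ 0 := by
  intro h
  have h1 := ys_sq f
  rw [h, zero_pow two_ne_zero] at h1
  exact (DCf f).aeval_ne_zero (Hyp.monic (f := f)).ne_zero h1.symm

private theorem z3_reg_ys {f : k[X]} [Hyp f] {p : Place k (KC f)} (hp : p.Reg (xs f)) :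
    p.Reg (ys f) := by
  have h1 : p.Reg (ys f ^ 2) := by
    rw [ys_sq]; exact z3_reg_aeval hp f
  rcases h1 with h1 | h1
  · exact absurd (pow_eq_zero_iff two_ne_zero |>.1 h1) (z3_ys_ne f)
  · rw [p.ord_pow] at h1
    right
    push_cast at h1
    omega

private theorem z3_el (f : k[X]) [Hyp f] (A B : k[X]) :
    el f A B = aeval (xs f) A + aeval (xs f) B * ys f := rfl

private theorem z3_el_mul (f : k[X]) [Hyp f] (A B C E : k[X]) :
    el f A B * el f C E = el f (A * C + B * E * f) (A * E + B * C) := by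
  rw [z3_el, z3_el, z3_el]
  simp only [map_add, map_mul]
  rw [← ys_sq f]
  ring

private theorem z3_norm (f : k[X]) [Hyp f] (A B : k[X]) :
    el f A B * el f A (-B) = aeval (xs f) (A ^ 2 - B ^ 2 * f) := by
  rw [z3_el, z3_el]
  simp only [map_neg, map_sub, map_mul, map_pow]
  rw [← ys_sq f]
  ring

private theorem z3_reg_el {f : k[X]} [Hyp f] {p : Place k (KC f)} (hp : p.Reg (xs f))
    (A B : k[X]) : p.Reg (el f A B) :=
  (z3_reg_aeval hp A).add ((z3_reg_aeval hp B).mul (z3_reg_ys hp))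

private theorem z3_el_poly (f : k[X]) [Hyp f] (A : k[X]) : el f A 0 = aeval (xs f) A := by
  rw [z3_el, map_zero, zero_mul, add_zero]

private theorem z3_el_pow (f : k[X]) [Hyp f] (A B : k[X]) (n : ℕ) :
    ∃ C E, el f A B ^ n = el f C E := by
  induction n with
  | zero => exact ⟨1, 0, by rw [z3_el_poly, map_one, pow_zero]⟩
  | succ n ih =>
    obtain ⟨C, E, h⟩ := ih
    exact ⟨_, _, by rw [pow_succ, h, z3_el_mul]⟩

private theorem z3_frac (f : k[X]) [Hyp f] (z : KC f) :
    ∃ A B C : k[X], C ≠ 0 ∧ z * aeval (xs f) C = el f A B := by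
  obtain ⟨a, b, rfl⟩ := (DCf f).gen z
  refine ⟨a.num * b.denom, b.num * a.denom, a.denom * b.denom,
    mul_ne_zero a.denom_ne_zero b.denom_ne_zero, ?_⟩
  have ha : (DCf f).ι a * aeval (xs f) a.denom = aeval (xs f) a.num := by
    have h0 : aeval (xs f) a.denom ≠ 0 := (DCf f).aeval_ne_zero a.denom_ne_zero
    have h1 := congrArg (DCf f).ι (RatFunc.num_div_denom a)
    rw [map_div₀, (DCf f).ι_poly, (DCf f).ι_poly] at h1
    rw [← h1]
    exact div_mul_cancel₀ _ h0
  have hb : (DCf f).ι b * aeval (xs f) b.denom = aeval (xs f) b.num := by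
    have h0 : aeval (xs f) b.denom ≠ 0 := (DCf f).aeval_ne_zero b.denom_ne_zero
    have h1 := congrArg (DCf f).ι (RatFunc.num_div_denom b)
    rw [map_div₀, (DCf f).ι_poly, (DCf f).ι_poly] at h1
    rw [← h1]
    exact div_mul_cancel₀ _ h0
  rw [z3_el, map_mul, map_mul, map_mul, ← ha, ← hb]
  change ((DCf f).ι a + (DCf f).ι b * ys f) * _ = _
  ring

/-- an irreducible polynomial vanishing at `p` -/
private theorem z3_prime {f : k[X]} [Hyp f] {p : Place k (KC f)} (hp : p.Reg (xs f)) :
    ∃ P : k[X], Prime P ∧ ∀ Q, p.Zer (aeval (xs f) Q) ↔ P ∣ Q := by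
  obtain ⟨t, ht⟩ := p.exists_uniformizer
  have ht0 : t ≠ 0 := by
    rintro rfl
    rw [p.ord_zero] at ht
    exact zero_ne_one ht
  obtain ⟨A, B, C, hC, h1⟩ := z3_frac f t
  have hC0 : aeval (xs f) C ≠ 0 := (DCf f).aeval_ne_zero hC
  have hr0 : el f A B ≠ 0 := by
    rw [← h1]; exact mul_ne_zero ht0 hC0
  have hrz : p.Zer (el f A B) := by
    right
    rw [← h1, p.ord_mul _ _ ht0 hC0, ht]
    have h2 := (z3_reg_aeval hp C).resolve_left hC0
    omega
  let I : Ideal k[X] :=
    { carrier := {Q | p.Zer (aeval (xs f) Q)}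
      add_mem' := fun {a b} ha hb => by
        change p.Zer (aeval (xs f) (a + b))
        rw [map_add]; exact Place.Zer.add ha hb
      zero_mem' := by
        change p.Zer (aeval (xs f) 0)
        rw [map_zero]; exact p.zer_zero
      smul_mem' := fun c a ha => by
        change p.Zer (aeval (xs f) (c * a))
        rw [map_mul]; exact Place.Zer.reg_mul (z3_reg_aeval hp c) ha }
  have hI : ∀ Q, Q ∈ I ↔ p.Zer (aeval (xs f) Q) := fun Q => Iff.rfl
  have hprime : I.IsPrime := by
    refine Ideal.isPrime_iff.2 ⟨?_, ?_⟩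
    · intro h
      have h2 : (1 : k[X]) ∈ I := by rw [h]; trivial
      rw [hI, map_one] at h2
      rcases h2 with h2 | h2
      · exact one_ne_zero h2
      · rw [p.ord_one] at h2; exact lt_irrefl _ h2
    · intro a b hab
      rw [hI, map_mul] at hab
      by_contra hcon
      rw [not_or, hI, hI] at hcon
      exact z3_nz_mul (z3_reg_aeval hp a) (z3_reg_aeval hp b) hcon.1 hcon.2 hab
  have hne : I ≠ ⊥ := by
    intro h
    have h2 : A ^ 2 - B ^ 2 * f ∈ I := by
      rw [hI, ← z3_norm]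
      exact hrz.mul_reg (z3_reg_el hp _ _)
    rw [h, Ideal.mem_bot] at h2
    have h3 := z3_norm f A B
    rw [h2, map_zero] at h3
    have h4 := (mul_eq_zero.1 h3).resolve_left hr0
    -- then `B = 0`
    rw [z3_el] at h4
    by_cases hB : B = 0
    · rw [hB, neg_zero, map_zero, zero_mul, add_zero] at h4
      apply hr0
      rw [z3_el, hB, map_zero, zero_mul, add_zero, h4]
    · have h5 : A ^ 2 = B ^ 2 * f := sub_eq_zero.1 h2
      have hA : A ≠ 0 := by
        rintro rfl
        rw [zero_pow two_ne_zero] at h5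
        exact mul_ne_zero (pow_ne_zero 2 hB) (Hyp.monic (f := f)).ne_zero h5.symm
      have h6 := congrArg natDegree h5
      rw [natDegree_pow, natDegree_mul (pow_ne_zero 2 hB) (Hyp.monic (f := f)).ne_zero,
        natDegree_pow] at h6
      obtain ⟨m, hm⟩ := Hyp.odd (f := f)
      omega
  have hpr : (Submodule.IsPrincipal.generator I) ≠ 0 := by
    intro h
    exact hne ((Submodule.IsPrincipal.eq_bot_iff_generator_eq_zero I).2 h)
  refine ⟨Submodule.IsPrincipal.generator I,
    Submodule.IsPrincipal.prime_generator_of_isPrime I hne, fun Q => ?_⟩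
  rw [← hI, Submodule.IsPrincipal.mem_iff_generator_dvd]

/-- the maximal ideal of the local ring is principal -/
private theorem z3_unif {f : k[X]} [Hyp f] {p : Place k (KC f)} (hp : p.Reg (xs f)) :
    ∃ A₀ B₀ : k[X], el f A₀ B₀ ≠ 0 ∧ p.Zer (el f A₀ B₀) ∧ ∀ A B, p.Zer (el f A B) →
      ∃ C E G H : k[X], ¬ p.Zer (el f C E) ∧ el f A B * el f C E = el f A₀ B₀ * el f G H := by
  obtain ⟨P, hP, hZ⟩ := z3_prime hp
  have hRy := z3_reg_ys hp
  have h1nz : ¬ p.Zer (1 : KC f) := by
    rintro (h | h)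
    · exact one_ne_zero h
    · rw [p.ord_one] at h; exact lt_irrefl _ h
  by_cases hPf : P ∣ f
  · obtain ⟨g, hg⟩ := hPf
    have hPg : ¬ P ∣ g := by
      rintro ⟨g', hg'⟩
      have h1 : P * P ∣ f := ⟨g', by rw [hg, hg', mul_assoc]⟩
      exact hP.not_isUnit (Hyp.sqf (f := f) P h1)
    have hyz : p.Zer (ys f) := by
      have h1 : p.Zer (ys f ^ 2) := by
        rw [ys_sq, hZ]; exact ⟨g, hg⟩
      rcases h1 with h1 | h1
      · exact Or.inl ((pow_eq_zero_iff two_ne_zero).1 h1)
      · rw [p.ord_pow] at h1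
        right
        push_cast at h1
        omega
    have h01 : el f 0 1 = ys f := by
      rw [z3_el, map_zero, map_one, zero_add, one_mul]
    refine ⟨0, 1, ?_, ?_, ?_⟩
    · rw [h01]; exact z3_ys_ne f
    · rw [h01]; exact hyz
    · intro A B hAB
      have hA : p.Zer (aeval (xs f) A) := by
        have h1 := hAB.sub (Place.Zer.reg_mul (z3_reg_aeval hp B) hyz)
        rw [z3_el, add_sub_cancel_right] at h1
        exact h1
      obtain ⟨A', hA'⟩ := (hZ A).1 hA
      refine ⟨g, 0, B * g, A', ?_, ?_⟩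
      · rw [z3_el_poly, hZ]; exact hPg
      · rw [h01, z3_el_poly, z3_el, z3_el, hA']
        have h2 : ys f ^ 2 = aeval (xs f) P * aeval (xs f) g := by
          rw [ys_sq, ← map_mul, ← hg]
        simp only [map_mul]
        linear_combination (-(aeval (xs f) A')) * h2
  · have hynz : ¬ p.Zer (ys f) := by
      intro h
      have h1 : p.Zer (ys f ^ 2) := by
        rw [pow_two]; exact h.mul_reg hRy
      rw [ys_sq, hZ] at h1
      exact hPf h1
    refine ⟨P, 0, ?_, ?_, ?_⟩
    · rw [z3_el_poly]; exact (DCf f).aeval_ne_zero hP.ne_zero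
    · rw [z3_el_poly, hZ]
    · intro A B hAB
      have hN : P ∣ A ^ 2 - B ^ 2 * f := by
        rw [← hZ, ← z3_norm]
        exact hAB.mul_reg (z3_reg_el hp _ _)
      by_cases hB : P ∣ B
      · have hA : P ∣ A := by
          have h1 : P ∣ A ^ 2 := by
            have h2 : P ∣ B ^ 2 * f := (hB.pow two_ne_zero).mul_right f
            have h3 := dvd_add hN h2
            rwa [sub_add_cancel] at h3
          exact hP.dvd_of_dvd_pow h1
        obtain ⟨A', hA'⟩ := hA
        obtain ⟨B', hB'⟩ := hB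
        refine ⟨1, 0, A', B', ?_, ?_⟩
        · rw [z3_el_poly, map_one]; exact h1nz
        · rw [z3_el_poly, z3_el_poly, z3_el, z3_el, hA', hB']
          simp only [map_mul, map_one]
          ring
      · obtain ⟨M, hM⟩ := hN
        refine ⟨A, -B, M, 0, ?_, ?_⟩
        · intro h
          have h1 := hAB.sub h
          have h2 : el f A B - el f A (-B) =
              algebraMap k (KC f) 2 * (aeval (xs f) B * ys f) := by
            rw [z3_el, z3_el, map_neg, map_ofNat]
            ring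
          rw [h2] at h1
          refine z3_nz_mul (p.reg_const 2) ((z3_reg_aeval hp B).mul hRy) ?_
            (z3_nz_mul (z3_reg_aeval hp B) hRy ?_ hynz) h1
          · rw [p.zer_const_iff]
            exact two_ne_zero
          · rw [hZ]; exact hB
        · rw [z3_norm, z3_el_poly, z3_el_poly, hM, map_mul]

theorem loc (f : k[X]) [Hyp f] (p : Place k (KC f)) (hp : p.Reg (xs f)) (z : KC f)
    (hz : p.Reg z) : ∃ A B C E : k[X], ¬ p.Zer (el f C E) ∧ z * el f C E = el f A B := by
  by_cases hz0 : z = 0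
  · refine ⟨0, 0, 1, 0, ?_, ?_⟩
    · rw [z3_el_poly, map_one]
      rintro (h | h)
      · exact one_ne_zero h
      · rw [p.ord_one] at h; exact lt_irrefl _ h
    · rw [hz0, zero_mul, z3_el_poly, map_zero]
  obtain ⟨A₀, B₀, hπ0, hπ, hun⟩ := z3_unif hp
  obtain ⟨π, hπd⟩ : ∃ π, π = el f A₀ B₀ := ⟨_, rfl⟩
  rw [← hπd] at hπ0 hπ hun
  have hπ1 : 0 < p.ord π := hπ.resolve_left hπ0
  have h1nz : ¬ p.Zer (1 : KC f) := by
    rintro (h | h)
    · exact one_ne_zero h
    · rw [p.ord_one] at h; exact lt_irrefl _ h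
  -- every element of the ring is a power of `π` times a unit
  have key : ∀ (N : ℕ) (A B : k[X]), el f A B ≠ 0 → p.ord (el f A B) ≤ N →
      ∃ (n : ℕ) (C E G H : k[X]), ¬ p.Zer (el f C E) ∧ ¬ p.Zer (el f G H) ∧
        el f A B * el f C E = π ^ n * el f G H := by
    intro N
    induction N with
    | zero =>
      intro A B h0 hord
      refine ⟨0, 1, 0, A, B, ?_, ?_, ?_⟩
      · rw [z3_el_poly, map_one]; exact h1nz
      · rintro (h | h)
        · exact h0 h
        · push_cast at hord; omega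
      · rw [z3_el_poly, map_one, pow_zero, one_mul, mul_one]
    | succ N ih =>
      intro A B h0 hord
      by_cases hAB : p.Zer (el f A B)
      · obtain ⟨C, E, G, H, hCE, heq⟩ := hun A B hAB
        have hC0 : el f C E ≠ 0 := fun h => hCE (Or.inl h)
        have hG0 : el f G H ≠ 0 := by
          intro h
          rw [h, mul_zero] at heq
          exact mul_ne_zero h0 hC0 heq
        have ho := congrArg p.ord heq
        rw [p.ord_mul _ _ h0 hC0, p.ord_mul _ _ hπ0 hG0,
          Place.ord_eq_zero_of_reg (z3_reg_el hp C E) hCE] at ho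
        obtain ⟨n, C', E', G', H', h1, h2, h3⟩ := ih G H hG0 (by push_cast at hord; omega)
        refine ⟨n + 1, C * C' + E * E' * f, C * E' + E * C', G', H', ?_, h2, ?_⟩
        · rw [← z3_el_mul]
          exact z3_nz_mul (z3_reg_el hp _ _) (z3_reg_el hp _ _) hCE h1
        · rw [← z3_el_mul, ← mul_assoc, heq, mul_assoc, h3, pow_succ]
          ring
      · refine ⟨0, 1, 0, A, B, ?_, hAB, ?_⟩
        · rw [z3_el_poly, map_one]; exact h1nz
        · rw [z3_el_poly, map_one, pow_zero, one_mul, mul_one]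
  obtain ⟨A, B, C, hC, hzC⟩ := z3_frac f z
  have hC0 : aeval (xs f) C ≠ 0 := (DCf f).aeval_ne_zero hC
  have hr0 : el f A B ≠ 0 := by
    rw [← hzC]; exact mul_ne_zero hz0 hC0
  obtain ⟨n1, C1, E1, G1, H1, hs1, hu1, he1⟩ := key (p.ord (el f A B)).toNat A B hr0
    (Int.self_le_toNat _)
  obtain ⟨n2, C2, E2, G2, H2, hs2, hu2, he2⟩ := key (p.ord (el f C 0)).toNat C 0
    (by rw [z3_el_poly]; exact hC0) (Int.self_le_toNat _)
  rw [z3_el_poly] at he2
  have nz : ∀ a : KC f, ¬ p.Zer a → a ≠ 0 := fun a ha h => ha (Or.inl h)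
  have o1 := congrArg p.ord he1
  rw [p.ord_mul _ _ hr0 (nz _ hs1), p.ord_mul _ _ (pow_ne_zero _ hπ0) (nz _ hu1), p.ord_pow,
    Place.ord_eq_zero_of_reg (z3_reg_el hp _ _) hs1,
    Place.ord_eq_zero_of_reg (z3_reg_el hp _ _) hu1] at o1
  have o2 := congrArg p.ord he2
  rw [p.ord_mul _ _ hC0 (nz _ hs2), p.ord_mul _ _ (pow_ne_zero _ hπ0) (nz _ hu2), p.ord_pow,
    Place.ord_eq_zero_of_reg (z3_reg_el hp _ _) hs2,
    Place.ord_eq_zero_of_reg (z3_reg_el hp _ _) hu2] at o2
  have o3 := congrArg p.ord hzC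
  rw [p.ord_mul _ _ hz0 hC0] at o3
  have o4 := hz.resolve_left hz0
  have hn : n2 ≤ n1 := by
    by_contra hcon
    push Not at hcon
    have h1 : (n1 : ℤ) + 1 ≤ n2 := by exact_mod_cast hcon
    nlinarith
  obtain ⟨m, rfl⟩ := Nat.exists_eq_add_of_le hn
  obtain ⟨P1, Q1, hPQ⟩ := z3_el_pow f A₀ B₀ m
  rw [← hπd] at hPQ
  obtain ⟨U, V, hUV⟩ : ∃ U V, el f P1 Q1 * (el f G1 H1 * el f C2 E2) = el f U V :=
    ⟨_, _, by rw [z3_el_mul, z3_el_mul]⟩
  refine ⟨U, V, G2 * C1 + H2 * E1 * f, G2 * E1 + H2 * C1, ?_, ?_⟩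
  · rw [← z3_el_mul]
    exact z3_nz_mul (z3_reg_el hp _ _) (z3_reg_el hp _ _) hu2 hs1
  · rw [← z3_el_mul]
    have h1 : z * (el f G2 H2 * el f C1 E1) = el f P1 Q1 * (el f G1 H1 * el f C2 E2) := by
      have h2 : π ^ n2 * (z * (el f G2 H2 * el f C1 E1)) =
          π ^ n2 * (el f P1 Q1 * (el f G1 H1 * el f C2 E2)) := by
        rw [← hPQ]
        calc π ^ n2 * (z * (el f G2 H2 * el f C1 E1))
            = z * (π ^ n2 * el f G2 H2) * el f C1 E1 := by ring
          _ = z * (aeval (xs f) C * el f C2 E2) * el f C1 E1 := by rw [← he2]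
          _ = (z * aeval (xs f) C) * el f C1 E1 * el f C2 E2 := by ring
          _ = el f A B * el f C1 E1 * el f C2 E2 := by rw [hzC]
          _ = π ^ (n2 + m) * el f G1 H1 * el f C2 E2 := by rw [he1]
          _ = π ^ n2 * (π ^ m * (el f G1 H1 * el f C2 E2)) := by rw [pow_add]; ring
      exact mul_left_cancel₀ (pow_ne_zero _ hπ0) h2
    rw [h1, hUV]

end Pool.Agent.LibHL77
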