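import Pool.Agent.LibHL77.Z1
import Pool.Agent.LibHL77.E1

/-!
[HL77 Z4a] the degree of zero-cycles. Proof. `exists_hom` with `Ψ M u = finrank k M` (tower law). Rational equivalence: in `IsDiv F 0 c` the set `S` contains all places
with `v.ord g ≠ 0`, because `RF v` is finite over `k` (`res_finite`, `funF_zero`), so `cyc q ≠ 0` for the specialisation `q` (`SpR_exists`); `sum_formula'`.
-/

open scoped Classical
open Polynomial

namespace Pool.Agent.LibHL77

open Pool.Agent.LibBH2
open Pool.Agent.LibCHd (VR RF Red FunF IsCps)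
open Pool.Agent.LibHyp34 (Hyp Pt Pic jP Sp KC DCf gn gen el mk)
open Pool.Agent.LibHD77
open Pool.Agent.LibHD77.Comb (Pat sub Cmp)

variable {k : Type} [Field k] [CharZero k] {n : ℕ}

theorem exists_deg (F : Fin n → k[X]) : ∃ A : Cyc k n →+ ℤ,
    (∀ (M : Type) [Field M] [Algebra k M] (u : Pnt F M), FunF k 0 M →
      A (cyc u) = Module.finrank k M) ∧ ∀ c ∈ RatEq F 0, A c = 0 := by
  obtain ⟨A, hA⟩ := exists_hom (F := F) 0 (G := ℤ) (fun M _ _ _ => (Module.finrank k M : ℤ)) (by
    intro M M' _ _ _ _ σ u _ _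
    have h1 : Module.finrank k σ.fieldRange * Module.finrank σ.fieldRange M' =
        Module.finrank k M' := Module.finrank_mul_finrank k σ.fieldRange M'
    have h2 : Module.finrank k M = Module.finrank k σ.fieldRange :=
      (AlgEquiv.ofInjectiveField σ).toLinearEquiv.finrank_eq
    rw [smul_eq_mul, h2, ← h1]
    push_cast
    ring)
  refine ⟨A, hA, fun c hc => ?_⟩
  have h : RatEq F 0 ≤ A.ker := by
    unfold RatEq
    rw [AddSubgroup.closure_le]
    rintro c ⟨K, _, _, u, g, S, C, hK, hg, h1, h2, rfl⟩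
    rw [SetLike.mem_coe, AddMonoidHom.mem_ker, map_sum]
    have hS : ∀ v : Place k K, v.ord g ≠ 0 → v ∈ S := by
      intro v hv
      by_contra hvS
      have hR := res_finite hK v
      choose q hq using fun a => SpR_exists v (u a)
      have h3 := h2 v hvS hv hR q hq
      have h4 := hA (RF v) q hR
      rw [h3, map_zero] at h4
      have h6 : FiniteDimensional k (RF v) := funF_zero.1 hR
      have h5 : Module.finrank k (RF v) ≠ 0 := Module.finrank_pos.ne'
      exact h5 (by exact_mod_cast h4.symm)
    rw [← sum_formula' hK g S hS]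
    refine Finset.sum_congr rfl fun v hv => ?_
    obtain ⟨h3, q, -, h4⟩ := h1 v hv
    rw [map_zsmul, h4, hA _ q h3, smul_eq_mul]
  exact h hc

end Pool.Agent.LibHL77
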