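import Pool.Agent.LibHL77.Z2
import Pool.Agent.LibHL77.Z3
import Pool.Agent.LibHL77.Z4a
import Pool.Agent.LibHD77.U1

/-!
[HL77 Z4] Abel's theorem for zero-cycles. Proof. `exists_hom` with `Ψ M u = single p (finrank k M)` if `Cen (F a) p (u a)` for a (unique, `cen_unique`) `p`, and `0` if there is none
(`cen_mpt`, `cen_of_mpt`). Second part: let `K, u, g, S, C` be as in `IsDiv F 0 c` (`S` contains all places with `v.ord g ≠ 0`, as in Z4a), `T = u a`. If `T = .inf` or the coordinates of `T` are algebraic over `k`: all specialisations are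
the images of the same point over `k(T)` (a finite extension of `k`, which embeds in every `RF v`), so `A c = (∑ ord_v g [RF v : k]) single p = 0` (`sum_formula'`) or all terms are zero, `h = 1`. Otherwise `x` is transcendental, `i : KC (F a) → K` with
`i xs = x`, `i ys = y` (`gen1_lift`, LibHD77/U1.lean, with `M₀ = k`); for `v ∈ S` the restriction `p_v` of `v` to `KC (F a)` (`exists_restrict`, LibCHd/B4.lean; `v` is not trivial on `i (KC)` because `K` is finite over it) is the place centred at `q_v a`
(`RF p_v → RF v`), so `A (C v) = single p_v (finrank k (RF v))`, and `norm_ord` gives `h`. For sums of divisors multiply the functions (closure_induction).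
-/

open scoped Classical
open Polynomial

namespace Pool.Agent.LibHL77

open Pool.Agent.LibBH2
open Pool.Agent.LibCHd (VR RF Red FunF IsCps)
open Pool.Agent.LibHyp34 (Hyp Pt Pic jP Sp KC DCf gn gen el mk)
open Pool.Agent.LibHD77
open Pool.Agent.LibHD77.Comb (Pat sub Cmp)

section aux

variable {k : Type} [Field k]

/-- the homomorphism of the residue fields for an extension of places -/
private theorem z4_res {H K : Type} [Field H] [Algebra k H] [Field K] [Algebra k K]
    (i : H →ₐ[k] K) (v : Place k H) (w : Place k K) (e : ℤ) (he : 0 < e)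
    (h : ∀ x, w.ord (i x) = e * v.ord x) :
    ∃ j : RF v →ₐ[k] RF w, ∀ x c, Red v x c → Red w (i x) (j c) := by
  have hreg : ∀ x, v.Reg x → w.Reg (i x) := by
    rintro x (hx | hx)
    · exact Or.inl (by rw [hx, map_zero])
    · exact Or.inr (by rw [h]; exact mul_nonneg he.le hx)
  let ι : VR v →+* VR w :=
    { toFun := fun x => ⟨i (x : H), hreg _ x.2⟩
      map_one' := Subtype.ext (map_one i)
      map_mul' := fun a b => Subtype.ext (map_mul i _ _)
      map_zero' := Subtype.ext (map_zero i)
      map_add' := fun a b => Subtype.ext (map_add i _ _) }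
  have : IsLocalHom ι := by
    refine ⟨fun a ha => ?_⟩
    refine Pool.Agent.LibCHd.isUnit_VR v a fun h' => ?_
    have h1 : w.Zer (i (a : H)) := by
      rcases h' with h' | h'
      · exact Or.inl (by rw [h', map_zero])
      · exact Or.inr (by rw [h]; exact mul_pos he h')
    exact (IsLocalRing.mem_maximalIdeal _).1
      ((Pool.Agent.LibCHd.mem_max_iff (ι a)).2 h1) ha
  let j₀ : RF v →+* RF w := IsLocalRing.ResidueField.map ι
  let j : RF v →ₐ[k] RF w :=
    { j₀ with
      commutes' := fun c => by
        change j₀ (IsLocalRing.residue (VR v) (algebraMap k (VR v) c)) =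
          IsLocalRing.residue (VR w) (algebraMap k (VR w) c)
        rw [IsLocalRing.ResidueField.map_residue]
        congr 1
        exact Subtype.ext (i.commutes c) }
  refine ⟨j, ?_⟩
  rintro x c ⟨h', rfl⟩
  exact ⟨hreg x h', (IsLocalRing.ResidueField.map_residue ι ⟨x, h'⟩).symm⟩

/-- a subfield on which the place is trivial embeds in the residue field -/
private theorem z4_triv {M K : Type} [Field M] [Algebra k M] [Field K] [Algebra k K]
    (j : M →ₐ[k] K) (w : Place k K) (hM : ∀ m, w.ord (j m) = 0) :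
    ∃ ε : M →ₐ[k] RF w, ∀ m, Red w (j m) (ε m) := by
  have hreg : ∀ m, j m ∈ VR w := fun m => Or.inr (by rw [hM])
  let f0 : M →+* VR w :=
    { toFun := fun m => ⟨j m, hreg m⟩
      map_one' := Subtype.ext (map_one j)
      map_mul' := fun a b => Subtype.ext (map_mul j a b)
      map_zero' := Subtype.ext (map_zero j)
      map_add' := fun a b => Subtype.ext (map_add j a b) }
  let f1 : M →+* RF w := (IsLocalRing.residue (VR w)).comp f0
  let f : M →ₐ[k] RF w :=
    { f1 with
      commutes' := by
        intro c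
        change IsLocalRing.residue (VR w) (f0 (algebraMap k M c)) =
          IsLocalRing.residue (VR w) (algebraMap k (VR w) c)
        congr 1
        exact Subtype.ext (j.commutes c) }
  exact ⟨f, fun m => ⟨hreg m, rfl⟩⟩

/-- places are trivial on algebraic subfields -/
private theorem z4_alg {M K : Type} [Field M] [Algebra k M] [Field K] [Algebra k K]
    (hM : Algebra.trdeg k M = 0) (j : M →ₐ[k] K) (P : Place k K) (m : M) : P.ord (j m) = 0 := by
  refine Pool.Agent.LibCHd.ord_triv_of_indep (ι := PEmpty) (by rw [hM]; simp) j P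
    (fun i => i.elim) (fun F hF => ?_) m
  obtain ⟨c, rfl⟩ := MvPolynomial.C_surjective PEmpty F
  have hc : c ≠ 0 := by
    rintro rfl
    exact hF (map_zero _)
  have h1 : j (MvPolynomial.aeval (fun i : PEmpty => (i.elim : M)) (MvPolynomial.C c)) =
      algebraMap k K c := by
    rw [MvPolynomial.aeval_C, AlgHom.commutes]
  rw [h1]
  exact ⟨P.ord_const c hc, (_root_.map_ne_zero _).2 hc⟩

/-- a place is not trivial on a subfield over which the function field is algebraic -/
private theorem z4_nontriv {H K : Type} [Field H] [Algebra k H] [Field K] [Algebra k K]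
    (hK : FunF k 1 K) (i : H →ₐ[k] K) (s : H) (hs : Transcendental k (i s)) (P : Place k K) :
    ∃ φ : H, P.ord (i φ) ≠ 0 := by
  by_contra hcon
  push Not at hcon
  obtain ⟨t, ht⟩ := P.exists_uniformizer
  have h1 : Algebra.trdeg k K ≤ Cardinal.mk PUnit := by
    rw [Pool.Agent.LibCHd.FunF.trdeg hK]
    simp
  have hind : AlgebraicIndependent k (fun _ : PUnit => i s) :=
    (algebraicIndependent_unique_type_iff (x := fun _ : PUnit => i s)).2 hs
  have h2 := Pool.Agent.LibCHd.ord_triv_of_indep h1 (AlgHom.id k K) P (fun _ => i s)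
    (fun F hF => ?_) t
  · rw [AlgHom.id_apply, ht] at h2
    exact one_ne_zero h2
  · refine ⟨?_, ?_⟩
    · have h3 : (AlgHom.id k K) (MvPolynomial.aeval (fun _ : PUnit => i s) F) =
          i (MvPolynomial.aeval (fun _ : PUnit => s) F) := by
        rw [AlgHom.id_apply, MvPolynomial.comp_aeval_apply]
      rw [h3]
      exact hcon _
    · intro h3
      exact hF (algebraicIndependent_iff.1 hind F h3)

/-- specialisations at a place and at its restriction -/
private theorem z4_spr {H K : Type} [Field H] [Algebra k H] [Field K] [Algebra k K]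
    (i : H →ₐ[k] K) (v : Place k H) (w : Place k K) (e : ℤ) (he : 0 < e)
    (h : ∀ x, w.ord (i x) = e * v.ord x) (j : RF v →ₐ[k] RF w)
    (hj : ∀ x c, Red v x c → Red w (i x) (j c)) {f : k[X]} (T : MPt f H) (q : MPt f (RF v))
    (hq : SpR v T q) : SpR w (mpt i T) (mpt j q) := by
  match T, q with
  | .inf, q =>
    have e1 : q = .inf := hq
    rw [e1]
    rfl
  | .aff x y h1, .inf =>
    change w.ord (i x) < 0
    rw [h]
    exact mul_neg_of_pos_of_neg he hq
  | .aff x y h1, .aff x₀ y₀ h2 =>
    exact ⟨hj _ _ hq.1, hj _ _ hq.2⟩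

/-- an algebraic point has coordinates in an algebraic subfield -/
private theorem z4_const {K : Type} [Field K] [Algebra k K] {f : k[X]} (T : MPt f K)
    (hT : IsAlgebraic k (xy T 0)) : ∃ (E : IntermediateField k K) (T₀ : MPt f E),
      Algebra.trdeg k E = 0 ∧ mpt E.val T₀ = T := by
  have h0 : ∀ c, IsIntegral k (xy T c) := by
    match T with
    | .inf =>
      intro c
      change IsIntegral k ((0 : Fin 2 → K) c)
      rw [Pi.zero_apply]
      exact isIntegral_zero
    | .aff x y h =>
      have hx : IsIntegral k x := hT.isIntegral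
      have hy : IsIntegral k y := by
        refine IsIntegral.of_pow (n := 2) (by norm_num) ?_
        rw [h, eval_map_algebraMap]
        have h2 : ((aeval (⟨x, hx⟩ : integralClosure k K) f : integralClosure k K) : K) =
            aeval x f := (Subalgebra.aeval_coe (integralClosure k K) ⟨x, hx⟩ f).symm
        rw [← h2]
        exact (aeval (⟨x, hx⟩ : integralClosure k K) f).2
      intro c
      change IsIntegral k ((![x, y] : Fin 2 → K) c)
      fin_cases c
      · exact hx
      · exact hy
  obtain ⟨T₀, hT₀⟩ := E0_lift (IntermediateField.adjoin k (Set.range (xy T))) T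
    (fun c => IntermediateField.subset_adjoin _ _ ⟨c, rfl⟩)
  refine ⟨_, T₀, ?_, hT₀⟩
  have h1 : Algebra.IsAlgebraic k (IntermediateField.adjoin k (Set.range (xy T))) := by
    apply IntermediateField.isAlgebraic_adjoin
    rintro _ ⟨c, rfl⟩
    exact h0 c
  exact trdeg_eq_zero_iff.2 h1

end aux

variable {k : Type} [Field k] [CharZero k] {n : ℕ}

omit [CharZero k] in
private theorem z4_gen1 (f : k[X]) [Hyp f] : Gen1 (Algebra.ofId k (KC f)) f (xs f) (ys f) := by
  refine ⟨ys_sq f, ?_, ?_⟩
  · intro G hG h0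
    exact hG ((transcendental_iff.1 (u3_trans f)) G h0)
  · apply u3_mem
    · exact IntermediateField.subset_adjoin _ _ (by simp)
    · exact IntermediateField.subset_adjoin _ _ (by simp)

private theorem z4_hom (F : Fin n → k[X]) [∀ a, Hyp (F a)] (a : Fin n) :
    ∃ A : Cyc k n →+ (Place k (KC (F a)) →₀ ℤ),
      (∀ (M : Type) [Field M] [Algebra k M] (u : Pnt F M) (p : Place k (KC (F a))), FunF k 0 M →
        Cen (F a) p (u a) → A (cyc u) = Finsupp.single p (Module.finrank k M : ℤ)) ∧
      ∀ (M : Type) [Field M] [Algebra k M] (u : Pnt F M), FunF k 0 M →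
        (∀ p : Place k (KC (F a)), ¬ Cen (F a) p (u a)) → A (cyc u) = 0 := by
  let Ψ : ∀ (M : Type) [Field M] [Algebra k M], Pnt F M → (Place k (KC (F a)) →₀ ℤ) :=
    fun M _ _ u => if h : ∃ p : Place k (KC (F a)), Cen (F a) p (u a) then
      Finsupp.single h.choose (Module.finrank k M : ℤ) else 0
  have hΨ1 : ∀ (M : Type) [Field M] [Algebra k M] (u : Pnt F M) (p : Place k (KC (F a))),
      Cen (F a) p (u a) → Ψ M u = Finsupp.single p (Module.finrank k M : ℤ) := by
    intro M _ _ u p hp
    have hex : ∃ p : Place k (KC (F a)), Cen (F a) p (u a) := ⟨p, hp⟩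
    have h1 : Ψ M u = Finsupp.single hex.choose (Module.finrank k M : ℤ) := dif_pos hex
    rw [h1, cen_unique (F a) hex.choose p (u a) hex.choose_spec hp]
  have hΨ2 : ∀ (M : Type) [Field M] [Algebra k M] (u : Pnt F M),
      (∀ p : Place k (KC (F a)), ¬ Cen (F a) p (u a)) → Ψ M u = 0 := by
    intro M _ _ u hp
    exact dif_neg (not_exists.2 hp)
  obtain ⟨A, hA⟩ := exists_hom (F := F) 0 Ψ (by
    intro M M' _ _ _ _ σ u hM' hu
    by_cases hex : ∃ p : Place k (KC (F a)), Cen (F a) p (u a)
    · obtain ⟨p, hp⟩ := hex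
      rw [hΨ1 M u p hp, hΨ1 M' (fun b => mpt σ (u b)) p (cen_mpt (F a) p σ (u a) hp),
        Finsupp.smul_single]
      congr 1
      have h1 : Module.finrank k M = Module.finrank k σ.fieldRange :=
        (AlgHom.equivFieldRange σ).toLinearEquiv.finrank_eq
      have h2 : Module.finrank k σ.fieldRange * Module.finrank σ.fieldRange M' =
        Module.finrank k M' := Module.finrank_mul_finrank k σ.fieldRange M'
      rw [h1, ← h2, smul_eq_mul]
      push_cast
      ring
    · rw [not_exists] at hex
      rw [hΨ2 M u hex, hΨ2 M' (fun b => mpt σ (u b))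
        (fun p hp => hex p (cen_of_mpt (F a) p σ (u a) hp)), smul_zero])
  exact ⟨A, fun M _ _ u p hM hp => (hA M u hM).trans (hΨ1 M u p hp),
    fun M _ _ u hM hp => (hA M u hM).trans (hΨ2 M u hp)⟩

private theorem z4_div (F : Fin n → k[X]) [∀ a, Hyp (F a)] (a : Fin n)
    (A : Cyc k n →+ (Place k (KC (F a)) →₀ ℤ))
    (hA1 : ∀ (M : Type) [Field M] [Algebra k M] (u : Pnt F M) (p : Place k (KC (F a))),
      FunF k 0 M → Cen (F a) p (u a) → A (cyc u) = Finsupp.single p (Module.finrank k M : ℤ))
    (hA2 : ∀ (M : Type) [Field M] [Algebra k M] (u : Pnt F M), FunF k 0 M →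
        (∀ p : Place k (KC (F a)), ¬ Cen (F a) p (u a)) → A (cyc u) = 0)
    (c : Cyc k n) (hc : IsDiv F 0 c) : ∃ h : KC (F a), h ≠ 0 ∧
        ∀ p, A c p = p.ord h * (Module.finrank k (RF p) : ℤ) := by
  obtain ⟨K, _, _, u, g, S, C, hK', hg, hS, hS', rfl⟩ := hc
  have hK : FunF k 1 K := hK'
  have hmem : ∀ v : Place k K, v.ord g ≠ 0 → v ∈ S := by
    intro v hv
    by_contra hvS
    have h0 := res_finite hK v
    choose q hq using fun b => SpR_exists v (u b)
    have h1 := hS' v hvS hv h0 q hq
    have : FiniteDimensional k (RF v) := funF_zero.1 h0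
    have : FiniteDimensional (fld q) (RF v) := FiniteDimensional.right k (fld q) (RF v)
    exact (cyc_ne_zero_iff q).2 (Module.finrank_pos (R := fld q) (M := RF v)).ne' h1
  have hsum : A (∑ v ∈ S, v.ord g • C v) = ∑ v ∈ S, v.ord g • A (C v) := by
    rw [map_sum]
    exact Finset.sum_congr rfl fun v _ => map_zsmul _ _ _
  rw [hsum]
  by_cases hx : IsAlgebraic k (xy (u a) 0)
  · obtain ⟨E, T₀, hE, hT₀⟩ := z4_const (u a) hx
    have hv : ∀ v : Place k K, ∃ ε : E →ₐ[k] RF v, ∀ q : MPt (F a) (RF v), SpR v (u a) q →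
        mpt ε T₀ = q := by
      intro v
      obtain ⟨ε, hε⟩ := z4_triv E.val v (z4_alg hE E.val v)
      refine ⟨ε, fun q hq => SpR_unique ?_ hq⟩
      rw [← hT₀]
      exact SpR_triv E.val v ε hε T₀
    refine ⟨1, one_ne_zero, fun p => ?_⟩
    rw [Place.ord_one, zero_mul]
    by_cases hp : ∃ p' : Place k (KC (F a)), Cen (F a) p' T₀
    · obtain ⟨p', hp'⟩ := hp
      have h1 : ∀ v ∈ S, v.ord g • A (C v) =
          Finsupp.single p' (v.ord g * (Module.finrank k (RF v) : ℤ)) := by
        intro v hvS
        obtain ⟨q, hq, hC⟩ := (hS v hvS).2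
        obtain ⟨ε, hε⟩ := hv v
        have h2 := cen_mpt (F a) p' ε T₀ hp'
        rw [hε _ (hq a)] at h2
        rw [hC, hA1 (RF v) q p' (hS v hvS).1 h2, Finsupp.smul_single, smul_eq_mul]
      rw [Finset.sum_congr rfl h1, ← Finsupp.single_finsetSum, sum_formula' hK g S hmem,
        Finsupp.single_zero, Finsupp.zero_apply]
    · rw [not_exists] at hp
      have h1 : ∀ v ∈ S, v.ord g • A (C v) = 0 := by
        intro v hvS
        obtain ⟨q, hq, hC⟩ := (hS v hvS).2
        obtain ⟨ε, hε⟩ := hv v
        have h2 : ∀ p : Place k (KC (F a)), ¬ Cen (F a) p (q a) := by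
          intro p h3
          rw [← hε _ (hq a)] at h3
          exact hp p (cen_of_mpt (F a) p ε T₀ h3)
        rw [hC, hA2 (RF v) q (hS v hvS).1 h2, smul_zero]
      rw [Finset.sum_eq_zero h1, Finsupp.zero_apply]
  · obtain ⟨i, hi, his⟩ : ∃ i : KC (F a) →ₐ[k] K,
        mpt i (gen (F a) : MPt (F a) (KC (F a))) = u a ∧ Transcendental k (i (xs (F a))) := by
      have key : ∀ T : MPt (F a) K, ¬ IsAlgebraic k (xy T 0) → ∃ i : KC (F a) →ₐ[k] K,
          mpt i (gen (F a) : MPt (F a) (KC (F a))) = T ∧ Transcendental k (i (xs (F a))) := by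
        intro T hT
        match T with
        | .inf =>
          exfalso
          apply hT
          change IsAlgebraic k ((0 : Fin 2 → K) 0)
          rw [Pi.zero_apply]
          exact isAlgebraic_zero
        | .aff x y h =>
          have hx : Transcendental k x := hT
          obtain ⟨i, -, hix, hiy⟩ := gen1_lift (F a) (Algebra.ofId k (KC (F a))) (xs (F a))
            (ys (F a)) (z4_gen1 (F a)) (Algebra.ofId k K) x y (by
              rw [h, eval_map_algebraMap]) (by
              intro G hG h0
              exact hG ((transcendental_iff.1 hx) G h0))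
          refine ⟨i, ?_, by rw [hix]; exact hx⟩
          refine mpt_ext ?_ ?_
          · rw [mpt_inf_iff]
            constructor <;> intro h' <;> cases h'
          · intro c
            rw [xy_mpt]
            fin_cases c
            · exact hix
            · exact hiy
      exact key (u a) hx
    have hrest : ∀ v : Place k K, ∃ (p : Place k (KC (F a))) (e : ℤ), 0 < e ∧
        ∀ z, v.ord (i z) = e * p.ord z := by
      intro v
      obtain ⟨φ, hφ⟩ := z4_nontriv hK i (xs (F a)) his v
      obtain ⟨p, e, he, h⟩ := Pool.Agent.LibCHd.exists_restrict i v φ hφ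
      exact ⟨p, e, by exact_mod_cast he, h⟩
    have hcen : ∀ (v : Place k K) (p : Place k (KC (F a))) (e : ℤ), 0 < e →
        (∀ z, v.ord (i z) = e * p.ord z) → ∀ q : MPt (F a) (RF v), SpR v (u a) q →
        Cen (F a) p q := by
      intro v p e he h q hq
      obtain ⟨j, hj⟩ := z4_res i p v e he h
      obtain ⟨q₀, hq₀⟩ := SpR_exists p (gen (F a) : MPt (F a) (KC (F a)))
      refine ⟨q₀, j, hq₀, ?_⟩
      refine SpR_unique (v := v) (p := u a) ?_ hq
      rw [← hi]
      exact z4_spr i p v e he h j hj _ _ hq₀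
    obtain ⟨h, hh, hN⟩ := norm_ord (funF_KC (F a)) hK i g hg
    refine ⟨h, hh, fun p => ?_⟩
    rw [hN p (S.filter fun v => ∃ e : ℤ, 0 < e ∧ ∀ x, v.ord (i x) = e * p.ord x)
      (fun w hw => (Finset.mem_filter.1 hw).2)
      (fun w hw hw' => Finset.mem_filter.2 ⟨hmem w hw', hw⟩), Finset.sum_filter,
      Finsupp.finsetSum_apply]
    refine Finset.sum_congr rfl fun v hv => ?_
    obtain ⟨q, hq, hC⟩ := (hS v hv).2
    obtain ⟨p', e', he', hp'⟩ := hrest v
    have h1 : A (C v) = Finsupp.single p' (Module.finrank k (RF v) : ℤ) := by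
      rw [hC]
      exact hA1 (RF v) q p' (hS v hv).1 (hcen v p' e' he' hp' _ (hq a))
    rw [h1, Finsupp.smul_apply, smul_eq_mul]
    by_cases hc : ∃ e : ℤ, 0 < e ∧ ∀ x, v.ord (i x) = e * p.ord x
    · rw [if_pos hc]
      obtain ⟨e, he, hp⟩ := hc
      have h2 : p' = p := cen_unique (F a) p' p (q a) (hcen v p' e' he' hp' _ (hq a))
        (hcen v p e he hp _ (hq a))
      rw [h2, Finsupp.single_eq_same]
    · rw [if_neg hc]
      have h2 : p' ≠ p := by
        rintro rfl
        exact hc ⟨e', he', hp'⟩
      rw [Finsupp.single_apply, if_neg h2, mul_zero]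

theorem exists_A (F : Fin n → k[X]) [∀ a, Hyp (F a)] (a : Fin n) :
    ∃ A : Cyc k n →+ (Place k (KC (F a)) →₀ ℤ),
      (∀ (M : Type) [Field M] [Algebra k M] (u : Pnt F M) (p : Place k (KC (F a))), FunF k 0 M →
        Cen (F a) p (u a) → A (cyc u) = Finsupp.single p (Module.finrank k M : ℤ)) ∧
      ∀ c ∈ RatEq F 0, ∃ h : KC (F a), h ≠ 0 ∧
        ∀ p, A c p = p.ord h * (Module.finrank k (RF p) : ℤ) := by
  obtain ⟨A, hA1, hA2⟩ := z4_hom F a
  refine ⟨A, hA1, fun c hc => ?_⟩
  induction hc using AddSubgroup.closure_induction with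
  | mem c hc => exact z4_div F a A hA1 hA2 c hc
  | zero =>
    refine ⟨1, one_ne_zero, fun p => ?_⟩
    rw [map_zero, Finsupp.zero_apply, Place.ord_one, zero_mul]
  | add c c' _ _ hc hc' =>
    obtain ⟨h, hh, e⟩ := hc
    obtain ⟨h', hh', e'⟩ := hc'
    refine ⟨h * h', mul_ne_zero hh hh', fun p => ?_⟩
    rw [map_add, Finsupp.add_apply, e, e', p.ord_mul h h' hh hh', add_mul]
  | neg c _ hc =>
    obtain ⟨h, hh, e⟩ := hc
    refine ⟨h⁻¹, inv_ne_zero hh, fun p => ?_⟩
    rw [map_neg, Finsupp.neg_apply, e, Place.ord_inv, neg_mul]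

end Pool.Agent.LibHL77
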