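import Pool.Agent.LibHL77.Z3
import Pool.Agent.LibHL77.E0
import Pool.Agent.LibHL77.B1

/-!
[HL77 Z6a] the function field of the curve over a larger field. Proofs. `exists_emb`: `KC f = k(xs)(ys)`: `gen1_lift` (LibHD77/U1.lean) or `AdjoinRoot.lift`, `RatFunc.liftRingHom`; `xs` is transcendental over `L`. `place_over`: `p` the place at `s` (`exists_cen`), `w` the place at `s` over `L`
(`exists_cen` for `f.map`); `w` restricted to `KC f` (`exists_restr`) is centred at `s`, so it is `p` (`cen_unique`), and the uniformizers in `exists_cen` correspond, so `e = 1`. `ord_comb`: let `m` be the smallest of the `p.ord (h i)`, `h i ≠ 0`, `z` with `p.ord z = m`;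
the `h i / z` are regular at `p` with values `c i ∈ k`, not all zero; `(∑ λ i ι(h i)) / ι(z)` is regular at `w` with the residue `∑ λ i c i ≠ 0` in `L ⊆ RF w` (linear independence), so the sum has the order `w.ord (ι z) = m`.
-/

open scoped Classical
open Polynomial

namespace Pool.Agent.LibHL77

open Pool.Agent.LibBH2
open Pool.Agent.LibCHd (VR RF Red FunF IsCps)
open Pool.Agent.LibHyp34 (Hyp Pt Pic jP Sp KC DCf gn gen el mk)
open Pool.Agent.LibHD77
open Pool.Agent.LibHD77.Comb (Pat sub Cmp)

variable {k : Type} [Field k] [CharZero k] (L : Type) [Field L] [Algebra k L] [CharZero L]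

private theorem Z6a_aeval_inj (f : k[X]) [Hyp f] {P : k[X]} (h : aeval (xs f) P = 0) : P = 0 := by
  by_contra hP
  exact (DCf f).aeval_ne_zero hP h

private theorem Z6a_hom_inj (f : k[X]) [Hyp f] : Function.Injective
    (((aeval (xs (f.map (algebraMap k L))) : L[X] →ₐ[L] KC (f.map (algebraMap k L))) :
      L[X] →+* KC (f.map (algebraMap k L))).comp (Polynomial.mapRingHom (algebraMap k L))) := by
  rw [injective_iff_map_eq_zero]
  intro P hP
  have h1 : aeval (xs (f.map (algebraMap k L))) (P.map (algebraMap k L)) = 0 := hP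
  have h2 := Z6a_aeval_inj (f.map (algebraMap k L)) h1
  exact (Polynomial.map_eq_zero _).1 h2

theorem exists_emb (f : k[X]) [Hyp f] : ∃ ι : EHom k L (KC f) (KC (f.map (algebraMap k L))),
    ι.f (xs f) = xs (f.map (algebraMap k L)) ∧ ι.f (ys f) = ys (f.map (algebraMap k L)) := by
  set f' : L[X] := f.map (algebraMap k L) with hf'
  let h0 : k[X] →+* KC f' := ((aeval (xs f') : L[X] →ₐ[L] KC f') : L[X] →+* KC f').comp
    (Polynomial.mapRingHom (algebraMap k L))
  have h0i : Function.Injective h0 := Z6a_hom_inj L f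
  have h0a : ∀ P : k[X], h0 P = aeval (xs f') (P.map (algebraMap k L)) := fun P => rfl
  let φ : RatFunc k →+* KC f' := RatFunc.liftRingHom h0
    (nonZeroDivisors_le_comap_nonZeroDivisors_of_injective _ h0i)
  have hφ : ∀ P : k[X], φ (algebraMap k[X] (RatFunc k) P) =
      aeval (xs f') (P.map (algebraMap k L)) := fun P => by
    rw [← h0a]
    exact RatFunc.liftRingHom_algebraMap _ _ _
  obtain ⟨ψ, hψ, hw⟩ := (DCf f).exists_hom (Pool.Agent.LibHyp34.nsq f) φ (ys f') (by
    rw [ys_sq, hφ]
    rfl)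
  refine ⟨⟨ψ, fun c => ?_⟩, ?_, hw⟩
  · have h1 : algebraMap k (KC f) c = (DCf f).ι (algebraMap k[X] (RatFunc k) (C c)) := by
      rw [(DCf f).ι_poly]; simp
    rw [h1, hψ, hφ, Polynomial.map_C, aeval_C]
  · change ψ ((DCf f).ι RatFunc.X) = xs f'
    rw [hψ, ← RatFunc.algebraMap_X, hφ, Polynomial.map_X, aeval_X]

private theorem Z6a_lft_inj {M M' : Type} [Field M] [Algebra k M] [Field M'] [Algebra L M']
    (i : EHom k L M M') {f : k[X]} {p q : MPt f M} (h : lft i p = lft i q) : p = q := by
  match p, q with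
  | .inf, .inf => rfl
  | .inf, .aff x y h1 => exact absurd h (by intro h; cases h)
  | .aff x y h1, .inf => exact absurd h (by intro h; cases h)
  | .aff x y h1, .aff x' y' h2 =>
    have h3 : i.f x = i.f x' ∧ i.f y = i.f y' := by
      have h4 := h
      simp only [lft, Pt.aff.injEq] at h4
      exact h4
    have e1 : x = x' := i.f.injective h3.1
    have e2 : y = y' := i.f.injective h3.2
    subst e1 e2
    rfl

/-- the place at a point is unique -/
private theorem Z6a_uniq (f : k[X]) [Hyp f] (s : Pt f) (p p' : Place k (KC f))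
    (hp : SpR p (gen f : MPt f (KC f)) (cst (RF p) s)) (hp' : Cen f p' (cst k s : MPt f k)) :
    p = p' := by
  apply cen_unique f p p' (cst (RF p) s : MPt f (RF p))
  · refine ⟨cst (RF p) s, AlgHom.id k (RF p), hp, ?_⟩
    exact mpt_cst _ s
  · have h1 := cen_mpt f p' (Algebra.ofId k (RF p)) _ hp'
    rw [mpt_cst] at h1
    exact h1

/-- the uniformizer at a point -/
private noncomputable def Z6a_t (f : k[X]) [Hyp f] (s : Pt f) : KC f :=
  match s with
    | .inf => xs f ^ (gn f) / ys f
    | .aff x y _ => if y = 0 then ys f else xs f - algebraMap k (KC f) x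

private theorem Z6a_t_map (f : k[X]) [Hyp f]
    (ι : EHom k L (KC f) (KC (f.map (algebraMap k L))))
    (h1 : ι.f (xs f) = xs (f.map (algebraMap k L)))
    (h2 : ι.f (ys f) = ys (f.map (algebraMap k L))) (s : Pt f) :
    ι.f (Z6a_t f s) = Z6a_t (f.map (algebraMap k L)) (cst L s : MPt f L) := by
  match s with
  | .inf =>
    change ι.f (xs f ^ (gn f) / ys f) = xs (f.map (algebraMap k L)) ^ (gn (f.map (algebraMap k L)))
      / ys (f.map (algebraMap k L))
    rw [map_div₀, map_pow, h1, h2, gn_map]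
  | .aff x y h =>
    change ι.f (if y = 0 then ys f else xs f - algebraMap k (KC f) x) =
      if algebraMap k L y = 0 then ys (f.map (algebraMap k L))
      else xs (f.map (algebraMap k L)) - algebraMap L (KC (f.map (algebraMap k L)))
        (algebraMap k L x)
    by_cases hy : y = 0
    · rw [if_pos hy, if_pos (by rw [hy, map_zero]), h2]
    · rw [if_neg hy, if_neg (by rwa [map_eq_zero]), map_sub, h1, ι.comm]

theorem place_over (f : k[X]) [Hyp f] (ι : EHom k L (KC f) (KC (f.map (algebraMap k L))))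
    (h1 : ι.f (xs f) = xs (f.map (algebraMap k L)))
    (h2 : ι.f (ys f) = ys (f.map (algebraMap k L))) (s : Pt f) (p : Place k (KC f))
    (w : Place L (KC (f.map (algebraMap k L))))
    (hp : SpR p (gen f : MPt f (KC f)) (cst (RF p) s))
    (hw : SpR w (gen (f.map (algebraMap k L)) : MPt (f.map (algebraMap k L)) _)
      (cst (RF w) (cst L s : MPt f L))) (z : KC f) : w.ord (ι.f z) = p.ord z := by
  obtain ⟨w₀, hw₀, -, -, -, hw₁⟩ := exists_cen (f.map (algebraMap k L)) (cst L s : MPt f L)
  obtain ⟨p₀, hp₀, -, -, -, -⟩ := exists_cen f s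
  have ew : w = w₀ := Z6a_uniq (f.map (algebraMap k L)) (cst L s : MPt f L) w w₀ hw hw₀
  have ep : p = p₀ := Z6a_uniq f s p p₀ hp hp₀
  have ht : w.ord (ι.f (Z6a_t f s)) = 1 := by
    rw [Z6a_t_map L f ι h1 h2 s, ew]
    exact hw₁
  obtain ⟨v, e, he, hv⟩ := exists_restr ι w (Z6a_t f s) (by rw [ht]; exact one_ne_zero)
  have he1 : e = 1 := by
    have h3 := hv (Z6a_t f s)
    rw [ht] at h3
    have h4 : e ∣ 1 := ⟨_, h3⟩
    rcases Int.isUnit_iff.1 (isUnit_of_dvd_one h4) with h | h
    · exact h
    · rw [h] at he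
      omega
  obtain ⟨j, hj⟩ := exists_resHom ι v w e he hv
  obtain ⟨q, hq⟩ := SpR_exists v (gen f : MPt f (KC f))
  have h3 := SpR_lft ι v w e he hv j hj (gen f : MPt f (KC f)) q hq
  have h4 : lft ι (gen f : MPt f (KC f)) =
      (gen (f.map (algebraMap k L)) : MPt (f.map (algebraMap k L)) _) := by
    simp only [gen, lft, Pt.aff.injEq]
    exact ⟨h1, h2⟩
  rw [h4] at h3
  have h5 : lft j q = lft j (cst (RF v) s : MPt f (RF v)) := by
    rw [lft_cst]
    exact SpR_unique h3 hw
  have h6 := Z6a_lft_inj L j h5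
  rw [h6] at hq
  have ev : v = p₀ := Z6a_uniq f s v p₀ hq hp₀
  rw [hv, he1, one_mul, ev, ep]

theorem ord_comb (f : k[X]) [Hyp f] (ι : EHom k L (KC f) (KC (f.map (algebraMap k L))))
    (h1 : ι.f (xs f) = xs (f.map (algebraMap k L)))
    (h2 : ι.f (ys f) = ys (f.map (algebraMap k L))) (s : Pt f) (p : Place k (KC f))
    (w : Place L (KC (f.map (algebraMap k L))))
    (hp : SpR p (gen f : MPt f (KC f)) (cst (RF p) s))
    (hw : SpR w (gen (f.map (algebraMap k L)) : MPt (f.map (algebraMap k L)) _)
      (cst (RF w) (cst L s : MPt f L))) {N : ℕ} (lam : Fin N → L) (hlam : LinearIndependent k lam)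
    (h : Fin N → KC f) (i : Fin N) (hi : h i ≠ 0) :
    w.ord (∑ j, algebraMap L _ (lam j) * ι.f (h j)) ≤ p.ord (h i) := by
  have hord := place_over L f ι h1 h2 s p w hp hw
  obtain ⟨p₀, hp₀, -, -, hfr, -⟩ := exists_cen f s
  have ep : p = p₀ := Z6a_uniq f s p p₀ hp hp₀
  rw [← ep] at hfr
  -- values in `k`
  have hval : ∀ z, p.Reg z → ∃ c : k, p.Zer (z - algebraMap k (KC f) c) := by
    intro z hz
    obtain ⟨c, hc⟩ := LibCHd.exists_red hz
    obtain ⟨a, ha⟩ := (finrank_eq_one_iff_of_nonzero' (1 : RF p) one_ne_zero).1 hfr c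
    refine ⟨a, ?_⟩
    rw [← LibCHd.red_iff_val, Algebra.algebraMap_eq_smul_one, ha]
    exact hc
  -- the minimum
  obtain ⟨j₀, hj₀, hmin⟩ := Finset.exists_min_image (Finset.univ.filter fun j => h j ≠ 0)
    (fun j => p.ord (h j)) ⟨i, by simp [hi]⟩
  have hz0 : h j₀ ≠ 0 := by
    have := (Finset.mem_filter.1 hj₀).2
    exact this
  have hreg : ∀ j, p.Reg (h j / h j₀) := by
    intro j
    by_cases hj : h j = 0
    · left
      rw [hj, zero_div]
    · right
      rw [p.ord_div _ _ hj hz0]
      have := hmin j (by simp [hj])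
      linarith
  choose c hc using fun j => hval _ (hreg j)
  have hc0 : c j₀ = 1 := by
    have h3 := hc j₀
    rw [div_self hz0] at h3
    have h4 : p.Zer ((1 : KC f) - algebraMap k (KC f) 1) := by
      rw [map_one, sub_self]
      exact p.zer_zero
    exact Place.val_unique h3 h4
  have hz' : ι.f (h j₀) ≠ 0 := (map_ne_zero ι.f).2 hz0
  -- values at `w`
  have hcw : ∀ j, w.Zer (ι.f (h j / h j₀) - algebraMap L _ (algebraMap k L (c j))) := by
    intro j
    rw [← ι.comm, ← map_sub]
    rcases hc j with h3 | h3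
    · left
      rw [h3, map_zero]
    · right
      rw [hord]
      exact h3
  have hsum : ∀ S : Finset (Fin N), w.Zer (∑ j ∈ S, algebraMap L _ (lam j) * ι.f (h j / h j₀) -
      algebraMap L (KC (f.map (algebraMap k L))) (∑ j ∈ S, lam j * algebraMap k L (c j))) := by
    intro S
    induction S using Finset.induction_on with
    | empty => simp [Place.zer_zero]
    | insert a S ha ih =>
      rw [Finset.sum_insert ha, Finset.sum_insert ha]
      exact Place.val_add (Place.val_mul (Place.val_const _) (hcw a)) ih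
  have hne : ∑ j, lam j * algebraMap k L (c j) ≠ 0 := by
    intro h3
    have h4 := Fintype.linearIndependent_iff.1 hlam c (by
      rw [← h3]
      refine Finset.sum_congr rfl fun j _ => ?_
      rw [Algebra.smul_def, mul_comm]) j₀
    rw [hc0] at h4
    exact one_ne_zero h4
  have h5 := Place.ord_eq_zero_of_val (hsum Finset.univ) hne
  have h6 := Place.ne_zero_of_val (hsum Finset.univ) hne
  have h7 : ∑ j, algebraMap L _ (lam j) * ι.f (h j) = ι.f (h j₀) *
      ∑ j, algebraMap L _ (lam j) * ι.f (h j / h j₀) := by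
    rw [Finset.mul_sum]
    refine Finset.sum_congr rfl fun j _ => ?_
    rw [map_div₀]
    field_simp
  rw [h7, w.ord_mul _ _ hz' h6, h5, add_zero, hord]
  exact hmin i (by simp [hi])

end Pool.Agent.LibHL77
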