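import Pool.Agent.LibHL77.Z5
import Pool.Agent.LibHL77.Z6a
import Pool.Agent.LibHL77.Z1

/-!
[HL77 Z6b] injectivity of `Pic(C / k) → Pic(C / L)` modulo torsion. Proof. Let `N • D_L` have class zero, `h ∈ KC f_L` with divisor `N D_L` (`mk_zero_iff`; the places at rational points: `exists_cen`); the degree of `D` is zero (`sum_formula'` over `L`, rational
places have `finrank 1`). Let `C = ∏ (X - x) ^ e ∈ k[X]` over the affine points `(x, y)` of the support of `D`, `e` large, so that `h' = h C(xs)` is regular where `xs` is: `h' = el f_L A B` (`reg_el`). Write `A = ∑ λ_i A_i`, `B = ∑ λ_i B_i` with `A_i, B_i ∈ k[X]`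
and `λ_i ∈ L` linearly independent over `k` (a basis of the span of the coefficients), so `h' = ∑ λ_i ι(h_i)`, `h_i = el f A_i B_i`; take `h_i ≠ 0`. `ord_comb`: `ord_p h_i ≥ ord_w h' = (N D + div C(xs))(s)` at all rational points `s` (including infinity); at other places
`ord_p h_i ≥ 0`, and `C(xs)` has order `0` there (its zeros are the points `(x, ± y)`, rational). Both `h_i` and `N D + div C(xs)` have degree zero (`sum_formula'`), so all these inequalities are equalities and `h_i / C(xs)` has the divisor `N D`: `mk_zero_iff`.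
-/

open scoped Classical
open Polynomial

namespace Pool.Agent.LibHL77

open Pool.Agent.LibBH2
open Pool.Agent.LibCHd (VR RF Red FunF IsCps)
open Pool.Agent.LibHyp34 (Hyp Pt Pic jP Sp KC DCf gn gen el mk)
open Pool.Agent.LibHD77
open Pool.Agent.LibHD77.Comb (Pat sub Cmp)

variable {k : Type} [Field k] [CharZero k]

/-! ### the places at the rational points -/

theorem z6_cst_inj (M : Type) [Field M] [Algebra k M] {f : k[X]} {s s' : Pt f}
    (h : (cst M s : MPt f M) = cst M s') : s = s' := by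
  match s, s' with
  | .inf, .inf => rfl
  | .inf, .aff x y hxy => cases h
  | .aff x y hxy, .inf => cases h
  | .aff x y hxy, .aff x' y' hxy' =>
    simp only [cst, Pt.aff.injEq] at h
    obtain ⟨h1, h2⟩ := h
    have e1 := (algebraMap k M).injective h1
    have e2 := (algebraMap k M).injective h2
    subst e1 e2
    rfl

/-- the place at a rational point -/
noncomputable def z6_pl (f : k[X]) [Hyp f] (s : Pt f) : Place k (KC f) := (exists_cen f s).choose

theorem z6_pl_cen (f : k[X]) [Hyp f] (s : Pt f) : Cen f (z6_pl f s) (cst k s : MPt f k) :=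
  (exists_cen f s).choose_spec.1

theorem z6_pl_sp (f : k[X]) [Hyp f] (s : Pt f) :
    SpR (z6_pl f s) (gen f : MPt f (KC f)) (cst (RF (z6_pl f s)) s) :=
  (exists_cen f s).choose_spec.2.1

theorem z6_pl_deg (f : k[X]) [Hyp f] (s : Pt f) : Module.finrank k (RF (z6_pl f s)) = 1 :=
  (exists_cen f s).choose_spec.2.2.2.1

theorem z6_eq_pl (f : k[X]) [Hyp f] (p : Place k (KC f)) (s : Pt f)
    (h : SpR p (gen f : MPt f (KC f)) (cst (RF p) s)) : p = z6_pl f s := by
  have h1 : Cen f (z6_pl f s) (cst (RF p) s : MPt f (RF p)) := by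
    have h2 := cen_mpt f (z6_pl f s) (Algebra.ofId k (RF p)) _ (z6_pl_cen f s)
    rwa [mpt_cst] at h2
  exact cen_unique f p (z6_pl f s) (cst (RF p) s) ⟨cst (RF p) s, AlgHom.id k _, h, mpt_cst _ _⟩ h1

theorem z6_pl_inj (f : k[X]) [Hyp f] {s s' : Pt f} (h : z6_pl f s = z6_pl f s') : s = s' := by
  have h1 := z6_pl_sp f s
  rw [h] at h1
  exact z6_cst_inj _ (SpR_unique h1 (z6_pl_sp f s'))

/-! ### orders of algebraic elements, finiteness -/

theorem z6_ord_alg {K : Type} [Field K] [Algebra k K] (v : Place k K) {g : K}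
    (hg : IsAlgebraic k g) : v.ord g = 0 := by
  have key : ∀ g : K, IsAlgebraic k g → ¬ 0 < v.ord g := by
    intro g hg h0
    have hg0 : g ≠ 0 := by
      rintro rfl
      rw [v.ord_zero] at h0
      exact lt_irrefl _ h0
    have h1 : Red v g 0 := Pool.Agent.LibCHd.red_zero_iff.2 (Or.inr h0)
    have h2 := red_aeval h1 (minpoly k g)
    rw [minpoly.aeval] at h2
    have h3 := h2.unique (Pool.Agent.LibCHd.red_zero v)
    rw [← map_zero (algebraMap k (RF v)), aeval_algebraMap_apply, coe_aeval_eq_eval,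
      ← coeff_zero_eq_eval_zero] at h3
    have h4 := (algebraMap k (RF v)).injective h3
    exact minpoly.coeff_zero_ne_zero hg.isIntegral hg0 h4
  have h1 := key g hg
  have h2 := key g⁻¹ hg.inv
  rw [Place.ord_inv] at h2
  omega

theorem z6_fin (f : k[X]) [Hyp f] (g : KC f) :
    ∃ S : Finset (Place k (KC f)), ∀ p : Place k (KC f), p.ord g ≠ 0 → p ∈ S := by
  by_cases ha : IsAlgebraic k g
  · exact ⟨∅, fun p hp => absurd (z6_ord_alg p ha) hp⟩
  · have hb : Transcendental k g⁻¹ := fun h => ha (IsAlgebraic.inv_iff.1 h)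
    obtain ⟨S, hS, -⟩ := sum_zeros' (funF_KC f) g ha
    obtain ⟨T, hT, -⟩ := sum_zeros' (funF_KC f) g⁻¹ hb
    refine ⟨S ∪ T, fun p hp => ?_⟩
    rw [Finset.mem_union]
    rcases lt_or_gt_of_ne hp with h | h
    · right
      rw [hT, Place.ord_inv]
      omega
    · left
      rw [hS]
      exact h

theorem z6_deg (f : k[X]) [Hyp f] (D : Pt f →₀ ℤ) (h : mk f D = 0) :
    D.sum (fun _ n => n) = 0 := by
  obtain ⟨g, hg, h1, h2⟩ := (mk_zero_iff f D).1 h
  have h3 := sum_formula' (funF_KC f) g (D.support.image (z6_pl f)) (fun p hp => by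
    obtain ⟨s, hs⟩ := h1 p hp
    rw [Finset.mem_image]
    refine ⟨s, ?_, (z6_eq_pl f p s hs).symm⟩
    rw [Finsupp.mem_support_iff, ← h2 p s hs]
    exact hp)
  rw [Finset.sum_image (fun s _ s' _ e => z6_pl_inj f e)] at h3
  rw [Finsupp.sum, ← h3]
  refine Finset.sum_congr rfl fun s _ => ?_
  rw [z6_pl_deg, h2 _ s (z6_pl_sp f s)]
  simp

theorem z6_main (f : k[X]) [Hyp f] (D : Pt f →₀ ℤ) (hD : D.sum (fun _ n => n) = 0) (g : KC f)
    (hg : g ≠ 0) (h1 : ∀ s, D s ≤ (z6_pl f s).ord g)
    (h2 : ∀ p : Place k (KC f), (¬ ∃ s, p = z6_pl f s) → 0 ≤ p.ord g) : mk f D = 0 := by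
  obtain ⟨r, hr⟩ : ∃ r : Place k (KC f) → ℤ, (∀ s, r (z6_pl f s) = D s) ∧
      ∀ p, (¬ ∃ s, p = z6_pl f s) → r p = 0 := by
    refine ⟨fun p => if h : ∃ s, p = z6_pl f s then D h.choose else 0, fun s => ?_, fun p hp => ?_⟩
    · have h : ∃ s', z6_pl f s = z6_pl f s' := ⟨s, rfl⟩
      show (if h : ∃ s', z6_pl f s = z6_pl f s' then D h.choose else 0) = D s
      rw [dif_pos h]
      rw [z6_pl_inj f h.choose_spec.symm]
    · show (if h : ∃ s, p = z6_pl f s then D h.choose else 0) = 0
      rw [dif_neg hp]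
  obtain ⟨hr1, hr2⟩ := hr
  obtain ⟨S₀, hS₀⟩ := z6_fin f g
  obtain ⟨S, hS⟩ : ∃ S, S = S₀ ∪ D.support.image (z6_pl f) := ⟨_, rfl⟩
  have hdeg : ∀ p : Place k (KC f), (0 : ℤ) < Module.finrank k (RF p) := by
    intro p
    have : FiniteDimensional k (RF p) := funF_zero.1 (res_finite (funF_KC f) p)
    exact_mod_cast Module.finrank_pos
  have hge : ∀ p : Place k (KC f), 0 ≤ p.ord g - r p := by
    intro p
    by_cases hp : ∃ s, p = z6_pl f s
    · obtain ⟨s, rfl⟩ := hp
      rw [hr1]
      linarith [h1 s]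
    · rw [hr2 p hp]
      linarith [h2 p hp]
  have e1 : ∑ p ∈ S, p.ord g * (Module.finrank k (RF p) : ℤ) = 0 := by
    refine sum_formula' (funF_KC f) g S fun p hp => ?_
    rw [hS, Finset.mem_union]
    exact Or.inl (hS₀ p hp)
  have e2 : ∑ p ∈ S, r p * (Module.finrank k (RF p) : ℤ) = 0 := by
    have e3 : ∑ p ∈ D.support.image (z6_pl f), r p * (Module.finrank k (RF p) : ℤ) =
        ∑ p ∈ S, r p * (Module.finrank k (RF p) : ℤ) := by
      refine Finset.sum_subset ?_ fun p _ hp => ?_
      · rw [hS]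
        exact Finset.subset_union_right
      · have : r p = 0 := by
          by_cases hp' : ∃ s, p = z6_pl f s
          · obtain ⟨s, rfl⟩ := hp'
            rw [hr1]
            by_contra hne
            exact hp (Finset.mem_image_of_mem _ (Finsupp.mem_support_iff.2 hne))
          · exact hr2 p hp'
        rw [this, zero_mul]
    rw [← e3, Finset.sum_image (fun s _ s' _ e => z6_pl_inj f e), ← hD, Finsupp.sum]
    refine Finset.sum_congr rfl fun s _ => ?_
    rw [z6_pl_deg, hr1]
    simp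
  have e4 : ∑ p ∈ S, (p.ord g - r p) * (Module.finrank k (RF p) : ℤ) = 0 := by
    simp only [sub_mul]
    rw [Finset.sum_sub_distrib, e1, e2, sub_zero]
  have e5 : ∀ p ∈ S, (p.ord g - r p) * (Module.finrank k (RF p) : ℤ) = 0 :=
    (Finset.sum_eq_zero_iff_of_nonneg fun p _ => mul_nonneg (hge p) (hdeg p).le).1 e4
  have e6 : ∀ p : Place k (KC f), p.ord g = r p := by
    intro p
    by_cases hp : p ∈ S
    · rcases mul_eq_zero.1 (e5 p hp) with h | h
      · linarith
      · exact absurd h (hdeg p).ne'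
    · rw [hS, Finset.mem_union, not_or] at hp
      have h3 : p.ord g = 0 := by
        by_contra hne
        exact hp.1 (hS₀ p hne)
      rw [h3]
      by_cases hp' : ∃ s, p = z6_pl f s
      · obtain ⟨s, rfl⟩ := hp'
        rw [hr1]
        by_contra hne
        exact hp.2 (Finset.mem_image_of_mem _ (Finsupp.mem_support_iff.2 fun h => hne h.symm))
      · exact (hr2 p hp').symm
  refine (mk_zero_iff f D).2 ⟨g, hg, fun p hp => ?_, fun p s hs => ?_⟩
  · by_contra hcon
    apply hp
    rw [e6]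
    apply hr2
    rintro ⟨s, rfl⟩
    exact hcon ⟨s, z6_pl_sp f s⟩
  · rw [z6_eq_pl f p s hs, e6, hr1]

/-! ### polynomials with coefficients in the larger field -/

theorem z6_basis (L : Type) [Field L] [Algebra k L] (T : Finset L) :
    ∃ (N : ℕ) (lam : Fin N → L) (φ : Fin N → L → k), LinearIndependent k lam ∧
      ∀ c ∈ T, ∑ i, lam i * algebraMap k L (φ i c) = c := by
  obtain ⟨V, hV⟩ : ∃ V : Submodule k L, V = Submodule.span k (T : Set L) := ⟨_, rfl⟩
  have hfin : Module.Finite k V := by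
    rw [hV]
    exact Module.Finite.span_of_finite k T.finite_toSet
  obtain ⟨b, -⟩ : ∃ b : Module.Basis (Fin (Module.finrank k V)) k V, b = Module.finBasis k V := ⟨_, rfl⟩
  refine ⟨Module.finrank k V, fun i => (b i : L),
    fun i c => if hc : c ∈ V then b.repr ⟨c, hc⟩ i else 0, ?_, fun c hc => ?_⟩
  · exact b.linearIndependent.map' V.subtype (Submodule.ker_subtype V)
  · have hcV : c ∈ V := by
      rw [hV]
      exact Submodule.subset_span hc
    have h1 := congrArg (V.subtype) (b.sum_repr ⟨c, hcV⟩)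
    rw [map_sum] at h1
    simp only [map_smul, Submodule.subtype_apply] at h1
    rw [← h1]
    refine Finset.sum_congr rfl fun i _ => ?_
    rw [h1]
    show (b i : L) * algebraMap k L (if hc : c ∈ V then b.repr ⟨c, hc⟩ i else 0) = _
    rw [dif_pos hcV, Algebra.smul_def, mul_comm]

theorem z6_poly {L : Type} [Field L] [Algebra k L] {N : ℕ} {lam : Fin N → L}
    {φ : Fin N → L → k} (A : L[X]) (h : ∀ j, A.coeff j ≠ 0 →
      ∑ i, lam i * algebraMap k L (φ i (A.coeff j)) = A.coeff j) :
    ∑ i, C (lam i) * (∑ j ∈ A.support, monomial j (φ i (A.coeff j)) : k[X]).map (algebraMap k L) =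
      A := by
  have h1 : ∀ i, C (lam i) * (∑ j ∈ A.support, monomial j (φ i (A.coeff j)) : k[X]).map
      (algebraMap k L) = ∑ j ∈ A.support, monomial j (lam i * algebraMap k L (φ i (A.coeff j))) := by
    intro i
    rw [Polynomial.map_sum, Finset.mul_sum]
    refine Finset.sum_congr rfl fun j _ => ?_
    rw [Polynomial.map_monomial, C_mul_monomial]
  rw [Finset.sum_congr rfl fun i _ => h1 i, Finset.sum_comm]
  conv_rhs => rw [A.as_sum_support]
  refine Finset.sum_congr rfl fun j hj => ?_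
  rw [← map_sum, h j (mem_support_iff.1 hj)]

theorem z6_emb {L : Type} [Field L] [Algebra k L] [CharZero L] {f : k[X]} [Hyp f]
    (ι : EHom k L (KC f) (KC (f.map (algebraMap k L))))
    (h1 : ι.f (xs f) = xs (f.map (algebraMap k L))) (G : k[X]) :
    ι.f (aeval (xs f) G) = aeval (xs (f.map (algebraMap k L))) (G.map (algebraMap k L)) := by
  rw [aeval_def, aeval_def, hom_eval₂, eval₂_map, h1]
  congr 1
  exact RingHom.ext ι.comm

theorem z6_reg {f : k[X]} [Hyp f] {p : Place k (KC f)} (h : p.Reg (xs f)) (G : k[X]) :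
    p.Reg (aeval (xs f) G) := by
  obtain ⟨c, hc⟩ := Pool.Agent.LibCHd.exists_red h
  exact (red_aeval hc G).reg

theorem z6_ne {f : k[X]} [Hyp f] {G : k[X]} (h : G ≠ 0) : aeval (xs f) G ≠ 0 := by
  intro h0
  exact u3_trans f ⟨G, h, h0⟩

/-- the factor for a point -/
noncomputable def z6_cc {f : k[X]} : Pt f → k[X]
  | .inf => 1
  | .aff x _ _ => X - C x

theorem z6_cc_ne {f : k[X]} (s : Pt f) : z6_cc s ≠ 0 := by
  match s with
  | .inf => exact one_ne_zero
  | .aff x y h => exact X_sub_C_ne_zero x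

/-- a place at which the product of the factors vanishes is rational -/
theorem z6_rat (f : k[X]) [Hyp f] (S : Finset (Pt f)) (p : Place k (KC f))
    (hp : ¬ ∃ s, p = z6_pl f s) : p.Reg (xs f) ∧ p.Reg (ys f) ∧
      p.ord (aeval (xs f) (∏ s ∈ S, z6_cc s)) = 0 := by
  obtain ⟨q, hq⟩ := SpR_exists p (gen f : MPt f (KC f))
  match q, hq with
  | .inf, hq =>
    exfalso
    apply hp
    refine ⟨.inf, z6_eq_pl f p .inf ?_⟩
    exact hq
  | .aff x₀ y₀ h₀, hq =>
    have hx : Red p (xs f) x₀ := hq.1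
    have hy : Red p (ys f) y₀ := hq.2
    refine ⟨hx.reg, hy.reg, ?_⟩
    refine (red_aeval hx (∏ s ∈ S, z6_cc s)).ord_eq_zero ?_
    rw [map_prod]
    intro h1
    obtain ⟨s, hs, h2⟩ := Finset.prod_eq_zero_iff.1 h1
    match s, h2 with
    | .inf, h2 =>
      have h3 : aeval x₀ (1 : k[X]) = 0 := h2
      rw [map_one] at h3
      exact one_ne_zero h3
    | .aff x y hxy, h2 =>
      have h3 : aeval x₀ (X - C x : k[X]) = 0 := h2
      rw [map_sub, aeval_X, aeval_C, sub_eq_zero] at h3
      have h4 : y₀ ^ 2 = (algebraMap k (RF p) y) ^ 2 := by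
        rw [h₀, h3, eval_map_algebraMap, aeval_algebraMap_apply, coe_aeval_eq_eval, ← hxy, map_pow]
      rcases sq_eq_sq_iff_eq_or_eq_neg.1 h4 with h5 | h5
      · apply hp
        refine ⟨.aff x y hxy, z6_eq_pl f p _ ?_⟩
        refine ⟨?_, ?_⟩
        · show Red p (xs f) (algebraMap k (RF p) x)
          rw [← h3]
          exact hx
        · show Red p (ys f) (algebraMap k (RF p) y)
          rw [← h5]
          exact hy
      · apply hp
        refine ⟨.aff x (-y) (by rw [neg_sq]; exact hxy), z6_eq_pl f p _ ?_⟩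
        refine ⟨?_, ?_⟩
        · show Red p (xs f) (algebraMap k (RF p) x)
          rw [← h3]
          exact hx
        · show Red p (ys f) (algebraMap k (RF p) (-y))
          rw [map_neg, ← h5]
          exact hy

theorem z6_inj (L : Type) [Field L] [Algebra k L] [CharZero L] (f : k[X]) [Hyp f]
    (E : Pt f →₀ ℤ)
    (h : mk (f.map (algebraMap k L)) (E.mapDomain (fun s => (cst L s : MPt f L))) = 0) :
    mk f E = 0 := by
  have hinj : Function.Injective (fun s : Pt f => (cst L s : MPt f L)) := fun s s' e =>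
    z6_cst_inj L e
  have hsum : E.sum (fun _ n => n) = 0 := by
    have h1 := z6_deg _ _ h
    rw [Finsupp.sum_mapDomain_index (fun _ => rfl) (fun _ _ _ => rfl)] at h1
    exact h1
  obtain ⟨g, hg, hg1, hg2⟩ := (mk_zero_iff _ _).1 h
  obtain ⟨ι, hι1, hι2⟩ := exists_emb L f
  have hE : ∀ s, E.mapDomain (fun s => (cst L s : MPt f L)) (cst L s : MPt f L) = E s := fun s =>
    Finsupp.mapDomain_apply hinj E s
  have hE' : ∀ t : MPt f L, E.mapDomain (fun s => (cst L s : MPt f L)) t ≠ 0 →
      ∃ s, E s ≠ 0 ∧ t = cst L s := by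
    intro t ht
    by_cases hr : t ∈ Set.range (fun s : Pt f => (cst L s : MPt f L))
    · obtain ⟨s, rfl⟩ := hr
      refine ⟨s, ?_, rfl⟩
      have h1 := hE s
      rw [← h1]
      exact ht
    · exact absurd (Finsupp.mapDomain_notin_range _ _ hr) ht
  obtain ⟨P, hP⟩ : ∃ P : k[X], P = ∏ s ∈ E.support, z6_cc s := ⟨_, rfl⟩
  have hP0 : P ≠ 0 := by
    rw [hP]
    exact Finset.prod_ne_zero_iff.2 fun s _ => z6_cc_ne s
  obtain ⟨e, he⟩ : ∃ e : ℕ, ∀ s, (E s).natAbs ≤ e := by
    refine ⟨∑ s ∈ E.support, (E s).natAbs, fun s => ?_⟩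
    by_cases hs : s ∈ E.support
    · exact Finset.single_le_sum (f := fun s => (E s).natAbs) (fun _ _ => Nat.zero_le _) hs
    · rw [Finsupp.notMem_support_iff.1 hs]
      simp
  obtain ⟨z, hz⟩ : ∃ z : KC f, z = aeval (xs f) P ^ e := ⟨_, rfl⟩
  have hz0 : z ≠ 0 := by
    rw [hz]
    exact pow_ne_zero _ (z6_ne hP0)
  have hιz : ι.f z = aeval (xs (f.map (algebraMap k L))) (P.map (algebraMap k L)) ^ e := by
    rw [hz, map_pow, z6_emb ι hι1]
  have hιz0 : ι.f z ≠ 0 := by
    intro h0
    exact hz0 ((map_eq_zero ι.f).1 h0)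
  have hreg : ∀ w : Place L (KC (f.map (algebraMap k L))), w.Reg (xs (f.map (algebraMap k L))) →
      w.Reg (g * ι.f z) := by
    intro w hw
    have hwz : w.Reg (ι.f z) := by
      rw [hιz]
      exact (z6_reg hw _).pow e
    by_cases h0 : 0 ≤ w.ord g
    · exact Place.Reg.mul (Or.inr h0) hwz
    · right
      rw [w.ord_mul _ _ hg hιz0]
      obtain ⟨t, ht⟩ := hg1 w (by omega)
      have h1 := hg2 w t ht
      obtain ⟨s, hs, rfl⟩ := hE' t (by rw [← h1]; omega)
      rw [hE] at h1
      have h2 := he s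
      match s, ht, hs, h1, h2 with
      | .inf, ht, hs, h1, h2 =>
        exfalso
        have h3 : w.ord (xs (f.map (algebraMap k L))) < 0 := ht
        exact not_reg h3 hw
      | .aff x y hxy, ht, hs, h1, h2 =>
        have h3 : Red w (xs (f.map (algebraMap k L)))
          (algebraMap L (RF w) (algebraMap k L x)) := ht.1
        have h4 := red_aeval h3 (P.map (algebraMap k L))
        have h5 : P.eval x = 0 := by
          rw [hP, eval_prod]
          refine Finset.prod_eq_zero (Finsupp.mem_support_iff.2 hs) ?_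
          show (X - C x : k[X]).eval x = 0
          simp
        rw [aeval_algebraMap_apply, coe_aeval_eq_eval, eval_map_algebraMap, aeval_algebraMap_apply,
          coe_aeval_eq_eval, h5, map_zero, map_zero, Pool.Agent.LibCHd.red_zero_iff] at h4
        have h6 : 0 < w.ord (aeval (xs (f.map (algebraMap k L))) (P.map (algebraMap k L))) := by
          refine h4.resolve_left ?_
          exact z6_ne (by rwa [Ne, Polynomial.map_eq_zero])
        rw [hιz, w.ord_pow]
        have h7 : (e : ℤ) ≤ e * w.ord (aeval (xs (f.map (algebraMap k L)))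
            (P.map (algebraMap k L))) := by nlinarith
        omega
  obtain ⟨A, B, hAB⟩ := reg_el _ (g * ι.f z) hreg
  obtain ⟨N, lam, φ, hlam, hφ⟩ := z6_basis (k := k) L (A.support.image A.coeff ∪ B.support.image B.coeff)
  obtain ⟨a, ha⟩ : ∃ a : Fin N → k[X], a = fun i => ∑ j ∈ A.support, monomial j (φ i (A.coeff j)) :=
    ⟨_, rfl⟩
  obtain ⟨b, hb⟩ : ∃ b : Fin N → k[X], b = fun i => ∑ j ∈ B.support, monomial j (φ i (B.coeff j)) :=
    ⟨_, rfl⟩
  have hA : ∑ i, C (lam i) * (a i).map (algebraMap k L) = A := by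
    rw [ha]
    refine z6_poly A fun j hj => hφ _ ?_
    exact Finset.mem_union_left _ (Finset.mem_image_of_mem _ (mem_support_iff.2 hj))
  have hB : ∑ i, C (lam i) * (b i).map (algebraMap k L) = B := by
    rw [hb]
    refine z6_poly B fun j hj => hφ _ ?_
    exact Finset.mem_union_right _ (Finset.mem_image_of_mem _ (mem_support_iff.2 hj))
  have hsumel : g * ι.f z = ∑ i, algebraMap L (KC (f.map (algebraMap k L))) (lam i) *
      ι.f (el f (a i) (b i)) := by
    rw [hAB]
    have h1 : el (f.map (algebraMap k L)) A B = aeval (xs (f.map (algebraMap k L))) A +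
      aeval (xs (f.map (algebraMap k L))) B * ys (f.map (algebraMap k L)) := rfl
    rw [h1]
    conv_lhs => rw [← hA, ← hB]
    rw [map_sum, map_sum, Finset.sum_mul, ← Finset.sum_add_distrib]
    refine Finset.sum_congr rfl fun i _ => ?_
    have h2 : el f (a i) (b i) = aeval (xs f) (a i) + aeval (xs f) (b i) * ys f := rfl
    have h3 : ι.f (el f (a i) (b i)) = aeval (xs (f.map (algebraMap k L))) ((a i).map (algebraMap k L)) +
        aeval (xs (f.map (algebraMap k L))) ((b i).map (algebraMap k L)) *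
          ys (f.map (algebraMap k L)) := by
      rw [h2, map_add, z6_emb ι hι1, map_mul, z6_emb ι hι1, hι2]
    rw [h3, map_mul, map_mul, aeval_C]
    ring
  obtain ⟨i, hi⟩ : ∃ i, el f (a i) (b i) ≠ 0 := by
    by_contra hcon
    push Not at hcon
    apply mul_ne_zero hg hιz0
    rw [hsumel]
    refine Finset.sum_eq_zero fun i _ => ?_
    rw [hcon i, map_zero, mul_zero]
  refine z6_main f E hsum (el f (a i) (b i) / z) (div_ne_zero hi hz0) ?_ ?_
  · intro s
    rw [Place.ord_div _ _ _ hi hz0]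
    have h1 := ord_comb L f ι hι1 hι2 s (z6_pl f s) (z6_pl (f.map (algebraMap k L)) (cst L s : MPt f L))
      (z6_pl_sp f s) (z6_pl_sp _ _) lam hlam (fun i => el f (a i) (b i)) i hi
    rw [← hsumel, Place.ord_mul _ _ _ hg hιz0, hg2 _ _ (z6_pl_sp _ _), hE,
      place_over L f ι hι1 hι2 s (z6_pl f s) _ (z6_pl_sp f s) (z6_pl_sp _ _)] at h1
    linarith
  · intro p hp
    obtain ⟨h1, h2, h3⟩ := z6_rat f E.support p hp
    rw [Place.ord_div _ _ _ hi hz0, hz, Place.ord_pow, hP, h3, mul_zero, sub_zero]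
    have h4 : p.Reg (el f (a i) (b i)) := by
      have h5 : el f (a i) (b i) = aeval (xs f) (a i) + aeval (xs f) (b i) * ys f := rfl
      rw [h5]
      exact (z6_reg h1 _).add ((z6_reg h1 _).mul h2)
    exact h4.resolve_left hi

theorem pic_inj (L : Type) [Field L] [Algebra k L] [CharZero L] (f : k[X]) [Hyp f]
    (D : Pt f →₀ ℤ)
    (h : IsOfFinAddOrder (mk (f.map (algebraMap k L))
      (D.mapDomain (fun s => (cst L s : MPt f L))))) : IsOfFinAddOrder (mk f D) := by
  rw [isOfFinAddOrder_iff_nsmul_eq_zero] at h ⊢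
  obtain ⟨N, hN, h1⟩ := h
  refine ⟨N, hN, ?_⟩
  rw [← map_nsmul]
  apply z6_inj L f
  rw [← map_nsmul] at h1
  rw [← h1]
  congr 1
  exact Finsupp.mapDomain_smul N D

end Pool.Agent.LibHL77
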